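import Pool.Agent.H.MP_7a8a58_gt.h83c.EvG
import Pool.Agent.H.MP_7a8a58_gt.h59.MainU

/-!
MP_7a8a58_gt, helper83 and helper59, fourth part: the groups of closed integral affine 3-manifolds with virtually
reducible linear holonomy.
-/

set_option autoImplicit false

open Set Metric Topology Filter

namespace H83T

open H59E

/-- a free action by affine maps of a quotient of `ℝⁿ`: the group is torsion-free -/
theorem tf_of_isQuotientOfRn {n : ℕ} (S : IntAffPair n) (h : S.IsQuotientOfRn) : TF S.Γ := by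
  obtain ⟨Φ, t, hΦ⟩ := h
  intro g m hm hgm
  -- the mean of the orbit of a point
  obtain ⟨x⟩ : Nonempty S.X := inferInstance
  set y : Fin n → ℝ := (m : ℝ)⁻¹ • ∑ i ∈ Finset.range m, Φ (g ^ i • x) with hy
  have hm0 : (m : ℝ) ≠ 0 := by
    exact_mod_cast hm.ne'
  have hfix : (rM (S.lin g)).mulVec y + rV (t g) = y := by
    have h1 : ∀ i, Φ (g ^ (i + 1) • x) =
        (rM (S.lin g)).mulVec (Φ (g ^ i • x)) + rV (t g) := by
      intro i
      rw [pow_succ', mul_smul, hΦ]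
    have h2 : ∑ i ∈ Finset.range m, Φ (g ^ (i + 1) • x) =
        ∑ i ∈ Finset.range m, Φ (g ^ i • x) := by
      have h3 := Finset.sum_range_succ (fun i => Φ (g ^ i • x)) m
      have h4 := Finset.sum_range_succ' (fun i => Φ (g ^ i • x)) m
      rw [h4] at h3
      simp only [hgm, pow_zero] at h3
      exact add_right_cancel h3
    have h5 : (rM (S.lin g)).mulVec (∑ i ∈ Finset.range m, Φ (g ^ i • x)) + (m : ℝ) • rV (t g) =
        ∑ i ∈ Finset.range m, Φ (g ^ i • x) := by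
      rw [Matrix.mulVec_sum]
      conv_rhs => rw [← h2]
      simp only [h1, Finset.sum_add_distrib, Finset.sum_const, Finset.card_range]
      rw [← Nat.cast_smul_eq_nsmul ℝ]
    have h6 : (m : ℝ)⁻¹ • ((rM (S.lin g)).mulVec (∑ i ∈ Finset.range m, Φ (g ^ i • x)) +
        (m : ℝ) • rV (t g)) = y := by
      rw [h5]
    rw [smul_add, smul_smul, inv_mul_cancel₀ hm0, one_smul] at h6
    rw [hy, Matrix.mulVec_smul]
    exact h6
  have h7 : Φ (g • Φ.symm y) = y := by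
    rw [hΦ, Homeomorph.apply_symm_apply]
    exact hfix
  have h8 : g • Φ.symm y = Φ.symm y := by
    rw [← Homeomorph.symm_apply_apply Φ (g • Φ.symm y), h7]
  exact S.free g _ h8

theorem tf_of_equiv {G Γ : Type} [Group G] [Group Γ] (e : G ≃* Γ) (h : TF G) : TF Γ := by
  intro g m hm hg
  have h1 : e.symm g = 1 := by
    refine h (e.symm g) m hm ?_
    rw [← map_pow, hg, map_one]
  have h2 := congrArg e h1
  rw [MulEquiv.apply_symm_apply, map_one] at h2
  exact h2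

theorem virtTorus_of_equiv {G Γ : Type} [Group G] [Group Γ] (e : G ≃* Γ) {q : ℕ}
    {M : GL (Fin q) ℤ} (h : VirtTorus G q M) : VirtTorus Γ q M := by
  obtain ⟨f, H, hfin, hinj, hmem, hmul⟩ := h
  refine ⟨fun x => e (f x), H.map e.toMonoidHom, ?_, fun x y hxy => hinj (e.injective hxy), ?_, ?_⟩
  · refine ⟨?_⟩
    have h1 : (H.map e.toMonoidHom).index = H.index := Subgroup.index_map_equiv H e
    rw [h1]
    exact hfin.index_ne_zero
  · intro g
    rw [Subgroup.mem_map]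
    constructor
    · rintro ⟨x, hx, rfl⟩
      obtain ⟨y, rfl⟩ := (hmem x).1 hx
      exact ⟨y, rfl⟩
    · rintro ⟨x, rfl⟩
      exact ⟨f x, (hmem _).2 ⟨x, rfl⟩, rfl⟩
  · intro a b j k
    rw [← map_mul, hmul]

theorem virtTorus_of_cover {n : ℕ} (S : IntAffPair n) (Γ'' : Subgroup S.Γ) (hf : Γ''.FiniteIndex)
    (M : GL (Fin 2) ℤ) (h : S.TorusCover Γ'' M) : VirtTorus S.Γ 2 M := by
  obtain ⟨-, f, h1, h2, h3⟩ := h
  refine ⟨fun x => f x.1 x.2, Γ'', hf, ?_, ?_, ?_⟩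
  · rintro ⟨a, j⟩ ⟨b, k⟩ hab
    obtain ⟨rfl, rfl⟩ := h1 a j b k hab
    rfl
  · intro g
    rw [h2]
    constructor
    · rintro ⟨a, j, rfl⟩
      exact ⟨(a, j), rfl⟩
    · rintro ⟨⟨a, j⟩, rfl⟩
      exact ⟨a, j, rfl⟩
  · intro a b j k
    exact h3 a j b k

/-- the plane of the first two coordinates -/
theorem exists_preserved_of_good {Γ : Type} [Group Γ] (h : Good Γ 3) :
    ∃ (S : IntAffPair 3) (Γ' : Subgroup S.Γ) (V : Submodule ℚ (Fin 3 → ℚ)),
      Nonempty (S.Γ ≃* Γ) ∧ Γ'.FiniteIndex ∧ V ≠ ⊥ ∧ V ≠ ⊤ ∧ S.Preserves Γ' V := by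
  obtain ⟨S, he, -, -, Γ', hf, hrow⟩ := h
  refine ⟨S, Γ', LinearMap.ker (LinearMap.proj (R := ℚ) (φ := fun _ : Fin 3 => ℚ) 2), he, hf,
    ?_, ?_, ?_⟩
  · intro hbot
    have h1 : (Pi.single 0 1 : Fin 3 → ℚ) ∈
        LinearMap.ker (LinearMap.proj (R := ℚ) (φ := fun _ : Fin 3 => ℚ) 2) := by
      rw [LinearMap.mem_ker]
      simp
    rw [hbot, Submodule.mem_bot] at h1
    have := congrFun h1 0
    simp at this
  · intro htop
    have h1 : (Pi.single 2 1 : Fin 3 → ℚ) ∈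
        LinearMap.ker (LinearMap.proj (R := ℚ) (φ := fun _ : Fin 3 => ℚ) 2) := by
      rw [htop]
      trivial
    rw [LinearMap.mem_ker] at h1
    simp at h1
  · intro γ hγ v hv
    rw [LinearMap.mem_ker] at hv ⊢
    have h1 := hrow γ hγ 2 (by decide)
    simp only [LinearMap.proj_apply] at hv ⊢
    simp only [Matrix.mulVec, dotProduct, Matrix.map_apply, h1, Fin.sum_univ_three]
    simp [hv]

theorem groups3 (Γ : Type) [Group Γ] :
    (∃ (S : IntAffPair 3) (Γ' : Subgroup S.Γ) (V : Submodule ℚ (Fin 3 → ℚ)),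
      Nonempty (S.Γ ≃* Γ) ∧ Γ'.FiniteIndex ∧ V ≠ ⊥ ∧ V ≠ ⊤ ∧ S.Preserves Γ' V) ↔
    TF Γ ∧ ∃ M : GL (Fin 2) ℤ, VirtTorus Γ 2 M := by
  constructor
  · rintro ⟨S, Γ', V, ⟨e⟩, hf, h0, h1, hp⟩
    refine ⟨tf_of_equiv e (tf_of_isQuotientOfRn S (final3 S Γ' hf V h0 h1 hp)), ?_⟩
    obtain ⟨Γ'', hf', M, hM⟩ := torusCover3 S Γ' hf V h0 h1 hp
    exact ⟨M, virtTorus_of_equiv e (virtTorus_of_cover S Γ'' hf' M hM)⟩
  · rintro ⟨htf, M, hM⟩
    exact exists_preserved_of_good (main_torus htf hM)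

end H83T
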