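import Pool.Agent.H.MP_7a8a58_gt.h83.FinA

/-!
MP_7a8a58_gt, helper83, second part.  Integral affine actions on `ℝ² × ℝ`, slices.
Paper proof: /team-store/h83_7a8a58_T3.md
-/

set_option autoImplicit false

open Set Metric Topology Filter

namespace H83T

/-- A free cocompact affine action of `G` on `ℝ² × ℝ` by integral maps
`(v, p) ↦ (A v + p B + a, p + β)`. -/
structure SlAct {G : Type} [Group G]
    (act : G → ((Fin 2 → ℝ) × ℝ) → ((Fin 2 → ℝ) × ℝ))
    (A : G →* GL (Fin 2) ℤ) (B a : G → (Fin 2 → ℤ)) (β : G → ℤ) : Prop where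
  act_def : ∀ (g : G) (v : Fin 2 → ℝ) (p : ℝ),
    act g (v, p) = ((rM (A g)).mulVec v + p • rV (B g) + rV (a g), p + (β g : ℝ))
  one : ∀ z, act 1 z = z
  mul : ∀ g h z, act (g * h) z = act g (act h z)
  free : ∀ g z, act g z = z → g = 1
  coc : ∃ C : Set ((Fin 2 → ℝ) × ℝ), IsCompact C ∧ ∀ z, ∃ g, act g z ∈ C

variable {G : Type} [Group G] {act : G → ((Fin 2 → ℝ) × ℝ) → ((Fin 2 → ℝ) × ℝ)}
  {A : G →* GL (Fin 2) ℤ} {B a : G → (Fin 2 → ℤ)} {β : G → ℤ}

theorem SlAct.beta_mul (S : SlAct act A B a β) (g h : G) : β (g * h) = β g + β h := by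
  have h1 := congrArg Prod.snd (S.mul g h (0, 0))
  rw [S.act_def h, S.act_def (g * h), S.act_def g] at h1
  have h2 : (0 : ℝ) + (β (g * h) : ℝ) = 0 + (β h : ℝ) + (β g : ℝ) := h1
  have h3 : ((β (g * h) : ℤ) : ℝ) = ((β g + β h : ℤ) : ℝ) := by
    push_cast
    linarith
  exact_mod_cast h3

private theorem EaSlice_one (S : SlAct act A B a β) : β 1 = 0 := by
  have h := S.beta_mul 1 1
  rw [mul_one] at h
  omega

private theorem EaSlice_hom (S : SlAct act A B a β) :
    ∃ φ : G →* Multiplicative ℤ, ∀ g, (φ g).toAdd = β g :=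
  ⟨{ toFun := fun g => Multiplicative.ofAdd (β g)
     map_one' := by rw [EaSlice_one S]; rfl
     map_mul' := fun g h => by rw [S.beta_mul]; rfl }, fun _ => rfl⟩

theorem SlAct.beta_zpow (S : SlAct act A B a β) (g : G) (j : ℤ) : β (g ^ j) = j * β g := by
  obtain ⟨φ, hφ⟩ := EaSlice_hom S
  rw [← hφ, ← hφ, map_zpow, toAdd_zpow, smul_eq_mul]

/-- PROOF: `β` is not zero (otherwise the coordinate `p` is invariant and unbounded: `coc`); take `s` with the least
positive value of `β`; division with remainder. -/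
theorem SlAct.exists_gen (S : SlAct act A B a β) : ∃ s : G, 0 < β s ∧ ∀ g : G, β s ∣ β g := by
  obtain ⟨φ, hφ⟩ := EaSlice_hom S
  have h0 : ∃ g : G, 0 < β g := by
    by_contra hne
    push Not at hne
    have hz : ∀ g : G, β g = 0 := by
      intro g
      have h1 := hne g
      have h2 := hne g⁻¹
      have h3 := S.beta_mul g g⁻¹
      rw [mul_inv_cancel, EaSlice_one S] at h3
      omega
    obtain ⟨C, hC, hc⟩ := S.coc
    obtain ⟨M, hM⟩ := hC.exists_bound_of_continuousOn (f := fun z => z.2)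
      continuous_snd.continuousOn
    obtain ⟨g, hg⟩ := hc (0, M + 1)
    have h1 := hM _ hg
    rw [S.act_def, hz g] at h1
    have h2 : ‖M + 1 + ((0 : ℤ) : ℝ)‖ ≤ M := h1
    rw [Int.cast_zero, add_zero, Real.norm_eq_abs] at h2
    linarith [le_abs_self (M + 1)]
  classical
  have h1 : ∃ m : ℕ, 0 < m ∧ ∃ g : G, β g = m := by
    obtain ⟨g, hg⟩ := h0
    exact ⟨(β g).toNat, by omega, g, by omega⟩
  obtain ⟨hm, s, hs⟩ := Nat.find_spec h1
  refine ⟨s, by omega, fun g => ?_⟩
  have h2 := Int.emod_nonneg (β g) (b := β s) (by omega)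
  have h3 := Int.emod_lt_of_pos (β g) (b := β s) (by omega)
  refine Int.dvd_of_emod_eq_zero ?_
  by_contra hne
  have h4 : β (g * s ^ (-(β g / β s))) = β g % β s := by
    rw [S.beta_mul, S.beta_zpow]
    have := Int.emod_add_mul_ediv (β g) (β s)
    linarith
  refine Nat.find_min h1 (m := (β g % β s).toNat) (by omega)
    ⟨by omega, g * s ^ (-(β g / β s)), ?_⟩
  rw [h4]
  omega

/-- PROOF: if the determinant is not zero the real matrix `rM (A n) - 1` is invertible and `act n (v, 0) = (v, 0)` has a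
solution; so `n = 1` and the matrix is 0. -/
theorem SlAct.det_sub_one (S : SlAct act A B a β) {n : G} (hn : β n = 0) :
    ((A n).val - 1).det = 0 := by
  by_contra hne
  have h1 : (rM (A n) - 1).det = ((((A n).val - 1).det : ℤ) : ℝ) := by
    have h2 : rM (A n) - 1 = (Int.castRingHom ℝ).mapMatrix ((A n).val - 1) := by
      rw [map_sub, map_one]
      rfl
    rw [h2]
    exact ((Int.castRingHom ℝ).map_det _).symm
  have h2 : IsUnit (rM (A n) - 1).det := by
    rw [h1, isUnit_iff_ne_zero]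
    exact_mod_cast hne
  have h3 : act n ((rM (A n) - 1)⁻¹.mulVec (-rV (a n)), 0) =
      ((rM (A n) - 1)⁻¹.mulVec (-rV (a n)), 0) := by
    rw [S.act_def, hn]
    have h4 : (rM (A n) - 1).mulVec ((rM (A n) - 1)⁻¹.mulVec (-rV (a n))) = -rV (a n) := by
      rw [Matrix.mulVec_mulVec, Matrix.mul_nonsing_inv _ h2, Matrix.one_mulVec]
    rw [Matrix.sub_mulVec, Matrix.one_mulVec, sub_eq_iff_eq_add] at h4
    rw [h4]
    simp
  have h5 := S.free n _ h3
  apply hne
  rw [h5, map_one, Units.val_one, sub_self, Matrix.det_zero]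

private theorem EaSlice_cont (S : SlAct act A B a β) (g : G) : Continuous (act g) := by
  have h1 : act g = fun z => ((rM (A g)).mulVec z.1 + z.2 • rV (B g) + rV (a g),
      z.2 + (β g : ℝ)) := by
    funext z
    exact S.act_def g z.1 z.2
  rw [h1]
  exact (((continuous_const.matrix_mulVec continuous_fst).add
    (continuous_snd.smul continuous_const)).add continuous_const).prodMk
    (continuous_snd.add continuous_const)

private theorem EaSlice_det (g : GL (Fin 2) ℤ) : g.val.det = 1 ∨ g.val.det = -1 :=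
  Int.isUnit_iff.1 ((Matrix.isUnit_iff_isUnit_det _).1 g.isUnit)

/-- PROOF: `C` from `coc`, `s` from `exists_gen`. For `v` let `g` with `act g (v, p) ∈ C`; `|β g|` is bounded, `β g = j * β s`
with `|j| ≤ J`; `n = s ^ (-j) * g` has `β n = 0` and `act n (v, p) ∈ act (s ^ (-j)) '' C`, a finite union of compact sets.
This gives the claim without the determinant; if `det (A n) = -1` compose with one fixed `n₀` with `β n₀ = 0`,
`det (A n₀) = -1` (if there is one). -/
theorem SlAct.coc_slice (S : SlAct act A B a β) (p : ℝ) : ∃ R : ℝ, ∀ v : Fin 2 → ℝ, ∃ n : G,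
    β n = 0 ∧ (A n).val.det = 1 ∧ ‖(act n (v, p)).1‖ ≤ R := by
  obtain ⟨C, hC, hc⟩ := S.coc
  obtain ⟨s, hs, hd⟩ := S.exists_gen
  obtain ⟨M, hM⟩ := hC.exists_bound_of_continuousOn (f := fun z => z.2)
    continuous_snd.continuousOn
  obtain ⟨J, hJ⟩ := exists_nat_ge (M + |p|)
  -- the claim without the determinant
  have hK : ∃ K : Set ((Fin 2 → ℝ) × ℝ), IsCompact K ∧ ∀ v : Fin 2 → ℝ, ∃ n : G,
      β n = 0 ∧ act n (v, p) ∈ K := by
    refine ⟨⋃ j ∈ Icc (-(J : ℤ)) J, act (s ^ (-j)) '' C,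
      (Set.finite_Icc (-(J : ℤ)) J).isCompact_biUnion fun j _ => hC.image (EaSlice_cont S _),
      fun v => ?_⟩
    obtain ⟨g, hg⟩ := hc (v, p)
    obtain ⟨j, hj⟩ := hd g
    have h1 := hM _ hg
    rw [S.act_def] at h1
    have h2 : |p + (β g : ℝ)| ≤ M := h1
    have h3 : |(β g : ℝ)| ≤ J := by
      have h4 : |(β g : ℝ)| ≤ |p + (β g : ℝ)| + |p| := by
        have := abs_sub (p + (β g : ℝ)) p
        rwa [add_sub_cancel_left] at this
      linarith
    have h5 : |β g| ≤ (J : ℤ) := by exact_mod_cast h3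
    have h6 : |j| ≤ (J : ℤ) := by
      refine le_trans ?_ h5
      rw [hj, abs_mul]
      have h7 : 1 ≤ |β s| := by
        rw [abs_of_pos hs]
        omega
      nlinarith [abs_nonneg j]
    refine ⟨s ^ (-j) * g, ?_, ?_⟩
    · rw [S.beta_mul, S.beta_zpow, hj]
      ring
    · rw [S.mul]
      exact mem_iUnion₂.2 ⟨j, ⟨by linarith [neg_abs_le j], by linarith [le_abs_self j]⟩,
        mem_image_of_mem _ hg⟩
  obtain ⟨K, hK, hk⟩ := hK
  by_cases h0 : ∃ n₀ : G, β n₀ = 0 ∧ (A n₀).val.det = -1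
  · obtain ⟨n₀, hn0, hdet0⟩ := h0
    obtain ⟨R, hR⟩ := (hK.union (hK.image (EaSlice_cont S n₀))).exists_bound_of_continuousOn
      (f := fun z => z.1) continuous_fst.continuousOn
    refine ⟨R, fun v => ?_⟩
    obtain ⟨n, hn, hv⟩ := hk v
    rcases EaSlice_det (A n) with h1 | h1
    · exact ⟨n, hn, h1, hR _ (Or.inl hv)⟩
    · refine ⟨n₀ * n, ?_, ?_, ?_⟩
      · rw [S.beta_mul, hn0, hn, add_zero]
      · rw [map_mul, Units.val_mul, Matrix.det_mul, hdet0, h1]
        norm_num
      · rw [S.mul]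
        exact hR _ (Or.inr (mem_image_of_mem _ hv))
  · push Not at h0
    obtain ⟨R, hR⟩ := hK.exists_bound_of_continuousOn (f := fun z => z.1)
      continuous_fst.continuousOn
    refine ⟨R, fun v => ?_⟩
    obtain ⟨n, hn, hv⟩ := hk v
    exact ⟨n, hn, (EaSlice_det (A n)).resolve_right (h0 n hn), hR _ hv⟩

end H83T
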