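import Mathlib

/-!
MP_7a8a58_gt, helper83, second part.  Unipotent subgroups of `SL₂(ℤ)`.
Paper proof: /team-store/h83_7a8a58_T3.md
-/

set_option autoImplicit false

namespace H83T

/-- A primitive integral vector in the kernel of a nonzero nilpotent integral matrix, completed to a basis. -/
private theorem ebKol_vec (p q r : ℤ) (h : p * p + q * r = 0) :
    ∃ u v z w : ℤ, u * z - w * v = 1 ∧ p * u + q * v = 0 ∧ r * u - p * v = 0 := by
  by_cases h0 : p = 0 ∧ q = 0
  · obtain ⟨rfl, rfl⟩ := h0
    exact ⟨0, 1, 0, -1, by norm_num, by norm_num, by norm_num⟩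
  · have hg : 0 < Int.gcd p q := by
      rw [Nat.pos_iff_ne_zero]
      intro h'
      exact h0 (Int.gcd_eq_zero_iff.mp h')
    obtain ⟨p', q', hc, hp, hq⟩ := Int.exists_gcd_one hg
    have hd : (Int.gcd p q : ℤ) ≠ 0 := by exact_mod_cast hg.ne'
    generalize (Int.gcd p q : ℤ) = d at hp hq hd
    obtain ⟨x, y, hxy⟩ := Int.isCoprime_iff_gcd_eq_one.mpr hc
    refine ⟨q', -p', y, x, by linarith, by rw [hp, hq]; ring, ?_⟩
    have h1 : d * (r * q' - p * -p') = 0 := by
      have : d * (r * q' - p * -p') = p * (p' * d) + (q' * d) * r := by ring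
      rw [this, ← hp, ← hq]; exact h
    exact (mul_eq_zero.mp h1).resolve_left hd

/-- Two nilpotent traceless matrices whose product has trace zero have the same kernel vectors. -/
private theorem ebKol_par (p q r p' q' r' u v : ℤ) (h : p * p + q * r = 0) (h' : p' * p' + q' * r' = 0)
    (ht : 2 * (p * p') + q * r' + r * q' = 0) (hne : ¬ (p = 0 ∧ q = 0 ∧ r = 0))
    (h1 : p * u + q * v = 0) (h2 : r * u - p * v = 0) :
    p' * u + q' * v = 0 ∧ r' * u - p' * v = 0 := by
  have e1 : q * r' = r * q' := by
    have : (q * r' - r * q') ^ 2 = 0 := by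
      linear_combination (2 * (p * p') * (-1) + q * r' + r * q') * ht + (4 * (p' * p')) * h - 4 * q * r * h'
    have := pow_eq_zero_iff (two_ne_zero) |>.mp this
    linarith
  have e2 : p * p' = -(q * r') := by linarith
  have e3 : p * q' = q * p' := by
    have : (p * q' - q * p') ^ 2 = 0 := by
      linear_combination q' ^ 2 * h + q ^ 2 * h' - 2 * q * q' * e2 + (q * q') * e1
    have := pow_eq_zero_iff (two_ne_zero) |>.mp this
    linarith
  have e4 : p * r' = r * p' := by
    have : (p * r' - r * p') ^ 2 = 0 := by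
      linear_combination r' ^ 2 * h + r ^ 2 * h' - 2 * r * r' * e2 + (r * r') * e1
    have := pow_eq_zero_iff (two_ne_zero) |>.mp this
    linarith
  by_cases hp : p = 0
  · by_cases hq : q = 0
    · have hr : r ≠ 0 := fun hr => hne ⟨hp, hq, hr⟩
      constructor
      · have : r * (p' * u + q' * v) = 0 := by
          linear_combination r' * h1 - u * e4 - v * e1
        exact (mul_eq_zero.mp this).resolve_left hr
      · have : r * (r' * u - p' * v) = 0 := by
          linear_combination r' * h2 + v * e4
        exact (mul_eq_zero.mp this).resolve_left hr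
    · constructor
      · have : q * (p' * u + q' * v) = 0 := by
          linear_combination q' * h1 - u * e3
        exact (mul_eq_zero.mp this).resolve_left hq
      · have : q * (r' * u - p' * v) = 0 := by
          linear_combination q' * h2 + u * e1 + v * e3
        exact (mul_eq_zero.mp this).resolve_left hq
  · constructor
    · have : p * (p' * u + q' * v) = 0 := by
        linear_combination p' * h1 + v * e3
      exact (mul_eq_zero.mp this).resolve_left hp
    · have : p * (r' * u - p' * v) = 0 := by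
        linear_combination p' * h2 + u * e4
      exact (mul_eq_zero.mp this).resolve_left hp

/-- Kolchin's theorem for `SL₂(ℤ)`.
PROOF: `det (A n) = 1` and `det (A n - 1) = 0` give trace 2 and `(A n - 1) ^ 2 = 0`. If all `A n = 1` take `P = 1`.
Otherwise fix `g` with `X = A g - 1 ≠ 0`, `X ^ 2 = 0`. For `n` let `Y = A n - 1`; the trace of `A g * A n` is 2, so
`tr (X * Y) = 0`; together with `X ^ 2 = Y ^ 2 = 0`, `tr X = tr Y = 0` this gives `Y * e = 0` for every `e` with `X e = 0`
(write `X = [[p, q], [r, -p]]`, `p ^ 2 + q r = 0`, same for `Y`; `X` and `Y` are proportional). A primitive integral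
vector `e` with `X e = 0` (divide by the gcd) is the first column of a matrix `Q` in `GL₂(ℤ)` (Bezout); `P = Q⁻¹`:
`P * A n * P⁻¹` fixes `(1, 0)` and has determinant 1. -/
theorem kolchin_two {H : Type*} [Group H] (A : H →* GL (Fin 2) ℤ)
    (h1 : ∀ n : H, ((A n).val - 1).det = 0) (hdet : ∀ n : H, (A n).val.det = 1) :
    ∃ P : GL (Fin 2) ℤ, ∀ n : H, ∃ k : ℤ, (P * A n * P⁻¹).val = !![1, k; 0, 1] := by
  have hd : ∀ n, (A n).val 0 0 * (A n).val 1 1 - (A n).val 0 1 * (A n).val 1 0 = 1 := by
    intro n
    have := hdet n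
    rwa [Matrix.det_fin_two] at this
  have htr : ∀ n, (A n).val 0 0 + (A n).val 1 1 = 2 := by
    intro n
    have h := h1 n
    rw [Matrix.det_fin_two] at h
    simp only [Matrix.sub_apply, Matrix.one_apply_eq, Matrix.one_apply, Fin.isValue, zero_ne_one, one_ne_zero,
      if_false] at h
    have := hd n
    linarith
  have hprod : ∀ g n, (A g).val 0 0 * (A n).val 0 0 + (A g).val 0 1 * (A n).val 1 0
      + ((A g).val 1 0 * (A n).val 0 1 + (A g).val 1 1 * (A n).val 1 1) = 2 := by
    intro g n
    have h := htr (g * n)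
    rw [map_mul, Units.val_mul, Matrix.mul_apply, Matrix.mul_apply, Fin.sum_univ_two, Fin.sum_univ_two] at h
    exact h
  by_cases hX : ∀ n, (A n).val 0 0 - 1 = 0 ∧ (A n).val 0 1 = 0 ∧ (A n).val 1 0 = 0
  · refine ⟨1, fun n => ⟨0, ?_⟩⟩
    obtain ⟨a1, a2, a3⟩ := hX n
    have a4 := htr n
    have a5 : (A n).val 0 0 = 1 := by linarith
    have a6 : (A n).val 1 1 = 1 := by linarith
    rw [one_mul, inv_one, mul_one, Matrix.eta_fin_two (A n).val, a5, a2, a3, a6]
  · push Not at hX
    obtain ⟨g, hg⟩ := hX
    have hne : ¬ ((A g).val 0 0 - 1 = 0 ∧ (A g).val 0 1 = 0 ∧ (A g).val 1 0 = 0) :=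
      fun h => hg h.1 h.2.1 h.2.2
    have hnil : ∀ n, ((A n).val 0 0 - 1) * ((A n).val 0 0 - 1) + (A n).val 0 1 * (A n).val 1 0 = 0 := by
      intro n
      have e1 := hd n
      have e2 := htr n
      have e3 : (A n).val 1 1 = 2 - (A n).val 0 0 := by linarith
      rw [e3] at e1
      linarith
    obtain ⟨u, v, z, w, hQ, k1, k2⟩ := ebKol_vec _ _ _ (hnil g)
    refine ⟨⟨!![z, -w; -v, u], !![u, w; v, z], ?_, ?_⟩, fun n => ?_⟩
    · ext i j
      fin_cases i <;> fin_cases j <;> simp [Matrix.mul_apply, Fin.sum_univ_two] <;> linarith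
    · ext i j
      fin_cases i <;> fin_cases j <;> simp [Matrix.mul_apply, Fin.sum_univ_two] <;> linarith
    · have e2 := htr n
      have e3 : (A n).val 1 1 = 2 - (A n).val 0 0 := by linarith
      have f3 : (A g).val 1 1 = 2 - (A g).val 0 0 := by linarith [htr g]
      have ht : 2 * (((A g).val 0 0 - 1) * ((A n).val 0 0 - 1)) + (A g).val 0 1 * (A n).val 1 0
          + (A g).val 1 0 * (A n).val 0 1 = 0 := by
        have := hprod g n
        rw [e3, f3] at this
        linarith
      obtain ⟨m1, m2⟩ := ebKol_par _ _ _ _ _ _ u v (hnil g) (hnil n) ht hne k1 k2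
      have hM : (A n).val = !![(A n).val 0 0, (A n).val 0 1; (A n).val 1 0, 2 - (A n).val 0 0] := by
        conv_lhs => rw [Matrix.eta_fin_two (A n).val, e3]
      generalize ha : (A n).val 0 0 = a at *
      generalize hb : (A n).val 0 1 = b at *
      generalize hc : (A n).val 1 0 = c at *
      refine ⟨z * ((a - 1) * w + b * z) - w * (c * w - (a - 1) * z), ?_⟩
      rw [Units.val_mul, Units.val_mul, Units.inv_mk, hM]
      ext i j
      fin_cases i <;> fin_cases j
      · simp [Matrix.mul_apply, Fin.sum_univ_two]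
        linear_combination z * m1 - w * m2 + hQ
      · simp [Matrix.mul_apply, Fin.sum_univ_two]
        ring
      · simp [Matrix.mul_apply, Fin.sum_univ_two]
        linear_combination u * m2 - v * m1
      · simp [Matrix.mul_apply, Fin.sum_univ_two]
        linear_combination hQ + w * m2 - z * m1

end H83T
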