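import Pool.Agent.H.MP_7a8a58_gt.h83c.EaSlice

/-!
MP_7a8a58_gt, helper83, second part.  The slice group is `ℤ²`.
Paper proof: /team-store/h83_7a8a58_T3.md
-/

set_option autoImplicit false

open Set Metric Topology Filter

namespace H83T

variable {G : Type} [Group G] {act : G → ((Fin 2 → ℝ) × ℝ) → ((Fin 2 → ℝ) × ℝ)}
  {A : G →* GL (Fin 2) ℤ} {B a : G → (Fin 2 → ℤ)} {β : G → ℤ}

/-- a generator of the image of a homomorphism to `ℤ` -/
private theorem EcStr_gen {H : Type*} [Group H] (f : H → ℤ)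
    (hf : ∀ x y, f (x * y) = f x + f y) : ∃ g : H, ∀ n : H, ∃ j : ℤ, f n = j * f g := by
  have h1 : f 1 = 0 := by
    have := hf 1 1
    rw [mul_one] at this
    linarith
  have hinv : ∀ x, f x⁻¹ = - f x := by
    intro x
    have := hf x⁻¹ x
    rw [inv_mul_cancel, h1] at this
    linarith
  let R : AddSubgroup ℤ :=
    { carrier := Set.range f
      zero_mem' := ⟨1, h1⟩
      add_mem' := by
        rintro _ _ ⟨x, rfl⟩ ⟨y, rfl⟩
        exact ⟨x * y, hf x y⟩
      neg_mem' := by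
        rintro _ ⟨x, rfl⟩
        exact ⟨x⁻¹, hinv x⟩ }
  obtain ⟨m, hm⟩ := Int.subgroup_cyclic R
  have hmR : m ∈ R := by
    rw [hm]
    exact AddSubgroup.subset_closure rfl
  obtain ⟨g, hg⟩ := hmR
  refine ⟨g, fun n => ?_⟩
  have hn : f n ∈ R := ⟨n, rfl⟩
  rw [hm, AddSubgroup.mem_closure_singleton] at hn
  obtain ⟨j, hj⟩ := hn
  exact ⟨j, by rw [hg, ← hj, smul_eq_mul]⟩

private theorem EcStr_zpow {H : Type*} [Group H] (f : H → ℤ)
    (hf : ∀ x y, f (x * y) = f x + f y) (g : H) (j : ℤ) : f (g ^ j) = j * f g := by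
  have h1 := map_zpow (MonoidHom.mk' (fun x => Multiplicative.ofAdd (f x))
    (fun x y => by rw [hf]; rfl)) g j
  have h2 := congrArg Multiplicative.toAdd h1
  rw [toAdd_zpow] at h2
  exact h2

private theorem EcStr_eq (S : SlAct act A B a β) {n m : G} (w : (Fin 2 → ℝ) × ℝ)
    (h : act n w = act m w) : n = m := by
  have h1 : act (m⁻¹ * n) w = w := by
    rw [S.mul, h, ← S.mul, inv_mul_cancel, S.one]
  have h2 := S.free _ _ h1
  exact (inv_mul_eq_one.mp h2).symm

private theorem EcStr_act (S : SlAct act A B a β) {n : G} (hn : β n = 0) {k : ℤ}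
    (hA : (A n).val = !![1, k; 0, 1]) (v : Fin 2 → ℝ) (p : ℝ) :
    act n (v, p) = (![v 0 + k * v 1 + p * B n 0 + a n 0, v 1 + p * B n 1 + a n 1], p) := by
  rw [S.act_def, hn]
  refine Prod.ext ?_ (by simp)
  unfold rM rV
  rw [hA]
  ext i
  fin_cases i
  · change (((!![1, k; 0, 1] : Matrix (Fin 2) (Fin 2) ℤ).map (fun a : ℤ => (a : ℝ))).mulVec v) 0
      + p * (B n 0 : ℝ) + (a n 0 : ℝ) = v 0 + k * v 1 + p * B n 0 + a n 0
    simp [Matrix.mulVec, dotProduct, Fin.sum_univ_two]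
  · change (((!![1, k; 0, 1] : Matrix (Fin 2) (Fin 2) ℤ).map (fun a : ℤ => (a : ℝ))).mulVec v) 1
      + p * (B n 1 : ℝ) + (a n 1 : ℝ) = v 1 + p * B n 1 + a n 1
    simp [Matrix.mulVec, dotProduct, Fin.sum_univ_two]

private theorem EcStr_fix (S : SlAct act A B a β) {n : G} (hn : β n = 0) {k : ℤ}
    (hA : (A n).val = !![1, k; 0, 1]) (y p : ℝ) (h0 : k * y + p * B n 0 + a n 0 = 0)
    (h1 : p * B n 1 + a n 1 = 0) : n = 1 := by
  refine S.free n (![0, y], p) ?_
  rw [EcStr_act S hn hA]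
  refine Prod.ext ?_ rfl
  ext i
  fin_cases i
  · simp only [Matrix.cons_val_zero, Matrix.cons_val_one]
    simp
    linarith
  · simp only [Matrix.cons_val_zero, Matrix.cons_val_one]
    simp
    linarith

private theorem EcStr_mul (S : SlAct act A B a β) {n m : G} (hn : β n = 0) (hm : β m = 0)
    {k l : ℤ} (hA : (A n).val = !![1, k; 0, 1]) (hA' : (A m).val = !![1, l; 0, 1]) :
    (A (n * m)).val = !![1, k + l; 0, 1] ∧ a (n * m) 1 = a n 1 + a m 1 ∧
      a (n * m) 0 = a n 0 + a m 0 + k * a m 1 ∧ B (n * m) 1 = B n 1 + B m 1 ∧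
      B (n * m) 0 = B n 0 + B m 0 + k * B m 1 := by
  have hA2 : (A (n * m)).val = !![1, k + l; 0, 1] := by
    rw [map_mul, Units.val_mul, hA, hA', Matrix.mul_fin_two]
    simp
    ring
  have hb : β (n * m) = 0 := by rw [S.beta_mul, hn, hm, add_zero]
  have key : ∀ p : ℝ, ![p * B (n * m) 0 + a (n * m) 0, p * B (n * m) 1 + a (n * m) 1] =
      ![p * B m 0 + a m 0 + k * (p * B m 1 + a m 1) + p * B n 0 + a n 0,
        p * B m 1 + a m 1 + p * B n 1 + a n 1] := by
    intro p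
    have h1 := S.mul n m (0, p)
    rw [EcStr_act S hb hA2, EcStr_act S hm hA', EcStr_act S hn hA] at h1
    have h2 := congrArg Prod.fst h1
    simpa using h2
  have e0 := key 0
  have e1 := key 1
  have e00 := congrFun e0 0
  have e01 := congrFun e0 1
  have e10 := congrFun e1 0
  have e11 := congrFun e1 1
  simp only [Matrix.cons_val_zero, Matrix.cons_val_one] at e00 e01 e10 e11
  simp only [zero_mul, one_mul, zero_add] at e00 e01 e10 e11
  refine ⟨hA2, ?_, ?_, ?_, ?_⟩
  · have : ((a (n * m) 1 : ℤ) : ℝ) = ((a n 1 + a m 1 : ℤ) : ℝ) := by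
      push_cast
      linarith
    exact_mod_cast this
  · have : ((a (n * m) 0 : ℤ) : ℝ) = ((a n 0 + a m 0 + k * a m 1 : ℤ) : ℝ) := by
      push_cast
      linarith
    exact_mod_cast this
  · have : ((B (n * m) 1 : ℤ) : ℝ) = ((B n 1 + B m 1 : ℤ) : ℝ) := by
      push_cast
      linarith
    exact_mod_cast this
  · have : ((B (n * m) 0 : ℤ) : ℝ) = ((B n 0 + B m 0 + k * B m 1 : ℤ) : ℝ) := by
      push_cast
      linarith
    exact_mod_cast this

/-- an invariant continuous function on a slice is bounded -/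
private theorem EcStr_inv (S : SlAct act A B a β) (p : ℝ) {F : (Fin 2 → ℝ) → ℝ}
    (hF : Continuous F)
    (h : ∀ n : G, β n = 0 → (A n).val.det = 1 → ∀ v, F ((act n (v, p)).1) = F v) :
    ∃ M : ℝ, ∀ v, |F v| ≤ M := by
  obtain ⟨R, hR⟩ := S.coc_slice p
  obtain ⟨M, hM⟩ := (isCompact_closedBall (0 : Fin 2 → ℝ) R).exists_bound_of_continuousOn
    hF.continuousOn
  refine ⟨M, fun v => ?_⟩
  obtain ⟨n, h1, h2, h3⟩ := hR v
  rw [← h n h1 h2 v, ← Real.norm_eq_abs]
  exact hM _ (by rwa [mem_closedBall, dist_zero_right])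

private theorem EcStr_eq0 (S : SlAct act A B a β) {n m : G} (hn : β n = 0) (hm : β m = 0)
    {k l : ℤ} (hA : (A n).val = !![1, k; 0, 1]) (hA' : (A m).val = !![1, l; 0, 1])
    (h0 : a n 0 = a m 0) (h1 : a n 1 = a m 1) : n = m := by
  refine EcStr_eq S (0, 0) ?_
  rw [EcStr_act S hn hA, EcStr_act S hm hA', h0, h1]
  simp

/-- the elements leaving a function on a slice invariant form a subgroup -/
private theorem EcStr_sub (S : SlAct act A B a β) (p : ℝ) (F : (Fin 2 → ℝ) → ℝ) :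
    ∃ Q : Subgroup G, ∀ n, n ∈ Q ↔ β n = 0 ∧ ∀ v, F ((act n (v, p)).1) = F v := by
  have hβ1 : β 1 = 0 := by
    have := S.beta_mul 1 1
    rw [mul_one] at this
    linarith
  have hβinv : ∀ n, β n = 0 → β n⁻¹ = 0 := by
    intro n hn
    have := S.beta_mul n⁻¹ n
    rw [inv_mul_cancel, hβ1, hn] at this
    linarith
  have hp : ∀ n, β n = 0 → ∀ v, act n (v, p) = ((act n (v, p)).1, p) := by
    intro n hn v
    refine Prod.ext rfl ?_
    rw [S.act_def, hn]
    simp
  refine ⟨{ carrier := {n | β n = 0 ∧ ∀ v, F ((act n (v, p)).1) = F v}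
            one_mem' := ⟨hβ1, fun v => by rw [S.one]⟩
            mul_mem' := ?_
            inv_mem' := ?_ }, fun n => Iff.rfl⟩
  · rintro n m ⟨h1, h2⟩ ⟨h3, h4⟩
    refine ⟨by rw [S.beta_mul, h1, h3, add_zero], fun v => ?_⟩
    rw [S.mul, hp m h3 v, h2, h4]
  · rintro n ⟨h1, h2⟩
    refine ⟨hβinv n h1, fun v => ?_⟩
    have h3 := h2 ((act n⁻¹ (v, p)).1)
    rw [← hp _ (hβinv n h1) v, ← S.mul, mul_inv_cancel, S.one] at h3
    exact h3.symm

/-- PROOF. Let `N` be the subgroup `β n = 0`, `det (A n) = 1`; for `n ∈ N` write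
`act n (x, y, p) = (x + k y + a₀ + p b₀, y + a₁ + p b₁, p)`, all integers. On the slice `p = 0`, `n ↦ a₁ n` is a homomorphism
`N → ℤ`; if `a₁ n = 0` then `k n = 0` or `n = 1` (otherwise the point `(0, - a₀ / k, 0)` is fixed), so the kernel `Z` acts on
the slice `p = 0` by translations in direction `x` and `a₀ : Z → ℤ` is an injective homomorphism (`free`): `Z` is
generated by one `z`. The image of `a₁` is `m ℤ`, `m ≠ 0` (otherwise `y` is invariant on the slice `p = 0`, contradiction to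
`coc_slice 0`); `m = a₁ g`. `Z` is not trivial: otherwise `N` is generated by `g` and the function
`x - (k (y ^ 2 - m y) / (2 m) + a₀ y / m)` on the slice `p = 0` is `N`-invariant and unbounded on ... (take `y` in a bounded
set and `x → ∞`; the function is continuous, so bounded on the compact set of `coc_slice`). So `a₀ z ≠ 0`. `z` and `g`
commute because they commute on the slice `p = 0` (`free`). Every `n ∈ N` is `z ^ i * g ^ j`.
If `k = k g ≠ 0`: the equation `act (z g) = act (g z)` at `(0, 0, p)` gives `k p b₁ z = 0`, so `b₁ z = 0`; `a₀ z + p b₀ z ≠ 0` for all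
real `p` (otherwise `z` has a fixed point), so `b₀ z = 0`; `a₁ g + p b₁ g ≠ 0` for all `p` (otherwise `g` has a fixed point as
`k ≠ 0`), so `b₁ g = 0`; the determinant is `a₀ z * a₁ g ≠ 0`.
If `k = 0`: `N` acts on the slice `p` by the translations `i • τ_z + j • τ_g` with `τ_z = (a₀ z + p b₀ z, p b₁ z)`,
`τ_g = (a₀ g + p b₀ g, a₁ g + p b₁ g)`; if the determinant vanishes there is a nonzero linear form on `ℝ²` which is
invariant, contradiction to `coc_slice p`. -/
theorem SlAct.exists_lattice (S : SlAct act A B a β)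
    (hk : ∀ n : G, β n = 0 → (A n).val.det = 1 → ∃ k : ℤ, (A n).val = !![1, k; 0, 1]) :
    ∃ (z g : G) (k : ℤ), β z = 0 ∧ A z = 1 ∧ β g = 0 ∧ (A g).val = !![1, k; 0, 1] ∧
      z * g = g * z ∧
      (∀ n : G, β n = 0 → (A n).val.det = 1 → ∃ i j : ℤ, n = z ^ i * g ^ j) ∧
      a z 1 = 0 ∧ a z 0 ≠ 0 ∧ a g 1 ≠ 0 ∧ (k ≠ 0 → B z = 0 ∧ B g 1 = 0) ∧
      ∀ p : ℝ, (!![(a z 0 : ℝ) + p * B z 0, (a g 0 : ℝ) + p * B g 0;
        p * B z 1, (a g 1 : ℝ) + p * B g 1]).det ≠ 0 := by
  have hβ1 : β 1 = 0 := by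
    have := S.beta_mul 1 1
    rw [mul_one] at this
    linarith
  have hβinv : ∀ n, β n = 0 → β n⁻¹ = 0 := by
    intro n hn
    have := S.beta_mul n⁻¹ n
    rw [inv_mul_cancel, hβ1, hn] at this
    linarith
  have hdinv : ∀ n, (A n).val.det = 1 → (A n⁻¹).val.det = 1 := by
    intro n hn
    have h1 : (A n⁻¹).val * (A n).val = 1 := by
      rw [← Units.val_mul, ← map_mul, inv_mul_cancel, map_one, Units.val_one]
    have h2 := congrArg Matrix.det h1
    rw [Matrix.det_mul, hn, mul_one, Matrix.det_one] at h2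
    exact h2
  let N : Subgroup G :=
    { carrier := {n | β n = 0 ∧ (A n).val.det = 1}
      one_mem' := ⟨hβ1, by rw [map_one, Units.val_one, Matrix.det_one]⟩
      mul_mem' := by
        rintro n m ⟨h1, h2⟩ ⟨h3, h4⟩
        refine ⟨by rw [S.beta_mul, h1, h3, add_zero], ?_⟩
        rw [map_mul, Units.val_mul, Matrix.det_mul, h2, h4, one_mul]
      inv_mem' := fun {n} hn => ⟨hβinv n hn.1, hdinv n hn.2⟩ }
  have hmem : ∀ n : N, ∃ k : ℤ, (A (n : G)).val = !![1, k; 0, 1] := fun n => hk n n.2.1 n.2.2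
  choose κ hκ using hmem
  have hmul := fun n m : N => EcStr_mul S n.2.1 m.2.1 (hκ n) (hκ m)
  have f1 : ∀ n m : N, a ((n * m : N) : G) 1 = a n 1 + a m 1 := fun n m => (hmul n m).2.1
  have κadd : ∀ n m : N, κ (n * m) = κ n + κ m := by
    intro n m
    have h1 := (hmul n m).1
    have h2 := hκ (n * m)
    rw [Subgroup.coe_mul, h1] at h2
    have h3 := congrFun (congrFun h2 0) 1
    simpa using h3.symm
  have a11 : a ((1 : N) : G) 1 = 0 := by
    have := f1 1 1
    rw [mul_one] at this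
    linarith
  have κ1 : κ 1 = 0 := by
    have := κadd 1 1
    rw [mul_one] at this
    linarith
  obtain ⟨g, hg⟩ := EcStr_gen (fun n : N => a (n : G) 1) f1
  have hgz : ∀ j : ℤ, a ((g ^ j : N) : G) 1 = j * a g 1 := EcStr_zpow (fun n : N => a (n : G) 1) f1 g
  have hg1 : a (g : G) 1 ≠ 0 := by
    intro h0
    obtain ⟨M, hM⟩ := EcStr_inv S 0 (F := fun v => v 1) (by fun_prop) (by
      intro n h1 h2 v
      have h3 : a n 1 = 0 := by
        obtain ⟨j, hj⟩ := hg ⟨n, h1, h2⟩
        have hj' : a n 1 = j * a (g : G) 1 := hj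
        rw [hj', h0, mul_zero]
      rw [EcStr_act S h1 (hκ ⟨n, h1, h2⟩), h3]
      simp)
    have h4 := hM ![0, M + 1]
    have h5 : |M + 1| ≤ M := by simpa using h4
    linarith [le_abs_self (M + 1)]
  -- the kernel
  let Z : Subgroup N :=
    { carrier := {n | a (n : G) 1 = 0}
      one_mem' := a11
      mul_mem' := by
        intro n m h1 h2
        have h1' : a (n : G) 1 = 0 := h1
        have h2' : a (m : G) 1 = 0 := h2
        change a ((n * m : N) : G) 1 = 0
        rw [f1, h1', h2', add_zero]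
      inv_mem' := by
        intro n h1
        have h1' : a (n : G) 1 = 0 := h1
        have h2 := f1 n⁻¹ n
        rw [inv_mul_cancel, a11, h1', add_zero] at h2
        exact h2.symm }
  have hZ1 : ∀ n : Z, a ((n : N) : G) 1 = 0 := fun n => n.2
  have f0 : ∀ n m : Z, a (((n * m : Z) : N) : G) 0 = a ((n : N) : G) 0 + a ((m : N) : G) 0 := by
    intro n m
    have h1 := (hmul n m).2.2.1
    rw [hZ1 m, mul_zero, add_zero] at h1
    exact h1
  have hZt : ∀ n : Z, a ((n : N) : G) 0 = 0 → n = 1 := by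
    intro n h0
    have h1 : ((n : N) : G) = 1 := EcStr_fix S (n : N).2.1 (hκ n) 0 0 (by rw [h0]; simp)
      (by rw [hZ1 n]; simp)
    exact Subtype.ext (Subtype.ext h1)
  have hZκ : ∀ n : Z, κ n = 0 := by
    intro n
    by_contra h0
    have h0' : (κ n : ℝ) ≠ 0 := by exact_mod_cast h0
    have h1 : ((n : N) : G) = 1 := EcStr_fix S (n : N).2.1 (hκ n)
      (- (a ((n : N) : G) 0 : ℝ) / κ n) 0 (by field_simp; ring) (by rw [hZ1 n]; simp)
    have h2 : (n : N) = 1 := Subtype.ext h1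
    exact h0 (by rw [h2, κ1])
  obtain ⟨z, hz⟩ := EcStr_gen (fun n : Z => a ((n : N) : G) 0) f0
  have hzz : ∀ i : ℤ, a (((z ^ i : Z) : N) : G) 0 = i * a ((z : N) : G) 0 :=
    EcStr_zpow (fun n : Z => a ((n : N) : G) 0) f0 z
  -- decomposition
  have hdec : ∀ n : N, ∃ (w : Z) (j : ℤ), (n : G) = ((w : N) : G) * (g : G) ^ j := by
    intro n
    obtain ⟨j, hj⟩ := hg n
    have hj' : a (n : G) 1 = j * a (g : G) 1 := hj
    have h1 : a ((n * (g ^ j)⁻¹ : N) : G) 1 = 0 := by
      have h2 := f1 (n * (g ^ j)⁻¹) (g ^ j)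
      rw [inv_mul_cancel_right, hgz, hj'] at h2
      linarith
    refine ⟨⟨n * (g ^ j)⁻¹, h1⟩, j, ?_⟩
    change (n : G) = ((n * (g ^ j)⁻¹ : N) : G) * (g : G) ^ j
    rw [Subgroup.coe_mul, Subgroup.coe_inv, Subgroup.coe_zpow, inv_mul_cancel_right]
  have hz0 : a ((z : N) : G) 0 ≠ 0 := by
    intro h0
    have htriv : ∀ w : Z, w = 1 := by
      intro w
      refine hZt w ?_
      obtain ⟨i, hi⟩ := hz w
      have hi' : a ((w : N) : G) 0 = i * a ((z : N) : G) 0 := hi
      rw [hi', h0, mul_zero]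
    set m : ℝ := (a (g : G) 1 : ℝ) with hm
    have hm0 : m ≠ 0 := by
      rw [hm]
      exact_mod_cast hg1
    set F : (Fin 2 → ℝ) → ℝ := fun v =>
      v 0 - ((κ g : ℝ) * (v 1 ^ 2 - m * v 1) / (2 * m) + (a (g : G) 0 : ℝ) * v 1 / m) with hF
    have hFc : Continuous F := by
      rw [hF]
      fun_prop
    obtain ⟨Q, hQ⟩ := EcStr_sub S 0 F
    have hgQ : (g : G) ∈ Q := by
      rw [hQ]
      refine ⟨g.2.1, fun v => ?_⟩
      rw [EcStr_act S g.2.1 (hκ g)]
      simp only [hF, Matrix.cons_val_zero, Matrix.cons_val_one, ← hm]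
      field_simp
      ring
    obtain ⟨M, hM⟩ := EcStr_inv S 0 (F := F) hFc (by
      intro n h1 h2
      obtain ⟨w, j, hwj⟩ := hdec ⟨n, h1, h2⟩
      have hn : n = (g : G) ^ j := by
        have h3 : n = ((w : N) : G) * (g : G) ^ j := hwj
        rw [h3, htriv w]
        simp
      have h4 : n ∈ Q := by
        rw [hn]
        exact Q.zpow_mem hgQ j
      exact ((hQ n).1 h4).2)
    have h4 := hM ![M + 1, 0]
    have h5 : |M + 1| ≤ M := by simpa [hF] using h4
    linarith [le_abs_self (M + 1)]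
  have hAz : (A ((z : N) : G)).val = !![1, 0; 0, 1] := by
    have := hκ z
    rwa [hZκ z] at this
  have hAz1 : A ((z : N) : G) = 1 := by
    apply Units.ext
    rw [hAz, Units.val_one, Matrix.one_fin_two]
  have hzg := hmul z g
  have hgzm := hmul g z
  have hcomm : ((z : N) : G) * g = g * ((z : N) : G) := by
    refine EcStr_eq0 S ((z : N) * g : N).2.1 (g * (z : N) : N).2.1 hzg.1 hgzm.1 ?_ ?_
    · rw [hzg.2.2.1, hgzm.2.2.1, hZκ z, hZ1 z]
      ring
    · rw [hzg.2.1, hgzm.2.1]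
      ring
  have hdec2 : ∀ n : G, β n = 0 → (A n).val.det = 1 →
      ∃ i j : ℤ, n = ((z : N) : G) ^ i * (g : G) ^ j := by
    intro n h1 h2
    obtain ⟨w, j, hwj⟩ := hdec ⟨n, h1, h2⟩
    obtain ⟨i, hi⟩ := hz w
    have hi' : a ((w : N) : G) 0 = i * a ((z : N) : G) 0 := hi
    refine ⟨i, j, ?_⟩
    have h3 : ((w : N) : G) = (((z ^ i : Z) : N) : G) := by
      refine EcStr_eq0 S (w : N).2.1 ((z ^ i : Z) : N).2.1 (hκ w) (hκ _) ?_ ?_
      · rw [hi', hzz]
      · rw [hZ1, hZ1]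
    have h4 : n = ((w : N) : G) * (g : G) ^ j := hwj
    rw [h4, h3, Subgroup.coe_zpow, Subgroup.coe_zpow]
  -- the case `k ≠ 0`
  have hBz1 : κ g ≠ 0 → B ((z : N) : G) = 0 ∧ B (g : G) 1 = 0 := by
    intro hk0
    have hk0' : (κ g : ℝ) ≠ 0 := by exact_mod_cast hk0
    have h1 : B ((z : N) : G) 1 = 0 := by
      have h2 := hzg.2.2.2.2
      have h3 := hgzm.2.2.2.2
      rw [hcomm, h3, hZκ z] at h2
      have h4 : κ g * B ((z : N) : G) 1 = 0 := by linarith
      rcases mul_eq_zero.1 h4 with h5 | h5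
      · exact absurd h5 hk0
      · exact h5
    have h2 : B ((z : N) : G) 0 = 0 := by
      by_contra h3
      have h3' : (B ((z : N) : G) 0 : ℝ) ≠ 0 := by exact_mod_cast h3
      have h4 : ((z : N) : G) = 1 := EcStr_fix S (z : N).2.1 hAz 0
        (- (a ((z : N) : G) 0 : ℝ) / B ((z : N) : G) 0) (by field_simp; simp)
        (by rw [hZ1 z, h1]; simp)
      have h5 : (z : N) = 1 := Subtype.ext h4
      apply hz0
      have h6 : z = 1 := Subtype.ext h5
      have h7 := f0 1 1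
      rw [mul_one] at h7
      rw [h6]
      linarith
    refine ⟨?_, ?_⟩
    · ext i
      fin_cases i
      · exact h2
      · exact h1
    · by_contra h3
      have h3' : (B (g : G) 1 : ℝ) ≠ 0 := by exact_mod_cast h3
      set p₀ : ℝ := - (a (g : G) 1 : ℝ) / B (g : G) 1 with hp₀
      have h4 : (g : G) = 1 := EcStr_fix S g.2.1 (hκ g)
        (- (p₀ * B (g : G) 0 + a (g : G) 0) / κ g) p₀ (by field_simp; ring)
        (by rw [hp₀]; field_simp; ring)
      have h5 : g = 1 := Subtype.ext h4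
      apply hg1
      rw [h5, a11]
  refine ⟨z, g, κ g, (z : N).2.1, hAz1, g.2.1, hκ g, hcomm, hdec2, hZ1 z, hz0, hg1, hBz1, ?_⟩
  intro p
  rw [Matrix.det_fin_two_of]
  by_cases hk0 : κ g = 0
  · intro hdet
    set s1 : ℝ := (a ((z : N) : G) 0 : ℝ) + p * B ((z : N) : G) 0 with hs1
    set s2 : ℝ := p * B ((z : N) : G) 1 with hs2
    set t1 : ℝ := (a (g : G) 0 : ℝ) + p * B (g : G) 0 with ht1
    set t2 : ℝ := (a (g : G) 1 : ℝ) + p * B (g : G) 1 with ht2
    have hs : 0 < s1 ^ 2 + s2 ^ 2 := by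
      by_contra hneg
      have h1 : s1 = 0 := by nlinarith [sq_nonneg s1, sq_nonneg s2]
      have h2 : s2 = 0 := by nlinarith [sq_nonneg s1, sq_nonneg s2]
      have h4 : ((z : N) : G) = 1 := EcStr_fix S (z : N).2.1 hAz 0 p
        (by rw [hs1] at h1; linarith) (by rw [hs2] at h2; rw [hZ1 z, h2]; simp)
      have h5 : (z : N) = 1 := Subtype.ext h4
      apply hz0
      have h6 : z = 1 := Subtype.ext h5
      have h7 := f0 1 1
      rw [mul_one] at h7
      rw [h6]
      linarith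
    set F : (Fin 2 → ℝ) → ℝ := fun v => - s2 * v 0 + s1 * v 1 with hF
    have hFc : Continuous F := by
      rw [hF]
      fun_prop
    obtain ⟨Q, hQ⟩ := EcStr_sub S p F
    have hgQ : (g : G) ∈ Q := by
      rw [hQ]
      refine ⟨g.2.1, fun v => ?_⟩
      rw [EcStr_act S g.2.1 (hκ g), hk0]
      simp only [hF, Matrix.cons_val_zero, Matrix.cons_val_one]
      have : (v 0 + ((0 : ℤ) : ℝ) * v 1 + p * B (g : G) 0 + a (g : G) 0) = v 0 + t1 := by
        rw [ht1]
        simp
        ring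
      rw [this]
      have : (v 1 + p * B (g : G) 1 + a (g : G) 1) = v 1 + t2 := by
        rw [ht2]
        ring
      rw [this]
      linarith
    have hzQ : ((z : N) : G) ∈ Q := by
      rw [hQ]
      refine ⟨(z : N).2.1, fun v => ?_⟩
      rw [EcStr_act S (z : N).2.1 hAz]
      simp only [hF, Matrix.cons_val_zero, Matrix.cons_val_one]
      have : (v 0 + ((0 : ℤ) : ℝ) * v 1 + p * B ((z : N) : G) 0 + a ((z : N) : G) 0) =
          v 0 + s1 := by
        rw [hs1]
        simp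
        ring
      rw [this]
      have : (v 1 + p * B ((z : N) : G) 1 + a ((z : N) : G) 1) = v 1 + s2 := by
        rw [hs2, hZ1 z]
        simp
      rw [this]
      ring
    obtain ⟨M, hM⟩ := EcStr_inv S p (F := F) hFc (by
      intro n h1 h2
      obtain ⟨i, j, hij⟩ := hdec2 n h1 h2
      have h4 : n ∈ Q := by
        rw [hij]
        exact Q.mul_mem (Q.zpow_mem hzQ i) (Q.zpow_mem hgQ j)
      exact ((hQ n).1 h4).2)
    set r : ℝ := (M + 1) / (s1 ^ 2 + s2 ^ 2) with hr
    have h4 := hM ![- r * s2, r * s1]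
    have h6 : F ![- r * s2, r * s1] = M + 1 := by
      simp only [hF, Matrix.cons_val_zero, Matrix.cons_val_one]
      have : - s2 * (- r * s2) + s1 * (r * s1) = r * (s1 ^ 2 + s2 ^ 2) := by ring
      rw [this, hr, div_mul_cancel₀ _ hs.ne']
    rw [h6] at h4
    linarith [le_abs_self (M + 1)]
  · obtain ⟨h1, h2⟩ := hBz1 hk0
    rw [h1, h2]
    simpa using ⟨hz0, hg1⟩

end H83T
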