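import Pool.Agent.H.MP_7a8a58_gt.h83c.EcStr

/-!
MP_7a8a58_gt, helper83, second part.  Normal form of the action up to a vertical translation.
Paper proof: /team-store/h83_7a8a58_T3.md
-/

set_option autoImplicit false

open Set Metric Topology Filter

namespace H83T

/-! Matrices. -/

private theorem EdNorm_inv_cont {C : ℝ → Matrix (Fin 2) (Fin 2) ℝ} (hC : Continuous C)
    (hdet : ∀ p, (C p).det ≠ 0) : Continuous fun p => (C p)⁻¹ := by
  have h : (fun p => (C p)⁻¹) = fun p => ((C p).det)⁻¹ • (C p).adjugate := by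
    funext p
    rw [Matrix.inv_def, Ring.inverse_eq_inv']
  rw [h]
  exact (hC.matrix_det.inv₀ hdet).smul hC.matrix_adjugate

private theorem EdNorm_cancel {C : Matrix (Fin 2) (Fin 2) ℝ} (h : C.det ≠ 0) (u : Fin 2 → ℝ) :
    C⁻¹.mulVec (C.mulVec u) = u := by
  rw [Matrix.mulVec_mulVec, Matrix.nonsing_inv_mul _ (isUnit_iff_ne_zero.2 h), Matrix.one_mulVec]

private theorem EdNorm_cancel' {C : Matrix (Fin 2) (Fin 2) ℝ} (h : C.det ≠ 0) (u : Fin 2 → ℝ) :
    C.mulVec (C⁻¹.mulVec u) = u := by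
  rw [Matrix.mulVec_mulVec, Matrix.mul_nonsing_inv _ (isUnit_iff_ne_zero.2 h), Matrix.one_mulVec]

/-- the homeomorphism `Θ` -/
private theorem EdNorm_homeo (C : ℝ → Matrix (Fin 2) (Fin 2) ℝ) (hC : Continuous C)
    (hdet : ∀ p, (C p).det ≠ 0) (Q : ℝ → ℝ) (hQ : Continuous Q) (d : ℝ) (hd : d ≠ 0) :
    ∃ Θ : ((Fin 2 → ℝ) × ℝ) ≃ₜ ((Fin 2 → ℝ) × ℝ), ∀ (v : Fin 2 → ℝ) (p : ℝ),
      Θ (v, p) = ((C p)⁻¹.mulVec (v - ![Q (v 1), 0]), p / d) := by
  have hCi := EdNorm_inv_cont hC hdet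
  refine ⟨⟨⟨fun x => ((C x.2)⁻¹.mulVec (x.1 - ![Q (x.1 1), 0]), x.2 / d),
    fun y => ((C (d * y.2)).mulVec y.1 + ![Q ((C (d * y.2)).mulVec y.1 1), 0], d * y.2),
    ?_, ?_⟩, ?_, ?_⟩, fun v p => rfl⟩
  · rintro ⟨v, p⟩
    have h1 : d * (p / d) = p := mul_div_cancel₀ p hd
    have h2 : (v - ![Q (v 1), 0]) 1 = v 1 := by simp
    simp only [h1, EdNorm_cancel' (hdet p), h2, sub_add_cancel]
  · rintro ⟨w, q⟩
    have h1 : d * q / d = q := by field_simp
    refine Prod.ext ?_ h1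
    show (C (d * q))⁻¹.mulVec ((C (d * q)).mulVec w + ![Q ((C (d * q)).mulVec w 1), 0] -
      ![Q (((C (d * q)).mulVec w + ![Q ((C (d * q)).mulVec w 1), 0]) 1), 0]) = w
    have h2 : ((C (d * q)).mulVec w + ![Q ((C (d * q)).mulVec w 1), 0]) 1 =
        (C (d * q)).mulVec w 1 := by simp
    rw [h2, add_sub_cancel_right, EdNorm_cancel (hdet _)]
  · refine Continuous.prodMk ?_ (continuous_snd.div_const d)
    refine Continuous.matrix_mulVec (hCi.comp continuous_snd) ?_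
    refine continuous_fst.sub ?_
    refine continuous_pi fun i => ?_
    fin_cases i
    · exact hQ.comp ((continuous_apply (1 : Fin 2)).comp continuous_fst)
    · exact continuous_const
  · have h1 : Continuous fun y : (Fin 2 → ℝ) × ℝ => (C (d * y.2)).mulVec y.1 :=
      Continuous.matrix_mulVec (hC.comp (continuous_const.mul continuous_snd)) continuous_fst
    refine Continuous.prodMk (h1.add ?_) (continuous_const.mul continuous_snd)
    refine continuous_pi fun i => ?_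
    fin_cases i
    · exact hQ.comp ((continuous_apply (1 : Fin 2)).comp h1)
    · exact continuous_const

/-- a matrix which conjugates one unipotent matrix into another one is triangular -/
private theorem EdNorm_tri {X : Matrix (Fin 2) (Fin 2) ℤ} {k k' : ℤ} (hk : k ≠ 0)
    (h : X * !![1, k; 0, 1] = !![1, k'; 0, 1] * X) : X 1 0 = 0 := by
  have h1 := congrFun (congrFun h 1) 1
  simp [Matrix.mul_apply, Fin.sum_univ_two] at h1
  rcases h1 with h1 | h1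
  · exact h1
  · exact absurd h1 hk

private theorem EdNorm_sq {X : GL (Fin 2) ℤ} (h : X.val 1 0 = 0) :
    ∃ j : ℤ, (X * X).val = !![1, j; 0, 1] := by
  have h1 : IsUnit X.val.det := (Matrix.isUnit_iff_isUnit_det _).1 X.isUnit
  rw [Matrix.det_fin_two, h, mul_zero, sub_zero] at h1
  have h2 : X.val 0 0 * X.val 0 0 = 1 := by
    rcases Int.isUnit_iff.1 (isUnit_of_mul_isUnit_left h1) with e | e <;> rw [e] <;> norm_num
  have h3 : X.val 1 1 * X.val 1 1 = 1 := by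
    rcases Int.isUnit_iff.1 (isUnit_of_mul_isUnit_right h1) with e | e <;> rw [e] <;> norm_num
  refine ⟨X.val 0 0 * X.val 0 1 + X.val 0 1 * X.val 1 1, ?_⟩
  ext i j
  fin_cases i <;> fin_cases j <;>
    simp [Matrix.mul_apply, Fin.sum_univ_two, h, h2, h3]

variable {G : Type} [Group G] {act : G → ((Fin 2 → ℝ) × ℝ) → ((Fin 2 → ℝ) × ℝ)}
  {A : G →* GL (Fin 2) ℤ} {B a : G → (Fin 2 → ℤ)} {β : G → ℤ}

/-- powers of an element which acts as a translation -/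
private theorem EdNorm_zpow (S : SlAct act A B a β)
    {Θ : ((Fin 2 → ℝ) × ℝ) ≃ₜ ((Fin 2 → ℝ) × ℝ)} {z : G} {e : Fin 2 → ℝ}
    (h : ∀ x, Θ (act z x) = ((Θ x).1 + e, (Θ x).2)) (i : ℤ) (x : (Fin 2 → ℝ) × ℝ) :
    Θ (act (z ^ i) x) = ((Θ x).1 + (i : ℝ) • e, (Θ x).2) := by
  induction i using Int.induction_on generalizing x with
  | zero =>
    rw [zpow_zero, S.one]
    refine Prod.ext ?_ rfl
    simp
  | succ n ih =>
    rw [zpow_add_one, S.mul, ih, h]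
    refine Prod.ext ?_ rfl
    show (Θ x).1 + e + ((n : ℤ) : ℝ) • e = (Θ x).1 + (((n : ℤ) + 1 : ℤ) : ℝ) • e
    push_cast
    rw [add_smul, one_smul]
    abel
  | pred n ih =>
    have h1 : act z (act z⁻¹ x) = x := by
      rw [← S.mul, mul_inv_cancel, S.one]
    have h2 := h (act z⁻¹ x)
    rw [h1] at h2
    rw [zpow_sub_one, S.mul, ih]
    refine Prod.ext ?_ ?_
    · show (Θ (act z⁻¹ x)).1 + ((-(n : ℤ) : ℤ) : ℝ) • e = (Θ x).1 + ((-(n : ℤ) - 1 : ℤ) : ℝ) • e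
      rw [h2]
      push_cast
      rw [sub_smul, one_smul]
      abel
    · show (Θ (act z⁻¹ x)).2 = (Θ x).2
      rw [h2]


private theorem EdNorm_mv (j : ℝ) (v : Fin 2 → ℝ) :
    (!![1, j; 0, 1] : Matrix (Fin 2) (Fin 2) ℝ).mulVec v = ![v 0 + j * v 1, v 1] := by
  funext i
  fin_cases i
  · show (!![1, j; 0, 1] : Matrix (Fin 2) (Fin 2) ℝ).mulVec v 0 = v 0 + j * v 1
    rw [Matrix.mulVec, dotProduct, Fin.sum_univ_two]
    show 1 * v 0 + j * v 1 = _
    ring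
  · show (!![1, j; 0, 1] : Matrix (Fin 2) (Fin 2) ℝ).mulVec v 1 = v 1
    rw [Matrix.mulVec, dotProduct, Fin.sum_univ_two]
    show 0 * v 0 + 1 * v 1 = _
    ring

/-- in the straightened coordinates the map is affine -/
private theorem EdNorm_aff (k m : ℝ) (hm : k ≠ 0 → m ≠ 0) (X : Matrix (Fin 2) (Fin 2) ℝ)
    (b c : Fin 2 → ℝ) (hX : k ≠ 0 → ∃ j : ℝ, X = !![1, j; 0, 1]) :
    ∃ (N : ℝ → Matrix (Fin 2) (Fin 2) ℝ) (τ : ℝ → Fin 2 → ℝ), Continuous τ ∧
      ∀ (v : Fin 2 → ℝ) (p : ℝ),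
        (X.mulVec v + p • b + c) - ![k * ((X.mulVec v + p • b + c) 1 ^ 2 -
          m * (X.mulVec v + p • b + c) 1) / (2 * m), 0] =
        (N p).mulVec (v - ![k * (v 1 ^ 2 - m * v 1) / (2 * m), 0]) + τ p := by
  by_cases hk : k = 0
  · subst hk
    refine ⟨fun _ => X, fun p => p • b + c, by fun_prop, fun v p => ?_⟩
    have h0 : (![(0 : ℝ), 0] : Fin 2 → ℝ) = 0 := by
      funext i
      fin_cases i <;> rfl
    simp only [zero_mul, zero_div, h0, sub_zero]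
    rw [add_assoc]
  · obtain ⟨j, rfl⟩ := hX hk
    have hm' := hm hk
    refine ⟨fun p => !![1, j - k * (p * b 1 + c 1) / m; 0, 1],
      fun p => ![p * b 0 + c 0 - k * ((p * b 1 + c 1) ^ 2 - m * (p * b 1 + c 1)) / (2 * m),
        p * b 1 + c 1], ?_, fun v p => ?_⟩
    · refine continuous_pi fun i => ?_
      fin_cases i
      · show Continuous fun p : ℝ =>
          p * b 0 + c 0 - k * ((p * b 1 + c 1) ^ 2 - m * (p * b 1 + c 1)) / (2 * m)
        fun_prop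
      · show Continuous fun p : ℝ => p * b 1 + c 1
        fun_prop
    · simp only [EdNorm_mv]
      funext i
      fin_cases i
      · show (v 0 + j * v 1 + p * b 0 + c 0) - k * ((v 1 + p * b 1 + c 1) ^ 2 -
            m * (v 1 + p * b 1 + c 1)) / (2 * m) =
          (v 0 - k * (v 1 ^ 2 - m * v 1) / (2 * m)) +
            (j - k * (p * b 1 + c 1) / m) * (v 1 - 0) +
            (p * b 0 + c 0 - k * ((p * b 1 + c 1) ^ 2 - m * (p * b 1 + c 1)) / (2 * m))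
        field_simp
        ring
      · show (v 1 + p * b 1 + c 1) - 0 = (v 1 - 0) + (p * b 1 + c 1)
        ring

private theorem EdNorm_C_cont (α₀ α₁ β₀ β₁ γ₀ γ₁ δ₀ δ₁ : ℝ) : Continuous fun p : ℝ =>
    (!![α₀ + p * α₁, β₀ + p * β₁; γ₀ + p * γ₁, δ₀ + p * δ₁] : Matrix (Fin 2) (Fin 2) ℝ) := by
  refine continuous_matrix fun i j => ?_
  fin_cases i <;> fin_cases j
  · show Continuous fun p : ℝ => α₀ + p * α₁
    fun_prop
  · show Continuous fun p : ℝ => β₀ + p * β₁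
    fun_prop
  · show Continuous fun p : ℝ => γ₀ + p * γ₁
    fun_prop
  · show Continuous fun p : ℝ => δ₀ + p * δ₁
    fun_prop

private theorem EdNorm_col0 (N : Matrix (Fin 2) (Fin 2) ℝ) :
    N.mulVec (Pi.single 0 1) = ![N 0 0, N 1 0] := by
  funext i
  fin_cases i <;> simp

private theorem EdNorm_col1 (N : Matrix (Fin 2) (Fin 2) ℝ) :
    N.mulVec (Pi.single 1 1) = ![N 0 1, N 1 1] := by
  funext i
  fin_cases i <;> simp

/-- an element which is a translation in the straightened coordinates -/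
private theorem EdNorm_trans {Θ : ((Fin 2 → ℝ) × ℝ) ≃ₜ ((Fin 2 → ℝ) × ℝ)}
    {C : ℝ → Matrix (Fin 2) (Fin 2) ℝ} (hdet : ∀ p, (C p).det ≠ 0) {Q : ℝ → ℝ} {d : ℝ}
    (hΘ : ∀ (v : Fin 2 → ℝ) (p : ℝ), Θ (v, p) = ((C p)⁻¹.mulVec (v - ![Q (v 1), 0]), p / d))
    {e : Fin 2 → ℝ} {f : (Fin 2 → ℝ) × ℝ → (Fin 2 → ℝ) × ℝ}
    (hf : ∀ v p, (f (v, p)).2 = p)
    (hf' : ∀ v p, (f (v, p)).1 - ![Q ((f (v, p)).1 1), 0] =
      (v - ![Q (v 1), 0]) + (C p).mulVec e) (x : (Fin 2 → ℝ) × ℝ) :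
    Θ (f x) = ((Θ x).1 + e, (Θ x).2) := by
  obtain ⟨v, p⟩ := x
  have h1 : f (v, p) = ((f (v, p)).1, p) := Prod.ext rfl (hf v p)
  rw [h1, hΘ, hΘ, hf', Matrix.mulVec_add, EdNorm_cancel (hdet p)]

/-- PROOF. `z`, `g`, `k` from `exists_lattice`, `m = a g 1`; `s₀` from `exists_gen`, `s = s₀ ^ 2`, `d = β s`;
`G' = {x | d ∣ β x ∧ det (A x) = 1}` has finite index (kernel of a homomorphism to a finite group). For `x ∈ G'`,
`β x = l d`, `x * s ^ (-l)` is in the slice group, so `x = z ^ i * g ^ j * s ^ l`.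
`C p` = the matrix of `exists_lattice`, continuous and invertible for all `p`; with `Q y = k (y ^ 2 - m y) / (2 m)` put
`Θ (v, p) = ((C p)⁻¹ (v - (Q (v 1), 0)), p / d)`, a homeomorphism with inverse
`(w, q) ↦ (C (d q) w + (Q ((C (d q) w) 1), 0), d q)`. Then `Θ z Θ⁻¹ (w, q) = (w + e₀, q)`, `Θ g Θ⁻¹ (w, q) = (w + e₁, q)`:
if `k = 0` clear (`Q = 0`, translations by the columns of `C p`); if `k ≠ 0` use `B z = 0`, `B g 1 = 0` and
`Q (y + m) - Q y = k y`.
`Θ s Θ⁻¹ (w, q) = (h q w, q + 1)`. `s z s⁻¹`, `s g s⁻¹` are in the slice group (determinant 1), so they are `z ^ i * g ^ j`; this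
defines `M` (integral, invertible: use also `s⁻¹ z s`, `s⁻¹ g s`) with `h q (w + e) = h q w + M e` for `e ∈ ℤ²`. If `k = 0`, `h q` is
affine in `w`, so its linear part is `M` and `h q w = M w + τ q`. If `k ≠ 0`: `A s` normalizes the group of the matrices
`[[1, k ℤ], [0, 1]]` and `A s = (A s₀) ^ 2`, so `A s = [[1, j], [0, 1]]`; hence `h q w` is affine in `w` too (the terms `Q`
contribute `Q y - Q (y + c) ` which is affine in `y`). `τ q = h q 0` is continuous. -/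
theorem SlAct.exists_norm (S : SlAct act A B a β)
    (hk : ∀ n : G, β n = 0 → (A n).val.det = 1 → ∃ k : ℤ, (A n).val = !![1, k; 0, 1]) :
    ∃ (Θ : ((Fin 2 → ℝ) × ℝ) ≃ₜ ((Fin 2 → ℝ) × ℝ)) (z g s : G) (M : GL (Fin 2) ℤ)
      (τ : ℝ → (Fin 2 → ℝ)) (G' : Subgroup G),
      Continuous τ ∧ G'.FiniteIndex ∧ z ∈ G' ∧ g ∈ G' ∧ s ∈ G' ∧ z * g = g * z ∧
      (∀ x ∈ G', ∃ i j l : ℤ, x = z ^ i * g ^ j * s ^ l) ∧
      (∀ x, Θ (act z x) = ((Θ x).1 + Pi.single 0 1, (Θ x).2)) ∧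
      (∀ x, Θ (act g x) = ((Θ x).1 + Pi.single 1 1, (Θ x).2)) ∧
      (∀ x, Θ (act s x) = ((rM M).mulVec (Θ x).1 + τ (Θ x).2, (Θ x).2 + 1)) := by
  obtain ⟨z, g, k, hz, hAz, hg, hAg, hzg, hlat, haz1, haz0, hag1, hkB, hdet⟩ :=
    S.exists_lattice hk
  obtain ⟨s₀, hs₀, hdvd⟩ := S.exists_gen
  -- group theory
  have hβ1 : β 1 = 0 := by
    have h := S.beta_mul 1 1
    rw [mul_one] at h
    linarith
  have hβi : ∀ x, β x⁻¹ = -β x := fun x => by
    have h := S.beta_mul x x⁻¹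
    rw [mul_inv_cancel, hβ1] at h
    linarith
  obtain ⟨δ, hδ⟩ : ∃ δ : G →* ℤˣ, ∀ x, ((δ x : ℤˣ) : ℤ) = (A x).val.det :=
    ⟨Matrix.GeneralLinearGroup.det.comp A, fun x => rfl⟩
  have hδ1 : ∀ x, (A x).val.det = 1 ↔ δ x = 1 := fun x => by
    rw [← hδ x, Units.ext_iff, Units.val_one]
  have hdz : (A z).val.det = 1 := by
    rw [hAz, Units.val_one, Matrix.det_one]
  have hdg : (A g).val.det = 1 := by
    rw [hAg, Matrix.det_fin_two_of]
    ring
  have hconj : ∀ t n : G, β n = 0 → (A n).val.det = 1 →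
      β (t * n * t⁻¹) = 0 ∧ (A (t * n * t⁻¹)).val.det = 1 := by
    intro t n h1 h2
    refine ⟨?_, ?_⟩
    · rw [S.beta_mul, S.beta_mul, hβi, h1]
      ring
    · rw [hδ1, map_mul, map_mul, map_inv, (hδ1 n).1 h2, mul_one, mul_inv_cancel]
  obtain ⟨s, hs⟩ : ∃ s, s = s₀ * s₀ := ⟨_, rfl⟩
  have hβs : β s = 2 * β s₀ := by
    rw [hs, S.beta_mul]
    ring
  have hβs0 : 0 < β s := by rw [hβs]; linarith
  have hds : δ s = 1 := by
    rw [hs, map_mul]
    exact Int.units_mul_self _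
  -- the subgroup
  obtain ⟨D, hD⟩ : ∃ D : ℕ, (D : ℤ) = β s := ⟨(β s).toNat, Int.toNat_of_nonneg hβs0.le⟩
  have hD0 : NeZero D := ⟨fun h => by
    rw [h] at hD
    simp at hD
    omega⟩
  obtain ⟨φ, hφ⟩ : ∃ φ : G →* Multiplicative (ZMod D), ∀ x, φ x = 1 ↔ β s ∣ β x := by
    refine ⟨⟨⟨fun x => Multiplicative.ofAdd ((β x : ℤ) : ZMod D), ?_⟩, ?_⟩, ?_⟩
    · rw [hβ1, Int.cast_zero]
      rfl
    · intro x y
      show Multiplicative.ofAdd ((β (x * y) : ℤ) : ZMod D) = _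
      rw [S.beta_mul, Int.cast_add]
      rfl
    · intro x
      rw [← hD, ← ZMod.intCast_zmod_eq_zero_iff_dvd]
      exact Iff.rfl
  -- the coordinates
  obtain ⟨m, hm⟩ : ∃ m : ℝ, m = (a g 1 : ℝ) := ⟨_, rfl⟩
  have hm0 : m ≠ 0 := by
    rw [hm]
    exact_mod_cast hag1
  obtain ⟨C, hCe⟩ : ∃ C : ℝ → Matrix (Fin 2) (Fin 2) ℝ, C = fun p =>
    !![(a z 0 : ℝ) + p * B z 0, (a g 0 : ℝ) + p * B g 0;
        p * B z 1, (a g 1 : ℝ) + p * B g 1] := ⟨_, rfl⟩
  have hC : Continuous C := by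
    have h := EdNorm_C_cont (a z 0) (B z 0) (a g 0) (B g 0) 0 (B z 1) (a g 1) (B g 1)
    simp only [zero_add] at h
    rw [hCe]
    exact h
  have hCdet : ∀ p, (C p).det ≠ 0 := by
    rw [hCe]
    exact hdet
  obtain ⟨Q, hQe⟩ : ∃ Q : ℝ → ℝ, Q = fun y => (k : ℝ) * (y ^ 2 - m * y) / (2 * m) := ⟨_, rfl⟩
  have hQ : Continuous Q := by
    rw [hQe]
    fun_prop
  obtain ⟨d, hd⟩ : ∃ d : ℝ, d = (β s : ℝ) := ⟨_, rfl⟩
  have hd0 : d ≠ 0 := by
    rw [hd]
    exact_mod_cast hβs0.ne'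
  obtain ⟨Θ, hΘ⟩ := EdNorm_homeo C hC hCdet Q hQ d hd0
  have hΘ2 : ∀ x, (Θ x).2 = x.2 / d := fun x => by
    rw [show x = (x.1, x.2) from rfl, hΘ]
  -- the translations
  have hΘz : ∀ x, Θ (act z x) = ((Θ x).1 + Pi.single 0 1, (Θ x).2) := by
    refine EdNorm_trans hCdet hΘ ?_ ?_
    · intro v p
      rw [S.act_def, hz]
      simp
    · intro v p
      rw [S.act_def]
      have h1 : (rM (A z)).mulVec v = v := by
        rw [hAz]
        unfold rM
        rw [Units.val_one, Matrix.map_one _ Int.cast_zero Int.cast_one, Matrix.one_mulVec]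
      have h2 : (C p).mulVec (Pi.single 0 1) = ![(a z 0 : ℝ) + p * B z 0, p * B z 1] := by
        rw [EdNorm_col0, hCe]
        rfl
      show (rM (A z)).mulVec v + p • rV (B z) + rV (a z) -
        ![Q (((rM (A z)).mulVec v + p • rV (B z) + rV (a z)) 1), 0] = _
      rw [h1, h2]
      have h3 : (v + p • rV (B z) + rV (a z)) 1 = v 1 + p * B z 1 := by
        show v 1 + p * (B z 1 : ℝ) + (a z 1 : ℝ) = _
        rw [haz1]
        simp
      have h4 : Q (v 1 + p * B z 1) = Q (v 1) := by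
        by_cases h0 : k = 0
        · rw [hQe]
          simp [h0]
        · have h5 : (B z 1 : ℝ) = 0 := by
            rw [(hkB h0).1]
            simp
          rw [h5, mul_zero, add_zero]
      rw [h3, h4]
      funext i
      fin_cases i
      · show v 0 + p * (B z 0 : ℝ) + (a z 0 : ℝ) - Q (v 1) =
          v 0 - Q (v 1) + ((a z 0 : ℝ) + p * B z 0)
        ring
      · show v 1 + p * (B z 1 : ℝ) + (a z 1 : ℝ) - 0 = v 1 - 0 + p * B z 1
        rw [haz1]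
        push_cast
        ring
  have hΘg : ∀ x, Θ (act g x) = ((Θ x).1 + Pi.single 1 1, (Θ x).2) := by
    refine EdNorm_trans hCdet hΘ ?_ ?_
    · intro v p
      rw [S.act_def, hg]
      simp
    · intro v p
      rw [S.act_def]
      have h0 : rM (A g) = !![1, (k : ℝ); 0, 1] := by
        unfold rM
        rw [hAg]
        ext i j
        fin_cases i <;> fin_cases j <;> simp
      have h2 : (C p).mulVec (Pi.single 1 1) =
          ![(a g 0 : ℝ) + p * B g 0, (a g 1 : ℝ) + p * B g 1] := by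
        rw [EdNorm_col1, hCe]
        rfl
      show (rM (A g)).mulVec v + p • rV (B g) + rV (a g) -
        ![Q (((rM (A g)).mulVec v + p • rV (B g) + rV (a g)) 1), 0] = _
      rw [h0, EdNorm_mv, h2]
      have h3 : (![v 0 + (k : ℝ) * v 1, v 1] + p • rV (B g) + rV (a g)) 1 =
          v 1 + p * B g 1 + m := by
        rw [hm]
        rfl
      have h4 : Q (v 1 + p * B g 1 + m) = Q (v 1) + k * v 1 := by
        by_cases h0 : k = 0
        · rw [hQe]
          simp [h0]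
        · have h5 : (B g 1 : ℝ) = 0 := by
            rw [(hkB h0).2]
            simp
          rw [h5, mul_zero, add_zero, hQe]
          simp only
          field_simp
          ring
      rw [h3, h4]
      funext i
      fin_cases i
      · show v 0 + (k : ℝ) * v 1 + p * (B g 0 : ℝ) + (a g 0 : ℝ) - (Q (v 1) + k * v 1) =
          v 0 - Q (v 1) + ((a g 0 : ℝ) + p * B g 0)
        ring
      · show v 1 + p * (B g 1 : ℝ) + (a g 1 : ℝ) - 0 = v 1 - 0 + ((a g 1 : ℝ) + p * B g 1)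
        ring
  have hΘzg : ∀ (i j : ℤ) (x), Θ (act (z ^ i * g ^ j) x) =
      ((Θ x).1 + ((i : ℝ) • Pi.single 0 1 + (j : ℝ) • Pi.single 1 1), (Θ x).2) := by
    intro i j x
    rw [S.mul, EdNorm_zpow S hΘz, EdNorm_zpow S hΘg]
    refine Prod.ext ?_ rfl
    show (Θ x).1 + (j : ℝ) • Pi.single 1 1 + (i : ℝ) • Pi.single 0 1 =
      (Θ x).1 + ((i : ℝ) • Pi.single 0 1 + (j : ℝ) • Pi.single 1 1)
    rw [add_assoc, add_comm ((j : ℝ) • (Pi.single 1 1 : Fin 2 → ℝ))]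
  -- the element `s`
  have hAs : (k : ℝ) ≠ 0 → ∃ j : ℝ, rM (A s) = !![1, j; 0, 1] := by
    intro hk0
    have hk1 : k ≠ 0 := by exact_mod_cast hk0
    obtain ⟨h1, h1'⟩ := hconj s₀ g hg hdg
    obtain ⟨k', hk'⟩ := hk _ h1 h1'
    have h2 : (A (s₀ * g * s₀⁻¹)).val * (A s₀).val = (A s₀).val * (A g).val := by
      rw [← Units.val_mul, ← Units.val_mul, ← map_mul, ← map_mul, inv_mul_cancel_right]
    rw [hk', hAg] at h2
    obtain ⟨j, hj⟩ := EdNorm_sq (EdNorm_tri hk1 h2.symm)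
    refine ⟨j, ?_⟩
    have h3 : (A s).val = !![1, j; 0, 1] := by
      rw [hs, map_mul]
      exact hj
    unfold rM
    rw [h3]
    ext i j
    fin_cases i <;> fin_cases j <;> simp
  obtain ⟨N, c, hc, hN⟩ := EdNorm_aff (k : ℝ) m (fun _ => hm0) (rM (A s)) (rV (B s)) (rV (a s)) hAs
  obtain ⟨L, hL⟩ : ∃ L : ℝ → Matrix (Fin 2) (Fin 2) ℝ, L = fun p => (C (p + d))⁻¹ * (N p * C p) :=
    ⟨_, rfl⟩
  obtain ⟨T, hT⟩ : ∃ T : ℝ → Fin 2 → ℝ, T = fun p => (C (p + d))⁻¹.mulVec (c p) := ⟨_, rfl⟩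
  have hTc : Continuous T := by
    rw [hT]
    exact Continuous.matrix_mulVec
      ((EdNorm_inv_cont hC hCdet).comp (continuous_id.add continuous_const)) hc
  have hΘs : ∀ x, Θ (act s x) = ((L x.2).mulVec (Θ x).1 + T x.2, (Θ x).2 + 1) := by
    rintro ⟨v, p⟩
    rw [S.act_def, ← hd, hΘ, hΘ]
    refine Prod.ext ?_ ?_
    · show (C (p + d))⁻¹.mulVec ((rM (A s)).mulVec v + p • rV (B s) + rV (a s) -
          ![Q (((rM (A s)).mulVec v + p • rV (B s) + rV (a s)) 1), 0]) =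
        (L p).mulVec ((C p)⁻¹.mulVec (v - ![Q (v 1), 0])) + T p
      have h1 := hN v p
      rw [hQe]
      simp only
      rw [h1, Matrix.mulVec_add, hL, hT]
      simp only
      rw [← Matrix.mulVec_mulVec, ← Matrix.mulVec_mulVec, EdNorm_cancel' (hCdet p)]
    · show (p + d) / d = p / d + 1
      rw [add_div, div_self hd0]
  have hrel : ∀ (t u : G) (e f : Fin 2 → ℝ), (∀ x, Θ (act t x) = ((Θ x).1 + e, (Θ x).2)) →
      (∀ x, Θ (act u x) = ((Θ x).1 + f, (Θ x).2)) → s * t = u * s →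
      ∀ p, (L p).mulVec e = f := by
    intro t u e f ht hu hst p
    have h1 : (act t (0, p)).2 = p := by
      have h2 : (Θ (act t (0, p))).2 = (Θ (0, p)).2 := by rw [ht]
      rw [hΘ2, hΘ2] at h2
      have h3 := congrArg (fun y => y * d) h2
      simp only [div_mul_cancel₀ _ hd0] at h3
      exact h3
    have h2 : (Θ (act (s * t) (0, p))).1 = (Θ (act (u * s) (0, p))).1 := by rw [hst]
    rw [S.mul, S.mul, hΘs, hu, hΘs, ht, h1] at h2
    simp only at h2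
    rw [Matrix.mulVec_add] at h2
    have h3 : (L p).mulVec (Θ (0, p)).1 + T p + (L p).mulVec e =
        (L p).mulVec (Θ (0, p)).1 + T p + f := by
      rw [← h2]
      abel
    exact add_left_cancel h3
  have hsub : ∀ t n : G, β n = 0 → (A n).val.det = 1 → ∃ i j : ℤ, t * n = z ^ i * g ^ j * t := by
    intro t n h1 h2
    obtain ⟨h3, h4⟩ := hconj t n h1 h2
    obtain ⟨i, j, h5⟩ := hlat _ h3 h4
    exact ⟨i, j, by rw [← h5, inv_mul_cancel_right]⟩
  obtain ⟨i₁, j₁, h₁⟩ := hsub s z hz hdz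
  obtain ⟨i₂, j₂, h₂⟩ := hsub s g hg hdg
  obtain ⟨i₃, j₃, h₃⟩ := hsub s⁻¹ z hz hdz
  obtain ⟨i₄, j₄, h₄⟩ := hsub s⁻¹ g hg hdg
  have h₃' : s * (z ^ i₃ * g ^ j₃) = z * s := by
    have h := congrArg (fun y => s * y * s) h₃
    rw [mul_inv_cancel_left, mul_assoc, mul_assoc, inv_mul_cancel, mul_one] at h
    exact h.symm
  have h₄' : s * (z ^ i₄ * g ^ j₄) = g * s := by
    have h := congrArg (fun y => s * y * s) h₄
    rw [mul_inv_cancel_left, mul_assoc, mul_assoc, inv_mul_cancel, mul_one] at h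
    exact h.symm
  have r₁ := hrel _ _ _ _ hΘz (hΘzg i₁ j₁) h₁
  have r₂ := hrel _ _ _ _ hΘg (hΘzg i₂ j₂) h₂
  have r₃ := hrel _ _ _ _ (hΘzg i₃ j₃) hΘz h₃'
  have r₄ := hrel _ _ _ _ (hΘzg i₄ j₄) hΘg h₄'
  have he : ∀ i j : ℝ, i • (Pi.single 0 1 : Fin 2 → ℝ) + j • Pi.single 1 1 = ![i, j] := by
    intro i j
    funext t
    fin_cases t <;> simp
  simp only [he] at r₁ r₂ r₃ r₄
  have hLM : ∀ p, L p = !![(i₁ : ℝ), i₂; j₁, j₂] := by
    intro p
    have a1 := r₁ p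
    have a2 := r₂ p
    rw [EdNorm_col0] at a1
    rw [EdNorm_col1] at a2
    ext i j
    fin_cases i <;> fin_cases j
    · exact congrFun a1 0
    · exact congrFun a2 0
    · exact congrFun a1 1
    · exact congrFun a2 1
  have hmv : ∀ x y : ℝ, (!![(i₁ : ℝ), i₂; j₁, j₂] : Matrix (Fin 2) (Fin 2) ℝ).mulVec ![x, y] =
      ![i₁ * x + i₂ * y, j₁ * x + j₂ * y] := by
    intro x y
    funext t
    fin_cases t
    · show (!![(i₁ : ℝ), i₂; j₁, j₂] : Matrix (Fin 2) (Fin 2) ℝ).mulVec ![x, y] 0 = _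
      rw [Matrix.mulVec, dotProduct, Fin.sum_univ_two]
      rfl
    · show (!![(i₁ : ℝ), i₂; j₁, j₂] : Matrix (Fin 2) (Fin 2) ℝ).mulVec ![x, y] 1 = _
      rw [Matrix.mulVec, dotProduct, Fin.sum_univ_two]
      rfl
  have s₃ := r₃ 0
  have s₄ := r₄ 0
  rw [hLM, hmv] at s₃ s₄
  have hMM : !![i₁, i₂; j₁, j₂] * !![i₃, i₄; j₃, j₄] = (1 : Matrix (Fin 2) (Fin 2) ℤ) := by
    have b1 : (i₁ : ℝ) * i₃ + i₂ * j₃ = 1 := congrFun s₃ 0
    have b2 : (j₁ : ℝ) * i₃ + j₂ * j₃ = 0 := congrFun s₃ 1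
    have b3 : (i₁ : ℝ) * i₄ + i₂ * j₄ = 0 := congrFun s₄ 0
    have b4 : (j₁ : ℝ) * i₄ + j₂ * j₄ = 1 := congrFun s₄ 1
    ext i j
    fin_cases i <;> fin_cases j
    · simp [Matrix.mul_apply, Fin.sum_univ_two]
      exact_mod_cast b1
    · simp [Matrix.mul_apply, Fin.sum_univ_two]
      exact_mod_cast b3
    · simp [Matrix.mul_apply, Fin.sum_univ_two]
      exact_mod_cast b2
    · simp [Matrix.mul_apply, Fin.sum_univ_two]
      exact_mod_cast b4
  obtain ⟨M, hM⟩ : ∃ M : GL (Fin 2) ℤ, M.val = !![i₁, i₂; j₁, j₂] :=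
    ⟨⟨!![i₁, i₂; j₁, j₂], !![i₃, i₄; j₃, j₄], hMM, mul_eq_one_comm.1 hMM⟩, rfl⟩
  have hrM : rM M = !![(i₁ : ℝ), i₂; j₁, j₂] := by
    unfold rM
    rw [hM]
    ext i j
    fin_cases i <;> fin_cases j <;> rfl
  refine ⟨Θ, z, g, s, M, fun q => T (d * q), φ.ker ⊓ δ.ker, hTc.comp (continuous_const.mul
    continuous_id), inferInstance, ?_, ?_, ?_, hzg, ?_, hΘz, hΘg, ?_⟩
  · exact ⟨(hφ z).2 (by rw [hz]; exact dvd_zero _), (hδ1 z).1 hdz⟩
  · exact ⟨(hφ g).2 (by rw [hg]; exact dvd_zero _), (hδ1 g).1 hdg⟩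
  · exact ⟨(hφ s).2 dvd_rfl, hds⟩
  · rintro x ⟨hx1, hx2⟩
    obtain ⟨l, hl⟩ := (hφ x).1 hx1
    have hx3 : δ x = 1 := hx2
    have h1 : β (x * s ^ (-l)) = 0 := by
      rw [S.beta_mul, S.beta_zpow, hl]
      ring
    have h2 : (A (x * s ^ (-l))).val.det = 1 := by
      rw [hδ1, map_mul, map_zpow, hx3, hds, one_zpow, mul_one]
    obtain ⟨i, j, h3⟩ := hlat _ h1 h2
    refine ⟨i, j, l, ?_⟩
    rw [← h3, mul_assoc, ← zpow_add, neg_add_cancel, zpow_zero, mul_one]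
  · intro x
    have h1 : d * (Θ x).2 = x.2 := by
      rw [hΘ2, mul_div_cancel₀ _ hd0]
    have h2 : T x.2 = (fun q => T (d * q)) (Θ x).2 := by
      show T x.2 = T (d * (Θ x).2)
      rw [h1]
    rw [hΘs, hLM, hrM, h2]

end H83T
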