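import Pool.Agent.H.MP_7a8a58_gt.h83.FinA

/-!
MP_7a8a58_gt, helper83, second part.  A cohomological equation.
Paper proof: /team-store/h83_7a8a58_T3.md
-/

set_option autoImplicit false

open Set Metric Topology Filter

namespace H83T

private theorem EeSig_mul {n : ℕ} (g h : GL (Fin n) ℤ) : rM (g * h) = rM g * rM h := by
  unfold rM
  rw [Units.val_mul, Matrix.map_mul_intCast]

private theorem EeSig_one {n : ℕ} : rM (1 : GL (Fin n) ℤ) = 1 := by
  unfold rM
  ext i j
  by_cases h : i = j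
  · subst h; simp
  · simp [Matrix.one_apply_ne h]

/-- the homeomorphism `(w, q) ↦ (M w + τ q, q + 1)` -/
private noncomputable def EeSigS {n : ℕ} (M : GL (Fin n) ℤ) (τ : ℝ → (Fin n → ℝ))
    (hτ : Continuous τ) : ((Fin n → ℝ) × ℝ) ≃ₜ ((Fin n → ℝ) × ℝ) where
  toFun z := ((rM M).mulVec z.1 + τ z.2, z.2 + 1)
  invFun z := ((rM M⁻¹).mulVec (z.1 - τ (z.2 - 1)), z.2 - 1)
  left_inv z := by
    have h : rM M⁻¹ * rM M = 1 := by rw [← EeSig_mul, inv_mul_cancel, EeSig_one]
    refine Prod.ext ?_ ?_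
    · show (rM M⁻¹).mulVec ((rM M).mulVec z.1 + τ z.2 - τ (z.2 + 1 - 1)) = z.1
      rw [add_sub_cancel_right, add_sub_cancel_right, Matrix.mulVec_mulVec, h, Matrix.one_mulVec]
    · show z.2 + 1 - 1 = z.2
      ring
  right_inv z := by
    have h : rM M * rM M⁻¹ = 1 := by rw [← EeSig_mul, mul_inv_cancel, EeSig_one]
    refine Prod.ext ?_ ?_
    · show (rM M).mulVec ((rM M⁻¹).mulVec (z.1 - τ (z.2 - 1))) + τ (z.2 - 1) = z.1
      rw [Matrix.mulVec_mulVec, h, Matrix.one_mulVec, sub_add_cancel]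
    · show z.2 - 1 + 1 = z.2
      ring
  continuous_toFun := by
    refine Continuous.prodMk (Continuous.add ?_ (hτ.comp continuous_snd))
      (continuous_snd.add continuous_const)
    exact Continuous.matrix_mulVec continuous_const continuous_fst
  continuous_invFun := by
    refine Continuous.prodMk ?_ (continuous_snd.sub continuous_const)
    exact Continuous.matrix_mulVec continuous_const
      (continuous_fst.sub (hτ.comp (continuous_snd.sub continuous_const)))

private theorem EeSigS_apply {n : ℕ} (M : GL (Fin n) ℤ) (τ : ℝ → (Fin n → ℝ))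
    (hτ : Continuous τ) (z : (Fin n → ℝ) × ℝ) :
    EeSigS M τ hτ z = ((rM M).mulVec z.1 + τ z.2, z.2 + 1) := rfl

private theorem EeSigS_symm_snd {n : ℕ} (M : GL (Fin n) ℤ) (τ : ℝ → (Fin n → ℝ))
    (hτ : Continuous τ) (z : (Fin n → ℝ) × ℝ) :
    ((EeSigS M τ hτ)⁻¹ z).2 = z.2 - 1 := rfl

private theorem EeSigS_snd {n : ℕ} (M : GL (Fin n) ℤ) (τ : ℝ → (Fin n → ℝ))
    (hτ : Continuous τ) (j : ℤ) (z : (Fin n → ℝ) × ℝ) :
    ((EeSigS M τ hτ ^ j) z).2 = z.2 + j := by
  induction j using Int.induction_on generalizing z with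
  | zero => simp
  | succ i ih =>
    rw [zpow_add_one]
    show ((EeSigS M τ hτ ^ (i : ℤ)) (EeSigS M τ hτ z)).2 = _
    rw [ih, EeSigS_apply]
    push_cast
    ring
  | pred i ih =>
    rw [zpow_sub_one]
    show ((EeSigS M τ hτ ^ (-(i : ℤ))) ((EeSigS M τ hτ)⁻¹ z)).2 = _
    rw [ih, EeSigS_symm_snd]
    push_cast
    ring

/-- the functions `F j` -/
private noncomputable def EeSigF {n : ℕ} (M : GL (Fin n) ℤ) (τ : ℝ → (Fin n → ℝ))
    (hτ : Continuous τ) (j : ℤ) (q : ℝ) : Fin n → ℝ :=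
  ((EeSigS M τ hτ ^ j) (0, q - j)).1

private theorem EeSigF_cont {n : ℕ} (M : GL (Fin n) ℤ) (τ : ℝ → (Fin n → ℝ))
    (hτ : Continuous τ) (j : ℤ) : Continuous (EeSigF M τ hτ j) := by
  refine continuous_fst.comp ((EeSigS M τ hτ ^ j).continuous.comp ?_)
  exact Continuous.prodMk continuous_const (continuous_id.sub continuous_const)

private theorem EeSigF_succ {n : ℕ} (M : GL (Fin n) ℤ) (τ : ℝ → (Fin n → ℝ))
    (hτ : Continuous τ) (j : ℤ) (q : ℝ) :
    EeSigF M τ hτ (j + 1) (q + 1) = (rM M).mulVec (EeSigF M τ hτ j q) + τ q := by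
  have h1 : q + 1 - ((j + 1 : ℤ) : ℝ) = q - j := by push_cast; ring
  unfold EeSigF
  rw [h1, add_comm j 1, zpow_one_add]
  show (EeSigS M τ hτ ((EeSigS M τ hτ ^ j) (0, q - j))).1 = _
  rw [EeSigS_apply, EeSigS_snd]
  show (rM M).mulVec _ + τ (q - j + j) = _
  rw [sub_add_cancel]

/-- the tent function -/
private noncomputable def EeSigC (q : ℝ) : ℝ := max 0 (1 - |q|)

private theorem EeSigC_cont : Continuous EeSigC :=
  continuous_const.max (continuous_const.sub continuous_abs)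

private theorem EeSigC_ne {q : ℝ} (h : EeSigC q ≠ 0) : |q| < 1 := by
  by_contra h1
  apply h
  unfold EeSigC
  exact max_eq_left (by linarith [not_lt.1 h1])

private theorem EeSigC_fin (q : ℝ) : {j : ℤ | |q - j| < 2}.Finite := by
  refine (Set.finite_Icc (⌊q⌋ - 3) (⌊q⌋ + 3)).subset fun j hj => ?_
  have h1 : |q - j| < 2 := hj
  rw [abs_lt] at h1
  have h2 := Int.floor_le q
  have h3 := Int.lt_floor_add_one q
  constructor
  · have : ((⌊q⌋ - 3 : ℤ) : ℝ) ≤ j := by push_cast; linarith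
    exact_mod_cast this
  · have : (j : ℝ) ≤ ((⌊q⌋ + 3 : ℤ) : ℝ) := by push_cast; linarith
    exact_mod_cast this

private theorem EeSigC_sum (q : ℝ) : ∑ᶠ j : ℤ, EeSigC (q - j) = 1 := by
  have h2 := Int.floor_le q
  have h3 := Int.lt_floor_add_one q
  have h4 : (⌊q⌋ : ℤ) ≠ ⌊q⌋ + 1 := by omega
  rw [finsum_eq_sum_of_support_subset (s := {⌊q⌋, ⌊q⌋ + 1}) (fun j : ℤ => EeSigC (q - j))]
  · rw [Finset.sum_pair h4]
    unfold EeSigC
    have h5 : |q - (⌊q⌋ : ℝ)| = q - ⌊q⌋ := abs_of_nonneg (by linarith)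
    have h6 : |q - ((⌊q⌋ + 1 : ℤ) : ℝ)| = ⌊q⌋ + 1 - q := by
      push_cast
      rw [abs_of_nonpos (by linarith)]
      ring
    rw [h5, h6, max_eq_right (by linarith), max_eq_right (by linarith)]
    ring
  · intro j hj
    have h5 : |q - j| < 1 := EeSigC_ne hj
    rw [abs_lt] at h5
    have h6 : (⌊q⌋ : ℤ) < j + 1 := by
      have : ((⌊q⌋ : ℤ) : ℝ) < ((j + 1 : ℤ) : ℝ) := by push_cast; linarith
      exact_mod_cast this
    have h7 : j < ⌊q⌋ + 2 := by
      have : (j : ℝ) < ((⌊q⌋ + 2 : ℤ) : ℝ) := by push_cast; linarith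
      exact_mod_cast this
    have h8 : j = ⌊q⌋ ∨ j = ⌊q⌋ + 1 := by omega
    simpa using h8

/-- PROOF: let `F j : ℝ → (Fin n → ℝ)`, `j : ℤ`, continuous, with `F 0 = 0` and `F (j + 1) (q + 1) = M (F j q) + τ q` for all `j`,
`q` (recursion on `j` in both directions: `F (j + 1) q = M (F j (q - 1)) + τ (q - 1)`,
`F (j - 1) q = M⁻¹ (F j (q + 1) - τ q)`; or the closed form of the `j`-th power of the homeomorphism
`s (w, q) = (M w + τ q, q + 1)`: `s ^ j (0, q - j) = (F j q, q)`). Let `χ q = max 0 (1 - |q|)`; `∑ j, χ (q - j) = 1`, locally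
finite. `σ q = ∑ᶠ j : ℤ, χ (q - j) • F j q` (locally a finite sum of continuous functions, `continuous_finsum`).
`σ (q + 1) = ∑ᶠ j, χ (q + 1 - j) • F j (q + 1) = ∑ᶠ i, χ (q - i) • (M (F i q) + τ q) = M (σ q) + τ q`. -/
theorem exists_sigma {n : ℕ} (M : GL (Fin n) ℤ) (τ : ℝ → (Fin n → ℝ)) (hτ : Continuous τ) :
    ∃ σ : ℝ → (Fin n → ℝ), Continuous σ ∧ ∀ q : ℝ, σ (q + 1) = (rM M).mulVec (σ q) + τ q := by
  refine ⟨fun q => ∑ᶠ j : ℤ, EeSigC (q - j) • EeSigF M τ hτ j q, ?_, ?_⟩
  · refine continuous_finsum (fun j => ?_) ?_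
    · exact (EeSigC_cont.comp (continuous_id.sub continuous_const)).smul (EeSigF_cont M τ hτ j)
    · intro q
      refine ⟨Metric.ball q 1, Metric.ball_mem_nhds q one_pos, (EeSigC_fin q).subset ?_⟩
      rintro j ⟨x, hx, hxq⟩
      have h1 : EeSigC (x - j) ≠ 0 := by
        intro h0
        apply hx
        show EeSigC (x - j) • EeSigF M τ hτ j x = 0
        rw [h0, zero_smul]
      have h2 := EeSigC_ne h1
      have h3 : |x - q| < 1 := hxq
      show |q - j| < 2
      rw [abs_lt] at h2 h3 ⊢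
      constructor <;> linarith
  · intro q
    have hfin1 : (Function.support fun j : ℤ => EeSigC (q - j)).Finite := by
      refine (EeSigC_fin q).subset fun j hj => ?_
      have := EeSigC_ne hj
      show |q - j| < 2
      linarith
    have hfin2 : (Function.support fun j : ℤ =>
        EeSigC (q - j) • (rM M).mulVec (EeSigF M τ hτ j q)).Finite := by
      refine hfin1.subset fun j hj => ?_
      intro h0
      apply hj
      show EeSigC (q - j) • _ = (0 : Fin n → ℝ)
      have h0' : EeSigC (q - j) = 0 := h0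
      rw [h0', zero_smul]
    have hfin3 : (Function.support fun j : ℤ => EeSigC (q - j) • τ q).Finite := by
      refine hfin1.subset fun j hj => ?_
      intro h0
      apply hj
      show EeSigC (q - j) • _ = (0 : Fin n → ℝ)
      have h0' : EeSigC (q - j) = 0 := h0
      rw [h0', zero_smul]
    have hfin4 : (Function.support fun j : ℤ => EeSigC (q - j) • EeSigF M τ hτ j q).Finite := by
      refine hfin1.subset fun j hj => ?_
      intro h0
      apply hj
      show EeSigC (q - j) • _ = (0 : Fin n → ℝ)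
      have h0' : EeSigC (q - j) = 0 := h0
      rw [h0', zero_smul]
    show ∑ᶠ j : ℤ, EeSigC (q + 1 - j) • EeSigF M τ hτ j (q + 1) = _
    have e1 : ∑ᶠ j : ℤ, EeSigC (q + 1 - j) • EeSigF M τ hτ j (q + 1) =
        ∑ᶠ j : ℤ, EeSigC (q - j) • ((rM M).mulVec (EeSigF M τ hτ j q) + τ q) := by
      rw [← finsum_comp_equiv (Equiv.addRight (1 : ℤ))]
      refine finsum_congr fun j => ?_
      show EeSigC (q + 1 - ((j + 1 : ℤ) : ℝ)) • EeSigF M τ hτ (j + 1) (q + 1) = _
      rw [EeSigF_succ]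
      congr 2
      push_cast
      ring
    rw [e1]
    simp only [smul_add]
    rw [finsum_add_distrib hfin2 hfin3]
    congr 1
    · have h5 := (Matrix.mulVecLin (rM M)).toAddMonoidHom.map_finsum hfin4
      have h6 : (Matrix.mulVecLin (rM M)).toAddMonoidHom
          (∑ᶠ j : ℤ, EeSigC (q - j) • EeSigF M τ hτ j q) =
          (rM M).mulVec (∑ᶠ j : ℤ, EeSigC (q - j) • EeSigF M τ hτ j q) := rfl
      rw [← h6, h5]
      refine finsum_congr fun j => ?_
      show _ = (rM M).mulVec (EeSigC (q - j) • EeSigF M τ hτ j q)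
      rw [Matrix.mulVec_smul]
    · rw [← finsum_smul, EeSigC_sum, one_smul]

end H83T
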