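import Pool.Agent.H.MP_7a8a58_gt.h83c.EdNorm
import Pool.Agent.H.MP_7a8a58_gt.h83c.EbKol
import Pool.Agent.H.MP_7a8a58_gt.h83c.EeSig

/-!
MP_7a8a58_gt, helper83, second part.  The orbit relation is the relation of a torus bundle.
Paper proof: /team-store/h83_7a8a58_T3.md
-/

set_option autoImplicit false

open Set Metric Topology Filter

namespace H83T

variable {G : Type} [Group G] {act : G → ((Fin 2 → ℝ) × ℝ) → ((Fin 2 → ℝ) × ℝ)}
  {A : G →* GL (Fin 2) ℤ} {B a : G → (Fin 2 → ℤ)} {β : G → ℤ}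

private theorem efRel_rV {n : ℕ} (P : GL (Fin n) ℤ) (b : Fin n → ℤ) :
    (rM P).mulVec (rV b) = rV ((P : Matrix (Fin n) (Fin n) ℤ).mulVec b) := by
  funext i
  simp only [Matrix.mulVec, dotProduct, rM, rV, Matrix.map_apply]
  push_cast
  rfl

/-- the linear homeomorphism `(v, p) ↦ (P v, p)` -/
private noncomputable def efRelL (P : GL (Fin 2) ℤ) :
    ((Fin 2 → ℝ) × ℝ) ≃ₜ ((Fin 2 → ℝ) × ℝ) where
  toFun x := ((rM P).mulVec x.1, x.2)
  invFun x := ((rM P⁻¹).mulVec x.1, x.2)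
  left_inv x := by
    refine Prod.ext ?_ rfl
    show (rM P⁻¹).mulVec ((rM P).mulVec x.1) = x.1
    rw [Matrix.mulVec_mulVec, ← finA_rM_mul, inv_mul_cancel, finA_rM_one, Matrix.one_mulVec]
  right_inv x := by
    refine Prod.ext ?_ rfl
    show (rM P).mulVec ((rM P⁻¹).mulVec x.1) = x.1
    rw [Matrix.mulVec_mulVec, ← finA_rM_mul, mul_inv_cancel, finA_rM_one, Matrix.one_mulVec]
  continuous_toFun := by
    refine Continuous.prodMk ?_ continuous_snd
    exact Continuous.matrix_mulVec continuous_const continuous_fst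
  continuous_invFun := by
    refine Continuous.prodMk ?_ continuous_snd
    exact Continuous.matrix_mulVec continuous_const continuous_fst

/-- Change of the integral basis of the plane.
PROOF: `act' g (v, p) = (P (act g (P⁻¹ v, p)).1, (act g (P⁻¹ v, p)).2)`. -/
theorem SlAct.conj (S : SlAct act A B a β) (P : GL (Fin 2) ℤ) :
    ∃ (act' : G → ((Fin 2 → ℝ) × ℝ) → ((Fin 2 → ℝ) × ℝ)) (A' : G →* GL (Fin 2) ℤ)
      (B' a' : G → (Fin 2 → ℤ)), SlAct act' A' B' a' β ∧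
      (∀ g : G, A' g = P * A g * P⁻¹) ∧
      ∀ (g : G) (v : Fin 2 → ℝ) (p : ℝ), act' g ((rM P).mulVec v, p) =
        ((rM P).mulVec (act g (v, p)).1, (act g (v, p)).2) := by
  have key : ∀ (g : G) (x : (Fin 2 → ℝ) × ℝ),
      efRelL P (act g ((efRelL P).symm (efRelL P x))) = efRelL P (act g x) := by
    intro g x
    rw [Homeomorph.symm_apply_apply]
  refine ⟨fun g x => efRelL P (act g ((efRelL P).symm x)), (MulAut.conj P).toMonoidHom.comp A,
    fun g => (P : Matrix (Fin 2) (Fin 2) ℤ).mulVec (B g),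
    fun g => (P : Matrix (Fin 2) (Fin 2) ℤ).mulVec (a g), ?_, fun g => rfl, ?_⟩
  · constructor
    · intro g v p
      show efRelL P (act g ((rM P⁻¹).mulVec v, p)) = _
      rw [S.act_def]
      refine Prod.ext ?_ rfl
      show (rM P).mulVec ((rM (A g)).mulVec ((rM P⁻¹).mulVec v) + p • rV (B g) + rV (a g)) =
        (rM (P * A g * P⁻¹)).mulVec v + p • rV ((P : Matrix (Fin 2) (Fin 2) ℤ).mulVec (B g)) +
          rV ((P : Matrix (Fin 2) (Fin 2) ℤ).mulVec (a g))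
      rw [Matrix.mulVec_add, Matrix.mulVec_add, Matrix.mulVec_smul, efRel_rV, efRel_rV,
        finA_rM_mul, finA_rM_mul, Matrix.mulVec_mulVec, Matrix.mulVec_mulVec, Matrix.mul_assoc]
    · intro z
      show efRelL P (act 1 ((efRelL P).symm z)) = z
      rw [S.one, Homeomorph.apply_symm_apply]
    · intro g h z
      show efRelL P (act (g * h) ((efRelL P).symm z)) =
        efRelL P (act g ((efRelL P).symm (efRelL P (act h ((efRelL P).symm z)))))
      rw [S.mul, Homeomorph.symm_apply_apply]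
    · intro g z hz
      refine S.free g ((efRelL P).symm z) ?_
      apply (efRelL P).injective
      rw [Homeomorph.apply_symm_apply]
      exact hz
    · obtain ⟨C, hC, h⟩ := S.coc
      refine ⟨efRelL P '' C, hC.image (efRelL P).continuous, fun z => ?_⟩
      obtain ⟨g, hg⟩ := h ((efRelL P).symm z)
      exact ⟨g, mem_image_of_mem _ hg⟩
  · intro g v p
    exact key g (v, p)

/-- powers of an element acting by a fibred affine map -/
private theorem efRel_zpow (S : SlAct act A B a β) {Θ : ((Fin 2 → ℝ) × ℝ) ≃ₜ ((Fin 2 → ℝ) × ℝ)}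
    {h : G} {M : GL (Fin 2) ℤ} {t : Fin 2 → ℝ} {c : ℝ} (hM : (rM M).mulVec t = t)
    (H : ∀ x, Θ (act h x) = ((rM M).mulVec (Θ x).1 + t, (Θ x).2 + c)) (j : ℤ) :
    ∀ x, Θ (act (h ^ j) x) = ((rM (M ^ j)).mulVec (Θ x).1 + (j : ℝ) • t, (Θ x).2 + j * c) := by
  induction j using Int.induction_on with
  | zero =>
    intro x
    rw [zpow_zero, zpow_zero, S.one, finA_rM_one, Matrix.one_mulVec, Int.cast_zero, zero_smul,
      add_zero, zero_mul, add_zero]
  | succ k ih =>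
    intro x
    rw [zpow_add_one, S.mul, ih, H, zpow_add_one, finA_rM_mul, ← Matrix.mulVec_mulVec]
    have hk : ∀ k : ℕ, (rM (M ^ (k : ℤ))).mulVec t = t := by
      intro k
      induction k with
      | zero => rw [Nat.cast_zero, zpow_zero, finA_rM_one, Matrix.one_mulVec]
      | succ k ih' =>
        rw [Nat.cast_succ, zpow_add_one, finA_rM_mul, ← Matrix.mulVec_mulVec, hM, ih']
    refine Prod.ext ?_ ?_
    · show (rM (M ^ (k : ℤ))).mulVec ((rM M).mulVec (Θ x).1 + t) + ((k : ℤ) : ℝ) • t = _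
      rw [Matrix.mulVec_add, hk]
      push_cast
      rw [add_smul, one_smul]
      abel
    · show (Θ x).2 + c + ((k : ℤ) : ℝ) * c = (Θ x).2 + (((k : ℤ) + 1 : ℤ) : ℝ) * c
      push_cast
      ring
  | pred k ih =>
    intro x
    have h1 := H (act h⁻¹ x)
    rw [← S.mul, mul_inv_cancel, S.one] at h1
    have h2 : (Θ x).1 = (rM M).mulVec (Θ (act h⁻¹ x)).1 + t := by rw [h1]
    have h3 : (Θ x).2 = (Θ (act h⁻¹ x)).2 + c := by rw [h1]
    have hMi : (rM M⁻¹).mulVec t = t := by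
      conv_lhs => rw [← hM]
      rw [Matrix.mulVec_mulVec, ← finA_rM_mul, inv_mul_cancel, finA_rM_one, Matrix.one_mulVec]
    have h4 : (Θ (act h⁻¹ x)).1 = (rM M⁻¹).mulVec (Θ x).1 - t := by
      rw [h2, Matrix.mulVec_add, Matrix.mulVec_mulVec, ← finA_rM_mul, inv_mul_cancel, finA_rM_one,
        Matrix.one_mulVec, hMi, add_sub_cancel_right]
    have hk : ∀ k : ℕ, (rM (M ^ (-(k : ℤ)))).mulVec t = t := by
      intro k
      induction k with
      | zero => rw [Nat.cast_zero, neg_zero, zpow_zero, finA_rM_one, Matrix.one_mulVec]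
      | succ k ih' =>
        rw [show (-((k + 1 : ℕ) : ℤ)) = -(k : ℤ) - 1 by push_cast; ring, zpow_sub_one, finA_rM_mul,
          ← Matrix.mulVec_mulVec, hMi, ih']
    rw [zpow_sub_one, S.mul, ih, h4, zpow_sub_one, finA_rM_mul, ← Matrix.mulVec_mulVec]
    refine Prod.ext ?_ ?_
    · show (rM (M ^ (-(k : ℤ)))).mulVec ((rM M⁻¹).mulVec (Θ x).1 - t) + ((-(k : ℤ) : ℤ) : ℝ) • t = _
      rw [Matrix.mulVec_sub, hk]
      push_cast
      rw [sub_smul, one_smul]
      abel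
    · show (Θ (act h⁻¹ x)).2 + ((-(k : ℤ) : ℤ) : ℝ) * c = (Θ x).2 + ((-(k : ℤ) - 1 : ℤ) : ℝ) * c
      rw [h3]
      push_cast
      ring

/-- The case where the slice group is upper triangular.
PROOF: `exists_norm`, `exists_sigma`; `Θ' x = ((Θ x).1 - σ (Θ x).2, (Θ x).2)`; then `z`, `g` act by the unit translations and
`s` by `(w, q) ↦ (M w, q + 1)`. `TorusRel M (Θ' x) (Θ' y)` iff `Θ' y = (M ^ l w + z', q + l)`: `y = act (z ^ i * g ^ j * s ^ l) x`
with `z' = (i, j)`. -/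
theorem SlAct.torus_of_triangular (S : SlAct act A B a β)
    (hk : ∀ n : G, β n = 0 → (A n).val.det = 1 → ∃ k : ℤ, (A n).val = !![1, k; 0, 1]) :
    ∃ (G' : Subgroup G) (M : GL (Fin 2) ℤ)
      (Θ : ((Fin 2 → ℝ) × ℝ) ≃ₜ ((Fin 2 → ℝ) × ℝ)), G'.FiniteIndex ∧
      ∀ x y, (∃ g ∈ G', y = act g x) ↔ TorusRel M (Θ x) (Θ y) := by
  obtain ⟨Θ, z, g, s, M, τ, G', hτ, hG', hz, hg, hs, -, hgen, Hz, Hg, Hs⟩ := S.exists_norm hk
  obtain ⟨σ, hσ, Hσ⟩ := exists_sigma M τ hτ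
  let Ψ : ((Fin 2 → ℝ) × ℝ) ≃ₜ ((Fin 2 → ℝ) × ℝ) :=
    { toFun := fun x => (x.1 - σ x.2, x.2)
      invFun := fun x => (x.1 + σ x.2, x.2)
      left_inv := fun x => by simp
      right_inv := fun x => by simp
      continuous_toFun := by fun_prop
      continuous_invFun := by fun_prop }
  have hΨ : ∀ x, Ψ x = (x.1 - σ x.2, x.2) := fun x => rfl
  obtain ⟨Θ', hΘ'⟩ : ∃ Θ' : ((Fin 2 → ℝ) × ℝ) ≃ₜ ((Fin 2 → ℝ) × ℝ),
      ∀ x, Θ' x = ((Θ x).1 - σ (Θ x).2, (Θ x).2) := ⟨Θ.trans Ψ, fun x => rfl⟩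
  have Hz' : ∀ x, Θ' (act z x) = ((rM (1 : GL (Fin 2) ℤ)).mulVec (Θ' x).1 + Pi.single 0 1,
      (Θ' x).2 + 0) := by
    intro x
    rw [hΘ', hΘ', Hz, finA_rM_one, Matrix.one_mulVec, add_zero]
    refine Prod.ext ?_ rfl
    show (Θ x).1 + Pi.single 0 1 - σ (Θ x).2 = (Θ x).1 - σ (Θ x).2 + Pi.single 0 1
    abel
  have Hg' : ∀ x, Θ' (act g x) = ((rM (1 : GL (Fin 2) ℤ)).mulVec (Θ' x).1 + Pi.single 1 1,
      (Θ' x).2 + 0) := by
    intro x
    rw [hΘ', hΘ', Hg, finA_rM_one, Matrix.one_mulVec, add_zero]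
    refine Prod.ext ?_ rfl
    show (Θ x).1 + Pi.single 1 1 - σ (Θ x).2 = (Θ x).1 - σ (Θ x).2 + Pi.single 1 1
    abel
  have Hs' : ∀ x, Θ' (act s x) = ((rM M).mulVec (Θ' x).1 + 0, (Θ' x).2 + 1) := by
    intro x
    rw [hΘ', hΘ', Hs]
    refine Prod.ext ?_ rfl
    show (rM M).mulVec (Θ x).1 + τ (Θ x).2 - σ ((Θ x).2 + 1) =
      (rM M).mulVec ((Θ x).1 - σ (Θ x).2) + 0
    rw [Hσ, Matrix.mulVec_sub]
    abel
  have h1 : ∀ (i j l : ℤ) (x : (Fin 2 → ℝ) × ℝ), Θ' (act (z ^ i * g ^ j * s ^ l) x) =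
      ((rM (M ^ l)).mulVec (Θ' x).1 + fun m => ((![i, j] m : ℤ) : ℝ), (Θ' x).2 + l) := by
    intro i j l x
    rw [S.mul, S.mul, efRel_zpow S (by rw [finA_rM_one, Matrix.one_mulVec]) Hz' i,
      efRel_zpow S (by rw [finA_rM_one, Matrix.one_mulVec]) Hg' j,
      efRel_zpow S (Matrix.mulVec_zero _) Hs' l, one_zpow, one_zpow, finA_rM_one,
      Matrix.one_mulVec, Matrix.one_mulVec]
    refine Prod.ext ?_ ?_
    · funext m
      simp only [Pi.add_apply, Pi.smul_apply, smul_eq_mul, Pi.zero_apply, mul_zero, add_zero]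
      fin_cases m
      · show _ + (j : ℝ) * (Pi.single (M := fun _ : Fin 2 => ℝ) 1 1 : Fin 2 → ℝ) 0 +
          (i : ℝ) * (Pi.single (M := fun _ : Fin 2 => ℝ) 0 1 : Fin 2 → ℝ) 0 = _ + (i : ℝ)
        rw [Pi.single_eq_same, Pi.single_eq_of_ne (by decide), mul_one, mul_zero, add_zero]
      · show _ + (j : ℝ) * (Pi.single (M := fun _ : Fin 2 => ℝ) 1 1 : Fin 2 → ℝ) 1 +
          (i : ℝ) * (Pi.single (M := fun _ : Fin 2 => ℝ) 0 1 : Fin 2 → ℝ) 1 = _ + (j : ℝ)
        rw [Pi.single_eq_same, Pi.single_eq_of_ne (by decide), mul_one, mul_zero, add_zero]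
    · simp
  refine ⟨G', M, Θ', hG', fun x y => ⟨?_, ?_⟩⟩
  · rintro ⟨h, hh, rfl⟩
    obtain ⟨i, j, l, rfl⟩ := hgen h hh
    refine ⟨l, ![i, j], ?_, ?_⟩
    · rw [h1]
    · rw [h1]
      rfl
  · rintro ⟨l, w, e1, e2⟩
    refine ⟨z ^ (w 0) * g ^ (w 1) * s ^ l, ?_, ?_⟩
    · exact G'.mul_mem (G'.mul_mem (G'.zpow_mem hz _) (G'.zpow_mem hg _)) (G'.zpow_mem hs _)
    · apply Θ'.injective
      rw [h1]
      refine Prod.ext ?_ e1
      rw [e2]
      show _ = (rM (M ^ l)).mulVec (Θ' x).1 + _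
      congr 1
      funext m
      fin_cases m <;> simp

/-- PROOF: `kolchin_two` for the subgroup `β n = 0`, `det (A n) = 1` (`det_sub_one`), `conj`, `torus_of_triangular`. -/
theorem SlAct.torus (S : SlAct act A B a β) :
    ∃ (G' : Subgroup G) (M : GL (Fin 2) ℤ)
      (Θ : ((Fin 2 → ℝ) × ℝ) ≃ₜ ((Fin 2 → ℝ) × ℝ)), G'.FiniteIndex ∧
      ∀ x y, (∃ g ∈ G', y = act g x) ↔ TorusRel M (Θ x) (Θ y) := by
  have hβ1 : β 1 = 0 := by
    have := S.beta_mul 1 1
    rw [mul_one] at this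
    omega
  have hβi : ∀ n, β n⁻¹ = -β n := by
    intro n
    have := S.beta_mul n n⁻¹
    rw [mul_inv_cancel, hβ1] at this
    omega
  let H : Subgroup G :=
    { carrier := {n | β n = 0 ∧ (A n).val.det = 1}
      mul_mem' := by
        rintro x y ⟨h1, h2⟩ ⟨h3, h4⟩
        refine ⟨by rw [S.beta_mul, h1, h3, add_zero], ?_⟩
        rw [map_mul, Units.val_mul, Matrix.det_mul, h2, h4, mul_one]
      one_mem' := by
        refine ⟨hβ1, ?_⟩
        rw [map_one, Units.val_one, Matrix.det_one]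
      inv_mem' := by
        rintro x ⟨h1, h2⟩
        refine ⟨by rw [hβi, h1, neg_zero], ?_⟩
        have h3 : (A x⁻¹).val.det * (A x).val.det = 1 := by
          rw [← Matrix.det_mul, ← Units.val_mul, ← map_mul, inv_mul_cancel, map_one, Units.val_one,
            Matrix.det_one]
        rwa [h2, mul_one] at h3 }
  obtain ⟨P, hP⟩ := kolchin_two (A.comp H.subtype) (fun n => S.det_sub_one n.2.1) (fun n => n.2.2)
  obtain ⟨act', A', B', a', S', hA', hact⟩ := S.conj P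
  obtain ⟨G', M, Θ, hG', hΘ⟩ := S'.torus_of_triangular (fun n hn hd => by
    have h1 : (A n).val.det = 1 := by
      rw [hA', Units.val_mul, Units.val_mul, Matrix.det_mul, Matrix.det_mul] at hd
      have h2 : (P : Matrix (Fin 2) (Fin 2) ℤ).det * ((P⁻¹ : GL (Fin 2) ℤ) : Matrix (Fin 2) (Fin 2) ℤ).det
          = 1 := by
        rw [← Matrix.det_mul, ← Units.val_mul, mul_inv_cancel, Units.val_one, Matrix.det_one]
      calc (A n).val.det = (A n).val.det * ((P : Matrix (Fin 2) (Fin 2) ℤ).det *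
            ((P⁻¹ : GL (Fin 2) ℤ) : Matrix (Fin 2) (Fin 2) ℤ).det) := by rw [h2, mul_one]
        _ = (P : Matrix (Fin 2) (Fin 2) ℤ).det * (A n).val.det *
            ((P⁻¹ : GL (Fin 2) ℤ) : Matrix (Fin 2) (Fin 2) ℤ).det := by ring
        _ = 1 := hd
    obtain ⟨k, hk⟩ := hP ⟨n, hn, h1⟩
    exact ⟨k, by rw [hA']; exact hk⟩)
  refine ⟨G', M, (efRelL P).trans Θ, hG', fun x y => ?_⟩
  have h2 : ∀ (g : G) (x : (Fin 2 → ℝ) × ℝ), act' g (efRelL P x) = efRelL P (act g x) :=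
    fun g x => hact g x.1 x.2
  show _ ↔ TorusRel M (Θ (efRelL P x)) (Θ (efRelL P y))
  rw [← hΘ]
  constructor
  · rintro ⟨g, hg, rfl⟩
    exact ⟨g, hg, (h2 g x).symm⟩
  · rintro ⟨g, hg, h3⟩
    rw [h2] at h3
    exact ⟨g, hg, (efRelL P).injective h3⟩

end H83T
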