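import Mathlib

/-!
MP_7a8a58_gt, helper83, second part.  Rational perturbation of the identity of `ℝ`.
Paper proof: /team-store/h83_7a8a58_T3.md
-/

set_option autoImplicit false

open Set Metric Topology Filter

namespace H83T

/-- PROOF: let `W` be the `ℚ`-span of `C` in `ℝ`, finite dimensional, with a basis `w i`; `c = ∑ i, q c i • w i` for
`c ∈ C`. Choose rationals `r i` with `|r i - w i| * (∑ i, |q c i|) ≤ η` for all `c ∈ C`, let `θ₀ : W →ₗ[ℚ] ℚ` be the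
linear map `w i ↦ r i`, extend it to `θ₁ : ℝ →ₗ[ℚ] ℚ` (`LinearMap.exists_extend`) and compose with the cast. -/
theorem exists_theta (C : Finset ℝ) {η : ℝ} (hη : 0 < η) :
    ∃ θ : ℝ →+ ℝ, (∀ c ∈ C, |θ c - c| ≤ η) ∧ ∀ x : ℝ, ∃ q : ℚ, θ x = (q : ℝ) := by
  classical
  obtain ⟨W, hW⟩ : ∃ W : Submodule ℚ ℝ, W = Submodule.span ℚ (C : Set ℝ) := ⟨_, rfl⟩
  have hCW : ∀ c ∈ C, c ∈ W := fun c hc => by rw [hW]; exact Submodule.subset_span hc
  have hfin : FiniteDimensional ℚ W := by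
    rw [hW]
    exact FiniteDimensional.span_finset ℚ C
  let b := Module.finBasis ℚ W
  let q : ℝ → Fin (Module.finrank ℚ W) → ℚ := fun c i =>
    if h : c ∈ W then b.repr ⟨c, h⟩ i else 0
  obtain ⟨N, hN⟩ : ∃ N : ℝ, N = ∑ c ∈ C, ∑ i, |(q c i : ℝ)| := ⟨_, rfl⟩
  have hN0 : 0 ≤ N := by
    rw [hN]
    exact Finset.sum_nonneg fun c _ => Finset.sum_nonneg fun i _ => abs_nonneg _
  have hNc : ∀ c ∈ C, ∑ i, |(q c i : ℝ)| ≤ N := fun c hc => by
    rw [hN]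
    exact Finset.single_le_sum (f := fun c => ∑ i, |(q c i : ℝ)|)
      (fun c _ => Finset.sum_nonneg fun i _ => abs_nonneg _) hc
  have hδ : 0 < η / (N + 1) := by positivity
  have hr : ∀ i, ∃ r : ℚ, |((b i : W) : ℝ) - r| < η / (N + 1) := fun i =>
    exists_rat_near _ hδ
  choose r hr using hr
  obtain ⟨θ₁, hθ₁⟩ := LinearMap.exists_extend (b.constr ℚ r)
  refine ⟨((Rat.castHom ℝ : ℚ →+* ℝ) : ℚ →+ ℝ).comp θ₁.toAddMonoidHom, fun c hc => ?_, fun x => ⟨θ₁ x, rfl⟩⟩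
  have hcW := hCW c hc
  have e1 : θ₁ c = ∑ i, q c i * r i := by
    have h1 : θ₁ c = b.constr ℚ r ⟨c, hcW⟩ := by
      rw [← hθ₁]
      rfl
    rw [h1, Module.Basis.constr_apply_fintype]
    refine Finset.sum_congr rfl fun i _ => ?_
    simp only [q, dif_pos hcW, smul_eq_mul, Module.Basis.equivFun_apply]
  have e2 : c = ∑ i, (q c i : ℝ) * ((b i : W) : ℝ) := by
    have h1 := b.sum_repr ⟨c, hcW⟩
    have h2 := congrArg (fun w : W => (w : ℝ)) h1
    simp only [Submodule.coe_sum, Submodule.coe_smul] at h2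
    refine h2.symm.trans (Finset.sum_congr rfl fun i _ => ?_)
    simp only [q, dif_pos hcW, Rat.smul_def]
  have e3 : (((Rat.castHom ℝ : ℚ →+* ℝ) : ℚ →+ ℝ).comp θ₁.toAddMonoidHom) c - c =
      ∑ i, (q c i : ℝ) * ((r i : ℝ) - ((b i : W) : ℝ)) := by
    have h1 : (((Rat.castHom ℝ : ℚ →+* ℝ) : ℚ →+ ℝ).comp θ₁.toAddMonoidHom) c = ((θ₁ c : ℚ) : ℝ) := rfl
    rw [h1, e1]
    push_cast
    nth_rewrite 2 [e2]
    rw [← Finset.sum_sub_distrib]
    refine Finset.sum_congr rfl fun i _ => ?_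
    ring
  rw [e3]
  calc |∑ i, (q c i : ℝ) * ((r i : ℝ) - ((b i : W) : ℝ))|
      ≤ ∑ i, |(q c i : ℝ) * ((r i : ℝ) - ((b i : W) : ℝ))| := Finset.abs_sum_le_sum_abs _ _
    _ ≤ ∑ i, |(q c i : ℝ)| * (η / (N + 1)) := by
        refine Finset.sum_le_sum fun i _ => ?_
        rw [abs_mul, abs_sub_comm]
        exact mul_le_mul_of_nonneg_left (hr i).le (abs_nonneg _)
    _ = (∑ i, |(q c i : ℝ)|) * (η / (N + 1)) := by rw [Finset.sum_mul]
    _ ≤ N * (η / (N + 1)) := mul_le_mul_of_nonneg_right (hNc c hc) hδ.le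
    _ ≤ η := by
        rw [mul_div_assoc', div_le_iff₀ (by positivity)]
        nlinarith

end H83T
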