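import Pool.Agent.H.MP_7a8a58_gt.h83c.PtLoc
import Pool.Agent.H.MP_7a8a58_gt.h83c.PtTheta
import Pool.Agent.H.MP_7a8a58_gt.h83.Pair

/-!
MP_7a8a58_gt, helper83, second part.  Integral translations.
Paper proof: /team-store/h83_7a8a58_T3.md
-/

set_option autoImplicit false

open Set Metric Topology Filter

namespace H83T

private theorem PtMain_rM_rV {n : ℕ} (M : GL (Fin n) ℤ) (z : Fin n → ℤ) :
    (rM M).mulVec (rV z) = rV ((M : Matrix (Fin n) (Fin n) ℤ).mulVec z) := by
  funext i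
  simp only [rM, rV, Matrix.mulVec, dotProduct, Matrix.map_apply]
  push_cast
  rfl

private theorem PtMain_rM_one {n : ℕ} : rM (1 : GL (Fin n) ℤ) = 1 := by
  unfold rM
  rw [Units.val_one]
  exact Matrix.map_one _ Int.cast_zero Int.cast_one

private theorem PtMain_rM_mul {n : ℕ} (M N : GL (Fin n) ℤ) : rM (M * N) = rM M * rM N := by
  unfold rM
  rw [Units.val_mul]
  ext i j
  simp [Matrix.mul_apply, Matrix.map_apply]

/-- A rational cocycle of a finitely generated group has bounded denominators.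
PROOF: the set of `γ` with `q • b' γ` integral is a subgroup (`lin` is integral; `b' 1 = 0`,
`b' γ⁻¹ = - lin γ⁻¹ (b' γ)`); choose `q` for a finite set of generators (`Group.FG`, `Subgroup.closure_induction`). -/
theorem exists_denominator {n : ℕ} {Γ : Type} [Group Γ] [Group.FG Γ] (lin : Γ →* GL (Fin n) ℤ)
    (b' : Γ → (Fin n → ℝ)) (hc : ∀ γ γ' : Γ, b' (γ * γ') = (rM (lin γ)).mulVec (b' γ') + b' γ)
    (hq : ∀ (γ : Γ) (i : Fin n), ∃ q : ℚ, b' γ i = (q : ℝ)) :
    ∃ N : ℕ, 0 < N ∧ ∀ γ : Γ, ∃ z : Fin n → ℤ, (N : ℝ) • b' γ = rV z := by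
  classical
  choose q hq using hq
  obtain ⟨S, hS, hfin⟩ := Group.fg_iff.1 (inferInstance : Group.FG Γ)
  set N : ℕ := ∏ s ∈ hfin.toFinset, ∏ i : Fin n, (q s i).den with hN
  have hNpos : 0 < N := Finset.prod_pos fun s _ => Finset.prod_pos fun i _ => (q s i).den_pos
  have h1 : b' 1 = 0 := by
    have h := hc 1 1
    rw [mul_one, map_one, PtMain_rM_one, Matrix.one_mulVec] at h
    simpa using h
  refine ⟨N, hNpos, fun γ => ?_⟩
  have hγ : γ ∈ Subgroup.closure S := by rw [hS]; exact Subgroup.mem_top γ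
  induction hγ using Subgroup.closure_induction with
  | mem s hs =>
    have hd : ∀ i : Fin n, ∃ z : ℤ, (N : ℝ) * b' s i = (z : ℝ) := by
      intro i
      have hdvd : (q s i).den ∣ N := by
        refine dvd_trans ?_ (Finset.dvd_prod_of_mem _ (hfin.mem_toFinset.2 hs))
        exact Finset.dvd_prod_of_mem (fun i : Fin n => (q s i).den) (Finset.mem_univ i)
      obtain ⟨m, hm⟩ := hdvd
      refine ⟨(m : ℤ) * (q s i).num, ?_⟩
      have h2 : ((q s i).den : ℝ) * (q s i : ℝ) = ((q s i).num : ℝ) := by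
        have h3 : ((q s i).den : ℚ) * (q s i) = ((q s i).num : ℚ) := by
          rw [mul_comm]; exact Rat.mul_den_eq_num (q s i)
        exact_mod_cast h3
      rw [hq s i, hm]
      push_cast
      rw [← h2]
      ring
    choose z hz using hd
    refine ⟨z, ?_⟩
    funext i
    exact hz i
  | one =>
    refine ⟨0, ?_⟩
    rw [h1, smul_zero]
    funext i
    simp [rV]
  | mul x y _ _ hx hy =>
    obtain ⟨zx, hzx⟩ := hx
    obtain ⟨zy, hzy⟩ := hy
    refine ⟨((lin x : GL (Fin n) ℤ) : Matrix (Fin n) (Fin n) ℤ).mulVec zy + zx, ?_⟩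
    rw [hc, smul_add, ← Matrix.mulVec_smul, hzy, hzx, PtMain_rM_rV]
    funext i
    simp [rV]
  | inv x _ hx =>
    obtain ⟨zx, hzx⟩ := hx
    refine ⟨-((lin x⁻¹ : GL (Fin n) ℤ) : Matrix (Fin n) (Fin n) ℤ).mulVec zx, ?_⟩
    have h2 := hc x⁻¹ x
    rw [inv_mul_cancel, h1] at h2
    have h3 : b' x⁻¹ = -(rM (lin x⁻¹)).mulVec (b' x) := by
      rw [eq_neg_iff_add_eq_zero, add_comm]
      exact h2.symm
    rw [h3, smul_neg, ← Matrix.mulVec_smul, hzx, PtMain_rM_rV]
    funext i
    simp [rV]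

/-- The linear automorphism of an integral matrix. -/
private noncomputable def PtMain_iota (n : ℕ) :
    GL (Fin n) ℤ →* ((Fin n → ℝ) ≃ₗ[ℝ] (Fin n → ℝ)) :=
  (LinearMap.GeneralLinearGroup.generalLinearEquiv ℝ (Fin n → ℝ)).toMonoidHom.comp
    (Matrix.GeneralLinearGroup.toLin.toMonoidHom.comp
      (Matrix.GeneralLinearGroup.map (Int.castRingHom ℝ)))

private theorem PtMain_apply {n : ℕ} (M : GL (Fin n) ℤ) (v : Fin n → ℝ) :
    PtMain_iota n M v = (rM M).mulVec v := by
  rfl

private theorem PtMain_theta {n : ℕ} (θ : ℝ →+ ℝ) (M : GL (Fin n) ℤ) (v : Fin n → ℝ) :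
    (fun i => θ ((rM M).mulVec v i)) = (rM M).mulVec (fun i => θ (v i)) := by
  funext i
  simp only [rM, Matrix.mulVec, dotProduct, Matrix.map_apply, map_sum]
  refine Finset.sum_congr rfl fun j _ => ?_
  rw [← zsmul_eq_mul, map_zsmul, zsmul_eq_mul]

private theorem PtMain_trans {n : ℕ} (S : IntAffPair n) (γ γ' : S.Γ) :
    S.trans (γ * γ') = (rM (S.lin γ)).mulVec (S.trans γ') + S.trans γ := by
  obtain ⟨x⟩ : Nonempty S.X := S.connX.toNonempty
  have h1 : S.dev ((γ * γ') • x) = (rM (S.lin (γ * γ'))).mulVec (S.dev x) + S.trans (γ * γ') :=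
    S.dev_smul (γ * γ') x
  have h2 : S.dev (γ • γ' • x) = (rM (S.lin γ)).mulVec (S.dev (γ' • x)) + S.trans γ :=
    S.dev_smul γ (γ' • x)
  have h3 : S.dev (γ' • x) = (rM (S.lin γ')).mulVec (S.dev x) + S.trans γ' := S.dev_smul γ' x
  rw [mul_smul, h2, h3, map_mul, PtMain_rM_mul, Matrix.mulVec_add, Matrix.mulVec_mulVec] at h1
  have h4 := add_left_cancel (a := (rM (S.lin γ) * rM (S.lin γ')).mulVec (S.dev x))
    (b := (rM (S.lin γ)).mulVec (S.trans γ') + S.trans γ) (c := S.trans (γ * γ'))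
    (by rw [← add_assoc]; exact h1)
  exact h4.symm

/-- The developing map can be changed so that all translations are integral.
PROOF: apply `exists_perturbed` (with `L γ` the linear automorphism of `rM (lin γ)`, as `IntA_iota` in h83/IntA.lean)
to get `F`, `η`; `θ` from `exists_theta` for the coordinates of `trans γ`, `γ ∈ F`; `δ γ = θ ∘ trans γ - trans γ` is
a cocycle because `θ` is additive and `lin` integral (and `trans` is a cocycle: `dev_smul` at a point);
`exists_denominator` for `b' = θ ∘ trans`, `D'' = N • D'`. -/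
theorem IntAffPair.exists_integral {n : ℕ} (S : IntAffPair n) :
    ∃ (D' : S.X → (Fin n → ℝ)) (t : S.Γ → (Fin n → ℤ)), IsLocalHomeomorph D' ∧
      ∀ (γ : S.Γ) (x : S.X), D' (γ • x) = (rM (S.lin γ)).mulVec (D' x) + rV (t γ) := by
  classical
  obtain ⟨F, η, hη, h⟩ := exists_perturbed (D := S.dev) (L := (PtMain_iota n).comp S.lin)
    (b := S.trans) S.isLocalHomeomorph_dev (fun γ x => S.dev_smul γ x) S.cocompact
  obtain ⟨θ, hθ, hrat⟩ := exists_theta
    (F.biUnion fun γ => Finset.univ.image fun i : Fin n => S.trans γ i) hη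
  have hb' : ∀ γ γ' : S.Γ, (fun i => θ (S.trans (γ * γ') i)) =
      (rM (S.lin γ)).mulVec (fun i => θ (S.trans γ' i)) + fun i => θ (S.trans γ i) := by
    intro γ γ'
    rw [← PtMain_theta, PtMain_trans]
    funext i
    simp only [Pi.add_apply, map_add]
  obtain ⟨D', hD', heq'⟩ := h (fun γ => (fun i => θ (S.trans γ i)) - S.trans γ) (by
      intro γ γ'
      change (fun i => θ (S.trans (γ * γ') i)) - S.trans (γ * γ') =
        (rM (S.lin γ)).mulVec ((fun i => θ (S.trans γ' i)) - S.trans γ') +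
          ((fun i => θ (S.trans γ i)) - S.trans γ)
      rw [hb', PtMain_trans, Matrix.mulVec_sub]
      abel) (by
      intro γ hγ
      rw [pi_norm_le_iff_of_nonneg hη.le]
      intro i
      rw [Pi.sub_apply, Real.norm_eq_abs]
      refine hθ _ (Finset.mem_biUnion.2 ⟨γ, hγ, Finset.mem_image.2 ⟨i, Finset.mem_univ i, rfl⟩⟩))
  have hfg : Group.FG S.Γ := fg_of_cocompact
    (fun x => by
      obtain ⟨N, hN, hc, _⟩ := exists_compact_nhds S.isLocalHomeomorph_dev x (univ_mem)
      exact ⟨N, hN, hc⟩) S.cocompact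
  obtain ⟨N, hN, hz⟩ := exists_denominator S.lin (fun γ i => θ (S.trans γ i)) hb'
    (fun γ i => hrat _)
  choose t ht using hz
  have hN0 : (N : ℝ) ≠ 0 := by exact_mod_cast hN.ne'
  refine ⟨fun x => (N : ℝ) • D' x, t, ?_, ?_⟩
  · exact (Homeomorph.smulOfNeZero (N : ℝ) hN0).isLocalHomeomorph.comp hD'
  · intro γ x
    have h5 : D' (γ • x) = (rM (S.lin γ)).mulVec (D' x) +
        (S.trans γ + ((fun i => θ (S.trans γ i)) - S.trans γ)) := heq' γ x
    change (N : ℝ) • D' (γ • x) = (rM (S.lin γ)).mulVec ((N : ℝ) • D' x) + rV (t γ)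
    rw [h5, add_sub_cancel, smul_add, ht γ, Matrix.mulVec_smul]

end H83T
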