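import Pool.Agent.H.MP_7a8a58_gt.h83c.FnA
import Pool.Agent.H.MP_7a8a58_gt.h83c.PtMain
import Pool.Agent.H.MP_7a8a58_gt.h83.IntB

/-!
MP_7a8a58_gt, helper83, second part.  Final assembly.
Paper proof: /team-store/h83_7a8a58_T3.md
-/

set_option autoImplicit false

open Set Metric Topology Filter

namespace H83T

theorem finalT (k m : ℕ) (S : IntAffPair (k + m)) (Γ' : Subgroup S.Γ) (hΓ' : Γ'.FiniteIndex)
    (P : GL (Fin (k + m)) ℤ)
    (A : S.Γ → Matrix (Fin k) (Fin k) ℤ) (B : S.Γ → Matrix (Fin k) (Fin m) ℤ)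
    (hblock : ∀ γ ∈ Γ', (P * S.lin γ * P⁻¹).val =
      Matrix.reindex finSumFinEquiv finSumFinEquiv (Matrix.fromBlocks (A γ) (B γ) 0 1))
    (h : k = 2 ∨ ∃ M₀ : GL (Fin k) ℤ, ∀ γ ∈ Γ', ∃ j : ℤ,
      A γ = (M₀ ^ j).val) :
    ∃ (Φ : S.X ≃ₜ (Fin (k + m) → ℝ)) (t : S.Γ → (Fin (k + m) → ℤ)),
      ∀ (γ : S.Γ) (x : S.X), Φ (γ • x) = (rM (S.lin γ)).mulVec (Φ x) + rV (t γ) := by
  obtain ⟨D', t, hD', heq⟩ := S.exists_integral
  let S' : IntAffPair (k + m) :=
    { X := S.X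
      Γ := S.Γ
      dev := D'
      lin := S.lin
      trans := fun γ => rV (t γ)
      isLocalHomeomorph_dev := hD'
      dev_smul := heq
      free := S.free
      cocompact := S.cocompact }
  have : Subgroup.FiniteIndex (G := S'.Γ) Γ' := hΓ'
  obtain ⟨T, e, f, h1, h2, h3⟩ := S'.exists_restrict Γ'
  have htr : ∀ γ : T.Γ, T.trans γ = rV (t (f γ : S.Γ)) := by
    intro γ
    have x : T.X := Classical.arbitrary T.X
    have h4 := T.dev_smul γ x
    rw [h1, h2, h1, h3] at h4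
    have h5 := S'.dev_smul (f γ : S.Γ) (e x)
    rw [h4] at h5
    exact add_left_cancel h5
  have hc : IsHomeomorph T.dev := by
    refine block_complete T (fun γ => t (f γ : S.Γ)) htr P (fun γ => A (f γ : S.Γ))
      (fun γ => B (f γ : S.Γ)) (fun γ => ?_) ?_
    · rw [h3]
      exact hblock _ (f γ).2
    · rcases h with h | ⟨M₀, h⟩
      · exact Or.inl h
      · exact Or.inr ⟨M₀, fun γ => h _ (f γ).2⟩
  have hD'' : IsHomeomorph D' := by
    have h6 : D' = T.dev ∘ e.symm := by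
      funext x
      rw [Function.comp_apply, h1, e.apply_symm_apply]
    rw [h6]
    exact hc.comp e.symm.isHomeomorph
  exact ⟨hD''.homeomorph, t, heq⟩

end H83T
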