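import Pool.Agent.H.MP_7a8a58_gt.h83c.EfRel
import Pool.Agent.H.MP_7a8a58_gt.h83c.FnMain

/-!
MP_7a8a58_gt, helper83, second part.  Finite coverings by torus bundles.
Paper proof: /team-store/h83_7a8a58_T3.md
-/

set_option autoImplicit false

open Set Metric Topology Filter

namespace H83T

private def EgF (y : Fin (2 + 1) → ℝ) : (Fin 2 → ℝ) × ℝ :=
  (fun i => y (finSumFinEquiv (Sum.inl i)), y (finSumFinEquiv (Sum.inr (0 : Fin 1))))

private def EgG (z : (Fin 2 → ℝ) × ℝ) : Fin (2 + 1) → ℝ :=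
  fun i => Sum.elim z.1 (fun _ : Fin 1 => z.2) (finSumFinEquiv.symm i)

private theorem EgG_apply (z : (Fin 2 → ℝ) × ℝ) (j : Fin 2 ⊕ Fin 1) :
    EgG z (finSumFinEquiv j) = Sum.elim z.1 (fun _ : Fin 1 => z.2) j := by
  unfold EgG
  rw [Equiv.symm_apply_apply]

/-- the coordinates `(first two, last)` -/
private def EgC : (Fin (2 + 1) → ℝ) ≃ₜ ((Fin 2 → ℝ) × ℝ) where
  toFun := EgF
  invFun := EgG
  left_inv y := by
    funext i
    obtain ⟨j, rfl⟩ := finSumFinEquiv.surjective i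
    rw [EgG_apply]
    rcases j with j | j
    · rfl
    · show y (finSumFinEquiv (Sum.inr (0 : Fin 1))) = _
      rw [Subsingleton.elim j 0]
  right_inv z := by
    refine Prod.ext (funext fun i => ?_) ?_
    · show EgG z (finSumFinEquiv (Sum.inl i)) = _
      rw [EgG_apply]
      rfl
    · show EgG z (finSumFinEquiv (Sum.inr (0 : Fin 1))) = _
      rw [EgG_apply]
      rfl
  continuous_toFun := by
    unfold EgF
    exact Continuous.prodMk (continuous_pi fun i => continuous_apply _) (continuous_apply _)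
  continuous_invFun := by
    refine continuous_pi fun i => ?_
    obtain ⟨j, rfl⟩ := finSumFinEquiv.surjective i
    have h : (fun z => EgG z (finSumFinEquiv j)) =
        fun z : (Fin 2 → ℝ) × ℝ => Sum.elim z.1 (fun _ : Fin 1 => z.2) j := by
      funext z
      rw [EgG_apply]
    rw [h]
    rcases j with j | j
    · exact (continuous_apply j).comp continuous_fst
    · exact continuous_snd

private theorem EgC_apply (y : Fin (2 + 1) → ℝ) :
    EgC y = (fun i => y (finSumFinEquiv (Sum.inl i)), y (finSumFinEquiv (Sum.inr (0 : Fin 1)))) := rfl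

/-- a block matrix in the coordinates -/
private theorem EgC_block (N : GL (Fin (2 + 1)) ℤ) (A : GL (Fin 2) ℤ) (B : Matrix (Fin 2) (Fin 1) ℤ)
    (h : N.val = Matrix.reindex finSumFinEquiv finSumFinEquiv (Matrix.fromBlocks A.val B 0 1))
    (y : Fin (2 + 1) → ℝ) (t : Fin (2 + 1) → ℤ) :
    EgC ((rM N).mulVec y + rV t) =
      ((rM A).mulVec (EgC y).1 + (EgC y).2 • rV (fun i => B i 0) +
        rV (fun i => t (finSumFinEquiv (Sum.inl i))),
        (EgC y).2 + ((t (finSumFinEquiv (Sum.inr (0 : Fin 1))) : ℤ) : ℝ)) := by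
  have hN : ∀ a b : Fin 2 ⊕ Fin 1, rM N (finSumFinEquiv a) (finSumFinEquiv b) =
      ((Matrix.fromBlocks A.val B 0 1 a b : ℤ) : ℝ) := by
    intro a b
    unfold rM
    rw [h, Matrix.map_apply, Matrix.reindex_apply, Matrix.submatrix_apply,
      Equiv.symm_apply_apply, Equiv.symm_apply_apply]
  have hs : ∀ a : Fin 2 ⊕ Fin 1, (rM N).mulVec y (finSumFinEquiv a) =
      ∑ b : Fin 2 ⊕ Fin 1, ((Matrix.fromBlocks A.val B 0 1 a b : ℤ) : ℝ) *
        y (finSumFinEquiv b) := by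
    intro a
    have h1 : (rM N).mulVec y (finSumFinEquiv a) =
        ∑ j, rM N (finSumFinEquiv a) j * y j := rfl
    rw [h1, ← Equiv.sum_comp finSumFinEquiv]
    exact Finset.sum_congr rfl fun b _ => by rw [hN]
  rw [EgC_apply, EgC_apply]
  refine Prod.ext (funext fun i => ?_) ?_
  · show (rM N).mulVec y (finSumFinEquiv (Sum.inl i)) + (t (finSumFinEquiv (Sum.inl i)) : ℝ) = _
    rw [hs, Fintype.sum_sum_type]
    show _ = (rM A).mulVec (fun i => y (finSumFinEquiv (Sum.inl i))) i +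
      y (finSumFinEquiv (Sum.inr (0 : Fin 1))) * ((B i 0 : ℤ) : ℝ) + (t (finSumFinEquiv (Sum.inl i)) : ℝ)
    have h2 : (rM A).mulVec (fun i => y (finSumFinEquiv (Sum.inl i))) i =
        ∑ b : Fin 2, ((A.val i b : ℤ) : ℝ) * y (finSumFinEquiv (Sum.inl b)) := rfl
    rw [h2, Fintype.sum_unique (fun b : Fin 1 => _)]
    simp only [Matrix.fromBlocks_apply₁₁, Matrix.fromBlocks_apply₁₂, Fin.default_eq_zero]
    ring
  · show (rM N).mulVec y (finSumFinEquiv (Sum.inr (0 : Fin 1))) + (t (finSumFinEquiv (Sum.inr (0 : Fin 1))) : ℝ) = _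
    rw [hs, Fintype.sum_sum_type, Fintype.sum_unique (fun b : Fin 1 => _)]
    simp [Matrix.fromBlocks_apply₂₁, Matrix.fromBlocks_apply₂₂]

/-- products of block matrices -/
private theorem EgMul {A A' A'' : Matrix (Fin 2) (Fin 2) ℤ} {B B' B'' : Matrix (Fin 2) (Fin 1) ℤ}
    {N N' N'' : GL (Fin (2 + 1)) ℤ}
    (h : N.val = Matrix.reindex finSumFinEquiv finSumFinEquiv (Matrix.fromBlocks A B 0 1))
    (h' : N'.val = Matrix.reindex finSumFinEquiv finSumFinEquiv (Matrix.fromBlocks A' B' 0 1))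
    (h'' : N''.val = Matrix.reindex finSumFinEquiv finSumFinEquiv (Matrix.fromBlocks A'' B'' 0 1))
    (hN : N = N' * N'') : A = A' * A'' := by
  have h1 : Matrix.reindex finSumFinEquiv finSumFinEquiv
      (Matrix.fromBlocks A B (0 : Matrix (Fin 1) (Fin 2) ℤ) (1 : Matrix (Fin 1) (Fin 1) ℤ)) =
      Matrix.reindex finSumFinEquiv finSumFinEquiv
      (Matrix.fromBlocks A' B' (0 : Matrix (Fin 1) (Fin 2) ℤ) (1 : Matrix (Fin 1) (Fin 1) ℤ) *
      Matrix.fromBlocks A'' B'' (0 : Matrix (Fin 1) (Fin 2) ℤ) (1 : Matrix (Fin 1) (Fin 1) ℤ)) := by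
    rw [← h, hN, Units.val_mul, h', h'', Matrix.reindex_apply, Matrix.reindex_apply,
      Matrix.reindex_apply, Matrix.submatrix_mul_equiv]
  have h2 := (Matrix.reindex finSumFinEquiv finSumFinEquiv).injective h1
  rw [Matrix.fromBlocks_multiply] at h2
  have h3 := (Matrix.fromBlocks_inj.1 h2).1
  simpa using h3

private theorem EgOne {A : Matrix (Fin 2) (Fin 2) ℤ} {B : Matrix (Fin 2) (Fin 1) ℤ}
    {N : GL (Fin (2 + 1)) ℤ}
    (h : N.val = Matrix.reindex finSumFinEquiv finSumFinEquiv (Matrix.fromBlocks A B 0 1))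
    (hN : N = 1) : A = 1 := by
  have h1 : Matrix.reindex finSumFinEquiv finSumFinEquiv
      (Matrix.fromBlocks A B (0 : Matrix (Fin 1) (Fin 2) ℤ) (1 : Matrix (Fin 1) (Fin 1) ℤ)) =
      Matrix.reindex finSumFinEquiv finSumFinEquiv
      (Matrix.fromBlocks (1 : Matrix (Fin 2) (Fin 2) ℤ) (0 : Matrix (Fin 2) (Fin 1) ℤ)
        (0 : Matrix (Fin 1) (Fin 2) ℤ) (1 : Matrix (Fin 1) (Fin 1) ℤ)) := by
    rw [← h, hN, Units.val_one, Matrix.fromBlocks_one, Matrix.reindex_apply,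
      Matrix.submatrix_one_equiv]
  have h2 := (Matrix.reindex finSumFinEquiv finSumFinEquiv).injective h1
  exact (Matrix.fromBlocks_inj.1 h2).1

private theorem EgRV {n : ℕ} (P : GL (Fin n) ℤ) (t : Fin n → ℤ) :
    (rM P).mulVec (rV t) = rV (P.val.mulVec t) := by
  funext i
  show ∑ j, ((P.val i j : ℤ) : ℝ) * ((t j : ℤ) : ℝ) = ((∑ j, P.val i j * t j : ℤ) : ℝ)
  push_cast
  rfl

/-- PROOF: `finalT` gives `Φ`, `t`. Coordinates `(Fin (2 + 1) → ℝ) ≃ (Fin 2 → ℝ) × ℝ` after `P`: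
`Ψ x = (first two, last)` of `(rM P).mulVec (Φ x)`. For `G = Γ'`, `act g (Ψ x) = Ψ (g • x)` is an `SlAct` with
`A g`, `B g`, the integral translation `(rM P) (rV (t g))`. `SlAct.torus` gives a subgroup `G'` of `Γ'`, its image
`Γ''` in `Γ` has finite index (`G'.map Γ'.subtype`), and `Θ ∘ Ψ` induces a homeomorphism of the quotients (as at the end
of `IntAffPair.quot_homeo` in h83/FinA.lean). -/
theorem exists_torus_cover (S : IntAffPair (2 + 1)) (Γ' : Subgroup S.Γ) (hΓ' : Γ'.FiniteIndex)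
    (P : GL (Fin (2 + 1)) ℤ)
    (A : S.Γ → Matrix (Fin 2) (Fin 2) ℤ) (B : S.Γ → Matrix (Fin 2) (Fin 1) ℤ)
    (hblock : ∀ γ ∈ Γ', (P * S.lin γ * P⁻¹).val =
      Matrix.reindex finSumFinEquiv finSumFinEquiv (Matrix.fromBlocks (A γ) (B γ) 0 1)) :
    ∃ Γ'' : Subgroup S.Γ, Γ''.FiniteIndex ∧ ∃ M : GL (Fin 2) ℤ,
      Nonempty (S.Quot Γ'' ≃ₜ TorusBundle M) := by
  obtain ⟨Φ, t, hΦ⟩ := finalT 2 1 S Γ' hΓ' P A B hblock (Or.inl rfl)
  -- the linear parts
  let A₀ : Γ' →* Matrix (Fin 2) (Fin 2) ℤ :=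
    { toFun := fun g => A (g : S.Γ)
      map_one' := EgOne (hblock _ (1 : Γ').2) (by simp)
      map_mul' := fun g h => EgMul (hblock _ (g * h).2) (hblock _ g.2) (hblock _ h.2)
        (by rw [Subgroup.coe_mul, map_mul]; group) }
  obtain ⟨A', hA'⟩ : ∃ A' : Γ' →* GL (Fin 2) ℤ, ∀ g, (A' g).val = A (g : S.Γ) :=
    ⟨A₀.toHomUnits, fun g => A₀.coe_toHomUnits g⟩
  -- the coordinates
  obtain ⟨Ψ, hΨ⟩ : ∃ Ψ : S.X ≃ₜ ((Fin 2 → ℝ) × ℝ), ∀ x, Ψ x = EgC ((rM P).mulVec (Φ x)) :=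
    ⟨(Φ.trans (finA_L (2 + 1) P).toContinuousLinearEquiv.toHomeomorph).trans EgC, fun x => rfl⟩
  have hact : ∀ (g : Γ') (x : S.X), Ψ ((g : S.Γ) • x) =
      ((rM (A' g)).mulVec (Ψ x).1 + (Ψ x).2 • rV (fun i => B (g : S.Γ) i 0) +
        rV (fun i => (P.val.mulVec (t (g : S.Γ))) (finSumFinEquiv (Sum.inl i))),
        (Ψ x).2 + (((P.val.mulVec (t (g : S.Γ))) (finSumFinEquiv (Sum.inr (0 : Fin 1))) : ℤ) : ℝ)) := by
    intro g x
    have h1 : (rM P).mulVec (Φ ((g : S.Γ) • x)) =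
        (rM (P * S.lin (g : S.Γ) * P⁻¹)).mulVec ((rM P).mulVec (Φ x)) +
          rV (P.val.mulVec (t (g : S.Γ))) := by
      rw [hΦ, Matrix.mulVec_add, EgRV, Matrix.mulVec_mulVec, Matrix.mulVec_mulVec,
        ← finA_rM_mul, ← finA_rM_mul, inv_mul_cancel_right]
    rw [hΨ, hΨ, h1]
    exact EgC_block _ (A' g) (B (g : S.Γ)) (by rw [hA']; exact hblock _ g.2) _ _
  -- the action
  have hS : SlAct (G := Γ') (fun g z => Ψ ((g : S.Γ) • Ψ.symm z)) A'
      (fun g => fun i => B (g : S.Γ) i 0)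
      (fun g => fun i => (P.val.mulVec (t (g : S.Γ))) (finSumFinEquiv (Sum.inl i)))
      (fun g => (P.val.mulVec (t (g : S.Γ))) (finSumFinEquiv (Sum.inr (0 : Fin 1)))) := by
    refine ⟨?_, ?_, ?_, ?_, ?_⟩
    · intro g v p
      show Ψ ((g : S.Γ) • Ψ.symm (v, p)) = _
      rw [hact, Ψ.apply_symm_apply]
    · intro z
      show Ψ (((1 : Γ') : S.Γ) • Ψ.symm z) = z
      rw [Subgroup.coe_one, one_smul, Ψ.apply_symm_apply]
    · intro g h z
      show Ψ (((g * h : Γ') : S.Γ) • Ψ.symm z) = Ψ ((g : S.Γ) • Ψ.symm (Ψ ((h : S.Γ) • Ψ.symm z)))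
      rw [Ψ.symm_apply_apply, Subgroup.coe_mul, mul_smul]
    · intro g z hz
      have hz' : Ψ ((g : S.Γ) • Ψ.symm z) = z := hz
      have h1 : (g : S.Γ) • Ψ.symm z = Ψ.symm z := by
        apply Ψ.injective
        rw [hz', Ψ.apply_symm_apply]
      exact Subtype.ext (S.free _ _ h1)
    · have := hΓ'
      obtain ⟨T, e, f, -, h2, -⟩ := S.exists_restrict Γ'
      obtain ⟨K, hK, hKx⟩ := T.cocompact
      refine ⟨Ψ '' (e '' K), (hK.image e.continuous).image Ψ.continuous, fun z => ?_⟩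
      obtain ⟨γ, hγ⟩ := hKx (e.symm (Ψ.symm z))
      refine ⟨f γ, ?_⟩
      show Ψ ((f γ : S.Γ) • Ψ.symm z) ∈ Ψ '' (e '' K)
      refine ⟨_, ⟨_, hγ, ?_⟩, rfl⟩
      rw [h2, e.apply_symm_apply]
  obtain ⟨G', M, Θ, hG', hΘ⟩ := hS.torus
  have hfin : (G'.map Γ'.subtype).FiniteIndex := by
    refine ⟨?_⟩
    rw [Subgroup.index_map_subtype]
    exact mul_ne_zero hG'.index_ne_zero hΓ'.index_ne_zero
  refine ⟨G'.map Γ'.subtype, hfin, M, ?_⟩
  refine orbit_homeo_torusBundle M (Ψ.trans Θ) fun x y => ?_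
  rw [Homeomorph.trans_apply, Homeomorph.trans_apply, ← hΘ]
  constructor
  · rintro ⟨γ, rfl⟩
    obtain ⟨g, hg, hgγ⟩ := γ.2
    refine ⟨g, hg, ?_⟩
    show _ = Ψ ((g : S.Γ) • Ψ.symm (Ψ x))
    rw [Ψ.symm_apply_apply, Subgroup.smul_def, ← hgγ]
    rfl
  · rintro ⟨g, hg, hgx⟩
    refine ⟨⟨(g : S.Γ), ⟨g, hg, rfl⟩⟩, ?_⟩
    have h1 : Ψ y = Ψ ((g : S.Γ) • Ψ.symm (Ψ x)) := hgx
    rw [Ψ.symm_apply_apply] at h1
    exact (Ψ.injective h1).symm

end H83T
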