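import Pool.Agent.H.MP_7a8a58_gt.h83.FinA

/-!
MP_7a8a58_gt, helper83, fourth part.  An equivariant family of quadratic forms.
Paper proof: /team-store/h83_7a8a58_T5.md
-/

set_option autoImplicit false

open Set Metric Topology Filter

namespace H83T

/-- A properly discontinuous cocompact action by continuous maps. -/
structure ProperAct {V : Type} [NormedAddCommGroup V] {G : Type} [Group G]
    (act : G → V → V) : Prop where
  cont : ∀ g, Continuous (act g)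
  one : ∀ x, act 1 x = x
  mul : ∀ g h x, act (g * h) x = act g (act h x)
  prop : ∀ C : Set V, IsCompact C → {g | (act g '' C ∩ C).Nonempty}.Finite
  coc : ∃ C : Set V, IsCompact C ∧ ∀ x, ∃ g, act g x ∈ C

/-- The symmetric bilinear form with coefficients `p, q, r`. -/
def qf (p q r : ℝ) (v w : Fin 2 → ℝ) : ℝ :=
  p * (v 0 * w 0) + q * (v 0 * w 1 + v 1 * w 0) + r * (v 1 * w 1)

variable {V : Type} [NormedAddCommGroup V] [NormedSpace ℝ V] [FiniteDimensional ℝ V]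
  {G : Type} [Group G] {act : G → V → V}

private theorem EvA_qf (N : Matrix (Fin 2) (Fin 2) ℝ) (v w : Fin 2 → ℝ) :
    qf (N 0 0 * N 0 0 + N 1 0 * N 1 0) (N 0 0 * N 0 1 + N 1 0 * N 1 1)
      (N 0 1 * N 0 1 + N 1 1 * N 1 1) v w =
      (N.mulVec v) 0 * (N.mulVec w) 0 + (N.mulVec v) 1 * (N.mulVec w) 1 := by
  simp only [qf, Matrix.mulVec, dotProduct, Fin.sum_univ_two]
  ring

private theorem EvA_det (N : Matrix (Fin 2) (Fin 2) ℝ) (hN : N.det ^ 2 = 1) {p q r p' q' r' : ℝ}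
    (h : ∀ v w, qf p' q' r' v w = qf p q r (N.mulVec v) (N.mulVec w)) :
    p' * r' - q' ^ 2 = p * r - q ^ 2 := by
  have e0 := h ![1, 0] ![1, 0]
  have e1 := h ![1, 0] ![0, 1]
  have e2 := h ![0, 1] ![0, 1]
  simp only [qf, Matrix.mulVec, dotProduct, Fin.sum_univ_two, Matrix.cons_val_zero,
    Matrix.cons_val_one, mul_one, mul_zero, add_zero, zero_add] at e0 e1 e2
  rw [Matrix.det_fin_two] at hN
  rw [e0, e1, e2]
  linear_combination (p * r - q ^ 2) * hN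

private theorem EvA_det_sq {n : ℕ} (g : GL (Fin n) ℤ) : (rM g).det ^ 2 = 1 := by
  have h2 : (rM g).det = (((g : Matrix (Fin n) (Fin n) ℤ).det : ℤ) : ℝ) :=
    ((Int.castRingHom ℝ).map_det (g : Matrix (Fin n) (Fin n) ℤ)).symm
  rw [h2]
  have h3 : IsUnit (g : Matrix (Fin n) (Fin n) ℤ).det :=
    (Matrix.isUnit_iff_isUnit_det _).1 g.isUnit
  rcases Int.isUnit_iff.1 h3 with h4 | h4 <;> rw [h4] <;> simp

private theorem EvA_int {g : GL (Fin 2) ℤ} {z : Fin 2 → ℤ} (hz : z ≠ 0) :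
    1 ≤ ‖(rM g).mulVec (rV z)‖ := by
  have h1 : (rM g).mulVec (rV z) = rV ((g : Matrix (Fin 2) (Fin 2) ℤ).mulVec z) := by
    funext i
    simp [rM, rV, Matrix.mulVec, dotProduct, Matrix.map_apply]
  have h2 : (g : Matrix (Fin 2) (Fin 2) ℤ).mulVec z ≠ 0 := by
    intro h
    apply hz
    have h3 : ((g⁻¹ : GL (Fin 2) ℤ) : Matrix (Fin 2) (Fin 2) ℤ).mulVec
        ((g : Matrix (Fin 2) (Fin 2) ℤ).mulVec z) = z := by
      rw [Matrix.mulVec_mulVec, ← Units.val_mul, inv_mul_cancel, Units.val_one, Matrix.one_mulVec]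
    rw [← h3, h, Matrix.mulVec_zero]
  obtain ⟨i, hi⟩ : ∃ i, (g : Matrix (Fin 2) (Fin 2) ℤ).mulVec z i ≠ 0 := by
    by_contra hc
    push Not at hc
    exact h2 (funext hc)
  rw [h1]
  refine le_trans ?_ (norm_le_pi_norm _ i)
  have h4 : (1 : ℤ) ≤ |(g : Matrix (Fin 2) (Fin 2) ℤ).mulVec z i| := Int.one_le_abs hi
  show 1 ≤ ‖(((g : Matrix (Fin 2) (Fin 2) ℤ).mulVec z i : ℤ) : ℝ)‖
  rw [Real.norm_eq_abs, ← Int.cast_abs]
  exact_mod_cast h4

private theorem EvA_norm (u : Fin 2 → ℝ) : ‖u‖ ^ 2 ≤ u 0 * u 0 + u 1 * u 1 := by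
  have h1 : ‖u‖ ≤ Real.sqrt (u 0 * u 0 + u 1 * u 1) := by
    refine (pi_norm_le_iff_of_nonneg (Real.sqrt_nonneg _)).2 fun i => ?_
    rw [Real.norm_eq_abs]
    apply Real.abs_le_sqrt
    fin_cases i
    · show u 0 ^ 2 ≤ _
      nlinarith [mul_self_nonneg (u 1)]
    · show u 1 ^ 2 ≤ _
      nlinarith [mul_self_nonneg (u 0)]
  have h2 : 0 ≤ u 0 * u 0 + u 1 * u 1 := add_nonneg (mul_self_nonneg _) (mul_self_nonneg _)
  calc ‖u‖ ^ 2 ≤ (Real.sqrt (u 0 * u 0 + u 1 * u 1)) ^ 2 :=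
        pow_le_pow_left₀ (norm_nonneg _) h1 2
    _ = _ := Real.sq_sqrt h2

/-- The weights are locally finite. -/
private theorem EvA_lf (S : ProperAct act) (R : ℝ) (x : V) :
    ∃ U ∈ 𝓝 x, ∃ F : Finset G, ∀ y ∈ U, ∀ g, g ∉ F → max 0 (R + 1 - ‖act g⁻¹ y‖) = 0 := by
  classical
  have : ProperSpace V := FiniteDimensional.proper ℝ V
  have hfin := S.prop (closedBall (0 : V) (max (R + 1) (‖x‖ + 1))) (isCompact_closedBall _ _)
  refine ⟨ball x 1, ball_mem_nhds _ one_pos, hfin.toFinset.image fun g => g⁻¹, ?_⟩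
  intro y hy g hg
  apply max_eq_left
  by_contra hc
  push Not at hc
  apply hg
  rw [Finset.mem_image]
  refine ⟨g⁻¹, ?_, inv_inv g⟩
  rw [Set.Finite.mem_toFinset]
  refine ⟨act g⁻¹ y, ⟨y, ?_, rfl⟩, ?_⟩
  · rw [mem_closedBall_zero_iff]
    refine le_trans ?_ (le_max_right _ _)
    rw [mem_ball, dist_eq_norm] at hy
    have h1 : ‖y‖ ≤ ‖x‖ + ‖y - x‖ := by
      have := norm_add_le x (y - x)
      rwa [add_sub_cancel] at this
    linarith
  · rw [mem_closedBall_zero_iff]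
    refine le_trans ?_ (le_max_left _ _)
    linarith

private theorem EvA_sum {R : ℝ} {y : V} {F : Finset G}
    (h : ∀ g, g ∉ F → max 0 (R + 1 - ‖act g⁻¹ y‖) = 0) (c : G → ℝ) :
    ∑ᶠ g, max 0 (R + 1 - ‖act g⁻¹ y‖) * c g = ∑ g ∈ F, max 0 (R + 1 - ‖act g⁻¹ y‖) * c g := by
  refine finsum_eq_sum_of_support_subset _ ?_
  intro g hg
  by_contra hgF
  rw [Function.mem_support] at hg
  apply hg
  rw [h g (by simpa using hgF), zero_mul]

private theorem EvA_cont (S : ProperAct act) (R : ℝ) (c : G → ℝ) :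
    Continuous fun x : V => ∑ᶠ g, max 0 (R + 1 - ‖act g⁻¹ x‖) * c g := by
  rw [continuous_iff_continuousAt]
  intro x
  obtain ⟨U, hU, F, hF⟩ := EvA_lf S R x
  have h1 : Continuous fun x : V => ∑ g ∈ F, max 0 (R + 1 - ‖act g⁻¹ x‖) * c g := by
    refine continuous_finsetSum _ fun g _ => ?_
    exact (continuous_const.max (continuous_const.sub (S.cont g⁻¹).norm)).mul continuous_const
  refine h1.continuousAt.congr ?_
  filter_upwards [hU] with y hy
  exact (EvA_sum (hF y hy) c).symm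

/-- PROOF: `C` from `coc`, `C ⊆ closedBall 0 R`, `φ x = max 0 (R + 1 - ‖x‖)`, `φ ≥ 1` on `C`, compact support (finite
dimension). With `M g = rM (A g⁻¹)` put
`p x = ∑ᶠ g, φ (act g⁻¹ x) * (M g e₀ · M g e₀)`, `q`, `r` similarly (Euclidean inner products), so
`qf (p x) (q x) (r x) v w = ∑ᶠ g, φ (act g⁻¹ x) * (M g v · M g w)`. Locally (on balls) the sums are finite (`prop`), so `p`, `q`,
`r` are continuous. Equivariance: substitute `g = h * k`. For every `x` there is `g` with `act g⁻¹ x ∈ C`, so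
`qf … v v ≥ |M g v|² ≥ ‖M g v‖ ^ 2`, and for integral `z ≠ 0` this is `≥ 1`. `p r - q ^ 2` is invariant under `G`
(`det (A h) = ± 1`), continuous, so bounded (by its maximum on `C`). -/
theorem exists_forms (S : ProperAct act) (A : G →* GL (Fin 2) ℤ) :
    ∃ (p q r : V → ℝ) (C₁ : ℝ) (C : Set V), Continuous p ∧ Continuous q ∧ Continuous r ∧
      IsCompact C ∧ (∀ x, p x * r x - q x ^ 2 ≤ C₁) ∧
      (∀ x, ∀ z : Fin 2 → ℤ, z ≠ 0 → 1 ≤ qf (p x) (q x) (r x) (rV z) (rV z)) ∧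
      (∀ h x v w, qf (p (act h x)) (q (act h x)) (r (act h x)) v w =
        qf (p x) (q x) (r x) ((rM (A h⁻¹)).mulVec v) ((rM (A h⁻¹)).mulVec w)) ∧
      (∀ x, ∃ g, act g⁻¹ x ∈ C ∧ ∀ v : Fin 2 → ℝ,
        ‖(rM (A g⁻¹)).mulVec v‖ ^ 2 ≤ qf (p x) (q x) (r x) v v) := by
  classical
  obtain ⟨C, hC, hcov⟩ := S.coc
  obtain ⟨R, hR⟩ := hC.isBounded.exists_norm_le
  set wt : G → V → ℝ := fun g x => max 0 (R + 1 - ‖act g⁻¹ x‖) with hwt
  set N : G → Matrix (Fin 2) (Fin 2) ℝ := fun g => rM (A g⁻¹) with hN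
  set p : V → ℝ := fun x => ∑ᶠ g, wt g x * (N g 0 0 * N g 0 0 + N g 1 0 * N g 1 0) with hp
  set q : V → ℝ := fun x => ∑ᶠ g, wt g x * (N g 0 0 * N g 0 1 + N g 1 0 * N g 1 1) with hq
  set r : V → ℝ := fun x => ∑ᶠ g, wt g x * (N g 0 1 * N g 0 1 + N g 1 1 * N g 1 1) with hr
  have hpc : Continuous p := EvA_cont S R _
  have hqc : Continuous q := EvA_cont S R _
  have hrc : Continuous r := EvA_cont S R _
  -- the form as a finite sum
  have hF : ∀ x : V, ∃ F : Finset G, ∀ g, g ∉ F → wt g x = 0 := by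
    intro x
    obtain ⟨U, hU, F, hF⟩ := EvA_lf S R x
    exact ⟨F, hF x (mem_of_mem_nhds hU)⟩
  have hsum : ∀ (x : V) (F : Finset G), (∀ g, g ∉ F → wt g x = 0) → ∀ v w : Fin 2 → ℝ,
      qf (p x) (q x) (r x) v w = ∑ g ∈ F, wt g x *
        (((N g).mulVec v) 0 * ((N g).mulVec w) 0 + ((N g).mulVec v) 1 * ((N g).mulVec w) 1) := by
    intro x F hF v w
    have e1 : p x = ∑ g ∈ F, wt g x * (N g 0 0 * N g 0 0 + N g 1 0 * N g 1 0) :=
      EvA_sum hF _
    have e2 : q x = ∑ g ∈ F, wt g x * (N g 0 0 * N g 0 1 + N g 1 0 * N g 1 1) :=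
      EvA_sum hF _
    have e3 : r x = ∑ g ∈ F, wt g x * (N g 0 1 * N g 0 1 + N g 1 1 * N g 1 1) :=
      EvA_sum hF _
    rw [e1, e2, e3, qf, Finset.sum_mul, Finset.sum_mul, Finset.sum_mul, ← Finset.sum_add_distrib,
      ← Finset.sum_add_distrib]
    refine Finset.sum_congr rfl fun g _ => ?_
    rw [← EvA_qf, qf]
    ring
  have hfs : ∀ (x : V) (v w : Fin 2 → ℝ),
      qf (p x) (q x) (r x) v w = ∑ᶠ g, wt g x *
        (((N g).mulVec v) 0 * ((N g).mulVec w) 0 + ((N g).mulVec v) 1 * ((N g).mulVec w) 1) := by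
    intro x v w
    obtain ⟨F, hFx⟩ := hF x
    rw [hsum x F hFx]
    exact (EvA_sum hFx _).symm
  have hw0 : ∀ g x, 0 ≤ wt g x := fun g x => le_max_left _ _
  -- equivariance
  have heqv : ∀ h x v w, qf (p (act h x)) (q (act h x)) (r (act h x)) v w =
      qf (p x) (q x) (r x) ((rM (A h⁻¹)).mulVec v) ((rM (A h⁻¹)).mulVec w) := by
    intro h x v w
    rw [hfs, hfs, ← finsum_comp_equiv (Equiv.mulLeft h)]
    refine finsum_congr fun g => ?_
    have h1 : wt (h * g) (act h x) = wt g x := by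
      simp only [hwt]
      rw [mul_inv_rev, S.mul, ← S.mul h⁻¹ h, inv_mul_cancel, S.one]
    have h2 : N (h * g) = N g * rM (A h⁻¹) := by
      simp only [hN]
      rw [mul_inv_rev, map_mul, finA_rM_mul]
    rw [Equiv.coe_mulLeft, h1, h2, Matrix.mulVec_mulVec, Matrix.mulVec_mulVec]
  -- the lower bound
  have hlow : ∀ x g, act g⁻¹ x ∈ C → ∀ v : Fin 2 → ℝ,
      ‖(rM (A g⁻¹)).mulVec v‖ ^ 2 ≤ qf (p x) (q x) (r x) v v := by
    intro x g hg v
    obtain ⟨F, hFx⟩ := hF x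
    have h1 : 1 ≤ wt g x := by
      refine le_trans ?_ (le_max_right _ _)
      have := hR _ hg
      linarith
    have hgF : g ∈ F := by
      by_contra hc
      have := hFx g hc
      linarith
    rw [hsum x F hFx]
    have hnn : ∀ k ∈ F, 0 ≤ wt k x * (((N k).mulVec v) 0 * ((N k).mulVec v) 0 +
        ((N k).mulVec v) 1 * ((N k).mulVec v) 1) := by
      intro k _
      exact mul_nonneg (hw0 k x) (add_nonneg (mul_self_nonneg _) (mul_self_nonneg _))
    refine le_trans ?_ (Finset.single_le_sum hnn hgF)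
    have h2 := EvA_norm ((N g).mulVec v)
    have h3 : 0 ≤ ((N g).mulVec v) 0 * ((N g).mulVec v) 0 +
        ((N g).mulVec v) 1 * ((N g).mulVec v) 1 :=
      add_nonneg (mul_self_nonneg _) (mul_self_nonneg _)
    calc ‖(rM (A g⁻¹)).mulVec v‖ ^ 2 ≤ ((N g).mulVec v) 0 * ((N g).mulVec v) 0 +
        ((N g).mulVec v) 1 * ((N g).mulVec v) 1 := h2
      _ ≤ _ := le_mul_of_one_le_left h3 h1
  have hcov' : ∀ x, ∃ g, act g⁻¹ x ∈ C := by
    intro x
    obtain ⟨g, hg⟩ := hcov x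
    refine ⟨g⁻¹, ?_⟩
    rwa [inv_inv]
  have hcontD : Continuous fun x => p x * r x - q x ^ 2 := (hpc.mul hrc).sub (hqc.pow 2)
  obtain ⟨C₁, hC₁⟩ := hC.exists_bound_of_continuousOn hcontD.continuousOn
  refine ⟨p, q, r, C₁, C, hpc, hqc, hrc, hC, ?_, ?_, heqv, ?_⟩
  · intro x
    obtain ⟨g, hg⟩ := hcov x
    have h1 := hC₁ _ hg
    have h2 : p (act g x) * r (act g x) - q (act g x) ^ 2 = p x * r x - q x ^ 2 :=
      EvA_det (rM (A g⁻¹)) (EvA_det_sq _) (heqv g x)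
    rw [h2, Real.norm_eq_abs] at h1
    exact (le_abs_self _).trans h1
  · intro x z hz
    obtain ⟨g, hg⟩ := hcov' x
    refine le_trans ?_ (hlow x g hg (rV z))
    exact one_le_pow₀ (EvA_int hz)
  · intro x
    obtain ⟨g, hg⟩ := hcov' x
    exact ⟨g, hg, hlow x g hg⟩

end H83T
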