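import Pool.Agent.H.MP_7a8a58_gt.h83c.EvA

/-!
MP_7a8a58_gt, helper83, fourth part.  Signs along the powers of a hyperbolic matrix.
Paper proof: /team-store/h83_7a8a58_T5.md
-/

set_option autoImplicit false

open Set Metric Topology Filter

namespace H83T

private theorem EvB_rM_mul {n : ℕ} (A B : GL (Fin n) ℤ) : rM (A * B) = rM A * rM B := by
  unfold rM
  rw [Units.val_mul]
  exact Matrix.map_mul (f := Int.castRingHom ℝ)

private theorem EvB_rM_one {n : ℕ} : rM (1 : GL (Fin n) ℤ) = 1 := by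
  unfold rM
  rw [Units.val_one]
  exact Matrix.map_one _ Int.cast_zero Int.cast_one

private theorem EvB_pow {M : GL (Fin 2) ℤ} {e : Fin 2 → ℝ} {l : ℝ}
    (h : (rM M).mulVec e = l • e) (n : ℕ) : (rM (M ^ n)).mulVec e = l ^ n • e := by
  induction n with
  | zero => rw [pow_zero, EvB_rM_one, Matrix.one_mulVec, pow_zero, one_smul]
  | succ n ih =>
    rw [pow_succ, EvB_rM_mul, ← Matrix.mulVec_mulVec, h, Matrix.mulVec_smul, ih, smul_smul]
    congr 1
    ring

private theorem EvB_inv {M : GL (Fin 2) ℤ} {e : Fin 2 → ℝ} {l : ℝ} (hl : l ≠ 0)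
    (h : (rM M).mulVec e = l • e) : (rM M⁻¹).mulVec e = l⁻¹ • e := by
  have h1 : (rM M⁻¹).mulVec ((rM M).mulVec e) = e := by
    rw [Matrix.mulVec_mulVec, ← EvB_rM_mul, inv_mul_cancel, EvB_rM_one, Matrix.one_mulVec]
  rw [h, Matrix.mulVec_smul] at h1
  rw [← h1, smul_smul, h1, inv_mul_cancel₀ hl, one_smul]

private theorem EvB_sign {M : GL (Fin 2) ℤ} {e f a b : Fin 2 → ℝ} {l m : ℝ} {x y x' y' s : ℝ}
    (he : (rM M).mulVec e = l • e) (hf : (rM M).mulVec f = m • f) (hl : 1 < |l|)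
    (hlm : |l * m| = 1) (ha : a = x • e + x' • f) (hb : b = y • e + y' • f) (he0 : e ≠ 0)
    (_ : |s| = 1) (hxy : 0 < s * (x * y)) (p q r : ℝ)
    (hp : ∀ v : Fin 2 → ℝ, v ≠ 0 → 0 < qf p q r v v) : ∃ N : ℕ, ∀ n : ℕ, N ≤ n →
      0 < s * qf p q r ((rM (M ^ n)).mulVec a) ((rM (M ^ n)).mulVec b) := by
  have h1 : Tendsto (fun n : ℕ => (l ^ 2) ^ n) atTop atTop := by
    refine tendsto_pow_atTop_atTop_of_one_lt ?_
    rw [← sq_abs]
    exact one_lt_pow₀ hl two_ne_zero
  set K : ℝ := |s * (x * y' + x' * y) * qf p q r e f| + |s * (x' * y') * qf p q r f f| with hK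
  have hc : 0 < s * (x * y) * qf p q r e e := mul_pos hxy (hp e he0)
  obtain ⟨N, hN⟩ := eventually_atTop.1
    (h1.eventually (eventually_gt_atTop (K / (s * (x * y) * qf p q r e e))))
  refine ⟨N, fun n hn => ?_⟩
  have h2 := hN n hn
  rw [div_lt_iff₀ hc] at h2
  have ea : (rM (M ^ n)).mulVec a = (x * l ^ n) • e + (x' * m ^ n) • f := by
    rw [ha, Matrix.mulVec_add, Matrix.mulVec_smul, Matrix.mulVec_smul, EvB_pow he, EvB_pow hf,
      smul_smul, smul_smul]
  have eb : (rM (M ^ n)).mulVec b = (y * l ^ n) • e + (y' * m ^ n) • f := by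
    rw [hb, Matrix.mulVec_add, Matrix.mulVec_smul, Matrix.mulVec_smul, EvB_pow he, EvB_pow hf,
      smul_smul, smul_smul]
  have e1 : s * qf p q r ((rM (M ^ n)).mulVec a) ((rM (M ^ n)).mulVec b) =
      (l ^ 2) ^ n * (s * (x * y) * qf p q r e e) +
        (l * m) ^ n * (s * (x * y' + x' * y) * qf p q r e f) +
        (m ^ 2) ^ n * (s * (x' * y') * qf p q r f f) := by
    rw [ea, eb]
    simp only [qf, Pi.add_apply, Pi.smul_apply, smul_eq_mul]
    rw [mul_pow, ← pow_mul, ← pow_mul, mul_comm 2 n, pow_mul, pow_mul]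
    ring
  have e2 : -|s * (x * y' + x' * y) * qf p q r e f| ≤
      (l * m) ^ n * (s * (x * y' + x' * y) * qf p q r e f) := by
    have h3 : |(l * m) ^ n * (s * (x * y' + x' * y) * qf p q r e f)| =
        |s * (x * y' + x' * y) * qf p q r e f| := by
      rw [abs_mul, abs_pow, hlm, one_pow, one_mul]
    have h4 := neg_abs_le ((l * m) ^ n * (s * (x * y' + x' * y) * qf p q r e f))
    rwa [h3] at h4
  have hm : m ^ 2 ≤ 1 := by
    rw [abs_mul] at hlm
    have h5 : |m| ≤ 1 := by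
      by_contra hcon
      rw [not_le] at hcon
      have := mul_lt_mul'' hl hcon zero_le_one zero_le_one
      rw [one_mul, hlm] at this
      exact lt_irrefl _ this
    rw [← sq_abs]
    exact pow_le_one₀ (abs_nonneg _) h5
  have e3 : -|s * (x' * y') * qf p q r f f| ≤ (m ^ 2) ^ n * (s * (x' * y') * qf p q r f f) := by
    have h3 : |(m ^ 2) ^ n * (s * (x' * y') * qf p q r f f)| ≤ |s * (x' * y') * qf p q r f f| := by
      rw [abs_mul, abs_of_nonneg (pow_nonneg (sq_nonneg m) n)]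
      exact mul_le_of_le_one_left (abs_nonneg _) (pow_le_one₀ (sq_nonneg m) hm)
    exact (neg_le_neg h3).trans (neg_abs_le _)
  rw [e1]
  linarith

private theorem EvB_units {A D : ℤ} (h : A * D = 1 ∨ A * D = -1) : |A + D| ≤ 2 := by
  have h1 : A = 1 ∨ A = -1 := by
    refine Int.isUnit_iff.1 ?_
    rcases h with h | h
    · exact IsUnit.of_mul_eq_one D h
    · exact IsUnit.of_mul_eq_one (-D) (by rw [mul_neg, h, neg_neg])
  have h2 : D = 1 ∨ D = -1 := by
    rcases h1 with h1 | h1 <;> rw [h1] at h <;> omega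
  rcases h1 with h1 | h1 <;> rcases h2 with h2 | h2 <;> rw [h1, h2] <;> decide

/-- the eigenvalues -/
private theorem EvB_roots {t d : ℝ} (ht : 2 < |t|) (hd : d = 1 ∨ d = -1) (h4 : 0 < t ^ 2 - 4 * d) :
    ∃ l m : ℝ, l + m = t ∧ l * m = d ∧ 1 < |l| := by
  obtain ⟨w, hw⟩ : ∃ w : ℝ, w = √(t ^ 2 - 4 * d) := ⟨_, rfl⟩
  have hw2 : w ^ 2 = t ^ 2 - 4 * d := by rw [hw, Real.sq_sqrt h4.le]
  have hs : (t + w) / 2 + (t - w) / 2 = t := by ring
  have hp : (t + w) / 2 * ((t - w) / 2) = d := by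
    have : (t + w) / 2 * ((t - w) / 2) = (t ^ 2 - w ^ 2) / 4 := by ring
    rw [this, hw2]
    ring
  have hd1 : |d| = 1 := by
    rcases hd with h | h <;> rw [h] <;> simp
  by_cases hc : 1 < |(t + w) / 2|
  · exact ⟨_, _, hs, hp, hc⟩
  · refine ⟨(t - w) / 2, (t + w) / 2, by rw [add_comm]; exact hs, by rw [mul_comm]; exact hp, ?_⟩
    by_contra hc2
    rw [not_lt] at hc hc2
    have h5 := abs_add_le ((t + w) / 2) ((t - w) / 2)
    rw [hs] at h5
    linarith

private theorem EvB_btwn {σ σ' : ℝ} (h : σ ≠ σ') : ∃ n k s : ℤ, 0 < n ∧ (s = 1 ∨ s = -1) ∧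
    (s : ℝ) * (k - σ * n) < 0 ∧ 0 < (s : ℝ) * (k - σ' * n) := by
  rcases lt_or_gt_of_ne h with h | h
  · obtain ⟨q, hq1, hq2⟩ := exists_rat_btwn h
    have hn : (0 : ℝ) < q.den := by exact_mod_cast q.den_pos
    rw [Rat.cast_def] at hq1 hq2
    rw [lt_div_iff₀ hn] at hq1
    rw [div_lt_iff₀ hn] at hq2
    refine ⟨q.den, q.num, -1, by exact_mod_cast q.den_pos, Or.inr rfl, ?_, ?_⟩
    · push_cast
      linarith
    · push_cast
      linarith
  · obtain ⟨q, hq1, hq2⟩ := exists_rat_btwn h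
    have hn : (0 : ℝ) < q.den := by exact_mod_cast q.den_pos
    rw [Rat.cast_def] at hq1 hq2
    rw [lt_div_iff₀ hn] at hq1
    rw [div_lt_iff₀ hn] at hq2
    refine ⟨q.den, q.num, 1, by exact_mod_cast q.den_pos, Or.inl rfl, ?_, ?_⟩
    · push_cast
      linarith
    · push_cast
      linarith

/-- PROOF: `M` has real eigenvalues `λ`, `μ`, `|λ| > 1 > |μ|`, `λ μ = det M = ± 1` (the discriminant `tr ^ 2 - 4 det` is
positive), with eigenvectors `e`, `f` (a basis of `ℝ²`). Choose integral vectors `a`, `b` with `a = α e + α' f`,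
`b = β e + β' f`, `α β < 0`, `α' β' > 0` (rounding of large multiples of `e + f` and `f - e`); they are independent. Then
`qf (M ^ n a) (M ^ n b) = λ ^ (2 n) α β qf e e + (λ μ) ^ n (…) + μ ^ (2 n) (…)` is negative for large `n`, and
`qf (M ^ (-n) a) (M ^ (-n) b) = μ ^ (-2 n) α' β' qf f f + …` is positive for large `n`. -/
theorem exists_signs (M : GL (Fin 2) ℤ) (hM : 2 < |M.val.trace|) :
    ∃ a b : Fin 2 → ℤ, a 0 * b 1 - a 1 * b 0 ≠ 0 ∧ ∀ p q r : ℝ,
      (∀ v : Fin 2 → ℝ, v ≠ 0 → 0 < qf p q r v v) → ∃ N : ℕ, ∀ n : ℕ, N ≤ n →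
        0 < qf p q r ((rM (M⁻¹ ^ n)).mulVec (rV a)) ((rM (M⁻¹ ^ n)).mulVec (rV b)) ∧
        qf p q r ((rM (M ^ n)).mulVec (rV a)) ((rM (M ^ n)).mulVec (rV b)) < 0 := by
  -- entries
  obtain ⟨A, hA⟩ : ∃ A : ℤ, A = M.val 0 0 := ⟨_, rfl⟩
  obtain ⟨B, hB⟩ : ∃ B : ℤ, B = M.val 0 1 := ⟨_, rfl⟩
  obtain ⟨C, hC⟩ : ∃ C : ℤ, C = M.val 1 0 := ⟨_, rfl⟩
  obtain ⟨D, hD⟩ : ∃ D : ℤ, D = M.val 1 1 := ⟨_, rfl⟩
  have htr : 2 < |A + D| := by
    rw [Matrix.trace_fin_two, ← hA, ← hD] at hM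
    exact hM
  have hdet : A * D - B * C = 1 ∨ A * D - B * C = -1 := by
    have h1 : IsUnit M.val.det := (Matrix.isUnit_iff_isUnit_det _).1 M.isUnit
    rw [Matrix.det_fin_two, ← hA, ← hB, ← hC, ← hD] at h1
    exact Int.isUnit_iff.1 h1
  have hB0 : B ≠ 0 := by
    intro h0
    rw [h0, zero_mul, sub_zero] at hdet
    have h1 := EvB_units hdet
    omega
  have hB' : (B : ℝ) ≠ 0 := Int.cast_ne_zero.2 hB0
  -- eigenvalues
  have htr' : (2 : ℝ) < |(A : ℝ) + D| := by exact_mod_cast htr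
  have hdet' : (A : ℝ) * D - B * C = 1 ∨ (A : ℝ) * D - B * C = -1 := by exact_mod_cast hdet
  have hdis : 0 < ((A : ℝ) + D) ^ 2 - 4 * ((A : ℝ) * D - B * C) := by
    have h1 : (2 : ℝ) ^ 2 < ((A : ℝ) + D) ^ 2 := by
      rw [← sq_abs ((A : ℝ) + D)]
      exact pow_lt_pow_left₀ htr' (by norm_num) two_ne_zero
    rcases hdet' with h | h <;> rw [h] <;> linarith
  obtain ⟨l, m, hlm, hlm2, hl⟩ := EvB_roots htr' hdet' hdis
  have hlm1 : |l * m| = 1 := by
    rw [hlm2]
    rcases hdet' with h | h <;> rw [h] <;> simp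
  have hl0 : l ≠ 0 := by
    rintro rfl
    rw [zero_mul, abs_zero] at hlm1
    exact zero_ne_one hlm1
  have hm0 : m ≠ 0 := by
    rintro rfl
    rw [mul_zero, abs_zero] at hlm1
    exact zero_ne_one hlm1
  have hm : |m| < 1 := by
    rw [abs_mul] at hlm1
    by_contra hcon
    rw [not_lt] at hcon
    nlinarith [abs_nonneg l, abs_nonneg m]
  have hne : l - m ≠ 0 := by
    intro h0
    have : l = m := by linarith
    rw [this] at hl
    linarith
  have hM0 : rM M 0 0 = A ∧ rM M 0 1 = B ∧ rM M 1 0 = C ∧ rM M 1 1 = D := by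
    rw [hA, hB, hC, hD]
    exact ⟨rfl, rfl, rfl, rfl⟩
  have heig : ∀ z w : ℝ, z + w = A + D → z * w = (A : ℝ) * D - B * C →
      (rM M).mulVec ![(B : ℝ), z - A] = z • ![(B : ℝ), z - A] := by
    intro z w h1 h2
    funext i
    have hw : w = A + D - z := by linarith
    rw [hw] at h2
    fin_cases i
    · simp [Matrix.mulVec, dotProduct, Fin.sum_univ_two, hM0]
      ring
    · simp [Matrix.mulVec, dotProduct, Fin.sum_univ_two, hM0]
      linarith
  have he := heig l m hlm hlm2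
  have hf := heig m l (by rw [add_comm]; exact hlm) (by rw [mul_comm]; exact hlm2)
  have he0 : ![(B : ℝ), l - A] ≠ 0 := fun h0 => hB' (by simpa using congrFun h0 0)
  have hf0 : ![(B : ℝ), m - A] ≠ 0 := fun h0 => hB' (by simpa using congrFun h0 0)
  have hσ : (m - A) / B ≠ (l - A) / B := by
    intro h0
    rw [div_left_inj' hB'] at h0
    exact hne (by linarith)
  obtain ⟨n, k, s, hn, hs, hs1, hs2⟩ := EvB_btwn hσ
  have hsq : 0 < (l - m) ^ 2 := by positivity
  have hra : rV ![n, k] = ((k - (m - A) / B * n) / (l - m)) • ![(B : ℝ), l - A] +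
      (((l - A) / B * n - k) / (l - m)) • ![(B : ℝ), m - A] := by
    funext i
    fin_cases i
    · simp [rV]
      field_simp
      ring
    · simp [rV]
      field_simp
      ring
  have hrb : rV ![0, s] = ((s : ℝ) / (l - m)) • ![(B : ℝ), l - A] +
      (-(s : ℝ) / (l - m)) • ![(B : ℝ), m - A] := by
    funext i
    fin_cases i
    · simp [rV]
      field_simp
      ring
    · simp [rV]
      field_simp
      ring
  refine ⟨![n, k], ![0, s], ?_, ?_⟩
  · have hs0 : s ≠ 0 := by rcases hs with h | h <;> rw [h] <;> decide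
    simpa using ⟨hn.ne', hs0⟩
  · intro p q r hp
    obtain ⟨N1, hN1⟩ := EvB_sign (s := -1) he hf hl hlm1 hra hrb he0 (by simp) (by
      have h1 : -1 * ((k - (m - A) / B * n) / (l - m) * ((s : ℝ) / (l - m))) =
          -((s : ℝ) * (k - (m - A) / B * n)) / (l - m) ^ 2 := by
        field_simp
      rw [h1]
      exact div_pos (by linarith) hsq) p q r hp
    obtain ⟨N2, hN2⟩ := EvB_sign (s := 1) (EvB_inv hm0 hf) (EvB_inv hl0 he) (by
        rw [abs_inv]
        exact (one_lt_inv₀ (abs_pos.2 hm0)).2 hm) (by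
        rw [← mul_inv, abs_inv, mul_comm, hlm1, inv_one]) (hra.trans (add_comm _ _))
      (hrb.trans (add_comm _ _)) hf0 (by simp) (by
      have h1 : 1 * (((l - A) / B * n - k) / (l - m) * (-(s : ℝ) / (l - m))) =
          ((s : ℝ) * (k - (l - A) / B * n)) / (l - m) ^ 2 := by
        field_simp
        ring
      rw [h1]
      exact div_pos hs2 hsq) p q r hp
    refine ⟨max N1 N2, fun j hj => ⟨?_, ?_⟩⟩
    · have h1 := hN2 j (le_trans (le_max_right _ _) hj)
      rwa [one_mul] at h1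
    · have h1 := hN1 j (le_trans (le_max_left _ _) hj)
      linarith

end H83T
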