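import Pool.Agent.H.MP_7a8a58_gt.h83c.EvB

/-!
MP_7a8a58_gt, helper83, fourth part.  No hyperbolic elements if the kernel is finite.
Paper proof: /team-store/h83_7a8a58_T5.md
-/

set_option autoImplicit false

open Set Metric Topology Filter

namespace H83T

variable {V : Type} [NormedAddCommGroup V] [NormedSpace ℝ V] [FiniteDimensional ℝ V]
  {G : Type} [Group G] {act : G → V → V}

private theorem EvC_conn {V : Type*} [NormedAddCommGroup V] [NormedSpace ℝ V]
    (hr : 1 < Module.rank ℝ V) (r : ℝ) (hr0 : 0 ≤ r) : IsConnected ((closedBall (0 : V) r)ᶜ) := by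
  have h1 := isConnected_compl_singleton_of_one_lt_rank hr (0 : V)
  have h2 : (closedBall (0 : V) r)ᶜ = (fun v : V => (r / ‖v‖ + 1) • v) '' {(0 : V)}ᶜ := by
    ext x
    constructor
    · intro hx
      have hx' : r < ‖x‖ := by simpa using hx
      have hx0 : 0 < ‖x‖ := lt_of_le_of_lt hr0 hx'
      have hx1 : 0 < (‖x‖ - r) / ‖x‖ := div_pos (sub_pos.2 hx') hx0
      refine ⟨((‖x‖ - r) / ‖x‖) • x, ?_, ?_⟩
      · simp only [mem_compl_iff, mem_singleton_iff, smul_eq_zero, not_or]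
        exact ⟨hx1.ne', norm_pos_iff.1 hx0⟩
      · have hn : ‖((‖x‖ - r) / ‖x‖) • x‖ = ‖x‖ - r := by
          rw [norm_smul, Real.norm_of_nonneg hx1.le, div_mul_cancel₀ _ hx0.ne']
        have hne : ‖x‖ - r ≠ 0 := (sub_pos.2 hx').ne'
        simp only [hn, smul_smul]
        have : (r / (‖x‖ - r) + 1) * ((‖x‖ - r) / ‖x‖) = 1 := by
          field_simp
          ring
        rw [this, one_smul]
    · rintro ⟨v, hv, rfl⟩
      have hv0 : 0 < ‖v‖ := norm_pos_iff.2 hv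
      have hc : 0 ≤ r / ‖v‖ + 1 := by positivity
      simp only [mem_compl_iff, mem_closedBall, dist_zero_right, not_le, norm_smul,
        Real.norm_of_nonneg hc]
      have : (r / ‖v‖ + 1) * ‖v‖ = r + ‖v‖ := by
        field_simp
      rw [this]
      linarith
  rw [h2]
  refine h1.image _ ?_
  intro v hv
  have hv0 : ‖v‖ ≠ 0 := norm_ne_zero_iff.2 hv
  apply ContinuousAt.continuousWithinAt
  have : ContinuousAt (fun v : V => r / ‖v‖ + 1) v :=
    (continuousAt_const.div continuous_norm.continuousAt hv0).add continuousAt_const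
  exact this.smul continuousAt_id

private theorem EvC_rv (M : GL (Fin 2) ℤ) (z : Fin 2 → ℤ) :
    (rM M).mulVec (rV z) = rV ((M : Matrix (Fin 2) (Fin 2) ℤ).mulVec z) := by
  funext i
  simp only [rM, rV, Matrix.mulVec, dotProduct, Matrix.map_apply]
  push_cast
  rfl

private theorem EvC_fin (R : ℝ) : {z : Fin 2 → ℤ | ‖rV z‖ ^ 2 ≤ R}.Finite := by
  have h0 : (Set.Icc (fun _ : Fin 2 => -⌈R + 1⌉) (fun _ : Fin 2 => ⌈R + 1⌉)).Finite :=
    Set.finite_Icc _ _
  refine h0.subset ?_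
  intro z hz
  have hz' : ‖rV z‖ ^ 2 ≤ R := hz
  have h1 : ‖rV z‖ ≤ R + 1 := by
    nlinarith [sq_nonneg (‖rV z‖ - 1), norm_nonneg (rV z)]
  have h2 : ∀ i, |(z i : ℝ)| ≤ R + 1 := fun i => (norm_le_pi_norm (rV z) i).trans h1
  constructor
  · intro i
    have h3 := (abs_le.1 (h2 i)).1
    have h4 := Int.le_ceil (R + 1)
    have h5 : (-⌈R + 1⌉ : ℝ) ≤ z i := by linarith
    show -⌈R + 1⌉ ≤ z i
    exact_mod_cast h5
  · intro i
    have h3 := (abs_le.1 (h2 i)).2
    have h4 := Int.le_ceil (R + 1)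
    have h5 : (z i : ℝ) ≤ (⌈R + 1⌉ : ℝ) := h3.trans h4
    show z i ≤ ⌈R + 1⌉
    exact_mod_cast h5

private theorem EvC_mat {a b : Fin 2 → ℤ} (hab : a 0 * b 1 - a 1 * b 0 ≠ 0) (R : ℝ) :
    {M : GL (Fin 2) ℤ | ‖(rM M).mulVec (rV a)‖ ^ 2 ≤ R ∧
      ‖(rM M).mulVec (rV b)‖ ^ 2 ≤ R}.Finite := by
  have h1 := (EvC_fin R).prod (EvC_fin R)
  refine (h1.preimage (f := fun M : GL (Fin 2) ℤ =>
    ((M : Matrix (Fin 2) (Fin 2) ℤ).mulVec a, (M : Matrix (Fin 2) (Fin 2) ℤ).mulVec b)) ?_).subset ?_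
  · intro M _ M' _ hM
    have h2 : (M : Matrix (Fin 2) (Fin 2) ℤ).mulVec a = (M' : Matrix (Fin 2) (Fin 2) ℤ).mulVec a :=
      congrArg Prod.fst hM
    have h3 : (M : Matrix (Fin 2) (Fin 2) ℤ).mulVec b = (M' : Matrix (Fin 2) (Fin 2) ℤ).mulVec b :=
      congrArg Prod.snd hM
    apply Units.ext
    ext i j
    have h4 := congrFun h2 i
    have h5 := congrFun h3 i
    simp only [Matrix.mulVec, dotProduct, Fin.sum_univ_two] at h4 h5
    have h6 : ((M : Matrix (Fin 2) (Fin 2) ℤ) i 0 - (M' : Matrix (Fin 2) (Fin 2) ℤ) i 0) *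
        (a 0 * b 1 - a 1 * b 0) = 0 := by linear_combination b 1 * h4 - a 1 * h5
    have h7 : ((M : Matrix (Fin 2) (Fin 2) ℤ) i 1 - (M' : Matrix (Fin 2) (Fin 2) ℤ) i 1) *
        (a 0 * b 1 - a 1 * b 0) = 0 := by linear_combination a 0 * h5 - b 0 * h4
    have h8 := sub_eq_zero.1 ((mul_eq_zero.1 h6).resolve_right hab)
    have h9 := sub_eq_zero.1 ((mul_eq_zero.1 h7).resolve_right hab)
    fin_cases j
    · exact h8
    · exact h9
  · rintro M ⟨h2, h3⟩
    rw [EvC_rv] at h2 h3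
    exact ⟨h2, h3⟩

private theorem EvC_fib (A : G →* GL (Fin 2) ℤ) (hker : {g : G | A g = 1}.Finite)
    {T : Set (GL (Fin 2) ℤ)} (hT : T.Finite) : {g : G | A g⁻¹ ∈ T}.Finite := by
  have h1 : {g : G | A g⁻¹ ∈ T} = ⋃ M ∈ T, {g : G | A g⁻¹ = M} := by
    ext g
    simp
  rw [h1]
  refine hT.biUnion fun M _ => ?_
  rcases Set.eq_empty_or_nonempty {g : G | A g⁻¹ = M} with h2 | ⟨g₀, h2⟩
  · rw [h2]
    exact Set.finite_empty
  · refine (hker.image fun k => g₀ * k⁻¹).subset ?_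
    intro g hg
    have hg' : A g⁻¹ = M := hg
    have h2' : A g₀⁻¹ = M := h2
    refine ⟨g⁻¹ * g₀, ?_, by group⟩
    show A (g⁻¹ * g₀) = 1
    rw [map_mul, hg', ← h2', ← map_mul, inv_mul_cancel, map_one]

private theorem EvC_idt (p q r : ℝ) (v w : Fin 2 → ℝ) : qf p q r v v * qf p q r w w =
    (p * r - q ^ 2) * (v 0 * w 1 - v 1 * w 0) ^ 2 + qf p q r v w ^ 2 := by
  unfold qf
  ring

/-- PROOF: forms `m x = qf (p x) (q x) (r x)` from `exists_forms`, `a`, `b` from `exists_signs` for `M = A h`,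
`f x = m x (rV a) (rV b)`, continuous. The zero set of `f` is bounded: if `f x = 0` then
`m x a a * m x b b = (p r - q ^ 2) (a₀ b₁ - a₁ b₀) ^ 2 ≤ C'`, both factors are `≥ 1`, so both are `≤ C'`; with `g` from the last
property `‖A g⁻¹ a‖ ^ 2 ≤ C'`, `‖A g⁻¹ b‖ ^ 2 ≤ C'`: finitely many integral vectors, so finitely many matrices `A g⁻¹` (`a`, `b` are
independent), so finitely many `g` (`hker`), and `x ∈ ⋃ act g '' C`, a finite union of compact sets.
Fix `x₀`. `f (act (h ^ n) x₀) = m x₀ (A h⁻ⁿ a) (A h⁻ⁿ b) > 0` and `f (act (h ^ (-n)) x₀) < 0` for large `n` (positivity of `m x₀`: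
`m x₀ v v ≥ ‖A g⁻¹ v‖ ^ 2 > 0`). The points `act (h ^ n) x₀` leave every ball as `n → ± ∞` (`prop`, `h` has infinite order because
the matrix `A h` has). The complement of a closed ball is connected (`1 < Module.rank`), so `f` has a zero outside
every ball (`IsPreconnected.intermediate_value₂` / image of a connected set): contradiction. -/
theorem no_hyperbolic (S : ProperAct act) (hV : 1 < Module.rank ℝ V) (A : G →* GL (Fin 2) ℤ)
    (hker : {g : G | A g = 1}.Finite) {h : G} (hh : 2 < |(A h).val.trace|) : False := by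
  have : ProperSpace V := FiniteDimensional.proper ℝ V
  obtain ⟨p, q, r, C₁, C, hp, hq, hr, hC, hdet, hge, heq, hcoc⟩ := exists_forms S A
  obtain ⟨a, b, hab, hsign⟩ := exists_signs (A h) hh
  obtain ⟨x₀⟩ : Nonempty V := ⟨0⟩
  have hpos : ∀ x : V, ∀ v : Fin 2 → ℝ, v ≠ 0 → 0 < qf (p x) (q x) (r x) v v := by
    intro x v hv
    obtain ⟨g, -, hg⟩ := hcoc x
    refine lt_of_lt_of_le ?_ (hg v)
    have h1 : (rM (A g⁻¹)).mulVec v ≠ 0 := by
      intro h2
      apply hv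
      have h3 : (rM (A g)).mulVec ((rM (A g⁻¹)).mulVec v) = v := by
        rw [Matrix.mulVec_mulVec, ← finA_rM_mul, ← map_mul, mul_inv_cancel, map_one, finA_rM_one,
          Matrix.one_mulVec]
      rw [← h3, h2, Matrix.mulVec_zero]
    exact pow_pos (norm_pos_iff.2 h1) 2
  obtain ⟨f, hf⟩ : ∃ f : V → ℝ, f = fun x => qf (p x) (q x) (r x) (rV a) (rV b) := ⟨_, rfl⟩
  have hfc : Continuous f := by
    rw [hf]
    unfold qf
    fun_prop
  obtain ⟨N, hN⟩ := hsign (p x₀) (q x₀) (r x₀) (hpos x₀)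
  have f1 : ∀ n, N ≤ n → 0 < f (act (h ^ n) x₀) := by
    intro n hn
    have e : A (h ^ n)⁻¹ = (A h)⁻¹ ^ n := by rw [map_inv, map_pow, inv_pow]
    rw [hf]
    show 0 < qf (p (act (h ^ n) x₀)) (q (act (h ^ n) x₀)) (r (act (h ^ n) x₀)) (rV a) (rV b)
    rw [heq (h ^ n) x₀, e]
    exact (hN n hn).1
  have f2 : ∀ n, N ≤ n → f (act (h⁻¹ ^ n) x₀) < 0 := by
    intro n hn
    have e : A (h⁻¹ ^ n)⁻¹ = A h ^ n := by rw [← inv_pow, inv_inv, map_pow]
    rw [hf]
    show qf (p (act (h⁻¹ ^ n) x₀)) (q (act (h⁻¹ ^ n) x₀)) (r (act (h⁻¹ ^ n) x₀)) (rV a) (rV b) < 0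
    rw [heq (h⁻¹ ^ n) x₀, e]
    exact (hN n hn).2
  have hord : ¬ IsOfFinOrder h := by
    intro h1
    obtain ⟨k, hk, hk1⟩ := isOfFinOrder_iff_pow_eq_one.1 h1
    have h2 : h ^ (k * (N + 1)) = 1 := by rw [pow_mul, hk1, one_pow]
    have h2' : h⁻¹ ^ (k * (N + 1)) = 1 := by rw [inv_pow, h2, inv_one]
    have h3 : N ≤ k * (N + 1) := (Nat.le_succ N).trans (Nat.le_mul_of_pos_left _ hk)
    have h4 := f1 _ h3
    have h5 := f2 _ h3
    rw [h2] at h4
    rw [h2'] at h5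
    exact lt_asymm h4 h5
  have hleave : ∀ k : G, ¬ IsOfFinOrder k → ∀ R : ℝ,
      ∃ n, N ≤ n ∧ act (k ^ n) x₀ ∉ closedBall (0 : V) R := by
    intro k hk R
    by_contra hcon
    push Not at hcon
    have hfin := S.prop (closedBall 0 (max R ‖x₀‖)) (isCompact_closedBall _ _)
    have hinj := injective_pow_iff_not_isOfFinOrder.2 hk
    have h1 : (Set.Ici N).Finite := by
      refine Set.Finite.of_finite_image (f := fun n : ℕ => k ^ n) (hfin.subset ?_) hinj.injOn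
      rintro _ ⟨n, hn, rfl⟩
      refine ⟨act (k ^ n) x₀, ⟨x₀, ?_, rfl⟩, ?_⟩
      · rw [mem_closedBall, dist_zero_right]
        exact le_max_right _ _
      · exact closedBall_subset_closedBall (le_max_left _ _) (hcon n hn)
    exact Set.Ici_infinite N h1
  obtain ⟨D, hD⟩ : ∃ D : ℝ, D = ((rV a) 0 * (rV b) 1 - (rV a) 1 * (rV b) 0) ^ 2 := ⟨_, rfl⟩
  have ha : a ≠ 0 := by
    intro h1
    apply hab
    rw [h1]
    simp
  have hb : b ≠ 0 := by
    intro h1
    apply hab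
    rw [h1]
    simp
  have hF : {g : G | A g⁻¹ ∈ {M : GL (Fin 2) ℤ | ‖(rM M).mulVec (rV a)‖ ^ 2 ≤ C₁ * D ∧
      ‖(rM M).mulVec (rV b)‖ ^ 2 ≤ C₁ * D}}.Finite := EvC_fib A hker (EvC_mat hab _)
  obtain ⟨R, hR⟩ := (hF.isCompact_biUnion fun g _ =>
    hC.image (S.cont g)).isBounded.subset_closedBall (0 : V)
  have hzero : ∀ x, f x = 0 → x ∈ closedBall (0 : V) R := by
    intro x hx
    obtain ⟨g, hgC, hg⟩ := hcoc x
    have hx' : qf (p x) (q x) (r x) (rV a) (rV b) = 0 := by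
      rw [hf] at hx
      exact hx
    have h1 := EvC_idt (p x) (q x) (r x) (rV a) (rV b)
    rw [hx', ← hD] at h1
    have hD0 : 0 ≤ D := by
      rw [hD]
      exact sq_nonneg _
    have h2 : qf (p x) (q x) (r x) (rV a) (rV a) * qf (p x) (q x) (r x) (rV b) (rV b) ≤
        C₁ * D := by
      rw [h1]
      have := mul_le_mul_of_nonneg_right (hdet x) hD0
      linarith
    have h3 := hge x a ha
    have h4 := hge x b hb
    have h5 : qf (p x) (q x) (r x) (rV a) (rV a) ≤ C₁ * D :=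
      (le_mul_of_one_le_right (by linarith) h4).trans h2
    have h6 : qf (p x) (q x) (r x) (rV b) (rV b) ≤ C₁ * D :=
      (le_mul_of_one_le_left (by linarith) h3).trans h2
    refine hR (mem_biUnion (x := g) ⟨(hg _).trans h5, (hg _).trans h6⟩ ⟨act g⁻¹ x, hgC, ?_⟩)
    rw [← S.mul, mul_inv_cancel, S.one]
  obtain ⟨n, hn, hn'⟩ := hleave h hord (max R 0)
  obtain ⟨m, hm, hm'⟩ := hleave h⁻¹ (by rwa [isOfFinOrder_inv_iff]) (max R 0)
  have hcon := EvC_conn hV (max R 0) (le_max_right _ _)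
  have hiv := hcon.isPreconnected.intermediate_value (f := f) hm' hn' hfc.continuousOn
  obtain ⟨z, hz, hz'⟩ := hiv ⟨(f2 m hm).le, (f1 n hn).le⟩
  exact hz (closedBall_subset_closedBall (le_max_left _ _) (hzero z hz'))

end H83T
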