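import Pool.Agent.H.MP_7a8a58_gt.h83c.EvC

/-!
MP_7a8a58_gt, helper83, fourth part.  Affine actions on `ℝ × ℝ²` with a fixed vector.
Paper proof: /team-store/h83_7a8a58_T5.md
-/

set_option autoImplicit false

open Set Metric Topology Filter

namespace H83T

/-- A free, properly discontinuous and cocompact action by the integral affine maps
`(x, y) ↦ (x + B y + b, A y + β)`. -/
structure FlAct {G : Type} [Group G] (act : G → (ℝ × (Fin 2 → ℝ)) → (ℝ × (Fin 2 → ℝ)))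
    (A : G →* GL (Fin 2) ℤ) (B : G → (Fin 2 → ℤ)) (b : G → ℤ) (β : G → (Fin 2 → ℤ)) :
    Prop where
  act_def : ∀ (g : G) (x : ℝ) (y : Fin 2 → ℝ),
    act g (x, y) = (x + ((B g 0 : ℝ) * y 0 + (B g 1 : ℝ) * y 1) + (b g : ℝ),
      (rM (A g)).mulVec y + rV (β g))
  proper : ProperAct act
  free : ∀ g z, act g z = z → g = 1

variable {G : Type} [Group G] {act : G → (ℝ × (Fin 2 → ℝ)) → (ℝ × (Fin 2 → ℝ))}
  {A : G →* GL (Fin 2) ℤ} {B : G → (Fin 2 → ℤ)} {b : G → ℤ} {β : G → (Fin 2 → ℤ)}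

private theorem EvD_f (S : FlAct act A B b β) (g : G) (z : ℝ × (Fin 2 → ℝ)) :
    (act g z).1 = z.1 + ((B g 0 : ℝ) * z.2 0 + (B g 1 : ℝ) * z.2 1) + (b g : ℝ) := by
  obtain ⟨x, y⟩ := z
  rw [S.act_def]

private theorem EvD_s (S : FlAct act A B b β) (g : G) (z : ℝ × (Fin 2 → ℝ)) (i : Fin 2) :
    (act g z).2 i = ((A g).val i 0 : ℝ) * z.2 0 + ((A g).val i 1 : ℝ) * z.2 1 + (β g i : ℝ) := by
  obtain ⟨x, y⟩ := z
  rw [S.act_def]
  fin_cases i <;> simp [rM, rV, Matrix.mulVec, dotProduct, Fin.sum_univ_two]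

private theorem EvD_ext {z w : ℝ × (Fin 2 → ℝ)} (h1 : z.1 = w.1) (h2 : ∀ i, z.2 i = w.2 i) :
    z = w := Prod.ext h1 (funext h2)

private theorem EvD_beta (S : FlAct act A B b β) (g h : G) (i : Fin 2) :
    β (g * h) i = (A g).val i 0 * β h 0 + (A g).val i 1 * β h 1 + β g i := by
  have h1 := congrFun (congrArg Prod.snd (S.proper.mul g h (0, 0))) i
  rw [EvD_s S (g * h), EvD_s S g, EvD_s S h, EvD_s S h] at h1
  simp only [Pi.zero_apply, mul_zero, zero_add] at h1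
  exact_mod_cast h1

private theorem EvD_b (S : FlAct act A B b β) (g h : G) :
    b (g * h) = b h + (B g 0 * β h 0 + B g 1 * β h 1) + b g := by
  have h1 := congrArg Prod.fst (S.proper.mul g h (0, 0))
  rw [EvD_f S (g * h), EvD_f S g, EvD_f S h, EvD_s S h, EvD_s S h] at h1
  simp only [Pi.zero_apply, mul_zero, zero_add] at h1
  exact_mod_cast h1

private theorem EvD_B (S : FlAct act A B b β) (g h : G) (j : Fin 2) :
    B (g * h) j = B h j + (B g 0 * (A h).val 0 j + B g 1 * (A h).val 1 j) := by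
  have h0 := EvD_b S g h
  have h0' : (b (g * h) : ℝ) = b h + (B g 0 * β h 0 + B g 1 * β h 1) + b g := by
    exact_mod_cast h0
  have h1 := congrArg Prod.fst (S.proper.mul g h (0, fun i => if i = j then 1 else 0))
  rw [EvD_f S (g * h), EvD_f S g, EvD_f S h, EvD_s S h, EvD_s S h] at h1
  have h2 : (B (g * h) j : ℝ) = B h j + (B g 0 * (A h).val 0 j + B g 1 * (A h).val 1 j) := by
    fin_cases j
    · simp at h1 ⊢
      linarith
    · simp at h1 ⊢
      linarith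
  exact_mod_cast h2

private theorem EvD_pow (M : Matrix (Fin 2) (Fin 2) ℤ) (t d : ℤ) (ht : 3 ≤ |t|) (hd : |d| = 1)
    (hM : M * M = t • M - d • (1 : Matrix (Fin 2) (Fin 2) ℤ)) (n : ℕ) :
    ∃ u v : ℤ, M ^ (n + 1) = u • M + v • (1 : Matrix (Fin 2) (Fin 2) ℤ) ∧ |v| < |u| := by
  induction n with
  | zero => exact ⟨1, 0, by simp, by simp⟩
  | succ n ih =>
    obtain ⟨u, v, h1, h2⟩ := ih
    refine ⟨u * t + v, -(u * d), ?_, ?_⟩
    · rw [pow_succ, h1, add_mul, smul_mul_assoc, smul_mul_assoc, hM, one_mul]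
      module
    · rw [abs_neg, abs_mul, hd, mul_one]
      have h3 : |u * t| ≤ |u * t + v| + |v| := by
        have := abs_add_le (u * t + v) (-v)
        rw [abs_neg, add_neg_cancel_right] at this
        exact this
      rw [abs_mul] at h3
      have h4 : |u| * 3 ≤ |u| * |t| := mul_le_mul_of_nonneg_left ht (abs_nonneg u)
      have h5 : 0 ≤ |v| := abs_nonneg v
      linarith

private theorem EvD_det (M : GL (Fin 2) ℤ) :
    M.val 0 0 * M.val 1 1 - M.val 0 1 * M.val 1 0 = 1 ∨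
      M.val 0 0 * M.val 1 1 - M.val 0 1 * M.val 1 0 = -1 := by
  have h1 : IsUnit M.val.det := (Matrix.isUnit_iff_isUnit_det _).1 M.isUnit
  rw [Matrix.det_fin_two] at h1
  exact Int.isUnit_iff.1 h1

private theorem EvD_ch (M : Matrix (Fin 2) (Fin 2) ℤ) :
    M * M = (M 0 0 + M 1 1) • M -
      (M 0 0 * M 1 1 - M 0 1 * M 1 0) • (1 : Matrix (Fin 2) (Fin 2) ℤ) := by
  ext i j
  fin_cases i <;> fin_cases j <;>
    simp only [Matrix.mul_apply, Fin.sum_univ_two, Matrix.sub_apply, Matrix.smul_apply,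
      smul_eq_mul, Matrix.one_apply, Fin.zero_eta, Fin.mk_one, Fin.isValue, if_true,
      zero_ne_one, one_ne_zero, if_false] <;> ring

private theorem EvD_inf {M : GL (Fin 2) ℤ} (hM : 2 < |M.val.trace|) {i : ℤ} (hi : i ≠ 0) :
    M ^ i ≠ 1 := by
  intro h
  have h1 : M ^ i.natAbs = 1 := pow_natAbs_eq_one.2 h
  obtain ⟨n, hn⟩ : ∃ n, i.natAbs = n + 1 := ⟨i.natAbs - 1, by omega⟩
  rw [hn] at h1
  have h2 : M.val ^ (n + 1) = 1 := by
    rw [← Units.val_pow_eq_pow_val, h1, Units.val_one]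
  have htr : M.val.trace = M.val 0 0 + M.val 1 1 := Matrix.trace_fin_two _
  rw [htr] at hM
  have hd := EvD_det M
  obtain ⟨u, v, h3, h4⟩ := EvD_pow M.val (M.val 0 0 + M.val 1 1)
    (M.val 0 0 * M.val 1 1 - M.val 0 1 * M.val 1 0) (by omega)
    (by rcases hd with h | h <;> rw [h] <;> simp)
    (EvD_ch M.val) n
  rw [h2] at h3
  have hu : u ≠ 0 := by
    rintro rfl
    rw [abs_zero] at h4
    exact absurd h4 (not_lt.2 (abs_nonneg v))
  have e01 := congrFun (congrFun h3 0) 1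
  have e10 := congrFun (congrFun h3 1) 0
  have e00 := congrFun (congrFun h3 0) 0
  have e11 := congrFun (congrFun h3 1) 1
  simp only [Matrix.add_apply, Matrix.smul_apply, smul_eq_mul, Matrix.one_apply, Fin.isValue,
    if_true, zero_ne_one, one_ne_zero, if_false, mul_zero, mul_one, add_zero] at e01 e10 e00 e11
  have f01 : M.val 0 1 = 0 := by
    rcases mul_eq_zero.1 e01.symm with h | h
    · exact absurd h hu
    · exact h
  have f10 : M.val 1 0 = 0 := by
    rcases mul_eq_zero.1 e10.symm with h | h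
    · exact absurd h hu
    · exact h
  have f : M.val 0 0 = M.val 1 1 := by
    have h5 : u * (M.val 0 0 - M.val 1 1) = 0 := by linear_combination e11 - e00
    rcases mul_eq_zero.1 h5 with h | h
    · exact absurd h hu
    · exact sub_eq_zero.1 h
  rw [f01, f10, f] at hd
  rw [f] at hM
  have h6 : M.val 1 1 * M.val 1 1 = 1 := by
    rcases hd with h | h
    · linarith
    · nlinarith [mul_self_nonneg (M.val 1 1)]
  have h7 : M.val 1 1 = 1 ∨ M.val 1 1 = -1 := by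
    rcases Int.mul_eq_one_iff_eq_one_or_neg_one.1 h6 with h | h
    · exact Or.inl h.1
    · exact Or.inr h.1
  rcases h7 with h | h <;> rw [h] at hM <;> norm_num at hM

/-- `k` acts on the line over `p` by the translation by `v`. -/
private def EvD_T (act : G → (ℝ × (Fin 2 → ℝ)) → (ℝ × (Fin 2 → ℝ))) (p : Fin 2 → ℝ) (k : G)
    (v : ℝ) : Prop := ∀ x, act k (x, p) = (x + v, p)

private theorem EvD_T_mul (S : FlAct act A B b β) {p : Fin 2 → ℝ} {k l : G} {v w : ℝ}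
    (hk : EvD_T act p k v) (hl : EvD_T act p l w) : EvD_T act p (k * l) (v + w) := by
  intro x
  rw [S.proper.mul, hl, hk]
  congr 1
  ring

private theorem EvD_T_inv (S : FlAct act A B b β) {p : Fin 2 → ℝ} {k : G} {v : ℝ}
    (hk : EvD_T act p k v) : EvD_T act p k⁻¹ (-v) := by
  intro x
  have h1 : act k (x + -v, p) = (x, p) := by
    rw [hk, neg_add_cancel_right]
  have h2 : act k⁻¹ (act k (x + -v, p)) = (x + -v, p) := by
    rw [← S.proper.mul, inv_mul_cancel, S.proper.one]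
  rw [h1] at h2
  exact h2

private theorem EvD_T_pow (S : FlAct act A B b β) {p : Fin 2 → ℝ} {k : G} {v : ℝ}
    (hk : EvD_T act p k v) (n : ℕ) : EvD_T act p (k ^ n) (n * v) := by
  induction n with
  | zero =>
    intro x
    rw [pow_zero, S.proper.one, Nat.cast_zero, zero_mul, add_zero]
  | succ n ih =>
    have h1 := EvD_T_mul S ih hk
    rw [← pow_succ] at h1
    have h2 : ((n + 1 : ℕ) : ℝ) * v = n * v + v := by push_cast; ring
    rw [h2]
    exact h1

private theorem EvD_T_zpow (S : FlAct act A B b β) {p : Fin 2 → ℝ} {k : G} {v : ℝ}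
    (hk : EvD_T act p k v) (n : ℤ) : EvD_T act p (k ^ n) (n * v) := by
  cases n with
  | ofNat n =>
    have h1 := EvD_T_pow S hk n
    rw [Int.ofNat_eq_natCast, zpow_natCast, Int.cast_natCast]
    exact h1
  | negSucc n =>
    have h1 := EvD_T_inv S (EvD_T_pow S hk (n + 1))
    rw [zpow_negSucc]
    have h2 : ((Int.negSucc n : ℤ) : ℝ) * v = -(((n + 1 : ℕ) : ℝ) * v) := by
      rw [Int.cast_negSucc]
      ring
    rw [h2]
    exact h1

private theorem EvD_one {g : G} (hg : A g = 1) (i j : Fin 2) :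
    (A g).val i j = if i = j then 1 else 0 := by
  rw [hg, Units.val_one, Matrix.one_apply]

/-- PROOF: `A g = 1`, `β g = 0`: `(x, y) ↦ (x + B y + b, y)`; if `g ≠ 1` then by freeness `B y + b ≠ 0` for all `y`, so `B = 0`:
`g` is the translation by `b ≠ 0` along the first axis. `h` fixes the rational point `p = (1 - A h)⁻¹ (β h)` of `ℝ²` (the
determinant `det (1 - A h)` is `1 - tr + det`, not zero) and acts on the line over `p` by the translation by
`c = B h p + b h`, rational. Choose integers `i ≠ 0`, `j` with `i c = j b`: `h ^ i * g ^ (-j)` fixes the points over `p`, so it is 1,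
so `A h ^ i = 1`: contradiction (`A h` has infinite order: eigenvalue of absolute value `> 1`). -/
theorem FlAct.eq_one (S : FlAct act A B b β) {h : G} (hh : 2 < |(A h).val.trace|) {g : G}
    (hg : A g = 1) (hg' : β g = 0) : g = 1 := by
  by_contra hne
  have hfix : ∀ z, act g z ≠ z := fun z h1 => hne (S.free g z h1)
  have hz1 : ∀ z : ℝ × (Fin 2 → ℝ),
      (act g z).1 = z.1 + ((B g 0 : ℝ) * z.2 0 + (B g 1 : ℝ) * z.2 1) + (b g : ℝ) := EvD_f S g
  have hz2 : ∀ (z : ℝ × (Fin 2 → ℝ)) (i : Fin 2), (act g z).2 i = z.2 i := by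
    intro z i
    rw [EvD_s S, hg', EvD_one hg, EvD_one hg]
    fin_cases i <;> simp
  have hB0 : B g 0 = 0 := by
    by_contra h0
    have h0' : (B g 0 : ℝ) ≠ 0 := by exact_mod_cast h0
    apply hfix (0, fun i => if i = 0 then -(b g : ℝ) / B g 0 else 0)
    refine EvD_ext ?_ (hz2 _)
    rw [hz1]
    simp
    field_simp
    ring
  have hB1 : B g 1 = 0 := by
    by_contra h0
    have h0' : (B g 1 : ℝ) ≠ 0 := by exact_mod_cast h0
    apply hfix (0, fun i => if i = 1 then -(b g : ℝ) / B g 1 else 0)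
    refine EvD_ext ?_ (hz2 _)
    rw [hz1]
    simp
    field_simp
    ring
  have hb : b g ≠ 0 := by
    intro h0
    apply hfix (0, 0)
    refine EvD_ext ?_ (hz2 _)
    rw [hz1, hB0, hB1, h0]
    simp
  have htr : (A h).val.trace = (A h).val 0 0 + (A h).val 1 1 := Matrix.trace_fin_two _
  have hd := EvD_det (A h)
  obtain ⟨D, hD⟩ : ∃ D : ℤ, D = (1 - (A h).val 0 0) * (1 - (A h).val 1 1) -
      (A h).val 0 1 * (A h).val 1 0 := ⟨_, rfl⟩
  have hD0 : D ≠ 0 := by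
    intro h0
    rw [htr] at hh
    have h1 : D = 1 - ((A h).val 0 0 + (A h).val 1 1) +
        ((A h).val 0 0 * (A h).val 1 1 - (A h).val 0 1 * (A h).val 1 0) := by
      rw [hD]
      ring
    rcases hd with h2 | h2
    · rw [h2] at h1
      have h3 : (A h).val 0 0 + (A h).val 1 1 = 2 := by linarith
      rw [h3] at hh
      norm_num at hh
    · rw [h2] at h1
      have h3 : (A h).val 0 0 + (A h).val 1 1 = 0 := by linarith
      rw [h3] at hh
      norm_num at hh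
  have hD0' : (D : ℝ) ≠ 0 := by exact_mod_cast hD0
  have hD' : (D : ℝ) = (1 - ((A h).val 0 0 : ℝ)) * (1 - ((A h).val 1 1 : ℝ)) -
      ((A h).val 0 1 : ℝ) * ((A h).val 1 0 : ℝ) := by
    rw [hD]
    push_cast
    ring
  obtain ⟨m, hm⟩ : ∃ m : ℤ, m = B h 0 * ((1 - (A h).val 1 1) * β h 0 + (A h).val 0 1 * β h 1) +
      B h 1 * ((A h).val 1 0 * β h 0 + (1 - (A h).val 0 0) * β h 1) + D * b h := ⟨_, rfl⟩
  have hm' : (m : ℝ) = B h 0 * ((1 - (A h).val 1 1) * β h 0 + (A h).val 0 1 * β h 1) +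
      B h 1 * ((A h).val 1 0 * β h 0 + (1 - (A h).val 0 0) * β h 1) + D * b h := by
    rw [hm]
    push_cast
    ring
  let p : Fin 2 → ℝ := ![((1 - (A h).val 1 1) * β h 0 + (A h).val 0 1 * β h 1) / D,
    ((A h).val 1 0 * β h 0 + (1 - (A h).val 0 0) * β h 1) / D]
  have hp0 : p 0 = ((1 - (A h).val 1 1) * β h 0 + (A h).val 0 1 * β h 1) / D := rfl
  have hp1 : p 1 = ((A h).val 1 0 * β h 0 + (1 - (A h).val 0 0) * β h 1) / D := rfl
  have hTh : EvD_T act p h (m / D) := by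
    intro x
    refine EvD_ext ?_ ?_
    · rw [EvD_f S]
      change x + ((B h 0 : ℝ) * p 0 + (B h 1 : ℝ) * p 1) + (b h : ℝ) = x + m / D
      rw [hp0, hp1, hm']
      field_simp
      ring
    · intro i
      rw [EvD_s S]
      change ((A h).val i 0 : ℝ) * p 0 + ((A h).val i 1 : ℝ) * p 1 + (β h i : ℝ) = p i
      fin_cases i
      · change ((A h).val 0 0 : ℝ) * p 0 + ((A h).val 0 1 : ℝ) * p 1 + (β h 0 : ℝ) = p 0
        rw [hp0, hp1]
        field_simp
        rw [hD']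
        ring
      · change ((A h).val 1 0 : ℝ) * p 0 + ((A h).val 1 1 : ℝ) * p 1 + (β h 1 : ℝ) = p 1
        rw [hp0, hp1]
        field_simp
        rw [hD']
        ring
  have hTg : EvD_T act p g (b g) := by
    intro x
    refine EvD_ext ?_ (hz2 _)
    rw [hz1, hB0, hB1]
    simp
  have h1 := EvD_T_mul S (EvD_T_zpow S hTh (D * b g)) (EvD_T_inv S (EvD_T_zpow S hTg m))
  have h2 : ((D * b g : ℤ) : ℝ) * (m / D) + -((m : ℝ) * b g) = 0 := by
    push_cast
    field_simp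
    ring
  rw [h2] at h1
  have h3 : h ^ (D * b g) * (g ^ m)⁻¹ = 1 := by
    refine S.free _ (0, p) ?_
    rw [h1, add_zero]
  have h4 : A h ^ (D * b g) = 1 := by
    have h5 := congrArg A h3
    rw [map_mul, map_inv, map_zpow, map_zpow, hg, one_zpow, inv_one, mul_one, map_one] at h5
    exact h5
  exact EvD_inf hh (mul_ne_zero hD0 hb) h4

private theorem EvD_hom {φ : G → ℚ} (A : G →* GL (Fin 2) ℤ)
    (hφ : ∀ g g', A g = 1 → A g' = 1 → φ (g * g') = φ g + φ g') {g : G} (hg : A g = 1) (n : ℤ) :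
    φ (g ^ n) = n * φ g := by
  let f : A.ker →* Multiplicative ℚ := MonoidHom.mk' (fun k => Multiplicative.ofAdd (φ k.1))
    (fun k l => by
      change Multiplicative.ofAdd (φ (k.1 * l.1)) = _
      rw [hφ k.1 l.1 (MonoidHom.mem_ker.1 k.2) (MonoidHom.mem_ker.1 l.2)]
      rfl)
  have h1 := map_zpow f (⟨g, MonoidHom.mem_ker.2 hg⟩ : A.ker) n
  have h2 : Multiplicative.toAdd (f ((⟨g, MonoidHom.mem_ker.2 hg⟩ : A.ker) ^ n)) = φ (g ^ n) := rfl
  rw [← h2, h1, toAdd_zpow, zsmul_eq_mul]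
  rfl

private theorem EvD_betaK (S : FlAct act A B b β) {g : G} (hg : A g = 1) (g' : G) (i : Fin 2) :
    β (g * g') i = β g i + β g' i := by
  rw [EvD_beta S, EvD_one hg, EvD_one hg]
  fin_cases i <;> simp <;> ring

private theorem EvD_BK (S : FlAct act A B b β) (g : G) {g' : G} (hg' : A g' = 1) (j : Fin 2) :
    B (g * g') j = B g j + B g' j := by
  rw [EvD_B S, EvD_one hg', EvD_one hg']
  fin_cases j <;> simp <;> ring

private theorem EvD_beta_one (S : FlAct act A B b β) (i : Fin 2) : β 1 i = 0 := by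
  have h1 := EvD_betaK S (map_one A) 1 i
  rw [mul_one] at h1
  linarith

private theorem EvD_inj (S : FlAct act A B b β) {h : G} (hh : 2 < |(A h).val.trace|) {g g' : G}
    (hg : A g = 1) (hg' : A g' = 1) (h0 : β g 0 = β g' 0) (h1 : β g 1 = β g' 1) : g = g' := by
  have hi : A g'⁻¹ = 1 := by rw [map_inv, hg', inv_one]
  have h2 : g * g'⁻¹ = 1 := by
    refine FlAct.eq_one S hh (by rw [map_mul, hg, hi, one_mul]) ?_
    funext i
    have h3 := EvD_betaK S hg g'⁻¹ i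
    have h4 := EvD_betaK S hi g' i
    rw [inv_mul_cancel, EvD_beta_one S] at h4
    have h5 : β g i = β g' i := by
      fin_cases i
      · exact h0
      · exact h1
    rw [Pi.zero_apply]
    linarith
  exact mul_inv_eq_one.1 h2

private theorem EvD_comm (S : FlAct act A B b β) {h : G} (hh : 2 < |(A h).val.trace|) {g g' : G}
    (hg : A g = 1) (hg' : A g' = 1) : g * g' = g' * g := by
  have h1 : A (g * g') = 1 := by rw [map_mul, hg, hg', one_mul]
  have h2 : A (g' * g) = 1 := by rw [map_mul, hg, hg', one_mul]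
  refine EvD_inj S hh h1 h2 ?_ ?_
  · rw [EvD_betaK S hg, EvD_betaK S hg']
    ring
  · rw [EvD_betaK S hg, EvD_betaK S hg']
    ring

private theorem EvD_sq {s t d : ℤ} (ht : 3 ≤ |t|) (hd : d = 1 ∨ d = -1)
    (h : s ^ 2 = t ^ 2 - 4 * d) : False := by
  rw [← sq_abs s, ← sq_abs t] at h
  obtain ⟨S, hS⟩ : ∃ S, S = |s| := ⟨_, rfl⟩
  obtain ⟨T, hT⟩ : ∃ T, T = |t| := ⟨_, rfl⟩
  have hS0 : 0 ≤ S := hS ▸ abs_nonneg s
  rw [← hS, ← hT] at h
  rw [← hT] at ht
  rcases hd with rfl | rfl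
  · have h1 : S < T := by
      by_contra h2
      nlinarith [not_lt.1 h2]
    nlinarith
  · have h1 : T < S := by
      by_contra h2
      nlinarith [not_lt.1 h2]
    nlinarith

private theorem EvD_indep {a b c d v w : ℤ} (ht : 3 ≤ |a + d|)
    (hd : a * d - b * c = 1 ∨ a * d - b * c = -1) (hv : ¬ (v = 0 ∧ w = 0)) :
    v * (c * v + d * w) - w * (a * v + b * w) ≠ 0 := by
  intro h
  obtain ⟨q, hq⟩ : ∃ q, q = v ^ 2 + w ^ 2 := ⟨_, rfl⟩
  obtain ⟨p, hp⟩ : ∃ p, p = v * (a * v + b * w) + w * (c * v + d * w) := ⟨_, rfl⟩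
  have hq0 : 0 < q := by
    rw [hq]
    by_contra h2
    apply hv
    have hv0 : v ^ 2 = 0 := by nlinarith [sq_nonneg v, sq_nonneg w]
    have hw0 : w ^ 2 = 0 := by nlinarith [sq_nonneg v, sq_nonneg w]
    exact ⟨pow_eq_zero_iff (two_ne_zero) |>.1 hv0, pow_eq_zero_iff (two_ne_zero) |>.1 hw0⟩
  have e1 : (q * a - p) * v + q * b * w = 0 := by
    rw [hq, hp]
    linear_combination (-w) * h
  have e2 : q * c * v + (q * d - p) * w = 0 := by
    rw [hq, hp]
    linear_combination v * h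
  have e3 : ((q * a - p) * (q * d - p) - q ^ 2 * (b * c)) * v = 0 := by
    linear_combination (q * d - p) * e1 - q * b * e2
  have e4 : ((q * a - p) * (q * d - p) - q ^ 2 * (b * c)) * w = 0 := by
    linear_combination (q * a - p) * e2 - q * c * e1
  have e5 : (q * a - p) * (q * d - p) - q ^ 2 * (b * c) = 0 := by
    by_contra h2
    exact hv ⟨(mul_eq_zero.1 e3).resolve_left h2, (mul_eq_zero.1 e4).resolve_left h2⟩
  have e6 : (2 * p - q * (a + d)) ^ 2 = q ^ 2 * ((a + d) ^ 2 - 4 * (a * d - b * c)) := by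
    linear_combination 4 * e5
  have e7 : q ∣ 2 * p - q * (a + d) := by
    rw [← Int.pow_dvd_pow_iff (two_ne_zero)]
    exact ⟨_, e6⟩
  obtain ⟨s, hs⟩ := e7
  rw [hs, mul_pow] at e6
  have e8 := mul_left_cancel₀ (pow_ne_zero 2 hq0.ne') e6
  exact EvD_sq ht hd e8

private theorem EvD_lin (S : FlAct act A B b β) {h : G} (hh : 2 < |(A h).val.trace|)
    {g₁ g₂ : G} (h₁ : A g₁ = 1) (h₂ : A g₂ = 1)
    (hD : β g₁ 0 * β g₂ 1 - β g₁ 1 * β g₂ 0 ≠ 0) {φ : G → ℚ}
    (hφ : ∀ g g', A g = 1 → A g' = 1 → φ (g * g') = φ g + φ g') :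
    ∃ f₀ f₁ : ℚ, ∀ g : G, A g = 1 → φ g = f₀ * β g 0 + f₁ * β g 1 := by
  have hD' : ((β g₁ 0 * β g₂ 1 - β g₁ 1 * β g₂ 0 : ℤ) : ℚ) ≠ 0 := by exact_mod_cast hD
  refine ⟨(φ g₁ * β g₂ 1 - φ g₂ * β g₁ 1) / ((β g₁ 0 * β g₂ 1 - β g₁ 1 * β g₂ 0 : ℤ) : ℚ),
    (φ g₂ * β g₁ 0 - φ g₁ * β g₂ 0) / ((β g₁ 0 * β g₂ 1 - β g₁ 1 * β g₂ 0 : ℤ) : ℚ), ?_⟩
  intro g hg
  have hz : ∀ k : Fin 2, ∀ x : G, A x = 1 → ∀ n : ℤ, β (x ^ n) k = n * β x k := by
    intro k x hx n
    have h1 := EvD_hom (φ := fun y => (β y k : ℚ)) A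
      (fun y y' hy _ => by
        change ((β (y * y') k : ℤ) : ℚ) = _
        rw [EvD_betaK S hy]
        push_cast
        rfl) hx n
    change ((β (x ^ n) k : ℤ) : ℚ) = n * (β x k : ℚ) at h1
    exact_mod_cast h1
  have hA : ∀ x : G, A x = 1 → ∀ n : ℤ, A (x ^ n) = 1 := by
    intro x hx n
    rw [map_zpow, hx, one_zpow]
  have h3 : g ^ (β g₁ 0 * β g₂ 1 - β g₁ 1 * β g₂ 0) =
      g₁ ^ (β g 0 * β g₂ 1 - β g 1 * β g₂ 0) * g₂ ^ (β g₁ 0 * β g 1 - β g₁ 1 * β g 0) := by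
    refine EvD_inj S hh (hA g hg _) (by rw [map_mul, hA _ h₁, hA _ h₂, one_mul]) ?_ ?_
    · rw [EvD_betaK S (hA _ h₁ _), hz 0 g hg, hz 0 g₁ h₁, hz 0 g₂ h₂]
      ring
    · rw [EvD_betaK S (hA _ h₁ _), hz 1 g hg, hz 1 g₁ h₁, hz 1 g₂ h₂]
      ring
  have h4 := congrArg φ h3
  rw [hφ _ _ (hA _ h₁ _) (hA _ h₂ _), EvD_hom A hφ hg, EvD_hom A hφ h₁, EvD_hom A hφ h₂] at h4
  field_simp
  push_cast at h4 ⊢
  linear_combination h4

/-- PROOF. `K = {g | A g = 1}` is infinite (`no_hyperbolic`), on `K` the map `β` is an injective homomorphism (`eq_one`), so `K`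
is commutative. Take `g₁ ∈ K`, `g₁ ≠ 1`, `g₂ = h * g₁ * h⁻¹`: `β g₂ = A h (β g₁)` is independent of `β g₁ ≠ 0` (an integral
eigenvector would have the eigenvalue `± 1` and `|tr| ≤ 2`). For `g ∈ K` some `g ^ k = g₁ ^ i * g₂ ^ j`, `k ≠ 0`, because `β` is
injective; `B` is additive on `K`, so `B g = s (β g)` for one rational matrix `s`; commutativity gives
`B g · β g' = B g' · β g` (compare the first coordinates of `g g'` and `g' g`), so `s` is symmetric. `b (g g') = b g + b g' + B g · β g'`, so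
`b g - (B g · β g) / 2` is additive on `K`, so it is a rational linear form of `β g`. -/
theorem FlAct.forms (S : FlAct act A B b β) {h : G} (hh : 2 < |(A h).val.trace|) :
    ∃ s₁ s₂ s₃ f₀ f₁ : ℚ,
      (∀ g : G, A g = 1 → (B g 0 : ℚ) = s₁ * β g 0 + s₂ * β g 1 ∧
        (B g 1 : ℚ) = s₂ * β g 0 + s₃ * β g 1 ∧
        (b g : ℚ) = (s₁ * β g 0 ^ 2 + 2 * s₂ * β g 0 * β g 1 + s₃ * β g 1 ^ 2) / 2 +
          f₀ * β g 0 + f₁ * β g 1) ∧
      ∃ g₁ g₂ : G, A g₁ = 1 ∧ A g₂ = 1 ∧ β g₁ 0 * β g₂ 1 - β g₁ 1 * β g₂ 0 ≠ 0 := by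
  have hinf : {g : G | A g = 1}.Infinite := by
    intro hfin
    refine no_hyperbolic S.proper ?_ A hfin hh
    rw [rank_prod', Module.rank_self, rank_fun', Fintype.card_fin]
    norm_num
  obtain ⟨g₁, h₁, hne⟩ : ∃ g₁ : G, A g₁ = 1 ∧ g₁ ≠ 1 := by
    obtain ⟨x, hx, hx'⟩ := hinf.exists_notMem_finite (Set.finite_singleton (1 : G))
    exact ⟨x, hx, hx'⟩
  have h₂ : A (h * g₁ * h⁻¹) = 1 := by
    rw [map_mul, map_mul, h₁, mul_one, ← map_mul, mul_inv_cancel, map_one]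
  have hw : ∀ i : Fin 2, β (h * g₁ * h⁻¹) i =
      (A h).val i 0 * β g₁ 0 + (A h).val i 1 * β g₁ 1 := by
    intro i
    have e1 := EvD_beta S h g₁ i
    have e2 := EvD_betaK S h₂ h i
    rw [inv_mul_cancel_right] at e2
    linarith
  obtain ⟨g₂, hg₂⟩ : ∃ g₂, g₂ = h * g₁ * h⁻¹ := ⟨_, rfl⟩
  rw [← hg₂] at h₂ hw
  have hD : β g₁ 0 * β g₂ 1 - β g₁ 1 * β g₂ 0 ≠ 0 := by
    rw [hw, hw]
    refine EvD_indep ?_ (EvD_det (A h)) ?_
    · have htr : (A h).val.trace = (A h).val 0 0 + (A h).val 1 1 := Matrix.trace_fin_two _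
      rw [htr] at hh
      omega
    · rintro ⟨h0, h1⟩
      apply hne
      refine EvD_inj S hh h₁ (map_one A) ?_ ?_
      · rw [h0, EvD_beta_one S]
      · rw [h1, EvD_beta_one S]
  have hc : ∀ g g' : G, A g = 1 → A g' = 1 →
      B g 0 * β g' 0 + B g 1 * β g' 1 = B g' 0 * β g 0 + B g' 1 * β g 1 := by
    intro g g' hg hg'
    have e1 := EvD_b S g g'
    have e2 := EvD_b S g' g
    rw [← EvD_comm S hh hg hg'] at e2
    linarith
  obtain ⟨s₁, s₂, hs⟩ := EvD_lin S hh h₁ h₂ hD (φ := fun g => (B g 0 : ℚ))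
    (fun g g' _ hg' => by
      change ((B (g * g') 0 : ℤ) : ℚ) = _
      rw [EvD_BK S _ hg']
      push_cast
      rfl)
  obtain ⟨s₂', s₃, hs'⟩ := EvD_lin S hh h₁ h₂ hD (φ := fun g => (B g 1 : ℚ))
    (fun g g' _ hg' => by
      change ((B (g * g') 1 : ℤ) : ℚ) = _
      rw [EvD_BK S _ hg']
      push_cast
      rfl)
  have hsym : s₂' = s₂ := by
    have e1 : (B g₁ 0 * β g₂ 0 + B g₁ 1 * β g₂ 1 : ℚ) = B g₂ 0 * β g₁ 0 + B g₂ 1 * β g₁ 1 := by
      exact_mod_cast hc g₁ g₂ h₁ h₂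
    have e2 := hs g₁ h₁
    have e3 := hs g₂ h₂
    have e4 := hs' g₁ h₁
    have e5 := hs' g₂ h₂
    rw [e2, e3, e4, e5] at e1
    have hD' : (β g₁ 0 * β g₂ 1 - β g₁ 1 * β g₂ 0 : ℚ) ≠ 0 := by exact_mod_cast hD
    have e6 : (β g₁ 0 * β g₂ 1 - β g₁ 1 * β g₂ 0 : ℚ) * (s₂' - s₂) = 0 := by
      linear_combination e1
    exact sub_eq_zero.1 ((mul_eq_zero.1 e6).resolve_left hD')
  rw [hsym] at hs'
  obtain ⟨f₀, f₁, hf⟩ := EvD_lin S hh h₁ h₂ hD
    (φ := fun g => (b g : ℚ) - (B g 0 * β g 0 + B g 1 * β g 1) / 2)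
    (fun g g' hg hg' => by
      change ((b (g * g') : ℤ) : ℚ) - ((B (g * g') 0 : ℤ) * (β (g * g') 0 : ℤ) +
        (B (g * g') 1 : ℤ) * (β (g * g') 1 : ℤ)) / 2 =
        ((b g : ℚ) - (B g 0 * β g 0 + B g 1 * β g 1) / 2) +
          ((b g' : ℚ) - (B g' 0 * β g' 0 + B g' 1 * β g' 1) / 2)
      rw [EvD_b S, EvD_BK S _ hg', EvD_BK S _ hg', EvD_betaK S hg, EvD_betaK S hg]
      have e1 : (B g 0 * β g' 0 + B g 1 * β g' 1 : ℚ) = B g' 0 * β g 0 + B g' 1 * β g 1 := by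
        exact_mod_cast hc g g' hg hg'
      push_cast
      linear_combination e1 / 2)
  refine ⟨s₁, s₂, s₃, f₀, f₁, ?_, g₁, g₂, h₁, h₂, hD⟩
  intro g hg
  have e2 := hs g hg
  have e3 := hs' g hg
  have e4 := hf g hg
  refine ⟨e2, e3, ?_⟩
  rw [e2, e3] at e4
  linear_combination e4

end H83T
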