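import Pool.Agent.H.MP_7a8a58_gt.h83c.EvD
import Pool.Agent.H.MP_7a8a58_gt.h83c.EbKol
import Pool.Agent.H.MP_7a8a58_gt.h83c.EfRel

/-!
MP_7a8a58_gt, helper83, fourth part.  Reduction to actions that preserve a covector.
Paper proof: /team-store/h83_7a8a58_T5.md
-/

set_option autoImplicit false

open Set Metric Topology Filter

namespace H83T

variable {G : Type} [Group G] {act : G → (ℝ × (Fin 2 → ℝ)) → (ℝ × (Fin 2 → ℝ))}
  {A : G →* GL (Fin 2) ℤ} {B : G → (Fin 2 → ℤ)} {b : G → ℤ} {β : G → (Fin 2 → ℤ)}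

private theorem evE_mv (M : GL (Fin 2) ℤ) (v : Fin 2 → ℝ) (i : Fin 2) :
    (rM M).mulVec v i = (M.val i 0 : ℝ) * v 0 + (M.val i 1 : ℝ) * v 1 := by
  simp [Matrix.mulVec, dotProduct, rM, Fin.sum_univ_two]

private theorem evE_fst (S : FlAct act A B b β) (g : G) (z : ℝ × (Fin 2 → ℝ)) :
    (act g z).1 = z.1 + ((B g 0 : ℝ) * z.2 0 + (B g 1 : ℝ) * z.2 1) + (b g : ℝ) := by
  obtain ⟨x, y⟩ := z
  rw [S.act_def]

private theorem evE_snd (S : FlAct act A B b β) (g : G) (z : ℝ × (Fin 2 → ℝ)) (i : Fin 2) :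
    (act g z).2 i = ((A g).val i 0 : ℝ) * z.2 0 + ((A g).val i 1 : ℝ) * z.2 1 + (β g i : ℝ) := by
  obtain ⟨x, y⟩ := z
  rw [S.act_def, ← evE_mv]
  rfl

private theorem evE_den (s₁ s₂ s₃ f₀ f₁ : ℚ) : ∃ (k : ℕ) (m₁ m₂ m₃ m₄ m₅ : ℤ), 0 < k ∧
    (k : ℝ) * (s₁ : ℝ) = 2 * m₁ ∧ (k : ℝ) * (s₂ : ℝ) = m₂ ∧ (k : ℝ) * (s₃ : ℝ) = 2 * m₃ ∧
    (k : ℝ) * (f₀ : ℝ) = m₄ ∧ (k : ℝ) * (f₁ : ℝ) = m₅ := by
  have key : ∀ s : ℚ, (s : ℝ) * (s.den : ℝ) = (s.num : ℝ) := by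
    intro s
    exact_mod_cast Rat.mul_den_eq_num s
  refine ⟨2 * (s₁.den * s₂.den * s₃.den * f₀.den * f₁.den),
    s₁.num * (s₂.den * s₃.den * f₀.den * f₁.den),
    2 * (s₂.num * (s₁.den * s₃.den * f₀.den * f₁.den)),
    s₃.num * (s₁.den * s₂.den * f₀.den * f₁.den),
    2 * (f₀.num * (s₁.den * s₂.den * s₃.den * f₁.den)),
    2 * (f₁.num * (s₁.den * s₂.den * s₃.den * f₀.den)), ?_, ?_, ?_, ?_, ?_, ?_⟩
  · have h1 := s₁.den_pos
    have h2 := s₂.den_pos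
    have h3 := s₃.den_pos
    have h4 := f₀.den_pos
    have h5 := f₁.den_pos
    positivity
  all_goals push_cast
  · rw [← key s₁]; ring
  · rw [← key s₂]; ring
  · rw [← key s₃]; ring
  · rw [← key f₀]; ring
  · rw [← key f₁]; ring

private theorem evE_quad {q₁ q₂ q₃ l₀ l₁ c p₀ p₁ r₀ r₁ : ℝ} {F : (Fin 2 → ℝ) → ℝ}
    (hF : ∀ y, F y = q₁ * y 0 ^ 2 + q₂ * (y 0 * y 1) + q₃ * y 1 ^ 2 + l₀ * y 0 + l₁ * y 1 + c)
    (hd : p₀ * r₁ - p₁ * r₀ ≠ 0) (hp : ∀ y, F (y + ![p₀, p₁]) = F y)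
    (hr : ∀ y, F (y + ![r₀, r₁]) = F y) (y : Fin 2 → ℝ) : F y = F 0 := by
  have p00 := hp ![0, 0]
  have p10 := hp ![1, 0]
  have p01 := hp ![0, 1]
  have r00 := hr ![0, 0]
  have r10 := hr ![1, 0]
  have r01 := hr ![0, 1]
  rw [hF, hF] at p00 p10 p01 r00 r10 r01
  simp at p00 p10 p01 r00 r10 r01
  have a1 : 2 * q₁ * p₀ + q₂ * p₁ = 0 := by linarith
  have a2 : q₂ * p₀ + 2 * q₃ * p₁ = 0 := by linarith
  have b1 : 2 * q₁ * r₀ + q₂ * r₁ = 0 := by linarith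
  have b2 : q₂ * r₀ + 2 * q₃ * r₁ = 0 := by linarith
  have e1 : q₁ = 0 := by
    have : q₁ * (p₀ * r₁ - p₁ * r₀) = 0 := by linear_combination (r₁ / 2) * a1 - (p₁ / 2) * b1
    exact (mul_eq_zero.mp this).resolve_right hd
  have e2 : q₂ = 0 := by
    have : q₂ * (p₀ * r₁ - p₁ * r₀) = 0 := by linear_combination p₀ * b1 - r₀ * a1
    exact (mul_eq_zero.mp this).resolve_right hd
  have e3 : q₃ = 0 := by
    have : q₃ * (p₀ * r₁ - p₁ * r₀) = 0 := by linear_combination (p₀ / 2) * b2 - (r₀ / 2) * a2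
    exact (mul_eq_zero.mp this).resolve_right hd
  subst e1 e2 e3
  have c1 : l₀ * p₀ + l₁ * p₁ = 0 := by linarith
  have c2 : l₀ * r₀ + l₁ * r₁ = 0 := by linarith
  have e4 : l₀ = 0 := by
    have : l₀ * (p₀ * r₁ - p₁ * r₀) = 0 := by linear_combination r₁ * c1 - p₁ * c2
    exact (mul_eq_zero.mp this).resolve_right hd
  have e5 : l₁ = 0 := by
    have : l₁ * (p₀ * r₁ - p₁ * r₀) = 0 := by linear_combination p₀ * c2 - r₀ * c1
    exact (mul_eq_zero.mp this).resolve_right hd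
  subst e4 e5
  rw [hF, hF]
  ring

/-- the conjugate action is an `SlAct` -/
private theorem evE_conj {H : Type} [Group H] {φ : H →* G} (hφ : Function.Injective φ)
    (S : FlAct act A B b β) (hcoc : ∃ C : Set (ℝ × (Fin 2 → ℝ)), IsCompact C ∧
      ∀ z, ∃ g : H, act (φ g) z ∈ C)
    (Ψ : (ℝ × (Fin 2 → ℝ)) ≃ₜ ((Fin 2 → ℝ) × ℝ)) (A' : H →* GL (Fin 2) ℤ)
    (B' a' : H → (Fin 2 → ℤ)) (β' : H → ℤ)
    (hdef : ∀ (g : H) (v : Fin 2 → ℝ) (p : ℝ), Ψ (act (φ g) (Ψ.symm (v, p))) =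
      ((rM (A' g)).mulVec v + p • rV (B' g) + rV (a' g), p + (β' g : ℝ))) :
    SlAct (fun g z => Ψ (act (φ g) (Ψ.symm z))) A' B' a' β' := by
  refine ⟨hdef, ?_, ?_, ?_, ?_⟩
  · intro z
    show Ψ (act (φ 1) (Ψ.symm z)) = z
    rw [map_one, S.proper.one, Homeomorph.apply_symm_apply]
  · intro g h z
    show Ψ (act (φ (g * h)) (Ψ.symm z)) = Ψ (act (φ g) (Ψ.symm (Ψ (act (φ h) (Ψ.symm z)))))
    rw [map_mul, S.proper.mul, Homeomorph.symm_apply_apply]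
  · intro g z hz
    apply hφ
    rw [map_one]
    refine S.free (φ g) (Ψ.symm z) ?_
    apply Ψ.injective
    rw [Homeomorph.apply_symm_apply]
    exact hz
  · obtain ⟨C, hC, h⟩ := hcoc
    refine ⟨Ψ '' C, hC.image Ψ.continuous, fun z => ?_⟩
    obtain ⟨g, hg⟩ := h (Ψ.symm z)
    exact ⟨g, mem_image_of_mem _ hg⟩

/-- PROOF: with `s`, `f` from `forms` put `q y = s₁ y₀ ^ 2 + 2 s₂ y₀ y₁ + s₃ y₁ ^ 2`, `x' (x, y) = x - q y / 2 - f₀ y₀ - f₁ y₁`. If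
`A g = 1` then `x' (act g z) = x' z`. For every `γ`: `F y = x' (act γ (x, y)) - x' (x, y)` is a polynomial of degree at most two in
`y` (independent of `x`), and `F (y + β g) = F y` for `A g = 1` (because `γ g γ⁻¹` is in the kernel of `A` too); two
independent periods `β g₁`, `β g₂`, hence `F` is a constant `c γ = b γ - q (β γ) / 2 - f (β γ)`. Let `k` be a positive
integer such that all `k c γ` are integers (`2` times a common denominator). `Ψ (x, y) = (y, k * x' (x, y))` is a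
homeomorphism and conjugates `act γ` to `(v, p) ↦ (A γ v + β γ, p + k c γ)`: an `SlAct` with `B' = 0`, `a' = β`. -/
theorem FlAct.toSl (S : FlAct act A B b β) {h : G} (hh : 2 < |(A h).val.trace|) :
    ∃ (Ψ : (ℝ × (Fin 2 → ℝ)) ≃ₜ ((Fin 2 → ℝ) × ℝ))
      (act' : G → ((Fin 2 → ℝ) × ℝ) → ((Fin 2 → ℝ) × ℝ)) (A' : G →* GL (Fin 2) ℤ)
      (B' a' : G → (Fin 2 → ℤ)) (β' : G → ℤ), SlAct act' A' B' a' β' ∧
      ∀ g x, Ψ (act g x) = act' g (Ψ x) := by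
  obtain ⟨s₁, s₂, s₃, f₀, f₁, hker, g₁, g₂, hg₁, hg₂, hdet⟩ := S.forms hh
  obtain ⟨k, m₁, m₂, m₃, m₄, m₅, hk, hk₁, hk₂, hk₃, hk₄, hk₅⟩ := evE_den s₁ s₂ s₃ f₀ f₁
  have hk0 : (k : ℝ) ≠ 0 := by positivity
  let Q : (Fin 2 → ℝ) → ℝ := fun y =>
    ((s₁ : ℝ) * y 0 ^ 2 + 2 * (s₂ : ℝ) * y 0 * y 1 + (s₃ : ℝ) * y 1 ^ 2) / 2 +
      (f₀ : ℝ) * y 0 + (f₁ : ℝ) * y 1
  have hQc : Continuous Q := by fun_prop
  let X : (ℝ × (Fin 2 → ℝ)) → ℝ := fun z => z.1 - Q z.2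
  have hXc : Continuous X := by fun_prop
  -- invariance under the kernel
  have hX1 : ∀ g : G, A g = 1 → ∀ z, X (act g z) = X z := by
    intro g hg z
    obtain ⟨h1, h2, h3⟩ := hker g hg
    have h1' : (B g 0 : ℝ) = (s₁ : ℝ) * β g 0 + (s₂ : ℝ) * β g 1 := by exact_mod_cast h1
    have h2' : (B g 1 : ℝ) = (s₂ : ℝ) * β g 0 + (s₃ : ℝ) * β g 1 := by exact_mod_cast h2
    have h3' : (b g : ℝ) = ((s₁ : ℝ) * (β g 0 : ℝ) ^ 2 + 2 * (s₂ : ℝ) * β g 0 * β g 1 +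
        (s₃ : ℝ) * (β g 1 : ℝ) ^ 2) / 2 + (f₀ : ℝ) * β g 0 + (f₁ : ℝ) * β g 1 := by
      exact_mod_cast h3
    have e0 : (act g z).2 0 = z.2 0 + (β g 0 : ℝ) := by
      rw [evE_snd S, hg]; simp
    have e1 : (act g z).2 1 = z.2 1 + (β g 1 : ℝ) := by
      rw [evE_snd S, hg]; simp
    show (act g z).1 - Q (act g z).2 = z.1 - Q z.2
    simp only [Q]
    rw [e0, e1, evE_fst S, h1', h2', h3']
    ring
  -- the defect
  let F : G → (Fin 2 → ℝ) → ℝ := fun γ y => X (act γ (0, y)) - X (0, y)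
  have hF1 : ∀ γ z, X (act γ z) = X z + F γ z.2 := by
    intro γ z
    have e2 : (act γ z).2 = (act γ (0, z.2)).2 := by
      funext i
      rw [evE_snd S, evE_snd S]
    show (act γ z).1 - Q (act γ z).2 = (z.1 - Q z.2) +
      (((act γ (0, z.2)).1 - Q (act γ (0, z.2)).2) - (0 - Q z.2))
    rw [e2, evE_fst S, evE_fst S]
    ring
  have hFper : ∀ γ g : G, A g = 1 → ∀ y, F γ (y + ![(β g 0 : ℝ), (β g 1 : ℝ)]) = F γ y := by
    intro γ g hg y
    have h1 : act γ (act g (0, y)) = act (γ * g * γ⁻¹) (act γ (0, y)) := by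
      rw [← S.proper.mul, ← S.proper.mul, inv_mul_cancel_right]
    have h2 : A (γ * g * γ⁻¹) = 1 := by
      rw [map_mul, map_mul, hg, mul_one, map_inv, mul_inv_cancel]
    have h3 := congrArg X h1
    rw [hX1 _ h2, hF1 γ (act g (0, y)), hF1 γ (0, y), hX1 g hg] at h3
    have h4 : (act g (0, y)).2 = y + ![(β g 0 : ℝ), (β g 1 : ℝ)] := by
      funext i
      rw [evE_snd S, hg]
      fin_cases i <;> simp
    rw [h4] at h3
    exact add_left_cancel h3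
  have hFconst : ∀ γ y, F γ y = F γ 0 := by
    intro γ
    have hd' : (β g₁ 0 : ℝ) * (β g₂ 1 : ℝ) - (β g₁ 1 : ℝ) * (β g₂ 0 : ℝ) ≠ 0 := by
      exact_mod_cast hdet
    refine evE_quad (F := F γ) ?_ hd' (hFper γ g₁ hg₁) (hFper γ g₂ hg₂)
      (q₁ := -((s₁ : ℝ) * ((A γ).val 0 0 : ℝ) ^ 2 +
          2 * (s₂ : ℝ) * ((A γ).val 0 0 : ℝ) * ((A γ).val 1 0 : ℝ) +
          (s₃ : ℝ) * ((A γ).val 1 0 : ℝ) ^ 2) / 2 + (s₁ : ℝ) / 2)
      (q₂ := -((s₁ : ℝ) * ((A γ).val 0 0 : ℝ) * ((A γ).val 0 1 : ℝ) +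
          (s₂ : ℝ) * (((A γ).val 0 0 : ℝ) * ((A γ).val 1 1 : ℝ) +
            ((A γ).val 0 1 : ℝ) * ((A γ).val 1 0 : ℝ)) +
          (s₃ : ℝ) * ((A γ).val 1 0 : ℝ) * ((A γ).val 1 1 : ℝ)) + (s₂ : ℝ))
      (q₃ := -((s₁ : ℝ) * ((A γ).val 0 1 : ℝ) ^ 2 +
          2 * (s₂ : ℝ) * ((A γ).val 0 1 : ℝ) * ((A γ).val 1 1 : ℝ) +
          (s₃ : ℝ) * ((A γ).val 1 1 : ℝ) ^ 2) / 2 + (s₃ : ℝ) / 2)
      (l₀ := (B γ 0 : ℝ) - ((s₁ : ℝ) * ((A γ).val 0 0 : ℝ) * (β γ 0 : ℝ) +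
          (s₂ : ℝ) * (((A γ).val 0 0 : ℝ) * (β γ 1 : ℝ) + ((A γ).val 1 0 : ℝ) * (β γ 0 : ℝ)) +
          (s₃ : ℝ) * ((A γ).val 1 0 : ℝ) * (β γ 1 : ℝ)) -
          (f₀ : ℝ) * ((A γ).val 0 0 : ℝ) - (f₁ : ℝ) * ((A γ).val 1 0 : ℝ) + (f₀ : ℝ))
      (l₁ := (B γ 1 : ℝ) - ((s₁ : ℝ) * ((A γ).val 0 1 : ℝ) * (β γ 0 : ℝ) +
          (s₂ : ℝ) * (((A γ).val 0 1 : ℝ) * (β γ 1 : ℝ) + ((A γ).val 1 1 : ℝ) * (β γ 0 : ℝ)) +
          (s₃ : ℝ) * ((A γ).val 1 1 : ℝ) * (β γ 1 : ℝ)) -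
          (f₀ : ℝ) * ((A γ).val 0 1 : ℝ) - (f₁ : ℝ) * ((A γ).val 1 1 : ℝ) + (f₁ : ℝ))
      (c := (b γ : ℝ) - Q (rV (β γ)))
    intro y
    show ((act γ (0, y)).1 - Q (act γ (0, y)).2) - (0 - Q y) = _
    simp only [Q]
    rw [evE_fst S, evE_snd S, evE_snd S]
    simp only [rV]
    ring
  -- the constants are rational with a common denominator
  have hint : ∀ γ, ∃ m : ℤ, (m : ℝ) = (k : ℝ) * F γ 0 := by
    intro γ
    refine ⟨k * b γ - (m₁ * β γ 0 ^ 2 + m₂ * β γ 0 * β γ 1 + m₃ * β γ 1 ^ 2) - m₄ * β γ 0 -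
      m₅ * β γ 1, ?_⟩
    have h1 : F γ 0 = (b γ : ℝ) - (((s₁ : ℝ) * (β γ 0 : ℝ) ^ 2 +
        2 * (s₂ : ℝ) * (β γ 0 : ℝ) * (β γ 1 : ℝ) + (s₃ : ℝ) * (β γ 1 : ℝ) ^ 2) / 2 +
        (f₀ : ℝ) * (β γ 0 : ℝ) + (f₁ : ℝ) * (β γ 1 : ℝ)) := by
      show ((act γ (0, 0)).1 - Q (act γ (0, 0)).2) - (0 - Q 0) = _
      simp only [Q]
      rw [evE_fst S, evE_snd S, evE_snd S]
      simp only [Pi.zero_apply]
      ring
    rw [h1]
    push_cast
    linear_combination ((β γ 0 : ℝ) ^ 2 / 2) * hk₁ + ((β γ 0 : ℝ) * (β γ 1 : ℝ)) * hk₂ +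
      ((β γ 1 : ℝ) ^ 2 / 2) * hk₃ + (β γ 0 : ℝ) * hk₄ + (β γ 1 : ℝ) * hk₅
  choose m hm using hint
  -- the change of coordinates
  let Ψ : (ℝ × (Fin 2 → ℝ)) ≃ₜ ((Fin 2 → ℝ) × ℝ) :=
    { toFun := fun z => (z.2, (k : ℝ) * X z)
      invFun := fun w => (w.2 / (k : ℝ) + Q w.1, w.1)
      left_inv := by
        intro z
        refine Prod.ext ?_ rfl
        show (k : ℝ) * (z.1 - Q z.2) / (k : ℝ) + Q z.2 = z.1
        rw [mul_div_cancel_left₀ _ hk0]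
        ring
      right_inv := by
        intro w
        refine Prod.ext rfl ?_
        show (k : ℝ) * ((w.2 / (k : ℝ) + Q w.1) - Q w.1) = w.2
        rw [add_sub_cancel_right, mul_div_cancel₀ _ hk0]
      continuous_toFun := by
        exact continuous_snd.prodMk (continuous_const.mul hXc)
      continuous_invFun := by
        exact ((continuous_snd.div_const _).add (hQc.comp continuous_fst)).prodMk
          continuous_fst }
  refine ⟨Ψ, fun g z => Ψ (act g (Ψ.symm z)), A, fun _ => 0, β, m, ?_, ?_⟩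
  · refine evE_conj (φ := MonoidHom.id G) Function.injective_id S S.proper.coc Ψ A _ _ _ ?_
    intro g v p
    show ((act g (p / (k : ℝ) + Q v, v)).2, (k : ℝ) * X (act g (p / (k : ℝ) + Q v, v))) = _
    rw [hF1, hFconst, S.act_def]
    refine Prod.ext ?_ ?_
    · show (rM (A g)).mulVec v + rV (β g) = (rM (A g)).mulVec v + p • rV 0 + rV (β g)
      have : (rV (0 : Fin 2 → ℤ)) = 0 := by funext i; simp [rV]
      rw [this, smul_zero, add_zero]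
    · show (k : ℝ) * (((p / (k : ℝ) + Q v) - Q v) + F g 0) = p + (m g : ℝ)
      rw [add_sub_cancel_right, mul_add, mul_div_cancel₀ _ hk0, hm]
  · intro g x
    show Ψ (act g x) = Ψ (act g (Ψ.symm (Ψ x)))
    rw [Homeomorph.symm_apply_apply]

/-- the shear `[[1, u], [0, 1]]` -/
private def evE_sh (u : ℤ) : GL (Fin 2) ℤ where
  val := !![1, u; 0, 1]
  inv := !![1, -u; 0, 1]
  val_inv := by
    ext i j
    fin_cases i <;> fin_cases j <;> simp [Matrix.mul_apply, Fin.sum_univ_two]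
  inv_val := by
    ext i j
    fin_cases i <;> fin_cases j <;> simp [Matrix.mul_apply, Fin.sum_univ_two]

private theorem evE_sh_add (u v : ℤ) : evE_sh (u + v) = evE_sh u * evE_sh v := by
  apply Units.ext
  show !![1, u + v; 0, 1] = !![1, u; 0, 1] * !![1, v; 0, 1]
  ext i j
  fin_cases i <;> fin_cases j <;> simp [Matrix.mul_apply, Fin.sum_univ_two, add_comm]

/-- matrices congruent to `1` modulo `3` with determinant `1` -/
private noncomputable def evE_hom : GL (Fin 2) ℤ →* GL (Fin 2) (ZMod 3) × ℤˣ :=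
  (Matrix.GeneralLinearGroup.map (Int.castRingHom (ZMod 3))).prod Matrix.GeneralLinearGroup.det

private theorem evE_trace {M : GL (Fin 2) ℤ} (hM : evE_hom M = 1)
    (ht : |M.val.trace| ≤ 2) : M.val.det = 1 ∧ (M.val - 1).det = 0 := by
  have h1 : Matrix.GeneralLinearGroup.map (Int.castRingHom (ZMod 3)) M = 1 := congrArg Prod.fst hM
  have h2 : Matrix.GeneralLinearGroup.det M = 1 := congrArg Prod.snd hM
  have hd : M.val.det = 1 := congrArg Units.val h2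
  have hc : ∀ i j, ((M.val i j : ℤ) : ZMod 3) = (1 : Matrix (Fin 2) (Fin 2) (ZMod 3)) i j := by
    intro i j
    have := congrArg (fun N : GL (Fin 2) (ZMod 3) => N.val i j) h1
    exact this
  have e00 := hc 0 0
  have e01 := hc 0 1
  have e10 := hc 1 0
  have e11 := hc 1 1
  rw [Matrix.one_apply_eq] at e00 e11
  rw [Matrix.one_apply_ne (by decide)] at e01 e10
  have d00 : (3 : ℤ) ∣ M.val 0 0 - 1 := by
    have : ((M.val 0 0 - 1 : ℤ) : ZMod 3) = 0 := by push_cast; rw [e00]; ring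
    exact (ZMod.intCast_zmod_eq_zero_iff_dvd _ 3).mp this
  have d11 : (3 : ℤ) ∣ M.val 1 1 - 1 := by
    have : ((M.val 1 1 - 1 : ℤ) : ZMod 3) = 0 := by push_cast; rw [e11]; ring
    exact (ZMod.intCast_zmod_eq_zero_iff_dvd _ 3).mp this
  have d01 : (3 : ℤ) ∣ M.val 0 1 := (ZMod.intCast_zmod_eq_zero_iff_dvd _ 3).mp e01
  have d10 : (3 : ℤ) ∣ M.val 1 0 := (ZMod.intCast_zmod_eq_zero_iff_dvd _ 3).mp e10
  obtain ⟨a, ha⟩ := d00
  obtain ⟨d, hd'⟩ := d11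
  obtain ⟨b, hb⟩ := d01
  obtain ⟨c, hc'⟩ := d10
  refine ⟨hd, ?_⟩
  rw [Matrix.det_fin_two] at hd
  rw [Matrix.trace_fin_two] at ht
  have ha' : M.val 0 0 = 3 * a + 1 := by omega
  have hd'' : M.val 1 1 = 3 * d + 1 := by omega
  have hdet : a + d + 3 * (a * d - b * c) = 0 := by
    rw [ha', hd'', hb, hc'] at hd
    linarith
  rw [ha', hd''] at ht
  have hz : a * d - b * c = 0 := by
    rw [abs_le] at ht
    omega
  rw [Matrix.det_fin_two]
  simp only [Matrix.sub_apply, Matrix.one_apply_eq, Matrix.one_apply, Fin.isValue, zero_ne_one,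
    one_ne_zero, if_false]
  rw [ha', hd'', hb, hc']
  linear_combination 9 * hz

/-- PROOF: `G' = {g | A g ≡ 1 mod 3, det (A g) = 1}` has finite index. For `g ∈ G'`, `A g = 1 + 3 X`, `det = 1` gives
`tr (A g) = 2 - 9 det X`, so `tr = 2` (`hno`), `det (A g - 1) = 0`. `kolchin_two` gives `P` with
`P A g P⁻¹ = [[1, k g], [0, 1]]`. With `y' = P y`: `x ↦ x + B g P⁻¹ y' + b g`, `y'₀ ↦ y'₀ + k y'₁ + (P β)₀`, `y'₁ ↦ y'₁ + (P β)₁`. So
`Ψ (x, y) = ((x, y'₀), y'₁)` and `A' = [[1, (B P⁻¹)₀], [0, 1]]`, `B' = ((B P⁻¹)₁, k)`, `a' = (b, (P β)₀)`, `β' = (P β)₁`. -/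
theorem FlAct.toSl' (S : FlAct act A B b β) (hno : ∀ g : G, |(A g).val.trace| ≤ 2) :
    ∃ G' : Subgroup G, G'.FiniteIndex ∧
    ∃ (Ψ : (ℝ × (Fin 2 → ℝ)) ≃ₜ ((Fin 2 → ℝ) × ℝ))
      (act' : G' → ((Fin 2 → ℝ) × ℝ) → ((Fin 2 → ℝ) × ℝ)) (A' : G' →* GL (Fin 2) ℤ)
      (B' a' : G' → (Fin 2 → ℤ)) (β' : G' → ℤ), SlAct act' A' B' a' β' ∧
      ∀ (g : G') (x : ℝ × (Fin 2 → ℝ)), Ψ (act (g : G) x) = act' g (Ψ x) := by
  let G' : Subgroup G := (evE_hom.comp A).ker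
  have hfi : G'.FiniteIndex := Subgroup.finiteIndex_ker _
  obtain ⟨P, hP⟩ := kolchin_two (A.comp G'.subtype)
    (fun n => (evE_trace (M := A n) n.2 (hno n)).2)
    (fun n => (evE_trace (M := A n) n.2 (hno n)).1)
  choose κ hκ using hP
  refine ⟨G', hfi, ?_⟩
  -- the change of coordinates
  let Ψ : (ℝ × (Fin 2 → ℝ)) ≃ₜ ((Fin 2 → ℝ) × ℝ) :=
    { toFun := fun z => (![z.1, (rM P).mulVec z.2 0], (rM P).mulVec z.2 1)
      invFun := fun w => (w.1 0, (rM P⁻¹).mulVec ![w.1 1, w.2])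
      left_inv := by
        intro z
        refine Prod.ext rfl ?_
        show (rM P⁻¹).mulVec ![(rM P).mulVec z.2 0, (rM P).mulVec z.2 1] = z.2
        have : ![(rM P).mulVec z.2 0, (rM P).mulVec z.2 1] = (rM P).mulVec z.2 := by
          funext i
          fin_cases i <;> rfl
        rw [this, Matrix.mulVec_mulVec, ← finA_rM_mul, inv_mul_cancel, finA_rM_one,
          Matrix.one_mulVec]
      right_inv := by
        intro w
        have : (rM P).mulVec ((rM P⁻¹).mulVec ![w.1 1, w.2]) = ![w.1 1, w.2] := by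
          rw [Matrix.mulVec_mulVec, ← finA_rM_mul, mul_inv_cancel, finA_rM_one,
            Matrix.one_mulVec]
        refine Prod.ext ?_ ?_
        · show ![w.1 0, (rM P).mulVec ((rM P⁻¹).mulVec ![w.1 1, w.2]) 0] = w.1
          rw [this]
          funext i
          fin_cases i <;> rfl
        · show (rM P).mulVec ((rM P⁻¹).mulVec ![w.1 1, w.2]) 1 = w.2
          rw [this]
          rfl
      continuous_toFun := by
        have h1 : Continuous fun z : ℝ × (Fin 2 → ℝ) => (rM P).mulVec z.2 :=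
          Continuous.matrix_mulVec continuous_const continuous_snd
        refine Continuous.prodMk (continuous_pi fun i => ?_) ((continuous_apply 1).comp h1)
        fin_cases i
        · exact continuous_fst
        · exact (continuous_apply 0).comp h1
      continuous_invFun := by
        refine Continuous.prodMk ((continuous_apply 0).comp continuous_fst) ?_
        refine Continuous.matrix_mulVec continuous_const (continuous_pi fun i => ?_)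
        fin_cases i
        · exact (continuous_apply 1).comp continuous_fst
        · exact continuous_snd }
  let u : G' → ℤ := fun g => B g 0 * (P⁻¹).val 0 0 + B g 1 * (P⁻¹).val 1 0
  let w : G' → ℤ := fun g => B g 0 * (P⁻¹).val 0 1 + B g 1 * (P⁻¹).val 1 1
  let c₀ : G' → ℤ := fun g => P.val 0 0 * β g 0 + P.val 0 1 * β g 1
  let c₁ : G' → ℤ := fun g => P.val 1 0 * β g 0 + P.val 1 1 * β g 1
  have hform : ∀ (g : G') (v : Fin 2 → ℝ) (p : ℝ), Ψ (act (g : G) (Ψ.symm (v, p))) =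
      (![v 0 + (u g : ℝ) * v 1 + (w g : ℝ) * p + (b g : ℝ),
        v 1 + (κ g : ℝ) * p + (c₀ g : ℝ)], p + (c₁ g : ℝ)) := by
    intro g v p
    have hs : Ψ.symm (v, p) = (v 0, (rM P⁻¹).mulVec ![v 1, p]) := rfl
    rw [hs, S.act_def]
    have h1 : (rM P).mulVec ((rM (A g)).mulVec ((rM P⁻¹).mulVec ![v 1, p]) + rV (β g)) =
        ![v 1 + (κ g : ℝ) * p + (c₀ g : ℝ), p + (c₁ g : ℝ)] := by
      have h2 : rM P * rM (A g) * rM P⁻¹ = !![1, (κ g : ℝ); 0, 1] := by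
        rw [← finA_rM_mul, ← finA_rM_mul]
        have h3 : (P * A g * P⁻¹).val = !![1, κ g; 0, 1] := hκ g
        unfold rM
        rw [h3]
        ext i j
        fin_cases i <;> fin_cases j <;> simp
      rw [Matrix.mulVec_add, Matrix.mulVec_mulVec, Matrix.mulVec_mulVec, h2]
      funext i
      rw [Pi.add_apply, evE_mv]
      fin_cases i <;> simp [Matrix.mulVec, dotProduct, Fin.sum_univ_two, rV, c₀, c₁]
    refine Prod.ext ?_ ?_
    · show ![v 0 + ((B g 0 : ℝ) * (rM P⁻¹).mulVec ![v 1, p] 0 +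
          (B g 1 : ℝ) * (rM P⁻¹).mulVec ![v 1, p] 1) + (b g : ℝ),
          (rM P).mulVec ((rM (A g)).mulVec ((rM P⁻¹).mulVec ![v 1, p]) + rV (β g)) 0] = _
      rw [h1, evE_mv, evE_mv]
      funext i
      fin_cases i
      · simp [u, w]
        ring
      · rfl
    · show (rM P).mulVec ((rM (A g)).mulVec ((rM P⁻¹).mulVec ![v 1, p]) + rV (β g)) 1 = _
      rw [h1]
      rfl
  have hmul : ∀ g h : G', u (g * h) = u g + u h := by
    intro g h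
    have hcomp : ∀ z, Ψ (act ((g * h : G') : G) (Ψ.symm z)) =
        Ψ (act (g : G) (Ψ.symm (Ψ (act (h : G) (Ψ.symm z))))) := by
      intro z
      rw [Homeomorph.symm_apply_apply, Subgroup.coe_mul, S.proper.mul]
    have e0 := congrArg (fun q : (Fin 2 → ℝ) × ℝ => q.1 0) (hcomp (![0, 0], 0))
    have e1 := congrArg (fun q : (Fin 2 → ℝ) × ℝ => q.1 0) (hcomp (![0, 1], 0))
    rw [hform, hform h, hform g] at e0 e1
    simp at e0 e1
    have : ((u (g * h) : ℤ) : ℝ) = ((u g + u h : ℤ) : ℝ) := by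
      push_cast
      linarith
    exact_mod_cast this
  have hone : u 1 = 0 := by
    have := hmul 1 1
    rw [mul_one] at this
    omega
  let A' : G' →* GL (Fin 2) ℤ :=
    { toFun := fun g => evE_sh (u g)
      map_one' := by
        show evE_sh (u 1) = 1
        rw [hone]
        apply Units.ext
        show !![1, 0; 0, 1] = (1 : Matrix (Fin 2) (Fin 2) ℤ)
        ext i j
        fin_cases i <;> fin_cases j <;> rfl
      map_mul' := fun g h => by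
        show evE_sh (u (g * h)) = evE_sh (u g) * evE_sh (u h)
        rw [hmul, evE_sh_add] }
  -- cocompactness of the subgroup
  have hcoc : ∃ C : Set (ℝ × (Fin 2 → ℝ)), IsCompact C ∧
      ∀ z, ∃ g : G', act (G'.subtype g) z ∈ C := by
    obtain ⟨C, hC, h⟩ := S.proper.coc
    have := hfi
    obtain ⟨T, hT⟩ : ∃ T : Set G, T.Finite ∧ ∀ g : G, ∃ t ∈ T, t * g ∈ G' := by
      have hq : Finite (G ⧸ G') := Subgroup.finite_quotient_of_finiteIndex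
      refine ⟨Set.range fun q : G ⧸ G' => (q.out)⁻¹, Set.finite_range _, fun g => ?_⟩
      exact ⟨_, ⟨(QuotientGroup.mk g : G ⧸ G'), rfl⟩,
        QuotientGroup.eq.mp (QuotientGroup.out_eq' _)⟩
    refine ⟨⋃ t ∈ T, act t '' C, hT.1.isCompact_biUnion fun t _ => hC.image (S.proper.cont t),
      fun z => ?_⟩
    obtain ⟨g, hg⟩ := h z
    obtain ⟨t, ht, htg⟩ := hT.2 g
    refine ⟨⟨t * g, htg⟩, ?_⟩
    rw [Set.mem_iUnion₂]
    refine ⟨t, ht, act g z, hg, ?_⟩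
    show act t (act g z) = act (t * g) z
    rw [S.proper.mul]
  refine ⟨Ψ, fun g z => Ψ (act (G'.subtype g) (Ψ.symm z)), A', fun g => ![w g, κ g],
    fun g => ![b g, c₀ g], c₁, ?_, ?_⟩
  · refine evE_conj (φ := G'.subtype) G'.subtype_injective S hcoc Ψ A' _ _ _ ?_
    intro g v p
    show Ψ (act (g : G) (Ψ.symm (v, p))) = _
    rw [hform]
    refine Prod.ext ?_ rfl
    funext i
    show (![v 0 + (u g : ℝ) * v 1 + (w g : ℝ) * p + (b g : ℝ),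
        v 1 + (κ g : ℝ) * p + (c₀ g : ℝ)] : Fin 2 → ℝ) i =
      (rM (A' g)).mulVec v i + p * (rV ![w g, κ g] i) + rV ![b g, c₀ g] i
    rw [evE_mv]
    fin_cases i
    · show v 0 + (u g : ℝ) * v 1 + (w g : ℝ) * p + (b g : ℝ) =
        ((1 : ℤ) : ℝ) * v 0 + (u g : ℝ) * v 1 + p * (w g : ℝ) + (b g : ℝ)
      push_cast
      ring
    · show v 1 + (κ g : ℝ) * p + (c₀ g : ℝ) =
        ((0 : ℤ) : ℝ) * v 0 + ((1 : ℤ) : ℝ) * v 1 + p * (κ g : ℝ) + (c₀ g : ℝ)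
      push_cast
      ring
  · intro g x
    show Ψ (act (g : G) x) = Ψ (act (g : G) (Ψ.symm (Ψ x)))
    rw [Homeomorph.symm_apply_apply]

/-- PROOF: `toSl` or `toSl'`, and `SlAct.torus`. -/
theorem FlAct.torus (S : FlAct act A B b β) :
    ∃ (G' : Subgroup G) (M : GL (Fin 2) ℤ)
      (Θ : (ℝ × (Fin 2 → ℝ)) ≃ₜ ((Fin 2 → ℝ) × ℝ)), G'.FiniteIndex ∧
      ∀ x y, (∃ g ∈ G', y = act g x) ↔ TorusRel M (Θ x) (Θ y) := by
  by_cases hno : ∀ g : G, |(A g).val.trace| ≤ 2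
  · obtain ⟨G', hfi, Ψ, act', A', B', a', β', S', hconj⟩ := S.toSl' hno
    obtain ⟨G₂, M, Θ, hfi₂, hΘ⟩ := S'.torus
    refine ⟨G₂.map G'.subtype, M, Ψ.trans Θ, ?_, fun x y => ?_⟩
    · constructor
      rw [Subgroup.index_map_subtype]
      exact mul_ne_zero hfi₂.index_ne_zero hfi.index_ne_zero
    · show _ ↔ TorusRel M (Θ (Ψ x)) (Θ (Ψ y))
      rw [← hΘ]
      constructor
      · rintro ⟨g, ⟨g', hg', rfl⟩, rfl⟩
        exact ⟨g', hg', hconj g' x⟩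
      · rintro ⟨g', hg', h⟩
        refine ⟨(g' : G), ⟨g', hg', rfl⟩, ?_⟩
        apply Ψ.injective
        rw [h, hconj]
  · push Not at hno
    obtain ⟨h, hh⟩ := hno
    obtain ⟨Ψ, act', A', B', a', β', S', hconj⟩ := S.toSl hh
    obtain ⟨G₂, M, Θ, hfi₂, hΘ⟩ := S'.torus
    refine ⟨G₂, M, Ψ.trans Θ, hfi₂, fun x y => ?_⟩
    show _ ↔ TorusRel M (Θ (Ψ x)) (Θ (Ψ y))
    rw [← hΘ]
    constructor
    · rintro ⟨g, hg, rfl⟩
      exact ⟨g, hg, hconj g x⟩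
    · rintro ⟨g, hg, h⟩
      refine ⟨g, hg, ?_⟩
      apply Ψ.injective
      rw [h, hconj]

end H83T
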