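import Pool.Agent.H.MP_7a8a58_gt.h83c.FnC

/-!
MP_7a8a58_gt, helper83, third part.  Definitions used in the statement of the result.
Paper proof: /team-store/h83_7a8a58_T4.md
-/

set_option autoImplicit false

namespace H83T

/-- `X` is homeomorphic to `ℝⁿ` in such a way that `Γ` acts by the maps `z ↦ lin γ z + t γ` with `t γ ∈ ℤⁿ`
(so `B = Γ \ X` is the quotient of `ℝⁿ` by a subgroup of `GL(n, ℤ) ⋉ ℤⁿ` that acts freely and properly
discontinuously, with the same linear holonomy). -/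
def IntAffPair.IsQuotientOfRn {n : ℕ} (S : IntAffPair n) : Prop :=
  ∃ (Φ : S.X ≃ₜ (Fin n → ℝ)) (t : S.Γ → (Fin n → ℤ)),
    ∀ (γ : S.Γ) (x : S.X), Φ (γ • x) = (rM (S.lin γ)).mulVec (Φ x) + rV (t γ)

/-- `N` is the block matrix `[[A, B], [0, C]]`. -/
def IsBlock {k m : ℕ} (N : GL (Fin (k + m)) ℤ) (A : Matrix (Fin k) (Fin k) ℤ)
    (B : Matrix (Fin k) (Fin m) ℤ) (C : Matrix (Fin m) (Fin m) ℤ) : Prop :=
  N.val = Matrix.reindex finSumFinEquiv finSumFinEquiv (Matrix.fromBlocks A B 0 C)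

/-- The subgroup `Γ'` preserves the rational subspace `V`, through the linear holonomy. -/
def IntAffPair.Preserves {n : ℕ} (S : IntAffPair n) (Γ' : Subgroup S.Γ)
    (V : Submodule ℚ (Fin n → ℚ)) : Prop :=
  ∀ γ ∈ Γ', ∀ v ∈ V, ((S.lin γ).val.map (fun a : ℤ => (a : ℚ))).mulVec v ∈ V

/-- upper triangular with all diagonal entries 1 -/
def IsUnitriangular {m : ℕ} (U : Matrix (Fin m) (Fin m) ℤ) : Prop :=
  ∀ i j : Fin m, (i = j → U i j = 1) ∧ (j < i → U i j = 0)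

end H83T
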