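import Pool.Agent.H.MP_7a8a58_gt.h83c.EgQuot
import Pool.Agent.H.MP_7a8a58_gt.h83c.EvE
import Pool.Agent.H.MP_7a8a58_gt.h83c.FnD

/-!
MP_7a8a58_gt, helper83, fourth part.  Finite coverings by torus bundles, reducible monodromy.
Paper proof: /team-store/h83_7a8a58_T5.md
-/

set_option autoImplicit false

open Set Metric Topology Filter

namespace H83T

/-- `Γ''` is a semidirect product `ℤ² ⋊ ℤ` with `M`, and `Γ'' \ X` is the torus bundle of `M`. -/
def IntAffPair.TorusCover {n : ℕ} (S : IntAffPair n) (Γ'' : Subgroup S.Γ) (M : GL (Fin 2) ℤ) :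
    Prop :=
  Nonempty (S.Quot Γ'' ≃ₜ TorusBundle M) ∧
    ∃ f : (Fin 2 → ℤ) → ℤ → S.Γ, (∀ a j b k, f a j = f b k → a = b ∧ j = k) ∧
      (∀ g : S.Γ, g ∈ Γ'' ↔ ∃ a j, g = f a j) ∧
      ∀ a j b k, f a j * f b k = f (a + (M ^ j).val.mulVec b) (j + k)

/-- the maps of the bundle -/
private noncomputable def EvGF (M : GL (Fin 2) ℤ) (z : Fin 2 → ℤ) (j : ℤ) (p : (Fin 2 → ℝ) × ℝ) :
    (Fin 2 → ℝ) × ℝ :=
  ((rM (M ^ j)).mulVec p.1 + rV z, p.2 + (j : ℝ))

private theorem EvG_rV {n : ℕ} (P : GL (Fin n) ℤ) (t : Fin n → ℤ) :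
    (rM P).mulVec (rV t) = rV (P.val.mulVec t) := by
  funext i
  show ∑ j, ((P.val i j : ℤ) : ℝ) * ((t j : ℤ) : ℝ) = ((∑ j, P.val i j * t j : ℤ) : ℝ)
  push_cast
  rfl

/-- a continuous function with integral values is constant -/
private theorem EvG_const {X : Type} [TopologicalSpace X] [ConnectedSpace X] {f : X → ℝ}
    (hf : Continuous f) (h : ∀ x, ∃ j : ℤ, f x = j) : ∃ j : ℤ, ∀ x, f x = j := by
  choose j hj using h
  have h1 : Continuous j := by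
    rw [Int.isClosedEmbedding_coe_real.isInducing.continuous_iff]
    have h2 : ((fun n : ℤ => (n : ℝ)) ∘ j) = f := by
      funext x
      exact (hj x).symm
    rw [h2]
    exact hf
  obtain ⟨x₀⟩ : Nonempty X := inferInstance
  refine ⟨j x₀, fun x => ?_⟩
  rw [hj x, PreconnectedSpace.constant inferInstance h1 (x := x) (y := x₀)]

/-- From the relation to the group.
PROOF: for `g ∈ G'` and `x`: `Θ (g x) = (M ^ j (Θ x).1 + z, (Θ x).2 + j)` with `j ∈ ℤ`, `z ∈ ℤ²` unique; `j = (Θ (g x)).2 - (Θ x).2` is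
continuous in `x` and integral, so constant (`X` connected), then `z` is constant too. Conversely for `(z, j)` and a
base point `x` there is `g ∈ G'` with these values at `x`, unique by freeness. `f z j` is this element; the
composition law: `g = f a j`, `g' = f b k`: `Θ (g g' x) = M ^ j (M ^ k w + b) + a`. -/
theorem exists_group_law {X : Type} [TopologicalSpace X] [ConnectedSpace X] {G : Type}
    [Group G] [MulAction G X] [ContinuousConstSMul G X]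
    (hfree : ∀ (g : G) (x : X), g • x = x → g = 1) (G' : Subgroup G) (M : GL (Fin 2) ℤ)
    (Θ : X ≃ₜ ((Fin 2 → ℝ) × ℝ))
    (h : ∀ x y, (∃ g ∈ G', y = g • x) ↔ TorusRel M (Θ x) (Θ y)) :
    ∃ f : (Fin 2 → ℤ) → ℤ → G, (∀ a j b k, f a j = f b k → a = b ∧ j = k) ∧
      (∀ g : G, g ∈ G' ↔ ∃ a j, g = f a j) ∧
      ∀ a j b k, f a j * f b k = f (a + (M ^ j).val.mulVec b) (j + k) := by
  obtain ⟨x₀⟩ : Nonempty X := inferInstance
  have hfree2 : ∀ g g' : G, g • x₀ = g' • x₀ → g = g' := by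
    intro g g' hg
    have h1 : (g'⁻¹ * g) • x₀ = x₀ := by
      rw [mul_smul, hg, inv_smul_smul]
    have h2 := hfree _ _ h1
    exact (inv_mul_eq_one.1 h2).symm
  -- the elements of the subgroup act by the maps of the bundle
  have hact : ∀ g ∈ G', ∃ (j : ℤ) (z : Fin 2 → ℤ), ∀ x, Θ (g • x) = EvGF M z j (Θ x) := by
    intro g hg
    have hrel : ∀ x, TorusRel M (Θ x) (Θ (g • x)) := fun x => (h x (g • x)).1 ⟨g, hg, rfl⟩
    have hcg : Continuous fun x : X => Θ (g • x) := Θ.continuous.comp (continuous_const_smul g)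
    obtain ⟨j, hj⟩ := EvG_const (f := fun x : X => (Θ (g • x)).2 - (Θ x).2)
      ((continuous_snd.comp hcg).sub (continuous_snd.comp Θ.continuous)) (fun x => by
        obtain ⟨j, z, h1, h2⟩ := hrel x
        exact ⟨j, by rw [h1]; ring⟩)
    have hz : ∀ i : Fin 2, ∃ z : ℤ, ∀ x, (Θ (g • x)).1 i - (rM (M ^ j)).mulVec (Θ x).1 i = z := by
      intro i
      refine EvG_const (f := fun x : X => (Θ (g • x)).1 i - (rM (M ^ j)).mulVec (Θ x).1 i) ?_ ?_
      · refine Continuous.sub ((continuous_apply i).comp (continuous_fst.comp hcg)) ?_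
        exact (continuous_apply i).comp
          (Continuous.matrix_mulVec continuous_const (continuous_fst.comp Θ.continuous))
      · intro x
        obtain ⟨j', z, h1, h2⟩ := hrel x
        have h3 : j' = j := by
          have h4 := hj x
          rw [h1] at h4
          have h5 : (j' : ℝ) = j := by linarith
          exact_mod_cast h5
        subst h3
        refine ⟨z i, ?_⟩
        have h4 := congrFun h2 i
        rw [Pi.add_apply] at h4
        rw [h4]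
        show (rM (M ^ j')).mulVec (Θ x).1 i + (z i : ℝ) - (rM (M ^ j')).mulVec (Θ x).1 i = _
        ring
    choose z hz using hz
    refine ⟨j, z, fun x => Prod.ext (funext fun i => ?_) ?_⟩
    · have h1 := hz i x
      show (Θ (g • x)).1 i = (rM (M ^ j)).mulVec (Θ x).1 i + (z i : ℝ)
      linarith
    · have h1 := hj x
      show (Θ (g • x)).2 = (Θ x).2 + (j : ℝ)
      linarith
  have hval : ∀ (z z' : Fin 2 → ℤ) (j j' : ℤ) (p : (Fin 2 → ℝ) × ℝ),
      EvGF M z j p = EvGF M z' j' p → z = z' ∧ j = j' := by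
    intro z z' j j' p hp
    have h1 : p.2 + (j : ℝ) = p.2 + (j' : ℝ) := congrArg Prod.snd hp
    have h2 : j = j' := by
      have h3 : (j : ℝ) = j' := by linarith
      exact_mod_cast h3
    subst h2
    refine ⟨funext fun i => ?_, rfl⟩
    have h3 := congrFun (congrArg Prod.fst hp) i
    have h4 : (rM (M ^ j)).mulVec p.1 i + (z i : ℝ) = (rM (M ^ j)).mulVec p.1 i + (z' i : ℝ) := h3
    have h5 : (z i : ℝ) = z' i := by linarith
    exact_mod_cast h5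
  have hex : ∀ (z : Fin 2 → ℤ) (j : ℤ), ∃ g ∈ G', ∀ x, Θ (g • x) = EvGF M z j (Θ x) := by
    intro z j
    obtain ⟨g, hg, hgx⟩ := (h x₀ (Θ.symm (EvGF M z j (Θ x₀)))).2 (by
      rw [Θ.apply_symm_apply]
      exact ⟨j, z, rfl, rfl⟩)
    obtain ⟨j', z', hz'⟩ := hact g hg
    have h1 := hz' x₀
    rw [← hgx, Θ.apply_symm_apply] at h1
    obtain ⟨rfl, rfl⟩ := hval _ _ _ _ _ h1
    exact ⟨g, hg, hz'⟩
  choose f hf hfx using hex
  refine ⟨f, ?_, ?_, ?_⟩
  · intro a j b k hab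
    have h1 := hfx a j x₀
    rw [hab, hfx b k x₀] at h1
    obtain ⟨h2, h3⟩ := hval _ _ _ _ _ h1
    exact ⟨h2.symm, h3.symm⟩
  · intro g
    constructor
    · intro hg
      obtain ⟨j, z, hz⟩ := hact g hg
      refine ⟨z, j, hfree2 _ _ ?_⟩
      apply Θ.injective
      rw [hz, hfx]
    · rintro ⟨a, j, rfl⟩
      exact hf a j
  · intro a j b k
    apply hfree2
    apply Θ.injective
    rw [mul_smul, hfx, hfx, hfx]
    refine Prod.ext ?_ ?_
    · show (rM (M ^ j)).mulVec ((rM (M ^ k)).mulVec (Θ x₀).1 + rV b) + rV a =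
        (rM (M ^ (j + k))).mulVec (Θ x₀).1 + rV (a + (M ^ j).val.mulVec b)
      rw [Matrix.mulVec_add, Matrix.mulVec_mulVec, ← finA_rM_mul, ← zpow_add, EvG_rV]
      funext i
      simp only [Pi.add_apply, rV]
      push_cast
      ring
    · show (Θ x₀).2 + (k : ℝ) + (j : ℝ) = (Θ x₀).2 + ((j + k : ℤ) : ℝ)
      push_cast
      ring

private def EvGcF (y : Fin (2 + 1) → ℝ) : (Fin 2 → ℝ) × ℝ :=
  (fun i => y (finSumFinEquiv (Sum.inl i)), y (finSumFinEquiv (Sum.inr (0 : Fin 1))))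

private def EvGcG (z : (Fin 2 → ℝ) × ℝ) : Fin (2 + 1) → ℝ :=
  fun i => Sum.elim z.1 (fun _ : Fin 1 => z.2) (finSumFinEquiv.symm i)

private theorem EvGcG_apply (z : (Fin 2 → ℝ) × ℝ) (j : Fin 2 ⊕ Fin 1) :
    EvGcG z (finSumFinEquiv j) = Sum.elim z.1 (fun _ : Fin 1 => z.2) j := by
  unfold EvGcG
  rw [Equiv.symm_apply_apply]

/-- the coordinates `(first two, last)` -/
private def EvGcC : (Fin (2 + 1) → ℝ) ≃ₜ ((Fin 2 → ℝ) × ℝ) where
  toFun := EvGcF
  invFun := EvGcG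
  left_inv y := by
    funext i
    obtain ⟨j, rfl⟩ := finSumFinEquiv.surjective i
    rw [EvGcG_apply]
    rcases j with j | j
    · rfl
    · show y (finSumFinEquiv (Sum.inr (0 : Fin 1))) = _
      rw [Subsingleton.elim j 0]
  right_inv z := by
    refine Prod.ext (funext fun i => ?_) ?_
    · show EvGcG z (finSumFinEquiv (Sum.inl i)) = _
      rw [EvGcG_apply]
      rfl
    · show EvGcG z (finSumFinEquiv (Sum.inr (0 : Fin 1))) = _
      rw [EvGcG_apply]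
      rfl
  continuous_toFun := by
    unfold EvGcF
    exact Continuous.prodMk (continuous_pi fun i => continuous_apply _) (continuous_apply _)
  continuous_invFun := by
    refine continuous_pi fun i => ?_
    obtain ⟨j, rfl⟩ := finSumFinEquiv.surjective i
    have h : (fun z => EvGcG z (finSumFinEquiv j)) =
        fun z : (Fin 2 → ℝ) × ℝ => Sum.elim z.1 (fun _ : Fin 1 => z.2) j := by
      funext z
      rw [EvGcG_apply]
    rw [h]
    rcases j with j | j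
    · exact (continuous_apply j).comp continuous_fst
    · exact continuous_snd

private theorem EvGcC_apply (y : Fin (2 + 1) → ℝ) :
    EvGcC y = (fun i => y (finSumFinEquiv (Sum.inl i)), y (finSumFinEquiv (Sum.inr (0 : Fin 1)))) := rfl

/-- a block matrix in the coordinates -/
private theorem EvGcC_block (N : GL (Fin (2 + 1)) ℤ) (A : GL (Fin 2) ℤ) (B : Matrix (Fin 2) (Fin 1) ℤ)
    (h : N.val = Matrix.reindex finSumFinEquiv finSumFinEquiv (Matrix.fromBlocks A.val B 0 1))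
    (y : Fin (2 + 1) → ℝ) (t : Fin (2 + 1) → ℤ) :
    EvGcC ((rM N).mulVec y + rV t) =
      ((rM A).mulVec (EvGcC y).1 + (EvGcC y).2 • rV (fun i => B i 0) +
        rV (fun i => t (finSumFinEquiv (Sum.inl i))),
        (EvGcC y).2 + ((t (finSumFinEquiv (Sum.inr (0 : Fin 1))) : ℤ) : ℝ)) := by
  have hN : ∀ a b : Fin 2 ⊕ Fin 1, rM N (finSumFinEquiv a) (finSumFinEquiv b) =
      ((Matrix.fromBlocks A.val B 0 1 a b : ℤ) : ℝ) := by
    intro a b
    unfold rM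
    rw [h, Matrix.map_apply, Matrix.reindex_apply, Matrix.submatrix_apply,
      Equiv.symm_apply_apply, Equiv.symm_apply_apply]
  have hs : ∀ a : Fin 2 ⊕ Fin 1, (rM N).mulVec y (finSumFinEquiv a) =
      ∑ b : Fin 2 ⊕ Fin 1, ((Matrix.fromBlocks A.val B 0 1 a b : ℤ) : ℝ) *
        y (finSumFinEquiv b) := by
    intro a
    have h1 : (rM N).mulVec y (finSumFinEquiv a) =
        ∑ j, rM N (finSumFinEquiv a) j * y j := rfl
    rw [h1, ← Equiv.sum_comp finSumFinEquiv]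
    exact Finset.sum_congr rfl fun b _ => by rw [hN]
  rw [EvGcC_apply, EvGcC_apply]
  refine Prod.ext (funext fun i => ?_) ?_
  · show (rM N).mulVec y (finSumFinEquiv (Sum.inl i)) + (t (finSumFinEquiv (Sum.inl i)) : ℝ) = _
    rw [hs, Fintype.sum_sum_type]
    show _ = (rM A).mulVec (fun i => y (finSumFinEquiv (Sum.inl i))) i +
      y (finSumFinEquiv (Sum.inr (0 : Fin 1))) * ((B i 0 : ℤ) : ℝ) + (t (finSumFinEquiv (Sum.inl i)) : ℝ)
    have h2 : (rM A).mulVec (fun i => y (finSumFinEquiv (Sum.inl i))) i =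
        ∑ b : Fin 2, ((A.val i b : ℤ) : ℝ) * y (finSumFinEquiv (Sum.inl b)) := rfl
    rw [h2, Fintype.sum_unique (fun b : Fin 1 => _)]
    simp only [Matrix.fromBlocks_apply₁₁, Matrix.fromBlocks_apply₁₂, Fin.default_eq_zero]
    ring
  · show (rM N).mulVec y (finSumFinEquiv (Sum.inr (0 : Fin 1))) + (t (finSumFinEquiv (Sum.inr (0 : Fin 1))) : ℝ) = _
    rw [hs, Fintype.sum_sum_type, Fintype.sum_unique (fun b : Fin 1 => _)]
    simp [Matrix.fromBlocks_apply₂₁, Matrix.fromBlocks_apply₂₂]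

private def EvGvF (y : Fin (1 + 2) → ℝ) : ℝ × (Fin 2 → ℝ) :=
  (y (finSumFinEquiv (Sum.inl (0 : Fin 1))), fun i => y (finSumFinEquiv (Sum.inr i)))

private def EvGvG (z : ℝ × (Fin 2 → ℝ)) : Fin (1 + 2) → ℝ :=
  fun i => Sum.elim (fun _ : Fin 1 => z.1) z.2 (finSumFinEquiv.symm i)

private theorem EvGvG_apply (z : ℝ × (Fin 2 → ℝ)) (j : Fin 1 ⊕ Fin 2) :
    EvGvG z (finSumFinEquiv j) = Sum.elim (fun _ : Fin 1 => z.1) z.2 j := by
  unfold EvGvG
  rw [Equiv.symm_apply_apply]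

/-- the coordinates `(first, last two)` -/
private def EvGvC : (Fin (1 + 2) → ℝ) ≃ₜ (ℝ × (Fin 2 → ℝ)) where
  toFun := EvGvF
  invFun := EvGvG
  left_inv y := by
    funext i
    obtain ⟨j, rfl⟩ := finSumFinEquiv.surjective i
    rw [EvGvG_apply]
    rcases j with j | j
    · show y (finSumFinEquiv (Sum.inl (0 : Fin 1))) = _
      rw [Subsingleton.elim j 0]
    · rfl
  right_inv z := by
    refine Prod.ext ?_ (funext fun i => ?_)
    · show EvGvG z (finSumFinEquiv (Sum.inl (0 : Fin 1))) = _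
      rw [EvGvG_apply]
      rfl
    · show EvGvG z (finSumFinEquiv (Sum.inr i)) = _
      rw [EvGvG_apply]
      rfl
  continuous_toFun := by
    unfold EvGvF
    exact Continuous.prodMk (continuous_apply _) (continuous_pi fun i => continuous_apply _)
  continuous_invFun := by
    refine continuous_pi fun i => ?_
    obtain ⟨j, rfl⟩ := finSumFinEquiv.surjective i
    have h : (fun z => EvGvG z (finSumFinEquiv j)) =
        fun z : ℝ × (Fin 2 → ℝ) => Sum.elim (fun _ : Fin 1 => z.1) z.2 j := by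
      funext z
      rw [EvGvG_apply]
    rw [h]
    rcases j with j | j
    · exact continuous_fst
    · exact (continuous_apply j).comp continuous_snd

private theorem EvGvC_apply (y : Fin (1 + 2) → ℝ) :
    EvGvC y = (y (finSumFinEquiv (Sum.inl (0 : Fin 1))), fun i => y (finSumFinEquiv (Sum.inr i))) :=
  rfl

/-- a block matrix in the coordinates -/
private theorem EvGvC_block (N : GL (Fin (1 + 2)) ℤ) (A : GL (Fin 2) ℤ)
    (B : Matrix (Fin 1) (Fin 2) ℤ)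
    (h : N.val = Matrix.reindex finSumFinEquiv finSumFinEquiv (Matrix.fromBlocks 1 B 0 A.val))
    (y : Fin (1 + 2) → ℝ) (t : Fin (1 + 2) → ℤ) :
    EvGvC ((rM N).mulVec y + rV t) =
      ((EvGvC y).1 + ((B 0 0 : ℝ) * (EvGvC y).2 0 + (B 0 1 : ℝ) * (EvGvC y).2 1) +
        ((t (finSumFinEquiv (Sum.inl (0 : Fin 1))) : ℤ) : ℝ),
        (rM A).mulVec (EvGvC y).2 + rV (fun i => t (finSumFinEquiv (Sum.inr i)))) := by
  have hN : ∀ a b : Fin 1 ⊕ Fin 2, rM N (finSumFinEquiv a) (finSumFinEquiv b) =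
      ((Matrix.fromBlocks 1 B 0 A.val a b : ℤ) : ℝ) := by
    intro a b
    unfold rM
    rw [h, Matrix.map_apply, Matrix.reindex_apply, Matrix.submatrix_apply,
      Equiv.symm_apply_apply, Equiv.symm_apply_apply]
  have hs : ∀ a : Fin 1 ⊕ Fin 2, (rM N).mulVec y (finSumFinEquiv a) =
      ∑ b : Fin 1 ⊕ Fin 2, ((Matrix.fromBlocks 1 B 0 A.val a b : ℤ) : ℝ) *
        y (finSumFinEquiv b) := by
    intro a
    have h1 : (rM N).mulVec y (finSumFinEquiv a) =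
        ∑ j, rM N (finSumFinEquiv a) j * y j := rfl
    rw [h1, ← Equiv.sum_comp finSumFinEquiv]
    exact Finset.sum_congr rfl fun b _ => by rw [hN]
  rw [EvGvC_apply, EvGvC_apply]
  refine Prod.ext ?_ (funext fun i => ?_)
  · show (rM N).mulVec y (finSumFinEquiv (Sum.inl (0 : Fin 1))) +
      (t (finSumFinEquiv (Sum.inl (0 : Fin 1))) : ℝ) = _
    rw [hs, Fintype.sum_sum_type, Fintype.sum_unique (fun b : Fin 1 => _), Fin.sum_univ_two]
    simp only [Matrix.fromBlocks_apply₁₁, Matrix.fromBlocks_apply₁₂, Fin.default_eq_zero,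
      Matrix.one_apply_eq, Int.cast_one, one_mul]
  · show (rM N).mulVec y (finSumFinEquiv (Sum.inr i)) + (t (finSumFinEquiv (Sum.inr i)) : ℝ) = _
    rw [hs, Fintype.sum_sum_type]
    show _ = (rM A).mulVec (fun i => y (finSumFinEquiv (Sum.inr i))) i +
      (t (finSumFinEquiv (Sum.inr i)) : ℝ)
    have h2 : (rM A).mulVec (fun i => y (finSumFinEquiv (Sum.inr i))) i =
        ∑ b : Fin 2, ((A.val i b : ℤ) : ℝ) * y (finSumFinEquiv (Sum.inr b)) := rfl
    rw [h2, Fintype.sum_unique (fun b : Fin 1 => _)]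
    simp only [Matrix.fromBlocks_apply₂₁, Matrix.fromBlocks_apply₂₂, Matrix.zero_apply,
      Int.cast_zero, zero_mul, zero_add]

/-- the last step -/
private theorem EvG_finish {n : ℕ} (S : IntAffPair n) (Γ' : Subgroup S.Γ)
    (hΓ' : Γ'.FiniteIndex) (G' : Subgroup Γ') (hG' : G'.FiniteIndex) (M : GL (Fin 2) ℤ)
    (Θ : S.X ≃ₜ ((Fin 2 → ℝ) × ℝ))
    (h : ∀ x y, (∃ g ∈ G', y = (g : S.Γ) • x) ↔ TorusRel M (Θ x) (Θ y)) :
    ∃ Γ'' : Subgroup S.Γ, Γ''.FiniteIndex ∧ ∃ M : GL (Fin 2) ℤ, S.TorusCover Γ'' M := by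
  have hfin : (G'.map Γ'.subtype).FiniteIndex := by
    refine ⟨?_⟩
    rw [Subgroup.index_map_subtype]
    exact mul_ne_zero hG'.index_ne_zero hΓ'.index_ne_zero
  have hmap : ∀ x y : S.X, (∃ g ∈ G'.map Γ'.subtype, y = g • x) ↔ TorusRel M (Θ x) (Θ y) := by
    intro x y
    rw [← h]
    constructor
    · rintro ⟨g, hg, rfl⟩
      obtain ⟨g', hg', rfl⟩ := Subgroup.mem_map.1 hg
      exact ⟨g', hg', rfl⟩
    · rintro ⟨g, hg, rfl⟩
      exact ⟨(g : S.Γ), Subgroup.mem_map.2 ⟨g, hg, rfl⟩, rfl⟩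
  refine ⟨G'.map Γ'.subtype, hfin, M, ?_, ?_⟩
  · refine orbit_homeo_torusBundle M Θ fun x y => ?_
    rw [← hmap]
    constructor
    · rintro ⟨γ, rfl⟩
      exact ⟨(γ : S.Γ), γ.2, rfl⟩
    · rintro ⟨g, hg, rfl⟩
      exact ⟨⟨g, hg⟩, rfl⟩
  · exact exists_group_law S.free (G'.map Γ'.subtype) M Θ hmap

/-- PROOF: as `exists_torus_cover` in EgQuot for the relation, and `exists_group_law`. (In EgQuot the relation is
obtained inside the proof; copy it.) -/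
theorem torusCover_covector (S : IntAffPair (2 + 1)) (Γ' : Subgroup S.Γ)
    (hΓ' : Γ'.FiniteIndex) (P : GL (Fin (2 + 1)) ℤ)
    (A : S.Γ → Matrix (Fin 2) (Fin 2) ℤ) (B : S.Γ → Matrix (Fin 2) (Fin 1) ℤ)
    (hblock : ∀ γ ∈ Γ', IsBlock (P * S.lin γ * P⁻¹) (A γ) (B γ) 1) :
    ∃ Γ'' : Subgroup S.Γ, Γ''.FiniteIndex ∧ ∃ M : GL (Fin 2) ℤ, S.TorusCover Γ'' M := by
  obtain ⟨Φ, t, hΦ⟩ := finalT 2 1 S Γ' hΓ' P A B hblock (Or.inl rfl)
  -- the linear parts
  obtain ⟨A', hA'⟩ := exists_block_hom (S.lin.comp Γ'.subtype) P (fun g : Γ' => A (g : S.Γ))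
    (fun g : Γ' => B (g : S.Γ)) (fun g => hblock (g : S.Γ) g.2)
  -- the coordinates
  obtain ⟨Ψ, hΨ⟩ : ∃ Ψ : S.X ≃ₜ ((Fin 2 → ℝ) × ℝ), ∀ x, Ψ x = EvGcC ((rM P).mulVec (Φ x)) :=
    ⟨(Φ.trans (finA_L (2 + 1) P).toContinuousLinearEquiv.toHomeomorph).trans EvGcC, fun x => rfl⟩
  have hact : ∀ (g : Γ') (x : S.X), Ψ ((g : S.Γ) • x) =
      ((rM (A' g)).mulVec (Ψ x).1 + (Ψ x).2 • rV (fun i => B (g : S.Γ) i 0) +
        rV (fun i => (P.val.mulVec (t (g : S.Γ))) (finSumFinEquiv (Sum.inl i))),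
        (Ψ x).2 + (((P.val.mulVec (t (g : S.Γ))) (finSumFinEquiv (Sum.inr (0 : Fin 1))) : ℤ) : ℝ)) := by
    intro g x
    have h1 : (rM P).mulVec (Φ ((g : S.Γ) • x)) =
        (rM (P * S.lin (g : S.Γ) * P⁻¹)).mulVec ((rM P).mulVec (Φ x)) +
          rV (P.val.mulVec (t (g : S.Γ))) := by
      rw [hΦ, Matrix.mulVec_add, EvG_rV, Matrix.mulVec_mulVec, Matrix.mulVec_mulVec,
        ← finA_rM_mul, ← finA_rM_mul, inv_mul_cancel_right]
    rw [hΨ, hΨ, h1]
    exact EvGcC_block _ (A' g) (B (g : S.Γ)) (by rw [hA']; exact hblock _ g.2) _ _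
  -- the action
  have hS : SlAct (G := Γ') (fun g z => Ψ ((g : S.Γ) • Ψ.symm z)) A'
      (fun g => fun i => B (g : S.Γ) i 0)
      (fun g => fun i => (P.val.mulVec (t (g : S.Γ))) (finSumFinEquiv (Sum.inl i)))
      (fun g => (P.val.mulVec (t (g : S.Γ))) (finSumFinEquiv (Sum.inr (0 : Fin 1)))) := by
    refine ⟨?_, ?_, ?_, ?_, ?_⟩
    · intro g v p
      show Ψ ((g : S.Γ) • Ψ.symm (v, p)) = _
      rw [hact, Ψ.apply_symm_apply]
    · intro z
      show Ψ (((1 : Γ') : S.Γ) • Ψ.symm z) = z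
      rw [Subgroup.coe_one, one_smul, Ψ.apply_symm_apply]
    · intro g h z
      show Ψ (((g * h : Γ') : S.Γ) • Ψ.symm z) = Ψ ((g : S.Γ) • Ψ.symm (Ψ ((h : S.Γ) • Ψ.symm z)))
      rw [Ψ.symm_apply_apply, Subgroup.coe_mul, mul_smul]
    · intro g z hz
      have hz' : Ψ ((g : S.Γ) • Ψ.symm z) = z := hz
      have h1 : (g : S.Γ) • Ψ.symm z = Ψ.symm z := by
        apply Ψ.injective
        rw [hz', Ψ.apply_symm_apply]
      exact Subtype.ext (S.free _ _ h1)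
    · have := hΓ'
      obtain ⟨T, e, f, -, h2, -⟩ := S.exists_restrict Γ'
      obtain ⟨K, hK, hKx⟩ := T.cocompact
      refine ⟨Ψ '' (e '' K), (hK.image e.continuous).image Ψ.continuous, fun z => ?_⟩
      obtain ⟨γ, hγ⟩ := hKx (e.symm (Ψ.symm z))
      refine ⟨f γ, ?_⟩
      show Ψ ((f γ : S.Γ) • Ψ.symm z) ∈ Ψ '' (e '' K)
      refine ⟨_, ⟨_, hγ, ?_⟩, rfl⟩
      rw [h2, e.apply_symm_apply]
  obtain ⟨G', M, Θ, hG', hΘ⟩ := hS.torus
  refine EvG_finish S Γ' hΓ' G' hG' M (Ψ.trans Θ) fun x y => ?_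
  rw [Homeomorph.trans_apply, Homeomorph.trans_apply, ← hΘ]
  constructor
  · rintro ⟨g, hg, rfl⟩
    refine ⟨g, hg, ?_⟩
    show _ = Ψ ((g : S.Γ) • Ψ.symm (Ψ x))
    rw [Ψ.symm_apply_apply]
  · rintro ⟨g, hg, hgx⟩
    refine ⟨g, hg, ?_⟩
    have h1 : Ψ y = Ψ ((g : S.Γ) • Ψ.symm (Ψ x)) := hgx
    rw [Ψ.symm_apply_apply] at h1
    exact Ψ.injective h1

/-- PROOF: `finalU` with `m = 1`, `U = 1` gives `Φ`, `t`. Coordinates `(Fin (1 + 2) → ℝ) ≃ ℝ × (Fin 2 → ℝ)` after `P`; the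
group `Γ'` acts by an `FlAct` (properly discontinuous and cocompact: `Γ'` has finite index, `Φ` is a
homeomorphism); `FlAct.torus`, quotient homeomorphism as in EgQuot, `exists_group_law`. -/
theorem torusCover_vector (S : IntAffPair (1 + 2)) (Γ' : Subgroup S.Γ)
    (hΓ' : Γ'.FiniteIndex) (P : GL (Fin (1 + 2)) ℤ)
    (B : S.Γ → Matrix (Fin 1) (Fin 2) ℤ) (A : S.Γ → Matrix (Fin 2) (Fin 2) ℤ)
    (hblock : ∀ γ ∈ Γ', IsBlock (P * S.lin γ * P⁻¹) 1 (B γ) (A γ)) :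
    ∃ Γ'' : Subgroup S.Γ, Γ''.FiniteIndex ∧ ∃ M : GL (Fin 2) ℤ, S.TorusCover Γ'' M := by
  obtain ⟨Φ, t, hΦ⟩ := finalU 1 S Γ' hΓ' P (fun _ => 1) B A hblock (fun γ _ i j =>
    ⟨fun hij => by rw [hij, Matrix.one_apply_eq], fun hij => by
      rw [Subsingleton.elim i 0, Subsingleton.elim j 0] at hij
      exact absurd hij (lt_irrefl _)⟩)
  -- the linear parts
  obtain ⟨A', hA'⟩ := exists_block_hom' (m := 1) (S.lin.comp Γ'.subtype) P
    (fun _ : Γ' => 1) (fun g : Γ' => B (g : S.Γ)) (fun g : Γ' => A (g : S.Γ))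
    (fun g => hblock (g : S.Γ) g.2)
  -- the coordinates
  obtain ⟨Ψ, hΨ⟩ : ∃ Ψ : S.X ≃ₜ (ℝ × (Fin 2 → ℝ)), ∀ x, Ψ x = EvGvC ((rM P).mulVec (Φ x)) :=
    ⟨(Φ.trans (finA_L (1 + 2) P).toContinuousLinearEquiv.toHomeomorph).trans EvGvC, fun x => rfl⟩
  have hact : ∀ (g : Γ') (x : S.X), Ψ ((g : S.Γ) • x) =
      ((Ψ x).1 + ((B (g : S.Γ) 0 0 : ℝ) * (Ψ x).2 0 + (B (g : S.Γ) 0 1 : ℝ) * (Ψ x).2 1) +
        (((P.val.mulVec (t (g : S.Γ))) (finSumFinEquiv (Sum.inl (0 : Fin 1))) : ℤ) : ℝ),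
        (rM (A' g)).mulVec (Ψ x).2 +
          rV (fun i => (P.val.mulVec (t (g : S.Γ))) (finSumFinEquiv (Sum.inr i)))) := by
    intro g x
    have h1 : (rM P).mulVec (Φ ((g : S.Γ) • x)) =
        (rM (P * S.lin (g : S.Γ) * P⁻¹)).mulVec ((rM P).mulVec (Φ x)) +
          rV (P.val.mulVec (t (g : S.Γ))) := by
      rw [hΦ, Matrix.mulVec_add, EvG_rV, Matrix.mulVec_mulVec, Matrix.mulVec_mulVec,
        ← finA_rM_mul, ← finA_rM_mul, inv_mul_cancel_right]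
    rw [hΨ, hΨ, h1]
    exact EvGvC_block _ (A' g) (B (g : S.Γ)) (by rw [hA']; exact hblock _ g.2) _ _
  -- the action
  have hcont : ∀ g : Γ', Continuous fun z : ℝ × (Fin 2 → ℝ) => Ψ ((g : S.Γ) • Ψ.symm z) :=
    fun g => Ψ.continuous.comp ((continuous_const_smul (g : S.Γ)).comp Ψ.symm.continuous)
  have hS : FlAct (G := Γ') (fun g z => Ψ ((g : S.Γ) • Ψ.symm z)) A'
      (fun g => fun i => B (g : S.Γ) 0 i)
      (fun g => (P.val.mulVec (t (g : S.Γ))) (finSumFinEquiv (Sum.inl (0 : Fin 1))))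
      (fun g => fun i => (P.val.mulVec (t (g : S.Γ))) (finSumFinEquiv (Sum.inr i))) := by
    refine ⟨?_, ⟨hcont, ?_, ?_, ?_, ?_⟩, ?_⟩
    · intro g x y
      show Ψ ((g : S.Γ) • Ψ.symm (x, y)) = _
      rw [hact, Ψ.apply_symm_apply]
    · intro z
      show Ψ (((1 : Γ') : S.Γ) • Ψ.symm z) = z
      rw [Subgroup.coe_one, one_smul, Ψ.apply_symm_apply]
    · intro g h z
      show Ψ (((g * h : Γ') : S.Γ) • Ψ.symm z) = Ψ ((g : S.Γ) • Ψ.symm (Ψ ((h : S.Γ) • Ψ.symm z)))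
      rw [Ψ.symm_apply_apply, Subgroup.coe_mul, mul_smul]
    · intro C hC
      have hK : IsCompact (Ψ.symm '' C) := hC.image Ψ.symm.continuous
      have h1 := S.pd.finite_disjoint_inter_image hK hK
      refine (h1.preimage (Subtype.coe_injective (p := fun γ => γ ∈ Γ')).injOn).subset ?_
      rintro g ⟨w, ⟨z, hz, hzw⟩, hw⟩
      have hzw' : Ψ ((g : S.Γ) • Ψ.symm z) = w := hzw
      refine ⟨Ψ.symm w, ⟨Ψ.symm z, mem_image_of_mem _ hz, ?_⟩, mem_image_of_mem _ hw⟩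
      show (g : S.Γ) • Ψ.symm z = Ψ.symm w
      rw [← hzw', Ψ.symm_apply_apply]
    · have := hΓ'
      obtain ⟨T, e, f, -, h2, -⟩ := S.exists_restrict Γ'
      obtain ⟨K, hK, hKx⟩ := T.cocompact
      refine ⟨Ψ '' (e '' K), (hK.image e.continuous).image Ψ.continuous, fun z => ?_⟩
      obtain ⟨γ, hγ⟩ := hKx (e.symm (Ψ.symm z))
      refine ⟨f γ, ?_⟩
      show Ψ ((f γ : S.Γ) • Ψ.symm z) ∈ Ψ '' (e '' K)
      refine ⟨_, ⟨_, hγ, ?_⟩, rfl⟩
      rw [h2, e.apply_symm_apply]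
    · intro g z hz
      have hz' : Ψ ((g : S.Γ) • Ψ.symm z) = z := hz
      have h1 : (g : S.Γ) • Ψ.symm z = Ψ.symm z := by
        apply Ψ.injective
        rw [hz', Ψ.apply_symm_apply]
      exact Subtype.ext (S.free _ _ h1)
  obtain ⟨G', M, Θ, hG', hΘ⟩ := hS.torus
  refine EvG_finish S Γ' hΓ' G' hG' M (Ψ.trans Θ) fun x y => ?_
  rw [Homeomorph.trans_apply, Homeomorph.trans_apply, ← hΘ]
  constructor
  · rintro ⟨g, hg, rfl⟩
    refine ⟨g, hg, ?_⟩
    show _ = Ψ ((g : S.Γ) • Ψ.symm (Ψ x))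
    rw [Ψ.symm_apply_apply]
  · rintro ⟨g, hg, hgx⟩
    refine ⟨g, hg, ?_⟩
    have h1 : Ψ y = Ψ ((g : S.Γ) • Ψ.symm (Ψ x)) := hgx
    rw [Ψ.symm_apply_apply] at h1
    exact Ψ.injective h1

private theorem EvGd_kernel {Γ : Type} [Group Γ] (Γ' : Subgroup Γ) (hΓ' : Γ'.FiniteIndex)
    (c : Γ → ℤ) (h1 : c 1 = 1) (hmul : ∀ γ ∈ Γ', ∀ γ' ∈ Γ', c (γ * γ') = c γ * c γ') :
    ∃ Γ'' : Subgroup Γ, Γ''.FiniteIndex ∧ ∀ γ ∈ Γ'', γ ∈ Γ' ∧ c γ = 1 := by
  let φ : Γ' →* ℤ :=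
    { toFun := fun γ => c γ
      map_one' := h1
      map_mul' := fun a b => hmul a a.2 b b.2 }
  refine ⟨φ.toHomUnits.ker.map Γ'.subtype, ?_, ?_⟩
  · constructor
    rw [Subgroup.index_map_subtype]
    exact mul_ne_zero Subgroup.FiniteIndex.index_ne_zero hΓ'.index_ne_zero
  · intro γ hγ
    obtain ⟨g, hg, rfl⟩ := Subgroup.mem_map.1 hγ
    refine ⟨g.2, ?_⟩
    have h2 : φ.toHomUnits g = 1 := hg
    have h3 := congrArg Units.val h2
    exact h3

private theorem EvGd_mul {k m : ℕ} {M M' : Matrix (Fin (k + m)) (Fin (k + m)) ℤ}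
    {A A' : Matrix (Fin k) (Fin k) ℤ} {B B' : Matrix (Fin k) (Fin m) ℤ}
    {D D' : Matrix (Fin m) (Fin m) ℤ}
    (h : M = Matrix.reindex finSumFinEquiv finSumFinEquiv (Matrix.fromBlocks A B 0 D))
    (h' : M' = Matrix.reindex finSumFinEquiv finSumFinEquiv (Matrix.fromBlocks A' B' 0 D')) :
    M * M' = Matrix.reindex finSumFinEquiv finSumFinEquiv
      (Matrix.fromBlocks (A * A') (A * B' + B * D') 0 (D * D')) := by
  rw [h, h', Matrix.reindex_apply, Matrix.reindex_apply, Matrix.reindex_apply,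
    Matrix.submatrix_mul_equiv, Matrix.fromBlocks_multiply]
  simp

private theorem EvGd_inl {k m : ℕ} {M : Matrix (Fin (k + m)) (Fin (k + m)) ℤ}
    {A : Matrix (Fin k) (Fin k) ℤ} {B : Matrix (Fin k) (Fin m) ℤ}
    {D : Matrix (Fin m) (Fin m) ℤ}
    (h : M = Matrix.reindex finSumFinEquiv finSumFinEquiv (Matrix.fromBlocks A B 0 D))
    (i j : Fin k) : M (finSumFinEquiv (Sum.inl i)) (finSumFinEquiv (Sum.inl j)) = A i j := by
  rw [h, Matrix.reindex_apply, Matrix.submatrix_apply, Equiv.symm_apply_apply,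
    Equiv.symm_apply_apply, Matrix.fromBlocks_apply₁₁]

private theorem EvGd_inr {k m : ℕ} {M : Matrix (Fin (k + m)) (Fin (k + m)) ℤ}
    {A : Matrix (Fin k) (Fin k) ℤ} {B : Matrix (Fin k) (Fin m) ℤ}
    {D : Matrix (Fin m) (Fin m) ℤ}
    (h : M = Matrix.reindex finSumFinEquiv finSumFinEquiv (Matrix.fromBlocks A B 0 D))
    (i j : Fin m) : M (finSumFinEquiv (Sum.inr i)) (finSumFinEquiv (Sum.inr j)) = D i j := by
  rw [h, Matrix.reindex_apply, Matrix.submatrix_apply, Equiv.symm_apply_apply,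
    Equiv.symm_apply_apply, Matrix.fromBlocks_apply₂₂]

private theorem EvGd_conj {n : ℕ} {Γ : Type} [Group Γ] (lin : Γ →* GL (Fin n) ℤ)
    (P : GL (Fin n) ℤ) (γ γ' : Γ) :
    (P * lin (γ * γ') * P⁻¹).val = (P * lin γ * P⁻¹).val * (P * lin γ' * P⁻¹).val := by
  rw [← Units.val_mul, map_mul]
  congr 1
  group

private theorem EvGd_caseA (S : IntAffPair (2 + 1)) (Γ' : Subgroup S.Γ) (hΓ' : Γ'.FiniteIndex)
    (P : GL (Fin (2 + 1)) ℤ)
    (h : ∀ γ ∈ Γ', ∃ (A : Matrix (Fin 2) (Fin 2) ℤ) (B : Matrix (Fin 2) (Fin 1) ℤ)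
        (d : Matrix (Fin 1) (Fin 1) ℤ), (P * S.lin γ * P⁻¹).val =
          Matrix.reindex finSumFinEquiv finSumFinEquiv (Matrix.fromBlocks A B 0 d)) :
    ∃ Γ'' : Subgroup S.Γ, Γ''.FiniteIndex ∧ ∃ M : GL (Fin 2) ℤ, S.TorusCover Γ'' M := by
  classical
  obtain ⟨Γ'', h1, h2⟩ := EvGd_kernel Γ' hΓ'
    (fun γ => (P * S.lin γ * P⁻¹).val (finSumFinEquiv (Sum.inr 0)) (finSumFinEquiv (Sum.inr 0)))
    (by
      show (P * S.lin 1 * P⁻¹).val _ _ = 1
      rw [map_one, mul_one, mul_inv_cancel, Units.val_one, Matrix.one_apply_eq])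
    (by
      intro γ hγ γ' hγ'
      obtain ⟨A, B, d, e⟩ := h γ hγ
      obtain ⟨A', B', d', e'⟩ := h γ' hγ'
      show (P * S.lin (γ * γ') * P⁻¹).val _ _ = (P * S.lin γ * P⁻¹).val _ _ *
        (P * S.lin γ' * P⁻¹).val _ _
      rw [EvGd_conj, EvGd_inr (EvGd_mul e e'), EvGd_inr e, EvGd_inr e', Matrix.mul_apply,
        Fin.sum_univ_one])
  choose! A B d hAB using h
  refine torusCover_covector S Γ'' h1 P A B (fun γ hγ => ?_)
  obtain ⟨h3, h4⟩ := h2 γ hγ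
  have h5 := hAB γ h3
  have h6 : d γ = 1 := by
    ext i j
    rw [Subsingleton.elim i 0, Subsingleton.elim j 0, ← EvGd_inr h5 0 0, Matrix.one_apply_eq]
    exact h4
  unfold IsBlock
  rw [h5, h6]

private theorem EvGd_caseB (S : IntAffPair (1 + 2)) (Γ' : Subgroup S.Γ) (hΓ' : Γ'.FiniteIndex)
    (P : GL (Fin (1 + 2)) ℤ)
    (h : ∀ γ ∈ Γ', ∃ (d : Matrix (Fin 1) (Fin 1) ℤ) (B : Matrix (Fin 1) (Fin 2) ℤ)
        (A : Matrix (Fin 2) (Fin 2) ℤ), (P * S.lin γ * P⁻¹).val =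
          Matrix.reindex finSumFinEquiv finSumFinEquiv (Matrix.fromBlocks d B 0 A)) :
    ∃ Γ'' : Subgroup S.Γ, Γ''.FiniteIndex ∧ ∃ M : GL (Fin 2) ℤ, S.TorusCover Γ'' M := by
  classical
  obtain ⟨Γ'', h1, h2⟩ := EvGd_kernel Γ' hΓ'
    (fun γ => (P * S.lin γ * P⁻¹).val (finSumFinEquiv (Sum.inl 0)) (finSumFinEquiv (Sum.inl 0)))
    (by
      show (P * S.lin 1 * P⁻¹).val _ _ = 1
      rw [map_one, mul_one, mul_inv_cancel, Units.val_one, Matrix.one_apply_eq])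
    (by
      intro γ hγ γ' hγ'
      obtain ⟨A, B, d, e⟩ := h γ hγ
      obtain ⟨A', B', d', e'⟩ := h γ' hγ'
      show (P * S.lin (γ * γ') * P⁻¹).val _ _ = (P * S.lin γ * P⁻¹).val _ _ *
        (P * S.lin γ' * P⁻¹).val _ _
      rw [EvGd_conj, EvGd_inl (EvGd_mul e e'), EvGd_inl e, EvGd_inl e', Matrix.mul_apply,
        Fin.sum_univ_one])
  choose! d B A hAB using h
  refine torusCover_vector S Γ'' h1 P B A (fun γ hγ => ?_)
  obtain ⟨h3, h4⟩ := h2 γ hγ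
  have h5 := hAB γ h3
  have h6 : d γ = 1 := by
    ext i j
    rw [Subsingleton.elim i 0, Subsingleton.elim j 0, ← EvGd_inl h5 0 0, Matrix.one_apply_eq]
    exact h4
  unfold IsBlock
  rw [h5, h6]

/-- PROOF: as `final3` in FnC (`exists_block_three`, sign subgroup), with the two theorems above. -/
theorem torusCover3 (S : IntAffPair 3) (Γ' : Subgroup S.Γ) (hΓ' : Γ'.FiniteIndex)
    (V : Submodule ℚ (Fin 3 → ℚ)) (h0 : V ≠ ⊥) (h1 : V ≠ ⊤) (hinv : S.Preserves Γ' V) :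
    ∃ Γ'' : Subgroup S.Γ, Γ''.FiniteIndex ∧ ∃ M : GL (Fin 2) ℤ, S.TorusCover Γ'' M := by
  have hG : ∀ g ∈ Γ'.map S.lin, ∀ v ∈ V,
      (g.val.map (fun a : ℤ => (a : ℚ))).mulVec v ∈ V := by
    rintro g hg v hv
    obtain ⟨γ, hγ, rfl⟩ := Subgroup.mem_map.1 hg
    exact hinv γ hγ v hv
  rcases exists_block_three (Γ'.map S.lin) V h0 h1 hG with ⟨P, hP⟩ | ⟨P, hP⟩
  · exact EvGd_caseA S Γ' hΓ' P fun γ hγ => hP (S.lin γ) (Subgroup.mem_map.2 ⟨γ, hγ, rfl⟩)
  · exact EvGd_caseB S Γ' hΓ' P fun γ hγ => hP (S.lin γ) (Subgroup.mem_map.2 ⟨γ, hγ, rfl⟩)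

end H83T
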