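import Pool.Agent.H.MP_7a8a58_gt.h83c.PlSlope
import Pool.Agent.H.MP_7a8a58_gt.h83.FinA

/-!
MP_7a8a58_gt, helper83, third part.  Developing pairs on `W × ℝ²` with complete `W`-directions and
linear parts `(w, v) ↦ (…, A v)`, `A ∈ GL₂(ℤ)`.
Paper proof: /team-store/h83_7a8a58_T4.md
-/

set_option autoImplicit false

open Set Metric Topology Filter

namespace H83T

/-- The area form of `ℝ²`. -/
def om (v w : Fin 2 → ℝ) : ℝ := v 0 * w 1 - v 1 * w 0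

/-- The norm of `v` in the chart of `γ`. -/
noncomputable def N2 {Γ : Type*} [Group Γ] (A : Γ →* GL (Fin 2) ℤ) (γ : Γ) (v : Fin 2 → ℝ) : ℝ :=
  ‖(rM (A γ⁻¹)).mulVec v‖

/-- Comparability of charts. -/
def Cmp {Γ : Type*} [Group Γ] (A : Γ →* GL (Fin 2) ℤ) (C : ℝ) (γ γ' : Γ) : Prop :=
  ∀ z : Fin 2 → ℝ, N2 A γ' z ≤ C * N2 A γ z ∧ N2 A γ z ≤ C * N2 A γ' z

/-- `γ` is valid at some point of the `W`-orbit of `x`. -/
def VW {W : Type*} [NormedAddCommGroup W] [NormedSpace ℝ W] {X : Type*} [TopologicalSpace X]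
    {Γ : Type*} [Group Γ] [MulAction Γ X] (D : X → W × (Fin 2 → ℝ)) (K : Set X) (x : X)
    (γ : Γ) : Prop := ∃ w : W, Val K (ex D x (w, 0)) γ

structure FlSys {W : Type*} [NormedAddCommGroup W] [NormedSpace ℝ W] {X : Type*}
    [TopologicalSpace X] [T2Space X] {Γ : Type*} [Group Γ] [MulAction Γ X]
    (D : X → W × (Fin 2 → ℝ))
    (L : Γ →* ((W × (Fin 2 → ℝ)) ≃ₗ[ℝ] (W × (Fin 2 → ℝ)))) (b : Γ → W × (Fin 2 → ℝ))
    (A : Γ →* GL (Fin 2) ℤ) (K : Set X) (ε C : ℝ) : Prop where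
  af : AfSys D L b K ε
  snd : ∀ (γ : Γ) (z : W × (Fin 2 → ℝ)), (L γ z).2 = (rM (A γ)).mulVec z.2
  one_le : 1 ≤ C
  comp : ∀ (x : X) (γ : Γ) (w : W × (Fin 2 → ℝ)) (γ' : Γ), Val K x γ → Nm L γ w ≤ ε →
    Val K (ex D x w) γ' → ∀ z, Nm L γ' z ≤ C * Nm L γ z ∧ Nm L γ z ≤ C * Nm L γ' z
  hW : ∀ w : W, ((w, 0) : W × (Fin 2 → ℝ)) ∈ Ec D af.hD

section norm

variable {Γ : Type*} [Group Γ]

theorem om_par (v w z : Fin 2 → ℝ) : om v w • z = om z w • v + om v z • w := by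
  funext i
  fin_cases i <;> simp [om] <;> ring

theorem N2_nonneg (A : Γ →* GL (Fin 2) ℤ) (γ : Γ) (v : Fin 2 → ℝ) : 0 ≤ N2 A γ v :=
  norm_nonneg _

theorem N2_smul (A : Γ →* GL (Fin 2) ℤ) (γ : Γ) (t : ℝ) (v : Fin 2 → ℝ) :
    N2 A γ (t • v) = |t| * N2 A γ v := by
  unfold N2
  rw [Matrix.mulVec_smul, norm_smul, Real.norm_eq_abs]

theorem N2_add_le (A : Γ →* GL (Fin 2) ℤ) (γ : Γ) (v w : Fin 2 → ℝ) :
    N2 A γ (v + w) ≤ N2 A γ v + N2 A γ w := by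
  unfold N2
  rw [Matrix.mulVec_add]
  exact norm_add_le _ _

private theorem FlA_cancel (A : Γ →* GL (Fin 2) ℤ) (γ : Γ) (v : Fin 2 → ℝ) :
    (rM (A γ)).mulVec ((rM (A γ⁻¹)).mulVec v) = v := by
  rw [Matrix.mulVec_mulVec, ← finA_rM_mul, ← map_mul, mul_inv_cancel, map_one, finA_rM_one,
    Matrix.one_mulVec]

theorem N2_pos (A : Γ →* GL (Fin 2) ℤ) (γ : Γ) {v : Fin 2 → ℝ} (hv : v ≠ 0) : 0 < N2 A γ v := by
  unfold N2
  rw [norm_pos_iff]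
  intro h
  apply hv
  have h1 := FlA_cancel A γ v
  rw [h, Matrix.mulVec_zero] at h1
  exact h1.symm

/-- Thickness. PROOF: `A γ⁻¹ q` is a nonzero integral vector. -/
theorem one_le_N2 (A : Γ →* GL (Fin 2) ℤ) (γ : Γ) {q : Fin 2 → ℤ} (hq : q ≠ 0) :
    1 ≤ N2 A γ (rV q) := by
  have h1 : (rM (A γ⁻¹)).mulVec (rV q) =
      rV ((A γ⁻¹ : Matrix (Fin 2) (Fin 2) ℤ).mulVec q) := by
    funext i
    simp only [Matrix.mulVec, dotProduct, rM, rV, Matrix.map_apply, Int.cast_sum, Int.cast_mul]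
  have h2 : rV ((A γ⁻¹ : Matrix (Fin 2) (Fin 2) ℤ).mulVec q) ≠ 0 := by
    rw [← h1]
    have h3 : rV q ≠ 0 := by
      intro h
      apply hq
      funext i
      have := congrFun h i
      simpa [rV] using this
    have h4 := N2_pos A γ h3
    unfold N2 at h4
    exact norm_pos_iff.mp h4
  obtain ⟨i, hi⟩ := Function.ne_iff.mp h2
  unfold N2
  rw [h1]
  refine le_trans ?_ (norm_le_pi_norm _ i)
  rw [Real.norm_eq_abs]
  simp only [rV, Pi.zero_apply, ne_eq, Int.cast_eq_zero] at hi ⊢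
  rw [← Int.cast_abs]
  exact_mod_cast Int.one_le_abs hi

/-- PROOF: `|om (M v) (M w)| = |om v w|` for an integral matrix `M` of determinant `± 1`, and
`|om v w| ≤ 2 ‖v‖ ‖w‖`. -/
theorem abs_om_le (A : Γ →* GL (Fin 2) ℤ) (γ : Γ) (v w : Fin 2 → ℝ) :
    |om v w| ≤ 2 * N2 A γ v * N2 A γ w := by
  have hdet : |(rM (A γ⁻¹)).det| = 1 := by
    have h1 : (rM (A γ⁻¹)).det = (((A γ⁻¹ : Matrix (Fin 2) (Fin 2) ℤ).det : ℤ) : ℝ) := by
      rw [Matrix.det_fin_two, Matrix.det_fin_two]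
      simp [rM]
    have h2 : IsUnit (A γ⁻¹ : Matrix (Fin 2) (Fin 2) ℤ).det :=
      (Matrix.isUnit_iff_isUnit_det _).mp (A γ⁻¹).isUnit
    rw [h1, ← Int.cast_abs, Int.isUnit_iff_abs_eq.mp h2, Int.cast_one]
  have hom : om ((rM (A γ⁻¹)).mulVec v) ((rM (A γ⁻¹)).mulVec w) =
      (rM (A γ⁻¹)).det * om v w := by
    rw [Matrix.det_fin_two]
    simp only [om, Matrix.mulVec, dotProduct, Fin.sum_univ_two]
    ring
  have h3 : |om v w| = |om ((rM (A γ⁻¹)).mulVec v) ((rM (A γ⁻¹)).mulVec w)| := by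
    rw [hom, abs_mul, hdet, one_mul]
  rw [h3]
  unfold N2
  generalize (rM (A γ⁻¹)).mulVec v = a
  generalize (rM (A γ⁻¹)).mulVec w = c
  have ha0 := norm_le_pi_norm a 0
  have ha1 := norm_le_pi_norm a 1
  have hc0 := norm_le_pi_norm c 0
  have hc1 := norm_le_pi_norm c 1
  rw [Real.norm_eq_abs] at ha0 ha1 hc0 hc1
  unfold om
  calc |a 0 * c 1 - a 1 * c 0| ≤ |a 0 * c 1| + |a 1 * c 0| := abs_sub _ _
    _ = |a 0| * |c 1| + |a 1| * |c 0| := by rw [abs_mul, abs_mul]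
    _ ≤ ‖a‖ * ‖c‖ + ‖a‖ * ‖c‖ := by gcongr
    _ = 2 * ‖a‖ * ‖c‖ := by ring

theorem Cmp.symm {A : Γ →* GL (Fin 2) ℤ} {C : ℝ} {γ γ' : Γ} (h : Cmp A C γ γ') :
    Cmp A C γ' γ := fun z => ⟨(h z).2, (h z).1⟩

end norm

variable {W : Type*} [NormedAddCommGroup W] [NormedSpace ℝ W] [FiniteDimensional ℝ W]
variable {X : Type*} [TopologicalSpace X] [T2Space X]
variable {Γ : Type*} [Group Γ] [MulAction Γ X] [ContinuousConstSMul Γ X]
  [ProperlyDiscontinuousSMul Γ X]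
variable {D : X → W × (Fin 2 → ℝ)}
  {L : Γ →* ((W × (Fin 2 → ℝ)) ≃ₗ[ℝ] (W × (Fin 2 → ℝ)))} {b : Γ → W × (Fin 2 → ℝ)}
  {A : Γ →* GL (Fin 2) ℤ} {K : Set X} {ε C : ℝ}

/-- PROOF: `exists_val` at `x = ex D x 0`. -/
theorem FlSys.exists_vw (S : FlSys D L b A K ε C) (x : X) : ∃ γ : Γ, VW D K x γ := by
  obtain ⟨γ, hγ⟩ := S.af.exists_val (ex D x ((0 : W), 0))
  exact ⟨γ, 0, hγ⟩

/-- the vector with second component `v` that is short in the chart of `γ` -/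
private noncomputable def FlA_z (L : Γ →* ((W × (Fin 2 → ℝ)) ≃ₗ[ℝ] (W × (Fin 2 → ℝ))))
    (A : Γ →* GL (Fin 2) ℤ) (γ : Γ) (v : Fin 2 → ℝ) : W × (Fin 2 → ℝ) :=
  L γ (0, (rM (A γ⁻¹)).mulVec v)

private theorem FlA_z_snd (S : FlSys D L b A K ε C) (γ : Γ) (v : Fin 2 → ℝ) :
    (FlA_z L A γ v).2 = v := by
  unfold FlA_z
  rw [S.snd, FlA_cancel]

private theorem FlA_Nm_z (γ : Γ) (v : Fin 2 → ℝ) :
    Nm L γ (FlA_z L A γ v) = N2 A γ v := by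
  unfold FlA_z Nm N2
  have h : L γ⁻¹ (L γ ((0 : W), (rM (A γ⁻¹)).mulVec v)) = (0, (rM (A γ⁻¹)).mulVec v) := by
    rw [← LinearEquiv.mul_apply, ← map_mul, inv_mul_cancel, map_one]
    rfl
  rw [h, Prod.norm_def]
  simp

private theorem FlA_N2_le (S : FlSys D L b A K ε C) (γ : Γ) (z : W × (Fin 2 → ℝ)) :
    N2 A γ z.2 ≤ Nm L γ z := by
  unfold N2 Nm
  rw [← S.snd]
  exact norm_snd_le _

private theorem FlA_cmp (S : FlSys D L b A K ε C) {γ γ' : Γ}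
    (h : ∀ z, Nm L γ' z ≤ C * Nm L γ z ∧ Nm L γ z ≤ C * Nm L γ' z) : Cmp A C γ γ' := by
  intro ζ
  constructor
  · have h1 := FlA_N2_le S γ' (FlA_z L A γ ζ)
    rw [FlA_z_snd S] at h1
    refine h1.trans ?_
    rw [← FlA_Nm_z (L := L) (A := A) γ ζ]
    exact (h _).1
  · have h1 := FlA_N2_le S γ (FlA_z L A γ' ζ)
    rw [FlA_z_snd S] at h1
    refine h1.trans ?_
    rw [← FlA_Nm_z (L := L) (A := A) γ' ζ]
    exact (h _).2

/-- PROOF: `γ` valid at `y = ex D x (w, 0)`; `z = L γ (0, A γ⁻¹ v) = (w', v)` has `Nm L γ z = N2 A γ v ≤ ε`, so `z ∈ Dom D y`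
(`chart_val`), `Dom D y = Dom D x` (`dom_ex`, `hW`), and `(0, v) = z + (-w', 0)` (`add_dom_iff`). -/
theorem FlSys.chart (S : FlSys D L b A K ε C) {x : X} {γ : Γ} (hγ : VW D K x γ)
    {v : Fin 2 → ℝ} (hv : N2 A γ v ≤ ε) : ((0, v) : W × (Fin 2 → ℝ)) ∈ Dom D x := by
  obtain ⟨w, hw⟩ := hγ
  have h1 : FlA_z L A γ v ∈ Dom D (ex D x (w, 0)) :=
    S.af.chart_val hw (by rw [FlA_Nm_z]; exact hv)
  rw [dom_ex S.af.hD (S.hW w)] at h1
  have h2 : ((0, v) : W × (Fin 2 → ℝ)) = FlA_z L A γ v + (-(FlA_z L A γ v).1, 0) := by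
    ext1
    · simp
    · simp [FlA_z_snd S]
  rw [h2]
  exact (add_dom_iff S.af.hD (S.hW _)).mpr h1

/-- PROOF: with `y`, `z` as in `chart` let `γ'` be valid at `y' = ex D y z` (`exists_val`).
`y' = ex D (ex D x (0, v)) (w + w', 0)` (`add_dom`, `add_dom'`). For `ζ ∈ ℝ²`: `N2 A γ' ζ ≤ Nm L γ' (L γ (0, A γ⁻¹ ζ))` (second
component of `L γ'⁻¹`, sup norm on the product) `≤ C * Nm L γ (L γ (0, A γ⁻¹ ζ)) = C * N2 A γ ζ`; symmetrically. -/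
theorem FlSys.comp2 (S : FlSys D L b A K ε C) {x : X} {γ : Γ} (hγ : VW D K x γ)
    {v : Fin 2 → ℝ} (hv : N2 A γ v ≤ ε) :
    ∃ γ' : Γ, VW D K (ex D x ((0, v) : W × (Fin 2 → ℝ))) γ' ∧ Cmp A C γ γ' := by
  have h0 := S.chart hγ hv
  obtain ⟨w, hw⟩ := hγ
  have hNm : Nm L γ (FlA_z L A γ v) ≤ ε := by rw [FlA_Nm_z]; exact hv
  obtain ⟨γ', hγ'⟩ := S.af.exists_val (ex D (ex D x (w, 0)) (FlA_z L A γ v))
  refine ⟨γ', ⟨w + (FlA_z L A γ v).1, ?_⟩, FlA_cmp S (S.comp _ γ _ γ' hw hNm hγ')⟩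
  have h1 : FlA_z L A γ v ∈ Dom D (ex D x (w, 0)) := S.af.chart_val hw hNm
  rw [dom_ex S.af.hD (S.hW w)] at h1
  have h2 := (add_dom' S.af.hD (S.hW w) h1).2
  have h3 : FlA_z L A γ v + ((w, 0) : W × (Fin 2 → ℝ)) =
      (0, v) + (w + (FlA_z L A γ v).1, 0) := by
    ext1
    · simp [add_comm]
    · simp [FlA_z_snd S]
  rw [h3] at h2
  rw [h2, (add_dom S.af.hD (S.hW _) h0).2] at hγ'
  exact hγ'

/-- Connectedness of the `W`-orbit.
PROOF: for `w : W` let `G w = {γ | Val K (ex D x (w, 0)) γ}`, not empty. If `γ ∈ G w` and `Nm L γ (w' - w, 0) ≤ ε` then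
every `γ' ∈ G w'` satisfies `Cmp A C γ γ'` (`comp`, as in `comp2`; `ex D (ex D x (w, 0)) (w' - w, 0) = ex D x (w', 0)`).
So `{w | ∃ γ ∈ G w, P γ} = {w | ∀ γ ∈ G w, P γ}` is open and closed in the connected space `W`. -/
theorem FlSys.conn (S : FlSys D L b A K ε C) {x : X} (P : Γ → Prop)
    (hP : ∀ γ γ' : Γ, VW D K x γ → VW D K x γ' → Cmp A C γ γ' → P γ → P γ') :
    ∀ γ γ' : Γ, VW D K x γ → VW D K x γ' → P γ → P γ' := by
  have hcont : ∀ (γ : Γ) (w : W), ∀ᶠ w' in 𝓝 w,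
      Nm L γ ((w' - w, 0) : W × (Fin 2 → ℝ)) ≤ ε := by
    intro γ w
    have h1 : Continuous fun w' : W => Nm L γ ((w' - w, 0) : W × (Fin 2 → ℝ)) := by
      unfold Nm
      have h2 : Continuous (L γ⁻¹) :=
        LinearMap.continuous_of_finiteDimensional
          ((L γ⁻¹ : (W × (Fin 2 → ℝ)) ≃ₗ[ℝ] (W × (Fin 2 → ℝ))) :
            (W × (Fin 2 → ℝ)) →ₗ[ℝ] (W × (Fin 2 → ℝ)))
      exact (h2.comp (by fun_prop)).norm
    have h3 : Nm L γ ((w - w, 0) : W × (Fin 2 → ℝ)) = 0 := by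
      unfold Nm
      rw [sub_self]
      have : ((0, 0) : W × (Fin 2 → ℝ)) = 0 := rfl
      rw [this, map_zero, norm_zero]
    have h4 := h1.tendsto w
    rw [h3] at h4
    exact (h4.eventually (gt_mem_nhds S.af.ε_pos)).mono fun w' hw' => le_of_lt hw'
  have hstep : ∀ (w : W) (γ : Γ), Val K (ex D x (w, 0)) γ → ∀ᶠ w' in 𝓝 w,
      ∀ γ' : Γ, Val K (ex D x (w', 0)) γ' → Cmp A C γ γ' := by
    intro w γ hγ
    filter_upwards [hcont γ w] with w' hw' γ' hγ'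
    refine FlA_cmp S (S.comp _ γ _ γ' hγ hw' ?_)
    have h1 : ((w' - w, 0) : W × (Fin 2 → ℝ)) ∈ Dom D x := by
      have := S.hW (w' - w) x 1
      rwa [one_smul] at this
    have h2 := (add_dom' S.af.hD (S.hW w) h1).2
    have h3 : ((w' - w, 0) : W × (Fin 2 → ℝ)) + (w, 0) = (w', 0) := by
      ext1 <;> simp
    rw [h3] at h2
    rw [h2]
    exact hγ'
  have hR : ∀ w w' : W, (∀ γ : Γ, Val K (ex D x (w, 0)) γ → P γ) →
      (∀ γ : Γ, Val K (ex D x (w', 0)) γ → P γ) := by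
    intro w w'
    refine isPreconnected_univ.induction₂' (α := W) (fun w w' =>
      ((∀ γ : Γ, Val K (ex D x (w, 0)) γ → P γ) →
      (∀ γ : Γ, Val K (ex D x (w', 0)) γ → P γ))) ?_ ?_ (mem_univ w) (mem_univ w')
    · intro w _
      rw [nhdsWithin_univ]
      obtain ⟨γ, hγ⟩ := S.af.exists_val (ex D x (w, 0))
      have hself := (hstep w γ hγ).self_of_nhds
      filter_upwards [hstep w γ hγ] with w' hw'
      constructor
      · intro h γ' hγ'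
        exact hP γ γ' ⟨w, hγ⟩ ⟨w', hγ'⟩ (hw' γ' hγ') (h γ hγ)
      · intro h γ₁ hγ₁
        obtain ⟨γ', hγ'⟩ := S.af.exists_val (ex D x (w', 0))
        have h1 : P γ := hP γ' γ ⟨w', hγ'⟩ ⟨w, hγ⟩ (hw' γ' hγ').symm (h γ' hγ')
        exact hP γ γ₁ ⟨w, hγ⟩ ⟨w, hγ₁⟩ (hself γ₁ hγ₁) h1
    · intro a b c _ _ _ h1 h2 h
      exact h2 (h1 h)
  rintro γ γ' ⟨w, hw⟩ ⟨w', hw'⟩ hPγ
  refine hR w w' (fun γ₁ hγ₁ => ?_) γ' hw'
  exact hP γ γ₁ ⟨w, hw⟩ ⟨w, hγ₁⟩ ((hstep w γ hw).self_of_nhds γ₁ hγ₁) hPγ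

theorem FlSys.gap' (S : FlSys D L b A K ε C) {x : X} {μ : Fin 2 → ℝ}
    (hμ : ((0, μ) : W × (Fin 2 → ℝ)) ∉ Dom D x) {γ : Γ} (hγ : VW D K x γ) :
    ε < N2 A γ μ := by
  by_contra h
  exact hμ (S.chart hγ (not_lt.1 h))

/-- PROOF: `chart` at `ex D x (0, t • v)` and `collinear` (as `PlSys.gap`). -/
theorem FlSys.gap (S : FlSys D L b A K ε C) {x : X} {v : Fin 2 → ℝ}
    (h : Fm D x ((0, v) : W × (Fin 2 → ℝ))) {t : ℝ} (ht : t ∈ Ico (0 : ℝ) 1) {γ : Γ}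
    (hγ : VW D K (ex D x ((0, t • v) : W × (Fin 2 → ℝ))) γ) : ε < (1 - t) * N2 A γ v := by
  by_contra hcon
  push Not at hcon
  have h1 : N2 A γ ((1 - t) • v) ≤ ε := by
    rw [N2_smul, abs_of_pos (by linarith [ht.2])]
    exact hcon
  have h2 := S.chart hγ h1
  have e1 : ((0, t • v) : W × (Fin 2 → ℝ)) = t • ((0, v) : W × (Fin 2 → ℝ)) := by
    rw [Prod.smul_mk, smul_zero]
  have e2 : ((0, (1 - t) • v) : W × (Fin 2 → ℝ)) = (1 - t) • ((0, v) : W × (Fin 2 → ℝ)) := by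
    rw [Prod.smul_mk, smul_zero]
  rw [e1, e2] at h2
  rcases eq_or_lt_of_le ht.1 with h0 | h0
  · rw [← h0, zero_smul, ex_zero S.af.hD, sub_zero, one_smul] at h2
    exact h.miss h2
  · have h3 : ((1 - t) / t) • (t • ((0, v) : W × (Fin 2 → ℝ))) ∈
        Dom D (ex D x (t • ((0, v) : W × (Fin 2 → ℝ)))) := by
      rw [smul_smul, div_mul_cancel₀ _ h0.ne']
      exact h2
    have h4 := (collinear S.af.hD (r := (1 - t) / t)
      (div_nonneg (by linarith [ht.2]) h0.le) (h.dom t ht) h3).1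
    have h5 : (1 + (1 - t) / t) * t = 1 := by
      rw [add_mul, div_mul_cancel₀ _ h0.ne']
      ring
    rw [smul_smul, h5, one_smul] at h4
    exact h.miss h4

/-- Properties that are preserved by small steps are constant along the ray.
PROOF: for a fixed `t` use `conn`. `T = {t ∈ I | ∃ γ valid, P t γ} = {t ∈ I | ∀ γ valid, P t γ}`; for `t ∈ I`, `γ` valid at
`t` and `t₂ ∈ I` with `|t₂ - t| * C * N2 A γ v ≤ δ` there is a valid `γ₂` at `t₂` with `Cmp A C γ γ₂` (`comp2` and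
`Fm.ex_ex`), so `P t γ ↔ P t₂ γ₂`. So `T` and its complement are open in `I`, and `I` is connected
(`OrdConnected`, `isPreconnected`). -/
theorem FlSys.ray_const (S : FlSys D L b A K ε C) {x : X} {v : Fin 2 → ℝ}
    (h : Fm D x ((0, v) : W × (Fin 2 → ℝ))) {I : Set ℝ} (hI : I.OrdConnected)
    (hI1 : I ⊆ Ico (0 : ℝ) 1) {δ : ℝ} (hδ : 0 < δ) (hδε : δ ≤ ε) (P : ℝ → Γ → Prop)
    (hP : ∀ t ∈ I, ∀ t₂ ∈ I, ∀ γ γ₂ : Γ, VW D K (ex D x ((0, t • v) : W × (Fin 2 → ℝ))) γ →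
      VW D K (ex D x ((0, t₂ • v) : W × (Fin 2 → ℝ))) γ₂ → Cmp A C γ γ₂ →
      |t₂ - t| * N2 A γ v ≤ δ → P t γ → P t₂ γ₂) :
    ∀ t ∈ I, ∀ t' ∈ I, ∀ γ γ' : Γ, VW D K (ex D x ((0, t • v) : W × (Fin 2 → ℝ))) γ →
      VW D K (ex D x ((0, t' • v) : W × (Fin 2 → ℝ))) γ' → P t γ → P t' γ' := by
  have hv0 : v ≠ 0 := by
    rintro rfl
    exact h.ne_zero rfl
  have hC := S.one_le
  -- constancy at a fixed parameter
  have hfix : ∀ t ∈ I, ∀ γ γ' : Γ, VW D K (ex D x ((0, t • v) : W × (Fin 2 → ℝ))) γ →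
      VW D K (ex D x ((0, t • v) : W × (Fin 2 → ℝ))) γ' → P t γ → P t γ' := by
    intro t ht
    refine S.conn (P t) ?_
    intro γ γ' hγ hγ' hc hPγ
    exact hP t ht t ht γ γ' hγ hγ' hc (by rw [sub_self, abs_zero, zero_mul]; exact hδ.le) hPγ
  have hR : ∀ t ∈ I, ∀ t' ∈ I,
      (∀ γ : Γ, VW D K (ex D x ((0, t • v) : W × (Fin 2 → ℝ))) γ → P t γ) →
      (∀ γ : Γ, VW D K (ex D x ((0, t' • v) : W × (Fin 2 → ℝ))) γ → P t' γ) := by
    intro t ht t' ht'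
    refine hI.isPreconnected.induction₂' (fun t t' =>
      (∀ γ : Γ, VW D K (ex D x ((0, t • v) : W × (Fin 2 → ℝ))) γ → P t γ) →
      (∀ γ : Γ, VW D K (ex D x ((0, t' • v) : W × (Fin 2 → ℝ))) γ → P t' γ)) ?_ ?_ ht ht'
    · intro t ht
      obtain ⟨γ, hγ⟩ := S.exists_vw (ex D x ((0, t • v) : W × (Fin 2 → ℝ)))
      have hN := N2_pos A γ hv0
      have hcont : Continuous fun t₂ : ℝ => |t₂ - t| * (C * N2 A γ v) := by fun_prop
      have hlim := hcont.tendsto t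
      rw [sub_self, abs_zero, zero_mul] at hlim
      have hev : ∀ᶠ t₂ in 𝓝[I] t, |t₂ - t| * (C * N2 A γ v) < δ :=
        (hlim.eventually (gt_mem_nhds hδ)).filter_mono nhdsWithin_le_nhds
      filter_upwards [hev, self_mem_nhdsWithin] with t₂ ht₂ ht₂I
      have h1 : |t₂ - t| * N2 A γ v ≤ δ := by
        refine le_trans ?_ ht₂.le
        have : N2 A γ v ≤ C * N2 A γ v := le_mul_of_one_le_left hN.le hC
        gcongr
      have h2 : N2 A γ ((t₂ - t) • v) ≤ ε := by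
        rw [N2_smul]
        exact h1.trans hδε
      obtain ⟨γ₂, hγ₂, hc⟩ := S.comp2 hγ h2
      have h3 := (Fm.ex_ex S.af.hD h (hI1 ht) (hI1 ht₂I)).2
      simp only [Prod.smul_mk, smul_zero] at h3
      rw [h3] at hγ₂
      have h4 : |t - t₂| * N2 A γ₂ v ≤ δ := by
        rw [abs_sub_comm]
        refine le_trans ?_ ht₂.le
        gcongr
        exact (hc v).1
      constructor
      · intro hall γ' hγ'
        exact hfix t₂ ht₂I γ₂ γ' hγ₂ hγ' (hP t ht t₂ ht₂I γ γ₂ hγ hγ₂ hc h1 (hall γ hγ))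
      · intro hall γ' hγ'
        exact hfix t ht γ γ' hγ hγ'
          (hP t₂ ht₂I t ht γ₂ γ hγ₂ hγ hc.symm h4 (hall γ₂ hγ₂))
    · intro a b c _ _ _ h1 h2 h
      exact h2 (h1 h)
  intro t ht t' ht' γ γ' hγ hγ' hPγ
  exact hR t ht t' ht' (fun γ₁ hγ₁ => hfix t ht γ γ₁ hγ hγ₁ hPγ) γ' hγ'

end H83T
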