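import Pool.Agent.H.MP_7a8a58_gt.h83c.FlA

/-!
MP_7a8a58_gt, helper83, third part.  Slopes and confinement by integral vectors.
Paper proof: /team-store/h83_7a8a58_T4.md
-/

set_option autoImplicit false

open Set Metric Topology Filter

namespace H83T

/-- `w` is a slope vector for `v` at `γ`. -/
def Sl {Γ : Type*} [Group Γ] (A : Γ →* GL (Fin 2) ℤ) (v : Fin 2 → ℝ) (γ : Γ)
    (w : Fin 2 → ℝ) : Prop := om v w = 1 ∧ N2 A γ v * N2 A γ w ≤ 1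

/-- The slope vectors of `γ` are on the positive side of the integral vector `q`. -/
def Up {Γ : Type*} [Group Γ] (A : Γ →* GL (Fin 2) ℤ) (v : Fin 2 → ℝ) (q : Fin 2 → ℤ)
    (γ : Γ) : Prop := ∃ w : Fin 2 → ℝ, Sl A v γ w ∧ 0 < om (rV q) w

section pure

variable {Γ : Type*} [Group Γ] {A : Γ →* GL (Fin 2) ℤ} {C : ℝ}

/-- PROOF: let `M = rM (A γ)`, `(α, β) = M⁻¹ v`; if `|β| ≤ |α|` take `w' = (0, 1 / α)`, otherwise `w' = (-1 / β, 0)`: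
`om (α, β) w' = 1`, `‖w'‖ = 1 / N2 A γ v`; `w = det M • M w'` (`om (M a) (M b) = det M * om a b`). -/
theorem exists_sl (A : Γ →* GL (Fin 2) ℤ) {v : Fin 2 → ℝ} (hv : v ≠ 0) (γ : Γ) :
    ∃ w : Fin 2 → ℝ, Sl A v γ w := by
  obtain ⟨M, hM⟩ : ∃ M : Matrix (Fin 2) (Fin 2) ℝ, M = rM (A γ⁻¹) := ⟨_, rfl⟩
  have hN : ∀ u, N2 A γ u = ‖M.mulVec u‖ := fun u => by rw [hM]; rfl
  have hmv : ∀ u i, M.mulVec u i = M i 0 * u 0 + M i 1 * u 1 := fun u i => by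
    simp [Matrix.mulVec, dotProduct, Fin.sum_univ_two]
  have hdet : |M 0 0 * M 1 1 - M 0 1 * M 1 0| = 1 := by
    have h1 := Int.units_eq_one_or (Matrix.GeneralLinearGroup.det (A γ⁻¹))
    have h2 : ((Matrix.GeneralLinearGroup.det (A γ⁻¹) : ℤˣ) : ℤ) =
        (A γ⁻¹ : Matrix (Fin 2) (Fin 2) ℤ) 0 0 * (A γ⁻¹ : Matrix (Fin 2) (Fin 2) ℤ) 1 1 -
        (A γ⁻¹ : Matrix (Fin 2) (Fin 2) ℤ) 0 1 * (A γ⁻¹ : Matrix (Fin 2) (Fin 2) ℤ) 1 0 :=
      Matrix.det_fin_two _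
    have h3 : M 0 0 * M 1 1 - M 0 1 * M 1 0 =
        (((Matrix.GeneralLinearGroup.det (A γ⁻¹) : ℤˣ) : ℤ) : ℝ) := by
      rw [h2, hM]
      push_cast
      rfl
    rw [h3]
    rcases h1 with h | h
    · rw [h]
      simp
    · rw [h]
      simp
  have hpos : 0 < ‖M.mulVec v‖ := by
    rw [← hN]
    exact N2_pos A γ hv
  have hnorm : ∀ (u : Fin 2 → ℝ) (r : ℝ), |u 0| ≤ r → |u 1| ≤ r → ‖u‖ ≤ r := by
    intro u r h0 h1
    refine (pi_norm_le_iff_of_nonneg ((abs_nonneg _).trans h0)).2 fun i => ?_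
    rw [Real.norm_eq_abs]
    fin_cases i
    · exact h0
    · exact h1
  rcases le_total |M.mulVec v 1| |M.mulVec v 0| with h | h
  · have h1 : ‖M.mulVec v‖ ≤ |M.mulVec v 0| := hnorm _ _ le_rfl h
    have h2 : 0 < |M.mulVec v 0| := lt_of_lt_of_le hpos h1
    have h3 : M.mulVec v 0 ≠ 0 := abs_pos.1 h2
    have h4 : ‖M.mulVec ![-M 0 1 / M.mulVec v 0, M 0 0 / M.mulVec v 0]‖ ≤
        1 / |M.mulVec v 0| := by
      refine hnorm _ _ ?_ ?_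
      · rw [hmv]
        have : M 0 0 * (![-M 0 1 / M.mulVec v 0, M 0 0 / M.mulVec v 0] : Fin 2 → ℝ) 0 +
            M 0 1 * (![-M 0 1 / M.mulVec v 0, M 0 0 / M.mulVec v 0] : Fin 2 → ℝ) 1 = 0 := by
          simp only [Matrix.cons_val_zero, Matrix.cons_val_one]
          ring
        rw [this, abs_zero]
        positivity
      · rw [hmv]
        have : M 1 0 * (![-M 0 1 / M.mulVec v 0, M 0 0 / M.mulVec v 0] : Fin 2 → ℝ) 0 +
            M 1 1 * (![-M 0 1 / M.mulVec v 0, M 0 0 / M.mulVec v 0] : Fin 2 → ℝ) 1 =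
            (M 0 0 * M 1 1 - M 0 1 * M 1 0) / M.mulVec v 0 := by
          simp only [Matrix.cons_val_zero, Matrix.cons_val_one]
          ring
        rw [this, abs_div, hdet]
    refine ⟨![-M 0 1 / M.mulVec v 0, M 0 0 / M.mulVec v 0], ?_, ?_⟩
    · show v 0 * (M 0 0 / M.mulVec v 0) - v 1 * (-M 0 1 / M.mulVec v 0) = 1
      have : v 0 * (M 0 0 / M.mulVec v 0) - v 1 * (-M 0 1 / M.mulVec v 0) =
          (M 0 0 * v 0 + M 0 1 * v 1) / M.mulVec v 0 := by ring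
      rw [this, ← hmv, div_self h3]
    · rw [hN, hN]
      calc ‖M.mulVec v‖ * ‖M.mulVec ![-M 0 1 / M.mulVec v 0, M 0 0 / M.mulVec v 0]‖
          ≤ |M.mulVec v 0| * (1 / |M.mulVec v 0|) :=
            mul_le_mul h1 h4 (norm_nonneg _) h2.le
        _ = 1 := by field_simp
  · have h1 : ‖M.mulVec v‖ ≤ |M.mulVec v 1| := hnorm _ _ h le_rfl
    have h2 : 0 < |M.mulVec v 1| := lt_of_lt_of_le hpos h1
    have h3 : M.mulVec v 1 ≠ 0 := abs_pos.1 h2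
    have h4 : ‖M.mulVec ![-M 1 1 / M.mulVec v 1, M 1 0 / M.mulVec v 1]‖ ≤
        1 / |M.mulVec v 1| := by
      refine hnorm _ _ ?_ ?_
      · rw [hmv]
        have : M 0 0 * (![-M 1 1 / M.mulVec v 1, M 1 0 / M.mulVec v 1] : Fin 2 → ℝ) 0 +
            M 0 1 * (![-M 1 1 / M.mulVec v 1, M 1 0 / M.mulVec v 1] : Fin 2 → ℝ) 1 =
            -(M 0 0 * M 1 1 - M 0 1 * M 1 0) / M.mulVec v 1 := by
          simp only [Matrix.cons_val_zero, Matrix.cons_val_one]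
          ring
        rw [this, abs_div, abs_neg, hdet]
      · rw [hmv]
        have : M 1 0 * (![-M 1 1 / M.mulVec v 1, M 1 0 / M.mulVec v 1] : Fin 2 → ℝ) 0 +
            M 1 1 * (![-M 1 1 / M.mulVec v 1, M 1 0 / M.mulVec v 1] : Fin 2 → ℝ) 1 = 0 := by
          simp only [Matrix.cons_val_zero, Matrix.cons_val_one]
          ring
        rw [this, abs_zero]
        positivity
    refine ⟨![-M 1 1 / M.mulVec v 1, M 1 0 / M.mulVec v 1], ?_, ?_⟩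
    · show v 0 * (M 1 0 / M.mulVec v 1) - v 1 * (-M 1 1 / M.mulVec v 1) = 1
      have : v 0 * (M 1 0 / M.mulVec v 1) - v 1 * (-M 1 1 / M.mulVec v 1) =
          (M 1 0 * v 0 + M 1 1 * v 1) / M.mulVec v 1 := by ring
      rw [this, ← hmv, div_self h3]
    · rw [hN, hN]
      calc ‖M.mulVec v‖ * ‖M.mulVec ![-M 1 1 / M.mulVec v 1, M 1 0 / M.mulVec v 1]‖
          ≤ |M.mulVec v 1| * (1 / |M.mulVec v 1|) :=
            mul_le_mul h1 h4 (norm_nonneg _) h2.le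
        _ = 1 := by field_simp

/-- PROOF: `w' - w = κ • v` (`om_par`), `|κ| N2 γ v ≤ N2 γ w' + N2 γ w ≤ C N2 γ' w' + N2 γ w ≤ (C ^ 2 + 1) / N2 γ v`. -/
theorem sl_sub (hC : 1 ≤ C) {v : Fin 2 → ℝ} (hv : v ≠ 0) {γ γ' : Γ} (hc : Cmp A C γ γ')
    {w w' : Fin 2 → ℝ} (hw : Sl A v γ w) (hw' : Sl A v γ' w') :
    ∃ κ : ℝ, w' = w + κ • v ∧ |κ| * N2 A γ v ^ 2 ≤ 1 + C ^ 2 := by
  have hw1 := hw.1
  have hw1' := hw'.1
  have e1 : w' = w + om w' w • v := by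
    have h1 := om_par v w w'
    rw [hw1, hw1', one_smul, one_smul] at h1
    rw [add_comm]
    exact h1
  refine ⟨om w' w, e1, ?_⟩
  have hN := N2_pos A γ hv
  have hN' := N2_pos A γ' hv
  have h2 : |om w' w| * N2 A γ v ≤ N2 A γ w' + N2 A γ w := by
    rw [← N2_smul]
    have e2 : om w' w • v = w' + (-1 : ℝ) • w := by
      conv_rhs => rw [e1]
      module
    rw [e2]
    refine (N2_add_le A γ w' _).trans ?_
    rw [N2_smul, abs_neg, abs_one, one_mul]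
  have h3 : N2 A γ v * N2 A γ w ≤ 1 := hw.2
  have h4 : N2 A γ' v * N2 A γ' w' ≤ 1 := hw'.2
  have h5 : N2 A γ w' ≤ C * N2 A γ' w' := (hc w').2
  have h6 : N2 A γ v ≤ C * N2 A γ' v := (hc v).2
  have h7 : N2 A γ v * N2 A γ w' ≤ C ^ 2 := by
    have h8 : N2 A γ v * N2 A γ w' ≤ (C * N2 A γ' v) * (C * N2 A γ' w') :=
      mul_le_mul h6 h5 (N2_nonneg A γ w') (by positivity)
    have h9 : (C * N2 A γ' v) * (C * N2 A γ' w') = C ^ 2 * (N2 A γ' v * N2 A γ' w') := by ring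
    rw [h9] at h8
    refine h8.trans ?_
    have h10 := mul_le_mul_of_nonneg_left h4 (sq_nonneg C)
    linarith
  have h8 := mul_le_mul_of_nonneg_left h2 hN.le
  have e3 : |om w' w| * N2 A γ v ^ 2 = N2 A γ v * (|om w' w| * N2 A γ v) := by ring
  rw [e3]
  refine h8.trans ?_
  rw [mul_add]
  linarith

private theorem FlB_lam {v : Fin 2 → ℝ} {q : Fin 2 → ℤ} (hq : 0 < om v (rV q)) {γ : Γ}
    (hN : om v (rV q) < N2 A γ v) {w : Fin 2 → ℝ} (hw : Sl A v γ w) :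
    N2 A γ v - om v (rV q) ≤ |om (rV q) w| * N2 A γ v ^ 2 := by
  have hNpos : 0 < N2 A γ v := hq.trans hN
  have hq0 : q ≠ 0 := by
    rintro rfl
    have : om v (rV (0 : Fin 2 → ℤ)) = 0 := by simp [om, rV]
    rw [this] at hq
    exact lt_irrefl _ hq
  have h1 := one_le_N2 A γ hq0
  have h2 : rV q = om (rV q) w • v + om v (rV q) • w := by
    have h3 := om_par v w (rV q)
    rwa [hw.1, one_smul] at h3
  have h3 : N2 A γ (rV q) ≤ |om (rV q) w| * N2 A γ v + om v (rV q) * N2 A γ w := by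
    conv_lhs => rw [h2]
    refine (N2_add_le A γ _ _).trans ?_
    rw [N2_smul, N2_smul, abs_of_pos hq]
  have h4 := h1.trans h3
  have h5 : N2 A γ v * N2 A γ w ≤ 1 := hw.2
  have h6 := mul_le_mul_of_nonneg_left h4 hNpos.le
  have h7 := mul_le_mul_of_nonneg_left h5 hq.le
  nlinarith

private theorem FlB_shift {v q w : Fin 2 → ℝ} (κ : ℝ) :
    om q (w + κ • v) = om q w - κ * om v q := by
  simp only [om, Pi.add_apply, Pi.smul_apply, smul_eq_mul]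
  ring

private theorem FlB_ne {v : Fin 2 → ℝ} {q : Fin 2 → ℤ} (hq : 0 < om v (rV q)) : v ≠ 0 := by
  rintro rfl
  have : om (0 : Fin 2 → ℝ) (rV q) = 0 := by simp [om]
  rw [this] at hq
  exact lt_irrefl _ hq

/-- comparable charts have slopes on the same side -/
private theorem FlB_side (hC : 1 ≤ C) {v : Fin 2 → ℝ} {q : Fin 2 → ℤ} (hq : 0 < om v (rV q))
    {γ γ' : Γ} (hc : Cmp A C γ γ') (hN : (2 + C ^ 2) * om v (rV q) < N2 A γ v)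
    {w w' : Fin 2 → ℝ} (hw : Sl A v γ w) (hw' : Sl A v γ' w') (h : 0 < om (rV q) w) :
    0 < om (rV q) w' := by
  have hC2 : 0 ≤ C ^ 2 * om v (rV q) := mul_nonneg (sq_nonneg C) hq.le
  have hN1 : om v (rV q) < N2 A γ v := by nlinarith
  have hNpos : 0 < N2 A γ v := hq.trans hN1
  obtain ⟨κ, rfl, hκ⟩ := sl_sub hC (FlB_ne hq) hc hw hw'
  have h1 := FlB_lam hq hN1 hw
  rw [abs_of_pos h] at h1
  rw [FlB_shift]
  have h2 : κ * om v (rV q) * N2 A γ v ^ 2 ≤ (1 + C ^ 2) * om v (rV q) := by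
    have h3 : κ * N2 A γ v ^ 2 ≤ 1 + C ^ 2 :=
      (mul_le_mul_of_nonneg_right (le_abs_self κ) (sq_nonneg _)).trans hκ
    have h4 := mul_le_mul_of_nonneg_right h3 hq.le
    linarith
  have h5 : 0 < (om (rV q) w - κ * om v (rV q)) * N2 A γ v ^ 2 := by
    rw [sub_mul]
    linarith
  exact (pos_iff_pos_of_mul_pos h5).2 (pow_pos hNpos 2)

private theorem FlB_refl (γ : Γ) : Cmp A 1 γ γ := fun z => by
  rw [one_mul]
  exact ⟨le_rfl, le_rfl⟩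

/-- PROOF: put `ρ = om v (rV q)`, `N = N2 A γ v`, `λ = om (rV q) w`; `rV q = λ • v + ρ • w` (`om_par`), so by `one_le_N2`
`1 ≤ |λ| N + ρ / N`, hence `λ ≠ 0` and `|λ| ≥ (N - ρ) / N ^ 2`. Another slope vector of `γ` is `w + κ • v` with
`|κ| N ^ 2 ≤ 2` (`sl_sub` with `γ' = γ`, `C = 1`), and `om (rV q) (w + κ • v) = λ - κ ρ` has the same sign. -/
theorem up_iff (hC : 1 ≤ C) {v : Fin 2 → ℝ} {q : Fin 2 → ℤ} (hq : 0 < om v (rV q)) {γ : Γ}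
    (hN : (2 + C ^ 2) * om v (rV q) < N2 A γ v) {w : Fin 2 → ℝ} (hw : Sl A v γ w) :
    om (rV q) w ≠ 0 ∧ (Up A v q γ ↔ 0 < om (rV q) w) := by
  have hC1 : 1 ≤ C ^ 2 := by nlinarith
  have hC2 : om v (rV q) ≤ C ^ 2 * om v (rV q) := by nlinarith
  have hN1 : om v (rV q) < N2 A γ v := by nlinarith
  refine ⟨fun h => ?_, ?_, fun h => ⟨w, hw, h⟩⟩
  · have h1 := FlB_lam hq hN1 hw
    rw [h, abs_zero, zero_mul] at h1
    linarith
  · rintro ⟨w', hw', h⟩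
    refine FlB_side (C := 1) le_rfl hq (FlB_refl γ) ?_ hw' hw h
    nlinarith

/-- PROOF: as in `up_iff`, with `|κ| N ^ 2 ≤ 1 + C ^ 2`: `|κ ρ| ≤ (1 + C ^ 2) ρ / N ^ 2 < (N - ρ) / N ^ 2 ≤ |λ|`. -/
theorem up_cmp (hC : 1 ≤ C) {v : Fin 2 → ℝ} {q : Fin 2 → ℤ} (hq : 0 < om v (rV q)) {γ γ' : Γ}
    (hc : Cmp A C γ γ') (hN : (2 + C ^ 2) * om v (rV q) < N2 A γ v)
    (hN' : (2 + C ^ 2) * om v (rV q) < N2 A γ' v) : Up A v q γ → Up A v q γ' := by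
  rintro ⟨w, hw, h⟩
  obtain ⟨w', hw'⟩ := exists_sl A (FlB_ne hq) γ'
  exact ⟨w', hw', FlB_side hC hq hc hN hw hw' h⟩

end pure

variable {W : Type*} [NormedAddCommGroup W] [NormedSpace ℝ W] [FiniteDimensional ℝ W]
variable {X : Type*} [TopologicalSpace X] [T2Space X]
variable {Γ : Type*} [Group Γ] [MulAction Γ X] [ContinuousConstSMul Γ X]
  [ProperlyDiscontinuousSMul Γ X]
variable {D : X → W × (Fin 2 → ℝ)}
  {L : Γ →* ((W × (Fin 2 → ℝ)) ≃ₗ[ℝ] (W × (Fin 2 → ℝ)))} {b : Γ → W × (Fin 2 → ℝ)}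
  {A : Γ →* GL (Fin 2) ℤ} {K : Set X} {ε C : ℝ}

/-- PROOF: `gap'`, `conn`, `up_cmp`. -/
theorem FlSys.up_point (S : FlSys D L b A K ε C) {x : X} {μ : Fin 2 → ℝ}
    (hμ : ((0, μ) : W × (Fin 2 → ℝ)) ∉ Dom D x) {q : Fin 2 → ℤ} (hq : 0 < om μ (rV q))
    (hq2 : (2 + C ^ 2) * om μ (rV q) ≤ ε) {γ γ' : Γ} (hγ : VW D K x γ) (hγ' : VW D K x γ') :
    Up A μ q γ → Up A μ q γ' :=
  S.conn (Up A μ q) (fun _ _ h h' hc => up_cmp S.one_le hq hc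
    (lt_of_le_of_lt hq2 (S.gap' hμ h)) (lt_of_le_of_lt hq2 (S.gap' hμ h'))) γ γ' hγ hγ'

/-- PROOF: `gap`, `ray_const` on `I = Ico t₀ 1`, `up_cmp`. -/
theorem FlSys.up_ray (S : FlSys D L b A K ε C) {x : X} {v : Fin 2 → ℝ}
    (h : Fm D x ((0, v) : W × (Fin 2 → ℝ))) {t₀ : ℝ} (ht₀ : t₀ ∈ Ico (0 : ℝ) 1)
    {q : Fin 2 → ℤ} (hq : 0 < om v (rV q))
    (hq2 : (2 + C ^ 2) * om v (rV q) * (1 - t₀) ≤ ε) {t t' : ℝ} (ht : t ∈ Ico t₀ 1)
    (ht' : t' ∈ Ico t₀ 1) {γ γ' : Γ} (hγ : VW D K (ex D x ((0, t • v) : W × (Fin 2 → ℝ))) γ)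
    (hγ' : VW D K (ex D x ((0, t' • v) : W × (Fin 2 → ℝ))) γ') :
    Up A v q γ → Up A v q γ' := by
  have key : ∀ s ∈ Ico t₀ 1, ∀ δ : Γ, VW D K (ex D x ((0, s • v) : W × (Fin 2 → ℝ))) δ →
      (2 + C ^ 2) * om v (rV q) < N2 A δ v := by
    intro s hs δ hδ
    have h1 := S.gap h ⟨ht₀.1.trans hs.1, hs.2⟩ hδ
    have h2 : 0 < 1 - t₀ := by linarith [ht₀.2]
    have h3 : (1 - s) * N2 A δ v ≤ (1 - t₀) * N2 A δ v :=
      mul_le_mul_of_nonneg_right (by linarith [hs.1]) (N2_nonneg A δ v)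
    have h4 : ((2 + C ^ 2) * om v (rV q)) * (1 - t₀) < N2 A δ v * (1 - t₀) := by
      rw [mul_comm (N2 A δ v)]
      exact lt_of_le_of_lt hq2 (lt_of_lt_of_le h1 h3)
    exact lt_of_mul_lt_mul_right h4 h2.le
  exact S.ray_const h ordConnected_Ico (fun s hs => ⟨ht₀.1.trans hs.1, hs.2⟩) S.af.ε_pos le_rfl
    (fun _ δ => Up A v q δ)
    (fun s hs s₂ hs₂ δ δ₂ hδ hδ₂ hc _ hu => up_cmp S.one_le hq hc (key s hs δ hδ)
      (key s₂ hs₂ δ₂ hδ₂) hu) t ht t' ht' γ γ' hγ hγ'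

end H83T
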