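import Pool.Agent.H.MP_7a8a58_gt.h83c.FlA

/-!
MP_7a8a58_gt, helper83, third part.  Integral vectors with prescribed slopes.
Paper proof: /team-store/h83_7a8a58_T4.md
-/

set_option autoImplicit false

open Set Metric Topology Filter

namespace H83T

private theorem FlD_round (c : Fin 2 → ℝ) :
    ∃ (q : Fin 2 → ℤ) (η : Fin 2 → ℝ), (rV q = c + η) ∧ ∀ i, |η i| ≤ 1 / 2 := by
  refine ⟨fun i => round (c i), fun i => (round (c i) : ℝ) - c i, ?_, fun i => ?_⟩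
  · funext i
    simp [rV]
  · have := abs_sub_round (c i)
    rw [abs_sub_comm] at this
    exact this

private theorem FlD_om_le (v η : Fin 2 → ℝ) (h : ∀ i, |η i| ≤ 1 / 2) : |om v η| ≤ ‖v‖ := by
  have h0 : |v 0| ≤ ‖v‖ := by simpa using norm_le_pi_norm v 0
  have h1 : |v 1| ≤ ‖v‖ := by simpa using norm_le_pi_norm v 1
  have n0 := norm_nonneg v
  have e0 := h 0
  have e1 := h 1
  have k0 : |v 0 * η 1| ≤ ‖v‖ * (1 / 2) := by
    rw [abs_mul]
    exact mul_le_mul h0 e1 (abs_nonneg _) n0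
  have k1 : |v 1 * η 0| ≤ ‖v‖ * (1 / 2) := by
    rw [abs_mul]
    exact mul_le_mul h1 e0 (abs_nonneg _) n0
  have := abs_sub (v 0 * η 1) (v 1 * η 0)
  unfold om
  linarith

private theorem FlD_om_le' (v η : Fin 2 → ℝ) (h : ∀ i, |η i| ≤ 1 / 2) : |om η v| ≤ ‖v‖ := by
  have e : om η v = - om v η := by unfold om; ring
  rw [e, abs_neg]
  exact FlD_om_le v η h

/-- PROOF: `c = k • v + (3 ‖v‖) • u`, `q` = coordinatewise rounding of `c`, `η = rV q - c`, `‖η‖ ≤ 1 / 2`, so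
`|om v η| ≤ ‖v‖` and `om v (rV q) = 3 ‖v‖ + om v η`, `om (rV q) u = k + om η u`, `|om η u| ≤ ‖u‖`; take `k` large,
respectively `-k` large. -/
theorem exists_div {v u : Fin 2 → ℝ} (hv : v ≠ 0) (hu : om v u = 1) (s : ℝ) :
    (∃ q : Fin 2 → ℤ, ‖v‖ ≤ om v (rV q) ∧ om v (rV q) ≤ 5 * ‖v‖ ∧ s ≤ om (rV q) u) ∧
    (∃ q : Fin 2 → ℤ, ‖v‖ ≤ om v (rV q) ∧ om v (rV q) ≤ 5 * ‖v‖ ∧ om (rV q) u ≤ s) := by
  have n0 := norm_pos_iff.2 hv
  have key : ∀ k : ℝ, ∃ (q : Fin 2 → ℤ), ‖v‖ ≤ om v (rV q) ∧ om v (rV q) ≤ 5 * ‖v‖ ∧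
      |om (rV q) u - k| ≤ ‖u‖ := by
    intro k
    obtain ⟨q, η, hq, hη⟩ := FlD_round (k • v + (3 * ‖v‖) • u)
    have a1 := abs_le.1 (FlD_om_le v η hη)
    have a2 := FlD_om_le' u η hη
    have e1 : om v (rV q) = 3 * ‖v‖ * om v u + om v η := by
      rw [hq]; simp only [om, Pi.add_apply, Pi.smul_apply, smul_eq_mul]; ring
    have e2 : om (rV q) u = k * om v u + om η u := by
      rw [hq]; simp only [om, Pi.add_apply, Pi.smul_apply, smul_eq_mul]; ring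
    rw [hu] at e1 e2
    refine ⟨q, ?_, ?_, ?_⟩
    · rw [e1]; linarith [a1.1]
    · rw [e1]; linarith [a1.2]
    · rw [e2]
      have : k * 1 + om η u - k = om η u := by ring
      rw [this]; exact a2
  constructor
  · obtain ⟨q, h1, h2, h3⟩ := key (s + ‖u‖)
    have := abs_le.1 h3
    exact ⟨q, h1, h2, by linarith [this.1]⟩
  · obtain ⟨q, h1, h2, h3⟩ := key (s - ‖u‖)
    have := abs_le.1 h3
    exact ⟨q, h1, h2, by linarith [this.2]⟩

/-- PROOF: `c = (Q - 2 ‖v‖) • (u + s • v) + k • v`, `q` = rounding of `c`, `η = rV q - c`, `‖η‖ ≤ 1 / 2`. Then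
`Q / 2 ≤ Q - 3 ‖v‖ ≤ om v (rV q) ≤ Q` for `Q ≥ 6 ‖v‖`, and
`om (rV q) u - s * om v (rV q) = k + om η u - s * om v η ∈ [k - a, k + a]` with `a = ‖u‖ + M ‖v‖`. Take `k = a + 1`:
the value is in `[1, 2 a + 1]`, and `2 a + 1 ≤ (C₅ / Q) * (Q / 2)` for `C₅ = 2 (2 a + 1)`. For the second part
`k = - (a + 1)`. -/
theorem exists_div_fine {v u : Fin 2 → ℝ} (hv : v ≠ 0) (hu : om v u = 1) {M : ℝ} (hM : 0 ≤ M) :
    ∃ C₅ > 0, ∃ Q₀ > 0, ∀ Q : ℝ, Q₀ ≤ Q → ∀ s : ℝ, |s| ≤ M →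
      (∃ q : Fin 2 → ℤ, 0 < om v (rV q) ∧ om v (rV q) ≤ Q ∧ s * om v (rV q) < om (rV q) u ∧
        om (rV q) u ≤ (s + C₅ / Q) * om v (rV q)) ∧
      (∃ q : Fin 2 → ℤ, 0 < om v (rV q) ∧ om v (rV q) ≤ Q ∧ om (rV q) u < s * om v (rV q) ∧
        (s - C₅ / Q) * om v (rV q) ≤ om (rV q) u) := by
  have n0 := norm_pos_iff.2 hv
  have nu := norm_nonneg u
  set a : ℝ := ‖u‖ + M * ‖v‖ with ha
  have a0 : 0 ≤ a := by positivity
  refine ⟨2 * (2 * a + 1), by positivity, 6 * ‖v‖, by positivity, ?_⟩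
  intro Q hQ s hs
  have Q0 : 0 < Q := by linarith
  have key : ∀ k : ℝ, ∃ (q : Fin 2 → ℤ), Q / 2 ≤ om v (rV q) ∧ om v (rV q) ≤ Q ∧
      |om (rV q) u - s * om v (rV q) - k| ≤ a := by
    intro k
    obtain ⟨q, η, hq, hη⟩ := FlD_round ((Q - 2 * ‖v‖) • (u + s • v) + k • v)
    have a1 := abs_le.1 (FlD_om_le v η hη)
    have a2 := FlD_om_le' u η hη
    have e1 : om v (rV q) = (Q - 2 * ‖v‖) * om v u + om v η := by
      rw [hq]; simp only [om, Pi.add_apply, Pi.smul_apply, smul_eq_mul]; ring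
    have e2 : om (rV q) u = ((Q - 2 * ‖v‖) * s + k) * om v u + om η u := by
      rw [hq]; simp only [om, Pi.add_apply, Pi.smul_apply, smul_eq_mul]; ring
    rw [hu] at e1 e2
    refine ⟨q, ?_, ?_, ?_⟩
    · rw [e1]; linarith [a1.1]
    · rw [e1]; linarith [a1.2]
    · rw [e1, e2]
      have : ((Q - 2 * ‖v‖) * s + k) * 1 + om η u - s * ((Q - 2 * ‖v‖) * 1 + om v η) - k =
          om η u - s * om v η := by ring
      rw [this]
      have b1 : |s * om v η| ≤ M * ‖v‖ := by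
        rw [abs_mul]
        exact mul_le_mul hs (FlD_om_le v η hη) (abs_nonneg _) hM
      have b2 := abs_sub (om η u) (s * om v η)
      linarith
  have hfr : ∀ x : ℝ, Q / 2 ≤ x → 2 * a + 1 ≤ 2 * (2 * a + 1) / Q * x := by
    intro x hx
    have h1 : 2 * (2 * a + 1) / Q * (Q / 2) = 2 * a + 1 := by field_simp
    have h2 : 0 ≤ 2 * (2 * a + 1) / Q := by positivity
    have h3 := mul_le_mul_of_nonneg_left hx h2
    linarith
  constructor
  · obtain ⟨q, h1, h2, h3⟩ := key (a + 1)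
    have h4 := abs_le.1 h3
    have h5 := hfr _ h1
    refine ⟨q, by linarith, h2, by linarith [h4.1], ?_⟩
    rw [add_mul]
    linarith [h4.2]
  · obtain ⟨q, h1, h2, h3⟩ := key (-(a + 1))
    have h4 := abs_le.1 h3
    have h5 := hfr _ h1
    refine ⟨q, by linarith, h2, by linarith [h4.2], ?_⟩
    rw [sub_mul]
    linarith [h4.1]

end H83T
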