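import Pool.Agent.H.MP_7a8a58_gt.h83c.FlB
import Pool.Agent.H.MP_7a8a58_gt.h83c.FlD

/-!
MP_7a8a58_gt, helper83, third part.  The slopes of all charts over a ray converge.
Paper proof: /team-store/h83_7a8a58_T4.md
-/

set_option autoImplicit false

open Set Metric Topology Filter

namespace H83T

/-- A ray to a first missing vector `(0, v)` with limit slope vector `u`. -/
structure RayF {W : Type*} [NormedAddCommGroup W] [NormedSpace ℝ W] {X : Type*}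
    [TopologicalSpace X] {Γ : Type*} [Group Γ] [MulAction Γ X]
    (D : X → W × (Fin 2 → ℝ)) (A : Γ →* GL (Fin 2) ℤ) (K : Set X) (C₄ t₄ : ℝ) (x : X)
    (v u : Fin 2 → ℝ) : Prop where
  fm : Fm D x ((0, v) : W × (Fin 2 → ℝ))
  wu : om v u = 1
  C₄_pos : 0 < C₄
  t₄_mem : t₄ ∈ Ico (0 : ℝ) 1
  slope : ∀ t ∈ Ico t₄ 1, ∀ γ : Γ, VW D K (ex D x ((0, t • v) : W × (Fin 2 → ℝ))) γ →
    ∀ w : Fin 2 → ℝ, Sl A v γ w → ∃ κ : ℝ, w = u + κ • v ∧ |κ| ≤ C₄ * (1 - t)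

variable {W : Type*} [NormedAddCommGroup W] [NormedSpace ℝ W] [FiniteDimensional ℝ W]
variable {X : Type*} [TopologicalSpace X] [T2Space X]
variable {Γ : Type*} [Group Γ] [MulAction Γ X] [ContinuousConstSMul Γ X]
  [ProperlyDiscontinuousSMul Γ X]
variable {D : X → W × (Fin 2 → ℝ)}
  {L : Γ →* ((W × (Fin 2 → ℝ)) ≃ₗ[ℝ] (W × (Fin 2 → ℝ)))} {b : Γ → W × (Fin 2 → ℝ)}
  {A : Γ →* GL (Fin 2) ℤ} {K : Set X} {ε C : ℝ}

private theorem FlE_om_add (q u v : Fin 2 → ℝ) (s : ℝ) :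
    om q (u + s • v) = om q u - s * om v q := by
  simp only [om, Pi.add_apply, Pi.smul_apply, smul_eq_mul]
  ring

private theorem FlE_om_sl (u v : Fin 2 → ℝ) (s : ℝ) : om v (u + s • v) = om v u := by
  simp only [om, Pi.add_apply, Pi.smul_apply, smul_eq_mul]
  ring

private theorem FlE_par {u v w : Fin 2 → ℝ} (hu : om v u = 1) (hw : om v w = 1) :
    w = u + om w u • v := by
  have h := om_par v u w
  rw [hu, hw, one_smul, one_smul, add_comm] at h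
  exact h

private theorem FlE_ne {D : X → W × (Fin 2 → ℝ)} {x : X} {v : Fin 2 → ℝ}
    (h : Fm D x ((0, v) : W × (Fin 2 → ℝ))) : v ≠ 0 := by
  rintro rfl
  exact h.ne_zero rfl

/-- a slope stays on its side of an integral vector -/
private theorem FlE_side (S : FlSys D L b A K ε C) {x : X} {v u₀ : Fin 2 → ℝ}
    (h : Fm D x ((0, v) : W × (Fin 2 → ℝ))) {t₀ : ℝ} (ht₀ : t₀ ∈ Ico (0 : ℝ) 1)
    {q : Fin 2 → ℤ} (hq : 0 < om v (rV q))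
    (hq2 : (2 + C ^ 2) * om v (rV q) * (1 - t₀) ≤ ε) {t t' : ℝ} (ht : t ∈ Ico t₀ 1)
    (ht' : t' ∈ Ico t₀ 1) {γ γ' : Γ} (hγ : VW D K (ex D x ((0, t • v) : W × (Fin 2 → ℝ))) γ)
    (hγ' : VW D K (ex D x ((0, t' • v) : W × (Fin 2 → ℝ))) γ') {s s' : ℝ}
    (hs : Sl A v γ (u₀ + s • v)) (hs' : Sl A v γ' (u₀ + s' • v)) :
    (s * om v (rV q) < om (rV q) u₀ → s' * om v (rV q) < om (rV q) u₀) ∧
    (om (rV q) u₀ < s * om v (rV q) → om (rV q) u₀ < s' * om v (rV q)) := by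
  have hbig : ∀ {t₁ : ℝ} {γ₁ : Γ}, t₁ ∈ Ico t₀ 1 →
      VW D K (ex D x ((0, t₁ • v) : W × (Fin 2 → ℝ))) γ₁ →
      (2 + C ^ 2) * om v (rV q) < N2 A γ₁ v := by
    intro t₁ γ₁ h1 h2
    have h3 := S.gap h ⟨ht₀.1.trans h1.1, h1.2⟩ h2
    have h4 : 0 < 1 - t₀ := by linarith [ht₀.2]
    have h5 : (1 - t₁) * N2 A γ₁ v ≤ (1 - t₀) * N2 A γ₁ v :=
      mul_le_mul_of_nonneg_right (by linarith [h1.1]) (N2_nonneg A γ₁ v)
    have h6 : (1 - t₀) * ((2 + C ^ 2) * om v (rV q)) < (1 - t₀) * N2 A γ₁ v := by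
      rw [mul_comm (1 - t₀) ((2 + C ^ 2) * om v (rV q))]
      linarith
    exact lt_of_mul_lt_mul_left h6 h4.le
  obtain ⟨a1, a2⟩ := up_iff S.one_le hq (hbig ht hγ) hs
  obtain ⟨b1, b2⟩ := up_iff S.one_le hq (hbig ht' hγ') hs'
  have c1 := S.up_ray h ht₀ hq hq2 ht ht' hγ hγ'
  have c2 := S.up_ray h ht₀ hq hq2 ht' ht hγ' hγ
  rw [FlE_om_add] at a1 a2 b1 b2
  constructor
  · intro h1
    have h2 := b2.1 (c1 (a2.2 (by linarith)))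
    linarith
  · intro h1
    have h2 : ¬ 0 < om (rV q) u₀ - s' * om v (rV q) := fun h3 => by
      have h4 := a2.1 (c2 (b2.2 h3))
      linarith
    have h3 : om (rV q) u₀ - s' * om v (rV q) < 0 := lt_of_le_of_ne (not_lt.1 h2) b1
    linarith

/-- Bounded slopes.
PROOF: choose `t_v` with `(2 + C ^ 2) * 5 ‖v‖ * (1 - t_v) ≤ ε` (strictly less), `γ_v` valid at `t_v` with slope vector
`u₀ + s • v`. `exists_div` (with `u = u₀`) gives `q⁺`, `q⁻` with `om v q ∈ [‖v‖, 5 ‖v‖]` and `om q⁺ u₀ > s * om v q⁺`,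
`om q⁻ u₀ < s * om v q⁻`. For a slope vector `w = u₀ + s' • v`: `om (rV q) w = om (rV q) u₀ - s' * om v (rV q)`. So `γ_v` is up
for `q⁺`, not up for `q⁻`; by `up_ray` this holds for all `t ≥ t_v` and all valid `γ`; `up_iff` bounds `s'` from above
and below. -/
theorem FlSys.slopes_bdd (S : FlSys D L b A K ε C) {x : X} {v u₀ : Fin 2 → ℝ}
    (h : Fm D x ((0, v) : W × (Fin 2 → ℝ))) (hu₀ : om v u₀ = 1) :
    ∃ M : ℝ, 0 ≤ M ∧ ∃ t₁ ∈ Ico (0 : ℝ) 1, ∀ t ∈ Ico t₁ 1, ∀ γ : Γ,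
      VW D K (ex D x ((0, t • v) : W × (Fin 2 → ℝ))) γ → ∀ s : ℝ, Sl A v γ (u₀ + s • v) →
      |s| ≤ M := by
  have hv := FlE_ne h
  have hn : 0 < ‖v‖ := norm_pos_iff.2 hv
  have hε := S.af.ε_pos
  have hc : 0 < 2 + C ^ 2 := by positivity
  obtain ⟨t₁, ht₁, ht₁'⟩ : ∃ t₁ ∈ Ico (0 : ℝ) 1, (2 + C ^ 2) * (5 * ‖v‖) * (1 - t₁) ≤ ε := by
    have hp : 0 < (2 + C ^ 2) * (5 * ‖v‖) := by positivity
    refine ⟨max 0 (1 - ε / ((2 + C ^ 2) * (5 * ‖v‖))), ⟨le_max_left _ _, max_lt one_pos ?_⟩, ?_⟩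
    · have : 0 < ε / ((2 + C ^ 2) * (5 * ‖v‖)) := by positivity
      linarith
    · have h1 := le_max_right 0 (1 - ε / ((2 + C ^ 2) * (5 * ‖v‖)))
      have h2 : 1 - max 0 (1 - ε / ((2 + C ^ 2) * (5 * ‖v‖))) ≤ ε / ((2 + C ^ 2) * (5 * ‖v‖)) := by
        linarith
      calc (2 + C ^ 2) * (5 * ‖v‖) * (1 - max 0 (1 - ε / ((2 + C ^ 2) * (5 * ‖v‖))))
          ≤ (2 + C ^ 2) * (5 * ‖v‖) * (ε / ((2 + C ^ 2) * (5 * ‖v‖))) :=
            mul_le_mul_of_nonneg_left h2 hp.le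
        _ = ε := mul_div_cancel₀ _ hp.ne'
  have h1t : 0 < 1 - t₁ := by linarith [ht₁.2]
  obtain ⟨γ₀, hγ₀⟩ := S.exists_vw (ex D x ((0, t₁ • v) : W × (Fin 2 → ℝ)))
  obtain ⟨w₀, hw₀⟩ := exists_sl A hv γ₀
  obtain ⟨s₀, hs₀⟩ : ∃ s₀ : ℝ, Sl A v γ₀ (u₀ + s₀ • v) :=
    ⟨om w₀ u₀, by rw [← FlE_par hu₀ hw₀.1]; exact hw₀⟩
  have hle : ∀ q : Fin 2 → ℤ, ‖v‖ ≤ om v (rV q) → om v (rV q) ≤ 5 * ‖v‖ →
      0 < om v (rV q) ∧ (2 + C ^ 2) * om v (rV q) * (1 - t₁) ≤ ε := by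
    intro q h1 h2
    refine ⟨hn.trans_le h1, le_trans ?_ ht₁'⟩
    exact mul_le_mul_of_nonneg_right (mul_le_mul_of_nonneg_left h2 hc.le) h1t.le
  have hsb : ∀ q : Fin 2 → ℤ, ‖v‖ ≤ om v (rV q) → om v (rV q) ≤ 5 * ‖v‖ →
      |s₀ * om v (rV q)| ≤ |s₀| * (5 * ‖v‖) := by
    intro q h1 h2
    rw [abs_mul, abs_of_pos (hn.trans_le h1)]
    exact mul_le_mul_of_nonneg_left h2 (abs_nonneg _)
  obtain ⟨⟨q, hq1, hq2, hq3⟩, -⟩ := exists_div hv hu₀ (|s₀| * (5 * ‖v‖) + 1)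
  obtain ⟨-, ⟨q', hq1', hq2', hq3'⟩⟩ := exists_div hv hu₀ (-(|s₀| * (5 * ‖v‖) + 1))
  obtain ⟨ha, hb⟩ := hle q hq1 hq2
  obtain ⟨ha', hb'⟩ := hle q' hq1' hq2'
  refine ⟨max |om (rV q) u₀ / om v (rV q)| |om (rV q') u₀ / om v (rV q')|,
    (abs_nonneg _).trans (le_max_left _ _), t₁, ht₁, fun t ht γ hγ s hs => ?_⟩
  have e1 := (FlE_side S h ht₁ ha hb ⟨le_rfl, ht₁.2⟩ ht hγ₀ hγ hs₀ hs).1 (by
    have := (abs_le.1 (hsb q hq1 hq2)).2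
    linarith)
  have e2 := (FlE_side S h ht₁ ha' hb' ⟨le_rfl, ht₁.2⟩ ht hγ₀ hγ hs₀ hs).2 (by
    have := (abs_le.1 (hsb q' hq1' hq2')).1
    linarith)
  rw [← lt_div_iff₀ ha] at e1
  rw [← div_lt_iff₀ ha'] at e2
  rw [abs_le]
  constructor
  · have h1 := neg_abs_le (om (rV q') u₀ / om v (rV q'))
    have h2 := le_max_right |om (rV q) u₀ / om v (rV q)| |om (rV q') u₀ / om v (rV q')|
    linarith
  · have h1 := le_abs_self (om (rV q) u₀ / om v (rV q))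
    have h2 := le_max_left |om (rV q) u₀ / om v (rV q)| |om (rV q') u₀ / om v (rV q')|
    linarith

/-- PROOF: `exists_div_fine` with this `M`: for `t ≥ t₄` (so that `Q = ε / (2 (2 + C ^ 2) (1 - t)) ≥ Q₀`) and a valid `γ` at `t`
with slope `s` there are `q⁺`, `q⁻` with slopes in `(s, s + C₅ / Q]` and `[s - C₅ / Q, s)`; `up_ray` with `t₀ = t` and
`up_iff` give `|s' - s| ≤ C₅ / Q` for all `t' ≥ t` and all valid `γ'` at `t'`. -/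
theorem FlSys.slopes_cauchy (S : FlSys D L b A K ε C) {x : X} {v u₀ : Fin 2 → ℝ}
    (h : Fm D x ((0, v) : W × (Fin 2 → ℝ))) (hu₀ : om v u₀ = 1) :
    ∃ C₄ > 0, ∃ t₄ ∈ Ico (0 : ℝ) 1, ∀ t ∈ Ico t₄ 1, ∀ t' ∈ Ico t 1, ∀ γ γ' : Γ,
      VW D K (ex D x ((0, t • v) : W × (Fin 2 → ℝ))) γ →
      VW D K (ex D x ((0, t' • v) : W × (Fin 2 → ℝ))) γ' → ∀ s s' : ℝ,
      Sl A v γ (u₀ + s • v) → Sl A v γ' (u₀ + s' • v) → |s' - s| ≤ C₄ * (1 - t) := by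
  have hv := FlE_ne h
  have hε := S.af.ε_pos
  have hc : 0 < 2 + C ^ 2 := by positivity
  obtain ⟨M, hM, t₁, ht₁, hb⟩ := S.slopes_bdd h hu₀
  obtain ⟨C₅, hC₅, Q₀, hQ₀, hfine⟩ := exists_div_fine hv hu₀ hM
  have hp : 0 < (2 + C ^ 2) * Q₀ := by positivity
  refine ⟨C₅ * (2 + C ^ 2) / ε, by positivity, max t₁ (1 - ε / ((2 + C ^ 2) * Q₀)),
    ⟨ht₁.1.trans (le_max_left _ _), max_lt ht₁.2 ?_⟩, fun t ht t' ht' γ γ' hγ hγ' s s' hs hs' => ?_⟩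
  · have : 0 < ε / ((2 + C ^ 2) * Q₀) := by positivity
    linarith
  · have h1 : t₁ ≤ t := (le_max_left _ _).trans ht.1
    have h2 : 1 - ε / ((2 + C ^ 2) * Q₀) ≤ t := (le_max_right _ _).trans ht.1
    have h3 : 0 < 1 - t := by linarith [ht.2]
    have ht0 : t ∈ Ico (0 : ℝ) 1 := ⟨ht₁.1.trans h1, ht.2⟩
    obtain ⟨Q, hQ⟩ : ∃ Q, Q = ε / ((2 + C ^ 2) * (1 - t)) := ⟨_, rfl⟩
    have hQ1 : (2 + C ^ 2) * Q * (1 - t) = ε := by
      rw [hQ]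
      field_simp
    have hQp : 0 < Q := by
      rw [hQ]
      positivity
    have hQQ : Q₀ ≤ Q := by
      have h4 : (1 - t) * ((2 + C ^ 2) * Q₀) ≤ ε := by
        rw [← le_div_iff₀ hp]
        linarith
      rw [hQ, le_div_iff₀ (by positivity)]
      linarith
    have hCQ : C₅ / Q = C₅ * (2 + C ^ 2) / ε * (1 - t) := by
      rw [hQ]
      field_simp
    have hsM := hb t ⟨h1, ht.2⟩ γ hγ s hs
    obtain ⟨⟨q, a1, a2, a3, a4⟩, ⟨q', b1, b2, b3, b4⟩⟩ := hfine Q hQQ s hsM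
    have hle : ∀ q : Fin 2 → ℤ, om v (rV q) ≤ Q → (2 + C ^ 2) * om v (rV q) * (1 - t) ≤ ε := by
      intro q h4
      rw [← hQ1]
      exact mul_le_mul_of_nonneg_right (mul_le_mul_of_nonneg_left h4 hc.le) h3.le
    have e1 := (FlE_side S h ht0 a1 (hle q a2) ⟨le_rfl, ht.2⟩ ht' hγ hγ' hs hs').1 a3
    have e2 := (FlE_side S h ht0 b1 (hle q' b2) ⟨le_rfl, ht.2⟩ ht' hγ hγ' hs hs').2 b3
    have e3 : s' < s + C₅ / Q := lt_of_mul_lt_mul_right (e1.trans_le a4) a1.le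
    have e4 : s - C₅ / Q < s' := lt_of_mul_lt_mul_right (b4.trans_lt e2) b1.le
    rw [← hCQ, abs_le]
    constructor <;> linarith

/-- PROOF: choose `u₀` with `om v u₀ = 1`; every slope vector is `u₀ + s • v` (`om_par`). The slopes converge by
`slopes_cauchy` (a sequence `t n → 1`, valid `γ n`, slopes `s n`, Cauchy); `u = u₀ + lim s • v`. -/
theorem FlSys.exists_rayF (S : FlSys D L b A K ε C) {x : X} {v : Fin 2 → ℝ}
    (h : Fm D x ((0, v) : W × (Fin 2 → ℝ))) :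
    ∃ (u : Fin 2 → ℝ) (C₄ t₄ : ℝ), RayF D A K C₄ t₄ x v u := by
  have hv := FlE_ne h
  obtain ⟨u₀, hu₀⟩ := exists_sl A hv 1
  obtain ⟨C₄, hC₄, t₄, ht₄, hcau⟩ := S.slopes_cauchy h hu₀.1
  obtain ⟨T, hT⟩ : ∃ T : ℕ → ℝ, ∀ n, T n = 1 - (1 - t₄) * (1 / ((n : ℝ) + 1)) :=
    ⟨_, fun n => rfl⟩
  have h1t : 0 < 1 - t₄ := by linarith [ht₄.2]
  have hTI : ∀ n, T n ∈ Ico t₄ 1 := by
    intro n
    have h1 : 0 < 1 / ((n : ℝ) + 1) := by positivity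
    have h2 : 1 / ((n : ℝ) + 1) ≤ 1 := by
      rw [div_le_one (by positivity)]
      linarith [(Nat.cast_nonneg n : (0 : ℝ) ≤ n)]
    have h3 := mul_le_mul_of_nonneg_left h2 h1t.le
    have h4 := mul_pos h1t h1
    rw [hT]
    exact ⟨by linarith, by linarith⟩
  have hTm : ∀ m n : ℕ, m ≤ n → T m ≤ T n := by
    intro m n hmn
    rw [hT, hT]
    have h1 : (m : ℝ) ≤ n := Nat.cast_le.2 hmn
    have h2 : 1 / ((n : ℝ) + 1) ≤ 1 / ((m : ℝ) + 1) :=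
      one_div_le_one_div_of_le (by positivity) (by linarith)
    have h3 := mul_le_mul_of_nonneg_left h2 h1t.le
    linarith
  have hT1 : Tendsto (fun n => 1 - T n) atTop (𝓝 0) := by
    have h1 : Tendsto (fun n : ℕ => 1 / ((n : ℝ) + 1)) atTop (𝓝 0) :=
      tendsto_one_div_add_atTop_nhds_zero_nat
    have h2 := h1.const_mul (1 - t₄)
    rw [mul_zero] at h2
    refine h2.congr fun n => ?_
    rw [hT]
    ring
  choose g hg using fun n : ℕ => S.exists_vw (ex D x ((0, T n • v) : W × (Fin 2 → ℝ)))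
  choose w hw using fun n : ℕ => exists_sl A hv (g n)
  have hw' : ∀ n, Sl A v (g n) (u₀ + om (w n) u₀ • v) := fun n => by
    rw [← FlE_par hu₀.1 (hw n).1]
    exact hw n
  have hcs : CauchySeq fun n => om (w n) u₀ := by
    refine cauchySeq_of_le_tendsto_0' (fun n => C₄ * (1 - T n)) (fun n m hnm => ?_) ?_
    · rw [dist_comm, Real.dist_eq]
      exact hcau (T n) (hTI n) (T m) ⟨hTm n m hnm, (hTI m).2⟩ (g n) (g m) (hg n) (hg m) _ _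
        (hw' n) (hw' m)
    · have h1 := hT1.const_mul C₄
      rwa [mul_zero] at h1
  obtain ⟨s₁, hs₁⟩ := cauchySeq_tendsto_of_complete hcs
  refine ⟨u₀ + s₁ • v, C₄, t₄, h, ?_, hC₄, ht₄, fun t ht γ hγ w' hw₁ => ?_⟩
  · rw [FlE_om_sl, hu₀.1]
  · refine ⟨om w' u₀ - s₁, ?_, ?_⟩
    · have h1 := FlE_par hu₀.1 hw₁.1
      have h2 : u₀ + s₁ • v + (om w' u₀ - s₁) • v = u₀ + om w' u₀ • v := by
        rw [sub_smul]
        abel
      rw [h2]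
      exact h1
    · have h1 : Sl A v γ (u₀ + om w' u₀ • v) := by
        rw [← FlE_par hu₀.1 hw₁.1]
        exact hw₁
      have h2 : Tendsto (fun n => |om (w n) u₀ - om w' u₀|) atTop (𝓝 |s₁ - om w' u₀|) :=
        (hs₁.sub_const _).abs
      rw [abs_sub_comm]
      refine le_of_tendsto h2 ?_
      have h3 : ∀ᶠ n in atTop, 1 - T n < 1 - t := hT1.eventually_lt_const (by linarith [ht.2])
      filter_upwards [h3] with n hn
      exact hcau t ht (T n) ⟨by linarith, (hTI n).2⟩ γ (g n) hγ (hg n) _ _ h1 (hw' n)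

end H83T
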