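import Pool.Agent.H.MP_7a8a58_gt.h83c.FlE

/-!
MP_7a8a58_gt, helper83, third part.  Filling a rectangle next to a ray.
Paper proof: /team-store/h83_7a8a58_T4.md
-/

set_option autoImplicit false

open Set Metric Topology Filter

namespace H83T

variable {W : Type*} [NormedAddCommGroup W] [NormedSpace ℝ W] [FiniteDimensional ℝ W]
variable {X : Type*} [TopologicalSpace X] [T2Space X]
variable {Γ : Type*} [Group Γ] [MulAction Γ X] [ContinuousConstSMul Γ X]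
  [ProperlyDiscontinuousSMul Γ X]
variable {D : X → W × (Fin 2 → ℝ)}
  {L : Γ →* ((W × (Fin 2 → ℝ)) ≃ₗ[ℝ] (W × (Fin 2 → ℝ)))} {b : Γ → W × (Fin 2 → ℝ)}
  {A : Γ →* GL (Fin 2) ℤ} {K : Set X} {ε C C₄ t₄ : ℝ}

private theorem FlF_smul (t : ℝ) (v : Fin 2 → ℝ) :
    ((0, t • v) : W × (Fin 2 → ℝ)) = t • ((0, v) : W × (Fin 2 → ℝ)) := by
  rw [Prod.smul_mk, smul_zero]

private theorem RayF.ne_zero {x : X} {v u : Fin 2 → ℝ} (R : RayF D A K C₄ t₄ x v u) : v ≠ 0 := by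
  rintro rfl
  exact R.fm.ne_zero rfl

private theorem RayF.slp_small (S : FlSys D L b A K ε C) {x : X} {v u : Fin 2 → ℝ}
    (R : RayF D A K C₄ t₄ x v u) {t : ℝ} (ht : t ∈ Ico (0 : ℝ) 1) {γ : Γ}
    (hγ : VW D K (ex D x ((0, t • v) : W × (Fin 2 → ℝ))) γ) {w : Fin 2 → ℝ}
    (hw : Sl A v γ w) {r ε' : ℝ} (hr : |r| * (1 - t) ≤ ε' * ε) :
    N2 A γ (r • w) ≤ ε' := by
  have hg := S.gap R.fm ht hγ
  have hε := S.af.ε_pos
  have h1t : 0 < 1 - t := by linarith [ht.2]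
  have hn := N2_nonneg A γ w
  have h2 : N2 A γ v * N2 A γ w ≤ 1 := hw.2
  have h3 : |r| * N2 A γ w * ε ≤ |r| * N2 A γ w * ((1 - t) * N2 A γ v) :=
    mul_le_mul_of_nonneg_left hg.le (by positivity)
  have h4 : |r| * N2 A γ w * ((1 - t) * N2 A γ v) =
      |r| * (1 - t) * (N2 A γ v * N2 A γ w) := by ring
  have h5 : |r| * (1 - t) * (N2 A γ v * N2 A γ w) ≤ |r| * (1 - t) * 1 :=
    mul_le_mul_of_nonneg_left h2 (by positivity)
  have h6 : |r| * N2 A γ w * ε ≤ ε' * ε := by linarith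
  rw [N2_smul]
  exact le_of_mul_le_mul_right h6 hε

/-- one step of the sign argument -/
private theorem RayF.sign_step (S : FlSys D L b A K ε C) {x : X} {v u : Fin 2 → ℝ}
    (R : RayF D A K C₄ t₄ x v u) {t₀ t t₂ : ℝ} (ht₀ : t₄ ≤ t₀) (ht : t₀ ≤ t) (ht1 : t < 1)
    {a r : ℝ} (hr : |r| * (8 * (1 + C ^ 2)) * (1 - t₀) ≤ ε ^ 2)
    (hmiss : ((0, (a • v + r • u) - t • v) : W × (Fin 2 → ℝ)) ∉
      Dom D (ex D x ((0, t • v) : W × (Fin 2 → ℝ))))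
    {γ γ₂ : Γ} (hγ : VW D K (ex D x ((0, t • v) : W × (Fin 2 → ℝ))) γ) (hc : Cmp A C γ γ₂)
    (hs : |t₂ - t| * N2 A γ v ≤ 1 / 4 * ε)
    {κ κ₂ : ℝ} (hκ : Sl A v γ (u + κ • v)) (hκ₂ : Sl A v γ₂ (u + κ₂ • v))
    (h0 : 0 ≤ a - t - r * κ) : 0 < a - t₂ - r * κ₂ := by
  have h04 := R.t₄_mem.1
  have hI : t ∈ Ico (0 : ℝ) 1 := ⟨(h04.trans ht₀).trans ht, ht1⟩
  have hv : v ≠ 0 := R.ne_zero
  have hN : 0 < N2 A γ v := N2_pos A γ hv
  have hε := S.af.ε_pos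
  have hC := S.one_le
  have hg := S.gap R.fm hI hγ
  have h1t : 0 < 1 - t := by linarith
  have h1t₀ : 1 - t ≤ 1 - t₀ := by linarith
  -- the part along the slope vector is small
  have hsm : N2 A γ (r • (u + κ • v)) ≤ ε / 2 := by
    refine R.slp_small S hI hγ hκ ?_
    have h1 : |r| * (1 - t) ≤ |r| * (1 - t₀) := mul_le_mul_of_nonneg_left h1t₀ (abs_nonneg r)
    have h2 : 0 ≤ |r| * (1 - t₀) := mul_nonneg (abs_nonneg r) (by linarith)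
    have h3 : 0 ≤ |r| * (1 - t₀) * C ^ 2 := mul_nonneg h2 (sq_nonneg C)
    nlinarith
  -- decomposition
  have hdec : (a • v + r • u) - t • v = r • (u + κ • v) + (a - t - r * κ) • v := by
    module
  have hbig : ε < N2 A γ ((a • v + r • u) - t • v) := S.gap' hmiss hγ
  rw [hdec] at hbig
  have hbig2 : ε / 2 < (a - t - r * κ) * N2 A γ v := by
    have h1 := N2_add_le A γ (r • (u + κ • v)) ((a - t - r * κ) • v)
    rw [N2_smul A γ (a - t - r * κ) v, abs_of_nonneg h0] at h1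
    linarith
  -- comparison
  obtain ⟨κd, hκd, hκdb⟩ := sl_sub hC hv hc hκ hκ₂
  have hκe : κ₂ = κ + κd := by
    have h1 : (κ₂ - (κ + κd)) • v = 0 := by
      have h2 : κ₂ • v = κ • v + κd • v := by
        have := hκd
        rw [add_assoc] at this
        exact add_left_cancel this
      rw [sub_smul, add_smul, h2, sub_self]
    rcases smul_eq_zero.1 h1 with h2 | h2
    · linarith
    · exact absurd h2 hv
  have hrk : |r| * |κd| * N2 A γ v ≤ ε / 8 := by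
    have h1 : |r| * (|κd| * N2 A γ v ^ 2) ≤ |r| * (1 + C ^ 2) :=
      mul_le_mul_of_nonneg_left hκdb (abs_nonneg r)
    have h2 : |r| * (1 + C ^ 2) * (8 * (1 - t₀)) ≤ ε ^ 2 := by
      have h3 : |r| * (1 + C ^ 2) * (8 * (1 - t₀)) =
          |r| * (8 * (1 + C ^ 2)) * (1 - t₀) := by ring
      rw [h3]
      exact hr
    have h4 : 0 < 8 * (1 - t₀) := by linarith
    have h5 : |r| * (|κd| * N2 A γ v ^ 2) * (8 * (1 - t₀)) ≤ ε ^ 2 :=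
      (mul_le_mul_of_nonneg_right h1 h4.le).trans h2
    have h6 : ε ≤ (1 - t₀) * N2 A γ v :=
      hg.le.trans (mul_le_mul_of_nonneg_right h1t₀ hN.le)
    have h7 : 0 ≤ |r| * |κd| * N2 A γ v := by positivity
    have h8 : |r| * |κd| * N2 A γ v * 8 * ε ≤ ε * ε := by
      calc |r| * |κd| * N2 A γ v * 8 * ε ≤ |r| * |κd| * N2 A γ v * 8 * ((1 - t₀) * N2 A γ v) :=
            mul_le_mul_of_nonneg_left h6 (by positivity)
        _ = |r| * (|κd| * N2 A γ v ^ 2) * (8 * (1 - t₀)) := by ring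
        _ ≤ ε ^ 2 := h5
        _ = ε * ε := sq ε
    have h9 := le_of_mul_le_mul_right h8 hε
    linarith
  have hrk2 : r * κd * N2 A γ v ≤ ε / 8 := by
    refine le_trans ?_ hrk
    refine mul_le_mul_of_nonneg_right ?_ hN.le
    rw [← abs_mul]
    exact le_abs_self _
  have hs2 : (t₂ - t) * N2 A γ v ≤ 1 / 4 * ε :=
    (mul_le_mul_of_nonneg_right (le_abs_self _) hN.le).trans hs
  have hfin : 0 < (a - t₂ - r * κ₂) * N2 A γ v := by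
    have h1 : (a - t₂ - r * κ₂) * N2 A γ v =
        (a - t - r * κ) * N2 A γ v - (t₂ - t) * N2 A γ v - r * κd * N2 A γ v := by
      rw [hκe]
      ring
    rw [h1]
    linarith
  exact pos_of_mul_pos_left hfin hN.le

/-- PROOF: as `Ray.sign` in PlSign, with `ray_const` instead of `chain`. For `t ∈ [t₀, t']`, `γ` valid over `t`, slope vector
`w = u + κ • v` put `σ = a - t - r κ`: `(a • v + r • u) - t • v = σ • v + r • w`, so by `gap'` `ε < |σ| N + |r| / N`,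
`N = N2 A γ v > ε / (1 - t)` (`gap`), `|r| / N ≤ ε / 2` (`hr`), hence `ε / 2 < |σ| N`. For `Cmp A C γ γ₂` and
`|t₂ - t| N ≤ ε / 4`: `|σ₂ - σ| ≤ |t₂ - t| + |r| (1 + C ^ 2) / N ^ 2 ≤ ε / (4 N) + ε / (8 N) < |σ|` (`sl_sub`). So
`P t γ = (∃ κ, Sl A v γ (u + κ • v) ∧ 0 ≤ a - t - r * κ)` is preserved (`ray_const`, `I = Icc t₀ t'`, `δ = ε / 4`); `h0` gives
`P t₀ γ`, so `P t' γ'`; with `h1` this contradicts `ε / 2 < |σ| N` (the value `σ` for the given `κ'` is `≤ 0`; two slope vectors of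
the same `γ'` have the same sign of `σ`, same estimate with `γ₂ = γ`). -/
theorem RayF.sign (S : FlSys D L b A K ε C) {x : X} {v u : Fin 2 → ℝ}
    (R : RayF D A K C₄ t₄ x v u) {t₀ t' : ℝ} (ht₀ : t₄ ≤ t₀) (htt : t₀ ≤ t') (ht' : t' < 1)
    {a r : ℝ} (hr : |r| * (8 * (1 + C ^ 2)) * (1 - t₀) ≤ ε ^ 2)
    (hmiss : ∀ t ∈ Icc t₀ t', ((0, (a • v + r • u) - t • v) : W × (Fin 2 → ℝ)) ∉
      Dom D (ex D x ((0, t • v) : W × (Fin 2 → ℝ))))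
    {γ γ' : Γ} (hγ : VW D K (ex D x ((0, t₀ • v) : W × (Fin 2 → ℝ))) γ)
    (hγ' : VW D K (ex D x ((0, t' • v) : W × (Fin 2 → ℝ))) γ')
    {κ κ' : ℝ} (hκ : Sl A v γ (u + κ • v)) (hκ' : Sl A v γ' (u + κ' • v))
    (h0 : t₀ + r * κ ≤ a) (h1 : a ≤ t' + r * κ') : False := by
  have h04 := R.t₄_mem.1
  have hv : v ≠ 0 := R.ne_zero
  have hε := S.af.ε_pos
  have key := S.ray_const R.fm (I := Icc t₀ t') ordConnected_Icc
    (fun s hs => ⟨(h04.trans ht₀).trans hs.1, lt_of_le_of_lt hs.2 ht'⟩) (δ := 1 / 4 * ε)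
    (by linarith) (by linarith)
    (fun t γ => ∃ κ : ℝ, Sl A v γ (u + κ • v) ∧ 0 ≤ a - t - r * κ) ?_ t₀ ⟨le_rfl, htt⟩ t'
    ⟨htt, le_rfl⟩ γ γ' hγ hγ' ⟨κ, hκ, by linarith⟩
  · obtain ⟨κ₁, hκ₁, hσ⟩ := key
    have hC := S.one_le
    have hcc : Cmp A C γ' γ' := by
      intro z
      have h2 := N2_nonneg A γ' z
      have h3 : N2 A γ' z ≤ C * N2 A γ' z := by nlinarith
      exact ⟨h3, h3⟩
    have h2 := R.sign_step S ht₀ htt ht' (t₂ := t') hr (hmiss t' ⟨htt, le_rfl⟩) hγ' hcc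
      (by rw [sub_self, abs_zero, zero_mul]; linarith) hκ₁ hκ' hσ
    linarith
  · rintro t ht t₂ ht₂ γ₁ γ₂ hγ₁ hγ₂ hc hs ⟨κ₁, hκ₁, hσ⟩
    obtain ⟨w₂, hw₂⟩ := exists_sl A hv γ₂
    obtain ⟨κ₂, hκ₂, -⟩ := R.slope t₂ ⟨ht₀.trans ht₂.1, lt_of_le_of_lt ht₂.2 ht'⟩ γ₂ hγ₂ w₂ hw₂
    rw [hκ₂] at hw₂
    exact ⟨κ₂, hw₂, (R.sign_step S ht₀ ht.1 (lt_of_le_of_lt ht.2 ht') hr (hmiss t ht) hγ₁ hc hs
      hκ₁ hw₂ hσ).le⟩

/-- The parameter region between two slope lines. -/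
private def FlFG (t₀ t' κ κ' r₀ : ℝ) : Set (ℝ × ℝ) :=
  {p | |p.2| ≤ r₀ ∧ t₀ + p.2 * κ ≤ p.1 ∧ p.1 ≤ t' + p.2 * κ'}

private theorem FlF_isCompact (t₀ t' κ κ' r₀ : ℝ) : IsCompact (FlFG t₀ t' κ κ' r₀) := by
  have hcl : IsClosed (FlFG t₀ t' κ κ' r₀) := by
    have c1 : IsClosed {p : ℝ × ℝ | |p.2| ≤ r₀} := isClosed_le (by fun_prop) (by fun_prop)
    have c2 : IsClosed {p : ℝ × ℝ | t₀ + p.2 * κ ≤ p.1} := isClosed_le (by fun_prop) (by fun_prop)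
    have c3 : IsClosed {p : ℝ × ℝ | p.1 ≤ t' + p.2 * κ'} := isClosed_le (by fun_prop) (by fun_prop)
    exact c1.inter (c2.inter c3)
  have hsub : FlFG t₀ t' κ κ' r₀ ⊆
      Icc (t₀ - r₀ * |κ|) (t' + r₀ * |κ'|) ×ˢ Icc (-r₀) r₀ := by
    rintro ⟨a, r⟩ ⟨h1, h2, h3⟩
    simp only at h1 h2 h3
    have h4 : |r * κ| ≤ r₀ * |κ| := by
      rw [abs_mul]
      exact mul_le_mul_of_nonneg_right h1 (abs_nonneg _)
    have h5 : |r * κ'| ≤ r₀ * |κ'| := by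
      rw [abs_mul]
      exact mul_le_mul_of_nonneg_right h1 (abs_nonneg _)
    refine ⟨⟨?_, ?_⟩, abs_le.1 h1⟩
    · change t₀ - r₀ * |κ| ≤ a
      linarith [(abs_le.1 h4).1]
    · change a ≤ t' + r₀ * |κ'|
      linarith [(abs_le.1 h5).2]
  exact (isCompact_Icc.prod isCompact_Icc).of_isClosed_subset hcl hsub

private theorem FlF_convex (t₀ t' κ κ' r₀ ρ : ℝ) :
    Convex ℝ {p : ℝ × ℝ | p ∈ FlFG t₀ t' κ κ' r₀ ∧ |p.2| < ρ} := by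
  rintro ⟨a, r⟩ ⟨⟨h1, h2, h3⟩, h4⟩ ⟨a', r'⟩ ⟨⟨h1', h2', h3'⟩, h4'⟩ p q hp hq hpq
  simp only at h1 h2 h3 h4 h1' h2' h3' h4'
  have habs : |p * r + q * r'| ≤ p * |r| + q * |r'| := by
    refine (abs_add_le _ _).trans ?_
    rw [abs_mul, abs_mul, abs_of_nonneg hp, abs_of_nonneg hq]
  refine ⟨⟨?_, ?_, ?_⟩, ?_⟩
  · change |p * r + q * r'| ≤ r₀
    have e : r₀ = p * r₀ + q * r₀ := by rw [← add_mul, hpq, one_mul]
    have e1 := mul_le_mul_of_nonneg_left h1 hp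
    have e2 := mul_le_mul_of_nonneg_left h1' hq
    linarith
  · change t₀ + (p * r + q * r') * κ ≤ p * a + q * a'
    have e : t₀ = p * t₀ + q * t₀ := by rw [← add_mul, hpq, one_mul]
    nlinarith
  · change p * a + q * a' ≤ t' + (p * r + q * r') * κ'
    have e : t' = p * t' + q * t' := by rw [← add_mul, hpq, one_mul]
    nlinarith
  · change |p * r + q * r'| < ρ
    rcases eq_or_lt_of_le hp with h | h
    · have hq1 : q = 1 := by linarith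
      rw [← h, hq1, zero_mul, zero_add, one_mul]
      exact h4'
    · have e : ρ = p * ρ + q * ρ := by rw [← add_mul, hpq, one_mul]
      have e1 := mul_lt_mul_of_pos_left h4 h
      have e2 := mul_le_mul_of_nonneg_left h4'.le hq
      linarith

/-- PROOF: as `Ray.quad` in PlFill (same extremal argument; all vectors are `(0, z)`; `move`, `ext_corner` are applied to
convex sets of the form `{(0, z) | z ∈ C'}`). -/
theorem RayF.quad (S : FlSys D L b A K ε C) {x : X} {v u : Fin 2 → ℝ}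
    (R : RayF D A K C₄ t₄ x v u) {t₀ t' : ℝ} (ht₀ : t₄ ≤ t₀) (htt : t₀ ≤ t') (ht' : t' < 1)
    {r₀ : ℝ} (hr : r₀ * (8 * (1 + C ^ 2)) * (1 - t₀) ≤ ε ^ 2)
    {γ γ' : Γ} (hγ : VW D K (ex D x ((0, t₀ • v) : W × (Fin 2 → ℝ))) γ)
    (hγ' : VW D K (ex D x ((0, t' • v) : W × (Fin 2 → ℝ))) γ')
    {κ κ' : ℝ} (hκ : Sl A v γ (u + κ • v)) (hκ' : Sl A v γ' (u + κ' • v))
    {a r : ℝ} (hr0 : |r| ≤ r₀) (h0 : t₀ + r * κ ≤ a) (h1 : a ≤ t' + r * κ') :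
    ((0, (a - t₀) • v + r • u) : W × (Fin 2 → ℝ)) ∈
      Dom D (ex D x ((0, t₀ • v) : W × (Fin 2 → ℝ))) := by
  by_contra hcon
  have hD := S.af.hD
  have h04 : 0 ≤ t₀ := R.t₄_mem.1.trans ht₀
  obtain ⟨y, hy⟩ : ∃ y, y = ex D x ((0, t₀ • v) : W × (Fin 2 → ℝ)) := ⟨_, rfl⟩
  rw [← hy] at hcon
  have hmap : Continuous (fun p : ℝ × ℝ =>
      ((0, (p.1 - t₀) • v + p.2 • u) : W × (Fin 2 → ℝ))) := by fun_prop
  have hScl : IsClosed {p : ℝ × ℝ |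
      ((0, (p.1 - t₀) • v + p.2 • u) : W × (Fin 2 → ℝ)) ∉ Dom D y} :=
    ((isOpen_dom hD y).preimage hmap).isClosed_compl
  have hScomp : IsCompact (FlFG t₀ t' κ κ' r₀ ∩
      {p : ℝ × ℝ | ((0, (p.1 - t₀) • v + p.2 • u) : W × (Fin 2 → ℝ)) ∉ Dom D y}) :=
    (FlF_isCompact t₀ t' κ κ' r₀).inter_right hScl
  obtain ⟨⟨a₁, r₁⟩, ⟨hG, hS⟩, hmin⟩ := hScomp.exists_isMinOn ⟨(a, r), ⟨hr0, h0, h1⟩, hcon⟩
    (f := fun p : ℝ × ℝ => |p.2|) (by fun_prop)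
  obtain ⟨g1, g2, g3⟩ := hG
  simp only at g1 g2 g3
  have hS' : ((0, (a₁ - t₀) • v + r₁ • u) : W × (Fin 2 → ℝ)) ∉ Dom D y := hS
  have hr00 : 0 ≤ r₀ := (abs_nonneg _).trans g1
  have htI : ∀ t ∈ Icc t₀ t', t ∈ Ico (0 : ℝ) 1 := fun t ht =>
    ⟨h04.trans ht.1, lt_of_le_of_lt ht.2 ht'⟩
  have ht₀I : t₀ ∈ Ico (0 : ℝ) 1 := htI t₀ ⟨le_rfl, htt⟩
  have hexex : ∀ t ∈ Icc t₀ t', ((0, (t - t₀) • v) : W × (Fin 2 → ℝ)) ∈ Dom D y ∧
      ex D y ((0, (t - t₀) • v) : W × (Fin 2 → ℝ)) = ex D x ((0, t • v) : W × (Fin 2 → ℝ)) := by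
    intro t ht
    have h2 := R.fm.ex_ex hD ht₀I (htI t ht)
    rw [← FlF_smul, ← FlF_smul, ← FlF_smul, ← hy] at h2
    exact h2
  have hr1 : r₁ ≠ 0 := by
    rintro rfl
    rw [zero_mul, add_zero] at g2 g3
    apply hS'
    rw [zero_smul, add_zero]
    exact (hexex a₁ ⟨g2, g3⟩).1
  have hr1' : 0 < |r₁| := abs_pos.2 hr1
  -- the convex set
  obtain ⟨Q, hQ⟩ : ∃ Q : Set (ℝ × ℝ), Q = {p : ℝ × ℝ | p ∈ FlFG t₀ t' κ κ' r₀ ∧ |p.2| < |r₁|} :=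
    ⟨_, rfl⟩
  obtain ⟨C', hC'⟩ : ∃ C' : Set (W × (Fin 2 → ℝ)), C' = (fun p : ℝ × ℝ =>
    ((0, (p.1 - t₀) • v + p.2 • u) : W × (Fin 2 → ℝ))) '' Q := ⟨_, rfl⟩
  have hQc : Convex ℝ Q := by
    rw [hQ]
    exact FlF_convex t₀ t' κ κ' r₀ |r₁|
  have hC'c : Convex ℝ C' := by
    rw [hC']
    rintro _ ⟨⟨a2, r2⟩, hp, rfl⟩ _ ⟨⟨a3, r3⟩, hq, rfl⟩ p q hp0 hq0 hpq
    refine ⟨p • (a2, r2) + q • (a3, r3), hQc hp hq hp0 hq0 hpq, ?_⟩
    change ((0, (p * a2 + q * a3 - t₀) • v + (p * r2 + q * r3) • u) : W × (Fin 2 → ℝ)) =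
      p • ((0, (a2 - t₀) • v + r2 • u) : W × (Fin 2 → ℝ)) +
      q • ((0, (a3 - t₀) • v + r3 • u) : W × (Fin 2 → ℝ))
    have e : p * a2 + q * a3 - t₀ = p * (a2 - t₀) + q * (a3 - t₀) := by
      have e2 : t₀ = p * t₀ + q * t₀ := by rw [← add_mul, hpq, one_mul]
      linarith
    rw [e, Prod.smul_mk, Prod.smul_mk, Prod.mk_add_mk, smul_zero, smul_zero, add_zero]
    congr 1
    module
  have hC'sub : C' ⊆ Dom D y := by
    rw [hC']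
    rintro _ ⟨⟨a2, r2⟩, hp, rfl⟩
    rw [hQ] at hp
    by_contra hno
    have h5 := hmin ⟨hp.1, hno⟩
    exact absurd hp.2 (not_lt.2 h5)
  refine R.sign S ht₀ htt ht' (a := a₁) (r := r₁) ?_ ?_ hγ hγ' hκ hκ' g2 g3
  · have h6 : |r₁| * (8 * (1 + C ^ 2)) * (1 - t₀) ≤ r₀ * (8 * (1 + C ^ 2)) * (1 - t₀) := by
      have h7 : 0 ≤ 1 - t₀ := by linarith
      gcongr
    exact h6.trans hr
  · intro t ht hin
    obtain ⟨e1, e2⟩ := hexex t ht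
    apply hS'
    refine ext_corner hD hC'c hC'sub (v := ((0, (t - t₀) • v) : W × (Fin 2 → ℝ))) ?_ ?_ ?_
    · rw [hC', hQ]
      refine ⟨(t, 0), ⟨⟨?_, ?_, ?_⟩, ?_⟩, ?_⟩
      · change |(0 : ℝ)| ≤ r₀
        rw [abs_zero]
        exact hr00
      · change t₀ + 0 * κ ≤ t
        rw [zero_mul, add_zero]
        exact ht.1
      · change t ≤ t' + 0 * κ'
        rw [zero_mul, add_zero]
        exact ht.2
      · change |(0 : ℝ)| < |r₁|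
        rw [abs_zero]
        exact hr1'
      · change ((0, (t - t₀) • v + (0 : ℝ) • u) : W × (Fin 2 → ℝ)) = (0, (t - t₀) • v)
        rw [zero_smul, add_zero]
    · rw [e2]
      have e3 : ((0, (a₁ - t₀) • v + r₁ • u) : W × (Fin 2 → ℝ)) - (0, (t - t₀) • v) =
          (0, (a₁ • v + r₁ • u) - t • v) := by
        rw [Prod.mk_sub_mk, sub_zero]
        congr 1
        module
      rw [e3]
      exact hin
    · intro s hs
      rw [hC', hQ]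
      refine ⟨(t₀ + s * (a₁ - t₀), s * r₁), ⟨⟨?_, ?_, ?_⟩, ?_⟩, ?_⟩
      · change |s * r₁| ≤ r₀
        rw [abs_mul, abs_of_nonneg hs.1]
        have := hs.2
        nlinarith [abs_nonneg r₁]
      · change t₀ + s * r₁ * κ ≤ t₀ + s * (a₁ - t₀)
        have h8 : s * (r₁ * κ) ≤ s * (a₁ - t₀) :=
          mul_le_mul_of_nonneg_left (by linarith) hs.1
        linarith
      · change t₀ + s * (a₁ - t₀) ≤ t' + s * r₁ * κ'
        have h8 : s * (a₁ - t') ≤ s * (r₁ * κ') :=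
          mul_le_mul_of_nonneg_left (by linarith) hs.1
        have h9 : 0 ≤ (1 - s) * (t' - t₀) :=
          mul_nonneg (by linarith [hs.2]) (by linarith)
        linarith
      · change |s * r₁| < |r₁|
        rw [abs_mul, abs_of_nonneg hs.1]
        have := hs.2
        nlinarith
      · change ((0, (t₀ + s * (a₁ - t₀) - t₀) • v + (s * r₁) • u) : W × (Fin 2 → ℝ)) =
          s • ((0, (a₁ - t₀) • v + r₁ • u) : W × (Fin 2 → ℝ))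
        rw [Prod.smul_mk, smul_zero]
        congr 1
        module

/-- PROOF: `r₀ = 1 / (4 C₄)` and `t₁ ≥ t₄` with `r₀ (8 (1 + C ^ 2)) (1 - t₁) ≤ ε ^ 2`. Given `t₀`, `α`, `r` choose `t' ∈ [t₀, 1)` with
`α ≤ t' - (1 - t') / 4`; valid `γ`, `γ'` over `t₀`, `t'` (`exists_vw`), slope vectors (`exists_sl`) `u + κ • v`, `u + κ' • v` with
`|κ| ≤ C₄ (1 - t₀)`, `|κ'| ≤ C₄ (1 - t')`; `quad` with `a = α`: `t₀ + r κ ≤ t₀ + (1 - t₀) / 4 ≤ α`. -/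
theorem RayF.fill (S : FlSys D L b A K ε C) {x : X} {v u : Fin 2 → ℝ}
    (R : RayF D A K C₄ t₄ x v u) : ∃ r₀ > 0, r₀ * C₄ ≤ 1 / 4 ∧ ∃ t₁ ∈ Ico t₄ 1,
      ∀ t₀ ∈ Ico t₁ 1, ∀ α ∈ Ico ((1 + t₀) / 2) 1, ∀ r : ℝ, |r| ≤ r₀ →
        ((0, (α - t₀) • v + r • u) : W × (Fin 2 → ℝ)) ∈
          Dom D (ex D x ((0, t₀ • v) : W × (Fin 2 → ℝ))) := by
  have hC4 := R.C₄_pos
  have hε := S.af.ε_pos
  have h04 := R.t₄_mem.1
  have h14 := R.t₄_mem.2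
  obtain ⟨r₀, hr₀⟩ : ∃ r₀, r₀ = 1 / (4 * C₄) := ⟨_, rfl⟩
  have hr₀0 : 0 < r₀ := by
    rw [hr₀]
    positivity
  have hr₀C : r₀ * C₄ = 1 / 4 := by
    rw [hr₀]
    field_simp
  have hm : 0 < 8 * (1 + C ^ 2) := by positivity
  obtain ⟨δ, hδ⟩ : ∃ δ, δ = min (1 - t₄) (ε ^ 2 / (r₀ * (8 * (1 + C ^ 2)))) := ⟨_, rfl⟩
  have hδ0 : 0 < δ := by
    rw [hδ]
    refine lt_min (by linarith) ?_
    positivity
  have hδ1 : δ ≤ 1 - t₄ := by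
    rw [hδ]
    exact min_le_left _ _
  have hδ2 : r₀ * (8 * (1 + C ^ 2)) * δ ≤ ε ^ 2 := by
    have h1 : δ ≤ ε ^ 2 / (r₀ * (8 * (1 + C ^ 2))) := by
      rw [hδ]
      exact min_le_right _ _
    rw [le_div_iff₀ (by positivity)] at h1
    linarith
  refine ⟨r₀, hr₀0, hr₀C.le, 1 - δ, ⟨by linarith, by linarith⟩, ?_⟩
  intro t₀ ht₀ α hα r hr
  have ht₀4 : t₄ ≤ t₀ := by linarith [ht₀.1]
  have hs0 : 0 < 1 - t₀ := by linarith [ht₀.2]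
  have hs1 : 1 - t₀ ≤ δ := by linarith [ht₀.1]
  obtain ⟨η, hη⟩ : ∃ η, η = (1 - α) / (1 + r₀ * C₄) := ⟨_, rfl⟩
  have hd : 0 < 1 + r₀ * C₄ := by positivity
  have hη0 : 0 < η := by
    rw [hη]
    exact div_pos (by linarith [hα.2]) hd
  have hη1 : η * (1 + r₀ * C₄) = 1 - α := by
    rw [hη, div_mul_cancel₀ _ hd.ne']
  have hη2 : η ≤ 1 - α := by
    have h1 : 0 ≤ η * (r₀ * C₄) := by positivity
    linarith
  have hη3 : η ≤ (1 - t₀) / 2 := by linarith [hα.1]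
  obtain ⟨γ, hγ⟩ := S.exists_vw (ex D x ((0, t₀ • v) : W × (Fin 2 → ℝ)))
  obtain ⟨γ', hγ'⟩ := S.exists_vw (ex D x ((0, (1 - η) • v) : W × (Fin 2 → ℝ)))
  obtain ⟨w, hw⟩ := exists_sl A R.ne_zero γ
  obtain ⟨w', hw'⟩ := exists_sl A R.ne_zero γ'
  obtain ⟨κ, hκ, hκa⟩ := R.slope t₀ ⟨ht₀4, ht₀.2⟩ γ hγ w hw
  obtain ⟨κ', hκ', hκa'⟩ := R.slope (1 - η) ⟨by linarith, by linarith⟩ γ' hγ' w' hw'
  rw [hκ] at hw
  rw [hκ'] at hw'
  have e1 : |r * κ| ≤ r₀ * (C₄ * (1 - t₀)) := by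
    rw [abs_mul]
    exact mul_le_mul hr hκa (abs_nonneg _) hr₀0.le
  have e2 : |r * κ'| ≤ r₀ * (C₄ * (1 - (1 - η))) := by
    rw [abs_mul]
    exact mul_le_mul hr hκa' (abs_nonneg _) hr₀0.le
  have e3 : r₀ * (C₄ * (1 - t₀)) = 1 / 4 * (1 - t₀) := by
    rw [← mul_assoc, hr₀C]
  have e4 : r₀ * (C₄ * (1 - (1 - η))) = η * (r₀ * C₄) := by ring
  refine R.quad S ht₀4 (t' := 1 - η) (by linarith) (by linarith) (r₀ := r₀) ?_ hγ hγ' hw hw' hr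
    ?_ ?_
  · have h3 : r₀ * (8 * (1 + C ^ 2)) * (1 - t₀) ≤ r₀ * (8 * (1 + C ^ 2)) * δ :=
      mul_le_mul_of_nonneg_left hs1 (by positivity)
    exact h3.trans hδ2
  · linarith [(abs_le.1 e1).2, hα.1]
  · linarith [(abs_le.1 e2).1]

end H83T
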