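import Pool.Agent.H.MP_7a8a58_gt.h83c.FlE

/-!
MP_7a8a58_gt, helper83, third part.  Points near the end of a slit: geometry.
Paper proof: /team-store/h83_7a8a58_T4.md
-/

set_option autoImplicit false

open Set Metric Topology Filter

namespace H83T

variable {W : Type*} [NormedAddCommGroup W] [NormedSpace ℝ W] [FiniteDimensional ℝ W]
variable {X : Type*} [TopologicalSpace X] [T2Space X]
variable {Γ : Type*} [Group Γ] [MulAction Γ X] [ContinuousConstSMul Γ X]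
  [ProperlyDiscontinuousSMul Γ X]
variable {D : X → W × (Fin 2 → ℝ)}
  {L : Γ →* ((W × (Fin 2 → ℝ)) ≃ₗ[ℝ] (W × (Fin 2 → ℝ)))} {b : Γ → W × (Fin 2 → ℝ)}
  {A : Γ →* GL (Fin 2) ℤ} {K : Set X} {ε C C₄ t₄ : ℝ}

section geo

variable {E : Type*} [NormedAddCommGroup E] [NormedSpace ℝ E]

private theorem FlGa_convex (V U : E) (t₀ r₀ lo hi : ℝ) :
    Convex ℝ {z : E | ∃ α ∈ Ico lo hi, ∃ r : ℝ, |r| ≤ r₀ ∧ z = (α - t₀) • V + r • U} := by
  rintro _ ⟨α, hα, r, hr, rfl⟩ _ ⟨α', hα', r', hr', rfl⟩ p q hp hq hpq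
  refine ⟨p * α + q * α', ?_, p * r + q * r', ?_, ?_⟩
  · have h := (convex_Ico lo hi) hα hα' hp hq hpq
    simpa only [smul_eq_mul] using h
  · calc |p * r + q * r'| ≤ |p * r| + |q * r'| := abs_add_le _ _
      _ = p * |r| + q * |r'| := by rw [abs_mul, abs_mul, abs_of_nonneg hp, abs_of_nonneg hq]
      _ ≤ p * r₀ + q * r₀ :=
          add_le_add (mul_le_mul_of_nonneg_left hr hp) (mul_le_mul_of_nonneg_left hr' hq)
      _ = r₀ := by rw [← add_mul, hpq, one_mul]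
  · have h1 : t₀ = p * t₀ + q * t₀ := by rw [← add_mul, hpq, one_mul]
    have h2 : p * α + q * α' - t₀ = p * (α - t₀) + q * (α' - t₀) := by
      linear_combination h1 * (-1 : ℝ)
    rw [h2]
    module

private theorem FlGa_geo [FiniteDimensional ℝ E] {Y : Type*} [TopologicalSpace Y] [T2Space Y]
    {D : Y → E} (hD : IsLocalHomeomorph D) {x : Y} {V U : E}
    (h : Fm D x V) {t₀ r₀ : ℝ} (ht₀ : t₀ ∈ Ico (0 : ℝ) 1)
    (hfill : ∀ α ∈ Ico ((1 + t₀) / 2) 1, ∀ r : ℝ, |r| ≤ r₀ →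
      (α - t₀) • V + r • U ∈ Dom D (ex D x (t₀ • V)))
    {r r' : ℝ} (hr : |r| ≤ r₀) (hr' : |r'| ≤ r₀)
    (hp : (1 - t₀) • V + r • U ∉ Dom D (ex D x (t₀ • V)))
    (hq : (1 - t₀) • V + r' • U ∈ Dom D (ex D x (t₀ • V)))
    {t κ α : ℝ} (ht : t ∈ Ico ((1 + t₀) / 2) 1) (hα : α ∈ Ico ((1 + t₀) / 2) 1)
    (hακ : α = t + r' * κ) :
    ex D (ex D (ex D x (t₀ • V)) ((1 - t₀) • V + r' • U)) ((-(1 - α)) • V) =
        ex D (ex D x (t • V)) (r' • (U + κ • V)) ∧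
      (1 - α) • V + (r - r') • U ∉ Dom D (ex D (ex D x (t • V)) (r' • (U + κ • V))) := by
  obtain ⟨h0, h1⟩ := ht₀
  obtain ⟨y, hy⟩ : ∃ y, y = ex D x (t₀ • V) := ⟨_, rfl⟩
  rw [← hy] at hfill hp hq ⊢
  have hr₀ : 0 ≤ r₀ := (abs_nonneg r).trans hr
  obtain ⟨C₂, hC₂⟩ : ∃ C₂ : Set E, C₂ = {z | ∃ α ∈ Ico ((1 + t₀) / 2) 1, ∃ r : ℝ, |r| ≤ r₀ ∧
    z = (α - t₀) • V + r • U} := ⟨_, rfl⟩
  have hC₂c : Convex ℝ C₂ := by
    rw [hC₂]
    exact FlGa_convex V U t₀ r₀ _ _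
  have hC₂m : ∀ α ∈ Ico ((1 + t₀) / 2) 1, ∀ r : ℝ, |r| ≤ r₀ → (α - t₀) • V + r • U ∈ C₂ := by
    intro α hα r hr
    rw [hC₂]
    exact ⟨α, hα, r, hr, rfl⟩
  have hC₂s : C₂ ⊆ Dom D y := by
    rw [hC₂]
    rintro _ ⟨α, hα, r, hr, rfl⟩
    exact hfill α hα r hr
  -- first move
  have ht1 : t ∈ Ico (0 : ℝ) 1 := ⟨by linarith [ht.1], ht.2⟩
  have hex := (h.ex_ex hD ⟨h0, h1⟩ ht1).2
  rw [← hy] at hex
  have e1 : (t - t₀) • V + r' • (U + κ • V) = (α - t₀) • V + r' • U := by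
    rw [hακ]
    module
  have hm1 := (move hD hC₂c hC₂s (v := (t - t₀) • V) (w := r' • (U + κ • V))
    (by
      have := hC₂m t ht 0 (by rwa [abs_zero])
      rwa [zero_smul, add_zero] at this)
    (by rw [e1]; exact hC₂m α hα r' hr')).2
  rw [hex, e1] at hm1
  rw [hm1]
  constructor
  · -- second move
    have hC₃c : Convex ℝ ((fun a : ℝ => (a - t₀) • V + r' • U) '' Icc α 1) := by
      rintro _ ⟨a, ha, rfl⟩ _ ⟨a', ha', rfl⟩ p q hp hq hpq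
      refine ⟨p * a + q * a', (convex_Icc α 1) ha ha' hp hq hpq, ?_⟩
      change (p * a + q * a' - t₀) • V + r' • U =
        p • ((a - t₀) • V + r' • U) + q • ((a' - t₀) • V + r' • U)
      have hq1 : q = 1 - p := by linarith
      rw [hq1]
      module
    have hC₃s : (fun a : ℝ => (a - t₀) • V + r' • U) '' Icc α 1 ⊆ Dom D y := by
      rintro _ ⟨a, ha, rfl⟩
      rcases lt_or_eq_of_le ha.2 with h2 | h2
      · exact hfill a ⟨hα.1.trans ha.1, h2⟩ r' hr'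
      · rw [h2]
        exact hq
    have e2 : (1 - t₀) • V + r' • U + (-(1 - α)) • V = (α - t₀) • V + r' • U := by
      module
    have hm2 := (move hD hC₃c hC₃s (v := (1 - t₀) • V + r' • U) (w := (-(1 - α)) • V)
      ⟨1, ⟨hα.2.le, le_rfl⟩, rfl⟩ (by rw [e2]; exact ⟨α, ⟨le_rfl, hα.2.le⟩, rfl⟩)).2
    rw [e2] at hm2
    exact hm2
  · intro hbad
    apply hp
    have hmul : ∀ s ∈ Icc (0 : ℝ) 1, |s * r| ≤ r₀ := by
      intro s hs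
      rw [abs_mul, abs_of_nonneg hs.1]
      exact (mul_le_of_le_one_left (abs_nonneg r) hs.2).trans hr
    have hz : (1 - t₀) • V + r • U - ((α - t₀) • V + r' • U) = (1 - α) • V + (r - r') • U := by
      module
    refine ext_corner hD (C := convexJoin ℝ {0} C₂) ((convex_singleton (0 : E)).convexJoin hC₂c)
      ?_ (v := (α - t₀) • V + r' • U) ?_ (by rw [hz]; exact hbad) ?_
    · intro z hz
      obtain ⟨a, ha, b, hb, hab⟩ := mem_convexJoin.mp hz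
      have ha0 : a = 0 := ha
      subst ha0
      obtain ⟨p, q', hp, hq', hpq, rfl⟩ := hab
      rw [smul_zero, zero_add]
      exact smul_mem_dom (hC₂s hb) ⟨hq', by linarith⟩
    · exact mem_convexJoin.mpr ⟨0, rfl, _, hC₂m α hα r' hr', right_mem_segment ℝ _ _⟩
    · intro c hc
      rcases le_or_gt (1 / 2) c with h2 | h2
      · refine mem_convexJoin.mpr ⟨0, rfl, c • ((1 - t₀) • V + r • U), ?_,
          right_mem_segment ℝ _ _⟩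
        have e3 : c • ((1 - t₀) • V + r • U) = (c * (1 - t₀) + t₀ - t₀) • V + (c * r) • U := by
          module
        rw [e3]
        refine hC₂m _ ⟨?_, ?_⟩ _ (hmul c ⟨hc.1, hc.2.le⟩)
        · nlinarith
        · nlinarith [hc.2]
      · refine mem_convexJoin.mpr ⟨0, rfl, (1 / 2 : ℝ) • ((1 - t₀) • V + r • U), ?_, ?_⟩
        · have e3 : (1 / 2 : ℝ) • ((1 - t₀) • V + r • U) =
              ((1 + t₀) / 2 - t₀) • V + (1 / 2 * r) • U := by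
            module
          rw [e3]
          exact hC₂m _ ⟨le_rfl, by linarith⟩ _ (hmul (1 / 2) ⟨by norm_num, by norm_num⟩)
        · refine ⟨1 - 2 * c, 2 * c, by linarith, by linarith [hc.1], by ring, ?_⟩
          rw [smul_zero, zero_add, smul_smul]
          congr 1
          ring

end geo

/-- Put `y₀ = ex D x (0, t₀ • v)`, `r' = e (r + y₁)`, `q = ex D y₀ (0, (1 - t₀) • v + r' • u)`.
PROOF. `C₂ = {(0, (α - t₀) • v + s • u) | (1 + t₀) / 2 ≤ α < 1, |s| ≤ r₀} ⊆ Dom D y₀` is convex, and so is its star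
`{c • z | c ∈ [0, 1], z ∈ C₂} ⊆ Dom D y₀` (`smul_mem_dom`).
For `t < 1` close to 1 let `γt` be valid over `t` (`exists_vw`), `w = u + κ • v` a slope vector (`exists_sl`, `R.slope`),
`Z = ex D (ex D x (0, t • v)) (0, r' • w)`: `N2 A γt (r' • w) ≤ |r'| / N2 A γt v ≤ |r'| (1 - t) / ε ≤ ε` (`gap`), so it is in the
domain (`chart`) and `comp2` gives `γ₁`. By `move` with `C₂` (`ex D x (0, t • v) = ex D y₀ (0, (t - t₀) • v)`, `Fm.ex_ex`)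
`Z = ex D y₀ (0, (α - t₀) • v + r' • u)`, `α = t + r' κ`, and `(3/4) (1 - t) ≤ 1 - α ≤ (5/4) (1 - t)` because
`|r' κ| ≤ r₀ C₄ (1 - t)`. The segment `{(0, (α' - t₀) • v + r' • u) | α ≤ α' ≤ 1}` is convex and in `Dom D y₀` (`hfill`, `hq`), so
`move` gives `Z = ex D q (0, -(1 - α) • v)`; `N2 A γq (-(1 - α) • v) ≤ ε` for `t` close to 1 and `comp2` gives `γ₂`.
Finally if `(0, μ) ∈ Dom D Z`, `μ = (1 - α) • v - (e y₁) • u`, then `ext_corner` at `y₀` with the star of `C₂` gives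
`(0, (1 - t₀) • v + (e r) • u) ∈ Dom D y₀`, contradiction to `hp` (`c • ((1 - t₀) • v + (e r) • u)` is in `C₂` for
`c ∈ [1/2, 1)` and in the star for `c ≤ 1/2`). -/
theorem RayF.near (S : FlSys D L b A K ε C) {x : X} {v u : Fin 2 → ℝ}
    (R : RayF D A K C₄ t₄ x v u) {t₀ r₀ : ℝ} (ht₀ : t₀ ∈ Ico t₄ 1) (hr₀ : r₀ * C₄ ≤ 1 / 4)
    (hfill : ∀ α ∈ Ico ((1 + t₀) / 2) 1, ∀ r : ℝ, |r| ≤ r₀ →
      ((0, (α - t₀) • v + r • u) : W × (Fin 2 → ℝ)) ∈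
        Dom D (ex D x ((0, t₀ • v) : W × (Fin 2 → ℝ))))
    {e : ℝ} (he : e = 1 ∨ e = -1) {r r₁ : ℝ} (hr : 0 ≤ r) (hr₁ : r < r₁) (hr₁' : r₁ ≤ r₀)
    (hp : ((0, (1 - t₀) • v + (e * r) • u) : W × (Fin 2 → ℝ)) ∉
      Dom D (ex D x ((0, t₀ • v) : W × (Fin 2 → ℝ))))
    (hq : ∀ r' ∈ Ioc r r₁, ((0, (1 - t₀) • v + (e * r') • u) : W × (Fin 2 → ℝ)) ∈
      Dom D (ex D x ((0, t₀ • v) : W × (Fin 2 → ℝ))))
    {y₁ : ℝ} (hy₁ : 0 < y₁) (hy₁' : y₁ ≤ r₁ - r) {γq : Γ}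
    (hγq : VW D K (ex D (ex D x ((0, t₀ • v) : W × (Fin 2 → ℝ)))
      ((0, (1 - t₀) • v + (e * (r + y₁)) • u) : W × (Fin 2 → ℝ))) γq) :
    ∃ t₅ ∈ Ico t₀ 1, ∀ t ∈ Ico t₅ 1, ∃ (Z : X) (γt γ₁ γ₂ : Γ) (κ : ℝ),
      VW D K (ex D x ((0, t • v) : W × (Fin 2 → ℝ))) γt ∧ Sl A v γt (u + κ • v) ∧
      |κ| ≤ C₄ * (1 - t) ∧ VW D K Z γ₁ ∧ Cmp A C γt γ₁ ∧ VW D K Z γ₂ ∧ Cmp A C γq γ₂ ∧
      ((0, (1 - (t + (e * (r + y₁)) * κ)) • v - (e * y₁) • u) : W × (Fin 2 → ℝ)) ∉ Dom D Z := by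
  obtain ⟨h0, h1⟩ : 0 ≤ t₀ ∧ t₀ < 1 := ⟨R.t₄_mem.1.trans ht₀.1, ht₀.2⟩
  have hε := S.af.ε_pos
  have hr₀0 : 0 < r₀ := by linarith
  have habse : |e| = 1 := by
    rcases he with rfl | rfl
    · exact abs_one
    · rw [abs_neg, abs_one]
  obtain ⟨ρ, hρ⟩ : ∃ ρ, ρ = e * (r + y₁) := ⟨_, rfl⟩
  have hρa : |ρ| ≤ r₀ := by
    rw [hρ, abs_mul, habse, one_mul, abs_of_nonneg (by linarith)]
    linarith
  have hera : |e * r| ≤ r₀ := by
    rw [abs_mul, habse, one_mul, abs_of_nonneg hr]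
    linarith
  have hN0 := N2_nonneg A γq v
  obtain ⟨δ, hδ⟩ : ∃ δ, δ = min ((1 - t₀) * (2 / 5))
    (min (ε ^ 2 / r₀) (ε / (2 * (N2 A γq v + 1)))) := ⟨_, rfl⟩
  have hδ0 : 0 < δ := by
    rw [hδ]
    refine lt_min (by nlinarith) (lt_min (by positivity) (by positivity))
  have hδ1 : δ ≤ (1 - t₀) * (2 / 5) := by
    rw [hδ]
    exact min_le_left _ _
  have hδ2 : δ * r₀ ≤ ε ^ 2 := by
    have h2 : δ ≤ ε ^ 2 / r₀ := by
      rw [hδ]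
      exact (min_le_right _ _).trans (min_le_left _ _)
    rwa [le_div_iff₀ hr₀0] at h2
  have hδ3 : δ * (2 * (N2 A γq v + 1)) ≤ ε := by
    have h2 : δ ≤ ε / (2 * (N2 A γq v + 1)) := by
      rw [hδ]
      exact (min_le_right _ _).trans (min_le_right _ _)
    rwa [le_div_iff₀ (by positivity)] at h2
  clear hδ
  refine ⟨1 - δ, ⟨by linarith, by linarith⟩, ?_⟩
  intro t ht
  obtain ⟨η, hη⟩ : ∃ η, η = 1 - t := ⟨_, rfl⟩
  have hη0 : 0 < η := by rw [hη]; linarith [ht.2]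
  have hη1 : η ≤ δ := by rw [hη]; linarith [ht.1]
  have htt : t = 1 - η := by rw [hη]; ring
  obtain ⟨γt, hγt⟩ := S.exists_vw (ex D x ((0, t • v) : W × (Fin 2 → ℝ)))
  have hv : v ≠ 0 := by
    rintro rfl
    exact R.fm.miss (zero_mem_dom D x)
  obtain ⟨w, hw⟩ := exists_sl A hv γt
  obtain ⟨κ, hwκ, hκ⟩ := R.slope t ⟨by linarith [ht₀.1], ht.2⟩ γt hγt w hw
  have hgap := S.gap R.fm (t := t) ⟨by linarith, ht.2⟩ hγt
  rw [← hη] at hκ hgap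
  have hρκ : |ρ * κ| ≤ 1 / 4 * η := by
    rw [abs_mul]
    calc |ρ| * |κ| ≤ r₀ * (C₄ * η) := mul_le_mul hρa hκ (abs_nonneg _) hr₀0.le
      _ = r₀ * C₄ * η := by ring
      _ ≤ 1 / 4 * η := mul_le_mul_of_nonneg_right hr₀ hη0.le
  have hab := abs_le.1 hρκ
  obtain ⟨α, hα⟩ : ∃ α, α = t + ρ * κ := ⟨_, rfl⟩
  have htm : t ∈ Ico ((1 + t₀) / 2) 1 := ⟨by linarith, ht.2⟩
  have hαm : α ∈ Ico ((1 + t₀) / 2) 1 := ⟨by linarith [hab.1], by linarith [hab.2]⟩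
  have hα1 : 1 - α ≤ 5 / 4 * η := by linarith [hab.1]
  -- the two charts
  have hNw : N2 A γt (ρ • w) ≤ ε := by
    rw [N2_smul]
    have h2 : N2 A γt v * N2 A γt w ≤ 1 := hw.2
    have h3 : 0 ≤ |ρ| * N2 A γt w := mul_nonneg (abs_nonneg _) (N2_nonneg A γt w)
    have h4 : ε * (|ρ| * N2 A γt w) ≤ η * N2 A γt v * (|ρ| * N2 A γt w) :=
      mul_le_mul_of_nonneg_right hgap.le h3
    have h5 : η * N2 A γt v * (|ρ| * N2 A γt w) = η * |ρ| * (N2 A γt v * N2 A γt w) := by ring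
    have h6 : η * |ρ| * (N2 A γt v * N2 A γt w) ≤ η * |ρ| * 1 :=
      mul_le_mul_of_nonneg_left h2 (mul_nonneg hη0.le (abs_nonneg _))
    have h7 : η * |ρ| ≤ δ * r₀ := mul_le_mul hη1 hρa (abs_nonneg _) hδ0.le
    have h8 : ε * (|ρ| * N2 A γt w) ≤ ε * ε := by
      rw [← sq]
      linarith
    exact le_of_mul_le_mul_left h8 hε
  have hNq : N2 A γq ((-(1 - α)) • v) ≤ ε := by
    rw [N2_smul, abs_neg, abs_of_pos (by linarith [hαm.2])]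
    have h2 : (1 - α) * N2 A γq v ≤ 5 / 4 * η * N2 A γq v :=
      mul_le_mul_of_nonneg_right hα1 hN0
    have h3 : η * (2 * (N2 A γq v + 1)) ≤ δ * (2 * (N2 A γq v + 1)) :=
      mul_le_mul_of_nonneg_right hη1 (by positivity)
    nlinarith [mul_nonneg hη0.le hN0]
  obtain ⟨γ₁, hγ₁, hc₁⟩ := S.comp2 hγt hNw
  obtain ⟨γ₂, hγ₂, hc₂⟩ := S.comp2 hγq hNq
  -- geometry
  have hE : ∀ a : ℝ, ((0, a • v) : W × (Fin 2 → ℝ)) = a • ((0, v) : W × (Fin 2 → ℝ)) := by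
    intro a
    ext <;> simp
  have hE2 : ∀ a b : ℝ, ((0, a • v + b • u) : W × (Fin 2 → ℝ)) =
      a • ((0, v) : W × (Fin 2 → ℝ)) + b • ((0, u) : W × (Fin 2 → ℝ)) := by
    intro a b
    ext <;> simp
  have hE3 : ((0, ρ • w) : W × (Fin 2 → ℝ)) =
      ρ • (((0, u) : W × (Fin 2 → ℝ)) + κ • ((0, v) : W × (Fin 2 → ℝ))) := by
    rw [hwκ]
    refine Prod.ext ?_ ?_
    · simp
    · simp only [Prod.smul_snd, Prod.snd_add]
  have hE4 : ((0, (1 - α) • v - (e * y₁) • u) : W × (Fin 2 → ℝ)) =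
      (1 - α) • ((0, v) : W × (Fin 2 → ℝ)) + (e * r - ρ) • ((0, u) : W × (Fin 2 → ℝ)) := by
    have h2 : e * r - ρ = -(e * y₁) := by
      rw [hρ]
      ring
    have h3 : (1 - α) • v - (e * y₁) • u = (1 - α) • v + (e * r - ρ) • u := by
      rw [h2]
      module
    rw [h3, hE2]
  rw [← hρ] at hγ₂
  obtain ⟨g1, g2⟩ := FlGa_geo S.af.hD (x := x) (V := ((0, v) : W × (Fin 2 → ℝ)))
    (U := ((0, u) : W × (Fin 2 → ℝ))) R.fm (t₀ := t₀) (r₀ := r₀) ⟨h0, h1⟩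
    (fun a ha s hs => by
      have h2 := hfill a ha s hs
      rwa [hE2, hE] at h2)
    (r := e * r) (r' := ρ) hera hρa
    (by rwa [hE2, hE] at hp)
    (by
      have h2 := hq (r + y₁) ⟨by linarith, by linarith⟩
      rwa [hE2, hE, ← hρ] at h2)
    (t := t) (κ := κ) (α := α) htm hαm hα
  refine ⟨ex D (ex D x ((0, t • v) : W × (Fin 2 → ℝ))) ((0, ρ • w) : W × (Fin 2 → ℝ)),
    γt, γ₁, γ₂, κ, hγt, ?_, ?_, hγ₁, hc₁, ?_, hc₂, ?_⟩
  · rw [← hwκ]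
    exact hw
  · rw [← hη]
    exact hκ
  · rw [hE t, hE3, ← g1, ← hE t₀, ← hE2, ← hE (-(1 - α))]
    exact hγ₂
  · rw [← hρ, ← hα, hE4, hE t, hE3]
    exact g2

end H83T
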