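import Pool.Agent.H.MP_7a8a58_gt.h83c.FlB
import Pool.Agent.H.MP_7a8a58_gt.h83c.FlD

/-!
MP_7a8a58_gt, helper83, third part.  Points near the end of a slit: plane geometry.
Paper proof: /team-store/h83_7a8a58_T4.md
-/

set_option autoImplicit false

open Set Metric Topology Filter

namespace H83T

private theorem FlGb_small (a : ℝ) {c : ℝ} (hc : 0 < c) : ∀ᶠ η in 𝓝[>] (0 : ℝ), η * a ≤ c := by
  have h1 : Tendsto (fun η : ℝ => η * a) (𝓝[>] 0) (𝓝 0) := by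
    have h2 : Tendsto (fun η : ℝ => η * a) (𝓝 0) (𝓝 (0 * a)) :=
      (continuous_id.mul continuous_const).tendsto 0
    rw [zero_mul] at h2
    exact h2.mono_left nhdsWithin_le_nhds
  exact h1.eventually (Iic_mem_nhds hc)

/-- decomposition of a slope vector -/
private theorem FlGb_dec {Γ : Type*} [Group Γ] (A : Γ →* GL (Fin 2) ℤ) (γ : Γ)
    {μ w₀ w : Fin 2 → ℝ} (z : Fin 2 → ℝ) {ρ : ℝ} (hρ : 0 < ρ) (h0 : om μ w₀ = ρ)
    (h : om μ w = 1) :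
    ∃ κ : ℝ, om z w = om z w₀ / ρ - κ * om μ z ∧
      |κ| * N2 A γ μ ≤ N2 A γ w + N2 A γ w₀ / ρ := by
  refine ⟨om w w₀ / ρ, ?_, ?_⟩
  · have h1 : om μ w₀ * om z w = om w w₀ * om z μ + om μ w * om z w₀ := by
      simp only [om]
      ring
    have h2 : om z μ = - om μ z := by
      simp only [om]
      ring
    rw [h0, h, h2] at h1
    field_simp
    linarith
  · have h1 := om_par μ w₀ w
    rw [h0, h, one_smul] at h1
    have h2 : (om w w₀ / ρ) • μ = w + (-(1 / ρ)) • w₀ := by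
      have h3 : om w w₀ • μ = ρ • w - w₀ := by
        rw [h1]
        abel
      have h4 : (om w w₀ / ρ) • μ = (1 / ρ) • (om w w₀ • μ) := by
        rw [smul_smul]
        congr 1
        ring
      rw [h4, h3, smul_sub, smul_smul, one_div_mul_cancel hρ.ne', one_smul, neg_smul,
        sub_eq_add_neg]
    rw [← N2_smul, h2]
    refine (N2_add_le A γ _ _).trans ?_
    rw [N2_smul, abs_neg, abs_of_pos (one_div_pos.2 hρ)]
    have h5 : 1 / ρ * N2 A γ w₀ = N2 A γ w₀ / ρ := by ring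
    rw [h5]

/-- the side of the second chart -/
private theorem FlGb_two {Γ : Type*} [Group Γ] {A : Γ →* GL (Fin 2) ℤ} {C ε : ℝ} (hC : 1 ≤ C)
    (hε : 0 < ε) {e : ℝ} (he : e = 1 ∨ e = -1) {γq γ₂ : Γ} {μ wq w₂ z : Fin 2 → ℝ} {δ R s : ℝ}
    (hδ1 : 1 / 2 ≤ δ) (hδ2 : δ ≤ 3 / 2) (hδ : om μ wq = δ) (hc : Cmp A C γq γ₂)
    (hm : ε < N2 A γ₂ μ) (hz : 0 < om μ z) (hz2 : om μ z ≤ R) (hw : Sl A μ γ₂ w₂)
    (hs : (3 / 2) * ((1 / ε + 2 * (C * N2 A γq wq)) / ε * R) < s) (hs0 : 0 ≤ s)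
    (hzq : e * om z wq ≤ -s) : e * om z w₂ < 0 := by
  have hδ0 : 0 < δ := by linarith
  obtain ⟨κ, h1, h2⟩ := FlGb_dec A γ₂ z hδ0 hδ hw.1
  have hN0 := N2_nonneg A γ₂ w₂
  have h3 : N2 A γ₂ w₂ ≤ 1 / ε := by
    rw [le_div_iff₀ hε]
    have h4 : ε * N2 A γ₂ w₂ ≤ N2 A γ₂ μ * N2 A γ₂ w₂ := mul_le_mul_of_nonneg_right hm.le hN0
    linarith [hw.2]
  have h4 : N2 A γ₂ wq / δ ≤ 2 * (C * N2 A γq wq) := by
    rw [div_le_iff₀ hδ0]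
    have h5 : N2 A γ₂ wq ≤ C * N2 A γq wq := (hc wq).1
    have h6 : 0 ≤ C * N2 A γq wq := mul_nonneg (by linarith) (N2_nonneg A γq wq)
    nlinarith
  obtain ⟨T, hT⟩ : ∃ T, T = 1 / ε + 2 * (C * N2 A γq wq) := ⟨_, rfl⟩
  rw [← hT] at hs
  have h5 : |κ| * ε ≤ T := by
    have h6 : |κ| * ε ≤ |κ| * N2 A γ₂ μ := mul_le_mul_of_nonneg_left hm.le (abs_nonneg κ)
    rw [hT]
    linarith
  have h6 : |κ| ≤ T / ε := by rwa [le_div_iff₀ hε]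
  have h7 : |κ| * om μ z ≤ T / ε * R := mul_le_mul h6 hz2 hz.le ((abs_nonneg κ).trans h6)
  have h8 : -(e * κ) * om μ z ≤ |κ| * om μ z := by
    refine mul_le_mul_of_nonneg_right ?_ hz.le
    rcases he with rfl | rfl
    · rw [one_mul]
      exact neg_le_abs κ
    · rw [neg_mul, one_mul, neg_neg]
      exact le_abs_self κ
  have h9 : e * om z wq / δ ≤ -((2 / 3) * s) := by
    rw [div_le_iff₀ hδ0]
    nlinarith
  have h10 : e * om z w₂ = e * om z wq / δ + -(e * κ) * om μ z := by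
    rw [h1]
    ring
  rw [h10]
  linarith

/-- the correction term of the first chart -/
private theorem FlGb_one {Γ : Type*} [Group Γ] {A : Γ →* GL (Fin 2) ℤ} {C ε : ℝ} (hC : 1 ≤ C)
    (hε : 0 < ε) {e : ℝ} (he : e = 1 ∨ e = -1) {y₁ : ℝ} (hy₁ : 0 < y₁) {γt γ₁ : Γ}
    {v wt μ w₁ : Fin 2 → ℝ} (z : Fin 2 → ℝ) {η ρ : ℝ} (hη : 0 < η) (hη1 : η ≤ 1)
    (hρ1 : η / 2 ≤ ρ) (hμ : μ = ρ • v + (-(e * y₁)) • wt) (hμt : om μ wt = ρ)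
    (hwt : N2 A γt v * N2 A γt wt ≤ 1) (hgap : ε < η * N2 A γt v) (hc : Cmp A C γt γ₁)
    (hm : ε < N2 A γ₁ μ) (hw : Sl A μ γ₁ w₁) :
    ∃ κ : ℝ, om z w₁ = om z wt / ρ - κ * om μ z ∧
      |κ| ≤ (1 + C ^ 2 + 2 * y₁ * C ^ 2 / ε ^ 2) / ε ^ 2 := by
  have hρ0 : 0 < ρ := by linarith
  obtain ⟨κ, h1, h2⟩ := FlGb_dec A γ₁ z hρ0 hμt hw.1
  refine ⟨κ, h1, ?_⟩
  have hC0 : 0 < C := by linarith
  obtain ⟨N, hN⟩ : ∃ N, N = N2 A γt v := ⟨_, rfl⟩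
  obtain ⟨q, hq⟩ : ∃ q, q = N2 A γt wt := ⟨_, rfl⟩
  obtain ⟨m, hm'⟩ : ∃ m, m = N2 A γ₁ μ := ⟨_, rfl⟩
  obtain ⟨p, hp⟩ : ∃ p, p = N2 A γ₁ wt := ⟨_, rfl⟩
  have hN0 : 0 ≤ N := by rw [hN]; exact N2_nonneg A γt v
  have hq0 : 0 ≤ q := by rw [hq]; exact N2_nonneg A γt wt
  have hp0 : 0 ≤ p := by rw [hp]; exact N2_nonneg A γ₁ wt
  have hv : N2 A γ₁ v ≤ C * N := by rw [hN]; exact (hc v).1
  have hpq : p ≤ C * q := by rw [hp, hq]; exact (hc wt).1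
  rw [← hN, ← hq] at hwt
  rw [← hN] at hgap
  rw [← hm'] at hm h2
  rw [← hp] at h2
  have hw2 : m * N2 A γ₁ w₁ ≤ 1 := by rw [hm']; exact hw.2
  have hm0 : 0 < m := hε.trans hm
  have h3 : m ≤ ρ * (C * N) + y₁ * (C * q) := by
    rw [hm', hμ]
    refine (N2_add_le A γ₁ _ _).trans ?_
    rw [N2_smul, N2_smul, abs_of_pos hρ0, ← hp]
    have h4 : |-(e * y₁)| = y₁ := by
      rcases he with rfl | rfl
      · rw [abs_neg, one_mul, abs_of_pos hy₁]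
      · rw [abs_neg, abs_mul, abs_neg, abs_one, one_mul, abs_of_pos hy₁]
    rw [h4]
    exact add_le_add (mul_le_mul_of_nonneg_left hv hρ0.le) (mul_le_mul_of_nonneg_left hpq hy₁.le)
  have h4 : ε * q ≤ η := by
    have h5 : ε * q ≤ η * N * q := mul_le_mul_of_nonneg_right hgap.le hq0
    have h6 : η * (N * q) ≤ η * 1 := mul_le_mul_of_nonneg_left hwt hη.le
    nlinarith
  have h5 : q ^ 2 * ε ^ 2 ≤ 2 * ρ := by
    have h6 : (ε * q) ^ 2 ≤ η ^ 2 := pow_le_pow_left₀ (mul_nonneg hε.le hq0) h4 2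
    have h7 : η ^ 2 ≤ 2 * ρ := by nlinarith
    nlinarith
  have h6 : |κ| * m ^ 2 ≤ 1 + m * (p / ρ) := by
    have h7 := mul_le_mul_of_nonneg_left h2 hm0.le
    have h8 : |κ| * m ^ 2 = m * (|κ| * m) := by ring
    rw [h8]
    refine h7.trans ?_
    rw [mul_add]
    linarith
  have h7 : m * (p / ρ) ≤ C ^ 2 + 2 * y₁ * C ^ 2 / ε ^ 2 := by
    have h8 : p / ρ ≤ C * q / ρ := div_le_div_of_nonneg_right hpq hρ0.le
    have h9 : m * (p / ρ) ≤ (ρ * (C * N) + y₁ * (C * q)) * (C * q / ρ) :=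
      mul_le_mul h3 h8 (div_nonneg hp0 hρ0.le) (by positivity)
    have h10 : (ρ * (C * N) + y₁ * (C * q)) * (C * q / ρ) =
        C ^ 2 * (N * q) + y₁ * C ^ 2 * (q ^ 2 / ρ) := by
      field_simp
    have h11 : q ^ 2 / ρ ≤ 2 / ε ^ 2 := by
      rw [div_le_div_iff₀ hρ0 (by positivity)]
      linarith
    have h12 : C ^ 2 * (N * q) ≤ C ^ 2 * 1 := mul_le_mul_of_nonneg_left hwt (sq_nonneg C)
    have h13 : y₁ * C ^ 2 * (q ^ 2 / ρ) ≤ y₁ * C ^ 2 * (2 / ε ^ 2) :=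
      mul_le_mul_of_nonneg_left h11 (by positivity)
    have h14 : y₁ * C ^ 2 * (2 / ε ^ 2) = 2 * y₁ * C ^ 2 / ε ^ 2 := by ring
    rw [h10] at h9
    linarith
  rw [le_div_iff₀ (by positivity)]
  have h8 : |κ| * ε ^ 2 ≤ |κ| * m ^ 2 :=
    mul_le_mul_of_nonneg_left (pow_le_pow_left₀ hε.le hm.le 2) (abs_nonneg κ)
  linarith

/-- PROOF. `μ₀ = -(e y₁) • u ≠ 0`, `wq` a slope vector for `μ₀`, `γq` (`exists_sl`). `exists_div` for `μ₀`, `wq` gives an integral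
`z` with `0 < om μ₀ z`, `(2 + C ^ 2) om μ₀ z ≤ ε / 2` (`hy2`) and `e * om z wq ≤ -s`, `s` large (fixed below, depending on `C`,
`ε`, `N2 A γq wq` only). Note `om μ₀ z = e y₁ om z u`, so `e * om z u > 0`.
Let `μ = (1 - α) • v + μ₀`, `α = t + r' κ`, `(3/4) (1 - t) ≤ 1 - α ≤ (5/4) (1 - t)`. For `t` close to 1 `om μ z` is close to
`om μ₀ z`, so `0 < om μ z` and `(2 + C ^ 2) om μ z ≤ ε`.
`γ₁`: `wt = u + κ • v`, `N = N2 A γt v > ε / (1 - t)`; `ρ₁ = om μ wt = (1 - α) + e y₁ κ ∈ [(1 - t) / 2, 2 (1 - t)]` and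
`μ = ρ₁ • v - (e y₁) • wt`. A slope vector `w₁` for `μ`, `γ₁` (`exists_sl`) is `(1 / ρ₁) • wt + κ' • μ` (`om_par`) with
`|κ'| N2 A γ₁ μ ≤ N2 A γ₁ w₁ + N2 A γ₁ wt / ρ₁`; multiply by `N2 A γ₁ μ`: `|κ'| (N2 A γ₁ μ) ^ 2 ≤ 1 + N2 A γ₁ μ N2 A γ₁ wt / ρ₁`, with
`N2 A γ₁ wt ≤ C / N`, `N2 A γ₁ μ ≤ ρ₁ C N + y₁ C / N`: so `≤ 1 + C ^ 2 + y₁ C ^ 2 / (ρ₁ N ^ 2)`, bounded (`1 / (ρ₁ N ^ 2) ≤ 2 (1 - t) / ε ^ 2`);
as `N2 A γ₁ μ > ε`, `|κ'|` is bounded. `om z w₁ = om z wt / ρ₁ - κ' om μ z`, `om z wt → om z u`, `ρ₁ → 0+`: for `t` close to 1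
`e * om z w₁ > 0`.
`γ₂`: a slope vector `w₂` for `μ`, `γ₂` is `(1 / om μ wq) • wq + κ'' • μ`, `om μ wq → 1`,
`|κ''| N2 A γ₂ μ ≤ N2 A γ₂ w₂ + 2 C N2 A γq wq`, `N2 A γ₂ w₂ ≤ 1 / ε`, so `|κ''| ≤ (1 / ε + 2 C N2 A γq wq) / ε`;
`om z w₂ = om z wq / om μ wq - κ'' om μ z`, so `e * om z w₂ < 0` if `s` is large. Conclude with `up_iff`. -/
theorem plane_sep {Γ : Type*} [Group Γ] (A : Γ →* GL (Fin 2) ℤ) {C ε C₄ : ℝ} (hC : 1 ≤ C)
    (hε : 0 < ε) (hC₄ : 0 < C₄) {v u : Fin 2 → ℝ} (hu : om v u = 1) {e : ℝ}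
    (he : e = 1 ∨ e = -1) {r' y₁ : ℝ} (hy₁ : 0 < y₁)
    (hy2 : (2 + C ^ 2) * (5 * (y₁ * ‖u‖)) ≤ ε / 2) (hr' : |r'| * C₄ ≤ 1 / 4)
    (hy3 : y₁ * C₄ ≤ 1 / 4) (γq : Γ) :
    ∃ z : Fin 2 → ℤ, ∃ t₆ ∈ Ico (0 : ℝ) 1, ∀ t ∈ Ico t₆ 1, ∀ (γt γ₁ γ₂ : Γ) (κ : ℝ),
      Sl A v γt (u + κ • v) → |κ| ≤ C₄ * (1 - t) → ε < (1 - t) * N2 A γt v →
      Cmp A C γt γ₁ → Cmp A C γq γ₂ →
      ε < N2 A γ₁ ((1 - (t + r' * κ)) • v - (e * y₁) • u) →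
      ε < N2 A γ₂ ((1 - (t + r' * κ)) • v - (e * y₁) • u) →
      0 < om ((1 - (t + r' * κ)) • v - (e * y₁) • u) (rV z) ∧
      (2 + C ^ 2) * om ((1 - (t + r' * κ)) • v - (e * y₁) • u) (rV z) ≤ ε ∧
      ¬ (Up A ((1 - (t + r' * κ)) • v - (e * y₁) • u) z γ₁ ↔
        Up A ((1 - (t + r' * κ)) • v - (e * y₁) • u) z γ₂) := by
  have hu0 : u ≠ 0 := by
    rintro rfl
    simp [om] at hu
  have he2 : |e| = 1 := by
    rcases he with rfl | rfl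
    · exact abs_one
    · rw [abs_neg, abs_one]
  have hee : e * e = 1 := by
    rcases he with rfl | rfl <;> norm_num
  obtain ⟨μ₀, hμ₀⟩ : ∃ μ₀ : Fin 2 → ℝ, μ₀ = (-(e * y₁)) • u := ⟨_, rfl⟩
  have hey : -(e * y₁) ≠ 0 := by
    refine neg_ne_zero.2 (mul_ne_zero ?_ hy₁.ne')
    intro h
    rw [h, abs_zero] at he2
    exact zero_ne_one he2
  have hμ₀0 : μ₀ ≠ 0 := by
    rw [hμ₀]
    exact smul_ne_zero hey hu0
  have hμn : ‖μ₀‖ = y₁ * ‖u‖ := by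
    rw [hμ₀, norm_smul, Real.norm_eq_abs, abs_neg, abs_mul, he2, one_mul, abs_of_pos hy₁]
  have hμp : 0 < ‖μ₀‖ := norm_pos_iff.2 hμ₀0
  obtain ⟨wq, hwq⟩ := exists_sl A hμ₀0 γq
  obtain ⟨T, hT⟩ : ∃ T, T = 1 / ε + 2 * (C * N2 A γq wq) := ⟨_, rfl⟩
  have hT0 : 0 ≤ T := by
    rw [hT]
    have h1 := N2_nonneg A γq wq
    positivity
  obtain ⟨s, hs⟩ : ∃ s, s = (3 / 2) * (T / ε * (10 * ‖μ₀‖)) + 1 := ⟨_, rfl⟩
  have hs0 : 0 ≤ s := by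
    rw [hs]
    positivity
  -- the integral vector
  obtain ⟨z, hz1, hz2, hzq⟩ : ∃ z : Fin 2 → ℤ, ‖μ₀‖ ≤ om μ₀ (rV z) ∧ om μ₀ (rV z) ≤ 5 * ‖μ₀‖ ∧
      e * om (rV z) wq ≤ -s := by
    rcases he with rfl | rfl
    · obtain ⟨z, h1, h2, h3⟩ := (exists_div hμ₀0 hwq.1 (-s)).2
      exact ⟨z, h1, h2, by rw [one_mul]; exact h3⟩
    · obtain ⟨z, h1, h2, h3⟩ := (exists_div hμ₀0 hwq.1 s).1
      exact ⟨z, h1, h2, by linarith⟩
  obtain ⟨ρ₀, hρ₀⟩ : ∃ ρ₀, ρ₀ = om μ₀ (rV z) := ⟨_, rfl⟩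
  rw [← hρ₀] at hz1 hz2
  have hρp : 0 < ρ₀ := lt_of_lt_of_le hμp hz1
  have hzu : e * om (rV z) u = ρ₀ / y₁ := by
    rw [hρ₀, hμ₀, eq_div_iff hy₁.ne']
    simp only [om, Pi.smul_apply, smul_eq_mul]
    ring
  obtain ⟨M, hM⟩ : ∃ M, M = (1 + C ^ 2 + 2 * y₁ * C ^ 2 / ε ^ 2) / ε ^ 2 := ⟨_, rfl⟩
  have hM0 : 0 < M := by
    rw [hM]
    positivity
  -- the smallness conditions
  have hsm := (((((FlGb_small (5 / 4 * |om v (rV z)|) (half_pos hρp)).and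
    (FlGb_small ((2 + C ^ 2) * (5 / 4 * |om v (rV z)|)) (half_pos hε))).and
    (FlGb_small (5 / 4 * |om v wq|) (half_pos one_pos))).and
    (FlGb_small (C₄ * |om (rV z) v|) (half_pos (div_pos hρp hy₁)))).and
    (FlGb_small (6 * y₁ * M) (half_pos one_pos)))
  obtain ⟨η₀, hη₀, hη⟩ := mem_nhdsGT_iff_exists_Ioc_subset.1 hsm
  have hη₀' : 0 < η₀ := hη₀
  refine ⟨z, max 0 (1 - η₀), ⟨le_max_left _ _, max_lt one_pos (by linarith)⟩, ?_⟩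
  intro t ht γt γ₁ γ₂ κ hwt hκ hgap hc₁ hc₂ hm₁ hm₂
  have ht0 : 0 ≤ t := (le_max_left _ _).trans ht.1
  have ht1 : 1 - η₀ ≤ t := (le_max_right _ _).trans ht.1
  have htlt : t < 1 := ht.2
  obtain ⟨η, hηt⟩ : ∃ η, η = 1 - t := ⟨_, rfl⟩
  have hηpos : 0 < η := by linarith
  have hη1 : η ≤ 1 := by linarith
  obtain ⟨⟨⟨⟨ha, hb⟩, hcq⟩, hd⟩, hee'⟩ := hη (show η ∈ Ioc 0 η₀ from ⟨hηpos, by linarith⟩)
  rw [← hηt] at hκ hgap
  obtain ⟨b, hb'⟩ : ∃ b, b = 1 - (t + r' * κ) := ⟨_, rfl⟩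
  rw [← hb'] at hm₁ hm₂ ⊢
  have hrκ : |r' * κ| ≤ η / 4 := by
    rw [abs_mul]
    have h1 : |r'| * |κ| ≤ |r'| * (C₄ * η) := mul_le_mul_of_nonneg_left hκ (abs_nonneg r')
    have h2 : |r'| * C₄ * η ≤ 1 / 4 * η := mul_le_mul_of_nonneg_right hr' hηpos.le
    linarith
  have hrκ' := abs_le.1 hrκ
  have hb1 : 3 / 4 * η ≤ b := by linarith [hrκ'.2]
  have hb2 : b ≤ 5 / 4 * η := by linarith [hrκ'.1]
  have hb0 : 0 < b := by linarith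
  have hbabs : ∀ x : ℝ, |b * x| ≤ η * (5 / 4 * |x|) := by
    intro x
    rw [abs_mul, abs_of_pos hb0]
    have := mul_le_mul_of_nonneg_right hb2 (abs_nonneg x)
    linarith
  obtain ⟨μ, hμ⟩ : ∃ μ, μ = b • v - (e * y₁) • u := ⟨_, rfl⟩
  rw [← hμ] at hm₁ hm₂ ⊢
  have hμe : ∀ x, om μ x = b * om v x + om μ₀ x := by
    intro x
    rw [hμ, hμ₀]
    simp only [om, Pi.sub_apply, Pi.smul_apply, smul_eq_mul]
    ring
  have hμz := hμe (rV z)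
  rw [← hρ₀] at hμz
  have hbz := abs_le.1 (hbabs (om v (rV z)))
  have hμz1 : 0 < om μ (rV z) := by
    rw [hμz]
    linarith [hbz.1]
  have hμz2 : om μ (rV z) ≤ 2 * ρ₀ := by
    rw [hμz]
    linarith [hbz.2]
  have hμz3 : (2 + C ^ 2) * om μ (rV z) ≤ ε := by
    have h1 : (2 + C ^ 2) * (b * om v (rV z)) ≤ (2 + C ^ 2) * (η * (5 / 4 * |om v (rV z)|)) :=
      mul_le_mul_of_nonneg_left hbz.2 (by positivity)
    have h2 : (2 + C ^ 2) * ρ₀ ≤ (2 + C ^ 2) * (5 * (y₁ * ‖u‖)) := by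
      refine mul_le_mul_of_nonneg_left ?_ (by positivity)
      rw [← hμn]
      exact hz2
    have h3 : (2 + C ^ 2) * (η * (5 / 4 * |om v (rV z)|)) =
        η * ((2 + C ^ 2) * (5 / 4 * |om v (rV z)|)) := by ring
    rw [hμz, mul_add]
    linarith
  refine ⟨hμz1, hμz3, ?_⟩
  have hμ0 : μ ≠ 0 := by
    rintro rfl
    simp [om] at hμz1
  obtain ⟨w₁, hw₁⟩ := exists_sl A hμ0 γ₁
  obtain ⟨w₂, hw₂⟩ := exists_sl A hμ0 γ₂
  rw [(up_iff hC hμz1 (lt_of_le_of_lt hμz3 hm₁) hw₁).2,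
    (up_iff hC hμz1 (lt_of_le_of_lt hμz3 hm₂) hw₂).2]
  -- the second chart
  have h2 : e * om (rV z) w₂ < 0 := by
    have hδ := hμe wq
    rw [hwq.1] at hδ
    have hbw := abs_le.1 (hbabs (om v wq))
    refine FlGb_two hC hε he (δ := b * om v wq + 1) (R := 10 * ‖μ₀‖) (s := s) ?_ ?_ hδ hc₂ hm₂
      hμz1 ?_ hw₂ ?_ hs0 hzq
    · linarith [hbw.1]
    · linarith [hbw.2]
    · linarith
    · rw [← hT, hs]
      linarith
  -- the first chart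
  have h1 : 0 < e * om (rV z) w₁ := by
    have hvt : om v (u + κ • v) = 1 := hwt.1
    obtain ⟨ρ₁, hρ₁⟩ : ∃ ρ₁, ρ₁ = b + e * y₁ * κ := ⟨_, rfl⟩
    have heκ : |e * y₁ * κ| ≤ η / 4 := by
      rw [abs_mul, abs_mul, he2, one_mul, abs_of_pos hy₁]
      have h1 : y₁ * |κ| ≤ y₁ * (C₄ * η) := mul_le_mul_of_nonneg_left hκ hy₁.le
      have h2 : y₁ * C₄ * η ≤ 1 / 4 * η := mul_le_mul_of_nonneg_right hy3 hηpos.le
      linarith
    have heκ' := abs_le.1 heκ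
    have hρ1 : η / 2 ≤ ρ₁ := by linarith [heκ'.1]
    have hρ2 : ρ₁ ≤ 3 / 2 * η := by linarith [heκ'.2]
    have hρ10 : 0 < ρ₁ := by linarith
    have hμt : om μ (u + κ • v) = ρ₁ := by
      have h3 : om μ (u + κ • v) = b * om v u + e * y₁ * κ * om v u := by
        rw [hμ]
        simp only [om, Pi.sub_apply, Pi.add_apply, Pi.smul_apply, smul_eq_mul]
        ring
      rw [h3, hu, hρ₁]
      ring
    have hμv : μ = ρ₁ • v + (-(e * y₁)) • (u + κ • v) := by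
      rw [hμ, hρ₁]
      module
    obtain ⟨κ', h3, h4⟩ := FlGb_one hC hε he hy₁ (rV z) hηpos hη1 hρ1 hμv hμt hwt.2 hgap hc₁
      hm₁ hw₁
    rw [← hM] at h4
    have h5 : e * om (rV z) (u + κ • v) ≥ ρ₀ / y₁ / 2 := by
      have h6 : e * om (rV z) (u + κ • v) = e * om (rV z) u + e * κ * om (rV z) v := by
        simp only [om, Pi.add_apply, Pi.smul_apply, smul_eq_mul]
        ring
      have h7 : |e * κ * om (rV z) v| ≤ ρ₀ / y₁ / 2 := by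
        rw [abs_mul, abs_mul, he2, one_mul]
        have h8 : |κ| * |om (rV z) v| ≤ C₄ * η * |om (rV z) v| :=
          mul_le_mul_of_nonneg_right hκ (abs_nonneg _)
        linarith
      rw [h6, hzu]
      linarith [(abs_le.1 h7).1]
    have h6 : ρ₁ * (e * om (rV z) w₁) =
        e * om (rV z) (u + κ • v) - ρ₁ * (e * κ' * om μ (rV z)) := by
      rw [h3]
      field_simp
    have h7 : e * κ' * om μ (rV z) ≤ M * (2 * ρ₀) := by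
      have h8 : e * κ' ≤ M := by
        refine le_trans ?_ h4
        rcases he with rfl | rfl
        · rw [one_mul]
          exact le_abs_self κ'
        · rw [neg_mul, one_mul]
          exact neg_le_abs κ'
      exact (mul_le_mul_of_nonneg_right h8 hμz1.le).trans (mul_le_mul_of_nonneg_left hμz2 hM0.le)
    have h8 : ρ₁ * (e * κ' * om μ (rV z)) ≤ 3 / 2 * η * (M * (2 * ρ₀)) :=
      (mul_le_mul_of_nonneg_left h7 hρ10.le).trans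
        (mul_le_mul_of_nonneg_right hρ2 (by positivity))
    have h9 : 3 / 2 * η * (M * (2 * ρ₀)) = ρ₀ / y₁ / 2 * (η * (6 * y₁ * M)) := by
      field_simp
      ring
    have h10 : ρ₀ / y₁ / 2 * (η * (6 * y₁ * M)) ≤ ρ₀ / y₁ / 2 * (1 / 2) :=
      mul_le_mul_of_nonneg_left hee' (by positivity)
    have h11 : 0 < ρ₀ / y₁ / 2 := by positivity
    have h12 : 0 < ρ₁ * (e * om (rV z) w₁) := by
      rw [h6]
      linarith
    exact (pos_iff_pos_of_mul_pos h12).1 hρ10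
  rcases he with rfl | rfl
  · rw [one_mul] at h1 h2
    exact fun h => absurd (h.1 h1) (by linarith)
  · rw [neg_mul, one_mul] at h1 h2
    exact fun h => absurd (h.2 (by linarith)) (by linarith)

end H83T
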