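import Pool.Agent.H.MP_7a8a58_gt.h83c.FlF
import Pool.Agent.H.MP_7a8a58_gt.h83c.FlGa
import Pool.Agent.H.MP_7a8a58_gt.h83c.FlGb

/-!
MP_7a8a58_gt, helper83, third part.  The far side of the rectangle is missing.
Paper proof: /team-store/h83_7a8a58_T4.md
-/

set_option autoImplicit false

open Set Metric Topology Filter

namespace H83T

variable {W : Type*} [NormedAddCommGroup W] [NormedSpace ℝ W] [FiniteDimensional ℝ W]
variable {X : Type*} [TopologicalSpace X] [T2Space X]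
variable {Γ : Type*} [Group Γ] [MulAction Γ X] [ContinuousConstSMul Γ X]
  [ProperlyDiscontinuousSMul Γ X]
variable {D : X → W × (Fin 2 → ℝ)}
  {L : Γ →* ((W × (Fin 2 → ℝ)) ≃ₗ[ℝ] (W × (Fin 2 → ℝ)))} {b : Γ → W × (Fin 2 → ℝ)}
  {A : Γ →* GL (Fin 2) ℤ} {K : Set X} {ε C C₄ t₄ : ℝ}

/-- One-sided version: `near` and `plane_sep` contradict `up_point`. -/
theorem RayF.miss1 (S : FlSys D L b A K ε C) {x : X} {v u : Fin 2 → ℝ}
    (R : RayF D A K C₄ t₄ x v u) {t₀ r₀ : ℝ} (ht₀ : t₀ ∈ Ico t₄ 1) (hr₀ : r₀ * C₄ ≤ 1 / 4)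
    (hfill : ∀ α ∈ Ico ((1 + t₀) / 2) 1, ∀ r : ℝ, |r| ≤ r₀ →
      ((0, (α - t₀) • v + r • u) : W × (Fin 2 → ℝ)) ∈
        Dom D (ex D x ((0, t₀ • v) : W × (Fin 2 → ℝ))))
    {e : ℝ} (he : e = 1 ∨ e = -1) {r r₁ : ℝ} (hr : 0 ≤ r) (hr₁ : r < r₁) (hr₁' : r₁ ≤ r₀)
    (hp : ((0, (1 - t₀) • v + (e * r) • u) : W × (Fin 2 → ℝ)) ∉
      Dom D (ex D x ((0, t₀ • v) : W × (Fin 2 → ℝ))))
    (hq : ∀ r' ∈ Ioc r r₁, ((0, (1 - t₀) • v + (e * r') • u) : W × (Fin 2 → ℝ)) ∈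
      Dom D (ex D x ((0, t₀ • v) : W × (Fin 2 → ℝ)))) : False := by
  have hC := S.one_le
  have hε := S.af.ε_pos
  have hu : u ≠ 0 := by
    rintro rfl
    have := R.wu
    simp [om] at this
  have hun : 0 < ‖u‖ := norm_pos_iff.2 hu
  have hm : 0 < 2 + C ^ 2 := by positivity
  obtain ⟨y₁, hy₁, hy₁', hy2⟩ : ∃ y₁ : ℝ, 0 < y₁ ∧ y₁ ≤ r₁ - r ∧
      (2 + C ^ 2) * (5 * (y₁ * ‖u‖)) ≤ ε / 2 := by
    refine ⟨min (r₁ - r) (ε / 2 / ((2 + C ^ 2) * (5 * ‖u‖))), ?_, min_le_left _ _, ?_⟩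
    · exact lt_min (by linarith) (by positivity)
    · have h1 : min (r₁ - r) (ε / 2 / ((2 + C ^ 2) * (5 * ‖u‖))) ≤
        ε / 2 / ((2 + C ^ 2) * (5 * ‖u‖)) := min_le_right _ _
      rw [le_div_iff₀ (by positivity)] at h1
      calc _ = min (r₁ - r) (ε / 2 / ((2 + C ^ 2) * (5 * ‖u‖))) *
            ((2 + C ^ 2) * (5 * ‖u‖)) := by ring
        _ ≤ _ := h1
  obtain ⟨γq, hγq⟩ := S.exists_vw (ex D (ex D x ((0, t₀ • v) : W × (Fin 2 → ℝ)))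
      ((0, (1 - t₀) • v + (e * (r + y₁)) • u) : W × (Fin 2 → ℝ)))
  obtain ⟨t₅, ht₅, hnear⟩ := R.near S ht₀ hr₀ hfill he hr hr₁ hr₁' hp hq hy₁ hy₁' hγq
  have hC4 := R.C₄_pos
  have habs : |e * (r + y₁)| ≤ r₀ := by
    have h1 : |e| = 1 := by rcases he with rfl | rfl <;> norm_num
    rw [abs_mul, h1, one_mul, abs_of_nonneg (by linarith)]
    linarith
  have hr' : |e * (r + y₁)| * C₄ ≤ 1 / 4 :=
    le_trans (mul_le_mul_of_nonneg_right habs hC4.le) hr₀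
  have hy3 : y₁ * C₄ ≤ 1 / 4 :=
    le_trans (mul_le_mul_of_nonneg_right (by linarith) hC4.le) hr₀
  obtain ⟨z, t₆, ht₆, hsep⟩ := plane_sep A hC hε hC4 R.wu he hy₁ hy2 hr' hy3 γq
  set t := max t₅ t₆ with htdef
  have ht5 : t ∈ Ico t₅ 1 := ⟨le_max_left _ _, max_lt ht₅.2 ht₆.2⟩
  have ht6 : t ∈ Ico t₆ 1 := ⟨le_max_right _ _, max_lt ht₅.2 ht₆.2⟩
  obtain ⟨Z, γt, γ₁, γ₂, κ, h1, h2, h3, h4, h5, h6, h7, h8⟩ := hnear t ht5
  have htm : t ∈ Ico (0 : ℝ) 1 :=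
    ⟨le_trans (le_trans (le_trans R.t₄_mem.1 ht₀.1) ht₅.1) ht5.1, ht5.2⟩
  have h9 := S.gap R.fm htm h1
  obtain ⟨h10, h11, h12⟩ := hsep t ht6 γt γ₁ γ₂ κ h2 h3 h9 h5 h7 (S.gap' h8 h4) (S.gap' h8 h6)
  exact h12 ⟨S.up_point h8 h10 h11 h4 h6, S.up_point h8 h10 h11 h6 h4⟩

/-- PROOF: suppose it is in the domain; `r = e |r|`, `r ≠ 0` (for `r = 0` it would follow that `(0, v) ∈ Dom D x`,
`collinear`). `r* = sSup {r' ∈ [0, |r|] | missing at e r'}` (closed set, contains 0), `miss1`. -/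
theorem RayF.miss (S : FlSys D L b A K ε C) {x : X} {v u : Fin 2 → ℝ}
    (R : RayF D A K C₄ t₄ x v u) {t₀ r₀ : ℝ} (ht₀ : t₀ ∈ Ico t₄ 1) (hr₀ : r₀ * C₄ ≤ 1 / 4)
    (hfill : ∀ α ∈ Ico ((1 + t₀) / 2) 1, ∀ r : ℝ, |r| ≤ r₀ →
      ((0, (α - t₀) • v + r • u) : W × (Fin 2 → ℝ)) ∈
        Dom D (ex D x ((0, t₀ • v) : W × (Fin 2 → ℝ)))) {r : ℝ} (hr : |r| ≤ r₀) :
    ((0, (1 - t₀) • v + r • u) : W × (Fin 2 → ℝ)) ∉
      Dom D (ex D x ((0, t₀ • v) : W × (Fin 2 → ℝ))) := by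
  intro hmem
  have hD := S.af.hD
  have ht0 : 0 ≤ t₀ := R.t₄_mem.1.trans ht₀.1
  have htv : ((0, t₀ • v) : W × (Fin 2 → ℝ)) = t₀ • ((0, v) : W × (Fin 2 → ℝ)) := by
    rw [Prod.smul_mk, smul_zero]
  have h0 : ((0, (1 - t₀) • v) : W × (Fin 2 → ℝ)) ∉
      Dom D (ex D x ((0, t₀ • v) : W × (Fin 2 → ℝ))) := by
    intro h1
    rw [htv] at h1
    rcases eq_or_lt_of_le ht0 with h2 | h2
    · rw [← h2, zero_smul, ex_zero hD, sub_zero, one_smul] at h1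
      exact R.fm.miss h1
    · have h3 : ((1 - t₀) / t₀) • (t₀ • ((0, v) : W × (Fin 2 → ℝ))) ∈
          Dom D (ex D x (t₀ • ((0, v) : W × (Fin 2 → ℝ)))) := by
        have e1 : (1 - t₀) • ((0, v) : W × (Fin 2 → ℝ)) = (0, (1 - t₀) • v) := by
          rw [Prod.smul_mk, smul_zero]
        rw [smul_smul, div_mul_cancel₀ _ h2.ne', e1]
        exact h1
      have h4 := (collinear hD (r := (1 - t₀) / t₀)
        (div_nonneg (by linarith [ht₀.2]) h2.le) (R.fm.dom t₀ ⟨ht0, ht₀.2⟩) h3).1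
      have h5 : (1 + (1 - t₀) / t₀) * t₀ = 1 := by
        rw [add_mul, div_mul_cancel₀ _ h2.ne']
        ring
      rw [smul_smul, h5, one_smul] at h4
      exact R.fm.miss h4
  obtain ⟨e, he, her⟩ : ∃ e : ℝ, (e = 1 ∨ e = -1) ∧ e * |r| = r := by
    rcases le_total 0 r with h1 | h1
    · exact ⟨1, Or.inl rfl, by rw [abs_of_nonneg h1, one_mul]⟩
    · exact ⟨-1, Or.inr rfl, by rw [abs_of_nonpos h1]; ring⟩
  obtain ⟨P, hP⟩ : ∃ P : ℝ → W × (Fin 2 → ℝ),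
      P = fun s => ((0, (1 - t₀) • v + (e * s) • u) : W × (Fin 2 → ℝ)) := ⟨_, rfl⟩
  have hPc : Continuous P := by
    rw [hP]
    fun_prop
  obtain ⟨T, hT⟩ : ∃ T : Set ℝ, T = Icc 0 |r| ∩ P ⁻¹'
      (Dom D (ex D x ((0, t₀ • v) : W × (Fin 2 → ℝ))))ᶜ := ⟨_, rfl⟩
  have hTc : IsCompact T := by
    rw [hT]
    exact isCompact_Icc.inter_right ((isOpen_dom hD _).isClosed_compl.preimage hPc)
  have hT0 : (0 : ℝ) ∈ T := by
    rw [hT]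
    refine ⟨⟨le_rfl, abs_nonneg r⟩, ?_⟩
    rw [mem_preimage, mem_compl_iff, hP]
    simp only [mul_zero, zero_smul, add_zero]
    exact h0
  have hsup := hTc.sSup_mem ⟨0, hT0⟩
  obtain ⟨q, hq⟩ : ∃ q, q = sSup T := ⟨_, rfl⟩
  rw [← hq] at hsup
  have hsup' := hsup
  rw [hT] at hsup'
  obtain ⟨⟨hq0, hqr⟩, hqm⟩ := hsup'
  rw [mem_preimage, mem_compl_iff, hP] at hqm
  have hlt : q < |r| := by
    rcases eq_or_lt_of_le hqr with h1 | h1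
    · exfalso
      apply hqm
      rw [h1]
      simp only [her]
      exact hmem
    · exact h1
  refine RayF.miss1 S R ht₀ hr₀ hfill he hq0 hlt hr hqm ?_
  intro s hs
  by_contra hcon
  have h1 : s ∈ T := by
    rw [hT]
    refine ⟨⟨hq0.trans hs.1.le, hs.2⟩, ?_⟩
    rw [mem_preimage, mem_compl_iff, hP]
    exact hcon
  have h2 := le_csSup hTc.bddAbove h1
  rw [← hq] at h2
  exact absurd hs.1 (not_lt.2 h2)

end H83T
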