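import Pool.Agent.H.MP_7a8a58_gt.h83c.PlSlope

/-!
MP_7a8a58_gt, helper83, second part.  The slopes along a ray converge.
Paper proof: /team-store/h83_7a8a58_T3.md
-/

set_option autoImplicit false

open Set Metric Topology Filter

namespace H83T

variable {E : Type*} [NormedAddCommGroup E] [NormedSpace ℝ E] [FiniteDimensional ℝ E]
variable {X : Type*} [TopologicalSpace X] [T2Space X]
variable {Γ : Type*} [Group Γ] [MulAction Γ X] [ContinuousConstSMul Γ X]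
  [ProperlyDiscontinuousSMul Γ X]
variable {D : X → E} {L : Γ →* (E ≃ₗ[ℝ] E)} {b : Γ → E} {K : Set X} {ε : ℝ}
variable {ω : E →ₗ[ℝ] E →ₗ[ℝ] ℝ} {c C : ℝ}

/-- PROOF: `chain` with `θ = 1` and `Q t γ = ∀ γ', valid at t', ∀ w w' slope vectors of γ, γ',
∃ κ, w' = w + κ • v ∧ |κ| ≤ A (1 - t) ^ 2`, `A = (1 + C ^ 2) / (c * ε ^ 2)`; one step costs
`(1 + C ^ 2) / c / Nm γ v ^ 2 = A Δ ^ 2`, `Δ = ε / Nm γ v < 1 - t` (`gap`), and
`Δ ^ 2 + (1 - t - Δ) ^ 2 ≤ (1 - t) ^ 2`. -/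
theorem PlSys.slp_ray (S : PlSys D L b K ε ω c C) {x : X} {v : E} (h : Fm D x v) {t t' : ℝ}
    (ht : t ∈ Ico (0 : ℝ) 1) (ht' : t' ∈ Ico (0 : ℝ) 1) (htt : t ≤ t') {γ γ' : Γ}
    (hγ : Val K (ex D x (t • v)) γ) (hγ' : Val K (ex D x (t' • v)) γ') {w w' : E}
    (hw : Slp L ω c v γ w) (hw' : Slp L ω c v γ' w') :
    ∃ κ : ℝ, w' = w + κ • v ∧ |κ| ≤ (1 + C ^ 2) / (c * ε ^ 2) * (1 - t) ^ 2 := by
  have hcp := S.area.c_pos
  have hε := S.af.ε_pos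
  have hv := h.ne_zero
  have hA : 0 ≤ (1 + C ^ 2) / (c * ε ^ 2) := by positivity
  -- `|κ| Nm ^ 2 ≤ (1 + C ^ 2) / c` and `ε = Δ * Nm` give `|κ| ≤ A Δ ^ 2`
  have conv : ∀ (κ N Δ : ℝ), 0 < N → ε ≤ Δ * N → |κ| * N ^ 2 ≤ (1 + C ^ 2) / c →
      |κ| ≤ (1 + C ^ 2) / (c * ε ^ 2) * Δ ^ 2 := by
    intro κ N Δ hN hΔ hκ
    have h1 : (1 + C ^ 2) / (c * ε ^ 2) * Δ ^ 2 = (1 + C ^ 2) / c * Δ ^ 2 / ε ^ 2 := by
      field_simp
    rw [h1, le_div_iff₀ (by positivity)]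
    have h2 : ε ^ 2 ≤ (Δ * N) ^ 2 := pow_le_pow_left₀ hε.le hΔ 2
    calc |κ| * ε ^ 2 ≤ |κ| * (Δ * N) ^ 2 := mul_le_mul_of_nonneg_left h2 (abs_nonneg _)
      _ = |κ| * N ^ 2 * Δ ^ 2 := by ring
      _ ≤ (1 + C ^ 2) / c * Δ ^ 2 := mul_le_mul_of_nonneg_right hκ (sq_nonneg _)
  have main := S.chain h (t₀ := t) (t' := t') (θ := 1) ht.1 ht'.2 one_pos
    (fun s γ₁ => ∀ w₁ : E, Slp L ω c v γ₁ w₁ →
      ∃ κ : ℝ, w' = w₁ + κ • v ∧ |κ| ≤ (1 + C ^ 2) / (c * ε ^ 2) * (1 - s) ^ 2) ?_ ?_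
  · exact main t ⟨le_rfl, htt⟩ γ hγ w hw
  · intro s hs γ₁ hγ₁ hlast w₁ hw₁
    have hsI : s ∈ Ico (0 : ℝ) 1 := ⟨ht.1.trans hs.1, lt_of_le_of_lt hs.2 ht'.2⟩
    rw [one_mul] at hlast
    obtain ⟨κ, hκ, hκb⟩ := S.slp_sub hv
      (fun z => S.comp_ray h hsI ht' hs.2 hγ₁ hγ' hlast z) hw₁ hw'
    exact ⟨κ, hκ, conv κ _ _ (Nm_pos L γ₁ hv) (S.gap h hsI hγ₁).le hκb⟩
  · intro s hs γ₁ hγ₁ hlast hQ w₁ hw₁
    have hsI : s ∈ Ico (0 : ℝ) 1 := ⟨ht.1.trans hs.1, lt_of_le_of_lt hs.2 ht'.2⟩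
    have hN : 0 < Nm L γ₁ v := Nm_pos L γ₁ hv
    obtain ⟨Δ, hΔ⟩ : ∃ Δ, Δ = 1 * ε / Nm L γ₁ v := ⟨_, rfl⟩
    rw [← hΔ] at hQ
    have hΔN : Δ * Nm L γ₁ v = ε := by
      rw [hΔ, one_mul, div_mul_cancel₀ _ hN.ne']
    have hΔp : 0 < Δ := by
      rw [hΔ]
      positivity
    have hΔ1 : Δ < t' - s := by
      rw [hΔ, div_lt_iff₀ hN]
      exact hlast
    have hs2 : s + Δ ∈ Ico (0 : ℝ) 1 := ⟨by linarith [hsI.1], by linarith [ht'.2]⟩
    obtain ⟨γ₂, hγ₂⟩ := S.af.exists_val (ex D x ((s + Δ) • v))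
    obtain ⟨w₂, hw₂⟩ := S.exists_slp (c := c) hv γ₂
    obtain ⟨κ₂, hκ₂, hκ₂b⟩ := hQ γ₂ hγ₂ w₂ hw₂
    have hstep : (s + Δ - s) * Nm L γ₁ v ≤ ε := by
      rw [add_sub_cancel_left, hΔN]
    obtain ⟨κ₁, hκ₁, hκ₁b⟩ := S.slp_sub hv
      (fun z => S.comp_ray h hsI hs2 (by linarith) hγ₁ hγ₂ hstep z) hw₁ hw₂
    have hκ₁c := conv κ₁ _ Δ hN hΔN.ge hκ₁b
    refine ⟨κ₁ + κ₂, ?_, ?_⟩
    · rw [hκ₂, hκ₁, add_smul, add_assoc]
    · refine (abs_add_le _ _).trans ((add_le_add hκ₁c hκ₂b).trans ?_)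
      rw [← mul_add]
      refine mul_le_mul_of_nonneg_left ?_ hA
      have h3 : Δ < 1 - s := by linarith [ht'.2]
      nlinarith [mul_pos hΔp (sub_pos.2 h3)]

/-- PROOF: choose for `t = 1 - 1 / (n + 1)` a valid `γ n` and a slope vector `w n = w 0 + κ n • v`;
`κ` is a Cauchy sequence by `slp_ray`; `u = w 0 + lim κ • v`. -/
theorem PlSys.exists_ray (S : PlSys D L b K ε ω c C) {x : X} {v : E} (h : Fm D x v) :
    ∃ u : E, Ray D L K ε ω c ((1 + C ^ 2) / (c * ε ^ 2)) x v u := by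
  have hcp := S.area.c_pos
  have hε := S.af.ε_pos
  have hv := h.ne_zero
  obtain ⟨A, hAdef⟩ : ∃ A, A = (1 + C ^ 2) / (c * ε ^ 2) := ⟨_, rfl⟩
  have hA : 0 ≤ A := by
    rw [hAdef]
    positivity
  have hsr : ∀ {t t' : ℝ}, t ∈ Ico (0 : ℝ) 1 → t' ∈ Ico (0 : ℝ) 1 → t ≤ t' → ∀ {γ γ' : Γ},
      Val K (ex D x (t • v)) γ → Val K (ex D x (t' • v)) γ' → ∀ {w w' : E},
      Slp L ω c v γ w → Slp L ω c v γ' w' →
      ∃ κ : ℝ, w' = w + κ • v ∧ |κ| ≤ A * (1 - t) ^ 2 := by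
    intro t t' ht ht' htt γ γ' hγ hγ' w w' hw hw'
    rw [hAdef]
    exact S.slp_ray h ht ht' htt hγ hγ' hw hw'
  rw [← hAdef]
  obtain ⟨T, hT⟩ : ∃ T : ℕ → ℝ, ∀ n, T n = 1 - 1 / ((n : ℝ) + 1) := ⟨_, fun n => rfl⟩
  have hTI : ∀ n, T n ∈ Ico (0 : ℝ) 1 := by
    intro n
    have h1 : 0 < 1 / ((n : ℝ) + 1) := by positivity
    have h2 : 1 / ((n : ℝ) + 1) ≤ 1 := by
      rw [div_le_one (by positivity)]
      linarith [(Nat.cast_nonneg n : (0 : ℝ) ≤ n)]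
    rw [hT]
    exact ⟨by linarith, by linarith⟩
  have hTm : ∀ m n : ℕ, m ≤ n → T m ≤ T n := by
    intro m n hmn
    rw [hT, hT]
    have h1 : (m : ℝ) ≤ n := Nat.cast_le.2 hmn
    have h2 : 1 / ((n : ℝ) + 1) ≤ 1 / ((m : ℝ) + 1) :=
      one_div_le_one_div_of_le (by positivity) (by linarith)
    linarith
  choose g hg using fun n : ℕ => S.af.exists_val (ex D x (T n • v))
  choose W hW using fun n : ℕ => S.exists_slp (c := c) hv (g n)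
  choose κ hκ hκb using fun n : ℕ => hsr (hTI 0) (hTI n) (hTm 0 n n.zero_le) (hg 0) (hg n)
    (hW 0) (hW n)
  have hinj : ∀ a a' : ℝ, a • v = a' • v → a = a' := fun a a' hh =>
    smul_left_injective ℝ hv hh
  have hTlim : Tendsto (fun n : ℕ => A * (1 - T n) ^ 2) atTop (𝓝 0) := by
    have h1 : Tendsto (fun n : ℕ => 1 / ((n : ℝ) + 1)) atTop (𝓝 0) :=
      tendsto_one_div_add_atTop_nhds_zero_nat
    have h2 : Tendsto (fun n : ℕ => A * (1 / ((n : ℝ) + 1)) ^ 2) atTop (𝓝 (A * 0 ^ 2)) :=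
      (h1.pow 2).const_mul A
    rw [zero_pow two_ne_zero, mul_zero] at h2
    refine h2.congr fun n => ?_
    rw [hT]
    ring
  have hdiff : ∀ m n : ℕ, m ≤ n → |κ n - κ m| ≤ A * (1 - T m) ^ 2 := by
    intro m n hmn
    obtain ⟨a, ha, hab⟩ := hsr (hTI m) (hTI n) (hTm m n hmn) (hg m) (hg n) (hW m) (hW n)
    have h1 : κ n - κ m = a := by
      apply hinj
      rw [hκ n, hκ m, add_assoc, add_right_inj] at ha
      rw [sub_smul, ha]
      abel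
    rw [h1]
    exact hab
  have hcau : CauchySeq κ := by
    rw [Metric.cauchySeq_iff']
    intro δ hδ
    have h1 := (hTlim.eventually (gt_mem_nhds hδ)).exists
    obtain ⟨N, hN⟩ := h1
    refine ⟨N, fun n hn => ?_⟩
    rw [Real.dist_eq]
    exact lt_of_le_of_lt (hdiff N n hn) hN
  obtain ⟨k, hk⟩ := cauchySeq_tendsto_of_complete hcau
  refine ⟨W 0 + k • v, ⟨h, ?_, hA, fun t ht γ hγ => S.gap h ht hγ, ?_⟩⟩
  · rw [map_add, map_smul, S.area.alt, smul_zero, add_zero]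
    exact (hW 0).1
  · intro t ht γ hγ w hw
    -- the difference `w - u` is a multiple of `v`
    have hn : ∀ n : ℕ, t ≤ T n → ∃ a : ℝ, W n = w + a • v ∧ |a| ≤ A * (1 - t) ^ 2 :=
      fun n htn => hsr ht (hTI n) htn hγ (hg n) hw (hW n)
    have hTn : ∀ᶠ n : ℕ in atTop, t ≤ T n := by
      have h1 : Tendsto T atTop (𝓝 1) := by
        have h2 : Tendsto (fun n : ℕ => 1 - 1 / ((n : ℝ) + 1)) atTop (𝓝 (1 - 0)) :=
          tendsto_one_div_add_atTop_nhds_zero_nat.const_sub 1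
        rw [sub_zero] at h2
        exact h2.congr fun n => (hT n).symm
      exact (h1.eventually (lt_mem_nhds ht.2)).mono fun n hn => hn.le
    obtain ⟨n₀, hn₀⟩ := hTn.exists
    obtain ⟨a₀, ha₀, -⟩ := hn n₀ hn₀
    refine ⟨κ n₀ - a₀ - k, ?_, ?_⟩
    · have h1 : w = W 0 + κ n₀ • v - a₀ • v := by
        rw [← hκ n₀, ha₀]
        abel
      rw [h1, sub_smul, sub_smul]
      abel
    · have h2 : ∀ᶠ n : ℕ in atTop, |κ n₀ - a₀ - k| ≤ A * (1 - t) ^ 2 + |κ n - k| := by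
        filter_upwards [hTn] with n hnt
        obtain ⟨a, ha, hab⟩ := hn n hnt
        have h3 : κ n₀ - a₀ = κ n - a := by
          apply hinj
          rw [sub_smul, sub_smul]
          have e1 : κ n₀ • v - a₀ • v = w - W 0 := by
            have := hκ n₀
            rw [ha₀] at this
            rw [sub_eq_sub_iff_add_eq_add, add_comm, ← this]
          have e2 : κ n • v - a • v = w - W 0 := by
            have := hκ n
            rw [ha] at this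
            rw [sub_eq_sub_iff_add_eq_add, add_comm, ← this]
          rw [e1, e2]
        rw [h3]
        have h4 : κ n - a - k = -a + (κ n - k) := by ring
        rw [h4]
        refine (abs_add_le _ _).trans ?_
        rw [abs_neg]
        linarith
      have h5 : Tendsto (fun n : ℕ => A * (1 - t) ^ 2 + |κ n - k|) atTop
          (𝓝 (A * (1 - t) ^ 2 + |k - k|)) :=
        tendsto_const_nhds.add (hk.sub_const k).abs
      rw [sub_self, abs_zero, add_zero] at h5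
      exact ge_of_tendsto h5 h2

end H83T
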