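import Pool.Agent.H.MP_7a8a58_gt.h83c.PlMiss
import Pool.Agent.H.MP_7a8a58_gt.h83c.PlRay

/-!
MP_7a8a58_gt, helper83, second part.  Gluing: the thin triangle at a first missing vector.
Paper proof: /team-store/h83_7a8a58_T3.md
-/

set_option autoImplicit false

open Set Metric Topology Filter

namespace H83T

variable {E : Type*} [NormedAddCommGroup E] [NormedSpace ℝ E] [FiniteDimensional ℝ E]
variable {X : Type*} [TopologicalSpace X] [T2Space X]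

/-- PROOF: put `y = ex D x (t₀ • v)`, `C₂ = {(α - t₀) • v + r • u | (1 + t₀) / 2 ≤ α < 1, |r| ≤ 1}`, convex, in `Dom D y`.
Fix `s₁ = (3 + t₀) / 4 ∈ ((1 + t₀) / 2, 1)`. The compact set `{s • v | s ∈ [0, s₁]}` lies in the open set `Dom D x`, so
there is `ρ > 0` with `ρ ≤ 1` and `s • (v + r • u) ∈ Dom D x` for `s ∈ [0, s₁]`, `|r| ≤ ρ`, and even
`C₁ = {s • v + r • u | s ∈ [0, s₁], |r| ≤ ρ} ⊆ Dom D x` (convex). Let `q = (s₁ - t₀) • v + (s₁ r) • u ∈ C₂`.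
By `move` (with `C₁`, from `t₀ • v` to `s₁ • (v + r • u) = t₀ • v + q`): `ex D y q = ex D x (s₁ • (v + r • u))`.
(i) for `s ∈ [s₁, 1)`: `q + (s - s₁) • (v + r • u) ∈ C₂`, so `move` (with `C₂`) gives
`(s - s₁) • (v + r • u) ∈ Dom D (ex D y q)` and `collinear` gives `s • (v + r • u) ∈ Dom D x`.
(ii) if `v + r • u ∈ Dom D x` then (`move` with the segment `{s • (v + r • u) | s ∈ [0, 1]}`)
`(1 - s₁) • (v + r • u) ∈ Dom D (ex D y q)`; `ext_corner` at `y` with the convex set `{s • z | s ∈ [0, 1], z ∈ C₂}`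
(in `Dom D y` by `smul_mem_dom`), the vector `q` and `z = (1 - t₀) • v + r • u` gives `z ∈ Dom D y`: contradiction to
`hmiss`. (`t • z` for `t ∈ [1/2, 1)` is in `C₂`, for `t ≤ 1/2` it is `(2 t) • (z / 2)`.) -/
theorem glue {D : X → E} (hD : IsLocalHomeomorph D) {x : X} {v u : E} (h : Fm D x v) {t₀ : ℝ}
    (ht₀ : t₀ ∈ Ico (0 : ℝ) 1)
    (hfill : ∀ α ∈ Ico ((1 + t₀) / 2) 1, ∀ r : ℝ, |r| ≤ 1 →
      (α - t₀) • v + r • u ∈ Dom D (ex D x (t₀ • v)))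
    (hmiss : ∀ r : ℝ, |r| ≤ 1 → (1 - t₀) • v + r • u ∉ Dom D (ex D x (t₀ • v))) :
    ∃ ρ > 0, ∀ r : ℝ, |r| ≤ ρ →
      (∀ s ∈ Ico (0 : ℝ) 1, s • (v + r • u) ∈ Dom D x) ∧ v + r • u ∉ Dom D x := by
  obtain ⟨h0, h1⟩ := ht₀
  set y : X := ex D x (t₀ • v) with hy
  -- the second convex set
  set C₂ : Set E := {z | ∃ α ∈ Ico ((1 + t₀) / 2) 1, ∃ r : ℝ, |r| ≤ 1 ∧
    z = (α - t₀) • v + r • u} with hC₂
  have hC₂c : Convex ℝ C₂ := by
    rintro _ ⟨α, hα, r, hr, rfl⟩ _ ⟨α', hα', r', hr', rfl⟩ p q hp hq hpq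
    have hα2 : p * α + q * α' ∈ Ico ((1 + t₀) / 2) 1 :=
      (convex_Ico ((1 + t₀) / 2) 1) hα hα' hp hq hpq
    refine ⟨p * α + q * α', hα2, p * r + q * r', ?_, ?_⟩
    · have h2 : p * r + q * r' ∈ Icc (-1 : ℝ) 1 :=
        (convex_Icc (-1 : ℝ) 1) (abs_le.mp hr) (abs_le.mp hr') hp hq hpq
      exact abs_le.mpr h2
    · have h3 : p * α + q * α' - t₀ = p * (α - t₀) + q * (α' - t₀) := by
        have : t₀ = (p + q) * t₀ := by rw [hpq, one_mul]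
        nth_rewrite 1 [this]
        ring
      rw [h3]
      module
  have hC₂s : C₂ ⊆ Dom D y := by
    rintro _ ⟨α, hα, r, hr, rfl⟩
    exact hfill α hα r hr
  -- the first convex set
  set s₁ : ℝ := (3 + t₀) / 4 with hs₁
  have hs₁0 : 0 < s₁ := by rw [hs₁]; linarith
  have hs₁1 : s₁ < 1 := by rw [hs₁]; linarith
  have hs₁t : t₀ ≤ s₁ := by rw [hs₁]; linarith
  have hs₁a : (1 + t₀) / 2 ≤ s₁ := by rw [hs₁]; linarith
  have hn : IsOpen ((fun p : ℝ × ℝ => p.1 • v + p.2 • u) ⁻¹' Dom D x) :=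
    (isOpen_dom hD x).preimage (by fun_prop)
  have hp : (Icc (0 : ℝ) s₁) ×ˢ ({0} : Set ℝ) ⊆
      (fun p : ℝ × ℝ => p.1 • v + p.2 • u) ⁻¹' Dom D x := by
    rintro ⟨a, b⟩ ⟨ha, hb⟩
    have hb0 : b = 0 := hb
    subst hb0
    change a • v + (0 : ℝ) • u ∈ Dom D x
    rw [zero_smul, add_zero]
    exact h.dom a ⟨ha.1, ha.2.trans_lt hs₁1⟩
  obtain ⟨U₁, U₂, -, hU₂, hsU₁, h0U₂, hUU⟩ :=
    generalized_tube_lemma isCompact_Icc isCompact_singleton hn hp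
  obtain ⟨δ, hδ, hball⟩ := Metric.isOpen_iff.mp hU₂ 0 (h0U₂ rfl)
  set ρ : ℝ := min (δ / 2) 1 with hρ
  have hρ0 : 0 < ρ := lt_min (half_pos hδ) one_pos
  have hρ1 : ρ ≤ 1 := min_le_right _ _
  set C₁ : Set E := {z | ∃ s ∈ Icc (0 : ℝ) s₁, ∃ r : ℝ, |r| ≤ ρ ∧ z = s • v + r • u} with hC₁
  have hC₁c : Convex ℝ C₁ := by
    rintro _ ⟨α, hα, r, hr, rfl⟩ _ ⟨α', hα', r', hr', rfl⟩ p q hp hq hpq
    have hα2 : p * α + q * α' ∈ Icc (0 : ℝ) s₁ := (convex_Icc (0 : ℝ) s₁) hα hα' hp hq hpq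
    refine ⟨p * α + q * α', hα2, p * r + q * r', ?_, ?_⟩
    · have h2 : p * r + q * r' ∈ Icc (-ρ) ρ :=
        (convex_Icc (-ρ) ρ) (abs_le.mp hr) (abs_le.mp hr') hp hq hpq
      exact abs_le.mpr h2
    · module
  have hC₁s : C₁ ⊆ Dom D x := by
    rintro _ ⟨s, hs, r, hr, rfl⟩
    refine hUU (a := (s, r)) ⟨hsU₁ hs, hball ?_⟩
    rw [mem_ball, Real.dist_eq, sub_zero]
    calc |r| ≤ ρ := hr
      _ ≤ δ / 2 := min_le_left _ _
      _ < δ := half_lt_self hδ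
  refine ⟨ρ, hρ0, fun r hr => ?_⟩
  have hr1 : |r| ≤ 1 := hr.trans hρ1
  have hmul : ∀ s ∈ Icc (0 : ℝ) 1, |s * r| ≤ |r| := by
    intro s hs
    rw [abs_mul, abs_of_nonneg hs.1]
    exact mul_le_of_le_one_left (abs_nonneg r) hs.2
  -- points of the segment near `x`
  have hlow : ∀ s ∈ Icc (0 : ℝ) s₁, s • (v + r • u) ∈ C₁ := by
    intro s hs
    refine ⟨s, hs, s * r, (hmul s ⟨hs.1, hs.2.trans hs₁1.le⟩).trans hr, ?_⟩
    module
  have hhigh : ∀ s ∈ Ico ((1 + t₀) / 2) 1, (s - t₀) • v + (s * r) • u ∈ C₂ := by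
    intro s hs
    refine ⟨s, hs, s * r, (hmul s ⟨?_, hs.2.le⟩).trans hr1, rfl⟩
    have := hs.1
    linarith
  set q : E := (s₁ - t₀) • v + (s₁ * r) • u with hq
  have hqC : q ∈ C₂ := hhigh s₁ ⟨hs₁a, hs₁1⟩
  have hx1 : s₁ • (v + r • u) ∈ Dom D x := hC₁s (hlow s₁ ⟨hs₁0.le, le_rfl⟩)
  have hqeq : t₀ • v + q = s₁ • (v + r • u) := by
    rw [hq]
    module
  have hexq : ex D y q = ex D x (s₁ • (v + r • u)) := by
    have hv0 : t₀ • v ∈ C₁ :=
      ⟨t₀, ⟨h0, hs₁t⟩, 0, by rw [abs_zero]; exact hρ0.le, by rw [zero_smul, add_zero]⟩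
    have h2 := move hD hC₁c hC₁s (v := t₀ • v) (w := q) hv0
      (by rw [hqeq]; exact hlow s₁ ⟨hs₁0.le, le_rfl⟩)
    rw [hqeq] at h2
    exact h2.2
  constructor
  · intro s hs
    rcases le_or_gt s s₁ with hss | hss
    · exact hC₁s (hlow s ⟨hs.1, hss⟩)
    · have hqw : q + (s - s₁) • (v + r • u) = (s - t₀) • v + (s * r) • u := by
        rw [hq]
        module
      have h2 := (move hD hC₂c hC₂s (v := q) (w := (s - s₁) • (v + r • u)) hqC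
        (by rw [hqw]; exact hhigh s ⟨hs₁a.trans hss.le, hs.2⟩)).1
      rw [hexq] at h2
      have hr' : 0 ≤ (s - s₁) / s₁ := div_nonneg (by linarith) hs₁0.le
      have h3 : ((s - s₁) / s₁) • (s₁ • (v + r • u)) = (s - s₁) • (v + r • u) := by
        rw [smul_smul, div_mul_cancel₀ _ hs₁0.ne']
      have h4 := (collinear hD hr' hx1 (by rw [h3]; exact h2)).1
      rw [smul_smul] at h4
      have h5 : (1 + (s - s₁) / s₁) * s₁ = s := by
        field_simp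
        ring
      rwa [h5] at h4
  · intro hbad
    refine hmiss r hr1 ?_
    have hseg : segment ℝ (0 : E) (v + r • u) ⊆ Dom D x := by
      rintro _ ⟨a, b, ha, hb, hab, rfl⟩
      rw [smul_zero, zero_add]
      exact smul_mem_dom hbad ⟨hb, by linarith⟩
    have hm := (move hD (convex_segment (0 : E) (v + r • u)) hseg (v := s₁ • (v + r • u))
      (w := (1 - s₁) • (v + r • u))
      ⟨1 - s₁, s₁, by linarith, hs₁0.le, by ring, by rw [smul_zero, zero_add]⟩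
      ⟨0, 1, le_rfl, zero_le_one, by ring, by module⟩).1
    rw [← hexq] at hm
    have hz : (1 - t₀) • v + r • u - q = (1 - s₁) • (v + r • u) := by
      rw [hq]
      module
    refine ext_corner hD (C := convexJoin ℝ {0} C₂) ((convex_singleton (0 : E)).convexJoin hC₂c)
      ?_ (v := q) ?_ (by rw [hz]; exact hm) ?_
    · intro z hz
      obtain ⟨a, ha, b, hb, hab⟩ := mem_convexJoin.mp hz
      have ha0 : a = 0 := ha
      subst ha0
      obtain ⟨p, q', hp, hq', hpq, rfl⟩ := hab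
      rw [smul_zero, zero_add]
      exact smul_mem_dom (hC₂s hb) ⟨hq', by linarith⟩
    · exact mem_convexJoin.mpr ⟨0, rfl, q, hqC, right_mem_segment ℝ _ _⟩
    · intro t ht
      rcases le_or_gt (1 / 2) t with h2 | h2
      · refine mem_convexJoin.mpr ⟨0, rfl, t • ((1 - t₀) • v + r • u), ?_,
          right_mem_segment ℝ _ _⟩
        refine ⟨t * (1 - t₀) + t₀, ⟨?_, ?_⟩, t * r, (hmul t ⟨ht.1, ht.2.le⟩).trans hr1, ?_⟩
        · nlinarith
        · nlinarith [ht.2]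
        · module
      · refine mem_convexJoin.mpr ⟨0, rfl, (1 / 2 : ℝ) • ((1 - t₀) • v + r • u), ?_, ?_⟩
        · refine ⟨(1 + t₀) / 2, ⟨le_rfl, by linarith⟩, 1 / 2 * r,
            (hmul (1 / 2) ⟨by norm_num, by norm_num⟩).trans hr1, ?_⟩
          have h3 : (1 + t₀) / 2 - t₀ = 1 / 2 * (1 - t₀) := by ring
          rw [h3]
          module
        · refine ⟨1 - 2 * t, 2 * t, by linarith, by linarith [ht.1], by ring, ?_⟩
          rw [smul_zero, zero_add, smul_smul]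
          congr 1
          ring

variable {Γ : Type*} [Group Γ] [MulAction Γ X] [ContinuousConstSMul Γ X]
  [ProperlyDiscontinuousSMul Γ X]
variable {D : X → E} {L : Γ →* (E ≃ₗ[ℝ] E)} {b : Γ → E} {K : Set X} {ε : ℝ}
variable {ω : E →ₗ[ℝ] E →ₗ[ℝ] ℝ} {c C : ℝ}

/-- PROOF: `u` from `exists_ray`, `fill` with `r₀ = 1` and `t₀ = t₁`, `not_mem`, `glue`; the linear form is
`n z = ω z u` (`ω v u = 1`); `n z = 1` means `z - v = κ • u` with `|κ| ‖u‖ = ‖z - v‖` (`area.par`). -/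
theorem PlSys.thin (S : PlSys D L b K ε ω c C) (x : X) (v : E)
    (h : ∀ t ∈ Ico (0 : ℝ) 1, t • v ∈ Dom D x) (hv : v ∉ Dom D x) :
    ∃ n : E →L[ℝ] ℝ, n v = 1 ∧ ∃ ρ > 0, ∀ z : E, n z = 1 → ‖z - v‖ ≤ ρ →
      (∀ s ∈ Ico (0 : ℝ) 1, s • z ∈ Dom D x) ∧ z ∉ Dom D x := by
  have hfm : Fm D x v := ⟨h, hv⟩
  obtain ⟨u, R⟩ := S.exists_ray hfm
  obtain ⟨t₀, ht₀, hfill⟩ := R.fill S 1
  have hfill0 := hfill t₀ ⟨le_rfl, ht₀.2⟩
  have hmiss : ∀ r : ℝ, |r| ≤ 1 → (1 - t₀) • v + r • u ∉ Dom D (ex D x (t₀ • v)) :=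
    fun r hr => R.not_mem S ht₀ hfill0 hr
  obtain ⟨ρ, hρ, hgl⟩ := glue S.af.hD hfm ht₀ hfill0 hmiss
  have hu : u ≠ 0 := by
    rintro rfl
    have := R.wu
    rw [map_zero] at this
    exact zero_ne_one this
  have hu0 : 0 < ‖u‖ := norm_pos_iff.mpr hu
  refine ⟨LinearMap.toContinuousLinearMap (ω.flip u), R.wu, ρ * ‖u‖, mul_pos hρ hu0, ?_⟩
  intro z hz hzρ
  have hz1 : ω z u = 1 := hz
  have hpar := S.area.par v u z
  rw [R.wu, hz1, one_smul, one_smul] at hpar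
  have hr : |ω v z| ≤ ρ := by
    have h2 : z - v = ω v z • u := by
      nth_rewrite 1 [hpar]
      rw [add_sub_cancel_left]
    rw [h2, norm_smul, Real.norm_eq_abs] at hzρ
    exact le_of_mul_le_mul_right hzρ hu0
  have h3 := hgl (ω v z) hr
  rw [← hpar] at h3
  exact h3

end H83T
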