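import Mathlib

/-!
MP_7a8a58_gt, helper83, second part.  Open star-shaped sets whose boundary is locally flat.
Paper proof: /team-store/h83_7a8a58_T3.md
-/

set_option autoImplicit false

open Set Metric Topology Filter

namespace H83T

variable {E : Type*} [NormedAddCommGroup E] [NormedSpace ℝ E]

/-- `z` is first missing in `Ω`. -/
def FmS (Ω : Set E) (z : E) : Prop := (∀ s ∈ Ico (0 : ℝ) 1, s • z ∈ Ω) ∧ z ∉ Ω

/-- Every missing vector lies behind a first missing one.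
PROOF: `s = sInf {s ≥ 0 | s • p ∉ Ω}` (closed set, does not contain 0). -/
theorem exists_fmS {Ω : Set E} (ho : IsOpen Ω) (h0 : (0 : E) ∈ Ω)
    (hs : ∀ z ∈ Ω, ∀ s ∈ Icc (0 : ℝ) 1, s • z ∈ Ω) {p : E} (hp : p ∉ Ω) :
    ∃ s ∈ Ioc (0 : ℝ) 1, FmS Ω (s • p) := by
  obtain ⟨T, hT⟩ : ∃ T : Set ℝ, T = Icc (0 : ℝ) 1 ∩ {s : ℝ | s • p ∉ Ω} := ⟨_, rfl⟩
  have hcl : IsClosed T := by
    rw [hT]
    refine isClosed_Icc.inter ?_
    have hc : Continuous fun s : ℝ => s • p := continuous_id.smul continuous_const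
    exact (ho.preimage hc).isClosed_compl
  have hne : T.Nonempty := ⟨1, by
    rw [hT]
    exact ⟨⟨zero_le_one, le_rfl⟩, by
      show (1 : ℝ) • p ∉ Ω
      rwa [one_smul]⟩⟩
  have hbb : BddBelow T := ⟨0, fun s h => by
    rw [hT] at h
    exact h.1.1⟩
  have hmem : sInf T ∈ T := hcl.csInf_mem hne hbb
  have hmem' := hmem
  rw [hT] at hmem'
  have h00 : sInf T ≠ 0 := by
    intro h
    have h1 : sInf T • p ∉ Ω := by
      have h2 := hmem
      rw [hT] at h2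
      rw [hT]
      exact h2.2
    rw [h, zero_smul] at h1
    exact h1 h0
  have hin : sInf T ∈ Icc (0 : ℝ) 1 := by
    have h2 := hmem
    rw [hT] at h2
    rw [hT]
    exact h2.1
  have hout : sInf T • p ∉ Ω := by
    have h2 := hmem
    rw [hT] at h2
    rw [hT]
    exact h2.2
  have hpos : 0 < sInf T := lt_of_le_of_ne hin.1 (Ne.symm h00)
  refine ⟨sInf T, ⟨hpos, hin.2⟩, fun t ht => ?_, hout⟩
  by_contra hc
  have h3 : t * sInf T ∈ T := by
    rw [hT]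
    rw [hT] at hc hpos hin
    refine ⟨⟨mul_nonneg ht.1 hpos.le, ?_⟩, ?_⟩
    · calc t * sInf (Icc (0 : ℝ) 1 ∩ {s : ℝ | s • p ∉ Ω})
          ≤ 1 * sInf (Icc (0 : ℝ) 1 ∩ {s : ℝ | s • p ∉ Ω}) :=
            mul_le_mul_of_nonneg_right ht.2.le hpos.le
        _ ≤ 1 := by rw [one_mul]; exact hin.2
    · show (t * sInf (Icc (0 : ℝ) 1 ∩ {s : ℝ | s • p ∉ Ω})) • p ∉ Ω
      rwa [mul_smul]
  have h4 : sInf T ≤ t * sInf T := csInf_le hbb h3
  nlinarith [ht.2]

/-- first missing vectors on a ray are unique -/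
private theorem PlHalf_uniq {Ω : Set E} {z : E} (hz : FmS Ω z) {s : ℝ} (hs0 : 0 < s)
    (h : FmS Ω (s • z)) : s = 1 := by
  rcases lt_trichotomy s 1 with h1 | h1 | h1
  · exact absurd (hz.1 s ⟨hs0.le, h1⟩) h.2
  · exact h1
  · exfalso
    have h2 := h.1 s⁻¹ ⟨(inv_pos.2 hs0).le, inv_lt_one_of_one_lt₀ h1⟩
    rw [smul_smul, inv_mul_cancel₀ hs0.ne', one_smul] at h2
    exact hz.2 h2

/-- The whole hyperplane is first missing.
PROOF: `H = {z | n z = 1}` is preconnected (convex). `J = {z ∈ H | ∃ ρ > 0, ∀ z' ∈ H, ‖z' - z‖ ≤ ρ → FmS Ω z'}` is open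
in `H`, contains `v`; closed in `H`: let `z ∈ H` be a limit of `J`. (A) `z ∉ Ω` as `Ω` is open and the points of `J` are
missing. (B) `exists_fmS`: `s • z` is first missing, `s ≤ 1`, with form `n'` (`ht`), `n' (s • z) = 1`. For `z' ∈ J` near
`z`, the point `s' • z'`, `s' = 1 / n' z'`, is near `s • z` and on `{n' = 1}`, so it is first missing; as `z'` is first
missing too, `s' = 1` (first missing vectors on a ray are unique). So `n' z' = 1` for all `z' ∈ J` near `z`,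
so `s = 1` by continuity, and since `J` contains a relative ball around `z'`, `n' = 1` on an open part of `H`, so `n' = n`
(`n' - n` vanishes at `z'` and on `ker n`), so `z ∈ J`. -/
theorem hyper_fmS {Ω : Set E} (ho : IsOpen Ω) (h0 : (0 : E) ∈ Ω)
    (hs : ∀ z ∈ Ω, ∀ s ∈ Icc (0 : ℝ) 1, s • z ∈ Ω)
    (ht : ∀ v : E, (∀ t ∈ Ico (0 : ℝ) 1, t • v ∈ Ω) → v ∉ Ω →
      ∃ n : E →L[ℝ] ℝ, n v = 1 ∧ ∃ ρ > 0, ∀ z : E, n z = 1 → ‖z - v‖ ≤ ρ →
        (∀ s ∈ Ico (0 : ℝ) 1, s • z ∈ Ω) ∧ z ∉ Ω)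
    {v : E} {n : E →L[ℝ] ℝ} (hn : n v = 1) {ρ : ℝ} (hρ : 0 < ρ)
    (hv : ∀ z : E, n z = 1 → ‖z - v‖ ≤ ρ → FmS Ω z) : ∀ z : E, n z = 1 → FmS Ω z := by
  obtain ⟨J, hJ⟩ : ∃ J : Set E, J = {z | n z = 1 ∧ ∃ ρ > 0, ∀ z' : E, n z' = 1 →
    ‖z' - z‖ ≤ ρ → FmS Ω z'} := ⟨_, rfl⟩
  have hJ1 : ∀ z, z ∈ J ↔ n z = 1 ∧ ∃ ρ > 0, ∀ z' : E, n z' = 1 →
    ‖z' - z‖ ≤ ρ → FmS Ω z' := fun z => by rw [hJ]; rfl
  -- relative openness
  have hopen : ∀ z ∈ J, ∃ δ > 0, ∀ z' : E, n z' = 1 → ‖z' - z‖ < δ → z' ∈ J := by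
    intro z hz
    obtain ⟨hz1, ρ1, hρ1, h1⟩ := (hJ1 z).1 hz
    refine ⟨ρ1, hρ1, fun z' hz' hd => (hJ1 z').2 ⟨hz', ρ1 - ‖z' - z‖, by linarith,
      fun z'' hz'' hd2 => h1 z'' hz'' ?_⟩⟩
    calc ‖z'' - z‖ = ‖(z'' - z') + (z' - z)‖ := by congr 1; abel
      _ ≤ ‖z'' - z'‖ + ‖z' - z‖ := norm_add_le _ _
      _ ≤ ρ1 := by linarith
  -- relative closedness
  have hclosed : ∀ z0 : E, n z0 = 1 → (∀ ε > 0, ∃ z' ∈ J, ‖z' - z0‖ < ε) → z0 ∈ J := by
    intro z0 hz0 hlim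
    have hA : z0 ∉ Ω := by
      intro hmem
      obtain ⟨ε, hε, hb⟩ := Metric.isOpen_iff.1 ho z0 hmem
      obtain ⟨z', hz', hd⟩ := hlim ε hε
      obtain ⟨h1, ρ1, hρ1, h2⟩ := (hJ1 z').1 hz'
      have h3 : FmS Ω z' := h2 z' h1 (by rw [sub_self, norm_zero]; exact hρ1.le)
      exact h3.2 (hb (by rw [Metric.mem_ball, dist_eq_norm]; exact hd))
    obtain ⟨s, hs1, hs2⟩ := exists_fmS ho h0 hs hA
    obtain ⟨n', hn', ρ', hρ', h3⟩ := ht (s • z0) hs2.1 hs2.2
    have hsn : s * n' z0 = 1 := by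
      rw [← smul_eq_mul, ← map_smul]
      exact hn'
    have hn0 : n' z0 ≠ 0 := by
      intro h
      rw [h, mul_zero] at hsn
      exact zero_ne_one hsn
    have hpos : 0 < n' z0 := by
      by_contra hc
      have : n' z0 ≤ 0 := not_lt.1 hc
      nlinarith [hs1.1]
    have hsinv : (n' z0)⁻¹ = s := by
      rw [inv_eq_iff_eq_inv, eq_inv_of_mul_eq_one_right hsn]
    have hcont : ContinuousAt (fun z : E => (n' z)⁻¹ • z) z0 :=
      (n'.continuous.continuousAt.inv₀ hn0).smul continuousAt_id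
    have hcv : Tendsto (fun z : E => (n' z)⁻¹ • z) (𝓝 z0) (𝓝 (s • z0)) := by
      have h4 := hcont.tendsto
      simp only [hsinv] at h4
      exact h4
    have hev : ∀ᶠ z in 𝓝 z0, 0 < n' z ∧ ‖(n' z)⁻¹ • z - s • z0‖ ≤ ρ' := by
      have h4 : ∀ᶠ z in 𝓝 z0, 0 < n' z := n'.continuous.continuousAt.eventually_const_lt hpos
      have h5 : ∀ᶠ z in 𝓝 z0, dist ((n' z)⁻¹ • z) (s • z0) < ρ' :=
        Metric.tendsto_nhds.1 hcv ρ' hρ'
      filter_upwards [h4, h5] with z h6 h7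
      rw [dist_eq_norm] at h7
      exact ⟨h6, h7.le⟩
    obtain ⟨δ, hδ, hball⟩ := Metric.eventually_nhds_iff.1 hev
    have hkey : ∀ z' ∈ J, ‖z' - z0‖ < δ → n' z' = 1 := by
      intro z' hz' hd
      obtain ⟨h4, h5⟩ := hball (y := z') (by rw [dist_eq_norm]; exact hd)
      obtain ⟨h6, ρ1, hρ1, h7⟩ := (hJ1 z').1 hz'
      have h8 : FmS Ω z' := h7 z' h6 (by rw [sub_self, norm_zero]; exact hρ1.le)
      have h9 : n' ((n' z')⁻¹ • z') = 1 := by
        rw [map_smul, smul_eq_mul, inv_mul_cancel₀ h4.ne']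
      have h10 : FmS Ω ((n' z')⁻¹ • z') := h3 _ h9 h5
      have h11 := PlHalf_uniq h8 (inv_pos.2 h4) h10
      rw [inv_eq_one] at h11
      exact h11
    obtain ⟨z', hz', hd⟩ := hlim δ hδ
    obtain ⟨δ1, hδ1, hop⟩ := hopen z' hz'
    have hz'1 : n z' = 1 := ((hJ1 z').1 hz').1
    have hn'z : n' z' = 1 := hkey z' hz' hd
    have hker : ∀ w : E, n w = 0 → n' w = 0 := by
      intro w hw
      obtain ⟨ε, hε, hε1⟩ : ∃ ε : ℝ, 0 < ε ∧ ε * ‖w‖ < min δ1 (δ - ‖z' - z0‖) := by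
        have hm : 0 < min δ1 (δ - ‖z' - z0‖) := lt_min hδ1 (by linarith)
        refine ⟨min δ1 (δ - ‖z' - z0‖) / (‖w‖ + 1), by positivity, ?_⟩
        rw [div_mul_eq_mul_div, div_lt_iff₀ (by positivity)]
        have := norm_nonneg w
        nlinarith
      have h4 : ‖(z' + ε • w) - z'‖ = ε * ‖w‖ := by
        rw [add_sub_cancel_left, norm_smul, Real.norm_of_nonneg hε.le]
      have h5 : n (z' + ε • w) = 1 := by
        rw [map_add, map_smul, hw, hz'1, smul_zero, add_zero]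
      have h6 : z' + ε • w ∈ J := hop _ h5 (by
        rw [h4]
        exact hε1.trans_le (min_le_left _ _))
      have h7 : ‖(z' + ε • w) - z0‖ < δ := by
        calc ‖(z' + ε • w) - z0‖ = ‖((z' + ε • w) - z') + (z' - z0)‖ := by congr 1; abel
          _ ≤ ‖(z' + ε • w) - z'‖ + ‖z' - z0‖ := norm_add_le _ _
          _ < δ := by
            rw [h4]
            have := hε1.trans_le (min_le_right _ _)
            linarith
      have h8 := hkey _ h6 h7
      rw [map_add, map_smul, hn'z, smul_eq_mul] at h8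
      have h9 : ε * n' w = 0 := by linarith
      exact (mul_eq_zero.1 h9).resolve_left hε.ne'
    have heq : ∀ y : E, n' y = n y := by
      intro y
      have h4 : n (y - n y • z') = 0 := by
        rw [map_sub, map_smul, hz'1, smul_eq_mul, mul_one, sub_self]
      have h5 := hker _ h4
      rw [map_sub, map_smul, hn'z, smul_eq_mul, mul_one] at h5
      linarith
    have hs1' : s = 1 := by
      rw [heq z0, hz0, mul_one] at hsn
      exact hsn
    refine (hJ1 z0).2 ⟨hz0, ρ', hρ', fun z'' hz'' hd'' => ?_⟩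
    refine h3 z'' (by rw [heq]; exact hz'') ?_
    rw [hs1', one_smul]
    exact hd''
  intro z hz
  have hmemJ : z ∈ J := by
    have hγn : ∀ t : ℝ, n (v + t • (z - v)) = 1 := by
      intro t
      rw [map_add, map_smul, map_sub, hn, hz, sub_self, smul_zero, add_zero]
    have hγc : Continuous fun t : ℝ => v + t • (z - v) :=
      continuous_const.add (continuous_id.smul continuous_const)
    have hU : IsOpen {t : ℝ | v + t • (z - v) ∈ J} := by
      rw [Metric.isOpen_iff]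
      intro t ht'
      obtain ⟨δ, hδ, h1⟩ := hopen _ ht'
      obtain ⟨ε, hε, h2⟩ := Metric.continuousAt_iff.1 (hγc.continuousAt (x := t)) δ hδ
      refine ⟨ε, hε, fun t' ht'' => h1 _ (hγn t') ?_⟩
      have h3 := h2 (Metric.mem_ball.1 ht'')
      rwa [dist_eq_norm] at h3
    have h0J : v ∈ J := (hJ1 v).2 ⟨hn, ρ, hρ, hv⟩
    have hsub : Icc (0 : ℝ) 1 ⊆ {t : ℝ | v + t • (z - v) ∈ J} := by
      refine isPreconnected_Icc.subset_of_closure_inter_subset hU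
        ⟨0, ⟨le_rfl, zero_le_one⟩, ?_⟩ ?_
      · show v + (0 : ℝ) • (z - v) ∈ J
        rw [zero_smul, add_zero]
        exact h0J
      · rintro t ⟨ht1, -⟩
        refine hclosed _ (hγn t) fun ε hε => ?_
        obtain ⟨δ, hδ, h2⟩ := Metric.continuousAt_iff.1 (hγc.continuousAt (x := t)) ε hε
        obtain ⟨t', ht', hd⟩ := Metric.mem_closure_iff.1 ht1 δ hδ
        refine ⟨_, ht', ?_⟩
        rw [dist_comm] at hd
        have h3 := h2 hd
        rwa [dist_eq_norm] at h3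
    have h1 := hsub (⟨zero_le_one, le_rfl⟩ : (1 : ℝ) ∈ Icc (0 : ℝ) 1)
    have h2 : v + (1 : ℝ) • (z - v) ∈ J := h1
    rwa [one_smul, add_sub_cancel] at h2
  obtain ⟨h1, ρ1, hρ1, h2⟩ := (hJ1 z).1 hmemJ
  exact h2 z h1 (by rw [sub_self, norm_zero]; exact hρ1.le)

/-- PROOF: if `Ω ≠ univ` there are a first missing `v` (`exists_fmS`) and `n` (`ht`), and `{n = 1}` is first missing
(`hyper_fmS`). So `{0 < n < 1} ⊆ Ω` (`z = n z • (z / n z)`), `{1 ≤ n} ∩ Ω = ∅` (`hs`). `{n = 0} ⊆ Ω`: else there is a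
first missing `p` with `n p = 0` and form `n'`, `n' p = 1`; choose `w` with `n' w = 0`, `0 < n w` (otherwise `ker n' ⊆ ker n`,
`n = λ n'`, `λ = n p = 0`); `p + δ w` is missing for small `δ > 0` but `0 < n (p + δ w) < 1`. If `{n < 0} ⊆ Ω` then
`Ω = {n < 1}`. Otherwise there is a first missing `v'` with `n v' < 0`, form `n'`, `{0 < n' < 1} ⊆ Ω`,
`{1 ≤ n'} ∩ Ω = ∅`. If `n'` is not a multiple of `n` there is `z` with `n z = 1 / 2` and `n' z = 1`: contradiction. So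
`n' = λ n`, `λ < 0`, and `Ω = {-a < n < 1}` with `a = - 1 / λ`. -/
theorem half_of_thin {Ω : Set E} (ho : IsOpen Ω) (h0 : (0 : E) ∈ Ω)
    (hs : ∀ z ∈ Ω, ∀ s ∈ Icc (0 : ℝ) 1, s • z ∈ Ω)
    (ht : ∀ v : E, (∀ t ∈ Ico (0 : ℝ) 1, t • v ∈ Ω) → v ∉ Ω →
      ∃ n : E →L[ℝ] ℝ, n v = 1 ∧ ∃ ρ > 0, ∀ z : E, n z = 1 → ‖z - v‖ ≤ ρ →
        (∀ s ∈ Ico (0 : ℝ) 1, s • z ∈ Ω) ∧ z ∉ Ω) :
    Ω = univ ∨ ∃ n : E →L[ℝ] ℝ, n ≠ 0 ∧
      (Ω = {z | n z < 1} ∨ ∃ a : ℝ, 0 < a ∧ Ω = {z | -a < n z ∧ n z < 1}) := by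
  by_cases hu : Ω = univ
  · exact Or.inl hu
  right
  -- the two half space facts for every first missing vector
  have hL : ∀ v : E, FmS Ω v → ∃ n : E →L[ℝ] ℝ, n v = 1 ∧
      (∀ z : E, 0 < n z → n z < 1 → z ∈ Ω) ∧ ∀ z : E, 1 ≤ n z → z ∉ Ω := by
    intro v hv
    obtain ⟨n, hn, ρ, hρ, h1⟩ := ht v hv.1 hv.2
    have h2 := hyper_fmS ho h0 hs ht hn hρ h1
    refine ⟨n, hn, fun z h3 h4 => ?_, fun z h3 h4 => ?_⟩
    · have h5 : n ((n z)⁻¹ • z) = 1 := by
        rw [map_smul, smul_eq_mul, inv_mul_cancel₀ h3.ne']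
      have h6 := (h2 _ h5).1 (n z) ⟨h3.le, h4⟩
      rwa [smul_smul, mul_inv_cancel₀ h3.ne', one_smul] at h6
    · have h3' : 0 < n z := by linarith
      have h5 : n ((n z)⁻¹ • z) = 1 := by
        rw [map_smul, smul_eq_mul, inv_mul_cancel₀ h3'.ne']
      exact (h2 _ h5).2 (hs z h4 _ ⟨(inv_pos.2 h3').le, inv_le_one_of_one_le₀ h3⟩)
  obtain ⟨p, hp⟩ : ∃ p, p ∉ Ω := by
    by_contra hc
    push Not at hc
    exact hu (eq_univ_of_forall hc)
  obtain ⟨s, -, hv⟩ := exists_fmS ho h0 hs hp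
  obtain ⟨n, hn, hn1, hn2⟩ := hL _ hv
  obtain ⟨v, hvdef⟩ : ∃ v, v = s • p := ⟨_, rfl⟩
  rw [← hvdef] at hv hn
  have hn0 : n ≠ 0 := by
    intro h
    rw [h] at hn
    simp at hn
  have hz : ∀ z : E, n z = 0 → z ∈ Ω := by
    intro q hq
    by_contra hc
    obtain ⟨s', -, hq'⟩ := exists_fmS ho h0 hs hc
    obtain ⟨n', hn', hn1', hn2'⟩ := hL _ hq'
    obtain ⟨p', hp'⟩ : ∃ p', p' = s' • q := ⟨_, rfl⟩
    rw [← hp'] at hn'
    have hnp : n p' = 0 := by rw [hp', map_smul, hq, smul_zero]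
    have e1 : n (p' + (1 / 2 : ℝ) • (v - n' v • p')) = 1 / 2 := by
      rw [map_add, map_smul, map_sub, map_smul, hnp, hn]
      simp
    have e2 : n' (p' + (1 / 2 : ℝ) • (v - n' v • p')) = 1 := by
      rw [map_add, map_smul, map_sub, map_smul, hn']
      simp
    exact hn2' _ e2.ge (hn1 _ (by rw [e1]; norm_num) (by rw [e1]; norm_num))
  refine ⟨n, hn0, ?_⟩
  by_cases hneg : ∀ z : E, n z < 0 → z ∈ Ω
  · left
    ext z
    constructor
    · intro h1
      show n z < 1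
      by_contra hc
      exact hn2 z (not_lt.1 hc) h1
    · intro h1
      have h1' : n z < 1 := h1
      rcases lt_trichotomy (n z) 0 with h2 | h2 | h2
      · exact hneg z h2
      · exact hz z h2
      · exact hn1 z h2 h1'
  · right
    push Not at hneg
    obtain ⟨q, hq1, hq2⟩ := hneg
    obtain ⟨s', hs', hq'⟩ := exists_fmS ho h0 hs hq2
    obtain ⟨n', hn', hn1', hn2'⟩ := hL _ hq'
    have hnq : n (s' • q) < 0 := by
      rw [map_smul, smul_eq_mul]
      exact mul_neg_of_pos_of_neg hs'.1 hq1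
    have hker : ∀ w : E, n w = 0 → n' w = 0 := by
      intro w hw
      by_contra hc
      have e1 : n ((1 / 2 : ℝ) • v + ((1 - 1 / 2 * n' v) / n' w) • w) = 1 / 2 := by
        rw [map_add, map_smul, map_smul, hn, hw]
        simp
      have e2 : n' ((1 / 2 : ℝ) • v + ((1 - 1 / 2 * n' v) / n' w) • w) = 1 := by
        rw [map_add, map_smul, map_smul, smul_eq_mul, smul_eq_mul]
        field_simp
        ring
      exact hn2' _ e2.ge (hn1 _ (by rw [e1]; norm_num) (by rw [e1]; norm_num))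
    have heq : ∀ y : E, n' y = n' v * n y := by
      intro y
      have h4 : n (y - n y • v) = 0 := by
        rw [map_sub, map_smul, hn, smul_eq_mul, mul_one, sub_self]
      have h5 := hker _ h4
      rw [map_sub, map_smul, smul_eq_mul] at h5
      linarith
    have hlam : n' v < 0 := by
      have h4 := heq (s' • q)
      rw [hn'] at h4
      by_contra hc
      have h5 : 0 ≤ n' v := not_lt.1 hc
      nlinarith
    refine ⟨-(n' v)⁻¹, neg_pos.2 (inv_lt_zero.2 hlam), ?_⟩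
    have hinv : n' v * (n' v)⁻¹ = 1 := mul_inv_cancel₀ hlam.ne
    ext z
    constructor
    · intro h1
      refine ⟨?_, ?_⟩
      · rw [neg_neg]
        by_contra hc
        have h2 : n z ≤ (n' v)⁻¹ := not_lt.1 hc
        refine hn2' z ?_ h1
        rw [heq z, ← hinv]
        exact mul_le_mul_of_nonpos_left h2 hlam.le
      · by_contra hc
        exact hn2 z (not_lt.1 hc) h1
    · rintro ⟨h1, h2⟩
      rw [neg_neg] at h1
      rcases lt_trichotomy (n z) 0 with h3 | h3 | h3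
      · refine hn1' z ?_ ?_
        · rw [heq z]
          exact mul_pos_of_neg_of_neg hlam h3
        · rw [heq z, ← hinv]
          exact mul_lt_mul_of_neg_left h1 hlam
      · exact hz z h3
      · exact hn1 z h3 h2

end H83T
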