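import Pool.Agent.H.MP_7a8a58_gt.h83c.FlG
import Pool.Agent.H.MP_7a8a58_gt.h83c.PlGlue
import Pool.Agent.H.MP_7a8a58_gt.h83c.PlHalf

/-!
MP_7a8a58_gt, helper83, third part.  The star domains modulo `W` are half planes or strips.
Paper proof: /team-store/h83_7a8a58_T4.md
-/

set_option autoImplicit false

open Set Metric Topology Filter

namespace H83T

variable {W : Type*} [NormedAddCommGroup W] [NormedSpace ℝ W] [FiniteDimensional ℝ W]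
variable {X : Type*} [TopologicalSpace X] [T2Space X]
variable {Γ : Type*} [Group Γ] [MulAction Γ X] [ContinuousConstSMul Γ X]
  [ProperlyDiscontinuousSMul Γ X]
variable {D : X → W × (Fin 2 → ℝ)}
  {L : Γ →* ((W × (Fin 2 → ℝ)) ≃ₗ[ℝ] (W × (Fin 2 → ℝ)))} {b : Γ → W × (Fin 2 → ℝ)}
  {A : Γ →* GL (Fin 2) ℤ} {K : Set X} {ε C C₄ t₄ : ℝ}

/-- the linear form of `thin` -/
private noncomputable def FlH_form (u : Fin 2 → ℝ) : (Fin 2 → ℝ) →L[ℝ] ℝ :=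
  LinearMap.toContinuousLinearMap
    { toFun := fun z => om z u
      map_add' := fun a b => by simp only [om, Pi.add_apply]; ring
      map_smul' := fun a b => by simp only [om, Pi.smul_apply, smul_eq_mul, RingHom.id_apply]; ring }

private theorem FlH_form_apply (u z : Fin 2 → ℝ) : FlH_form u z = om z u := rfl

/-- PROOF: `exists_rayF`, `fill` (take `t₀ = t₁`), `miss`, then `glue` (PlGlue) with `(0, v)` and `(0, r₀ • u)`; the form is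
`n z = om z u`; `n z = 1` means `z - v = κ • u` (`om_par`), `|κ| ‖u‖ = ‖z - v‖` (as `PlSys.thin`). -/
theorem FlSys.thin (S : FlSys D L b A K ε C) (x : X) (v : Fin 2 → ℝ)
    (h : ∀ t ∈ Ico (0 : ℝ) 1, t • v ∈ {z : Fin 2 → ℝ | ((0, z) : W × (Fin 2 → ℝ)) ∈ Dom D x})
    (hv : v ∉ {z : Fin 2 → ℝ | ((0, z) : W × (Fin 2 → ℝ)) ∈ Dom D x}) :
    ∃ n : (Fin 2 → ℝ) →L[ℝ] ℝ, n v = 1 ∧ ∃ ρ > 0, ∀ z : Fin 2 → ℝ, n z = 1 → ‖z - v‖ ≤ ρ →
      (∀ s ∈ Ico (0 : ℝ) 1, s • z ∈ {z : Fin 2 → ℝ | ((0, z) : W × (Fin 2 → ℝ)) ∈ Dom D x}) ∧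
      z ∉ {z : Fin 2 → ℝ | ((0, z) : W × (Fin 2 → ℝ)) ∈ Dom D x} := by
  have hsm : ∀ (t : ℝ) (z : Fin 2 → ℝ),
      t • ((0, z) : W × (Fin 2 → ℝ)) = (0, t • z) := fun t z => by
    rw [Prod.smul_mk, smul_zero]
  have hfm : Fm D x ((0, v) : W × (Fin 2 → ℝ)) := ⟨fun t ht => by
    rw [hsm]
    exact h t ht, hv⟩
  obtain ⟨u, C₄, t₄, R⟩ := S.exists_rayF hfm
  obtain ⟨r₀, hr₀, hrC, t₁, ht₁, hfill⟩ := R.fill S
  have hf := hfill t₁ ⟨le_rfl, ht₁.2⟩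
  have hcomb : ∀ a r : ℝ, a • ((0, v) : W × (Fin 2 → ℝ)) + r • ((0, r₀ • u) : W × (Fin 2 → ℝ)) =
      (0, a • v + (r * r₀) • u) := fun a r => by
    rw [hsm, hsm, Prod.mk_add_mk, add_zero, smul_smul]
  have habs : ∀ r : ℝ, |r| ≤ 1 → |r * r₀| ≤ r₀ := fun r hr => by
    rw [abs_mul, abs_of_pos hr₀]
    exact mul_le_of_le_one_left hr₀.le hr
  obtain ⟨ρ, hρ, hgl⟩ := glue S.af.hD hfm (u := ((0, r₀ • u) : W × (Fin 2 → ℝ))) (t₀ := t₁)
    ⟨R.t₄_mem.1.trans ht₁.1, ht₁.2⟩ (fun α hα r hr => by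
      rw [hcomb, hsm]
      exact hf α hα _ (habs r hr)) (fun r hr => by
      rw [hcomb, hsm]
      exact R.miss S ht₁ hrC hf (habs r hr))
  have hu : u ≠ 0 := by
    rintro rfl
    have := R.wu
    simp [om] at this
  have hu0 : 0 < ‖u‖ := norm_pos_iff.mpr hu
  refine ⟨FlH_form u, R.wu, ρ * (r₀ * ‖u‖), by positivity, fun z hz hzρ => ?_⟩
  rw [FlH_form_apply] at hz
  have hpar := om_par v u z
  rw [R.wu, hz, one_smul, one_smul] at hpar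
  have hr : |om v z / r₀| ≤ ρ := by
    have h2 : z - v = om v z • u := by
      nth_rewrite 1 [hpar]
      rw [add_sub_cancel_left]
    rw [h2, norm_smul, Real.norm_eq_abs, ← mul_assoc] at hzρ
    rw [abs_div, abs_of_pos hr₀, div_le_iff₀ hr₀]
    exact le_of_mul_le_mul_right hzρ hu0
  have h3 := hgl (om v z / r₀) hr
  have h4 : ((0, v) : W × (Fin 2 → ℝ)) + (om v z / r₀) • ((0, r₀ • u) : W × (Fin 2 → ℝ)) =
      (0, z) := by
    have h5 := hcomb 1 (om v z / r₀)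
    rw [one_smul, one_smul, div_mul_cancel₀ _ hr₀.ne', ← hpar] at h5
    exact h5
  rw [h4] at h3
  refine ⟨fun s hs => ?_, h3.2⟩
  have h5 := h3.1 s hs
  rw [hsm] at h5
  exact h5

/-- PROOF: `half_of_thin` (PlHalf). -/
theorem FlSys.half (S : FlSys D L b A K ε C) (x : X) :
    {z : Fin 2 → ℝ | ((0, z) : W × (Fin 2 → ℝ)) ∈ Dom D x} = univ ∨
    ∃ n : (Fin 2 → ℝ) →L[ℝ] ℝ, n ≠ 0 ∧
      ({z : Fin 2 → ℝ | ((0, z) : W × (Fin 2 → ℝ)) ∈ Dom D x} = {z | n z < 1} ∨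
      ∃ a : ℝ, 0 < a ∧
        {z : Fin 2 → ℝ | ((0, z) : W × (Fin 2 → ℝ)) ∈ Dom D x} = {z | -a < n z ∧ n z < 1}) := by
  refine half_of_thin ((isOpen_dom S.af.hD x).preimage (by fun_prop)) ?_ (fun z hz s hs => ?_)
    (S.thin x)
  · exact zero_mem_dom D x
  · have h1 : s • ((0, z) : W × (Fin 2 → ℝ)) ∈ Dom D x := smul_mem_dom hz hs
    rw [Prod.smul_mk, smul_zero] at h1
    exact h1

end H83T
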