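import Pool.Agent.H.MP_7a8a58_gt.h83c.FlA

/-!
MP_7a8a58_gt, helper83, third part.  One linear form for all points.
Paper proof: /team-store/h83_7a8a58_T4.md
-/

set_option autoImplicit false

open Set Metric Topology Filter

namespace H83T

variable {W : Type*} [NormedAddCommGroup W] [NormedSpace ℝ W]
variable {X : Type*} [TopologicalSpace X] [T2Space X]
variable {D : X → W × (Fin 2 → ℝ)}

/-- the star domain is a product with `W` -/
private theorem FlI_dom (hD : IsLocalHomeomorph D)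
    (hW : ∀ w : W, ((w, 0) : W × (Fin 2 → ℝ)) ∈ Ec D hD) (x : X) (w : W) (z : Fin 2 → ℝ) :
    ((w, z) : W × (Fin 2 → ℝ)) ∈ Dom D x ↔ ((0, z) : W × (Fin 2 → ℝ)) ∈ Dom D x := by
  have h := add_dom_iff hD (x := x) (v := ((0, z) : W × (Fin 2 → ℝ))) (hW w)
  have e : ((0, z) : W × (Fin 2 → ℝ)) + (w, 0) = (w, z) := by
    rw [Prod.mk_add_mk, zero_add, add_zero]
  rwa [e] at h

private theorem FlI_step (hD : IsLocalHomeomorph D)
    (hW : ∀ w : W, ((w, 0) : W × (Fin 2 → ℝ)) ∈ Ec D hD)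
    (hconv : ∀ x : X, Convex ℝ (Dom D x)) {y : X} {v : W × (Fin 2 → ℝ)} (hv : v ∈ Dom D y)
    (z : Fin 2 → ℝ) (hz : ((0, z + v.2) : W × (Fin 2 → ℝ)) ∈ Dom D y) :
    ((0, z) : W × (Fin 2 → ℝ)) ∈ Dom D (ex D y v) := by
  have h1 : v + ((0, z) : W × (Fin 2 → ℝ)) ∈ Dom D y := by
    have e : v + ((0, z) : W × (Fin 2 → ℝ)) = (v.1, z + v.2) := by
      refine Prod.ext ?_ ?_
      · change v.1 + 0 = v.1
        rw [add_zero]
      · change v.2 + z = z + v.2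
        rw [add_comm]
    rw [e]
    exact (FlI_dom hD hW y v.1 (z + v.2)).2 hz
  exact (move hD (hconv y) Subset.rfl hv h1).1

private theorem FlI_iff (hD : IsLocalHomeomorph D)
    (hW : ∀ w : W, ((w, 0) : W × (Fin 2 → ℝ)) ∈ Ec D hD)
    (hconv : ∀ x : X, Convex ℝ (Dom D x)) {y : X} {v : W × (Fin 2 → ℝ)} (hv : v ∈ Dom D y)
    (z : Fin 2 → ℝ) : ((0, z) : W × (Fin 2 → ℝ)) ∈ Dom D (ex D y v) ↔
      ((0, z + v.2) : W × (Fin 2 → ℝ)) ∈ Dom D y := by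
  refine ⟨fun h => ?_, FlI_step hD hW hconv hv z⟩
  obtain ⟨h1, h2⟩ := back hD hv
  have h3 := FlI_step hD hW hconv h1 (z + v.2) (by
    have e : z + v.2 + (-v).2 = z := by
      change z + v.2 + -v.2 = z
      rw [add_neg_cancel_right]
    rw [e]
    exact h)
  rwa [h2] at h3

/-- PROOF: take `n = n_x` for one point `x` and `I = {s | s < 1 + n (D x).2}`, respectively
`I = Ioo (n (D x).2 - a) (n (D x).2 + 1)`. The set of all `y` with `∀ z, (0, z) ∈ Dom D y ↔ n (D y).2 + n z ∈ I` contains `x`;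
it is open and closed: if `y' = ex D y (w, z')`, `(w, z') ∈ Dom D y` then `(0, z) ∈ Dom D y' ↔ (0, z + z') ∈ Dom D y` (both
star domains are convex by `hhalf`, `hW` and `add_dom_iff`; `move` in both directions, `back`), and `(D y').2 = (D y).2 + z'`;
neighbourhoods: `nhds_eq_map_ex`, `isOpen_dom`. -/
theorem exists_form [ConnectedSpace X] (hD : IsLocalHomeomorph D)
    (hW : ∀ w : W, ((w, 0) : W × (Fin 2 → ℝ)) ∈ Ec D hD)
    (hhalf : ∀ x : X, ∃ n : (Fin 2 → ℝ) →L[ℝ] ℝ, n ≠ 0 ∧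
      ({z : Fin 2 → ℝ | ((0, z) : W × (Fin 2 → ℝ)) ∈ Dom D x} = {z | n z < 1} ∨
      ∃ a : ℝ, 0 < a ∧
        {z : Fin 2 → ℝ | ((0, z) : W × (Fin 2 → ℝ)) ∈ Dom D x} = {z | -a < n z ∧ n z < 1})) :
    ∃ (n : (Fin 2 → ℝ) →L[ℝ] ℝ) (I : Set ℝ), n ≠ 0 ∧
      ((∃ κ : ℝ, I = Iio κ) ∨ ∃ a₁ a₂ : ℝ, a₁ < a₂ ∧ I = Ioo a₁ a₂) ∧
      ∀ (x : X) (z : Fin 2 → ℝ),
        ((0, z) : W × (Fin 2 → ℝ)) ∈ Dom D x ↔ n (D x).2 + n z ∈ I := by
  have hconv : ∀ x : X, Convex ℝ (Dom D x) := by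
    intro x
    obtain ⟨n, -, hn⟩ := hhalf x
    have h1 : Convex ℝ {z : Fin 2 → ℝ | ((0, z) : W × (Fin 2 → ℝ)) ∈ Dom D x} := by
      rcases hn with h | ⟨a, -, h⟩
      · rw [h]
        exact convex_halfSpace_lt n.isLinear 1
      · rw [h]
        exact (convex_halfSpace_gt n.isLinear (-a)).inter (convex_halfSpace_lt n.isLinear 1)
    have h2 : Dom D x = (LinearMap.snd ℝ W (Fin 2 → ℝ)) ⁻¹'
        {z : Fin 2 → ℝ | ((0, z) : W × (Fin 2 → ℝ)) ∈ Dom D x} := by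
      ext p
      exact FlI_dom hD hW x p.1 p.2
    rw [h2]
    exact h1.linear_preimage _
  obtain ⟨x₀⟩ : Nonempty X := inferInstance
  obtain ⟨n, hn0, hn⟩ := hhalf x₀
  have key : ∀ I : Set ℝ, (∀ z : Fin 2 → ℝ,
      ((0, z) : W × (Fin 2 → ℝ)) ∈ Dom D x₀ ↔ n (D x₀).2 + n z ∈ I) → ∀ (x : X)
      (z : Fin 2 → ℝ), ((0, z) : W × (Fin 2 → ℝ)) ∈ Dom D x ↔ n (D x).2 + n z ∈ I := by
    intro I h0
    let P : X → Prop := fun y => ∀ z : Fin 2 → ℝ,
      ((0, z) : W × (Fin 2 → ℝ)) ∈ Dom D y ↔ n (D y).2 + n z ∈ I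
    have hstep : ∀ (y : X) (v : W × (Fin 2 → ℝ)), v ∈ Dom D y → P y → P (ex D y v) := by
      intro y v hv hP z
      rw [FlI_iff hD hW hconv hv z, hP (z + v.2), D_ex hv]
      have e : n (D y).2 + n (z + v.2) = n (D y + v).2 + n z := by
        rw [Prod.snd_add, map_add, map_add]
        ring
      rw [e]
    have hloc : IsLocallyConstant P := by
      rw [IsLocallyConstant.iff_eventually_eq]
      intro x
      rw [nhds_eq_map_ex hD x, eventually_map]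
      filter_upwards [(isOpen_dom hD x).mem_nhds (zero_mem_dom D x)] with v hv
      refine propext ⟨fun h => ?_, hstep x v hv⟩
      obtain ⟨h1, h2⟩ := back hD hv
      have h3 := hstep (ex D x v) (-v) h1 h
      rwa [h2] at h3
    intro x
    have h4 : P x = P x₀ := hloc.apply_eq_of_preconnectedSpace _ _
    have h5 : P x := h4.symm ▸ h0
    exact h5
  rcases hn with h | ⟨a, ha, h⟩
  · refine ⟨n, Iio (n (D x₀).2 + 1), hn0, Or.inl ⟨_, rfl⟩, key _ fun z => ?_⟩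
    have h1 : ((0, z) : W × (Fin 2 → ℝ)) ∈ Dom D x₀ ↔ n z < 1 := by
      have h2 : z ∈ {z : Fin 2 → ℝ | ((0, z) : W × (Fin 2 → ℝ)) ∈ Dom D x₀} ↔ n z < 1 := by
        rw [h]
        exact Iff.rfl
      exact h2
    rw [h1, mem_Iio, add_lt_add_iff_left]
  · refine ⟨n, Ioo (n (D x₀).2 - a) (n (D x₀).2 + 1), hn0,
      Or.inr ⟨_, _, by linarith, rfl⟩, key _ fun z => ?_⟩
    have h1 : ((0, z) : W × (Fin 2 → ℝ)) ∈ Dom D x₀ ↔ -a < n z ∧ n z < 1 := by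
      have h2 : z ∈ {z : Fin 2 → ℝ | ((0, z) : W × (Fin 2 → ℝ)) ∈ Dom D x₀} ↔
          -a < n z ∧ n z < 1 := by
        rw [h]
        exact Iff.rfl
      exact h2
    rw [h1, mem_Ioo, add_lt_add_iff_left, sub_eq_add_neg, add_lt_add_iff_left]

end H83T
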