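import Pool.Agent.H.MP_7a8a58_gt.h83c.FlA

/-!
MP_7a8a58_gt, helper83, third part.  The end of the proof: no invariant half plane or strip.
Paper proof: /team-store/h83_7a8a58_T4.md
-/

set_option autoImplicit false

open Set Metric Topology Filter

namespace H83T

variable {W : Type*} [NormedAddCommGroup W] [NormedSpace ℝ W] [FiniteDimensional ℝ W]
variable {X : Type*} [TopologicalSpace X] [T2Space X]
variable {Γ : Type*} [Group Γ] [MulAction Γ X] [ContinuousConstSMul Γ X]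
  [ProperlyDiscontinuousSMul Γ X]
variable {D : X → W × (Fin 2 → ℝ)}
  {L : Γ →* ((W × (Fin 2 → ℝ)) ≃ₗ[ℝ] (W × (Fin 2 → ℝ)))} {b : Γ → W × (Fin 2 → ℝ)}
  {A : Γ →* GL (Fin 2) ℤ} {K : Set X} {ε C : ℝ}

private theorem FlJ_one {n : (Fin 2 → ℝ) →L[ℝ] ℝ} (hn : n ≠ 0) : ∃ z, n z = 1 := by
  obtain ⟨z, hz⟩ : ∃ z, n z ≠ 0 := by
    by_contra h
    push Not at h
    exact hn (ContinuousLinearMap.ext h)
  exact ⟨(n z)⁻¹ • z, by rw [map_smul, smul_eq_mul, inv_mul_cancel₀ hz]⟩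

private theorem FlJ_om {n : (Fin 2 → ℝ) →L[ℝ] ℝ} {u ζ : Fin 2 → ℝ} (hu : n u = 0) (hu0 : u ≠ 0)
    (hζ : n ζ = 1) : om u ζ ≠ 0 := by
  intro h
  have key : ∀ z, om u z = 0 := by
    intro z
    have h1 := congrArg n (om_par u ζ z)
    rw [h, zero_smul, map_zero, map_add, map_smul, map_smul, hu, hζ, smul_zero, zero_add, smul_eq_mul,
      mul_one] at h1
    exact h1.symm
  apply hu0
  have h0 := key ![0, 1]
  have h1 := key ![1, 0]
  simp only [om, Matrix.cons_val_zero, Matrix.cons_val_one] at h0 h1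
  funext i
  fin_cases i
  · show u 0 = 0
    linarith
  · show u 1 = 0
    linarith

private theorem FlJ_ker {n : (Fin 2 → ℝ) →L[ℝ] ℝ} (hn : n ≠ 0) {u v : Fin 2 → ℝ} (hu : n u = 0)
    (hu0 : u ≠ 0) (hv : n v = 0) : ∃ c : ℝ, v = c • u := by
  obtain ⟨ζ, hζ⟩ := FlJ_one hn
  have h0 := FlJ_om hu hu0 hζ
  have h1 := om_par u ζ v
  have h2 := congrArg n h1
  rw [map_smul, map_add, map_smul, map_smul, hu, hv, hζ, smul_zero, smul_zero, zero_add, smul_eq_mul,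
    mul_one] at h2
  rw [← h2, zero_smul, add_zero] at h1
  refine ⟨(om u ζ)⁻¹ * om v ζ, ?_⟩
  rw [mul_smul, ← h1, smul_smul, inv_mul_cancel₀ h0, one_smul]

private theorem FlJ_exists_ker (n : (Fin 2 → ℝ) →L[ℝ] ℝ) : ∃ u : Fin 2 → ℝ, n u = 0 ∧ u ≠ 0 := by
  by_cases h : n ![1, 0] = 0
  · refine ⟨![1, 0], h, fun h0 => ?_⟩
    have := congrFun h0 0
    simp at this
  · refine ⟨n ![0, 1] • ![1, 0] - n ![1, 0] • ![0, 1], ?_, fun h0 => ?_⟩
    · rw [map_sub, map_smul, map_smul, smul_eq_mul, smul_eq_mul]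
      ring
    · have := congrFun h0 1
      simp at this
      exact h this

/-- the quadratic equation satisfied by `χ` -/
private theorem FlJ_ch (g : GL (Fin 2) ℤ) : ∃ t d : ℤ, (d = 1 ∨ d = -1) ∧ ∀ z : Fin 2 → ℝ,
    (rM g).mulVec ((rM g).mulVec z) = (t : ℝ) • (rM g).mulVec z - (d : ℝ) • z := by
  refine ⟨g.val 0 0 + g.val 1 1, g.val.det, ?_, fun z => ?_⟩
  · have h3 : IsUnit (g : Matrix (Fin 2) (Fin 2) ℤ).det :=
      (Matrix.isUnit_iff_isUnit_det _).1 g.isUnit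
    exact Int.isUnit_iff.1 h3
  · rw [Matrix.det_fin_two]
    have hM : ∀ i j, rM g i j = (g.val i j : ℝ) := fun i j => rfl
    funext i
    fin_cases i
    · simp only [Matrix.mulVec, dotProduct, Fin.sum_univ_two, Pi.sub_apply, Pi.smul_apply, smul_eq_mul, hM,
        Fin.zero_eta, Fin.isValue, Fin.mk_one]
      push_cast
      ring
    · simp only [Matrix.mulVec, dotProduct, Fin.sum_univ_two, Pi.sub_apply, Pi.smul_apply, smul_eq_mul, hM,
        Fin.zero_eta, Fin.isValue, Fin.mk_one]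
      push_cast
      ring

private theorem FlJ_rV (g : GL (Fin 2) ℤ) (q : Fin 2 → ℤ) :
    (rM g).mulVec (rV q) = rV (g.val.mulVec q) := by
  funext i
  have hM : ∀ i j, rM g i j = (g.val i j : ℝ) := fun i j => rfl
  simp only [Matrix.mulVec, dotProduct, Fin.sum_univ_two, rV, hM]
  push_cast
  ring

private theorem FlJ_mul (A : Γ →* GL (Fin 2) ℤ) (γ γ' : Γ) (z : Fin 2 → ℝ) :
    (rM (A (γ * γ'))).mulVec z = (rM (A γ)).mulVec ((rM (A γ')).mulVec z) := by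
  rw [map_mul, finA_rM_mul, Matrix.mulVec_mulVec]

private theorem FlJ_id (A : Γ →* GL (Fin 2) ℤ) (z : Fin 2 → ℝ) : (rM (A 1)).mulVec z = z := by
  rw [map_one, finA_rM_one, Matrix.one_mulVec]

private theorem FlJ_eig (A : Γ →* GL (Fin 2) ℤ) {q : Fin 2 → ℤ} (hq : q ≠ 0) {γ : Γ} {c : ℝ}
    (hc : (rM (A γ)).mulVec (rV q) = c • rV q) : 1 ≤ |c| := by
  have hk : ∀ k : ℕ, (rM (A (γ ^ k))).mulVec (rV q) = c ^ k • rV q := by
    intro k
    induction k with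
    | zero => rw [pow_zero, FlJ_id, pow_zero, one_smul]
    | succ k ih => rw [pow_succ, FlJ_mul, hc, Matrix.mulVec_smul, ih, smul_smul, pow_succ, mul_comm]
  have hN : ∀ k : ℕ, 1 ≤ |c| ^ k * ‖rV q‖ := by
    intro k
    have h1 := one_le_N2 A (γ ^ k)⁻¹ hq
    unfold N2 at h1
    rw [inv_inv, hk k, norm_smul, norm_pow, Real.norm_eq_abs] at h1
    exact h1
  have hpos : 0 < ‖rV q‖ := by
    have := hN 0
    rw [pow_zero, one_mul] at this
    linarith
  by_contra hlt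
  push Not at hlt
  obtain ⟨k, hk2⟩ := exists_pow_lt_of_lt_one (show 0 < 1 / ‖rV q‖ by positivity) hlt
  have h1 := hN k
  have h2 : |c| ^ k * ‖rV q‖ < 1 / ‖rV q‖ * ‖rV q‖ := mul_lt_mul_of_pos_right hk2 hpos
  rw [one_div, inv_mul_cancel₀ hpos.ne'] at h2
  linarith

private theorem FlJ_snd (S : FlSys D L b A K ε C) (γ : Γ) (x : X) :
    (D (γ • x)).2 = (rM (A γ)).mulVec (D x).2 + (b γ).2 := by
  rw [S.af.eqv, Prod.snd_add, S.snd]

/-- moving by `(0, z)` -/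
private theorem FlJ_move {n : (Fin 2 → ℝ) →L[ℝ] ℝ} {I : Set ℝ}
    (hI : ∀ (x : X) (z : Fin 2 → ℝ),
      ((0, z) : W × (Fin 2 → ℝ)) ∈ Dom D x ↔ n (D x).2 + n z ∈ I) (x : X) (z : Fin 2 → ℝ)
    (h : n (D x).2 + n z ∈ I) : ∃ y : X, (D y).2 = (D x).2 + z := by
  refine ⟨ex D x (0, z), ?_⟩
  rw [D_ex ((hI x z).2 h), Prod.snd_add]

/-- Equivariance of `I`. PROOF: `(0, z) ∈ Dom D x ↔ (0, A γ z) ∈ Dom D (γ • x)` (`smul_dom_iff`, `snd`, `hW`, `add_dom_iff`),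
`(D (γ • x)).2 = A γ (D x).2 + (b γ).2`; every `ζ : Fin 2 → ℝ` is `(D x).2 + z`. -/
theorem FlSys.form_eqv (S : FlSys D L b A K ε C) [Nonempty X] {n : (Fin 2 → ℝ) →L[ℝ] ℝ}
    {I : Set ℝ} (hI : ∀ (x : X) (z : Fin 2 → ℝ),
      ((0, z) : W × (Fin 2 → ℝ)) ∈ Dom D x ↔ n (D x).2 + n z ∈ I) (γ : Γ) (ζ : Fin 2 → ℝ) :
    n ζ ∈ I ↔ n ((rM (A γ)).mulVec ζ) + n (b γ).2 ∈ I := by
  obtain ⟨x⟩ := ‹Nonempty X›
  have h1 := hI x (ζ - (D x).2)
  rw [map_sub, add_sub_cancel] at h1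
  have h2 := hI (γ • x) ((rM (A γ)).mulVec (ζ - (D x).2))
  have h3 : n (D (γ • x)).2 + n ((rM (A γ)).mulVec (ζ - (D x).2)) =
      n ((rM (A γ)).mulVec ζ) + n (b γ).2 := by
    rw [FlJ_snd S, Matrix.mulVec_sub, map_sub, map_add]
    ring
  rw [h3] at h2
  rw [← h1, ← h2, ← S.af.smul_dom_iff γ]
  have h4 : L γ (0, ζ - (D x).2) = ((0, (rM (A γ)).mulVec (ζ - (D x).2)) : W × (Fin 2 → ℝ)) +
      ((L γ (0, ζ - (D x).2)).1, 0) := by
    refine Prod.ext ?_ ?_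
    · rw [Prod.fst_add, zero_add]
    · rw [Prod.snd_add, add_zero, S.snd]
  rw [h4]
  exact add_dom_iff S.af.hD (S.hW _)

/-- PROOF: `n (A γ ζ₀) = 0` if `n ζ₀ = 0`: otherwise the line `ζ + s ζ₀`, `n ζ ∈ I`, contradicts `form_eqv` (`I` is bounded
above and not empty). So `n (A γ z) = χ * n z`. -/
theorem FlSys.form_chi (S : FlSys D L b A K ε C) [Nonempty X] {n : (Fin 2 → ℝ) →L[ℝ] ℝ}
    {I : Set ℝ} (hn : n ≠ 0)
    (hI0 : (∃ κ : ℝ, I = Iio κ) ∨ ∃ a₁ a₂ : ℝ, a₁ < a₂ ∧ I = Ioo a₁ a₂)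
    (hI : ∀ (x : X) (z : Fin 2 → ℝ),
      ((0, z) : W × (Fin 2 → ℝ)) ∈ Dom D x ↔ n (D x).2 + n z ∈ I) (γ : Γ) :
    ∃ χ : ℝ, χ ≠ 0 ∧ ∀ z : Fin 2 → ℝ, n ((rM (A γ)).mulVec z) = χ * n z := by
  obtain ⟨ζ₁, hζ₁⟩ := FlJ_one hn
  obtain ⟨s₀, hs₀, B, hB⟩ : ∃ s₀, s₀ ∈ I ∧ ∃ B : ℝ, ∀ s ∈ I, s < B := by
    rcases hI0 with ⟨κ, rfl⟩ | ⟨a₁, a₂, ha, rfl⟩
    · exact ⟨κ - 1, by rw [mem_Iio]; linarith, κ, fun s hs => hs⟩
    · exact ⟨(a₁ + a₂) / 2, ⟨by linarith, by linarith⟩, a₂, fun s hs => hs.2⟩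
  have hker : ∀ ζ₀, n ζ₀ = 0 → n ((rM (A γ)).mulVec ζ₀) = 0 := by
    intro ζ₀ h0
    by_contra hne
    obtain ⟨s, hs⟩ : ∃ s : ℝ, s = (B - (n ((rM (A γ)).mulVec (s₀ • ζ₁)) + n (b γ).2)) /
      n ((rM (A γ)).mulVec ζ₀) := ⟨_, rfl⟩
    have h1 := (S.form_eqv hI γ (s₀ • ζ₁ + s • ζ₀)).1 (by
      rw [map_add, map_smul, map_smul, hζ₁, h0, smul_zero, add_zero, smul_eq_mul, mul_one]
      exact hs₀)
    have h2 := hB _ h1
    rw [Matrix.mulVec_add, Matrix.mulVec_smul _ s, map_add, map_smul, smul_eq_mul, hs,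
      div_mul_cancel₀ _ hne] at h2
    linarith
  refine ⟨n ((rM (A γ)).mulVec ζ₁), ?_, fun z => ?_⟩
  · intro h0
    have hz : ∀ z, n ((rM (A γ)).mulVec z) = 0 := by
      intro z
      have h1 := hker (z - n z • ζ₁) (by rw [map_sub, map_smul, hζ₁, smul_eq_mul, mul_one, sub_self])
      rw [Matrix.mulVec_sub, Matrix.mulVec_smul, map_sub, map_smul, h0, smul_zero, sub_zero] at h1
      exact h1
    have h1 := hz ((rM (A γ⁻¹)).mulVec ζ₁)
    rw [← FlJ_mul, mul_inv_cancel, FlJ_id, hζ₁] at h1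
    exact one_ne_zero h1
  · have h1 := hker (z - n z • ζ₁) (by rw [map_sub, map_smul, hζ₁, smul_eq_mul, mul_one, sub_self])
    rw [Matrix.mulVec_sub, Matrix.mulVec_smul, map_sub, map_smul, smul_eq_mul] at h1
    linarith

/-- PROOF: `χ_γ = ± 1` and `|n (D x).2 - (a₁ + a₂) / 2|` is invariant, so on `X` it is bounded by its maximum on `K`, which is
`< (a₂ - a₁) / 2`; but moving by `z` with `n (D x).2 + n z` close to `a₂` gives larger values. -/
theorem FlSys.no_strip (S : FlSys D L b A K ε C) [Nonempty X] {n : (Fin 2 → ℝ) →L[ℝ] ℝ}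
    (hn : n ≠ 0) {a₁ a₂ : ℝ} (ha : a₁ < a₂)
    (hI : ∀ (x : X) (z : Fin 2 → ℝ),
      ((0, z) : W × (Fin 2 → ℝ)) ∈ Dom D x ↔ n (D x).2 + n z ∈ Ioo a₁ a₂) : False := by
  obtain ⟨ζ₁, hζ₁⟩ := FlJ_one hn
  obtain ⟨m, hm⟩ : ∃ m : ℝ, m = (a₁ + a₂) / 2 := ⟨_, rfl⟩
  obtain ⟨h, hh⟩ : ∃ h : ℝ, h = (a₂ - a₁) / 2 := ⟨_, rfl⟩
  have hpos : 0 < h := by rw [hh]; linarith
  have hIm : ∀ s, s ∈ Ioo a₁ a₂ ↔ |s - m| < h := by
    intro s
    rw [abs_lt, mem_Ioo, hm, hh]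
    constructor
    · rintro ⟨h1, h2⟩
      constructor <;> linarith
    · rintro ⟨h1, h2⟩
      constructor <;> linarith
  -- the functions `χ` and the midpoint
  have key : ∀ γ : Γ, ∀ z : Fin 2 → ℝ, |n ((rM (A γ)).mulVec z) + n (b γ).2 - m| = |n z - m| := by
    intro γ
    obtain ⟨χ, hχ0, hχ⟩ := S.form_chi hn (Or.inr ⟨a₁, a₂, ha, rfl⟩) hI γ
    obtain ⟨c, hc⟩ : ∃ c : ℝ, c = χ * m + n (b γ).2 - m := ⟨_, rfl⟩
    have h1 : ∀ u : ℝ, |u| < h ↔ |χ * u + c| < h := by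
      intro u
      have h2 := S.form_eqv hI γ ((u + m) • ζ₁)
      rw [hχ, map_smul, hζ₁, smul_eq_mul, mul_one, hIm, hIm, add_sub_cancel_right] at h2
      rw [h2]
      have h3 : χ * (u + m) + n (b γ).2 - m = χ * u + c := by rw [hc]; ring
      rw [h3]
    have hcl : ∀ u ∈ Icc (-h) h, |χ * u + c| ≤ h := by
      have hclosed : IsClosed {u : ℝ | |χ * u + c| ≤ h} :=
        isClosed_le (by fun_prop) continuous_const
      have hsub : Ioo (-h) h ⊆ {u : ℝ | |χ * u + c| ≤ h} := by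
        intro u hu
        exact ((h1 u).1 (abs_lt.2 ⟨hu.1, hu.2⟩)).le
      have h2 := hclosed.closure_subset_iff.2 hsub
      rw [closure_Ioo (by linarith : -h ≠ h)] at h2
      exact fun u hu => h2 hu
    have e1 : |χ * h + c| = h := by
      refine le_antisymm (hcl h ⟨by linarith, le_rfl⟩) ?_
      by_contra hlt
      push Not at hlt
      have := (h1 h).2 hlt
      rw [abs_of_pos hpos] at this
      exact lt_irrefl _ this
    have e2 : |χ * (-h) + c| = h := by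
      refine le_antisymm (hcl (-h) ⟨le_rfl, by linarith⟩) ?_
      by_contra hlt
      push Not at hlt
      have := (h1 (-h)).2 hlt
      rw [abs_neg, abs_of_pos hpos] at this
      exact lt_irrefl _ this
    have e3 : (χ * h + c) ^ 2 = h ^ 2 := by rw [← sq_abs, e1]
    have e4 : (χ * (-h) + c) ^ 2 = h ^ 2 := by rw [← sq_abs, e2]
    have e5 : c = 0 := by
      have : (χ * h) * c = 0 := by linarith [e3, e4, (by ring : (χ * h + c) ^ 2 - (χ * (-h) + c) ^ 2 = 4 * ((χ * h) * c))]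
      rcases mul_eq_zero.1 this with h5 | h5
      · exact absurd h5 (mul_ne_zero hχ0 hpos.ne')
      · exact h5
    rw [e5, add_zero, abs_mul, abs_of_pos hpos] at e1
    have e6 : |χ| = 1 := by
      have : (|χ| - 1) * h = 0 := by linarith
      rcases mul_eq_zero.1 this with h5 | h5
      · linarith
      · exact absurd h5 hpos.ne'
    intro z
    rw [hχ]
    have e7 : χ * n z + n (b γ).2 - m = χ * (n z - m) := by
      have : n (b γ).2 = m - χ * m := by linarith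
      rw [this]
      ring
    rw [e7, abs_mul, e6, one_mul]
  -- the invariant function
  obtain ⟨x₀⟩ := ‹Nonempty X›
  have hKne : K.Nonempty := by
    obtain ⟨γ, y, hy, -⟩ := S.af.cov x₀
    exact ⟨y, hy⟩
  have hcont : Continuous fun x : X => |n (D x).2 - m| :=
    ((n.continuous.comp (continuous_snd.comp S.af.hD.continuous)).sub continuous_const).abs
  obtain ⟨y₀, hy₀, hmax⟩ := S.af.hK.exists_isMaxOn hKne hcont.continuousOn
  have hlt : |n (D y₀).2 - m| < h := by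
    rw [← hIm]
    have h1 := (hI y₀ 0).1 (zero_mem_dom D y₀)
    rwa [map_zero, add_zero] at h1
  have hall : ∀ x : X, |n (D x).2 - m| ≤ |n (D y₀).2 - m| := by
    intro x
    obtain ⟨γ, y, hy, rfl⟩ := S.af.cov x
    rw [FlJ_snd S, map_add, key γ]
    exact hmax hy
  obtain ⟨M, hM⟩ : ∃ M : ℝ, M = |n (D y₀).2 - m| := ⟨_, rfl⟩
  rw [← hM] at hlt
  have hM0 : 0 ≤ M := by rw [hM]; exact abs_nonneg _
  obtain ⟨y, hy⟩ := FlJ_move hI x₀ ((m + (M + h) / 2 - n (D x₀).2) • ζ₁) (by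
    rw [map_smul, hζ₁, smul_eq_mul, mul_one, add_sub_cancel, hIm, add_sub_cancel_left, abs_of_nonneg (by linarith)]
    linarith)
  have h1 := hall y
  rw [hy, map_add, map_smul, hζ₁, smul_eq_mul, mul_one, add_sub_cancel, add_sub_cancel_left,
    abs_of_nonneg (by linarith), ← hM] at h1
  linarith

/-- PROOF: `f x = κ - n (D x).2 > 0`, `f (γ • x) = χ γ * f x`, `χ γ > 0`, `n (b γ).2 = κ (1 - χ γ)`. If all `χ γ = 1` then `f` is
invariant, bounded (`K`), but unbounded (move by `z` with `n z → -∞`). So some `χ γ₁ ≠ 1`; then `n (rV q) ≠ 0` for integral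
`q ≠ 0`: otherwise `A γ₁ q = c q` (the kernel of `n` is a line), all `c ^ k q`, `k : ℤ`, are integral, so `|c| = 1`, and
`c * χ γ₁ = det = ± 1`. If `χ γ = 1` then `n (A γ q - q) = 0` for integral `q`, so `A γ = 1`; `n (b γ).2 = 0`, so
`(b γ).2 = 0` (`hb`), and `(D (γ • x)).2 = (D x).2`. For `f x = 1` and `γ • x ∈ K` the value `χ γ = f (γ • x)` is in a compact
subset of `(0, ∞)`, and `χ γ ± (χ γ)⁻¹` is an integer (trace of `A γ`), so there are finitely many values; choose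
`γ_i` for each: `(D x).2 = (D (γ_i⁻¹ • γ • x)).2 ∈ (D '' (γ_i⁻¹ • K)).2`: so `{(D x).2 | f x = 1}` is bounded. But with `n ζ₀ = 0`,
`ζ₀ ≠ 0`, it contains `(D x).2 + s ζ₀` for all `s`. -/
theorem FlSys.no_half (S : FlSys D L b A K ε C) [Nonempty X] {n : (Fin 2 → ℝ) →L[ℝ] ℝ}
    (hn : n ≠ 0) {κ : ℝ} (hI : ∀ (x : X) (z : Fin 2 → ℝ),
      ((0, z) : W × (Fin 2 → ℝ)) ∈ Dom D x ↔ n (D x).2 + n z ∈ Iio κ)
    (hb : ∀ γ : Γ, ∃ q : Fin 2 → ℤ, (b γ).2 = rV q) : False := by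
  obtain ⟨ζ₁, hζ₁⟩ := FlJ_one hn
  choose χ hχ0 hχ using fun γ => S.form_chi hn (Or.inl ⟨κ, rfl⟩) hI γ
  have haff : ∀ (γ : Γ) (s : ℝ), s < κ ↔ χ γ * s + n (b γ).2 < κ := by
    intro γ s
    have h2 := S.form_eqv hI γ (s • ζ₁)
    rw [hχ, map_smul, hζ₁, smul_eq_mul, mul_one, mem_Iio, mem_Iio] at h2
    exact h2
  have hpos : ∀ γ, 0 < χ γ := by
    intro γ
    by_contra hle
    have hneg : χ γ < 0 := lt_of_le_of_ne (not_lt.1 hle) (hχ0 γ)
    obtain ⟨s, hs⟩ : ∃ s : ℝ, s = min (κ - 1) ((κ - n (b γ).2) / χ γ) := ⟨_, rfl⟩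
    have h1 := (haff γ s).1 (by rw [hs]; exact (min_le_left _ _).trans_lt (by linarith))
    have h2 : s ≤ (κ - n (b γ).2) / χ γ := by rw [hs]; exact min_le_right _ _
    have h3 := mul_le_mul_of_nonpos_left h2 hneg.le
    rw [mul_div_cancel₀ _ hneg.ne] at h3
    linarith
  have hβ : ∀ γ, n (b γ).2 = κ * (1 - χ γ) := by
    intro γ
    have h1 : ¬ χ γ * κ + n (b γ).2 < κ := by
      rw [← haff]
      exact lt_irrefl _
    have h2 : χ γ * κ + n (b γ).2 ≤ κ := by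
      have hclosed : IsClosed {s : ℝ | χ γ * s + n (b γ).2 ≤ κ} :=
        isClosed_le (by fun_prop) continuous_const
      have hsub : Iio κ ⊆ {s : ℝ | χ γ * s + n (b γ).2 ≤ κ} := fun s hs => ((haff γ s).1 hs).le
      have h3 := hclosed.closure_subset_iff.2 hsub
      rw [closure_Iio] at h3
      exact h3 (mem_Iic.2 le_rfl)
    rw [not_lt] at h1
    linarith
  -- the positive function `f`
  obtain ⟨f, hf⟩ : ∃ f : X → ℝ, f = fun x => κ - n (D x).2 := ⟨_, rfl⟩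
  have hf' : ∀ x, f x = κ - n (D x).2 := fun x => by rw [hf]
  have hfpos : ∀ x, 0 < f x := by
    intro x
    have h1 := (hI x 0).1 (zero_mem_dom D x)
    rw [map_zero, add_zero, mem_Iio] at h1
    rw [hf']
    linarith
  have hfs : ∀ (γ : Γ) (x : X), f (γ • x) = χ γ * f x := by
    intro γ x
    rw [hf', hf', FlJ_snd S, map_add, hχ, hβ]
    ring
  have hfc : Continuous f := by
    rw [hf]
    exact continuous_const.sub (n.continuous.comp (continuous_snd.comp S.af.hD.continuous))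
  obtain ⟨x₀⟩ := ‹Nonempty X›
  have hKne : K.Nonempty := by
    obtain ⟨γ, y, hy, -⟩ := S.af.cov x₀
    exact ⟨y, hy⟩
  obtain ⟨y₂, hy₂, hmax⟩ := S.af.hK.exists_isMaxOn hKne hfc.continuousOn
  obtain ⟨y₁, hy₁, hmin⟩ := S.af.hK.exists_isMinOn hKne hfc.continuousOn
  obtain ⟨M, hM⟩ : ∃ M : ℝ, M = f y₂ := ⟨_, rfl⟩
  obtain ⟨m, hm⟩ : ∃ m : ℝ, m = f y₁ := ⟨_, rfl⟩
  have hm0 : 0 < m := by rw [hm]; exact hfpos _
  have hM0 : 0 < M := by rw [hM]; exact hfpos _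
  have hKM : ∀ y ∈ K, f y ≤ M := fun y hy => by rw [hM]; exact hmax hy
  have hKm : ∀ y ∈ K, m ≤ f y := fun y hy => by rw [hm]; exact hmin hy
  -- multiplicativity
  have hχmul : ∀ γ γ' : Γ, χ (γ * γ') = χ γ * χ γ' := by
    intro γ γ'
    have h1 := hχ (γ * γ') ζ₁
    rw [FlJ_mul, hχ, hχ, hζ₁, mul_one, mul_one] at h1
    exact h1.symm
  have hχone : χ 1 = 1 := by
    have h1 := hχ 1 ζ₁
    rw [FlJ_id, hζ₁, mul_one] at h1
    exact h1.symm
  have hquad : ∀ γ : Γ, ∃ t d : ℤ, (d = 1 ∨ d = -1) ∧ χ γ ^ 2 - t * χ γ + d = 0 ∧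
      ∀ z : Fin 2 → ℝ, (rM (A γ)).mulVec ((rM (A γ)).mulVec z) =
        (t : ℝ) • (rM (A γ)).mulVec z - (d : ℝ) • z := by
    intro γ
    obtain ⟨t, d, hd, h⟩ := FlJ_ch (A γ)
    refine ⟨t, d, hd, ?_, h⟩
    have h1 := congrArg n (h ζ₁)
    rw [hχ, hχ, map_sub, map_smul, map_smul, hχ, hζ₁, smul_eq_mul, smul_eq_mul] at h1
    linarith
  -- some `χ γ₁ ≠ 1`
  obtain ⟨γ₁, hγ₁⟩ : ∃ γ₁, χ γ₁ ≠ 1 := by
    by_contra hall
    push Not at hall
    have hbd : ∀ x, f x ≤ M := by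
      intro x
      obtain ⟨γ, y, hy, rfl⟩ := S.af.cov x
      rw [hfs, hall, one_mul]
      exact hKM y hy
    have h0 := hfpos x₀
    rw [hf'] at h0
    obtain ⟨y, hy⟩ := FlJ_move hI x₀ ((-(M + 1)) • ζ₁) (by
      rw [map_smul, hζ₁, smul_eq_mul, mul_one, mem_Iio]
      linarith)
    have h1 := hbd y
    rw [hf', hy, map_add, map_smul, hζ₁, smul_eq_mul, mul_one] at h1
    linarith
  -- integral vectors in the kernel
  have hint : ∀ q : Fin 2 → ℤ, n (rV q) = 0 → q = 0 := by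
    intro q hq
    by_contra hq0
    have hq1 : rV q ≠ 0 := by
      intro h0
      apply hq0
      funext i
      have := congrFun h0 i
      simp only [rV, Pi.zero_apply] at this
      exact_mod_cast this
    obtain ⟨c, hc⟩ := FlJ_ker hn hq hq1 (v := (rM (A γ₁)).mulVec (rV q)) (by rw [hχ, hq, mul_zero])
    have h1 := FlJ_eig A hq0 hc
    have hc0 : c ≠ 0 := by
      intro h0
      rw [h0, abs_zero] at h1
      linarith
    have h2 : (rM (A γ₁⁻¹)).mulVec (rV q) = c⁻¹ • rV q := by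
      have h3 : (rM (A γ₁⁻¹)).mulVec ((rM (A γ₁)).mulVec (rV q)) = rV q := by
        rw [← FlJ_mul, inv_mul_cancel, FlJ_id]
      rw [hc, Matrix.mulVec_smul] at h3
      rw [← h3, smul_smul, inv_mul_cancel₀ hc0, one_smul, h3]
    have h3 := FlJ_eig A hq0 h2
    have h4 : |c| = 1 := by
      rw [abs_inv] at h3
      have h5 : 0 < |c| := abs_pos.2 hc0
      have h6 : |c| * |c|⁻¹ = 1 := mul_inv_cancel₀ h5.ne'
      have h7 : |c| * 1 ≤ |c| * |c|⁻¹ := mul_le_mul_of_nonneg_left h3 h5.le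
      linarith
    obtain ⟨t, d, hd, hquad1, hch⟩ := hquad γ₁
    have h5 := hch (rV q)
    rw [hc, Matrix.mulVec_smul, hc, smul_smul, smul_smul, ← sub_smul] at h5
    have h6 : c * c - (t * c - d) = 0 := by
      have h7 : (c * c - ((t : ℝ) * c - d)) • rV q = 0 := by rw [sub_smul, h5, sub_self]
      exact (smul_eq_zero.1 h7).resolve_right hq1
    have h7 := hpos γ₁
    have h8 : (χ γ₁ - 1) * (χ γ₁ + 1) = 0 ∨ (χ γ₁ - 1) ^ 2 = 0 ∨ (χ γ₁ + 1) ^ 2 = 0 := by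
      rcases (abs_eq (zero_le_one)).1 h4 with h9 | h9 <;> rcases hd with h10 | h10 <;>
        rw [h10] at h6 hquad1 <;> rw [h9] at h6 <;> push_cast at h6 hquad1
      · right; left
        have : (t : ℝ) = 2 := by linarith
        rw [this] at hquad1
        linarith
      · left
        have : (t : ℝ) = 0 := by linarith
        rw [this] at hquad1
        linarith
      · right; right
        have : (t : ℝ) = -2 := by linarith
        rw [this] at hquad1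
        linarith
      · left
        have : (t : ℝ) = 0 := by linarith
        rw [this] at hquad1
        linarith
    rcases h8 with h9 | h9 | h9
    · rcases mul_eq_zero.1 h9 with h10 | h10
      · exact hγ₁ (by linarith)
      · linarith
    · have := pow_eq_zero_iff (two_ne_zero) |>.1 h9
      exact hγ₁ (by linarith)
    · have := pow_eq_zero_iff (two_ne_zero) |>.1 h9
      linarith
  -- elements with `χ = 1` do not move the second component
  have hinv : ∀ γ : Γ, χ γ = 1 → ∀ x : X, (D (γ • x)).2 = (D x).2 := by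
    intro γ h1 x
    have hfix : ∀ q : Fin 2 → ℤ, (rM (A γ)).mulVec (rV q) = rV q := by
      intro q
      have h2 : (A γ).val.mulVec q - q = 0 := by
        apply hint
        have h3 : rV ((A γ).val.mulVec q - q) = (rM (A γ)).mulVec (rV q) - rV q := by
          rw [FlJ_rV]
          funext i
          simp [rV]
        rw [h3, map_sub, hχ, h1, one_mul, sub_self]
      rw [FlJ_rV, sub_eq_zero.1 h2]
    have hv : (rM (A γ)).mulVec (D x).2 = (D x).2 := by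
      have h3 : (D x).2 = (D x).2 0 • rV ![1, 0] + (D x).2 1 • rV ![0, 1] := by
        funext i
        fin_cases i <;> simp [rV]
      conv_lhs => rw [h3]
      rw [Matrix.mulVec_add, Matrix.mulVec_smul, Matrix.mulVec_smul, hfix, hfix, ← h3]
    obtain ⟨q, hq⟩ := hb γ
    have h4 : n (rV q) = 0 := by
      rw [← hq, hβ, h1]
      ring
    have h5 : (b γ).2 = 0 := by
      rw [hq, hint q h4]
      funext i
      simp [rV]
    rw [FlJ_snd S, hv, h5, add_zero]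
  -- finitely many values
  have hfin : {v : ℝ | ∃ γ : Γ, χ γ = v ∧ M⁻¹ ≤ v ∧ v ≤ m⁻¹}.Finite := by
    obtain ⟨T, hT⟩ : ∃ T : ℤ, m⁻¹ + M ≤ T := ⟨⌈m⁻¹ + M⌉, Int.le_ceil _⟩
    have hsub : {v : ℝ | ∃ γ : Γ, χ γ = v ∧ M⁻¹ ≤ v ∧ v ≤ m⁻¹} ⊆
        ⋃ t ∈ Icc (-T) T, ⋃ d ∈ ({1, -1} : Set ℤ), {v : ℝ | v ^ 2 - t * v + d = 0} := by
      rintro v ⟨γ, rfl, hv1, hv2⟩
      obtain ⟨t, d, hd, hq, -⟩ := hquad γ
      have h0 := hpos γ
      have hiv : (χ γ)⁻¹ ≤ M := by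
        have := inv_anti₀ (inv_pos.2 hM0) hv1
        rwa [inv_inv] at this
      have hd1 : |(d : ℝ)| = 1 := by
        rcases hd with h | h <;> rw [h] <;> simp
      have ht : (t : ℝ) = χ γ + d * (χ γ)⁻¹ := by
        field_simp
        linarith
      have ht2 : |(t : ℝ)| ≤ T := by
        rw [ht]
        refine (abs_add_le _ _).trans ?_
        rw [abs_mul, hd1, one_mul, abs_of_pos h0, abs_of_pos (inv_pos.2 h0)]
        linarith
      rw [abs_le] at ht2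
      simp only [mem_iUnion]
      refine ⟨t, ⟨?_, ?_⟩, d, ?_, hq⟩
      · exact_mod_cast ht2.1
      · exact_mod_cast ht2.2
      · rcases hd with h | h <;> rw [h] <;> simp
    refine Set.Finite.subset ?_ hsub
    refine Set.Finite.biUnion (Set.finite_Icc _ _) fun t _ => ?_
    refine Set.Finite.biUnion (Set.toFinite _) fun d _ => ?_
    by_cases hne : ∃ a : ℝ, a ^ 2 - t * a + d = 0
    · obtain ⟨a, ha⟩ := hne
      refine Set.Finite.subset (Set.toFinite ({a, t - a} : Set ℝ)) ?_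
      intro v hv
      rw [mem_setOf_eq] at hv
      have h1 : (v - a) * (v - (t - a)) = 0 := by
        have : (v - a) * (v - (t - a)) = (v ^ 2 - t * v + d) - (a ^ 2 - t * a + d) := by ring
        rw [this, hv, ha, sub_self]
      rcases mul_eq_zero.1 h1 with h2 | h2
      · left
        linarith
      · right
        rw [mem_singleton_iff]
        linarith
    · push Not at hne
      have : {v : ℝ | v ^ 2 - t * v + d = 0} = ∅ := by
        ext v
        simp only [mem_setOf_eq, mem_empty_iff_false, iff_false]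
        exact hne v
      rw [this]
      exact Set.finite_empty
  have hsel : ∀ v : ℝ, ∃ γ : Γ, (∃ γ' : Γ, χ γ' = v) → χ γ = v := by
    intro v
    by_cases h : ∃ γ' : Γ, χ γ' = v
    · obtain ⟨γ', h'⟩ := h
      exact ⟨γ', fun _ => h'⟩
    · exact ⟨1, fun h' => absurd h' h⟩
  choose g hg using hsel
  have hcomp : IsCompact (⋃ v ∈ {v : ℝ | ∃ γ : Γ, χ γ = v ∧ M⁻¹ ≤ v ∧ v ≤ m⁻¹},
      (fun y : X => (D (g v • y)).2) '' K) := by
    refine hfin.isCompact_biUnion fun v _ => ?_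
    refine S.af.hK.image ?_
    exact continuous_snd.comp (S.af.hD.continuous.comp (continuous_const_smul (g v)))
  obtain ⟨R, hR⟩ := hcomp.isBounded.exists_norm_le
  have hbound : ∀ x : X, f x = 1 → ‖(D x).2‖ ≤ R := by
    intro x hx
    obtain ⟨γ, y, hy, rfl⟩ := S.af.cov x
    rw [hfs] at hx
    have hfy := hfpos y
    have hv : χ γ = (f y)⁻¹ := eq_inv_of_mul_eq_one_left hx
    have hgv := hg (χ γ) ⟨γ, rfl⟩
    have h1 : χ (γ * (g (χ γ))⁻¹) = 1 := by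
      have h2 : χ (g (χ γ)) * χ (g (χ γ))⁻¹ = 1 := by rw [← hχmul, mul_inv_cancel, hχone]
      rw [hgv] at h2
      rw [hχmul, h2]
    have h2 := hinv _ h1 (g (χ γ) • y)
    rw [mul_smul, inv_smul_smul] at h2
    rw [h2]
    apply hR
    simp only [mem_iUnion]
    refine ⟨χ γ, ⟨γ, rfl, ?_, ?_⟩, y, hy, rfl⟩
    · rw [hv]
      exact inv_anti₀ hfy (hKM y hy)
    · rw [hv]
      exact inv_anti₀ hm0 (hKm y hy)
  -- the line
  obtain ⟨ζ₀, hζ₀, hζ₀0⟩ := FlJ_exists_ker n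
  obtain ⟨x₁, hx₁⟩ := FlJ_move hI x₀ ((κ - 1 - n (D x₀).2) • ζ₁) (by
    rw [map_smul, hζ₁, smul_eq_mul, mul_one, add_sub_cancel, mem_Iio]
    linarith)
  have hx₁n : n (D x₁).2 = κ - 1 := by
    rw [hx₁, map_add, map_smul, hζ₁, smul_eq_mul, mul_one, add_sub_cancel]
  have hx₁f : f x₁ = 1 := by
    rw [hf', hx₁n]
    ring
  obtain ⟨s, hs⟩ : ∃ s : ℝ, s = (2 * R + 1) / ‖ζ₀‖ := ⟨_, rfl⟩
  obtain ⟨x₂, hx₂⟩ := FlJ_move hI x₁ (s • ζ₀) (by
    rw [map_smul, hζ₀, smul_zero, add_zero, hx₁n, mem_Iio]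
    linarith)
  have hx₂f : f x₂ = 1 := by
    rw [hf', hx₂, map_add, map_smul, hζ₀, smul_zero, add_zero, hx₁n]
    ring
  have h1 := hbound x₁ hx₁f
  have h2 := hbound x₂ hx₂f
  have hR0 : 0 ≤ R := (norm_nonneg _).trans h1
  have h3 : ‖s • ζ₀‖ = 2 * R + 1 := by
    rw [norm_smul, Real.norm_eq_abs, hs, abs_of_nonneg (by positivity),
      div_mul_cancel₀ _ (norm_ne_zero_iff.2 hζ₀0)]
  have h4 : s • ζ₀ = (D x₂).2 - (D x₁).2 := by rw [hx₂, add_sub_cancel_left]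
  rw [h4] at h3
  have h5 := norm_sub_le (D x₂).2 (D x₁).2
  linarith

end H83T
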