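import Pool.Agent.H.MP_7a8a58_gt.h83c.FlH
import Pool.Agent.H.MP_7a8a58_gt.h83c.FlI
import Pool.Agent.H.MP_7a8a58_gt.h83c.FlJ

/-!
MP_7a8a58_gt, helper83, third part.  Completeness.
Paper proof: /team-store/h83_7a8a58_T4.md
-/

set_option autoImplicit false

open Set Metric Topology Filter

namespace H83T

variable {W : Type*} [NormedAddCommGroup W] [NormedSpace ℝ W] [FiniteDimensional ℝ W]
variable {X : Type*} [TopologicalSpace X] [T2Space X] [ConnectedSpace X]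
variable {Γ : Type*} [Group Γ] [MulAction Γ X] [ContinuousConstSMul Γ X]
  [ProperlyDiscontinuousSMul Γ X]
variable {D : X → W × (Fin 2 → ℝ)}
  {L : Γ →* ((W × (Fin 2 → ℝ)) ≃ₗ[ℝ] (W × (Fin 2 → ℝ)))} {b : Γ → W × (Fin 2 → ℝ)}
  {A : Γ →* GL (Fin 2) ℤ}

theorem flow_complete (hD : IsLocalHomeomorph D)
    (heq : ∀ (γ : Γ) (x : X), D (γ • x) = L γ (D x) + b γ)
    (hco : ∃ K : Set X, IsCompact K ∧ ∀ x : X, ∃ γ : Γ, γ • x ∈ K)
    (hsnd : ∀ (γ : Γ) (z : W × (Fin 2 → ℝ)), (L γ z).2 = (rM (A γ)).mulVec z.2)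
    (hW : ∀ w : W, ((w, 0) : W × (Fin 2 → ℝ)) ∈ Ec D hD)
    (hb : ∀ γ : Γ, ∃ q : Fin 2 → ℤ, (b γ).2 = rV q) : IsHomeomorph D := by
  obtain ⟨K, ε, S⟩ := exists_afSys hD heq hco
  obtain ⟨C, hC, hcomp⟩ := S.comp
  have T : FlSys D L b A K ε C := ⟨S, hsnd, hC, hcomp, hW⟩
  by_cases htop : Ec D hD = ⊤
  · exact isHomeomorph_of_Ec_top hD htop
  · exfalso
    have hhalf : ∀ x : X, ∃ n : (Fin 2 → ℝ) →L[ℝ] ℝ, n ≠ 0 ∧
        ({z : Fin 2 → ℝ | ((0, z) : W × (Fin 2 → ℝ)) ∈ Dom D x} = {z | n z < 1} ∨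
        ∃ a : ℝ, 0 < a ∧
          {z : Fin 2 → ℝ | ((0, z) : W × (Fin 2 → ℝ)) ∈ Dom D x} =
            {z | -a < n z ∧ n z < 1}) := by
      intro x
      rcases T.half x with h | h
      · refine absurd (Ec_top_of_univ hD (x := x) ?_) htop
        rw [eq_univ_iff_forall]
        rintro ⟨w, z⟩
        have h1 : ((0, z) : W × (Fin 2 → ℝ)) ∈ Dom D x := by
          have h2 : z ∈ {z : Fin 2 → ℝ | ((0, z) : W × (Fin 2 → ℝ)) ∈ Dom D x} := by
            rw [h]; exact mem_univ z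
          exact h2
        have h3 := (add_dom hD (hW w) h1).1
        have h4 : ((0, z) : W × (Fin 2 → ℝ)) + (w, 0) = (w, z) := by
          rw [Prod.mk_add_mk, zero_add, add_zero]
        rwa [h4] at h3
      · exact h
    obtain ⟨n, I, hn, hI0, hI⟩ := exists_form hD hW hhalf
    rcases hI0 with ⟨κ, rfl⟩ | ⟨a₁, a₂, ha, rfl⟩
    · exact T.no_half hn hI hb
    · exact T.no_strip hn ha hI

end H83T
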