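import Mathlib

/-!
MP_7a8a58_gt, helper83, second part.  Integral unimodular groups of a plane which preserve a line.
Paper proof: /team-store/h83_7a8a58_T3.md
-/

set_option autoImplicit false

open Set Metric Topology Filter

namespace H83T

/-- A group with an injective homomorphism to `ℝ` whose image is isolated at zero is cyclic. -/
private theorem PlCyc_cyc {G : Type*} [Group G] (ψ : G → ℝ) (hm : ∀ g h, ψ (g * h) = ψ g + ψ h)
    (hi : ∀ g, ψ g = 0 → g = 1) {a : ℝ} (ha : 0 < a) (hd : ∀ g, 0 < ψ g → a ≤ ψ g) :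
    ∃ g₀ : G, ∀ g, g ∈ Subgroup.zpowers g₀ := by
  have h1 : ψ 1 = 0 := by
    have := hm 1 1
    rw [mul_one] at this
    linarith
  have hinv : ∀ g, ψ g⁻¹ = - ψ g := by
    intro g
    have := hm g g⁻¹
    rw [mul_inv_cancel, h1] at this
    linarith
  let H : AddSubgroup ℝ :=
    { carrier := range ψ
      add_mem' := by
        rintro _ _ ⟨g, rfl⟩ ⟨h, rfl⟩
        exact ⟨g * h, hm g h⟩
      zero_mem' := ⟨1, h1⟩
      neg_mem' := by
        rintro _ ⟨g, rfl⟩
        exact ⟨g⁻¹, hinv g⟩ }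
  obtain ⟨b, hb⟩ := AddSubgroup.cyclic_of_isolated_zero (H := H) ha (by
    rw [Set.disjoint_left]
    rintro _ ⟨g, rfl⟩ ⟨h2, h3⟩
    exact absurd (hd g h2) (not_le.2 h3))
  have hbH : b ∈ H := by
    rw [hb]
    exact AddSubgroup.subset_closure (mem_singleton b)
  obtain ⟨g₀, hg₀⟩ := hbH
  refine ⟨g₀, fun g => ?_⟩
  have hg : ψ g ∈ H := ⟨g, rfl⟩
  rw [hb, AddSubgroup.mem_closure_singleton] at hg
  obtain ⟨k, hk⟩ := hg
  let Ψ : G →* Multiplicative ℝ :=
    MonoidHom.mk' (fun g => Multiplicative.ofAdd (ψ g)) (fun g h => by rw [hm]; rfl)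
  have h5 : ψ (g₀ ^ k) = k • ψ g₀ := congrArg Multiplicative.toAdd (map_zpow Ψ g₀ k)
  rw [Subgroup.mem_zpowers_iff]
  refine ⟨k, ?_⟩
  have h6 : ψ (g₀ ^ k * g⁻¹) = 0 := by
    rw [hm, hinv, h5, hg₀, hk]
    ring
  have h7 := hi _ h6
  exact mul_inv_eq_one.1 h7

private theorem PlCyc_main {E : Type*} [NormedAddCommGroup E] [NormedSpace ℝ E]
    (bas : Module.Basis (Fin 2) ℝ E) {G : Type*} [Group G] (ρ : G →* (E ≃ₗ[ℝ] E))
    (hρ : Function.Injective ρ)
    (hint : ∀ (g : G) (i j : Fin 2), ∃ z : ℤ, bas.repr (ρ g (bas j)) i = (z : ℝ))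
    (n : E →ₗ[ℝ] ℝ) (hn : n ≠ 0) (hL : ∀ (g : G) (z : E), n z = 0 → n (ρ g z) = 0) :
    ∃ g : G, (Subgroup.zpowers g).FiniteIndex := by
  classical
  obtain ⟨j, hj⟩ : ∃ j, n (bas j) ≠ 0 := by
    by_contra h
    push Not at h
    exact hn (bas.ext (fun j => by rw [h j, LinearMap.zero_apply]))
  obtain ⟨f, hf⟩ : ∃ f, n f = 1 :=
    ⟨(n (bas j))⁻¹ • bas j, by rw [map_smul, smul_eq_mul, inv_mul_cancel₀ hj]⟩
  obtain ⟨e, he0, hne⟩ : ∃ e, e ≠ 0 ∧ n e = 0 := by
    refine ⟨n (bas 1) • bas 0 - n (bas 0) • bas 1, ?_, ?_⟩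
    · intro h
      have h0 : bas.repr (n (bas 1) • bas 0 - n (bas 0) • bas 1) 0 = 0 := by
        rw [h]
        simp
      have h1 : bas.repr (n (bas 1) • bas 0 - n (bas 0) • bas 1) 1 = 0 := by
        rw [h]
        simp
      rw [map_sub, map_smul, map_smul, Module.Basis.repr_self, Module.Basis.repr_self] at h0 h1
      have h2 : n (bas 1) = 0 := by simpa using h0
      have h3 : n (bas 0) = 0 := by simpa using h1
      fin_cases j
      · exact hj h3
      · exact hj h2
    · rw [map_sub, map_smul, map_smul, smul_eq_mul, smul_eq_mul]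
      ring
  obtain ⟨i, hi⟩ : ∃ i, bas.repr e i ≠ 0 := by
    by_contra h
    push Not at h
    apply he0
    apply bas.repr.injective
    ext k
    rw [h k, map_zero, Finsupp.zero_apply]
  have hli : LinearIndependent ℝ ![e, f] := by
    rw [LinearIndependent.pair_iff]
    intro s t hst
    have h1 : n (s • e + t • f) = 0 := by rw [hst, map_zero]
    rw [map_add, map_smul, map_smul, hne, hf] at h1
    have ht : t = 0 := by simpa using h1
    refine ⟨?_, ht⟩
    rw [ht, zero_smul, add_zero] at hst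
    exact (smul_eq_zero.1 hst).resolve_right he0
  have hcard : Fintype.card (Fin 2) = Module.finrank ℝ E := by
    rw [Module.finrank_eq_card_basis bas]
  obtain ⟨bef, hb0, hb1⟩ : ∃ bef : Module.Basis (Fin 2) ℝ E, bef 0 = e ∧ bef 1 = f := by
    refine ⟨basisOfLinearIndependentOfCardEqFinrank hli hcard, ?_, ?_⟩ <;> simp
  have hrep : ∀ z, z = bef.repr z 0 • e + bef.repr z 1 • f := by
    intro z
    have h := bef.sum_repr z
    rw [Fin.sum_univ_two, hb0, hb1] at h
    exact h.symm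
  have hr1 : ∀ z, bef.repr z 1 = n z := by
    intro z
    have h := congrArg n (hrep z)
    rw [map_add, map_smul, map_smul, hne, hf, smul_eq_mul, smul_eq_mul] at h
    linarith
  -- `χ`
  have hχ : ∀ g z, n (ρ g z) = n z * n (ρ g f) := by
    intro g z
    have h1 : n (z - n z • f) = 0 := by
      rw [map_sub, map_smul, hf, smul_eq_mul]
      ring
    have h2 := hL g _ h1
    rw [map_sub, map_smul, map_sub, map_smul, smul_eq_mul] at h2
    linarith
  obtain ⟨χ, hχd⟩ : ∃ χ : G →* ℝ, ∀ g, χ g = n (ρ g f) := by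
    refine ⟨{ toFun := fun g => n (ρ g f), map_one' := ?_, map_mul' := ?_ }, fun g => rfl⟩
    · change n (ρ 1 f) = 1
      rw [map_one, LinearEquiv.coe_one, id_eq, hf]
    · intro g h
      change n (ρ (g * h) f) = n (ρ g f) * n (ρ h f)
      rw [map_mul, LinearEquiv.mul_apply, hχ g]
      ring
  have hχ' : ∀ g z, n (ρ g z) = n z * χ g := fun g z => by rw [hχd, hχ]
  -- determinant
  obtain ⟨dt, hdt⟩ : ∃ dt : G →* ℝ, ∀ g, dt g = LinearMap.det (ρ g : E →ₗ[ℝ] E) := by
    refine ⟨{ toFun := fun g => LinearMap.det (ρ g : E →ₗ[ℝ] E), map_one' := ?_, map_mul' := ?_ },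
      fun g => rfl⟩
    · change LinearMap.det ((ρ 1 : E ≃ₗ[ℝ] E) : E →ₗ[ℝ] E) = 1
      rw [map_one]
      exact map_one LinearMap.det
    · intro g h
      change LinearMap.det ((ρ (g * h) : E ≃ₗ[ℝ] E) : E →ₗ[ℝ] E) = _
      rw [map_mul]
      exact map_mul LinearMap.det _ _
  have hge : ∀ g, ρ g e = bef.repr (ρ g e) 0 • e := by
    intro g
    have h1 := hrep (ρ g e)
    rw [hr1 (ρ g e), hL g e hne, zero_smul, add_zero] at h1
    exact h1
  have hdet : ∀ g, dt g = bef.repr (ρ g e) 0 * χ g := by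
    intro g
    rw [hdt, ← LinearMap.det_toMatrix bef, Matrix.det_fin_two]
    simp only [LinearMap.toMatrix_apply, LinearEquiv.coe_coe, hb0, hb1]
    rw [hr1 (ρ g f), hr1 (ρ g e), hL g e hne, hχd]
    ring
  have hdint : ∀ g, ∃ z : ℤ, dt g = z := by
    intro g
    obtain ⟨a, ha⟩ := hint g 0 0
    obtain ⟨b, hb⟩ := hint g 0 1
    obtain ⟨c, hc⟩ := hint g 1 0
    obtain ⟨d, hd⟩ := hint g 1 1
    refine ⟨a * d - b * c, ?_⟩
    rw [hdt, ← LinearMap.det_toMatrix bas, Matrix.det_fin_two]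
    simp only [LinearMap.toMatrix_apply, LinearEquiv.coe_coe]
    rw [ha, hb, hc, hd]
    push_cast
    ring
  have htr : ∀ g, ∃ z : ℤ, bef.repr (ρ g e) 0 + χ g = z := by
    intro g
    obtain ⟨a, ha⟩ := hint g 0 0
    obtain ⟨d, hd⟩ := hint g 1 1
    refine ⟨a + d, ?_⟩
    have h1 := LinearMap.trace_eq_matrix_trace ℝ bef (ρ g : E →ₗ[ℝ] E)
    have h2 := LinearMap.trace_eq_matrix_trace ℝ bas (ρ g : E →ₗ[ℝ] E)
    rw [h1, Matrix.trace_fin_two, Matrix.trace_fin_two] at h2
    simp only [LinearMap.toMatrix_apply, LinearEquiv.coe_coe, hb0, hb1] at h2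
    rw [hr1 (ρ g f), ← hχd, ha, hd] at h2
    push_cast
    exact h2
  have hd1 : ∀ g, 0 < dt g → dt g = 1 := by
    intro g hg
    obtain ⟨a, ha⟩ := hdint g
    obtain ⟨b, hb⟩ := hdint g⁻¹
    have h1 : dt g * dt g⁻¹ = 1 := by rw [← map_mul, mul_inv_cancel, map_one]
    rw [ha, hb] at h1
    rw [ha] at hg ⊢
    have h2 : a * b = 1 := by exact_mod_cast h1
    have h3 : 0 < a := by exact_mod_cast hg
    have h4 : a = 1 := Int.eq_one_of_mul_eq_one_right h3.le h2
    rw [h4, Int.cast_one]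
  -- the subgroup of finite index
  obtain ⟨P, hPf, hP⟩ : ∃ P : Subgroup G, P.FiniteIndex ∧ ∀ g ∈ P, 0 < dt g ∧ 0 < χ g := by
    let s : G →* SignType × SignType :=
      ((signHom : ℝ →*₀ SignType).toMonoidHom.comp dt).prod
        ((signHom : ℝ →*₀ SignType).toMonoidHom.comp χ)
    refine ⟨s.toHomUnits.ker, inferInstance, fun g hg => ?_⟩
    rw [MonoidHom.mem_ker] at hg
    have h1 : s g = 1 := by
      have := congrArg Units.val hg
      exact this
    have h2 : SignType.sign (dt g) = 1 := congrArg Prod.fst h1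
    have h3 : SignType.sign (χ g) = 1 := congrArg Prod.snd h1
    exact ⟨sign_eq_one_iff.1 h2, sign_eq_one_iff.1 h3⟩
  have hlam : ∀ g ∈ P, bef.repr (ρ g e) 0 = (χ g)⁻¹ := by
    intro g hg
    obtain ⟨h1, h2⟩ := hP g hg
    have h3 := hdet g
    rw [hd1 g h1] at h3
    exact (eq_inv_of_mul_eq_one_left h3.symm)
  -- a generator of `P` suffices
  suffices hc : ∃ g₀ : P, ∀ g : P, g ∈ Subgroup.zpowers g₀ by
    obtain ⟨g₀, hg₀⟩ := hc
    refine ⟨g₀, ?_⟩
    have h1 : P ≤ Subgroup.zpowers (g₀ : G) := by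
      intro g hg
      obtain ⟨k, hk⟩ := Subgroup.mem_zpowers_iff.1 (hg₀ ⟨g, hg⟩)
      rw [Subgroup.mem_zpowers_iff]
      refine ⟨k, ?_⟩
      have := congrArg (Subtype.val) hk
      simpa using this
    exact Subgroup.finiteIndex_of_le h1
  -- the unipotent elements
  have hν : ∀ (g : G) (t : ℝ), (∀ z, ρ g z = z + (t * n z) • e) →
      ∃ z : ℤ, t * (n (bas j) * bas.repr e i) = z := by
    intro g t hg
    obtain ⟨a, ha⟩ := hint g i j
    rw [hg, map_add, map_smul, Finsupp.add_apply, Finsupp.smul_apply, smul_eq_mul,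
      Module.Basis.repr_self] at ha
    by_cases hij : i = j
    · refine ⟨a - 1, ?_⟩
      rw [hij, Finsupp.single_eq_same] at ha
      push_cast
      rw [← ha, hij]
      ring
    · refine ⟨a, ?_⟩
      rw [Finsupp.single_apply, if_neg (Ne.symm hij)] at ha
      rw [← ha]
      ring
  have hν0 : n (bas j) * bas.repr e i ≠ 0 := mul_ne_zero hj hi
  have huni : ∀ g ∈ P, χ g = 1 → ∀ z, ρ g z = z + (bef.repr (ρ g f) 0 * n z) • e := by
    intro g hg h1 z
    have h2 : ρ g e = e := by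
      rw [hge, hlam g hg, h1, inv_one, one_smul]
    have h3 : ρ g f = bef.repr (ρ g f) 0 • e + f := by
      have h4 := hrep (ρ g f)
      rw [hr1 (ρ g f), ← hχd, h1, one_smul] at h4
      exact h4
    have h4 : ρ g z = bef.repr z 0 • ρ g e + n z • ρ g f := by
      have h5 := congrArg (ρ g) (hrep z)
      rw [map_add, map_smul, map_smul, hr1] at h5
      exact h5
    have h6 := hrep z
    rw [hr1] at h6
    rw [h4, h2]
    conv_lhs => rw [h3]
    conv_rhs => rw [h6]
    rw [map_add, map_smul, map_smul, hne, hf]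
    simp only [smul_eq_mul, mul_zero, zero_add, mul_one]
    module
  by_cases hcase : ∀ g ∈ P, χ g = 1
  · -- case 1
    refine PlCyc_cyc (G := P)
      (fun g => bef.repr (ρ g f) 0 * (n (bas j) * bas.repr e i)) ?_ ?_ one_pos ?_
    · intro g h
      have h1 := huni g g.2 (hcase g g.2) (ρ h f)
      have h2 : bef.repr (ρ (g * h : G) f) 0 = bef.repr (ρ g f) 0 + bef.repr (ρ h f) 0 := by
        rw [map_mul, LinearEquiv.mul_apply, h1, map_add, Finsupp.add_apply, map_smul,
          Finsupp.smul_apply, ← hb0, Module.Basis.repr_self, Finsupp.single_eq_same, hχ', hf,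
          hcase h h.2]
        simp only [smul_eq_mul, mul_one]
        ring
      change bef.repr (ρ ((g * h : P) : G) f) 0 * _ = _
      rw [Subgroup.coe_mul, h2]
      ring
    · intro g hg
      have h1 : bef.repr (ρ g f) 0 = 0 := (mul_eq_zero.1 hg).resolve_right hν0
      have h2 := huni g g.2 (hcase g g.2)
      apply Subtype.ext
      apply hρ
      rw [OneMemClass.coe_one, map_one]
      ext z
      rw [h2 z, h1, zero_mul, zero_smul, add_zero]
      rfl
    · intro g hg
      obtain ⟨a, ha⟩ := hν g _ (huni g g.2 (hcase g g.2))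
      change 1 ≤ bef.repr (ρ g f) 0 * (n (bas j) * bas.repr e i)
      change 0 < bef.repr (ρ g f) 0 * (n (bas j) * bas.repr e i) at hg
      rw [ha] at hg ⊢
      have h1 : 0 < a := by exact_mod_cast hg
      exact_mod_cast h1
  · -- case 2
    obtain ⟨g, hg, hg1⟩ : ∃ g ∈ P, 1 < χ g := by
      push Not at hcase
      obtain ⟨g, hg, hg1⟩ := hcase
      rcases lt_or_gt_of_ne hg1 with h | h
      · refine ⟨g⁻¹, P.inv_mem hg, ?_⟩
        have h1 : χ g * χ g⁻¹ = 1 := by rw [← map_mul, mul_inv_cancel, map_one]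
        have h2 := (hP g hg).2
        have h3 := (hP _ (P.inv_mem hg)).2
        nlinarith
      · exact ⟨g, hg, h⟩
    have hstep : ∀ (h : G) (t : ℝ), (∀ z, ρ h z = z + (t * n z) • e) →
        ∃ h' : G, ∀ z, ρ h' z = z + (t / χ g ^ 2 * n z) • e := by
      intro h t ht
      refine ⟨g * h * g⁻¹, fun z => ?_⟩
      have h1 : χ g ≠ 0 := (hP g hg).2.ne'
      have h2 : χ g⁻¹ = (χ g)⁻¹ := by
        have : χ g * χ g⁻¹ = 1 := by rw [← map_mul, mul_inv_cancel, map_one]
        exact eq_inv_of_mul_eq_one_right this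
      rw [map_mul, map_mul, LinearEquiv.mul_apply, LinearEquiv.mul_apply, ht, map_add, map_smul,
        hge g, hlam g hg, hχ', h2, ← LinearEquiv.mul_apply, ← map_mul, mul_inv_cancel, map_one,
        LinearEquiv.coe_one, id_eq, smul_smul]
      congr 2
      field_simp
    have hzero : ∀ (h : G) (t : ℝ), (∀ z, ρ h z = z + (t * n z) • e) → t = 0 := by
      intro h t ht
      have hk : ∀ k : ℕ, ∃ h' : G, ∀ z, ρ h' z = z + (t / (χ g ^ 2) ^ k * n z) • e := by
        intro k
        induction k with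
        | zero =>
          refine ⟨h, fun z => ?_⟩
          rw [pow_zero, div_one, ht]
        | succ k ih =>
          obtain ⟨h', hh'⟩ := ih
          obtain ⟨h'', hh''⟩ := hstep h' _ hh'
          refine ⟨h'', fun z => ?_⟩
          rw [hh'', pow_succ (χ g ^ 2) k, div_div]
      have hc : 1 < χ g ^ 2 := one_lt_pow₀ hg1 (by norm_num)
      obtain ⟨k, hk1⟩ := pow_unbounded_of_one_lt |t * (n (bas j) * bas.repr e i)| hc
      obtain ⟨h', hh'⟩ := hk k
      obtain ⟨a, ha⟩ := hν h' _ hh'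
      have hp : 0 < (χ g ^ 2) ^ k := by positivity
      have h2 : |(a : ℝ)| < 1 := by
        rw [← ha, div_mul_eq_mul_div, abs_div, abs_of_pos hp, div_lt_one hp]
        exact hk1
      have h3 : a = 0 := by
        have h4 : |a| < 1 := by exact_mod_cast h2
        exact Int.abs_lt_one_iff.1 h4
      rw [h3, Int.cast_zero] at ha
      have h5 := (mul_eq_zero.1 ha).resolve_right hν0
      exact (div_eq_zero_iff.1 h5).resolve_right hp.ne'
    have hlog2 : 0 < Real.log 2 := Real.log_pos (by norm_num)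
    refine PlCyc_cyc (G := P) (fun h => Real.log (χ h)) ?_ ?_ hlog2 ?_
    · intro a b
      change Real.log (χ ((a * b : P) : G)) = _
      rw [Subgroup.coe_mul, map_mul, Real.log_mul (hP a a.2).2.ne' (hP b b.2).2.ne']
    · intro h hh
      have h1 : χ h = 1 := Real.eq_one_of_pos_of_log_eq_zero (hP h h.2).2 hh
      have h2 := huni h h.2 h1
      have h3 := hzero h _ h2
      apply Subtype.ext
      apply hρ
      rw [OneMemClass.coe_one, map_one]
      ext z
      rw [h2 z, h3, zero_mul, zero_smul, add_zero]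
      rfl
    · intro h hh
      change Real.log 2 ≤ Real.log (χ h)
      change 0 < Real.log (χ h) at hh
      have h0 := (hP h h.2).2
      have h1 : 1 < χ h := (Real.log_pos_iff h0.le).1 hh
      apply Real.log_le_log (by norm_num)
      by_contra h2
      push Not at h2
      obtain ⟨a, ha⟩ := htr h
      rw [hlam h h.2] at ha
      have h3 : 2 < (χ h)⁻¹ + χ h := by
        have h4 : (χ h)⁻¹ * χ h = 1 := inv_mul_cancel₀ h0.ne'
        have h5 : 0 < (χ h)⁻¹ := inv_pos.2 h0
        nlinarith [sq_nonneg ((χ h)⁻¹ - χ h), mul_pos h5 (by linarith : 0 < χ h - 1)]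
      have h4 : (χ h)⁻¹ + χ h < 3 := by
        have h5 : (χ h)⁻¹ < 1 := inv_lt_one_of_one_lt₀ h1
        linarith
      rw [ha] at h3 h4
      have h5 : 2 < a := by exact_mod_cast h3
      have h6 : a < 3 := by exact_mod_cast h4
      omega

/-- PROOF. Put `G = L.range`. For each `g ∈ G` there is a unique `χ g : ℝ` with `n (g z) = χ g * n z` (`n ∘ g` vanishes
on `ker n`), `χ` is multiplicative, nonzero. Let `G₊` be the subgroup `det g = 1, 0 < χ g`, of finite index (kernel of a
homomorphism to a finite group; `det g = ± 1` as the matrix in the basis `bas` is integral and so is its inverse).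
Let `e ≠ 0` span `ker n` and `n f = 1`. For `g ∈ G₊`: `g e = (χ g)⁻¹ • e` (det), `tr g = χ g + (χ g)⁻¹ ∈ ℤ`.
Case 1: `χ = 1` on `G₊`. Then `g f = f + τ g • e`, `g = 1 + τ g • N` with `N f = e`, `N e = 0`; `τ` is an injective
homomorphism `G₊ → ℝ`, some matrix entry `ν ≠ 0` of `N` in `bas` and `τ g * ν ∈ ℤ`; so `G₊` embeds in `ℤ` and is
cyclic.
Case 2: there is `g ∈ G₊` with `χ g ≠ 1`. Then `χ` is injective on `G₊`: if `χ h = 1`, `h = 1 + τ • N`, then
`g ^ k h g ^ (-k) = 1 + τ (χ g) ^ (-2 k) • N` has integral matrix entries for all `k : ℤ`, and one of the two limits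
`k → ± ∞` makes the nonzero integer `τ ν (χ g) ^ (-2 k)` arbitrarily small, so `τ = 0`. The image of `log ∘ χ` is a
subgroup of `ℝ` with finitely many elements in each bounded interval (`χ + χ⁻¹ ∈ ℤ`), so it is cyclic
(`AddSubgroup.dense_or_cyclic`).
In both cases `G₊` is cyclic of finite index in `G`. -/
theorem virtCyclic_of_line {E : Type*} [NormedAddCommGroup E] [NormedSpace ℝ E]
    (bas : Module.Basis (Fin 2) ℝ E) {Γ : Type*} [Group Γ] (L : Γ →* (E ≃ₗ[ℝ] E))
    (hint : ∀ (γ : Γ) (i j : Fin 2), ∃ z : ℤ, bas.repr (L γ (bas j)) i = (z : ℝ))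
    (n : E →ₗ[ℝ] ℝ) (hn : n ≠ 0) (hL : ∀ (γ : Γ) (z : E), n z = 0 → n (L γ z) = 0) :
    ∃ g : L.range, (Subgroup.zpowers g).FiniteIndex := by
  refine PlCyc_main bas L.range.subtype Subtype.val_injective ?_ n hn ?_
  · rintro ⟨_, ⟨γ, rfl⟩⟩ i j
    exact hint γ i j
  · rintro ⟨_, ⟨γ, rfl⟩⟩ z hz
    exact hL γ z hz

end H83T
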