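import Pool.Agent.H.MP_7a8a58_gt.h83c.PlA

/-!
MP_7a8a58_gt, helper83, second part.  An invariant hyperplane.
Paper proof: /team-store/h83_7a8a58_T3.md
-/

set_option autoImplicit false

open Set Metric Topology Filter

namespace H83T

variable {E : Type*} [NormedAddCommGroup E] [NormedSpace ℝ E]
variable {X : Type*} [TopologicalSpace X] [T2Space X] [ConnectedSpace X]
variable {Γ : Type*} [Group Γ] [MulAction Γ X] [ContinuousConstSMul Γ X]

/-- PROOF: `Ω = Dom D x` is convex. If `v ∈ Ω` and `y = ex D x v`, then `move` (with `C = Ω`) gives `w ∈ Dom D y` whenever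
`v + w ∈ Ω`; in particular all `w` with `n w = 0`. -/
theorem ker_sub {D : X → E} (hD : IsLocalHomeomorph D) {x : X} {n : E →L[ℝ] ℝ}
    (hn : Dom D x = {z | n z < 1} ∨ ∃ a : ℝ, 0 < a ∧ Dom D x = {z | -a < n z ∧ n z < 1})
    {v : E} (hv : v ∈ Dom D x) {w : E} (hw : n w = 0) : w ∈ Dom D (ex D x v) := by
  have hnv : n (v + w) = n v := by rw [map_add, hw, add_zero]
  have hC : Convex ℝ (Dom D x) := by
    rcases hn with h | ⟨a, -, h⟩
    · rw [h]
      exact convex_halfSpace_lt n.isLinear 1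
    · rw [h]
      exact (convex_halfSpace_gt n.isLinear (-a)).inter (convex_halfSpace_lt n.isLinear 1)
  have hvw : v + w ∈ Dom D x := by
    rcases hn with h | ⟨a, -, h⟩
    · rw [h, mem_ofPred_eq] at hv ⊢
      rw [hnv]
      exact hv
    · rw [h, mem_ofPred_eq] at hv ⊢
      rw [hnv]
      exact hv
  exact (move hD hC Subset.rfl hv hvw).1

/-- PROOF: if all multiples of `w` are in `Dom D x` then `n w = 0`. -/
theorem ker_of_line {D : X → E} {x : X} {n : E →L[ℝ] ℝ}
    (hn : Dom D x = {z | n z < 1} ∨ ∃ a : ℝ, 0 < a ∧ Dom D x = {z | -a < n z ∧ n z < 1})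
    {w : E} (hw : ∀ t : ℝ, t • w ∈ Dom D x) : n w = 0 := by
  by_contra hne
  have h1 := hw (2 / n w)
  have h2 : n ((2 / n w) • w) < 1 := by
    rcases hn with h | ⟨a, -, h⟩
    · rw [h, mem_ofPred_eq] at h1
      exact h1
    · rw [h, mem_ofPred_eq] at h1
      exact h1.2
  rw [map_smul, smul_eq_mul, div_mul_cancel₀ _ hne] at h2
  norm_num at h2

/-- An invariant hyperplane.
PROOF: `H x = {w | ∀ t : ℝ, t • w ∈ Dom D x}` is the kernel of the form of `x` (`ker_of_line`; `n w = 0` implies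
`t • w ∈ Dom D x` because `n (t • w) = 0`). For `y = ex D x v`, `ker_sub` gives `H x ⊆ H y`; conversely `x = ex D y (-v)`
(`back`) gives `H y ⊆ H x`. By `nhds_eq_map_ex` and `isOpen_dom`, `H` is locally constant, hence constant
(`IsPreconnected`, e.g. `IsLocallyConstant.apply_eq_of_isPreconnected`; `ConnectedSpace`). `smul_dom_iff`
(equivariance, `Dom D (γ • x) = L γ '' Dom D x`, `equivariant`): `w ∈ H x` iff `L γ w ∈ H (γ • x)`. -/
theorem exists_hyperplane {D : X → E} {L : Γ →* (E ≃ₗ[ℝ] E)} {b : Γ → E}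
    (hD : IsLocalHomeomorph D) (heq : ∀ (γ : Γ) (x : X), D (γ • x) = L γ (D x) + b γ)
    (hhalf : ∀ x : X, ∃ n : E →L[ℝ] ℝ, n ≠ 0 ∧
      (Dom D x = {z | n z < 1} ∨ ∃ a : ℝ, 0 < a ∧ Dom D x = {z | -a < n z ∧ n z < 1})) :
    ∃ n : E →L[ℝ] ℝ, n ≠ 0 ∧ ∀ (γ : Γ) (z : E), n z = 0 → n (L γ z) = 0 := by
  choose n hn0 hn using hhalf
  have hker : ∀ (x : X) (w : E), n x w = 0 ↔ ∀ t : ℝ, t • w ∈ Dom D x := by
    intro x w
    refine ⟨fun h t => ?_, fun h => ker_of_line (hn x) h⟩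
    have h1 : n x (t • w) = 0 := by rw [map_smul, h, smul_zero]
    rcases hn x with h2 | ⟨a, ha, h2⟩
    · rw [h2, mem_ofPred_eq, h1]
      exact one_pos
    · rw [h2, mem_ofPred_eq, h1]
      exact ⟨by linarith, one_pos⟩
  have hsub : ∀ (x : X) (v : E), v ∈ Dom D x → ∀ w : E, n x w = 0 → n (ex D x v) w = 0 := by
    intro x v hv w hw
    refine (hker (ex D x v) w).2 fun t => ?_
    refine ker_sub hD (hn x) hv ?_
    rw [map_smul, hw, smul_zero]
  have heq2 : ∀ (x : X) (v : E), v ∈ Dom D x → ∀ w : E, n (ex D x v) w = 0 ↔ n x w = 0 := by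
    intro x v hv w
    refine ⟨fun h => ?_, hsub x v hv w⟩
    obtain ⟨h1, h2⟩ := back hD hv
    have h3 := hsub (ex D x v) (-v) h1 w h
    rwa [h2] at h3
  let H : X → Set E := fun x => {w | n x w = 0}
  have hloc : IsLocallyConstant H := by
    rw [IsLocallyConstant.iff_eventually_eq]
    intro x
    rw [nhds_eq_map_ex hD x, eventually_map]
    filter_upwards [(isOpen_dom hD x).mem_nhds (zero_mem_dom D x)] with v hv
    ext w
    exact heq2 x v hv w
  obtain ⟨x₀⟩ : Nonempty X := inferInstance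
  refine ⟨n x₀, hn0 x₀, fun γ z hz => ?_⟩
  have h1 : n (γ • x₀) (L γ z) = 0 := by
    refine (hker _ _).2 fun t => ?_
    have h2 := (equivariant hD (continuous_const_smul γ) (L γ : E →ₗ[ℝ] E) (fun x => heq γ x)
      ((hker x₀ z).1 hz t)).1
    have h3 : (L γ : E →ₗ[ℝ] E) (t • z) = t • L γ z := map_smul (L γ) t z
    rwa [h3] at h2
  have h4 : H (γ • x₀) = H x₀ := hloc.apply_eq_of_preconnectedSpace _ _
  have h5 : L γ z ∈ H (γ • x₀) := h1
  rw [h4] at h5
  exact h5

end H83T
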