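import Pool.Agent.H.MP_7a8a58_gt.h83c.PlGlue
import Pool.Agent.H.MP_7a8a58_gt.h83c.PlHalf
import Pool.Agent.H.MP_7a8a58_gt.h83c.PlLine
import Pool.Agent.H.MP_7a8a58_gt.h83c.PlCyc

/-!
MP_7a8a58_gt, helper83, second part.  Closed integral affine surfaces are complete.
Paper proof: /team-store/h83_7a8a58_T3.md
-/

set_option autoImplicit false

open Set Metric Topology Filter

namespace H83T

variable {E : Type*} [NormedAddCommGroup E] [NormedSpace ℝ E]
variable {X : Type*} [TopologicalSpace X] [T2Space X] [ConnectedSpace X]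
variable {Γ : Type*} [Group Γ] [MulAction Γ X] [ContinuousConstSMul Γ X]
  [ProperlyDiscontinuousSMul Γ X]

/-- Closed integral affine surfaces (and orbifolds) are complete. -/
theorem plane_complete (bas : Module.Basis (Fin 2) ℝ E) {D : X → E} {L : Γ →* (E ≃ₗ[ℝ] E)}
    {b : Γ → E} (hD : IsLocalHomeomorph D)
    (heq : ∀ (γ : Γ) (x : X), D (γ • x) = L γ (D x) + b γ)
    (hco : ∃ K : Set X, IsCompact K ∧ ∀ x : X, ∃ γ : Γ, γ • x ∈ K)
    (hint : ∀ (γ : Γ) (i j : Fin 2), ∃ z : ℤ, bas.repr (L γ (bas j)) i = (z : ℝ))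
    (hdet : ∀ γ : Γ, |LinearMap.det (L γ : E →ₗ[ℝ] E)| = 1) : IsHomeomorph D := by
  have hfr : Module.finrank ℝ E = 2 := by
    rw [Module.finrank_eq_card_basis bas, Fintype.card_fin]
  have : FiniteDimensional ℝ E := Module.finite_of_finrank_pos (by rw [hfr]; norm_num)
  by_cases htop : Ec D hD = ⊤
  · exact isHomeomorph_of_Ec_top hD htop
  · obtain ⟨K, ε, ω, c, C, S⟩ := exists_plSys hfr hD heq hco hdet
    have hhalf : ∀ x : X, ∃ n : E →L[ℝ] ℝ, n ≠ 0 ∧
        (Dom D x = {z | n z < 1} ∨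
          ∃ a : ℝ, 0 < a ∧ Dom D x = {z | -a < n z ∧ n z < 1}) := by
      intro x
      rcases half_of_thin (isOpen_dom hD x) (zero_mem_dom D x)
        (fun z hz s hs => smul_mem_dom hz hs) (S.thin x) with h | h
      · exact absurd (Ec_top_of_univ hD h) htop
      · exact h
    obtain ⟨n, hn, hL⟩ := exists_hyperplane hD heq hhalf
    refine markus_virtually_cyclic D L b hD heq hco hdet
      (virtCyclic_of_line bas L hint n.toLinearMap (fun h => hn ?_) hL)
    ext z
    exact congrArg (fun f : E →ₗ[ℝ] ℝ => f z) h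

end H83T
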