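import Pool.Agent.H.MP_7a8a58_gt.h83c.LfMain
import Pool.Agent.H.MP_7a8a58_gt.h83c.PlMain
import Pool.Agent.H.MP_7a8a58_gt.h83.Pair

/-!
MP_7a8a58_gt, helper83, second part.  Block triangular integral holonomy.
Paper proof: /team-store/h83_7a8a58_T3.md
-/

set_option autoImplicit false

open Set Metric Topology Filter

namespace H83T

/-- The linear automorphism of an integral matrix. -/
private noncomputable def FnA_iota (n : ℕ) :
    GL (Fin n) ℤ →* ((Fin n → ℝ) ≃ₗ[ℝ] (Fin n → ℝ)) :=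
  (LinearMap.GeneralLinearGroup.generalLinearEquiv ℝ (Fin n → ℝ)).toMonoidHom.comp
    (Matrix.GeneralLinearGroup.toLin.toMonoidHom.comp
      (Matrix.GeneralLinearGroup.map (Int.castRingHom ℝ)))

private theorem FnA_apply {n : ℕ} (M : GL (Fin n) ℤ) (v : Fin n → ℝ) :
    FnA_iota n M v = (rM M).mulVec v := by
  rfl

private theorem FnA_det {n : ℕ} (M : GL (Fin n) ℤ) :
    |LinearMap.det (FnA_iota n M : (Fin n → ℝ) →ₗ[ℝ] (Fin n → ℝ))| = 1 := by
  have h1 : (FnA_iota n M : (Fin n → ℝ) →ₗ[ℝ] (Fin n → ℝ)) = Matrix.toLin' (rM M) := by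
    apply LinearMap.ext
    intro v
    rw [Matrix.toLin'_apply]
    exact FnA_apply M v
  have h2 : (rM M).det = ((M : Matrix (Fin n) (Fin n) ℤ).det : ℝ) :=
    ((Int.castRingHom ℝ).map_det (M : Matrix (Fin n) (Fin n) ℤ)).symm
  have h3 : IsUnit (M : Matrix (Fin n) (Fin n) ℤ).det :=
    (Matrix.isUnit_iff_isUnit_det _).1 M.isUnit
  rw [h1, LinearMap.det_toLin', h2, ← Int.cast_abs, Int.isUnit_iff_abs_eq.1 h3, Int.cast_one]

private theorem FnA_eq {n : ℕ} {Γ : Type} [Group Γ] (M : Γ →* GL (Fin n) ℤ)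
    (A : Γ →* ((Fin n → ℝ) ≃ₗ[ℝ] (Fin n → ℝ)))
    (hA : ∀ (γ : Γ) (v : Fin n → ℝ), A γ v = (rM (M γ)).mulVec v) (γ : Γ) :
    A γ = FnA_iota n (M γ) := by
  apply LinearEquiv.ext
  intro v
  rw [hA, FnA_apply]

/-- PROOF: `plane_complete` with `Pi.basisFun ℝ (Fin 2)`: `A (f g)` is the linear map of an integral matrix of
determinant `± 1`. -/
theorem markusP_two {Γ : Type} [Group Γ] (M : Γ →* GL (Fin 2) ℤ)
    (A : Γ →* ((Fin 2 → ℝ) ≃ₗ[ℝ] (Fin 2 → ℝ)))
    (hA : ∀ (γ : Γ) (v : Fin 2 → ℝ), A γ v = (rM (M γ)).mulVec v) : MarkusP A := by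
  intro Y _ _ _ G _ _ _ _ f D₁ b hD heq hco
  refine plane_complete (Pi.basisFun ℝ (Fin 2)) (L := A.comp f) (b := b) hD heq hco ?_ ?_
  · intro g i j
    refine ⟨(M (f g) : Matrix (Fin 2) (Fin 2) ℤ) i j, ?_⟩
    rw [MonoidHom.comp_apply, Pi.basisFun_apply, Pi.basisFun_repr, hA, Matrix.mulVec_single_one]
    rfl
  · intro g
    rw [MonoidHom.comp_apply, FnA_eq M A hA]
    exact FnA_det _

/-- PROOF: `markus_virtually_cyclic`: the range of `A ∘ f` is a subgroup of a cyclic group (the image of the powers of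
`M₀`), hence cyclic. -/
theorem markusP_cyclic {k : ℕ} {Γ : Type} [Group Γ] (M : Γ →* GL (Fin k) ℤ) (M₀ : GL (Fin k) ℤ)
    (hM : ∀ γ : Γ, ∃ j : ℤ, M γ = M₀ ^ j)
    (A : Γ →* ((Fin k → ℝ) ≃ₗ[ℝ] (Fin k → ℝ)))
    (hA : ∀ (γ : Γ) (v : Fin k → ℝ), A γ v = (rM (M γ)).mulVec v) : MarkusP A := by
  intro Y _ _ _ G _ _ _ _ f D₁ b hD heq hco
  refine markus_virtually_cyclic D₁ (A.comp f) b hD heq hco ?_ ?_
  · intro g
    rw [MonoidHom.comp_apply, FnA_eq M A hA]
    exact FnA_det _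
  · have h1 : (A.comp f).range ≤ Subgroup.zpowers (FnA_iota k M₀) := by
      rintro _ ⟨g, rfl⟩
      obtain ⟨j, hj⟩ := hM (f g)
      rw [Subgroup.mem_zpowers_iff]
      refine ⟨j, ?_⟩
      rw [MonoidHom.comp_apply, FnA_eq M A hA, hj, map_zpow]
    have h2 : IsCyclic (A.comp f).range := Subgroup.isCyclic_of_le h1
    obtain ⟨g, hg⟩ := h2.exists_generator
    refine ⟨g, ?_⟩
    have h3 : Subgroup.zpowers g = ⊤ := by
      rw [Subgroup.eq_top_iff']
      exact hg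
    rw [h3]
    infer_instance

/-- The block form gives homomorphisms to `GL (Fin k) ℤ`.
PROOF: the product of two block triangular matrices: `A (γ γ') = A γ * A γ'`, `A 1 = 1`; units by `A γ * A γ⁻¹ = 1`. -/
theorem exists_block_hom {k m : ℕ} {Γ : Type} [Group Γ] (lin : Γ →* GL (Fin (k + m)) ℤ)
    (P : GL (Fin (k + m)) ℤ)
    (A : Γ → Matrix (Fin k) (Fin k) ℤ) (B : Γ → Matrix (Fin k) (Fin m) ℤ)
    (hblock : ∀ γ : Γ, (P * lin γ * P⁻¹).val =
      Matrix.reindex finSumFinEquiv finSumFinEquiv (Matrix.fromBlocks (A γ) (B γ) 0 1)) :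
    ∃ M : Γ →* GL (Fin k) ℤ, ∀ γ : Γ, (M γ : Matrix (Fin k) (Fin k) ℤ) = A γ := by
  have h1 : A 1 = 1 := by
    have h := hblock 1
    rw [map_one, mul_one, mul_inv_cancel, Units.val_one, Matrix.reindex_apply] at h
    have h2 : (1 : Matrix (Fin k ⊕ Fin m) (Fin k ⊕ Fin m) ℤ) =
        Matrix.fromBlocks (A 1) (B 1) 0 1 := by
      have h3 := congrArg (fun N => Matrix.submatrix N finSumFinEquiv finSumFinEquiv) h
      simpa using h3
    rw [← Matrix.fromBlocks_one, Matrix.fromBlocks_inj] at h2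
    exact h2.1.symm
  have hm : ∀ γ γ' : Γ, A (γ * γ') = A γ * A γ' := by
    intro γ γ'
    have e : P * lin (γ * γ') * P⁻¹ = (P * lin γ * P⁻¹) * (P * lin γ' * P⁻¹) := by
      rw [map_mul]
      group
    have h := (congrArg Units.val e).trans (Units.val_mul _ _)
    rw [hblock, hblock, hblock, Matrix.reindex_apply, Matrix.reindex_apply,
      Matrix.reindex_apply, Matrix.submatrix_mul_equiv, Matrix.fromBlocks_multiply] at h
    have h3 := congrArg (fun N => Matrix.submatrix N finSumFinEquiv finSumFinEquiv) h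
    simp only [Matrix.submatrix_submatrix, Equiv.symm_comp_self, Matrix.submatrix_id_id] at h3
    rw [Matrix.fromBlocks_inj] at h3
    rw [h3.1, Matrix.mul_zero, add_zero]
  refine ⟨{ toFun := fun γ => ⟨A γ, A γ⁻¹, ?_, ?_⟩, map_one' := ?_, map_mul' := ?_ },
    fun γ => rfl⟩
  · rw [← hm, mul_inv_cancel, h1]
  · rw [← hm, inv_mul_cancel, h1]
  · apply Units.ext
    exact h1
  · intro γ γ'
    apply Units.ext
    exact hm γ γ'

/-- The coordinates in the blocks. -/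
private noncomputable def FnA_split (k m : ℕ) :
    (Fin (k + m) → ℝ) ≃ₗ[ℝ] (Fin k → ℝ) × (Fin m → ℝ) :=
  (LinearEquiv.funCongrLeft ℝ ℝ (finSumFinEquiv (m := k) (n := m))).trans
    (LinearEquiv.sumArrowLequivProdArrow (Fin k) (Fin m) ℝ ℝ)

private theorem FnA_split_fst {k m : ℕ} (x : Fin (k + m) → ℝ) (i : Fin k) :
    (FnA_split k m x).1 i = x (finSumFinEquiv (Sum.inl i)) := rfl

private theorem FnA_split_snd {k m : ℕ} (x : Fin (k + m) → ℝ) (i : Fin m) :
    (FnA_split k m x).2 i = x (finSumFinEquiv (Sum.inr i)) := rfl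

private theorem FnA_reindex {k m : ℕ} (N : Matrix (Fin k ⊕ Fin m) (Fin k ⊕ Fin m) ℝ)
    (x : Fin (k + m) → ℝ) (s : Fin k ⊕ Fin m) :
    (Matrix.reindex finSumFinEquiv finSumFinEquiv N).mulVec x (finSumFinEquiv s) =
      N.mulVec (x ∘ finSumFinEquiv) s := by
  rw [Matrix.mulVec, Matrix.mulVec, dotProduct, dotProduct,
    ← Equiv.sum_comp (finSumFinEquiv (m := k) (n := m))]
  refine Finset.sum_congr rfl fun t _ => ?_
  rw [Matrix.reindex_apply, Matrix.submatrix_apply, Equiv.symm_apply_apply,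
    Equiv.symm_apply_apply, Function.comp_apply]

private theorem FnA_block {k m : ℕ} (Q : GL (Fin (k + m)) ℤ) (A : Matrix (Fin k) (Fin k) ℤ)
    (B : Matrix (Fin k) (Fin m) ℤ)
    (hQ : Q.val = Matrix.reindex finSumFinEquiv finSumFinEquiv (Matrix.fromBlocks A B 0 1))
    (x : Fin (k + m) → ℝ) :
    FnA_split k m ((rM Q).mulVec x) =
      ((A.map (fun a : ℤ => (a : ℝ))).mulVec (FnA_split k m x).1 +
        (B.map (fun a : ℤ => (a : ℝ))).mulVec (FnA_split k m x).2, (FnA_split k m x).2) := by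
  have h1 : rM Q = Matrix.reindex finSumFinEquiv finSumFinEquiv
      (Matrix.fromBlocks (A.map (fun a : ℤ => (a : ℝ))) (B.map (fun a : ℤ => (a : ℝ))) 0 1) := by
    rw [rM, hQ]
    ext i j
    rw [Matrix.map_apply, Matrix.reindex_apply, Matrix.reindex_apply, Matrix.submatrix_apply,
      Matrix.submatrix_apply]
    rcases finSumFinEquiv.symm i with i | i <;> rcases finSumFinEquiv.symm j with j | j
    · rfl
    · rfl
    · simp
    · rw [Matrix.fromBlocks_apply₂₂, Matrix.fromBlocks_apply₂₂, Matrix.one_apply, Matrix.one_apply]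
      split_ifs
      · exact Int.cast_one
      · exact Int.cast_zero
  have h2 : ∀ s, (rM Q).mulVec x (finSumFinEquiv s) = Sum.elim
      ((A.map (fun a : ℤ => (a : ℝ))).mulVec (FnA_split k m x).1 +
        (B.map (fun a : ℤ => (a : ℝ))).mulVec (FnA_split k m x).2) (FnA_split k m x).2 s := by
    intro s
    rw [h1, FnA_reindex, Matrix.fromBlocks_mulVec]
    have e1 : (x ∘ finSumFinEquiv) ∘ Sum.inl = (FnA_split k m x).1 := rfl
    have e2 : (x ∘ finSumFinEquiv) ∘ Sum.inr = (FnA_split k m x).2 := rfl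
    rw [e1, e2, Matrix.zero_mulVec, Matrix.one_mulVec, zero_add]
  refine Prod.ext ?_ ?_
  · funext i
    exact h2 (Sum.inl i)
  · funext i
    exact h2 (Sum.inr i)

private theorem FnA_fin (m : ℕ) (R : ℝ) :
    {z : Fin m → ℝ | (∃ w : Fin m → ℤ, rV w = z) ∧ ‖z‖ ≤ R}.Finite := by
  have h1 : (Set.Icc (fun _ : Fin m => -⌈R⌉) (fun _ => ⌈R⌉)).Finite := Set.finite_Icc _ _
  refine (h1.image rV).subset ?_
  rintro _ ⟨⟨w, rfl⟩, hw⟩
  refine ⟨w, ?_, rfl⟩
  have h2 : ∀ i, |(w i : ℝ)| ≤ ⌈R⌉ := by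
    intro i
    have h3 := (norm_le_pi_norm (rV w) i).trans hw
    rw [Real.norm_eq_abs] at h3
    exact h3.trans (Int.le_ceil R)
  constructor <;> intro i
  · have h3 := (abs_le.1 (h2 i)).1
    exact_mod_cast h3
  · have h3 := (abs_le.1 (h2 i)).2
    exact_mod_cast h3

/-- PROOF: `Ψ x = ((rM P).mulVec x restricted to the first k coordinates, to the last m)`, a linear equivalence
`(Fin (k + m) → ℝ) ≃ (Fin k → ℝ) × (Fin m → ℝ)` (`Fin.appendEquiv` / `LinearEquiv.sumArrowLequivProdArrow`,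
`LinearEquiv.funCongrLeft ℝ ℝ finSumFinEquiv`), a homeomorphism. Apply `leaf_complete` to `Ψ ∘ S.dev`, with
`L γ = Ψ ∘ (rM (lin γ)) ∘ Ψ⁻¹`, `A γ` the linear automorphism of `M γ` (`exists_block_hom`), `B γ` the linear map of
`B γ`, `b γ = Ψ (rV (t γ))`, whose second component is integral (`P` is integral), so `hfin` holds; `hM` from
`markusP_two` (after `subst`) or `markusP_cyclic`. -/
theorem block_complete {k m : ℕ} (S : IntAffPair (k + m)) (t : S.Γ → (Fin (k + m) → ℤ))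
    (ht : ∀ γ : S.Γ, S.trans γ = rV (t γ)) (P : GL (Fin (k + m)) ℤ)
    (A : S.Γ → Matrix (Fin k) (Fin k) ℤ) (B : S.Γ → Matrix (Fin k) (Fin m) ℤ)
    (hblock : ∀ γ : S.Γ, (P * S.lin γ * P⁻¹).val =
      Matrix.reindex finSumFinEquiv finSumFinEquiv (Matrix.fromBlocks (A γ) (B γ) 0 1))
    (h : k = 2 ∨ ∃ M₀ : GL (Fin k) ℤ, ∀ γ : S.Γ, ∃ j : ℤ,
      A γ = (M₀ ^ j).val) :
    IsHomeomorph S.dev := by
  obtain ⟨M, hM⟩ := exists_block_hom S.lin P A B hblock
  have hMk : MarkusP ((FnA_iota k).comp M) := by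
    rcases h with rfl | ⟨M₀, h⟩
    · exact markusP_two M _ fun γ v => FnA_apply _ _
    · refine markusP_cyclic M M₀ (fun γ => ?_) _ fun γ v => FnA_apply _ _
      obtain ⟨j, hj⟩ := h γ
      exact ⟨j, Units.ext ((hM γ).trans hj)⟩
  let Ψ : (Fin (k + m) → ℝ) ≃ₗ[ℝ] (Fin k → ℝ) × (Fin m → ℝ) :=
    (FnA_iota (k + m) P).trans (FnA_split k m)
  let H : (Fin (k + m) → ℝ) ≃ₜ (Fin k → ℝ) × (Fin m → ℝ) :=
    Ψ.toContinuousLinearEquiv.toHomeomorph
  have hH : ∀ x, H x = Ψ x := fun x => rfl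
  have hΨ : ∀ x, Ψ x = FnA_split k m ((rM P).mulVec x) := fun x => rfl
  let L : S.Γ →* (((Fin k → ℝ) × (Fin m → ℝ)) ≃ₗ[ℝ] ((Fin k → ℝ) × (Fin m → ℝ))) :=
    { toFun := fun γ => (Ψ.symm.trans (FnA_iota (k + m) (S.lin γ))).trans Ψ
      map_one' := by
        apply LinearEquiv.ext
        intro v
        rw [map_one, map_one]
        change Ψ (Ψ.symm v) = v
        exact Ψ.apply_symm_apply v
      map_mul' := by
        intro γ γ'
        apply LinearEquiv.ext
        intro v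
        rw [map_mul, map_mul]
        change Ψ (FnA_iota (k + m) (S.lin γ) (FnA_iota (k + m) (S.lin γ') (Ψ.symm v))) =
          Ψ (FnA_iota (k + m) (S.lin γ) (Ψ.symm (Ψ (FnA_iota (k + m) (S.lin γ') (Ψ.symm v)))))
        rw [Ψ.symm_apply_apply] }
  have hLd : ∀ γ x, L γ (Ψ x) = Ψ ((rM (S.lin γ)).mulVec x) := by
    intro γ x
    change Ψ (FnA_iota (k + m) (S.lin γ) (Ψ.symm (Ψ x))) = _
    rw [Ψ.symm_apply_apply, FnA_apply]
  have hL : ∀ (γ : S.Γ) (v : Fin k → ℝ) (w : Fin m → ℝ), L γ (v, w) =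
      (((FnA_iota k).comp M) γ v + Matrix.toLin' ((B γ).map (fun a : ℤ => (a : ℝ))) w, w) := by
    intro γ v w
    obtain ⟨u, hu⟩ := Ψ.surjective (v, w)
    rw [← hu, hLd, hΨ]
    have h1 : (rM P).mulVec ((rM (S.lin γ)).mulVec u) =
        (rM (P * S.lin γ * P⁻¹)).mulVec ((rM P).mulVec u) := by
      rw [← FnA_apply, ← FnA_apply, ← FnA_apply, ← FnA_apply, ← LinearEquiv.mul_apply,
        ← LinearEquiv.mul_apply, ← map_mul, ← map_mul, inv_mul_cancel_right]
    have h2 : FnA_split k m ((rM P).mulVec u) = (v, w) := hu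
    rw [h1, FnA_block _ _ _ (hblock γ), h2]
    refine Prod.ext ?_ rfl
    change _ = FnA_iota k (M γ) v + Matrix.toLin' ((B γ).map (fun a : ℤ => (a : ℝ))) w
    rw [FnA_apply, Matrix.toLin'_apply, rM, hM]
  have hres : IsHomeomorph (H ∘ S.dev) := by
    refine leaf_complete (L := L) (A := (FnA_iota k).comp M)
      (B := fun γ => Matrix.toLin' ((B γ).map (fun a : ℤ => (a : ℝ)))) hL
      (b := fun γ => Ψ (rV (t γ))) (D := H ∘ S.dev)
      (H.isLocalHomeomorph.comp S.isLocalHomeomorph_dev) ?_ S.cocompact ?_ hMk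
    · intro γ x
      rw [Function.comp_apply, Function.comp_apply, hH, hH, hLd, S.dev_smul, ht, map_add]
      rfl
    · intro R
      refine (FnA_fin m R).subset ?_
      rintro z ⟨⟨γ, hγ⟩, hz⟩
      refine ⟨⟨fun i => (P.val.mulVec (t γ)) (finSumFinEquiv (Sum.inr i)), ?_⟩, hz⟩
      rw [← hγ, hΨ]
      funext i
      rw [FnA_split_snd]
      change (((P.val.mulVec (t γ)) (finSumFinEquiv (Sum.inr i)) : ℤ) : ℝ) = _
      rw [Matrix.mulVec, Matrix.mulVec, dotProduct, dotProduct, Int.cast_sum]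
      refine Finset.sum_congr rfl fun j _ => ?_
      rw [Int.cast_mul]
      rfl
  have hfin : S.dev = H.symm ∘ (H ∘ S.dev) := by
    funext x
    rw [Function.comp_apply, Function.comp_apply, H.symm_apply_apply]
  rw [hfin]
  exact H.symm.isHomeomorph.comp hres

end H83T
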