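import Pool.Agent.H.MP_7a8a58_gt.h83c.PlA

/-!
MP_7a8a58_gt, helper83, third part.  Unipotent directions are complete.
Paper proof: /team-store/h83_7a8a58_T4.md
-/

set_option autoImplicit false

open Set Metric Topology Filter

namespace H83T

variable {E : Type*} [NormedAddCommGroup E] [NormedSpace ℝ E]
variable {X : Type*} [TopologicalSpace X] [T2Space X]
variable {Γ : Type*} [Group Γ] [MulAction Γ X] [ContinuousConstSMul Γ X]
variable {D : X → E} {L : Γ →* (E ≃ₗ[ℝ] E)} {b : Γ → E} {K : Set X} {ε : ℝ}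

/-- PROOF: strong induction on `i` with `lemmaB`, `w₀ = w' = e i`: `e i - L γ (e i)` is in the span of the `e j`, `j < i`,
which is contained in `Ec`. -/
theorem AfSys.unipotent (S : AfSys D L b K ε) {m : ℕ} (e : Fin m → E)
    (h : ∀ (γ : Γ) (i : Fin m), L γ (e i) - e i ∈ Submodule.span ℝ (e '' {j | j < i}))
    (i : Fin m) : e i ∈ Ec D S.hD := by
  induction i using WellFoundedLT.induction with
  | ind i ih =>
    have hsub : Submodule.span ℝ (e '' {j | j < i}) ≤ Ec D S.hD := by
      rw [Submodule.span_le]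
      rintro _ ⟨j, hj, rfl⟩
      exact ih j hj
    refine S.lemmaB ⟨‖e i‖, fun γ => ⟨e i, le_rfl, ?_⟩⟩
    have h1 := (Ec D S.hD).neg_mem (hsub (h γ i))
    rwa [neg_sub] at h1

end H83T
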