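import Pool.Agent.H.MP_7a8a58_gt.h83c.FlK
import Pool.Agent.H.MP_7a8a58_gt.h83c.UnA

/-!
MP_7a8a58_gt, helper83, third part.  Block triangular integral holonomy, unipotent block first.
Paper proof: /team-store/h83_7a8a58_T4.md
-/

set_option autoImplicit false

open Set Metric Topology Filter

namespace H83T

/-- PROOF: the lower right block of block triangular matrices is multiplicative (as `exists_block_hom` in FnA). -/
theorem exists_block_hom' {m : ℕ} {Γ : Type} [Group Γ] (lin : Γ →* GL (Fin (m + 2)) ℤ)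
    (P : GL (Fin (m + 2)) ℤ) (U : Γ → Matrix (Fin m) (Fin m) ℤ)
    (B : Γ → Matrix (Fin m) (Fin 2) ℤ) (A : Γ → Matrix (Fin 2) (Fin 2) ℤ)
    (hblock : ∀ γ : Γ, (P * lin γ * P⁻¹).val =
      Matrix.reindex finSumFinEquiv finSumFinEquiv (Matrix.fromBlocks (U γ) (B γ) 0 (A γ))) :
    ∃ M : Γ →* GL (Fin 2) ℤ, ∀ γ : Γ, (M γ : Matrix (Fin 2) (Fin 2) ℤ) = A γ := by
  have h1 : A 1 = 1 := by
    have h := hblock 1
    rw [map_one, mul_one, mul_inv_cancel, Units.val_one, Matrix.reindex_apply] at h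
    have h2 : (1 : Matrix (Fin m ⊕ Fin 2) (Fin m ⊕ Fin 2) ℤ) =
        Matrix.fromBlocks (U 1) (B 1) 0 (A 1) := by
      have h3 := congrArg (fun N => Matrix.submatrix N finSumFinEquiv finSumFinEquiv) h
      simpa using h3
    rw [← Matrix.fromBlocks_one, Matrix.fromBlocks_inj] at h2
    exact h2.2.2.2.symm
  have hm : ∀ γ γ' : Γ, A (γ * γ') = A γ * A γ' := by
    intro γ γ'
    have e : P * lin (γ * γ') * P⁻¹ = (P * lin γ * P⁻¹) * (P * lin γ' * P⁻¹) := by
      rw [map_mul]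
      group
    have h := (congrArg Units.val e).trans (Units.val_mul _ _)
    rw [hblock, hblock, hblock, Matrix.reindex_apply, Matrix.reindex_apply,
      Matrix.reindex_apply, Matrix.submatrix_mul_equiv, Matrix.fromBlocks_multiply] at h
    have h3 := congrArg (fun N => Matrix.submatrix N finSumFinEquiv finSumFinEquiv) h
    simp only [Matrix.submatrix_submatrix, Equiv.symm_comp_self, Matrix.submatrix_id_id] at h3
    rw [Matrix.fromBlocks_inj] at h3
    rw [h3.2.2.2, Matrix.zero_mul, zero_add]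
  refine ⟨{ toFun := fun γ => ⟨A γ, A γ⁻¹, ?_, ?_⟩, map_one' := ?_, map_mul' := ?_ },
    fun γ => rfl⟩
  · rw [← hm, mul_inv_cancel, h1]
  · rw [← hm, inv_mul_cancel, h1]
  · apply Units.ext
    exact h1
  · intro γ γ'
    apply Units.ext
    exact hm γ γ'

/-- The linear automorphism of an integral matrix. -/
private noncomputable def FnB_iota (n : ℕ) :
    GL (Fin n) ℤ →* ((Fin n → ℝ) ≃ₗ[ℝ] (Fin n → ℝ)) :=
  (LinearMap.GeneralLinearGroup.generalLinearEquiv ℝ (Fin n → ℝ)).toMonoidHom.comp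
    (Matrix.GeneralLinearGroup.toLin.toMonoidHom.comp
      (Matrix.GeneralLinearGroup.map (Int.castRingHom ℝ)))

private theorem FnB_apply {n : ℕ} (M : GL (Fin n) ℤ) (v : Fin n → ℝ) :
    FnB_iota n M v = (rM M).mulVec v := by
  rfl

/-- The coordinates in the blocks. -/
private noncomputable def FnB_split (k m : ℕ) :
    (Fin (k + m) → ℝ) ≃ₗ[ℝ] (Fin k → ℝ) × (Fin m → ℝ) :=
  (LinearEquiv.funCongrLeft ℝ ℝ (finSumFinEquiv (m := k) (n := m))).trans
    (LinearEquiv.sumArrowLequivProdArrow (Fin k) (Fin m) ℝ ℝ)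

private theorem FnB_split_snd {k m : ℕ} (x : Fin (k + m) → ℝ) (i : Fin m) :
    (FnB_split k m x).2 i = x (finSumFinEquiv (Sum.inr i)) := rfl

private theorem FnB_reindex {k m : ℕ} (N : Matrix (Fin k ⊕ Fin m) (Fin k ⊕ Fin m) ℝ)
    (x : Fin (k + m) → ℝ) (s : Fin k ⊕ Fin m) :
    (Matrix.reindex finSumFinEquiv finSumFinEquiv N).mulVec x (finSumFinEquiv s) =
      N.mulVec (x ∘ finSumFinEquiv) s := by
  rw [Matrix.mulVec, Matrix.mulVec, dotProduct, dotProduct,
    ← Equiv.sum_comp (finSumFinEquiv (m := k) (n := m))]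
  refine Finset.sum_congr rfl fun t _ => ?_
  rw [Matrix.reindex_apply, Matrix.submatrix_apply, Equiv.symm_apply_apply,
    Equiv.symm_apply_apply, Function.comp_apply]

private theorem FnB_block {k m : ℕ} (Q : GL (Fin (k + m)) ℤ) (U : Matrix (Fin k) (Fin k) ℤ)
    (B : Matrix (Fin k) (Fin m) ℤ) (A : Matrix (Fin m) (Fin m) ℤ)
    (hQ : Q.val = Matrix.reindex finSumFinEquiv finSumFinEquiv (Matrix.fromBlocks U B 0 A))
    (x : Fin (k + m) → ℝ) :
    FnB_split k m ((rM Q).mulVec x) =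
      ((U.map (fun a : ℤ => (a : ℝ))).mulVec (FnB_split k m x).1 +
        (B.map (fun a : ℤ => (a : ℝ))).mulVec (FnB_split k m x).2,
        (A.map (fun a : ℤ => (a : ℝ))).mulVec (FnB_split k m x).2) := by
  have h1 : rM Q = Matrix.reindex finSumFinEquiv finSumFinEquiv
      (Matrix.fromBlocks (U.map (fun a : ℤ => (a : ℝ))) (B.map (fun a : ℤ => (a : ℝ))) 0
        (A.map (fun a : ℤ => (a : ℝ)))) := by
    rw [rM, hQ]
    ext i j
    rw [Matrix.map_apply, Matrix.reindex_apply, Matrix.reindex_apply, Matrix.submatrix_apply,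
      Matrix.submatrix_apply]
    rcases finSumFinEquiv.symm i with i | i <;> rcases finSumFinEquiv.symm j with j | j
    · rfl
    · rfl
    · simp
    · rfl
  have h2 : ∀ s, (rM Q).mulVec x (finSumFinEquiv s) = Sum.elim
      ((U.map (fun a : ℤ => (a : ℝ))).mulVec (FnB_split k m x).1 +
        (B.map (fun a : ℤ => (a : ℝ))).mulVec (FnB_split k m x).2)
      ((A.map (fun a : ℤ => (a : ℝ))).mulVec (FnB_split k m x).2) s := by
    intro s
    rw [h1, FnB_reindex, Matrix.fromBlocks_mulVec]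
    have e1 : (x ∘ finSumFinEquiv) ∘ Sum.inl = (FnB_split k m x).1 := rfl
    have e2 : (x ∘ finSumFinEquiv) ∘ Sum.inr = (FnB_split k m x).2 := rfl
    rw [e1, e2, Matrix.zero_mulVec, zero_add]
  refine Prod.ext ?_ ?_
  · funext i
    exact h2 (Sum.inl i)
  · funext i
    exact h2 (Sum.inr i)

/-- the column of an upper unitriangular matrix -/
private theorem FnB_col {m : ℕ} (U : Matrix (Fin m) (Fin m) ℤ)
    (hU : ∀ i j : Fin m, (i = j → U i j = 1) ∧ (j < i → U i j = 0)) (i : Fin m) :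
    (U.map (fun a : ℤ => (a : ℝ))).mulVec (Pi.single i (1 : ℝ)) =
      Pi.single i (1 : ℝ) + ∑ j ∈ Finset.univ.filter (fun j => j < i),
        (U j i : ℝ) • (Pi.single j (1 : ℝ) : Fin m → ℝ) := by
  funext l
  rw [Matrix.mulVec_single_one, Pi.add_apply, Finset.sum_apply]
  show (U l i : ℝ) = _
  simp only [Pi.smul_apply, smul_eq_mul]
  rcases lt_trichotomy l i with h | h | h
  · rw [Pi.single_eq_of_ne h.ne, zero_add,
      Finset.sum_eq_single_of_mem l (Finset.mem_filter.2 ⟨Finset.mem_univ l, h⟩)]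
    · rw [Pi.single_eq_same, mul_one]
    · intro j _ hj
      rw [Pi.single_eq_of_ne hj.symm, mul_zero]
  · subst h
    rw [Pi.single_eq_same, (hU l l).1 rfl, Finset.sum_eq_zero]
    · simp
    · intro j hj
      have hj' : j < l := (Finset.mem_filter.1 hj).2
      rw [Pi.single_eq_of_ne hj'.ne', mul_zero]
  · rw [Pi.single_eq_of_ne h.ne', (hU l i).2 h, Finset.sum_eq_zero]
    · simp
    · intro j hj
      have hj' : j < i := (Finset.mem_filter.1 hj).2
      rw [Pi.single_eq_of_ne (hj'.trans h).ne', mul_zero]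

/-- PROOF: `Ψ x` = (first `m`, last 2 coordinates) of `(rM P).mulVec x`, a linear equivalence
`(Fin (m + 2) → ℝ) ≃ (Fin m → ℝ) × (Fin 2 → ℝ)` (see `FnA_split`, `FnA_block` in FnA.lean, private there: copy). Apply
`flow_complete` to `Ψ ∘ S.dev` with `W = Fin m → ℝ`, `L γ = Ψ ∘ rM (lin γ) ∘ Ψ⁻¹`, `A` from `exists_block_hom'`; `hW` from
`AfSys.unipotent` with `e i = (Pi.single i 1, 0)` (`exists_afSys`): `L γ (e i) - e i = ∑ j < i, U j i • e j`; the second
components of the translations are integral (`P`, `t` integral). -/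
theorem block_complete' {m : ℕ} (S : IntAffPair (m + 2)) (t : S.Γ → (Fin (m + 2) → ℤ))
    (ht : ∀ γ : S.Γ, S.trans γ = rV (t γ)) (P : GL (Fin (m + 2)) ℤ)
    (U : S.Γ → Matrix (Fin m) (Fin m) ℤ) (B : S.Γ → Matrix (Fin m) (Fin 2) ℤ)
    (A : S.Γ → Matrix (Fin 2) (Fin 2) ℤ)
    (hblock : ∀ γ : S.Γ, (P * S.lin γ * P⁻¹).val =
      Matrix.reindex finSumFinEquiv finSumFinEquiv (Matrix.fromBlocks (U γ) (B γ) 0 (A γ)))
    (hU : ∀ (γ : S.Γ) (i j : Fin m), (i = j → U γ i j = 1) ∧ (j < i → U γ i j = 0)) :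
    IsHomeomorph S.dev := by
  obtain ⟨M, hM⟩ := exists_block_hom' S.lin P U B A hblock
  let Ψ : (Fin (m + 2) → ℝ) ≃ₗ[ℝ] (Fin m → ℝ) × (Fin 2 → ℝ) :=
    (FnB_iota (m + 2) P).trans (FnB_split m 2)
  let H : (Fin (m + 2) → ℝ) ≃ₜ (Fin m → ℝ) × (Fin 2 → ℝ) :=
    Ψ.toContinuousLinearEquiv.toHomeomorph
  have hH : ∀ x, H x = Ψ x := fun x => rfl
  have hΨ : ∀ x, Ψ x = FnB_split m 2 ((rM P).mulVec x) := fun x => rfl
  let L : S.Γ →* (((Fin m → ℝ) × (Fin 2 → ℝ)) ≃ₗ[ℝ] ((Fin m → ℝ) × (Fin 2 → ℝ))) :=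
    { toFun := fun γ => (Ψ.symm.trans (FnB_iota (m + 2) (S.lin γ))).trans Ψ
      map_one' := by
        apply LinearEquiv.ext
        intro v
        rw [map_one, map_one]
        change Ψ (Ψ.symm v) = v
        exact Ψ.apply_symm_apply v
      map_mul' := by
        intro γ γ'
        apply LinearEquiv.ext
        intro v
        rw [map_mul, map_mul]
        change Ψ (FnB_iota (m + 2) (S.lin γ) (FnB_iota (m + 2) (S.lin γ') (Ψ.symm v))) =
          Ψ (FnB_iota (m + 2) (S.lin γ) (Ψ.symm (Ψ (FnB_iota (m + 2) (S.lin γ') (Ψ.symm v)))))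
        rw [Ψ.symm_apply_apply] }
  have hLd : ∀ γ x, L γ (Ψ x) = Ψ ((rM (S.lin γ)).mulVec x) := by
    intro γ x
    change Ψ (FnB_iota (m + 2) (S.lin γ) (Ψ.symm (Ψ x))) = _
    rw [Ψ.symm_apply_apply, FnB_apply]
  have hL : ∀ (γ : S.Γ) (v : Fin m → ℝ) (w : Fin 2 → ℝ), L γ (v, w) =
      (((U γ).map (fun a : ℤ => (a : ℝ))).mulVec v + ((B γ).map (fun a : ℤ => (a : ℝ))).mulVec w,
        (rM (M γ)).mulVec w) := by
    intro γ v w
    obtain ⟨u, hu⟩ := Ψ.surjective (v, w)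
    rw [← hu, hLd, hΨ]
    have h1 : (rM P).mulVec ((rM (S.lin γ)).mulVec u) =
        (rM (P * S.lin γ * P⁻¹)).mulVec ((rM P).mulVec u) := by
      rw [← FnB_apply, ← FnB_apply, ← FnB_apply, ← FnB_apply, ← LinearEquiv.mul_apply,
        ← LinearEquiv.mul_apply, ← map_mul, ← map_mul, inv_mul_cancel_right]
    have h2 : FnB_split m 2 ((rM P).mulVec u) = (v, w) := hu
    rw [h1, FnB_block _ _ _ _ (hblock γ), h2, rM, hM]
  have hD : IsLocalHomeomorph (H ∘ S.dev) := H.isLocalHomeomorph.comp S.isLocalHomeomorph_dev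
  have heq : ∀ (γ : S.Γ) (x : S.X), (H ∘ S.dev) (γ • x) = L γ ((H ∘ S.dev) x) + Ψ (rV (t γ)) := by
    intro γ x
    rw [Function.comp_apply, Function.comp_apply, hH, hH, hLd, S.dev_smul, ht, map_add]
    rfl
  have hW : ∀ w : Fin m → ℝ, ((w, 0) : (Fin m → ℝ) × (Fin 2 → ℝ)) ∈ Ec (H ∘ S.dev) hD := by
    obtain ⟨K, ε, T⟩ := exists_afSys hD heq S.cocompact
    have he : ∀ i : Fin m, ((Pi.single i 1, 0) : (Fin m → ℝ) × (Fin 2 → ℝ)) ∈
        Ec (H ∘ S.dev) hD := by
      refine T.unipotent (fun i => ((Pi.single i 1, 0) : (Fin m → ℝ) × (Fin 2 → ℝ))) ?_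
      intro γ i
      have h1 : L γ ((Pi.single i 1, 0) : (Fin m → ℝ) × (Fin 2 → ℝ)) -
          ((Pi.single i 1, 0) : (Fin m → ℝ) × (Fin 2 → ℝ)) =
          ∑ j ∈ Finset.univ.filter (fun j => j < i),
            (U γ j i : ℝ) • ((Pi.single j 1, 0) : (Fin m → ℝ) × (Fin 2 → ℝ)) := by
        rw [hL, Matrix.mulVec_zero, Matrix.mulVec_zero, add_zero, FnB_col (U γ) (hU γ) i]
        refine Prod.ext ?_ ?_
        · rw [Prod.fst_sub, Prod.fst_sum, add_sub_cancel_left]
          rfl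
        · rw [Prod.snd_sub, Prod.snd_sum]
          simp
      rw [h1]
      refine Submodule.sum_mem _ fun j hj => Submodule.smul_mem _ _ (Submodule.subset_span ?_)
      exact ⟨j, (Finset.mem_filter.1 hj).2, rfl⟩
    intro w
    have h1 : ((w, 0) : (Fin m → ℝ) × (Fin 2 → ℝ)) =
        ∑ i, w i • ((Pi.single i 1, 0) : (Fin m → ℝ) × (Fin 2 → ℝ)) := by
      refine Prod.ext ?_ ?_
      · rw [Prod.fst_sum]
        exact pi_eq_sum_univ' w
      · rw [Prod.snd_sum]
        simp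
    rw [h1]
    exact Submodule.sum_mem _ fun i _ => Submodule.smul_mem _ _ (he i)
  have hres : IsHomeomorph (H ∘ S.dev) := by
    refine flow_complete (L := L) (A := M) (b := fun γ => Ψ (rV (t γ))) hD heq S.cocompact ?_ hW ?_
    · rintro γ ⟨v, w⟩
      rw [hL]
    · intro γ
      refine ⟨fun i => (P.val.mulVec (t γ)) (finSumFinEquiv (Sum.inr i)), ?_⟩
      rw [hΨ]
      funext i
      rw [FnB_split_snd]
      change _ = (((P.val.mulVec (t γ)) (finSumFinEquiv (Sum.inr i)) : ℤ) : ℝ)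
      rw [Matrix.mulVec, Matrix.mulVec, dotProduct, dotProduct, Int.cast_sum]
      refine Finset.sum_congr rfl fun j _ => ?_
      rw [Int.cast_mul]
      rfl
  have hfin : S.dev = H.symm ∘ (H ∘ S.dev) := by
    funext x
    rw [Function.comp_apply, Function.comp_apply, H.symm_apply_apply]
  rw [hfin]
  exact H.symm.isHomeomorph.comp hres

end H83T
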