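import Mathlib

/-!
MP_7a8a58_gt, helper83, third part.  Invariant rational subspaces of `ℚ³` and integral bases.
Paper proof: /team-store/h83_7a8a58_T4.md
-/

set_option autoImplicit false

namespace H83T

/-- Bezout for two coordinates -/
private theorem RedA_two (a b : ℤ) : ∃ x y z w : ℤ, x * w - y * z = 1 ∧ z * a + w * b = 0 := by
  by_cases h : Int.gcd a b = 0
  · obtain ⟨rfl, rfl⟩ := Int.gcd_eq_zero_iff.1 h
    exact ⟨1, 0, 0, 1, by norm_num, by norm_num⟩
  · have hg : (Int.gcd a b : ℤ) ≠ 0 := by exact_mod_cast h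
    obtain ⟨a', ha⟩ : (Int.gcd a b : ℤ) ∣ a := Int.gcd_dvd_left a b
    obtain ⟨b', hb⟩ : (Int.gcd a b : ℤ) ∣ b := Int.gcd_dvd_right a b
    refine ⟨Int.gcdA a b, Int.gcdB a b, -b', a', ?_, ?_⟩
    · have h1 := Int.gcd_eq_gcd_ab a b
      have h2 : (Int.gcd a b : ℤ) * (Int.gcdA a b * a' - Int.gcdB a b * -b') =
          (Int.gcd a b : ℤ) * 1 := by
        calc (Int.gcd a b : ℤ) * (Int.gcdA a b * a' - Int.gcdB a b * -b')
            = ((Int.gcd a b : ℤ) * a') * Int.gcdA a b + ((Int.gcd a b : ℤ) * b') * Int.gcdB a b := by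
              ring
          _ = a * Int.gcdA a b + b * Int.gcdB a b := by rw [← ha, ← hb]
          _ = (Int.gcd a b : ℤ) * 1 := by rw [← h1, mul_one]
      exact mul_left_cancel₀ hg h2
    · calc -b' * a + a' * b = -b' * ((Int.gcd a b : ℤ) * a') + a' * ((Int.gcd a b : ℤ) * b') := by
            rw [← ha, ← hb]
        _ = 0 := by ring

/-- PROOF: Euclid's algorithm on two coordinates: multiply by matrices of `SL₂(ℤ)` acting on two coordinates
(`Int.gcd_eq_gcd_ab`): first make the last coordinate 0, then the middle one, then the first is `± gcd`. -/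
theorem exists_gl_three (v : Fin 3 → ℤ) (hv : v ≠ 0) :
    ∃ (Q : GL (Fin 3) ℤ) (d : ℤ), d ≠ 0 ∧ Q.val.mulVec v = ![d, 0, 0] := by
  obtain ⟨x, y, z, w, h1, h2⟩ := RedA_two (v 1) (v 2)
  obtain ⟨x', y', z', w', h3, h4⟩ := RedA_two (v 0) (x * v 1 + y * v 2)
  obtain ⟨Q₁, hQ₁⟩ : ∃ Q₁ : GL (Fin 3) ℤ, Q₁.val = !![1, 0, 0; 0, x, y; 0, z, w] :=
    ⟨Matrix.GeneralLinearGroup.mk'' !![1, 0, 0; 0, x, y; 0, z, w] (by
      have e : (!![1, 0, 0; 0, x, y; 0, z, w] : Matrix (Fin 3) (Fin 3) ℤ).det = 1 := by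
        rw [Matrix.det_fin_three]
        simp
        linarith
      rw [e]
      exact isUnit_one), rfl⟩
  obtain ⟨Q₂, hQ₂⟩ : ∃ Q₂ : GL (Fin 3) ℤ, Q₂.val = !![x', y', 0; z', w', 0; 0, 0, 1] :=
    ⟨Matrix.GeneralLinearGroup.mk'' !![x', y', 0; z', w', 0; 0, 0, 1] (by
      have e : (!![x', y', 0; z', w', 0; 0, 0, 1] : Matrix (Fin 3) (Fin 3) ℤ).det = 1 := by
        rw [Matrix.det_fin_three]
        simp
        linarith
      rw [e]
      exact isUnit_one), rfl⟩
  have e1 : Q₁.val.mulVec v = ![v 0, x * v 1 + y * v 2, 0] := by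
    rw [hQ₁]
    funext i
    fin_cases i
    · simp [Matrix.mulVec, dotProduct, Fin.sum_univ_three]
    · simp [Matrix.mulVec, dotProduct, Fin.sum_univ_three]
    · simp [Matrix.mulVec, dotProduct, Fin.sum_univ_three]
      exact h2
  have e2 : Q₂.val.mulVec ![v 0, x * v 1 + y * v 2, 0] =
      ![x' * v 0 + y' * (x * v 1 + y * v 2), 0, 0] := by
    rw [hQ₂]
    funext i
    fin_cases i
    · simp [Matrix.mulVec, dotProduct, Fin.sum_univ_three]
    · simp [Matrix.mulVec, dotProduct, Fin.sum_univ_three]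
      exact h4
    · simp [Matrix.mulVec, dotProduct, Fin.sum_univ_three]
  have e3 : (Q₂ * Q₁).val.mulVec v = ![x' * v 0 + y' * (x * v 1 + y * v 2), 0, 0] := by
    rw [Units.val_mul, ← Matrix.mulVec_mulVec, e1, e2]
  refine ⟨Q₂ * Q₁, _, ?_, e3⟩
  intro h
  rw [h] at e3
  apply hv
  have e4 : (Q₂ * Q₁)⁻¹.val.mulVec ((Q₂ * Q₁).val.mulVec v) = 0 := by
    rw [e3]
    have : (![0, 0, 0] : Fin 3 → ℤ) = 0 := by
      funext i
      fin_cases i <;> rfl
    rw [this, Matrix.mulVec_zero]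
  rwa [Matrix.mulVec_mulVec, ← Units.val_mul, inv_mul_cancel, Units.val_one,
    Matrix.one_mulVec] at e4

/-- the version for rows -/
private theorem RedA_row (ξ : Fin 3 → ℤ) (hξ : ξ ≠ 0) :
    ∃ (P : GL (Fin 3) ℤ) (d : ℤ), d ≠ 0 ∧ Matrix.vecMul ![0, 0, d] P.val = ξ := by
  obtain ⟨Q, d, hd, hQ⟩ := exists_gl_three (fun i => ξ i.rev) (by
    intro h
    apply hξ
    funext i
    have := congrFun h i.rev
    simpa using this)
  have h1 : (fun i => ξ i.rev) = Q⁻¹.val.mulVec ![d, 0, 0] := by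
    rw [← hQ, Matrix.mulVec_mulVec, ← Units.val_mul, inv_mul_cancel, Units.val_one,
      Matrix.one_mulVec]
  have h2 : ∀ X Y : Matrix (Fin 3) (Fin 3) ℤ, Y * X = 1 →
      (X.submatrix Fin.revPerm Fin.revPerm).transpose *
        (Y.submatrix Fin.revPerm Fin.revPerm).transpose = 1 := by
    intro X Y h
    rw [← Matrix.transpose_mul, Matrix.submatrix_mul_equiv, h, Matrix.submatrix_one_equiv,
      Matrix.transpose_one]
  refine ⟨⟨(Q⁻¹.val.submatrix Fin.revPerm Fin.revPerm).transpose,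
    (Q.val.submatrix Fin.revPerm Fin.revPerm).transpose, h2 _ _ (by
      rw [← Units.val_mul, mul_inv_cancel, Units.val_one]), h2 _ _ (by
      rw [← Units.val_mul, inv_mul_cancel, Units.val_one])⟩, d, hd, ?_⟩
  funext j
  have h3 := congrFun h1 j.rev
  simp only [Fin.rev_rev] at h3
  rw [h3]
  simp [Matrix.vecMul, Matrix.mulVec, dotProduct, Fin.sum_univ_three, mul_comm]

/-- clearing denominators -/
private theorem RedA_clear (f : Fin 3 → ℚ) : ∃ (b : ℤ) (u : Fin 3 → ℤ), b ≠ 0 ∧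
    ∀ i, (u i : ℚ) = b * f i := by
  obtain ⟨b, hb⟩ := IsLocalization.exist_integer_multiples_of_finite (nonZeroDivisors ℤ) f
  choose u hu using hb
  refine ⟨b, u, nonZeroDivisors.ne_zero b.2, fun i => ?_⟩
  have h := hu i
  rw [zsmul_eq_mul] at h
  exact h

private theorem RedA_block₁ (M : Matrix (Fin (2 + 1)) (Fin (2 + 1)) ℤ) (h0 : M 2 0 = 0)
    (h1 : M 2 1 = 0) : ∃ (A : Matrix (Fin 2) (Fin 2) ℤ) (B : Matrix (Fin 2) (Fin 1) ℤ)
        (d : Matrix (Fin 1) (Fin 1) ℤ), M =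
          Matrix.reindex finSumFinEquiv finSumFinEquiv (Matrix.fromBlocks A B 0 d) := by
  refine ⟨!![M 0 0, M 0 1; M 1 0, M 1 1], !![M 0 2; M 1 2], !![M 2 2], ?_⟩
  ext i j
  fin_cases i <;> fin_cases j
  · rfl
  · rfl
  · rfl
  · rfl
  · rfl
  · rfl
  · exact h0
  · exact h1
  · rfl

private theorem RedA_block₂ (M : Matrix (Fin (1 + 2)) (Fin (1 + 2)) ℤ) (h0 : M 1 0 = 0)
    (h1 : M 2 0 = 0) : ∃ (d : Matrix (Fin 1) (Fin 1) ℤ) (B : Matrix (Fin 1) (Fin 2) ℤ)
        (A : Matrix (Fin 2) (Fin 2) ℤ), M =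
          Matrix.reindex finSumFinEquiv finSumFinEquiv (Matrix.fromBlocks d B 0 A) := by
  refine ⟨!![M 0 0], !![M 0 1, M 0 2], !![M 1 1, M 1 2; M 2 1, M 2 2], ?_⟩
  ext i j
  fin_cases i <;> fin_cases j
  · rfl
  · rfl
  · rfl
  · exact h0
  · rfl
  · rfl
  · exact h1
  · rfl
  · rfl

/-- PROOF: if `finrank V = 1` choose an integral vector `v ≠ 0` in `V` (clear denominators) and `Q` with `Q v = (d, 0, 0)`: for
`g ∈ G`, `g v ∈ V = ℚ v`, so `Q g Q⁻¹ (1, 0, 0)` is a multiple of `(1, 0, 0)`: the second alternative with `P = Q`.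
If `finrank V = 2` there is an integral covector `ξ ≠ 0` with `V = {ξ = 0}`; `ξ g` vanishes on `V` too (`V` is invariant, `g` is
injective so `g V = V`), so `ξ g = c ξ`. `exists_gl_three` for `ξ` (reversed order of coordinates and transposed) gives
`P` with `ξ P⁻¹ = (0, 0, d)`; so the last row of `P g P⁻¹` is `(0, 0, c)`: the first alternative. -/
theorem exists_block_three (G : Subgroup (GL (Fin 3) ℤ)) (V : Submodule ℚ (Fin 3 → ℚ))
    (h0 : V ≠ ⊥) (h1 : V ≠ ⊤)
    (hinv : ∀ g ∈ G, ∀ v ∈ V, (g.val.map (fun a : ℤ => (a : ℚ))).mulVec v ∈ V) :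
    (∃ P : GL (Fin (2 + 1)) ℤ, ∀ g : GL (Fin (2 + 1)) ℤ, g ∈ G →
      ∃ (A : Matrix (Fin 2) (Fin 2) ℤ) (B : Matrix (Fin 2) (Fin 1) ℤ)
        (d : Matrix (Fin 1) (Fin 1) ℤ), (P * g * P⁻¹).val =
          Matrix.reindex finSumFinEquiv finSumFinEquiv (Matrix.fromBlocks A B 0 d)) ∨
    (∃ P : GL (Fin (1 + 2)) ℤ, ∀ g : GL (Fin (1 + 2)) ℤ, g ∈ G →
      ∃ (d : Matrix (Fin 1) (Fin 1) ℤ) (B : Matrix (Fin 1) (Fin 2) ℤ)
        (A : Matrix (Fin 2) (Fin 2) ℤ), (P * g * P⁻¹).val =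
          Matrix.reindex finSumFinEquiv finSumFinEquiv (Matrix.fromBlocks d B 0 A)) := by
  have hlt : Module.finrank ℚ V < 3 := by
    have h := Submodule.finrank_lt h1
    simpa using h
  have hpos : 1 ≤ Module.finrank ℚ V := Submodule.one_le_finrank_iff.2 h0
  have hcast : ∀ (g : GL (Fin 3) ℤ) (u : Fin 3 → ℤ) (i : Fin 3),
      (g.val.map (fun a : ℤ => (a : ℚ))).mulVec (fun i => (u i : ℚ)) i =
        ((g.val.mulVec u i : ℤ) : ℚ) := by
    intro g u i
    simp [Matrix.mulVec, dotProduct, Fin.sum_univ_three]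
  rcases (by omega : Module.finrank ℚ V = 1 ∨ Module.finrank ℚ V = 2) with h | h
  · right
    obtain ⟨v, hv, hspan⟩ := finrank_eq_one_iff'.1 h
    obtain ⟨b, u, hb, hu⟩ := RedA_clear (v : Fin 3 → ℚ)
    have hb' : (b : ℚ) ≠ 0 := by exact_mod_cast hb
    have huv : (fun i => (u i : ℚ)) = (b : ℚ) • (v : Fin 3 → ℚ) := by
      funext i
      rw [hu i]
      rfl
    have hu0 : u ≠ 0 := by
      rintro rfl
      apply hv
      apply Subtype.ext
      funext i
      have h2 := hu i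
      simp only [Pi.zero_apply, Int.cast_zero] at h2
      rcases mul_eq_zero.1 h2.symm with h3 | h3
      · exact absurd h3 hb'
      · exact h3
    obtain ⟨Q, d, hd, hQ⟩ := exists_gl_three u hu0
    refine ⟨Q, fun g hg => ?_⟩
    obtain ⟨c, hc⟩ : ∃ c : ℚ, ∀ i, ((g.val.mulVec u i : ℤ) : ℚ) = c * u i := by
      have h2 : (fun i => (u i : ℚ)) ∈ V := by
        rw [huv]
        exact V.smul_mem _ v.2
      obtain ⟨c', hc'⟩ := hspan ⟨_, hinv g hg _ h2⟩
      refine ⟨c' / b, fun i => ?_⟩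
      have h3 := congrFun (congrArg Subtype.val hc') i
      simp only [hcast] at h3
      rw [← h3, hu i]
      show c' * (v : Fin 3 → ℚ) i = _
      field_simp
    have hcu : (c.den : ℤ) • g.val.mulVec u = c.num • u := by
      funext i
      have h2 : ((c.den : ℤ) : ℚ) * ((g.val.mulVec u i : ℤ) : ℚ) = (c.num : ℚ) * u i := by
        rw [hc i, ← mul_assoc]
        congr 1
        rw [Int.cast_natCast, mul_comm]
        exact Rat.mul_den_eq_num c
      show (c.den : ℤ) * g.val.mulVec u i = c.num * u i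
      exact_mod_cast h2
    have hM : (c.den : ℤ) • (Q * g * Q⁻¹).val.mulVec ![d, 0, 0] = c.num • ![d, 0, 0] := by
      rw [← hQ, Matrix.mulVec_mulVec, ← Units.val_mul, inv_mul_cancel_right, Units.val_mul,
        ← Matrix.mulVec_mulVec, ← Matrix.mulVec_smul, hcu, Matrix.mulVec_smul]
    have hden : (c.den : ℤ) ≠ 0 := by exact_mod_cast c.den_nz
    obtain ⟨N, hN⟩ : ∃ N, N = (Q * g * Q⁻¹).val := ⟨_, rfl⟩
    rw [← hN] at hM
    show ∃ (d : Matrix (Fin 1) (Fin 1) ℤ) (B : Matrix (Fin 1) (Fin 2) ℤ)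
        (A : Matrix (Fin 2) (Fin 2) ℤ), (Q * g * Q⁻¹).val =
          Matrix.reindex finSumFinEquiv finSumFinEquiv (Matrix.fromBlocks d B 0 A)
    rw [← hN]
    refine RedA_block₂ _ ?_ ?_
    · have h2 := congrFun hM 1
      simp [Matrix.mulVec, dotProduct, Fin.sum_univ_three, hd] at h2
      exact h2
    · have h2 := congrFun hM 2
      simp [Matrix.mulVec, dotProduct, Fin.sum_univ_three, hd] at h2
      exact h2
  · left
    obtain ⟨φ, hφ, hφV⟩ := Submodule.exists_le_ker_of_lt_top V (lt_top_iff_ne_top.2 h1)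
    have hker : V = LinearMap.ker φ := by
      refine Submodule.eq_of_le_of_finrank_le hφV ?_
      have h2 : LinearMap.ker φ ≠ ⊤ := fun h3 => hφ (LinearMap.ker_eq_top.1 h3)
      have h3 := Submodule.finrank_lt h2
      simp only [Module.finrank_fintype_fun_eq_card, Fintype.card_fin] at h3
      omega
    obtain ⟨b, ξ, hb, hξ⟩ := RedA_clear (fun i => φ (Pi.single i 1))
    have hb' : (b : ℚ) ≠ 0 := by exact_mod_cast hb
    have hφξ : ∀ w : Fin 3 → ℚ, (b : ℚ) * φ w = ∑ i, (ξ i : ℚ) * w i := by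
      intro w
      have h2 : w = ∑ i, w i • (Pi.single i 1 : Fin 3 → ℚ) := by
        rw [← pi_eq_sum_univ' w]
      conv_lhs => rw [h2]
      rw [map_sum, Finset.mul_sum]
      refine Finset.sum_congr rfl fun i _ => ?_
      rw [map_smul, hξ i, smul_eq_mul]
      ring
    have hξ0 : ξ ≠ 0 := by
      rintro rfl
      apply hφ
      ext w
      have h2 := hφξ (Pi.single w 1)
      simp only [Pi.zero_apply, Int.cast_zero, zero_mul, Finset.sum_const_zero] at h2
      rcases mul_eq_zero.1 h2 with h3 | h3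
      · exact absurd h3 hb'
      · simpa using h3
    obtain ⟨P, d, hd, hP⟩ := RedA_row ξ hξ0
    obtain ⟨w₁, hw₁⟩ : ∃ w₁, φ w₁ = 1 := by
      obtain ⟨w, hw⟩ : ∃ w, φ w ≠ 0 := by
        by_contra hno
        push Not at hno
        exact hφ (LinearMap.ext hno)
      exact ⟨(φ w)⁻¹ • w, by rw [map_smul, smul_eq_mul, inv_mul_cancel₀ hw]⟩
    refine ⟨P, fun g hg => ?_⟩
    obtain ⟨c, hc⟩ : ∃ c : ℚ, ∀ w, φ ((g.val.map (fun a : ℤ => (a : ℚ))).mulVec w) = c * φ w := by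
      refine ⟨φ ((g.val.map (fun a : ℤ => (a : ℚ))).mulVec w₁), fun w => ?_⟩
      have h2 : w - φ w • w₁ ∈ V := by
        rw [hker, LinearMap.mem_ker, map_sub, map_smul, hw₁, smul_eq_mul, mul_one, sub_self]
      have h3 := hinv g hg _ h2
      rw [hker, LinearMap.mem_ker, Matrix.mulVec_sub, Matrix.mulVec_smul, map_sub, map_smul,
        smul_eq_mul, sub_eq_zero] at h3
      rw [h3, mul_comm]
    have hcξ : (c.den : ℤ) • Matrix.vecMul ξ g.val = c.num • ξ := by
      funext j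
      have h2 : ((Matrix.vecMul ξ g.val j : ℤ) : ℚ) = c * ξ j := by
        have h3 := hc (Pi.single j 1)
        have h4 : (b : ℚ) * φ ((g.val.map (fun a : ℤ => (a : ℚ))).mulVec (Pi.single j 1)) =
            ((Matrix.vecMul ξ g.val j : ℤ) : ℚ) := by
          rw [hφξ]
          simp [Matrix.vecMul, dotProduct]
        rw [← h4, h3, hξ j]
        ring
      have h3 : ((c.den : ℤ) : ℚ) * ((Matrix.vecMul ξ g.val j : ℤ) : ℚ) = (c.num : ℚ) * ξ j := by
        rw [h2, ← mul_assoc]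
        congr 1
        rw [Int.cast_natCast, mul_comm]
        exact Rat.mul_den_eq_num c
      show (c.den : ℤ) * Matrix.vecMul ξ g.val j = c.num * ξ j
      exact_mod_cast h3
    have hM : (c.den : ℤ) • Matrix.vecMul ![0, 0, d] (P * g * P⁻¹).val = c.num • ![0, 0, d] := by
      have h2 : Matrix.vecMul ξ P⁻¹.val = ![0, 0, d] := by
        rw [← hP, Matrix.vecMul_vecMul, ← Units.val_mul, mul_inv_cancel, Units.val_one,
          Matrix.vecMul_one]
      rw [Units.val_mul, Units.val_mul, ← Matrix.vecMul_vecMul, ← Matrix.vecMul_vecMul, hP,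
        ← Matrix.smul_vecMul, hcξ, Matrix.smul_vecMul, h2]
    have hden : (c.den : ℤ) ≠ 0 := by exact_mod_cast c.den_nz
    obtain ⟨N, hN⟩ : ∃ N, N = (P * g * P⁻¹).val := ⟨_, rfl⟩
    rw [← hN] at hM
    show ∃ (A : Matrix (Fin 2) (Fin 2) ℤ) (B : Matrix (Fin 2) (Fin 1) ℤ)
        (d : Matrix (Fin 1) (Fin 1) ℤ), (P * g * P⁻¹).val =
          Matrix.reindex finSumFinEquiv finSumFinEquiv (Matrix.fromBlocks A B 0 d)
    rw [← hN]
    refine RedA_block₁ _ ?_ ?_
    · have h2 := congrFun hM 0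
      simp [Matrix.vecMul, dotProduct, Fin.sum_univ_three, hd] at h2
      exact h2
    · have h2 := congrFun hM 1
      simp [Matrix.vecMul, dotProduct, Fin.sum_univ_three, hd] at h2
      exact h2

end H83T
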