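import Pool.Agent.H.MP_7a8a58_gt.h83c.FnMain
import Pool.Agent.H.MP_7a8a58_gt.h83c.FnB
import Pool.Agent.H.MP_7a8a58_gt.h83c.RedA

/-!
MP_7a8a58_gt, helper83, third part.  Final assembly.
Paper proof: /team-store/h83_7a8a58_T4.md
-/

set_option autoImplicit false

open Set Metric Topology Filter

namespace H83T

theorem finalU (m : ℕ) (S : IntAffPair (m + 2)) (Γ' : Subgroup S.Γ) (hΓ' : Γ'.FiniteIndex)
    (P : GL (Fin (m + 2)) ℤ)
    (U : S.Γ → Matrix (Fin m) (Fin m) ℤ) (B : S.Γ → Matrix (Fin m) (Fin 2) ℤ)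
    (A : S.Γ → Matrix (Fin 2) (Fin 2) ℤ)
    (hblock : ∀ γ ∈ Γ', (P * S.lin γ * P⁻¹).val =
      Matrix.reindex finSumFinEquiv finSumFinEquiv (Matrix.fromBlocks (U γ) (B γ) 0 (A γ)))
    (hU : ∀ γ ∈ Γ', ∀ i j : Fin m, (i = j → U γ i j = 1) ∧ (j < i → U γ i j = 0)) :
    ∃ (Φ : S.X ≃ₜ (Fin (m + 2) → ℝ)) (t : S.Γ → (Fin (m + 2) → ℤ)),
      ∀ (γ : S.Γ) (x : S.X), Φ (γ • x) = (rM (S.lin γ)).mulVec (Φ x) + rV (t γ) := by
  obtain ⟨D', t, hD', heq⟩ := S.exists_integral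
  let S' : IntAffPair (m + 2) :=
    { X := S.X
      Γ := S.Γ
      dev := D'
      lin := S.lin
      trans := fun γ => rV (t γ)
      isLocalHomeomorph_dev := hD'
      dev_smul := heq
      free := S.free
      cocompact := S.cocompact }
  have : Subgroup.FiniteIndex (G := S'.Γ) Γ' := hΓ'
  obtain ⟨T, e, f, h1, h2, h3⟩ := S'.exists_restrict Γ'
  have htr : ∀ γ : T.Γ, T.trans γ = rV (t (f γ : S.Γ)) := by
    intro γ
    have x : T.X := Classical.arbitrary T.X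
    have h4 := T.dev_smul γ x
    rw [h1, h2, h1, h3] at h4
    have h5 := S'.dev_smul (f γ : S.Γ) (e x)
    rw [h4] at h5
    exact add_left_cancel h5
  have hc : IsHomeomorph T.dev := by
    refine block_complete' T (fun γ => t (f γ : S.Γ)) htr P (fun γ => U (f γ : S.Γ))
      (fun γ => B (f γ : S.Γ)) (fun γ => A (f γ : S.Γ)) (fun γ => ?_) (fun γ => hU _ (f γ).2)
    rw [h3]
    exact hblock _ (f γ).2
  have hD'' : IsHomeomorph D' := by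
    have h6 : D' = T.dev ∘ e.symm := by
      funext x
      rw [Function.comp_apply, h1, e.apply_symm_apply]
    rw [h6]
    exact hc.comp e.symm.isHomeomorph
  exact ⟨hD''.homeomorph, t, heq⟩

private theorem FnC_kernel {Γ : Type} [Group Γ] (Γ' : Subgroup Γ) (hΓ' : Γ'.FiniteIndex)
    (c : Γ → ℤ) (h1 : c 1 = 1) (hmul : ∀ γ ∈ Γ', ∀ γ' ∈ Γ', c (γ * γ') = c γ * c γ') :
    ∃ Γ'' : Subgroup Γ, Γ''.FiniteIndex ∧ ∀ γ ∈ Γ'', γ ∈ Γ' ∧ c γ = 1 := by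
  let φ : Γ' →* ℤ :=
    { toFun := fun γ => c γ
      map_one' := h1
      map_mul' := fun a b => hmul a a.2 b b.2 }
  refine ⟨φ.toHomUnits.ker.map Γ'.subtype, ?_, ?_⟩
  · constructor
    rw [Subgroup.index_map_subtype]
    exact mul_ne_zero Subgroup.FiniteIndex.index_ne_zero hΓ'.index_ne_zero
  · intro γ hγ
    obtain ⟨g, hg, rfl⟩ := Subgroup.mem_map.1 hγ
    refine ⟨g.2, ?_⟩
    have h2 : φ.toHomUnits g = 1 := hg
    have h3 := congrArg Units.val h2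
    exact h3

private theorem FnC_mul {k m : ℕ} {M M' : Matrix (Fin (k + m)) (Fin (k + m)) ℤ}
    {A A' : Matrix (Fin k) (Fin k) ℤ} {B B' : Matrix (Fin k) (Fin m) ℤ}
    {D D' : Matrix (Fin m) (Fin m) ℤ}
    (h : M = Matrix.reindex finSumFinEquiv finSumFinEquiv (Matrix.fromBlocks A B 0 D))
    (h' : M' = Matrix.reindex finSumFinEquiv finSumFinEquiv (Matrix.fromBlocks A' B' 0 D')) :
    M * M' = Matrix.reindex finSumFinEquiv finSumFinEquiv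
      (Matrix.fromBlocks (A * A') (A * B' + B * D') 0 (D * D')) := by
  rw [h, h', Matrix.reindex_apply, Matrix.reindex_apply, Matrix.reindex_apply,
    Matrix.submatrix_mul_equiv, Matrix.fromBlocks_multiply]
  simp

private theorem FnC_inl {k m : ℕ} {M : Matrix (Fin (k + m)) (Fin (k + m)) ℤ}
    {A : Matrix (Fin k) (Fin k) ℤ} {B : Matrix (Fin k) (Fin m) ℤ}
    {D : Matrix (Fin m) (Fin m) ℤ}
    (h : M = Matrix.reindex finSumFinEquiv finSumFinEquiv (Matrix.fromBlocks A B 0 D))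
    (i j : Fin k) : M (finSumFinEquiv (Sum.inl i)) (finSumFinEquiv (Sum.inl j)) = A i j := by
  rw [h, Matrix.reindex_apply, Matrix.submatrix_apply, Equiv.symm_apply_apply,
    Equiv.symm_apply_apply, Matrix.fromBlocks_apply₁₁]

private theorem FnC_inr {k m : ℕ} {M : Matrix (Fin (k + m)) (Fin (k + m)) ℤ}
    {A : Matrix (Fin k) (Fin k) ℤ} {B : Matrix (Fin k) (Fin m) ℤ}
    {D : Matrix (Fin m) (Fin m) ℤ}
    (h : M = Matrix.reindex finSumFinEquiv finSumFinEquiv (Matrix.fromBlocks A B 0 D))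
    (i j : Fin m) : M (finSumFinEquiv (Sum.inr i)) (finSumFinEquiv (Sum.inr j)) = D i j := by
  rw [h, Matrix.reindex_apply, Matrix.submatrix_apply, Equiv.symm_apply_apply,
    Equiv.symm_apply_apply, Matrix.fromBlocks_apply₂₂]

private theorem FnC_conj {n : ℕ} {Γ : Type} [Group Γ] (lin : Γ →* GL (Fin n) ℤ)
    (P : GL (Fin n) ℤ) (γ γ' : Γ) :
    (P * lin (γ * γ') * P⁻¹).val = (P * lin γ * P⁻¹).val * (P * lin γ' * P⁻¹).val := by
  rw [← Units.val_mul, map_mul]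
  congr 1
  group

private theorem FnC_caseA (S : IntAffPair (2 + 1)) (Γ' : Subgroup S.Γ) (hΓ' : Γ'.FiniteIndex)
    (P : GL (Fin (2 + 1)) ℤ)
    (h : ∀ γ ∈ Γ', ∃ (A : Matrix (Fin 2) (Fin 2) ℤ) (B : Matrix (Fin 2) (Fin 1) ℤ)
        (d : Matrix (Fin 1) (Fin 1) ℤ), (P * S.lin γ * P⁻¹).val =
          Matrix.reindex finSumFinEquiv finSumFinEquiv (Matrix.fromBlocks A B 0 d)) :
    ∃ (Φ : S.X ≃ₜ (Fin (2 + 1) → ℝ)) (t : S.Γ → (Fin (2 + 1) → ℤ)),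
      ∀ (γ : S.Γ) (x : S.X), Φ (γ • x) = (rM (S.lin γ)).mulVec (Φ x) + rV (t γ) := by
  classical
  obtain ⟨Γ'', h1, h2⟩ := FnC_kernel Γ' hΓ'
    (fun γ => (P * S.lin γ * P⁻¹).val (finSumFinEquiv (Sum.inr 0)) (finSumFinEquiv (Sum.inr 0)))
    (by
      show (P * S.lin 1 * P⁻¹).val _ _ = 1
      rw [map_one, mul_one, mul_inv_cancel, Units.val_one, Matrix.one_apply_eq])
    (by
      intro γ hγ γ' hγ'
      obtain ⟨A, B, d, e⟩ := h γ hγ
      obtain ⟨A', B', d', e'⟩ := h γ' hγ'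
      show (P * S.lin (γ * γ') * P⁻¹).val _ _ = (P * S.lin γ * P⁻¹).val _ _ *
        (P * S.lin γ' * P⁻¹).val _ _
      rw [FnC_conj, FnC_inr (FnC_mul e e'), FnC_inr e, FnC_inr e', Matrix.mul_apply,
        Fin.sum_univ_one])
  choose! A B d hAB using h
  refine finalT 2 1 S Γ'' h1 P A B (fun γ hγ => ?_) (Or.inl rfl)
  obtain ⟨h3, h4⟩ := h2 γ hγ
  have h5 := hAB γ h3
  have h6 : d γ = 1 := by
    ext i j
    rw [Subsingleton.elim i 0, Subsingleton.elim j 0, ← FnC_inr h5 0 0, Matrix.one_apply_eq]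
    exact h4
  rw [h5, h6]

private theorem FnC_caseB (S : IntAffPair (1 + 2)) (Γ' : Subgroup S.Γ) (hΓ' : Γ'.FiniteIndex)
    (P : GL (Fin (1 + 2)) ℤ)
    (h : ∀ γ ∈ Γ', ∃ (d : Matrix (Fin 1) (Fin 1) ℤ) (B : Matrix (Fin 1) (Fin 2) ℤ)
        (A : Matrix (Fin 2) (Fin 2) ℤ), (P * S.lin γ * P⁻¹).val =
          Matrix.reindex finSumFinEquiv finSumFinEquiv (Matrix.fromBlocks d B 0 A)) :
    ∃ (Φ : S.X ≃ₜ (Fin (1 + 2) → ℝ)) (t : S.Γ → (Fin (1 + 2) → ℤ)),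
      ∀ (γ : S.Γ) (x : S.X), Φ (γ • x) = (rM (S.lin γ)).mulVec (Φ x) + rV (t γ) := by
  classical
  obtain ⟨Γ'', h1, h2⟩ := FnC_kernel Γ' hΓ'
    (fun γ => (P * S.lin γ * P⁻¹).val (finSumFinEquiv (Sum.inl 0)) (finSumFinEquiv (Sum.inl 0)))
    (by
      show (P * S.lin 1 * P⁻¹).val _ _ = 1
      rw [map_one, mul_one, mul_inv_cancel, Units.val_one, Matrix.one_apply_eq])
    (by
      intro γ hγ γ' hγ'
      obtain ⟨A, B, d, e⟩ := h γ hγ
      obtain ⟨A', B', d', e'⟩ := h γ' hγ'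
      show (P * S.lin (γ * γ') * P⁻¹).val _ _ = (P * S.lin γ * P⁻¹).val _ _ *
        (P * S.lin γ' * P⁻¹).val _ _
      rw [FnC_conj, FnC_inl (FnC_mul e e'), FnC_inl e, FnC_inl e', Matrix.mul_apply,
        Fin.sum_univ_one])
  choose! d B A hAB using h
  refine finalU 1 S Γ'' h1 P d B A (fun γ hγ => hAB γ (h2 γ hγ).1) (fun γ hγ i j => ?_)
  obtain ⟨h3, h4⟩ := h2 γ hγ
  have h5 := hAB γ h3
  refine ⟨fun _ => ?_, fun hij => ?_⟩
  · rw [Subsingleton.elim i 0, Subsingleton.elim j 0, ← FnC_inl h5 0 0]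
    exact h4
  · rw [Subsingleton.elim i 0, Subsingleton.elim j 0] at hij
    exact absurd hij (lt_irrefl _)

/-- Dimension three, monodromy virtually reducible over `ℚ`.
PROOF: `exists_block_three` for the image of `Γ'` under `lin`. `d γ` is `± 1` (a 1×1 unit, by multiplicativity of the block);
`{γ ∈ Γ' | d γ = 1}` has index at most 2 in `Γ'` (kernel of a homomorphism to `ℤˣ`; or `γ * γ' ` argument), so it has finite
index; apply `finalT` (`k = 2`, `m = 1`) or `finalU` (`m = 1`). -/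
theorem final3 (S : IntAffPair 3) (Γ' : Subgroup S.Γ) (hΓ' : Γ'.FiniteIndex)
    (V : Submodule ℚ (Fin 3 → ℚ)) (h0 : V ≠ ⊥) (h1 : V ≠ ⊤)
    (hinv : ∀ γ ∈ Γ', ∀ v ∈ V, ((S.lin γ).val.map (fun a : ℤ => (a : ℚ))).mulVec v ∈ V) :
    ∃ (Φ : S.X ≃ₜ (Fin 3 → ℝ)) (t : S.Γ → (Fin 3 → ℤ)),
      ∀ (γ : S.Γ) (x : S.X), Φ (γ • x) = (rM (S.lin γ)).mulVec (Φ x) + rV (t γ) := by
  have hG : ∀ g ∈ Γ'.map S.lin, ∀ v ∈ V,
      (g.val.map (fun a : ℤ => (a : ℚ))).mulVec v ∈ V := by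
    rintro g hg v hv
    obtain ⟨γ, hγ, rfl⟩ := Subgroup.mem_map.1 hg
    exact hinv γ hγ v hv
  rcases exists_block_three (Γ'.map S.lin) V h0 h1 hG with ⟨P, hP⟩ | ⟨P, hP⟩
  · exact FnC_caseA S Γ' hΓ' P fun γ hγ => hP (S.lin γ) (Subgroup.mem_map.2 ⟨γ, hγ, rfl⟩)
  · exact FnC_caseB S Γ' hΓ' P fun γ hγ => hP (S.lin γ) (Subgroup.mem_map.2 ⟨γ, hγ, rfl⟩)

end H83T
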