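import Mathlib

/-!
MP_7a8a58_gt, helper83, second part.  The stabiliser of a leaf acts cocompactly.
Paper proof: /team-store/h83_7a8a58_T3.md
-/

set_option autoImplicit false

open Set Metric Topology Filter

namespace H83T

variable {X : Type*} [TopologicalSpace X] [T2Space X] {Γ : Type*} [Group Γ] [MulAction Γ X]
  [ContinuousConstSMul Γ X] {F : Type*} [NormedAddCommGroup F]

/-- Translates of components of a level set by elements that preserve the level set.
PROOF: `γ • ·` is a homeomorphism of the level set onto itself (`β γ = 0`), so it maps the component of `x` onto the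
component of `γ • x`. -/
theorem component_smul {q : X → F} {β : Γ → F} (hβ : ∀ (γ : Γ) (x : X), q (γ • x) = q x + β γ)
    {p : F} {γ : Γ} (hγ : β γ = 0) {x y : X} (hx : q x = p) :
    y ∈ connectedComponentIn {z | q z = p} x ↔
      γ • y ∈ connectedComponentIn {z | q z = p} (γ • x) := by
  have key : ∀ (g : Γ) (x y : X), β g = 0 → q x = p →
      y ∈ connectedComponentIn {z | q z = p} x →
      g • y ∈ connectedComponentIn {z | q z = p} (g • x) := by
    intro g x y hg hx hy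
    have h1 : IsPreconnected ((fun z : X => g • z) '' connectedComponentIn {z | q z = p} x) :=
      isPreconnected_connectedComponentIn.image _ (continuous_const_smul g).continuousOn
    have h2 : (fun z : X => g • z) '' connectedComponentIn {z | q z = p} x ⊆ {z | q z = p} := by
      rintro _ ⟨z, hz, rfl⟩
      have h3 : z ∈ {z | q z = p} := connectedComponentIn_subset _ _ hz
      have h4 : q z = p := h3
      change q (g • z) = p
      rw [hβ, hg, h4, add_zero]
    exact h1.subset_connectedComponentIn ⟨x, mem_connectedComponentIn hx, rfl⟩ h2 ⟨y, hy, rfl⟩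
  refine ⟨key γ x y hγ hx, fun h => ?_⟩
  have hi : β γ⁻¹ = 0 := by
    have h1 := hβ γ⁻¹ (γ • x)
    rw [inv_smul_smul, hβ, hγ, add_zero] at h1
    exact (left_eq_add.mp h1)
  have hx' : q (γ • x) = p := by rw [hβ, hγ, hx, add_zero]
  have h2 := key γ⁻¹ (γ • x) (γ • y) hi hx' h
  rwa [inv_smul_smul, inv_smul_smul] at h2

/-- PROOF. `K` from `hco`; `q '' K` is bounded, so for `x` with `q x = p` and `γ • x ∈ K` the value `β γ = q (γ • x) - p` lies
in a finite set; choose `g_i` with `β g_i` the `i`-th value: `g_i⁻¹ * γ` has `β = 0` (`β` is additive: `β (γ γ') = β γ + β γ'`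
from `hβ` at `x₀`). So `K' = ⋃ i, g_i⁻¹ • K ∩ {q = p}` is compact and every point of `{q = p}` is moved into `K'` by some
`γ` with `β γ = 0`. Let `Y` be the component of `x₀`; `Y` is closed in `X` and `{q = p} \ Y` is relatively closed too (`hloc`).
Cover the compact set `K' ∩ {z | ∃ h, β h = 0 ∧ h • z ∈ Y}` (closed: its complement in `{q = p}` is a union of
components, open by `hloc`) by the sets `{z | h • z ∈ Y}`, `β h = 0`, relatively open by `hloc`: finitely many
`h_1, …, h_m`. `K'' = Y ∩ ⋃ j, h_j • K'` is compact. If `y ∈ Y`, choose `γ` with `β γ = 0`, `γ • y ∈ K'`; then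
`h_j • γ • y ∈ Y` for some `j`; `h_j * γ` maps `Y` onto `Y` (`component_smul`). -/
theorem leaf_cocompact {q : X → F} (hq : Continuous q) {β : Γ → F}
    (hβ : ∀ (γ : Γ) (x : X), q (γ • x) = q x + β γ)
    (hfin : ∀ R : ℝ, {z : F | (∃ γ : Γ, β γ = z) ∧ ‖z‖ ≤ R}.Finite)
    (hco : ∃ K : Set X, IsCompact K ∧ ∀ x : X, ∃ γ : Γ, γ • x ∈ K)
    {p : F} {x₀ : X} (hx₀ : q x₀ = p)
    (hloc : ∀ x : X, q x = p → ∃ U ∈ 𝓝 x, ∀ y ∈ U, q y = p →
      y ∈ connectedComponentIn {z | q z = p} x) :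
    ∃ K' : Set X, IsCompact K' ∧ K' ⊆ connectedComponentIn {z | q z = p} x₀ ∧
      ∀ y ∈ connectedComponentIn {z | q z = p} x₀, ∃ γ : Γ,
        (∀ z : X, γ • z ∈ connectedComponentIn {z | q z = p} x₀ ↔
          z ∈ connectedComponentIn {z | q z = p} x₀) ∧ γ • y ∈ K' := by
  classical
  have hmul : ∀ g h : Γ, β (g * h) = β g + β h := by
    intro g h
    have h1 := hβ (g * h) x₀
    rw [mul_smul, hβ, hβ, add_assoc] at h1
    rw [← add_left_cancel h1, add_comm]
  have hone : β 1 = 0 := by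
    have h1 := hmul 1 1
    rw [mul_one] at h1
    exact (left_eq_add.mp h1)
  have hinv : ∀ g : Γ, β g⁻¹ = - β g := by
    intro g
    have h1 := hmul g⁻¹ g
    rw [inv_mul_cancel, hone] at h1
    exact eq_neg_of_add_eq_zero_left h1.symm
  have hSc : IsClosed {z | q z = p} := isClosed_eq hq continuous_const
  set S : Set X := {z | q z = p} with hS
  set Y : Set X := connectedComponentIn S x₀ with hY
  have hYS : Y ⊆ S := connectedComponentIn_subset _ _
  have hsm : ∀ (g : Γ) (z : X), β g = 0 → z ∈ S → g • z ∈ S := by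
    intro g z hg hz
    have hz' : q z = p := hz
    change q (g • z) = p
    rw [hβ, hg, hz', add_zero]
  -- the component of a point of `Y`
  have hYc : ∀ y ∈ Y, connectedComponentIn S y = Y := fun y hy => (connectedComponentIn_eq hy).symm
  -- local constancy
  have hlc : ∀ z ∈ S, ∃ U ∈ 𝓝 z, ∀ g : Γ, β g = 0 → ∀ y ∈ U, y ∈ S →
      (g • y ∈ Y ↔ g • z ∈ Y) := by
    intro z hz
    obtain ⟨U, hU, hUy⟩ := hloc z hz
    refine ⟨U, hU, fun g hg y hy hyS => ?_⟩
    have h1 : y ∈ connectedComponentIn S z := hUy y hy hyS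
    have h2 : g • y ∈ connectedComponentIn S (g • z) := (component_smul hβ hg hz).mp h1
    have h3 := connectedComponentIn_eq h2
    constructor
    · intro h4
      have h5 := mem_connectedComponentIn (hsm g z hg hz)
      rwa [h3, hYc _ h4] at h5
    · intro h4
      rwa [hYc _ h4] at h2
  -- a compact set that meets the orbits of the level set
  obtain ⟨K, hK, hKc⟩ := hco
  obtain ⟨R, hR⟩ := (hK.image hq).isBounded.exists_norm_le
  have hVf := hfin (R + ‖p‖)
  set V : Set F := {z : F | (∃ γ : Γ, β γ = z) ∧ ‖z‖ ≤ R + ‖p‖} with hV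
  have hVex : ∀ z : F, ∃ g : Γ, z ∈ V → β g = z := by
    intro z
    by_cases h : z ∈ V
    · obtain ⟨g, hg⟩ := h.1
      exact ⟨g, fun _ => hg⟩
    · exact ⟨1, fun h' => absurd h' h⟩
  choose g hg using hVex
  set K₁ : Set X := (⋃ z ∈ V, (fun x : X => (g z)⁻¹ • x) '' K) ∩ S with hK₁
  have hK₁c : IsCompact K₁ :=
    (hVf.isCompact_biUnion fun z _ => hK.image (continuous_const_smul _)).inter_right hSc
  have hmove : ∀ x ∈ S, ∃ γ : Γ, β γ = 0 ∧ γ • x ∈ K₁ := by
    intro x hx
    obtain ⟨γ, hγ⟩ := hKc x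
    have hx' : q x = p := hx
    have h1 : β γ ∈ V := by
      refine ⟨⟨γ, rfl⟩, ?_⟩
      have h2 : β γ = q (γ • x) - p := by rw [hβ, hx', add_sub_cancel_left]
      rw [h2]
      exact (norm_sub_le _ _).trans (add_le_add (hR _ ⟨_, hγ, rfl⟩) le_rfl)
    have h3 : β ((g (β γ))⁻¹ * γ) = 0 := by
      rw [hmul, hinv, hg _ h1, neg_add_cancel]
    refine ⟨(g (β γ))⁻¹ * γ, h3, ?_, hsm _ _ h3 hx⟩
    refine mem_iUnion₂.mpr ⟨β γ, h1, γ • x, hγ, ?_⟩
    change (g (β γ))⁻¹ • γ • x = _
    rw [mul_smul]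
  -- the part of it that can be moved into `Y`
  have hT : IsClosed {z | z ∈ S ∧ ∃ h : Γ, β h = 0 ∧ h • z ∈ Y} := by
    refine isClosed_of_closure_subset fun z hz => ?_
    have hzS : z ∈ S := hSc.closure_subset_iff.mpr (fun w hw => hw.1) hz
    obtain ⟨U, hU, hUy⟩ := hlc z hzS
    obtain ⟨w, hwU, hwS, h, hh, hwY⟩ := mem_closure_iff_nhds.mp hz U hU
    exact ⟨hzS, h, hh, (hUy h hh w hwU hwS).mp hwY⟩
  have hYcl : IsClosed Y := by
    refine isClosed_of_closure_subset fun z hz => ?_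
    have hzS : z ∈ S := hSc.closure_subset_iff.mpr hYS hz
    obtain ⟨U, hU, hUy⟩ := hlc z hzS
    obtain ⟨w, hwU, hwY⟩ := mem_closure_iff_nhds.mp hz U hU
    have h1 := hUy 1 hone w hwU (hYS hwY)
    rw [one_smul, one_smul] at h1
    exact h1.mp hwY
  have hK₂c : IsCompact (K₁ ∩ {z | z ∈ S ∧ ∃ h : Γ, β h = 0 ∧ h • z ∈ Y}) :=
    hK₁c.inter_right hT
  obtain ⟨t, ht⟩ := hK₂c.elim_finite_subcover
    (fun h : {h : Γ // β h = 0} => interior {z | z ∈ S → h.1 • z ∈ Y})
    (fun h => isOpen_interior) (by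
      rintro z ⟨-, hzS, h, hh, hz⟩
      refine mem_iUnion.mpr ⟨⟨h, hh⟩, ?_⟩
      rw [mem_interior_iff_mem_nhds]
      obtain ⟨U, hU, hUy⟩ := hlc z hzS
      filter_upwards [hU] with w hwU hwS
      exact (hUy h hh w hwU hwS).mpr hz)
  refine ⟨Y ∩ ⋃ h ∈ t, (fun x : X => h.1 • x) '' K₁, ?_, inter_subset_left, ?_⟩
  · exact (t.finite_toSet.isCompact_biUnion
      fun h _ => hK₁c.image (continuous_const_smul _)).inter_left hYcl
  · intro y hy
    obtain ⟨γ, hγ, hγy⟩ := hmove y (hYS hy)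
    have h1 : γ • y ∈ K₁ ∩ {z | z ∈ S ∧ ∃ h : Γ, β h = 0 ∧ h • z ∈ Y} := by
      refine ⟨hγy, hγy.2, γ⁻¹, ?_, ?_⟩
      · rw [hinv, hγ, neg_zero]
      · rwa [inv_smul_smul]
    obtain ⟨h, hht, hh⟩ := mem_iUnion₂.mp (ht h1)
    have h2 : h.1 • γ • y ∈ Y := interior_subset hh hγy.2
    have h3 : β (h.1 * γ) = 0 := by rw [hmul, h.2, hγ, add_zero]
    have h4 : (h.1 * γ) • y ∈ Y := by rwa [mul_smul]
    refine ⟨h.1 * γ, fun z => ?_, h4, ?_⟩
    · have h5 := component_smul hβ h3 (x := y) (y := z) (hYS hy)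
      rw [hYc _ hy, hYc _ h4] at h5
      exact h5.symm
    · refine mem_iUnion₂.mpr ⟨h, hht, γ • y, hγy, ?_⟩
      change h.1 • γ • y = _
      rw [mul_smul]

end H83T
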