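import Mathlib

/-!
MP_7a8a58_gt, helper83, second part.  Leaves of a local homeomorphism to a product.
Paper proof: /team-store/h83_7a8a58_T3.md
-/

set_option autoImplicit false

open Set Metric Topology Filter

namespace H83T

variable {V F : Type*} [NormedAddCommGroup V] [NormedSpace ℝ V] [NormedAddCommGroup F]
  [NormedSpace ℝ F] {X : Type*} [TopologicalSpace X]

/-- a chart and a product neighbourhood whose slice is in the component -/
private theorem LfB_chart {D : X → V × F} (hD : IsLocalHomeomorph D) {p : F} {x : X}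
    (hx : (D x).2 = p) : ∃ (e : OpenPartialHomeomorph X (V × F)) (r : ℝ), 0 < r ∧ x ∈ e.source ∧
      D = e ∧ ball (D x) r ⊆ e.target ∧ ∀ v ∈ ball (D x).1 r,
        e.symm (v, p) ∈ connectedComponentIn {z | (D z).2 = p} x := by
  obtain ⟨e, hxe, he⟩ := hD x
  have hDx : D x = ((D x).1, p) := Prod.ext rfl hx
  have ht : e.target ∈ 𝓝 (D x) := by
    rw [he]
    exact e.open_target.mem_nhds (e.map_source hxe)
  obtain ⟨r, hr, hrt⟩ := Metric.mem_nhds_iff.1 ht
  refine ⟨e, r, hr, hxe, he, hrt, ?_⟩
  have hsub : ball (D x).1 r ×ˢ {p} ⊆ e.target := by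
    rintro ⟨v, q⟩ ⟨hv, hq⟩
    apply hrt
    rw [mem_singleton_iff] at hq
    simp only at hv hq
    subst hq
    rw [hDx, ← ball_prod_same]
    exact ⟨hv, mem_ball_self hr⟩
  have hC : IsPreconnected (e.symm '' (ball (D x).1 r ×ˢ {p})) := by
    refine IsPreconnected.image ?_ _ (e.symm.continuousOn.mono hsub)
    exact ((convex_ball _ _).prod (convex_singleton p)).isPreconnected
  have hCs : e.symm '' (ball (D x).1 r ×ˢ {p}) ⊆ {z | (D z).2 = p} := by
    rintro _ ⟨w, hw, rfl⟩
    have h1 : D (e.symm w) = w := by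
      rw [he]
      exact e.right_inv (hsub hw)
    show (D (e.symm w)).2 = p
    rw [h1]
    exact hw.2
  have hxC : x ∈ e.symm '' (ball (D x).1 r ×ˢ {p}) := by
    refine ⟨D x, ⟨mem_ball_self hr, hx⟩, ?_⟩
    rw [he]
    exact e.left_inv hxe
  intro v hv
  exact hC.subset_connectedComponentIn hxC hCs ⟨(v, p), ⟨hv, rfl⟩, rfl⟩

/-- PROOF: chart `e` of `D` at `x`, `r > 0` with `ball (D x).1 r ×ˢ ball (D x).2 r ⊆ e.target`. The set
`e.symm '' (ball (D x).1 r ×ˢ {p})` is connected (convex set), contains `x`, is contained in the level set and contains all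
points of the level set in the open set `e.symm '' (ball (D x).1 r ×ˢ ball p r)`. -/
theorem level_loc {D : X → V × F} (hD : IsLocalHomeomorph D) {p : F} {x : X}
    (hx : (D x).2 = p) : ∃ U ∈ 𝓝 x, ∀ y ∈ U, (D y).2 = p →
      y ∈ connectedComponentIn {z | (D z).2 = p} x := by
  obtain ⟨e, r, hr, hxe, he, hrt, hC⟩ := LfB_chart hD hx
  refine ⟨e.source ∩ D ⁻¹' ball (D x) r, ?_, ?_⟩
  · exact inter_mem (e.open_source.mem_nhds hxe)
      (hD.continuous.continuousAt.preimage_mem_nhds (ball_mem_nhds _ hr))
  · rintro y ⟨hy, hyr⟩ hyp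
    have h1 : y = e.symm ((D y).1, p) := by
      have h2 : ((D y).1, p) = e y := by
        rw [← he]
        exact Prod.ext rfl hyp.symm
      rw [h2]
      exact (e.left_inv hy).symm
    rw [h1]
    refine hC _ ?_
    rw [mem_preimage, show D x = ((D x).1, (D x).2) from rfl, ← ball_prod_same] at hyr
    exact hyr.1

/-- PROOF: `Y` is relatively open in the level set (`level_loc`: the component of `x ∈ Y` is `Y`). For `x ∈ Y`, with a
chart `e` at `x` whose small product neighbourhood `W` satisfies `W ∩ {(D z).2 = p} ⊆ Y`, the restriction of `D₁` to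
`Y ∩ W` is an open embedding onto `ball (D x).1 r` (inverse `v ↦ e.symm (v, p)`). Use
`isLocalHomeomorph_iff_isOpenEmbedding_restrict` or build the `OpenPartialHomeomorph`. -/
theorem leaf_isLocalHomeomorph {D : X → V × F} (hD : IsLocalHomeomorph D) {p : F} {x₀ : X}
    (hx₀ : (D x₀).2 = p) :
    IsLocalHomeomorph
      (fun y : connectedComponentIn {z : X | (D z).2 = p} x₀ => (D (y : X)).1) := by
  classical
  refine IsLocalHomeomorph.mk _ fun x => ?_
  have hlev : ∀ y : connectedComponentIn {z : X | (D z).2 = p} x₀, (D (y : X)).2 = p :=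
    fun y => connectedComponentIn_subset {z : X | (D z).2 = p} x₀ y.2
  have hxp := hlev x
  obtain ⟨e, r, hr, hxe, he, hrt, hC⟩ := LfB_chart hD hxp
  have hcc : connectedComponentIn {z : X | (D z).2 = p} (x : X) =
      connectedComponentIn {z : X | (D z).2 = p} x₀ := (connectedComponentIn_eq x.2).symm
  rw [hcc] at hC
  have hDx : D (x : X) = ((D (x : X)).1, p) := Prod.ext rfl hxp
  have htar : ∀ v ∈ ball (D (x : X)).1 r, (v, p) ∈ e.target := by
    intro v hv
    apply hrt
    rw [hDx, ← ball_prod_same]
    exact ⟨hv, mem_ball_self hr⟩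
  have hcd : Continuous fun y : connectedComponentIn {z : X | (D z).2 = p} x₀ => D (y : X) :=
    hD.continuous.comp continuous_subtype_val
  refine ⟨{
    toFun := fun y => (D (y : X)).1
    invFun := fun v => if h : v ∈ ball (D (x : X)).1 r then ⟨e.symm (v, p), hC v h⟩ else x
    source := {y | (y : X) ∈ e.source ∧ D (y : X) ∈ ball (D (x : X)) r}
    target := ball (D (x : X)).1 r
    map_source' := ?_
    map_target' := ?_
    left_inv' := ?_
    right_inv' := ?_
    open_source := ?_
    open_target := isOpen_ball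
    continuousOn_toFun := (continuous_fst.comp hcd).continuousOn
    continuousOn_invFun := ?_ }, ?_, fun _ _ => rfl⟩
  · rintro y ⟨-, hy⟩
    rw [show D (x : X) = ((D (x : X)).1, (D (x : X)).2) from rfl, ← ball_prod_same] at hy
    exact hy.1
  · intro v hv
    simp only [dif_pos hv]
    have h1 := htar v hv
    have h2 : D (e.symm (v, p)) = (v, p) := by
      rw [he]
      exact e.right_inv h1
    refine ⟨e.map_target h1, ?_⟩
    show D (e.symm (v, p)) ∈ ball (D (x : X)) r
    rw [h2, hDx, ← ball_prod_same]
    exact ⟨hv, mem_ball_self hr⟩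
  · rintro y ⟨hy1, hy⟩
    have hy0 : (D (y : X)).1 ∈ ball (D (x : X)).1 r := by
      rw [show D (x : X) = ((D (x : X)).1, (D (x : X)).2) from rfl, ← ball_prod_same] at hy
      exact hy.1
    simp only [dif_pos hy0]
    apply Subtype.ext
    simp only
    have h2 : ((D (y : X)).1, p) = e (y : X) := by
      rw [← he]
      exact Prod.ext rfl (hlev y).symm
    rw [h2]
    exact e.left_inv hy1
  · intro v hv
    simp only [dif_pos hv]
    have h2 : D (e.symm (v, p)) = (v, p) := by
      rw [he]
      exact e.right_inv (htar v hv)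
    rw [h2]
  · rw [Topology.IsInducing.subtypeVal.continuousOn_iff]
    have h1 : ContinuousOn (fun v : V => e.symm (v, p)) (ball (D (x : X)).1 r) := by
      refine e.symm.continuousOn.comp (by fun_prop) ?_
      intro v hv
      exact htar v hv
    refine h1.congr ?_
    intro v hv
    simp only [Function.comp_apply, dif_pos hv]
  · exact (e.open_source.preimage continuous_subtype_val).inter (isOpen_ball.preimage hcd)
  · exact ⟨hxe, mem_ball_self hr⟩

end H83T
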