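import Pool.Agent.H.MP_7a8a58_gt.h83c.PlA
import Pool.Agent.H.MP_7a8a58_gt.h83c.LfA
import Pool.Agent.H.MP_7a8a58_gt.h83c.LfB

/-!
MP_7a8a58_gt, helper83, second part.  Completeness from the completeness of closed leaves.
Paper proof: /team-store/h83_7a8a58_T3.md
-/

set_option autoImplicit false

open Set Metric Topology Filter

namespace H83T

/-- `V` has the Markus property for the linear parts `A γ`: every developing pair with linear holonomy factoring
through `A` and cocompact action is complete. -/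
def MarkusP {V : Type} [NormedAddCommGroup V] [NormedSpace ℝ V] {Γ : Type} [Group Γ]
    (A : Γ →* (V ≃ₗ[ℝ] V)) : Prop :=
  ∀ (Y : Type) [TopologicalSpace Y] [T2Space Y] [ConnectedSpace Y] (G : Type) [Group G]
    [MulAction G Y] [ContinuousConstSMul G Y] [ProperlyDiscontinuousSMul G Y] (f : G →* Γ)
    (D₁ : Y → V) (b : G → V), IsLocalHomeomorph D₁ →
    (∀ (g : G) (y : Y), D₁ (g • y) = A (f g) (D₁ y) + b g) →
    (∃ K : Set Y, IsCompact K ∧ ∀ y : Y, ∃ g : G, g • y ∈ K) → IsHomeomorph D₁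

variable {V F : Type} [NormedAddCommGroup V] [NormedSpace ℝ V] [FiniteDimensional ℝ V]
  [NormedAddCommGroup F] [NormedSpace ℝ F] [FiniteDimensional ℝ F]
variable {X : Type} [TopologicalSpace X] [T2Space X] {Γ : Type} [Group Γ] [MulAction Γ X]
  [ContinuousConstSMul Γ X] [ProperlyDiscontinuousSMul Γ X]

/-- The leaves are complete.
PROOF: `p = (D x₀).2`, `Y = connectedComponentIn {z | (D z).2 = p} x₀` as a subtype (connected: it contains `x₀`;
`isPreconnected_connectedComponentIn`). `G` = the subgroup of all `γ` with `∀ z, γ • z ∈ Y ↔ z ∈ Y`, acting on the subtype `Y`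
(properly discontinuous: images of compact sets of `Y` in `X` are compact). `D₁ y = (D y).1` is a local homeomorphism
(`leaf_isLocalHomeomorph`), `D₁ (g • y) = A g (D₁ y) + (B g p + (b g).1)`. Cocompactness: `leaf_cocompact` with
`q = fun x => (D x).2`, `β γ = (b γ).2`, `level_loc`. `hM` gives that `D₁` is a homeomorphism; the lift of the segment is
`t ↦ D₁⁻¹ ((D x₀).1 + t • v)`. -/
theorem leaf_dom {L : Γ →* ((V × F) ≃ₗ[ℝ] (V × F))} {A : Γ →* (V ≃ₗ[ℝ] V)}
    {B : Γ → (F →ₗ[ℝ] V)} (hL : ∀ (γ : Γ) (v : V) (w : F), L γ (v, w) = (A γ v + B γ w, w))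
    {b : Γ → V × F} {D : X → V × F} (hD : IsLocalHomeomorph D)
    (heq : ∀ (γ : Γ) (x : X), D (γ • x) = L γ (D x) + b γ)
    (hco : ∃ K : Set X, IsCompact K ∧ ∀ x : X, ∃ γ : Γ, γ • x ∈ K)
    (hfin : ∀ R : ℝ, {z : F | (∃ γ : Γ, (b γ).2 = z) ∧ ‖z‖ ≤ R}.Finite)
    (hM : MarkusP A) (x₀ : X) (v : V) : ((v, 0) : V × F) ∈ Dom D x₀ := by
  obtain ⟨p, hp⟩ : ∃ p, p = (D x₀).2 := ⟨_, rfl⟩
  obtain ⟨Y, hY⟩ : ∃ Y : Set X, Y = connectedComponentIn {z | (D z).2 = p} x₀ := ⟨_, rfl⟩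
  have hx₀ : x₀ ∈ Y := by
    rw [hY]
    exact mem_connectedComponentIn hp.symm
  have hYS : ∀ y ∈ Y, (D y).2 = p := by
    intro y hy
    rw [hY] at hy
    have h1 := connectedComponentIn_subset {z | (D z).2 = p} x₀ hy
    exact h1
  have hYc : IsConnected Y := by
    refine ⟨⟨x₀, hx₀⟩, ?_⟩
    rw [hY]
    exact isPreconnected_connectedComponentIn
  let G : Subgroup Γ :=
    { carrier := {γ | ∀ z : X, γ • z ∈ Y ↔ z ∈ Y}
      mul_mem' := by
        intro a c ha hc z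
        rw [mul_smul, ha, hc]
      one_mem' := by
        intro z
        rw [one_smul]
      inv_mem' := by
        intro a ha z
        rw [← ha (a⁻¹ • z), smul_inv_smul] }
  let act : MulAction G Y :=
    { smul := fun g y => ⟨(g : Γ) • (y : X), (g.2 (y : X)).2 y.2⟩
      one_smul := fun y => Subtype.ext (one_smul Γ (y : X))
      mul_smul := fun g h y => Subtype.ext (mul_smul (g : Γ) (h : Γ) (y : X)) }
  have hsm : ∀ (g : G) (y : Y), ((g • y : Y) : X) = (g : Γ) • (y : X) := fun _ _ => rfl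
  have : ConnectedSpace Y := Subtype.connectedSpace hYc
  have : ContinuousConstSMul G Y :=
    ⟨fun g => Continuous.subtype_mk ((continuous_const_smul (g : Γ)).comp continuous_subtype_val) _⟩
  have : ProperlyDiscontinuousSMul G Y := by
    refine ⟨fun {K₁ K₂} hK₁ hK₂ => ?_⟩
    have h1 := ProperlyDiscontinuousSMul.finite_disjoint_inter_image (Γ := Γ)
      (hK₁.image continuous_subtype_val) (hK₂.image continuous_subtype_val)
    refine (h1.preimage (f := ((↑) : G → Γ)) Subtype.val_injective.injOn).subset ?_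
    rintro g ⟨z, ⟨y, hy, hyz⟩, hz⟩
    refine ⟨(z : X), ⟨(y : X), ⟨y, hy, rfl⟩, ?_⟩, ⟨z, hz, rfl⟩⟩
    rw [← hyz]
    rfl
  have hlh : IsLocalHomeomorph (fun y : Y => (D (y : X)).1) := by
    subst hY
    exact leaf_isLocalHomeomorph hD hp.symm
  have heq' : ∀ (g : G) (y : Y), (D ((g • y : Y) : X)).1 =
      A (G.subtype g) (D (y : X)).1 + (B (g : Γ) p + (b (g : Γ)).1) := by
    intro g y
    rw [hsm, heq]
    have h1 : D (y : X) = ((D (y : X)).1, (D (y : X)).2) := rfl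
    rw [h1, hL, hYS _ y.2, Prod.fst_add, add_assoc]
    rfl
  have hβ : ∀ (γ : Γ) (x : X), (D (γ • x)).2 = (D x).2 + (b γ).2 := by
    intro γ x
    rw [heq]
    have h1 : D x = ((D x).1, (D x).2) := rfl
    rw [h1, hL, Prod.snd_add]
  have hco' : ∃ K : Set Y, IsCompact K ∧ ∀ y : Y, ∃ g : G, g • y ∈ K := by
    obtain ⟨K', hK', hK'Y, hcov⟩ := leaf_cocompact (q := fun x => (D x).2)
      (continuous_snd.comp hD.continuous) (β := fun γ => (b γ).2) hβ hfin hco hp.symm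
      (fun x hx => level_loc hD hx)
    rw [← hY] at hK'Y hcov
    refine ⟨((↑) : Y → X) ⁻¹' K', ?_, ?_⟩
    · rw [Subtype.isCompact_iff, Subtype.image_preimage_coe, inter_eq_right.2 hK'Y]
      exact hK'
    · rintro ⟨y, hy⟩
      obtain ⟨γ, hγ, hγK⟩ := hcov y hy
      exact ⟨⟨γ, hγ⟩, hγK⟩
  have H := hM Y G G.subtype (fun y => (D (y : X)).1) (fun g => B (g : Γ) p + (b (g : Γ)).1)
    hlh heq' hco'
  let φ := H.homeomorph
  have hφ : ∀ z : V, (D ((φ.symm z : Y) : X)).1 = z := fun z => φ.apply_symm_apply z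
  have h0 : φ.symm (D x₀).1 = ⟨x₀, hx₀⟩ := by
    rw [Homeomorph.symm_apply_eq]
    rfl
  refine ⟨((φ.symm ((D x₀).1 + (1 : ℝ) • v) : Y) : X),
    fun t => ((φ.symm ((D x₀).1 + t • v) : Y) : X), ?_, ?_, rfl, ?_⟩
  · apply Continuous.continuousOn
    exact continuous_subtype_val.comp (φ.symm.continuous.comp (by fun_prop))
  · beta_reduce
    rw [zero_smul, add_zero, h0]
  · intro t _
    beta_reduce
    apply Prod.ext
    · rw [hφ]
      rfl
    · rw [hYS _ (φ.symm ((D x₀).1 + t • v)).2, hp]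
      simp

/-- PROOF: `(v, 0) ∈ Ec D hD` for all `v` by `leaf_dom`; `(0, w) ∈ Ec D hD` by `AfSys.lemmaB` with `w' = w₀ = (0, w)`:
`w₀ - L γ w₀ = (- B γ w, 0)`. So `Ec = ⊤`, `isHomeomorph_of_Ec_top`. -/
theorem leaf_complete [ConnectedSpace X] {L : Γ →* ((V × F) ≃ₗ[ℝ] (V × F))}
    {A : Γ →* (V ≃ₗ[ℝ] V)}
    {B : Γ → (F →ₗ[ℝ] V)} (hL : ∀ (γ : Γ) (v : V) (w : F), L γ (v, w) = (A γ v + B γ w, w))
    {b : Γ → V × F} {D : X → V × F} (hD : IsLocalHomeomorph D)
    (heq : ∀ (γ : Γ) (x : X), D (γ • x) = L γ (D x) + b γ)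
    (hco : ∃ K : Set X, IsCompact K ∧ ∀ x : X, ∃ γ : Γ, γ • x ∈ K)
    (hfin : ∀ R : ℝ, {z : F | (∃ γ : Γ, (b γ).2 = z) ∧ ‖z‖ ≤ R}.Finite)
    (hM : MarkusP A) : IsHomeomorph D := by
  have hV : ∀ v : V, ((v, 0) : V × F) ∈ Ec D hD := by
    intro v
    rw [mem_Ec]
    intro x t
    have h := leaf_dom hL hD heq hco hfin hM x (t • v)
    have h2 : t • ((v, 0) : V × F) = (t • v, 0) := by rw [Prod.smul_mk, smul_zero]
    rw [h2]
    exact h
  obtain ⟨K, ε, S⟩ := exists_afSys hD heq hco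
  have hF : ∀ w : F, ((0, w) : V × F) ∈ Ec D hD := by
    intro w
    refine S.lemmaB ⟨‖((0, w) : V × F)‖, fun γ => ⟨(0, w), le_rfl, ?_⟩⟩
    rw [hL]
    have h2 : ((0, w) : V × F) - (A γ 0 + B γ w, w) = (-B γ w, 0) := by
      rw [map_zero, zero_add, Prod.mk_sub_mk, zero_sub, sub_self]
    rw [h2]
    exact hV _
  refine isHomeomorph_of_Ec_top hD ?_
  rw [Submodule.eq_top_iff']
  rintro ⟨v, w⟩
  have h3 : ((v, w) : V × F) = (v, 0) + (0, w) := by
    rw [Prod.mk_add_mk, add_zero, zero_add]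
  rw [h3]
  exact add_mem (hV v) (hF w)

end H83T
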