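import Pool.Agent.H.MP_7a8a58_gt.h83.Vc

/-!
MP_7a8a58_gt, helper83, second part.  Developing pairs with arbitrary linear holonomy.
Paper proof: /team-store/h83_7a8a58_T3.md
-/

set_option autoImplicit false

open Set Metric Topology Filter

namespace H83T

/-- Hypotheses: developing pair `(D, L, b)`, a compact set `K` meeting all orbits, and a uniform
chart radius `ε` on `K`. -/
structure AfSys {E : Type*} [NormedAddCommGroup E] [NormedSpace ℝ E]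
    {X : Type*} [TopologicalSpace X] {Γ : Type*} [Group Γ] [MulAction Γ X]
    (D : X → E) (L : Γ →* (E ≃ₗ[ℝ] E)) (b : Γ → E) (K : Set X) (ε : ℝ) : Prop where
  hD : IsLocalHomeomorph D
  eqv : ∀ (γ : Γ) (x : X), D (γ • x) = L γ (D x) + b γ
  hK : IsCompact K
  cov : ∀ x : X, ∃ γ : Γ, ∃ y ∈ K, x = γ • y
  ε_pos : 0 < ε
  chart : ∀ y ∈ K, closedBall (0 : E) ε ⊆ Dom D y

/-- `γ` is valid at `x`: `x = γ y` with `y ∈ K`. -/
def Val {X : Type*} {Γ : Type*} [Group Γ] [MulAction Γ X] (K : Set X) (x : X) (γ : Γ) : Prop :=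
  ∃ y ∈ K, x = γ • y

/-- The norm of `w` in the chart of `γ`: `‖L γ⁻¹ w‖`. -/
def Nm {E : Type*} [NormedAddCommGroup E] [NormedSpace ℝ E] {Γ : Type*} [Group Γ]
    (L : Γ →* (E ≃ₗ[ℝ] E)) (γ : Γ) (w : E) : ℝ := ‖L γ⁻¹ w‖

section norm

variable {E : Type*} [NormedAddCommGroup E] [NormedSpace ℝ E] {Γ : Type*} [Group Γ]

theorem Nm_nonneg (L : Γ →* (E ≃ₗ[ℝ] E)) (γ : Γ) (w : E) : 0 ≤ Nm L γ w := norm_nonneg _

theorem Nm_smul (L : Γ →* (E ≃ₗ[ℝ] E)) (γ : Γ) (t : ℝ) (w : E) :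
    Nm L γ (t • w) = |t| * Nm L γ w := by
  unfold Nm
  rw [map_smul, norm_smul, Real.norm_eq_abs]

theorem Nm_add_le (L : Γ →* (E ≃ₗ[ℝ] E)) (γ : Γ) (v w : E) :
    Nm L γ (v + w) ≤ Nm L γ v + Nm L γ w := by
  unfold Nm
  rw [map_add]
  exact norm_add_le _ _

theorem Nm_pos (L : Γ →* (E ≃ₗ[ℝ] E)) (γ : Γ) {w : E} (hw : w ≠ 0) : 0 < Nm L γ w := by
  unfold Nm
  rw [norm_pos_iff]
  exact fun h => hw ((L γ⁻¹).map_eq_zero_iff.mp h)

end norm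

variable {E : Type*} [NormedAddCommGroup E] [NormedSpace ℝ E]
variable {X : Type*} [TopologicalSpace X] [T2Space X]
variable {Γ : Type*} [Group Γ] [MulAction Γ X] [ContinuousConstSMul Γ X]
variable {D : X → E} {L : Γ →* (E ≃ₗ[ℝ] E)} {b : Γ → E} {K : Set X} {ε : ℝ}

theorem AfSys.exists_val (S : AfSys D L b K ε) (x : X) : ∃ γ : Γ, Val K x γ := by
  obtain ⟨γ, y, hy, hx⟩ := S.cov x
  exact ⟨γ, y, hy, hx⟩

theorem AfSys.smul_dom (S : AfSys D L b K ε) (γ : Γ) {x : X} {v : E} (hv : v ∈ Dom D x) :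
    L γ v ∈ Dom D (γ • x) ∧ ex D (γ • x) (L γ v) = γ • ex D x v :=
  equivariant S.hD (continuous_const_smul γ) (L γ : E →ₗ[ℝ] E) (fun x => S.eqv γ x) hv

theorem AfSys.smul_dom_iff (S : AfSys D L b K ε) (γ : Γ) {x : X} {v : E} :
    L γ v ∈ Dom D (γ • x) ↔ v ∈ Dom D x := by
  refine ⟨fun h => ?_, fun h => (S.smul_dom γ h).1⟩
  have h1 := (S.smul_dom γ⁻¹ h).1
  rw [inv_smul_smul, map_inv] at h1
  have h2 : (L γ)⁻¹ (L γ v) = v := (L γ).symm_apply_apply v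
  rwa [h2] at h1

/-- PROOF: `w = L γ (L γ⁻¹ w)`, `chart` at `y` and `smul_dom`. -/
theorem AfSys.chart_val (S : AfSys D L b K ε) {x : X} {γ : Γ} (hγ : Val K x γ) {w : E}
    (hw : Nm L γ w ≤ ε) : w ∈ Dom D x := by
  obtain ⟨y, hy, rfl⟩ := hγ
  have h1 : L γ⁻¹ w ∈ Dom D y := S.chart y hy (by rwa [mem_closedBall, dist_zero_right])
  have h2 := (S.smul_dom γ h1).1
  rw [map_inv] at h2
  have h3 : L γ ((L γ)⁻¹ w) = w := (L γ).apply_symm_apply w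
  rwa [h3] at h2

/-- Comparability.
PROOF (as `CycSys.comparable` in h83/Sys.lean): `K₁ = (fun p => ex D p.1 p.2) '' (K ×ˢ closedBall 0 ε)` is
compact; the set `F` of `g` with `g • K₁ ∩ K ≠ ∅` is finite. If `x = γ • y` and `w = L γ v` with
`v = L γ⁻¹ w`, `‖v‖ ≤ ε`, then `ex D x w = γ • ex D y v`; if this is `γ' • y'` then `γ'⁻¹ γ ∈ F`. Let `C` bound the
operator norms of `L g` and `L g⁻¹`, `g ∈ F` (`LinearMap.toContinuousLinearMap`, finite dimension);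
`L γ'⁻¹ z = L (γ'⁻¹ γ) (L γ⁻¹ z)`. -/
theorem AfSys.comp [FiniteDimensional ℝ E] [ProperlyDiscontinuousSMul Γ X]
    (S : AfSys D L b K ε) : ∃ C : ℝ, 1 ≤ C ∧ ∀ (x : X) (γ : Γ) (w : E) (γ' : Γ),
      Val K x γ → Nm L γ w ≤ ε → Val K (ex D x w) γ' →
      ∀ z : E, Nm L γ' z ≤ C * Nm L γ z ∧ Nm L γ z ≤ C * Nm L γ' z := by
  classical
  set K₁ : Set X := (fun p : X × E => ex D p.1 p.2) '' (K ×ˢ closedBall (0 : E) ε) with hK₁
  have hK₁c : IsCompact K₁ := by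
    refine (S.hK.prod (isCompact_closedBall 0 ε)).image_of_continuousOn ?_
    exact (continuousOn_ex2 S.hD).mono (fun p hp => S.chart p.1 hp.1 hp.2)
  have hfin : Set.Finite {γ : Γ | (((γ • ·) '' K₁) ∩ K).Nonempty} := by
    exact ProperlyDiscontinuousSMul.finite_disjoint_inter_image (Γ := Γ) hK₁c S.hK
  -- bound of the operator norms on the finite set
  obtain ⟨C1, hC1⟩ := (hfin.image
    (fun g : Γ => ‖LinearMap.toContinuousLinearMap (L g : E →ₗ[ℝ] E)‖)).bddAbove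
  obtain ⟨C2, hC2⟩ := (hfin.image
    (fun g : Γ => ‖LinearMap.toContinuousLinearMap (L g⁻¹ : E →ₗ[ℝ] E)‖)).bddAbove
  have hle : ∀ (g : Γ) (u : E),
      ‖L g u‖ ≤ ‖LinearMap.toContinuousLinearMap (L g : E →ₗ[ℝ] E)‖ * ‖u‖ := fun g u =>
    (LinearMap.toContinuousLinearMap (L g : E →ₗ[ℝ] E)).le_opNorm u
  refine ⟨max (max C1 C2) 1, le_max_right _ _, ?_⟩
  intro x γ w γ' hγ hw hγ' z
  obtain ⟨y, hy, rfl⟩ := hγ
  obtain ⟨y', hy', hxy⟩ := hγ'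
  have hwv : L γ (L γ⁻¹ w) = w := by
    rw [map_inv]
    exact (L γ).apply_symm_apply w
  have hvb : L γ⁻¹ w ∈ closedBall (0 : E) ε := by
    rw [mem_closedBall, dist_zero_right]
    exact hw
  have h1 := (S.smul_dom γ (S.chart y hy hvb)).2
  rw [hwv] at h1
  rw [h1] at hxy
  have hg : γ'⁻¹ * γ ∈ {γ : Γ | (((γ • ·) '' K₁) ∩ K).Nonempty} := by
    refine ⟨y', ⟨ex D y (L γ⁻¹ w), ⟨(y, L γ⁻¹ w), ⟨hy, hvb⟩, rfl⟩, ?_⟩, hy'⟩
    change (γ'⁻¹ * γ) • ex D y (L γ⁻¹ w) = y'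
    rw [mul_smul, hxy, inv_smul_smul]
  have e1 : L γ'⁻¹ z = L (γ'⁻¹ * γ) (L γ⁻¹ z) := by
    rw [← LinearEquiv.mul_apply, ← map_mul]
    congr 2
    group
  have e2 : L γ⁻¹ z = L (γ'⁻¹ * γ)⁻¹ (L γ'⁻¹ z) := by
    rw [← LinearEquiv.mul_apply, ← map_mul]
    congr 2
    group
  have hm0 : (0 : ℝ) ≤ max (max C1 C2) 1 := zero_le_one.trans (le_max_right _ _)
  constructor
  · unfold Nm
    rw [e1]
    refine (hle _ _).trans (mul_le_mul_of_nonneg_right ?_ (norm_nonneg _))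
    exact (hC1 ⟨_, hg, rfl⟩).trans ((le_max_left _ _).trans (le_max_left _ _))
  · unfold Nm
    rw [e2]
    refine (hle _ _).trans (mul_le_mul_of_nonneg_right ?_ (norm_nonneg _))
    exact (hC2 ⟨_, hg, rfl⟩).trans ((le_max_right _ _).trans (le_max_left _ _))

/-- PROOF: `N = ex D x '' closedBall 0 r` (small `r`, `isOpen_dom`, `continuousOn_ex`) is compact and a
neighbourhood of `x` (`nhds_eq_map_ex`); the set of `γ` with `γ • K ∩ N ≠ ∅` is finite. -/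
theorem AfSys.locfin [FiniteDimensional ℝ E] [ProperlyDiscontinuousSMul Γ X]
    (S : AfSys D L b K ε) (x : X) : ∃ U ∈ 𝓝 x, ∃ F : Set Γ, F.Finite ∧
      ∀ x' ∈ U, ∀ γ : Γ, Val K x' γ → γ ∈ F := by
  obtain ⟨r, hr, hball⟩ := Metric.nhds_basis_closedBall.mem_iff.mp
    ((isOpen_dom S.hD x).mem_nhds (zero_mem_dom D x))
  have hN : IsCompact (ex D x '' closedBall (0 : E) r) :=
    (isCompact_closedBall 0 r).image_of_continuousOn ((continuousOn_ex S.hD x).mono hball)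
  refine ⟨ex D x '' closedBall (0 : E) r, ?_,
    {γ : Γ | (((γ • ·) '' K) ∩ (ex D x '' closedBall (0 : E) r)).Nonempty}, ?_, ?_⟩
  · rw [nhds_eq_map_ex S.hD x]
    exact image_mem_map (closedBall_mem_nhds 0 hr)
  · exact ProperlyDiscontinuousSMul.finite_disjoint_inter_image (Γ := Γ) S.hK hN
  · rintro x' hx' γ ⟨y, hy, rfl⟩
    exact ⟨γ • y, ⟨y, hy, rfl⟩, hx'⟩

/-- Lemma B.
PROOF: as `CycSys.lemmaB` in h83/Sys.lean, with `γ` valid at `x` in place of `k`. -/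
theorem AfSys.lemmaB (S : AfSys D L b K ε) {w₀ : E}
    (h : ∃ C : ℝ, ∀ γ : Γ, ∃ w' : E, ‖w'‖ ≤ C ∧ w₀ - L γ w' ∈ Ec D S.hD) :
    w₀ ∈ Ec D S.hD := by
  obtain ⟨C, hC⟩ := h
  have hC1 : 0 < |C| + 1 := by positivity
  refine mem_Ec_of_small S.hD (δ := ε / (|C| + 1)) (div_pos S.ε_pos hC1) ?_
  intro x t ht
  obtain ⟨γ, hγ⟩ := S.exists_val x
  obtain ⟨w', hw', hw⟩ := hC γ
  have h0 : L γ⁻¹ (L γ (t • w')) = t • w' := by
    rw [map_inv]
    exact (L γ).symm_apply_apply _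
  have h1 : Nm L γ (L γ (t • w')) ≤ ε := by
    unfold Nm
    rw [h0, norm_smul, Real.norm_eq_abs]
    have h2 : ‖w'‖ ≤ |C| + 1 := hw'.trans ((le_abs_self C).trans (by linarith))
    calc |t| * ‖w'‖ ≤ ε / (|C| + 1) * (|C| + 1) :=
          mul_le_mul ht.le h2 (norm_nonneg _) (div_pos S.ε_pos hC1).le
      _ = ε := div_mul_cancel₀ _ hC1.ne'
  have h2 := S.chart_val hγ h1
  have h3 := (add_dom S.hD ((Ec D S.hD).smul_mem t hw) h2).1
  have h4 : L γ (t • w') + t • (w₀ - L γ w') = t • w₀ := by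
    rw [map_smul, smul_sub]
    abel
  rwa [h4] at h3

/-- PROOF: as at the beginning of `markus_virtually_cyclic` (h83/Vc.lean), `exists_chart_radius`. -/
theorem exists_afSys {D : X → E} {L : Γ →* (E ≃ₗ[ℝ] E)} {b : Γ → E}
    (hD : IsLocalHomeomorph D) (heq : ∀ (γ : Γ) (x : X), D (γ • x) = L γ (D x) + b γ)
    (hco : ∃ K : Set X, IsCompact K ∧ ∀ x : X, ∃ γ : Γ, γ • x ∈ K) :
    ∃ K : Set X, ∃ ε : ℝ, AfSys D L b K ε := by
  obtain ⟨K, hK, hc⟩ := hco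
  obtain ⟨ε, hε, hch⟩ := exists_chart_radius hD hK
  refine ⟨K, ε, hD, heq, hK, fun x => ?_, hε, hch⟩
  obtain ⟨γ, hγ⟩ := hc x
  exact ⟨γ⁻¹, γ • x, hγ, (inv_smul_smul γ x).symm⟩

end H83T
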