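import Pool.Agent.H.MP_7a8a58_gt.h83c.PlSign

/-!
MP_7a8a58_gt, helper83, second part.  Filling a rectangle next to a ray.
Paper proof: /team-store/h83_7a8a58_T3.md
-/

set_option autoImplicit false

open Set Metric Topology Filter

namespace H83T

variable {E : Type*} [NormedAddCommGroup E] [NormedSpace ℝ E] [FiniteDimensional ℝ E]
variable {X : Type*} [TopologicalSpace X] [T2Space X]
variable {Γ : Type*} [Group Γ] [MulAction Γ X] [ContinuousConstSMul Γ X]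
  [ProperlyDiscontinuousSMul Γ X]
variable {D : X → E} {L : Γ →* (E ≃ₗ[ℝ] E)} {b : Γ → E} {K : Set X} {ε : ℝ}
variable {ω : E →ₗ[ℝ] E →ₗ[ℝ] ℝ} {c C A : ℝ}

/-- The parameter region between two slope lines. -/
private def PlFillG (t₀ t' κ κ' r₀ : ℝ) : Set (ℝ × ℝ) :=
  {p | |p.2| ≤ r₀ ∧ t₀ + p.2 * κ ≤ p.1 ∧ p.1 ≤ t' + p.2 * κ'}

private theorem PlFill_isCompact (t₀ t' κ κ' r₀ : ℝ) : IsCompact (PlFillG t₀ t' κ κ' r₀) := by
  have hcl : IsClosed (PlFillG t₀ t' κ κ' r₀) := by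
    have c1 : IsClosed {p : ℝ × ℝ | |p.2| ≤ r₀} := isClosed_le (by fun_prop) (by fun_prop)
    have c2 : IsClosed {p : ℝ × ℝ | t₀ + p.2 * κ ≤ p.1} := isClosed_le (by fun_prop) (by fun_prop)
    have c3 : IsClosed {p : ℝ × ℝ | p.1 ≤ t' + p.2 * κ'} := isClosed_le (by fun_prop) (by fun_prop)
    exact c1.inter (c2.inter c3)
  have hsub : PlFillG t₀ t' κ κ' r₀ ⊆
      Icc (t₀ - r₀ * |κ|) (t' + r₀ * |κ'|) ×ˢ Icc (-r₀) r₀ := by
    rintro ⟨a, r⟩ ⟨h1, h2, h3⟩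
    simp only at h1 h2 h3
    have h4 : |r * κ| ≤ r₀ * |κ| := by
      rw [abs_mul]
      exact mul_le_mul_of_nonneg_right h1 (abs_nonneg _)
    have h5 : |r * κ'| ≤ r₀ * |κ'| := by
      rw [abs_mul]
      exact mul_le_mul_of_nonneg_right h1 (abs_nonneg _)
    refine ⟨⟨?_, ?_⟩, abs_le.1 h1⟩
    · change t₀ - r₀ * |κ| ≤ a
      linarith [(abs_le.1 h4).1]
    · change a ≤ t' + r₀ * |κ'|
      linarith [(abs_le.1 h5).2]
  exact (isCompact_Icc.prod isCompact_Icc).of_isClosed_subset hcl hsub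

private theorem PlFill_convex (t₀ t' κ κ' r₀ ρ : ℝ) :
    Convex ℝ {p : ℝ × ℝ | p ∈ PlFillG t₀ t' κ κ' r₀ ∧ |p.2| < ρ} := by
  rintro ⟨a, r⟩ ⟨⟨h1, h2, h3⟩, h4⟩ ⟨a', r'⟩ ⟨⟨h1', h2', h3'⟩, h4'⟩ p q hp hq hpq
  simp only at h1 h2 h3 h4 h1' h2' h3' h4'
  have habs : |p * r + q * r'| ≤ p * |r| + q * |r'| := by
    refine (abs_add_le _ _).trans ?_
    rw [abs_mul, abs_mul, abs_of_nonneg hp, abs_of_nonneg hq]
  refine ⟨⟨?_, ?_, ?_⟩, ?_⟩
  · change |p * r + q * r'| ≤ r₀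
    have e : r₀ = p * r₀ + q * r₀ := by rw [← add_mul, hpq, one_mul]
    have e1 := mul_le_mul_of_nonneg_left h1 hp
    have e2 := mul_le_mul_of_nonneg_left h1' hq
    linarith
  · change t₀ + (p * r + q * r') * κ ≤ p * a + q * a'
    have e : t₀ = p * t₀ + q * t₀ := by rw [← add_mul, hpq, one_mul]
    nlinarith
  · change p * a + q * a' ≤ t' + (p * r + q * r') * κ'
    have e : t' = p * t' + q * t' := by rw [← add_mul, hpq, one_mul]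
    nlinarith
  · change |p * r + q * r'| < ρ
    rcases eq_or_lt_of_le hp with h | h
    · have hq1 : q = 1 := by linarith
      rw [← h, hq1, zero_mul, zero_add, one_mul]
      exact h4'
    · have e : ρ = p * ρ + q * ρ := by rw [← add_mul, hpq, one_mul]
      have e1 := mul_lt_mul_of_pos_left h4 h
      have e2 := mul_le_mul_of_nonneg_left h4'.le hq
      linarith

/-- The quadrilateral between the two slope lines at `t₀` and `t'` is filled.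
PROOF: let `G = {(a, r) | |r| ≤ r₀, t₀ + r κ ≤ a ≤ t' + r κ'}`, a compact convex set (`hcross`: it contains
`(t, 0)`, `t ∈ [t₀, t']`), and `S = {(a, r) ∈ G | (a - t₀) • v + r • u ∉ Dom D y}`, `y = ex D x (t₀ • v)`; `S` is compact
(`isOpen_dom`). If `S` is nonempty take `(a, r) ∈ S` with `|r|` minimal; `r ≠ 0` (the points `(t - t₀) • v` are in the
domain, `Fm.ex_ex`). The set `C' = {(a' - t₀) • v + r' • u | (a', r') ∈ G, |r'| < |r|}` is convex and contained in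
`Dom D y`. For `t ∈ [t₀, t']`, `ext_corner` at `y` with `C'`, `(t - t₀) • v` and `z = (a - t₀) • v + r • u` shows
`z - (t - t₀) • v = (a • v + r • u) - t • v ∉ Dom D (ex D x (t • v))` (`Fm.ex_ex`; the points `s • z`, `s < 1`, are in `C'` by
convexity of `G`). This contradicts `Ray.sign`. -/
theorem Ray.quad (S : PlSys D L b K ε ω c C) {x : X} {v u : E} (R : Ray D L K ε ω c A x v u)
    {t₀ t' : ℝ} (ht₀ : 0 ≤ t₀) (htt : t₀ ≤ t') (ht' : t' < 1) {r₀ : ℝ}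
    (hr : r₀ * (8 * (1 + C ^ 2)) * (1 - t₀) ≤ c * ε ^ 2)
    {γ γ' : Γ} (hγ : Val K (ex D x (t₀ • v)) γ) (hγ' : Val K (ex D x (t' • v)) γ')
    {κ κ' : ℝ} (hκ : Slp L ω c v γ (u + κ • v)) (hκ' : Slp L ω c v γ' (u + κ' • v))
    {a r : ℝ} (hr0 : |r| ≤ r₀) (h0 : t₀ + r * κ ≤ a) (h1 : a ≤ t' + r * κ') :
    (a - t₀) • v + r • u ∈ Dom D (ex D x (t₀ • v)) := by
  by_contra hcon
  have hD := S.af.hD
  obtain ⟨y, hy⟩ : ∃ y, y = ex D x (t₀ • v) := ⟨_, rfl⟩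
  rw [← hy] at hcon
  have hmap : Continuous (fun p : ℝ × ℝ => (p.1 - t₀) • v + p.2 • u) := by fun_prop
  have hScl : IsClosed {p : ℝ × ℝ | (p.1 - t₀) • v + p.2 • u ∉ Dom D y} :=
    ((isOpen_dom hD y).preimage hmap).isClosed_compl
  have hScomp : IsCompact (PlFillG t₀ t' κ κ' r₀ ∩
      {p : ℝ × ℝ | (p.1 - t₀) • v + p.2 • u ∉ Dom D y}) :=
    (PlFill_isCompact t₀ t' κ κ' r₀).inter_right hScl
  obtain ⟨⟨a₁, r₁⟩, ⟨hG, hS⟩, hmin⟩ := hScomp.exists_isMinOn ⟨(a, r), ⟨hr0, h0, h1⟩, hcon⟩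
    (f := fun p : ℝ × ℝ => |p.2|) (by fun_prop)
  obtain ⟨g1, g2, g3⟩ := hG
  simp only at g1 g2 g3
  have hS' : (a₁ - t₀) • v + r₁ • u ∉ Dom D y := hS
  have hr00 : 0 ≤ r₀ := (abs_nonneg _).trans g1
  have htI : ∀ t ∈ Icc t₀ t', t ∈ Ico (0 : ℝ) 1 := fun t ht =>
    ⟨ht₀.trans ht.1, lt_of_le_of_lt ht.2 ht'⟩
  have ht₀I : t₀ ∈ Ico (0 : ℝ) 1 := htI t₀ ⟨le_rfl, htt⟩
  have hr1 : r₁ ≠ 0 := by
    rintro rfl
    rw [zero_mul, add_zero] at g2 g3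
    apply hS'
    rw [zero_smul, add_zero, hy]
    exact (R.fm.ex_ex hD ht₀I (htI a₁ ⟨g2, g3⟩)).1
  have hr1' : 0 < |r₁| := abs_pos.2 hr1
  -- the convex set
  obtain ⟨Q, hQ⟩ : ∃ Q : Set (ℝ × ℝ), Q = {p : ℝ × ℝ | p ∈ PlFillG t₀ t' κ κ' r₀ ∧ |p.2| < |r₁|} :=
    ⟨_, rfl⟩
  obtain ⟨C', hC'⟩ : ∃ C' : Set E, C' = (fun p : ℝ × ℝ => (p.1 - t₀) • v + p.2 • u) '' Q :=
    ⟨_, rfl⟩
  have hQc : Convex ℝ Q := by
    rw [hQ]
    exact PlFill_convex t₀ t' κ κ' r₀ |r₁|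
  have hC'c : Convex ℝ C' := by
    rw [hC']
    rintro _ ⟨⟨a2, r2⟩, hp, rfl⟩ _ ⟨⟨a3, r3⟩, hq, rfl⟩ p q hp0 hq0 hpq
    refine ⟨p • (a2, r2) + q • (a3, r3), hQc hp hq hp0 hq0 hpq, ?_⟩
    change (p * a2 + q * a3 - t₀) • v + (p * r2 + q * r3) • u =
      p • ((a2 - t₀) • v + r2 • u) + q • ((a3 - t₀) • v + r3 • u)
    have e : p * a2 + q * a3 - t₀ = p * (a2 - t₀) + q * (a3 - t₀) := by
      have e2 : t₀ = p * t₀ + q * t₀ := by rw [← add_mul, hpq, one_mul]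
      linarith
    rw [e]
    module
  have hC'sub : C' ⊆ Dom D y := by
    rw [hC']
    rintro _ ⟨⟨a2, r2⟩, hp, rfl⟩
    rw [hQ] at hp
    by_contra hno
    have h5 := hmin ⟨hp.1, hno⟩
    exact absurd hp.2 (not_lt.2 h5)
  refine R.sign S ht₀ htt ht' (a := a₁) (r := r₁) ?_ ?_ hγ hγ' hκ hκ' g2 g3
  · have h6 : |r₁| * (8 * (1 + C ^ 2)) * (1 - t₀) ≤ r₀ * (8 * (1 + C ^ 2)) * (1 - t₀) := by
      have h7 : 0 ≤ 1 - t₀ := by linarith
      gcongr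
    exact h6.trans hr
  · intro t ht hin
    obtain ⟨e1, e2⟩ := R.fm.ex_ex hD ht₀I (htI t ht)
    rw [← hy] at e1 e2
    apply hS'
    refine ext_corner hD hC'c hC'sub (v := (t - t₀) • v) ?_ ?_ ?_
    · rw [hC', hQ]
      refine ⟨(t, 0), ⟨⟨?_, ?_, ?_⟩, ?_⟩, ?_⟩
      · change |(0 : ℝ)| ≤ r₀
        rw [abs_zero]
        exact hr00
      · change t₀ + 0 * κ ≤ t
        rw [zero_mul, add_zero]
        exact ht.1
      · change t ≤ t' + 0 * κ'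
        rw [zero_mul, add_zero]
        exact ht.2
      · change |(0 : ℝ)| < |r₁|
        rw [abs_zero]
        exact hr1'
      · change (t - t₀) • v + (0 : ℝ) • u = (t - t₀) • v
        rw [zero_smul, add_zero]
    · rw [e2]
      have e3 : (a₁ - t₀) • v + r₁ • u - (t - t₀) • v = (a₁ • v + r₁ • u) - t • v := by
        module
      rw [e3]
      exact hin
    · intro s hs
      rw [hC', hQ]
      refine ⟨(t₀ + s * (a₁ - t₀), s * r₁), ⟨⟨?_, ?_, ?_⟩, ?_⟩, ?_⟩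
      · change |s * r₁| ≤ r₀
        rw [abs_mul, abs_of_nonneg hs.1]
        have := hs.2
        nlinarith [abs_nonneg r₁]
      · change t₀ + s * r₁ * κ ≤ t₀ + s * (a₁ - t₀)
        have h8 : s * (r₁ * κ) ≤ s * (a₁ - t₀) :=
          mul_le_mul_of_nonneg_left (by linarith) hs.1
        linarith
      · change t₀ + s * (a₁ - t₀) ≤ t' + s * r₁ * κ'
        have h8 : s * (a₁ - t') ≤ s * (r₁ * κ') :=
          mul_le_mul_of_nonneg_left (by linarith) hs.1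
        have h9 : 0 ≤ (1 - s) * (t' - t₀) :=
          mul_nonneg (by linarith [hs.2]) (by linarith)
        linarith
      · change |s * r₁| < |r₁|
        rw [abs_mul, abs_of_nonneg hs.1]
        have := hs.2
        nlinarith
      · change (t₀ + s * (a₁ - t₀) - t₀) • v + (s * r₁) • u = s • ((a₁ - t₀) • v + r₁ • u)
        module

/-- PROOF: choose `t₁` close to 1 with `r₀ (8 (1 + C ^ 2)) (1 - t₁) ≤ c ε ^ 2` and `r₀ A (1 - t₁) ≤ 1 / 2`. Given `t₀`,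
`α`, `r` choose `t' ∈ [t₀, 1)` with `α ≤ t' - r₀ A (1 - t') ^ 2`; valid `γ`, `γ'` at `t₀`, `t'` (`exists_val`), slope
vectors (`exists_slp`) `u + κ • v`, `u + κ' • v` with `|κ| ≤ A (1 - t₀) ^ 2`, `|κ'| ≤ A (1 - t') ^ 2`; then `quad`:
`t₀ + r κ ≤ t₀ + (1 - t₀) / 2 ≤ α`. -/
theorem Ray.fill (S : PlSys D L b K ε ω c C) {x : X} {v u : E} (R : Ray D L K ε ω c A x v u)
    (r₀ : ℝ) : ∃ t₁ ∈ Ico (0 : ℝ) 1, ∀ t₀ ∈ Ico t₁ 1, ∀ α ∈ Ico ((1 + t₀) / 2) 1, ∀ r : ℝ,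
      |r| ≤ r₀ → (α - t₀) • v + r • u ∈ Dom D (ex D x (t₀ • v)) := by
  obtain ⟨r₂, hr₂⟩ : ∃ r₂, r₂ = |r₀| + 1 := ⟨_, rfl⟩
  have hr₂0 : 0 < r₂ := by
    rw [hr₂]
    positivity
  have hA := R.A_nonneg
  have hc := S.area.c_pos
  have hε := S.af.ε_pos
  have hm : 0 < 8 * (1 + C ^ 2) := by positivity
  obtain ⟨δ, hδ⟩ : ∃ δ, δ = min 1 (min (c * ε ^ 2 / (r₂ * (8 * (1 + C ^ 2))))
    (1 / (2 * (r₂ * (A + 1))))) := ⟨_, rfl⟩
  have hδ0 : 0 < δ := by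
    rw [hδ]
    refine lt_min one_pos (lt_min ?_ ?_)
    · positivity
    · positivity
  have hδ1 : δ ≤ 1 := by
    rw [hδ]
    exact min_le_left _ _
  have hδ2 : r₂ * (8 * (1 + C ^ 2)) * δ ≤ c * ε ^ 2 := by
    have h1 : δ ≤ c * ε ^ 2 / (r₂ * (8 * (1 + C ^ 2))) := by
      rw [hδ]
      exact (min_le_right _ _).trans (min_le_left _ _)
    rw [le_div_iff₀ (by positivity)] at h1
    linarith
  have hδ3 : r₂ * A * δ ≤ 1 / 2 := by
    have h1 : δ ≤ 1 / (2 * (r₂ * (A + 1))) := by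
      rw [hδ]
      exact (min_le_right _ _).trans (min_le_right _ _)
    rw [le_div_iff₀ (by positivity)] at h1
    have h2 : 0 ≤ r₂ * δ := by positivity
    nlinarith
  refine ⟨1 - δ, ⟨by linarith, by linarith⟩, ?_⟩
  intro t₀ ht₀ α hα r hr
  have ht₀0 : 0 ≤ t₀ := by linarith [ht₀.1]
  have hs0 : 0 < 1 - t₀ := by linarith [ht₀.2]
  have hs1 : 1 - t₀ ≤ δ := by linarith [ht₀.1]
  have hrr : |r| ≤ r₂ := by
    rw [hr₂]
    linarith [le_abs_self r₀]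
  obtain ⟨η, hη⟩ : ∃ η, η = (1 - α) / (1 + r₂ * A) := ⟨_, rfl⟩
  have hd : 0 < 1 + r₂ * A := by positivity
  have hη0 : 0 < η := by
    rw [hη]
    exact div_pos (by linarith [hα.2]) hd
  have hη1 : η * (1 + r₂ * A) = 1 - α := by
    rw [hη, div_mul_cancel₀ _ hd.ne']
  have hη2 : η ≤ 1 - α := by
    have h1 : 0 ≤ η * (r₂ * A) := by positivity
    linarith
  have hη3 : η ≤ (1 - t₀) / 2 := by linarith [hα.1]
  have hη4 : η ≤ 1 := by linarith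
  obtain ⟨γ, hγ⟩ := S.af.exists_val (ex D x (t₀ • v))
  obtain ⟨γ', hγ'⟩ := S.af.exists_val (ex D x ((1 - η) • v))
  obtain ⟨w, hw⟩ := S.exists_slp R.fm.ne_zero γ
  obtain ⟨w', hw'⟩ := S.exists_slp R.fm.ne_zero γ'
  obtain ⟨κ, hκ, hκa⟩ := R.slope t₀ ⟨ht₀0, ht₀.2⟩ γ hγ w hw
  obtain ⟨κ', hκ', hκa'⟩ := R.slope (1 - η) ⟨by linarith, by linarith⟩ γ' hγ' w' hw'
  rw [hκ] at hw
  rw [hκ'] at hw'
  have e1 : |r * κ| ≤ r₂ * (A * (1 - t₀) ^ 2) := by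
    rw [abs_mul]
    exact mul_le_mul hrr hκa (abs_nonneg _) hr₂0.le
  have e2 : |r * κ'| ≤ r₂ * (A * (1 - (1 - η)) ^ 2) := by
    rw [abs_mul]
    exact mul_le_mul hrr hκa' (abs_nonneg _) hr₂0.le
  refine R.quad S ht₀0 (t' := 1 - η) (by linarith) (by linarith) (r₀ := r₂) ?_ hγ hγ' hw hw' hrr
    ?_ ?_
  · have h3 : r₂ * (8 * (1 + C ^ 2)) * (1 - t₀) ≤ r₂ * (8 * (1 + C ^ 2)) * δ :=
      mul_le_mul_of_nonneg_left hs1 (by positivity)
    exact h3.trans hδ2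
  · have h3 : r₂ * (A * (1 - t₀) ^ 2) ≤ (1 - t₀) / 2 := by
      have h4 : r₂ * A * (1 - t₀) ≤ 1 / 2 :=
        (mul_le_mul_of_nonneg_left hs1 (by positivity)).trans hδ3
      have h5 := mul_le_mul_of_nonneg_right h4 hs0.le
      calc r₂ * (A * (1 - t₀) ^ 2) = r₂ * A * (1 - t₀) * (1 - t₀) := by ring
        _ ≤ 1 / 2 * (1 - t₀) := h5
        _ = (1 - t₀) / 2 := by ring
    linarith [(abs_le.1 e1).2, hα.1]
  · have h3 : r₂ * (A * (1 - (1 - η)) ^ 2) ≤ r₂ * A * η := by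
      have h4 : 0 ≤ r₂ * A * η := by positivity
      have h5 := mul_le_mul_of_nonneg_left hη4 h4
      calc r₂ * (A * (1 - (1 - η)) ^ 2) = r₂ * A * η * η := by ring
        _ ≤ r₂ * A * η * 1 := h5
        _ = r₂ * A * η := by ring
    have h6 : η * (1 + r₂ * A) = η + r₂ * A * η := by ring
    linarith [(abs_le.1 e2).1]

end H83T
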