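import Pool.Agent.H.MP_7a8a58_gt.h83c.PlFill

/-!
MP_7a8a58_gt, helper83, second part.  The opposite side of the filled rectangle is missing.
Paper proof: /team-store/h83_7a8a58_T3.md
-/

set_option autoImplicit false

open Set Metric Topology Filter

namespace H83T

variable {E : Type*} [NormedAddCommGroup E] [NormedSpace ℝ E] [FiniteDimensional ℝ E]
variable {X : Type*} [TopologicalSpace X] [T2Space X]
variable {Γ : Type*} [Group Γ] [MulAction Γ X] [ContinuousConstSMul Γ X]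
  [ProperlyDiscontinuousSMul Γ X]
variable {D : X → E} {L : Γ →* (E ≃ₗ[ℝ] E)} {b : Γ → E} {K : Set X} {ε : ℝ}
variable {ω : E →ₗ[ℝ] E →ₗ[ℝ] ℝ} {c C A : ℝ}

private theorem PlMiss_ev (a d : ℝ) (hd : 0 < d) : ∀ᶠ η in 𝓝[>] (0 : ℝ), η * a < d := by
  have h : Tendsto (fun η : ℝ => η * a) (𝓝[>] 0) (𝓝 0) := by
    have h1 : Tendsto (fun η : ℝ => η * a) (𝓝 0) (𝓝 (0 * a)) :=
      (continuous_id.mul continuous_const).tendsto 0
    rw [zero_mul] at h1
    exact h1.mono_left nhdsWithin_le_nhds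
  exact h.eventually (gt_mem_nhds hd)

omit [FiniteDimensional ℝ E] in
private theorem PlMiss_convex (v u : E) (t₀ r₀ lo hi : ℝ) :
    Convex ℝ {z : E | ∃ α ∈ Ico lo hi, ∃ r : ℝ, |r| ≤ r₀ ∧ z = (α - t₀) • v + r • u} := by
  rintro _ ⟨α, hα, r, hr, rfl⟩ _ ⟨α', hα', r', hr', rfl⟩ p q hp hq hpq
  refine ⟨p * α + q * α', ?_, p * r + q * r', ?_, ?_⟩
  · have h := (convex_Ico lo hi) hα hα' hp hq hpq
    simpa only [smul_eq_mul] using h
  · calc |p * r + q * r'| ≤ |p * r| + |q * r'| := abs_add_le _ _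
      _ = p * |r| + q * |r'| := by rw [abs_mul, abs_mul, abs_of_nonneg hp, abs_of_nonneg hq]
      _ ≤ p * r₀ + q * r₀ :=
          add_le_add (mul_le_mul_of_nonneg_left hr hp) (mul_le_mul_of_nonneg_left hr' hq)
      _ = r₀ := by rw [← add_mul, hpq, one_mul]
  · have h1 : t₀ = p * t₀ + q * t₀ := by rw [← add_mul, hpq, one_mul]
    have h2 : p * α + q * α' - t₀ = p * (α - t₀) + q * (α' - t₀) := by
      linear_combination h1 * (-1 : ℝ)
    rw [h2]
    module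

/-- PROOF: suppose `p = (1 - t₀) • v + r • u ∈ Dom D y`, `y = ex D x (t₀ • v)`. `locfin` at `ex D y p`: a neighbourhood `U`
and a finite set `F` of `γ`, and let `M` bound `Nm L γ v`, `γ ∈ F`. For `t < 1` close to 1 let `γ` be valid at
`ex D x (t • v)` with slope vector `w = u + κ • v`, `α = t + r κ`; `|κ| ≤ A (1 - t) ^ 2`, so `(1 + t₀) / 2 ≤ α < 1` and
`q = (α - t₀) • v + r • u` is close to `p`, `q ∈ Dom D y` and `ex D y q ∈ U` (`continuousOn_ex`). The rectangle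
`{(α' - t₀) • v + r' • u | (1 + t₀) / 2 ≤ α' < 1, |r'| ≤ r₀}` is convex and contained in `Dom D y` (`hfill`), so by `move`
(`q = (t - t₀) • v + r • w`) and `Fm.ex_ex`, `ex D y q = ex D (ex D x (t • v)) (r • w)`. `Nm L γ (r • w) ≤ ε`
(`Ray.slp_dom`), so by `S.comp` a valid `γ''` at `ex D y q` has `Nm L γ v ≤ C Nm L γ'' v ≤ C M`, while
`ε < (1 - t) Nm L γ v`: contradiction for `t` close to 1. -/
theorem Ray.not_mem (S : PlSys D L b K ε ω c C) {x : X} {v u : E} (R : Ray D L K ε ω c A x v u)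
    {t₀ r₀ : ℝ} (ht₀ : t₀ ∈ Ico (0 : ℝ) 1)
    (hfill : ∀ α ∈ Ico ((1 + t₀) / 2) 1, ∀ r : ℝ, |r| ≤ r₀ →
      (α - t₀) • v + r • u ∈ Dom D (ex D x (t₀ • v))) {r : ℝ} (hr : |r| ≤ r₀) :
    (1 - t₀) • v + r • u ∉ Dom D (ex D x (t₀ • v)) := by
  intro hp
  obtain ⟨U, hU, F, hF, hUF⟩ :=
    S.af.locfin (ex D (ex D x (t₀ • v)) ((1 - t₀) • v + r • u))
  obtain ⟨M, hM⟩ := (hF.image (fun γ => Nm L γ v)).bddAbove
  have hUs : ∀ᶠ s in 𝓝 (0 : ℝ),
      ex D (ex D x (t₀ • v)) ((1 - s - t₀) • v + r • u) ∈ U := by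
    have h1 : ContinuousAt (ex D (ex D x (t₀ • v))) ((1 - t₀) • v + r • u) :=
      (continuousOn_ex S.af.hD _).continuousAt ((isOpen_dom S.af.hD _).mem_nhds hp)
    have h2 : Tendsto (fun s : ℝ => (1 - s - t₀) • v + r • u) (𝓝 0)
        (𝓝 ((1 - t₀) • v + r • u)) := by
      have h3 : Continuous (fun s : ℝ => (1 - s - t₀) • v + r • u) := by fun_prop
      have h4 := h3.tendsto 0
      rwa [sub_zero] at h4
    exact (h1.tendsto.comp h2).eventually hU
  obtain ⟨δ, hδ, hδU⟩ := Metric.eventually_nhds_iff.1 hUs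
  have hε := S.af.ε_pos
  have hcp := S.area.c_pos
  have hC0 : 0 ≤ C := zero_le_one.trans S.one_le
  have hA := R.A_nonneg
  have ht1 : 0 < (1 - t₀) / 2 := by linarith [ht₀.2]
  obtain ⟨η, ⟨⟨⟨⟨⟨⟨h1, h2⟩, h3⟩, h4⟩, h5⟩, h6⟩, h0⟩⟩ :=
    ((((((PlMiss_ev (1 + |r| * A) ((1 - t₀) / 2) ht1).and
      (PlMiss_ev (|r| * A) 1 one_pos)).and
      (PlMiss_ev |r| (c * ε ^ 2) (by positivity))).and
      (PlMiss_ev (1 + |r| * A) δ hδ)).and
      (PlMiss_ev (C * M) ε hε)).and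
      (PlMiss_ev 1 1 one_pos)).and self_mem_nhdsWithin |>.exists
  replace h0 : 0 < η := h0
  rw [mul_one] at h6
  have ht : 1 - η ∈ Ico (0 : ℝ) 1 := ⟨by linarith, by linarith⟩
  obtain ⟨γ, hγ⟩ := S.af.exists_val (ex D x ((1 - η) • v))
  obtain ⟨w, hw⟩ := S.exists_slp R.fm.ne_zero γ
  obtain ⟨κ, hwκ, hκ⟩ := R.slope (1 - η) ht γ hγ w hw
  have hgap := R.gap (1 - η) ht γ hγ
  rw [sub_sub_cancel] at hκ hgap
  have hrκ : |r * κ| ≤ |r| * A * η ^ 2 := by
    rw [abs_mul, mul_assoc]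
    exact mul_le_mul_of_nonneg_left hκ (abs_nonneg r)
  have hrA : 0 ≤ |r| * A := mul_nonneg (abs_nonneg r) hA
  have hη2 : |r| * A * η ^ 2 ≤ η * (|r| * A) := by
    have h7 : η ^ 2 ≤ η := by nlinarith
    calc |r| * A * η ^ 2 ≤ |r| * A * η := mul_le_mul_of_nonneg_left h7 hrA
      _ = η * (|r| * A) := by ring
  have hη3 : |r| * A * η ^ 2 < η := by
    calc |r| * A * η ^ 2 = η * (|r| * A) * η := by ring
      _ < 1 * η := mul_lt_mul_of_pos_right h2 h0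
      _ = η := one_mul η
  have habs := abs_le.1 hrκ
  have hα : 1 - η + r * κ ∈ Ico ((1 + t₀) / 2) 1 := by
    constructor
    · have : η + η * (|r| * A) < (1 - t₀) / 2 := by linarith
      linarith [habs.1]
    · linarith [habs.2]
  have htI : 1 - η ∈ Ico ((1 + t₀) / 2) 1 := by
    refine ⟨?_, ht.2⟩
    have : η + η * (|r| * A) < (1 - t₀) / 2 := by linarith
    have h8 : 0 ≤ η * (|r| * A) := by positivity
    linarith
  have hr0 : 0 ≤ r₀ := (abs_nonneg r).trans hr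
  -- the rectangle
  have hrect : {z : E | ∃ α ∈ Ico ((1 + t₀) / 2) 1, ∃ r : ℝ, |r| ≤ r₀ ∧
      z = (α - t₀) • v + r • u} ⊆ Dom D (ex D x (t₀ • v)) := by
    rintro _ ⟨α, hα', r', hr', rfl⟩
    exact hfill α hα' r' hr'
  have hq : (1 - η - t₀) • v + r • w = (1 - η + r * κ - t₀) • v + r • u := by
    rw [hwκ]
    module
  have hmove := move S.af.hD (PlMiss_convex v u t₀ r₀ ((1 + t₀) / 2) 1) hrect
    (v := (1 - η - t₀) • v) (w := r • w)
    ⟨1 - η, htI, 0, by rw [abs_zero]; exact hr0, by rw [zero_smul, add_zero]⟩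
    ⟨1 - η + r * κ, hα, r, hr, hq⟩
  have hex := R.fm.ex_ex S.af.hD ht₀ ht
  rw [hex.2] at hmove
  have hslp := R.slp_dom S ht hγ hw (r := r) (by
    rw [sub_sub_cancel, mul_comm]
    exact h3.le)
  have hmemU : ex D (ex D x (t₀ • v)) ((1 - η - t₀) • v + r • w) ∈ U := by
    have h9 : dist (η - r * κ) 0 < δ := by
      rw [dist_zero_right, Real.norm_eq_abs]
      calc |η - r * κ| ≤ |η| + |r * κ| := abs_sub _ _
        _ ≤ η + η * (|r| * A) := by
            rw [abs_of_pos h0]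
            linarith
        _ = η * (1 + |r| * A) := by ring
        _ < δ := h4
    have h10 := hδU h9
    have h11 : 1 - (η - r * κ) - t₀ = 1 - η + r * κ - t₀ := by ring
    rw [h11] at h10
    rw [hq]
    exact h10
  rw [← hmove.2] at hmemU
  obtain ⟨γ'', hγ''⟩ := S.af.exists_val (ex D (ex D x ((1 - η) • v)) (r • w))
  have hin : γ'' ∈ F := hUF _ hmemU γ'' hγ''
  have hM' : Nm L γ'' v ≤ M := hM ⟨γ'', hin, rfl⟩
  have hcomp := (S.comp (ex D x ((1 - η) • v)) γ (r • w) γ'' hγ hslp.1 hγ'' v).2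
  have h12 : Nm L γ v ≤ C * M := hcomp.trans (mul_le_mul_of_nonneg_left hM' hC0)
  have h13 : η * Nm L γ v ≤ η * (C * M) := mul_le_mul_of_nonneg_left h12 h0.le
  linarith

end H83T
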