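import Pool.Agent.H.MP_7a8a58_gt.h83c.PlSlope

/-!
MP_7a8a58_gt, helper83, second part.  A point which is missing from all points of a ray stays on one
side of the slope lines.
Paper proof: /team-store/h83_7a8a58_T3.md
-/

set_option autoImplicit false

open Set Metric Topology Filter

namespace H83T

variable {E : Type*} [NormedAddCommGroup E] [NormedSpace ℝ E] [FiniteDimensional ℝ E]
variable {X : Type*} [TopologicalSpace X] [T2Space X]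
variable {Γ : Type*} [Group Γ] [MulAction Γ X] [ContinuousConstSMul Γ X]
  [ProperlyDiscontinuousSMul Γ X]
variable {D : X → E} {L : Γ →* (E ≃ₗ[ℝ] E)} {b : Γ → E} {K : Set X} {ε : ℝ}
variable {ω : E →ₗ[ℝ] E →ₗ[ℝ] ℝ} {c C A : ℝ}

private theorem Ray.slp_small (S : PlSys D L b K ε ω c C) {x : X} {v u : E}
    (R : Ray D L K ε ω c A x v u)
    {t : ℝ} (ht : t ∈ Ico (0 : ℝ) 1) {γ : Γ} (hγ : Val K (ex D x (t • v)) γ) {w : E}
    (hw : Slp L ω c v γ w) {r ε' : ℝ} (hr : |r| * (1 - t) ≤ c * (ε' * ε)) :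
    Nm L γ (r • w) ≤ ε' := by
  have hg := R.gap t ht γ hγ
  have hc := S.area.c_pos
  have hε := S.af.ε_pos
  have h1t : 0 < 1 - t := by linarith [ht.2]
  have hn := Nm_nonneg L γ w
  have h2 : c * Nm L γ v * Nm L γ w ≤ 1 := hw.2
  have h3 : |r| * Nm L γ w * (c * ε) ≤ |r| * Nm L γ w * (c * ((1 - t) * Nm L γ v)) := by
    refine mul_le_mul_of_nonneg_left ?_ (by positivity)
    exact mul_le_mul_of_nonneg_left hg.le hc.le
  have h4 : |r| * Nm L γ w * (c * ((1 - t) * Nm L γ v)) =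
      |r| * (1 - t) * (c * Nm L γ v * Nm L γ w) := by ring
  have h5 : |r| * (1 - t) * (c * Nm L γ v * Nm L γ w) ≤ |r| * (1 - t) * 1 :=
    mul_le_mul_of_nonneg_left h2 (by positivity)
  have h6 : |r| * Nm L γ w * (c * ε) ≤ ε' * (c * ε) := by
    have : c * (ε' * ε) = ε' * (c * ε) := by ring
    linarith
  rw [Nm_smul]
  exact le_of_mul_le_mul_right h6 (by positivity)

/-- Step 1. PROOF: `Nm γ (r • w) ≤ |r| / (c Nm γ v) ≤ ε` because `|r| (1 - t) ≤ c ε ^ 2` and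
`ε < (1 - t) Nm γ v`; `chart_val`. -/
theorem Ray.slp_dom (S : PlSys D L b K ε ω c C) {x : X} {v u : E} (R : Ray D L K ε ω c A x v u)
    {t : ℝ} (ht : t ∈ Ico (0 : ℝ) 1) {γ : Γ} (hγ : Val K (ex D x (t • v)) γ) {w : E}
    (hw : Slp L ω c v γ w) {r : ℝ} (hr : |r| * (1 - t) ≤ c * ε ^ 2) :
    Nm L γ (r • w) ≤ ε ∧ r • w ∈ Dom D (ex D x (t • v)) := by
  have h1 : Nm L γ (r • w) ≤ ε := R.slp_small S ht hγ hw (by rw [← sq]; exact hr)
  exact ⟨h1, S.af.chart_val hγ h1⟩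

/-- one step of the sign argument -/
private theorem Ray.sign_step (S : PlSys D L b K ε ω c C) {x : X} {v u : E}
    (R : Ray D L K ε ω c A x v u)
    {t₀ t t₂ : ℝ} (ht₀ : 0 ≤ t₀) (ht : t₀ ≤ t) (htt : t ≤ t₂) (ht₂ : t₂ < 1) {a r : ℝ}
    (hr : |r| * (8 * (1 + C ^ 2)) * (1 - t₀) ≤ c * ε ^ 2)
    (hmiss : (a • v + r • u) - t • v ∉ Dom D (ex D x (t • v)))
    {γ γ₂ : Γ} (hγ : Val K (ex D x (t • v)) γ) (hγ₂ : Val K (ex D x (t₂ • v)) γ₂)
    (hs : (t₂ - t) * Nm L γ v ≤ 1 / 4 * ε)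
    {κ κ₂ : ℝ} (hκ : Slp L ω c v γ (u + κ • v)) (hκ₂ : Slp L ω c v γ₂ (u + κ₂ • v))
    (h0 : 0 ≤ a - t - r * κ) : 0 < a - t₂ - r * κ₂ := by
  have hI : t ∈ Ico (0 : ℝ) 1 := ⟨ht₀.trans ht, htt.trans_lt ht₂⟩
  have hI₂ : t₂ ∈ Ico (0 : ℝ) 1 := ⟨(ht₀.trans ht).trans htt, ht₂⟩
  have hv : v ≠ 0 := R.fm.ne_zero
  have hN : 0 < Nm L γ v := Nm_pos L γ hv
  have hε := S.af.ε_pos
  have hcp := S.area.c_pos
  have hC := S.one_le
  have hg := R.gap t hI γ hγ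
  have h1t : 0 < 1 - t := by linarith [hI.2]
  have h1t₀ : 1 - t ≤ 1 - t₀ := by linarith
  -- the part along the slope vector is small
  have hsm : Nm L γ (r • (u + κ • v)) ≤ ε / 2 := by
    refine R.slp_small S hI hγ hκ ?_
    have h1 : |r| * (1 - t) ≤ |r| * (1 - t₀) := mul_le_mul_of_nonneg_left h1t₀ (abs_nonneg r)
    have h2 : 0 ≤ |r| * (1 - t₀) := mul_nonneg (abs_nonneg r) (by linarith)
    have h3 : 0 ≤ |r| * (1 - t₀) * C ^ 2 := mul_nonneg h2 (sq_nonneg C)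
    nlinarith
  -- decomposition
  have hdec : (a • v + r • u) - t • v = r • (u + κ • v) + (a - t - r * κ) • v := by
    module
  have hbig : ε < Nm L γ ((a • v + r • u) - t • v) := by
    by_contra hcon
    push Not at hcon
    exact hmiss (S.af.chart_val hγ hcon)
  rw [hdec] at hbig
  have hbig2 : ε / 2 < (a - t - r * κ) * Nm L γ v := by
    have h1 := Nm_add_le L γ (r • (u + κ • v)) ((a - t - r * κ) • v)
    rw [Nm_smul L γ (a - t - r * κ) v, abs_of_nonneg h0] at h1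
    linarith
  -- comparison
  obtain ⟨κd, hκd, hκdb⟩ := S.slp_sub hv
    (S.comp_ray R.fm hI hI₂ htt hγ hγ₂ (hs.trans (by linarith))) hκ hκ₂
  have hκe : κ₂ = κ + κd := by
    have h1 : (κ₂ - (κ + κd)) • v = 0 := by
      have h2 : κ₂ • v = κ • v + κd • v := by
        have := hκd
        rw [add_assoc] at this
        exact add_left_cancel this
      rw [sub_smul, add_smul, h2, sub_self]
    rcases smul_eq_zero.1 h1 with h2 | h2
    · linarith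
    · exact absurd h2 hv
  have hrk : |r| * |κd| * Nm L γ v ≤ ε / 8 := by
    have h1 : |r| * (|κd| * Nm L γ v ^ 2) ≤ |r| * ((1 + C ^ 2) / c) :=
      mul_le_mul_of_nonneg_left hκdb (abs_nonneg r)
    have h2 : |r| * ((1 + C ^ 2) / c) * (8 * (1 - t₀)) ≤ ε ^ 2 := by
      have h3 : |r| * ((1 + C ^ 2) / c) * (8 * (1 - t₀)) =
          |r| * (8 * (1 + C ^ 2)) * (1 - t₀) / c := by ring
      rw [h3, div_le_iff₀ hcp]
      linarith
    have h4 : 0 < 8 * (1 - t₀) := by linarith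
    have h5 : |r| * (|κd| * Nm L γ v ^ 2) * (8 * (1 - t₀)) ≤ ε ^ 2 :=
      (mul_le_mul_of_nonneg_right h1 h4.le).trans h2
    have h6 : ε ≤ (1 - t₀) * Nm L γ v :=
      hg.le.trans (mul_le_mul_of_nonneg_right h1t₀ hN.le)
    have h7 : 0 ≤ |r| * |κd| * Nm L γ v := by positivity
    have h8 : |r| * |κd| * Nm L γ v * 8 * ε ≤ ε * ε := by
      calc |r| * |κd| * Nm L γ v * 8 * ε ≤ |r| * |κd| * Nm L γ v * 8 * ((1 - t₀) * Nm L γ v) :=
            mul_le_mul_of_nonneg_left h6 (by positivity)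
        _ = |r| * (|κd| * Nm L γ v ^ 2) * (8 * (1 - t₀)) := by ring
        _ ≤ ε ^ 2 := h5
        _ = ε * ε := sq ε
    have h9 := le_of_mul_le_mul_right h8 hε
    linarith
  have hrk2 : r * κd * Nm L γ v ≤ ε / 8 := by
    refine le_trans ?_ hrk
    refine mul_le_mul_of_nonneg_right ?_ hN.le
    rw [← abs_mul]
    exact le_abs_self _
  have hfin : 0 < (a - t₂ - r * κ₂) * Nm L γ v := by
    have h1 : (a - t₂ - r * κ₂) * Nm L γ v =
        (a - t - r * κ) * Nm L γ v - (t₂ - t) * Nm L γ v - r * κd * Nm L γ v := by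
      rw [hκe]
      ring
    rw [h1]
    linarith
  exact pos_of_mul_pos_left hfin hN.le

/-- Step 2: the sign argument.
PROOF: for `t ∈ [t₀, t']`, `γ` valid at `y_t = ex D x (t • v)`, `w = u + κ • v` a slope vector of `γ` put
`σ = a - t - r κ`. Then `(a • v + r • u) - t • v = r • w + σ • v`, so by `chart_val` and `hmiss`
`ε < |r| Nm γ w + |σ| Nm γ v`, and `|r| Nm γ w ≤ ε / 2` (from `hr`: `1 ≤ C`, `ε < (1 - t) Nm γ v`), hence
`ε / 2 < |σ| Nm γ v`. One step (`(t₂ - t) Nm γ v ≤ ε / 4`, `comp_ray`, `slp_sub`): `|σ₂ - σ| ≤ (t₂ - t) + |r| |κ₂ - κ| ≤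
ε / (4 Nm γ v) + |r| (1 + C ^ 2) / (c Nm γ v ^ 2) ≤ ε / (4 Nm γ v) + ε / (8 Nm γ v) < |σ|`, so the sign of `σ` does
not change. Use `chain` (θ = 1 / 4) with `Q t γ = (∀ w κ, slope vector, w = u + κ • v → 0 ≤ a - t - r κ → False)`,
where the last step goes to `γ'`, `κ'`. -/
theorem Ray.sign (S : PlSys D L b K ε ω c C) {x : X} {v u : E} (R : Ray D L K ε ω c A x v u)
    {t₀ t' : ℝ} (ht₀ : 0 ≤ t₀) (htt : t₀ ≤ t') (ht' : t' < 1) {a r : ℝ}
    (hr : |r| * (8 * (1 + C ^ 2)) * (1 - t₀) ≤ c * ε ^ 2)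
    (hmiss : ∀ t ∈ Icc t₀ t', (a • v + r • u) - t • v ∉ Dom D (ex D x (t • v)))
    {γ γ' : Γ} (hγ : Val K (ex D x (t₀ • v)) γ) (hγ' : Val K (ex D x (t' • v)) γ')
    {κ κ' : ℝ} (hκ : Slp L ω c v γ (u + κ • v)) (hκ' : Slp L ω c v γ' (u + κ' • v))
    (h0 : t₀ + r * κ ≤ a) (h1 : a ≤ t' + r * κ') : False := by
  have key := S.chain R.fm ht₀ ht' (θ := 1 / 4) (by norm_num)
    (fun t γ => ∀ κ : ℝ, Slp L ω c v γ (u + κ • v) → 0 ≤ a - t - r * κ → False) ?_ ?_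
  · exact key t₀ ⟨le_rfl, htt⟩ γ hγ κ hκ (by linarith)
  · intro t ht γ₁ hγ₁ hs κ₁ hκ₁ hσ
    have h2 := R.sign_step S ht₀ ht.1 ht.2 ht' hr (hmiss t ht) hγ₁ hγ' hs hκ₁ hκ' hσ
    linarith
  · intro t ht γ₁ hγ₁ hs hnext κ₁ hκ₁ hσ
    have hv : v ≠ 0 := R.fm.ne_zero
    have hN : 0 < Nm L γ₁ v := Nm_pos L γ₁ hv
    have hε := S.af.ε_pos
    have hd : 0 < 1 / 4 * ε / Nm L γ₁ v := by positivity
    have hle : 1 / 4 * ε / Nm L γ₁ v < t' - t := by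
      rw [div_lt_iff₀ hN]
      exact hs
    have ht2 : t + 1 / 4 * ε / Nm L γ₁ v < 1 := by linarith
    have h0t : 0 ≤ t := ht₀.trans ht.1
    obtain ⟨γ₂, hγ₂⟩ := S.af.exists_val (ex D x ((t + 1 / 4 * ε / Nm L γ₁ v) • v))
    obtain ⟨w₂, hw₂⟩ := S.exists_slp hv γ₂
    obtain ⟨κ₂, hκ₂, -⟩ := R.slope _ ⟨by linarith, ht2⟩ γ₂ hγ₂ w₂ hw₂
    rw [hκ₂] at hw₂
    have h2 := R.sign_step S ht₀ ht.1 (t₂ := t + 1 / 4 * ε / Nm L γ₁ v) (by linarith) ht2 hr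
      (hmiss t ht) hγ₁ hγ₂ (by rw [add_sub_cancel_left, div_mul_cancel₀ _ hN.ne']) hκ₁ hw₂ hσ
    exact hnext γ₂ hγ₂ κ₂ hw₂ h2.le

end H83T
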