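import Pool.Agent.H.MP_7a8a58_gt.h83c.PlW

/-!
MP_7a8a58_gt, helper83, second part.  Slopes along a ray to a first missing vector.
Paper proof: /team-store/h83_7a8a58_T3.md
-/

set_option autoImplicit false

open Set Metric Topology Filter

namespace H83T

/-- `v` is a first missing vector at `x`. -/
structure Fm {E : Type*} [NormedAddCommGroup E] [NormedSpace ℝ E]
    {X : Type*} [TopologicalSpace X] (D : X → E) (x : X) (v : E) : Prop where
  dom : ∀ t ∈ Ico (0 : ℝ) 1, t • v ∈ Dom D x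
  miss : v ∉ Dom D x

/-- `w` is a slope vector for `v` at `γ`. -/
def Slp {E : Type*} [NormedAddCommGroup E] [NormedSpace ℝ E] {Γ : Type*} [Group Γ]
    (L : Γ →* (E ≃ₗ[ℝ] E)) (ω : E →ₗ[ℝ] E →ₗ[ℝ] ℝ) (c : ℝ) (v : E) (γ : Γ) (w : E) : Prop :=
  ω v w = 1 ∧ c * Nm L γ v * Nm L γ w ≤ 1

/-- A ray to a first missing vector `v` at `x`, with limit slope vector `u`. -/
structure Ray {E : Type*} [NormedAddCommGroup E] [NormedSpace ℝ E]
    {X : Type*} [TopologicalSpace X] {Γ : Type*} [Group Γ] [MulAction Γ X]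
    (D : X → E) (L : Γ →* (E ≃ₗ[ℝ] E)) (K : Set X) (ε : ℝ)
    (ω : E →ₗ[ℝ] E →ₗ[ℝ] ℝ) (c A : ℝ) (x : X) (v u : E) : Prop where
  fm : Fm D x v
  wu : ω v u = 1
  A_nonneg : 0 ≤ A
  gap : ∀ t ∈ Ico (0 : ℝ) 1, ∀ γ : Γ, Val K (ex D x (t • v)) γ → ε < (1 - t) * Nm L γ v
  slope : ∀ t ∈ Ico (0 : ℝ) 1, ∀ γ : Γ, Val K (ex D x (t • v)) γ → ∀ w : E, Slp L ω c v γ w →
    ∃ κ : ℝ, w = u + κ • v ∧ |κ| ≤ A * (1 - t) ^ 2

variable {E : Type*} [NormedAddCommGroup E] [NormedSpace ℝ E] [FiniteDimensional ℝ E]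
variable {X : Type*} [TopologicalSpace X] [T2Space X]
variable {Γ : Type*} [Group Γ] [MulAction Γ X] [ContinuousConstSMul Γ X]
  [ProperlyDiscontinuousSMul Γ X]
variable {D : X → E} {L : Γ →* (E ≃ₗ[ℝ] E)} {b : Γ → E} {K : Set X} {ε : ℝ}
variable {ω : E →ₗ[ℝ] E →ₗ[ℝ] ℝ} {c C : ℝ}

theorem Fm.ne_zero {x : X} {v : E} (h : Fm D x v) : v ≠ 0 := by
  rintro rfl
  exact h.miss (zero_mem_dom D x)

/-- PROOF: otherwise `(1 - t) • v ∈ Dom D (ex D x (t • v))` by `chart_val`; for `t > 0` use `collinear` with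
`r = (1 - t) / t`, for `t = 0` it is `v ∈ Dom D x` (`ex D x 0 = x`). -/
theorem PlSys.gap (S : PlSys D L b K ε ω c C) {x : X} {v : E} (h : Fm D x v) {t : ℝ}
    (ht : t ∈ Ico (0 : ℝ) 1) {γ : Γ} (hγ : Val K (ex D x (t • v)) γ) :
    ε < (1 - t) * Nm L γ v := by
  by_contra hcon
  push Not at hcon
  have h1 : Nm L γ ((1 - t) • v) ≤ ε := by
    rw [Nm_smul, abs_of_pos (by linarith [ht.2])]
    exact hcon
  have h2 := S.af.chart_val hγ h1
  rcases eq_or_lt_of_le ht.1 with h0 | h0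
  · rw [← h0, zero_smul, ex_zero S.af.hD, sub_zero, one_smul] at h2
    exact h.miss h2
  · have h3 : ((1 - t) / t) • (t • v) ∈ Dom D (ex D x (t • v)) := by
      rw [smul_smul, div_mul_cancel₀ _ h0.ne']
      exact h2
    have h4 := (collinear S.af.hD (r := (1 - t) / t)
      (div_nonneg (by linarith [ht.2]) h0.le) (h.dom t ht) h3).1
    have h5 : (1 + (1 - t) / t) * t = 1 := by
      rw [add_mul, div_mul_cancel₀ _ h0.ne']
      ring
    rw [smul_smul, h5, one_smul] at h4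
    exact h.miss h4

/-- Moving along the ray. PROOF: `move` with the convex set `segment` `{s • v | s ∈ [0, t']}`, which is in
`Dom D x` (`smul_mem_dom`). -/
theorem Fm.ex_ex (hD : IsLocalHomeomorph D) {x : X} {v : E} (h : Fm D x v) {t t' : ℝ}
    (ht : t ∈ Ico (0 : ℝ) 1) (ht' : t' ∈ Ico (0 : ℝ) 1) :
    (t' - t) • v ∈ Dom D (ex D x (t • v)) ∧
      ex D (ex D x (t • v)) ((t' - t) • v) = ex D x (t' • v) := by
  have hC : Convex ℝ ((fun s : ℝ => s • v) '' Ico (0 : ℝ) 1) :=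
    (convex_Ico (0 : ℝ) 1).linear_image (LinearMap.toSpanSingleton ℝ E v)
  have hsub : (fun s : ℝ => s • v) '' Ico (0 : ℝ) 1 ⊆ Dom D x := by
    rintro _ ⟨s, hs, rfl⟩
    exact h.dom s hs
  have he : t • v + (t' - t) • v = t' • v := by
    rw [← add_smul]
    congr 1
    ring
  have hm := move hD hC hsub (v := t • v) (w := (t' - t) • v) ⟨t, ht, rfl⟩
    (by rw [he]; exact ⟨t', ht', rfl⟩)
  rw [he] at hm
  exact hm

/-- PROOF: `locfin` at the points `ex D x (t • v)`, `t ∈ Icc 0 t'` (compact, `continuousOn_ex`): finitely many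
`γ` occur. -/
theorem PlSys.bdd (S : PlSys D L b K ε ω c C) {x : X} {v : E} (h : Fm D x v) {t' : ℝ}
    (ht' : t' ∈ Ico (0 : ℝ) 1) : ∃ M : ℝ, 0 < M ∧ ∀ t ∈ Icc (0 : ℝ) t', ∀ γ : Γ,
      Val K (ex D x (t • v)) γ → Nm L γ v ≤ M := by
  have hc : ContinuousOn (fun t : ℝ => ex D x (t • v)) (Icc 0 t') := by
    refine (continuousOn_ex S.af.hD x).comp (by fun_prop) ?_
    intro t ht
    exact h.dom t ⟨ht.1, lt_of_le_of_lt ht.2 ht'.2⟩
  have hP : IsCompact ((fun t : ℝ => ex D x (t • v)) '' Icc 0 t') :=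
    isCompact_Icc.image_of_continuousOn hc
  choose U hU F hF hUF using fun y => S.af.locfin y
  obtain ⟨T, -, hT⟩ := hP.elim_nhds_subcover U (fun y _ => hU y)
  have hfin : (⋃ y ∈ T, F y).Finite := T.finite_toSet.biUnion fun y _ => hF y
  obtain ⟨M, hM⟩ := (hfin.image (fun γ => Nm L γ v)).bddAbove
  refine ⟨max M 1, lt_max_of_lt_right one_pos, ?_⟩
  intro t ht γ hγ
  have h1 := hT ⟨t, ht, rfl⟩
  rw [mem_iUnion₂] at h1
  obtain ⟨y, hy, hty⟩ := h1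
  have h2 : γ ∈ ⋃ y ∈ T, F y := mem_iUnion₂.2 ⟨y, hy, hUF y _ hty γ hγ⟩
  exact (hM ⟨γ, h2, rfl⟩).trans (le_max_left _ _)

/-- Backward induction along the ray in steps `θ * ε / Nm L γ v`.
PROOF: with `M` from `bdd`, all steps are at least `θ * ε / M`; show by induction on `N` that `Q t γ` holds when
`t' - t ≤ N * (θ * ε / M)`. -/
theorem PlSys.chain (S : PlSys D L b K ε ω c C) {x : X} {v : E} (h : Fm D x v) {t₀ t' θ : ℝ}
    (h0 : 0 ≤ t₀) (ht' : t' < 1) (hθ : 0 < θ) (Q : ℝ → Γ → Prop)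
    (hlast : ∀ t ∈ Icc t₀ t', ∀ γ : Γ, Val K (ex D x (t • v)) γ →
      (t' - t) * Nm L γ v ≤ θ * ε → Q t γ)
    (hstep : ∀ t ∈ Icc t₀ t', ∀ γ : Γ, Val K (ex D x (t • v)) γ →
      θ * ε < (t' - t) * Nm L γ v →
      (∀ γ₂ : Γ, Val K (ex D x ((t + θ * ε / Nm L γ v) • v)) γ₂ →
        Q (t + θ * ε / Nm L γ v) γ₂) → Q t γ) :
    ∀ t ∈ Icc t₀ t', ∀ γ : Γ, Val K (ex D x (t • v)) γ → Q t γ := by
  intro t₁ ht₁ γ₁ hγ₁
  have ht0' : 0 ≤ t' := h0.trans (ht₁.1.trans ht₁.2)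
  obtain ⟨M, hM, hMb⟩ := S.bdd h (t' := t') ⟨ht0', ht'⟩
  have hε := S.af.ε_pos
  have hs : 0 < θ * ε / M := by positivity
  have key : ∀ N : ℕ, ∀ t ∈ Icc t₀ t', t' - t ≤ N * (θ * ε / M) → ∀ γ : Γ,
      Val K (ex D x (t • v)) γ → Q t γ := by
    intro N
    induction N with
    | zero =>
      intro t ht htN γ hγ
      rw [Nat.cast_zero, zero_mul] at htN
      have h1 : t' - t = 0 := le_antisymm htN (by linarith [ht.2])
      refine hlast t ht γ hγ ?_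
      rw [h1, zero_mul]
      positivity
    | succ N ih =>
      intro t ht htN γ hγ
      by_cases h1 : (t' - t) * Nm L γ v ≤ θ * ε
      · exact hlast t ht γ hγ h1
      · push Not at h1
        have hpos : 0 < Nm L γ v := Nm_pos L γ h.ne_zero
        have h2 : θ * ε / Nm L γ v < t' - t := by
          rw [div_lt_iff₀ hpos]
          exact h1
        have h3 : 0 < θ * ε / Nm L γ v := by positivity
        have h4 : θ * ε / M ≤ θ * ε / Nm L γ v := by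
          have h5 := hMb t ⟨h0.trans ht.1, ht.2⟩ γ hγ
          gcongr
        refine hstep t ht γ hγ h1 fun γ₂ hγ₂ => ?_
        refine ih _ ⟨by linarith [ht.1], by linarith⟩ ?_ γ₂ hγ₂
        push_cast at htN
        linarith
  obtain ⟨N, hN⟩ := exists_nat_gt ((t' - t₁) / (θ * ε / M))
  refine key N t₁ ht₁ ?_ γ₁ hγ₁
  rw [div_lt_iff₀ hs] at hN
  exact hN.le

/-- Comparison of the norms of two points of the ray at distance at most `ε / Nm L γ v`.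
PROOF: `S.comp` and `Fm.ex_ex`. -/
theorem PlSys.comp_ray (S : PlSys D L b K ε ω c C) {x : X} {v : E} (h : Fm D x v) {t t' : ℝ}
    (ht : t ∈ Ico (0 : ℝ) 1) (ht' : t' ∈ Ico (0 : ℝ) 1) (htt : t ≤ t') {γ γ' : Γ}
    (hγ : Val K (ex D x (t • v)) γ) (hγ' : Val K (ex D x (t' • v)) γ')
    (hs : (t' - t) * Nm L γ v ≤ ε) (z : E) :
    Nm L γ' z ≤ C * Nm L γ z ∧ Nm L γ z ≤ C * Nm L γ' z := by
  refine S.comp (ex D x (t • v)) γ ((t' - t) • v) γ' hγ ?_ ?_ z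
  · rw [Nm_smul, abs_of_nonneg (sub_nonneg.2 htt)]
    exact hs
  · rw [(h.ex_ex S.af.hD ht ht').2]
    exact hγ'

/-- PROOF: `area.low` for `L γ⁻¹ v` gives `w'`; `w = (ω v (L γ w'))⁻¹ • L γ w'`, `inv`. -/
theorem PlSys.exists_slp (S : PlSys D L b K ε ω c C) {v : E} (hv : v ≠ 0) (γ : Γ) :
    ∃ w : E, Slp L ω c v γ w := by
  obtain ⟨w', hw', hlow⟩ := S.area.low (L γ⁻¹ v)
  have hpos : 0 < Nm L γ v := Nm_pos L γ hv
  have hc := S.area.c_pos
  have h1 := S.inv γ (L γ⁻¹ v) w'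
  have h2 : L γ (L γ⁻¹ v) = v := by
    rw [map_inv]
    exact (L γ).apply_symm_apply v
  have h3 : L γ⁻¹ (L γ w') = w' := by
    rw [map_inv]
    exact (L γ).symm_apply_apply w'
  rw [h2] at h1
  have h4 : c * Nm L γ v ≤ |ω v (L γ w')| := by
    rw [h1]
    exact hlow
  have h5 : 0 < |ω v (L γ w')| := lt_of_lt_of_le (by positivity) h4
  have h6 : ω v (L γ w') ≠ 0 := abs_pos.1 h5
  refine ⟨(ω v (L γ w'))⁻¹ • L γ w', ?_, ?_⟩
  · rw [map_smul, smul_eq_mul, inv_mul_cancel₀ h6]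
  · rw [Nm_smul, abs_inv]
    have h7 : Nm L γ (L γ w') ≤ 1 := by
      unfold Nm
      rw [h3]
      exact hw'
    calc c * Nm L γ v * (|ω v (L γ w')|⁻¹ * Nm L γ (L γ w')) ≤
          |ω v (L γ w')| * (|ω v (L γ w')|⁻¹ * 1) := by
          refine mul_le_mul h4 (mul_le_mul_of_nonneg_left h7 (by positivity)) ?_ h5.le
          exact mul_nonneg (by positivity) (Nm_nonneg _ _ _)
      _ = 1 := by
          rw [mul_one, mul_inv_cancel₀ h5.ne']

/-- PROOF: `w' - w = κ • v` by `area.par` (`ω v (w' - w) = 0`), and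
`|κ| Nm γ v ≤ Nm γ w' + Nm γ w ≤ C Nm γ' w' + Nm γ w ≤ C / (c Nm γ' v) + 1 / (c Nm γ v)`. -/
theorem PlSys.slp_sub (S : PlSys D L b K ε ω c C) {v : E} (hv : v ≠ 0) {γ γ' : Γ}
    (hc : ∀ z : E, Nm L γ' z ≤ C * Nm L γ z ∧ Nm L γ z ≤ C * Nm L γ' z) {w w' : E}
    (hw : Slp L ω c v γ w) (hw' : Slp L ω c v γ' w') :
    ∃ κ : ℝ, w' = w + κ • v ∧ |κ| * Nm L γ v ^ 2 ≤ (1 + C ^ 2) / c := by
  have hcp := S.area.c_pos
  have h1 : ω v (w' - w) = 0 := by
    rw [map_sub, hw.1, hw'.1, sub_self]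
  have h2 := S.area.par v w (w' - w)
  rw [hw.1, h1, zero_smul, add_zero, one_smul] at h2
  refine ⟨ω (w' - w) w, ?_, ?_⟩
  · rw [← h2]
    abel
  · obtain ⟨κ, hκ⟩ : ∃ κ, κ = ω (w' - w) w := ⟨_, rfl⟩
    rw [← hκ] at h2 ⊢
    have ha : 0 < Nm L γ v := Nm_pos L γ hv
    have ha' : 0 < Nm L γ' v := Nm_pos L γ' hv
    have hC : 0 ≤ C := zero_le_one.trans S.one_le
    have h3 : |κ| * Nm L γ v ≤ Nm L γ w' + Nm L γ w := by
      rw [← Nm_smul, ← h2]
      have h4 := Nm_add_le L γ w' (-w)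
      have h5 : Nm L γ (-w) = Nm L γ w := by
        unfold Nm
        rw [map_neg, norm_neg]
      rw [h5, ← sub_eq_add_neg] at h4
      exact h4
    have h4 : Nm L γ w' ≤ C * Nm L γ' w' := (hc w').2
    have h5 : Nm L γ v ≤ C * Nm L γ' v := (hc v).2
    have h6 : c * Nm L γ v * Nm L γ w ≤ 1 := hw.2
    have h7 : c * Nm L γ' v * Nm L γ' w' ≤ 1 := hw'.2
    rw [le_div_iff₀ hcp]
    have n1 := Nm_nonneg L γ w'
    have n2 := Nm_nonneg L γ' w'
    have h8 : Nm L γ v * Nm L γ w' ≤ (C * Nm L γ' v) * (C * Nm L γ' w') :=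
      mul_le_mul h5 h4 n1 (by positivity)
    calc |κ| * Nm L γ v ^ 2 * c = (|κ| * Nm L γ v) * (c * Nm L γ v) := by ring
      _ ≤ (Nm L γ w' + Nm L γ w) * (c * Nm L γ v) :=
          mul_le_mul_of_nonneg_right h3 (by positivity)
      _ = c * (Nm L γ v * Nm L γ w') + c * Nm L γ v * Nm L γ w := by ring
      _ ≤ c * ((C * Nm L γ' v) * (C * Nm L γ' w')) + 1 :=
          add_le_add (mul_le_mul_of_nonneg_left h8 hcp.le) h6
      _ = C ^ 2 * (c * Nm L γ' v * Nm L γ' w') + 1 := by ring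
      _ ≤ C ^ 2 * 1 + 1 := by
          have := mul_le_mul_of_nonneg_left h7 (sq_nonneg C)
          linarith
      _ = 1 + C ^ 2 := by ring

end H83T
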