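import Pool.Agent.H.MP_7a8a58_gt.h83c.PlA

/-!
MP_7a8a58_gt, helper83, second part.  Area forms on a plane.
Paper proof: /team-store/h83_7a8a58_T3.md
-/

set_option autoImplicit false

open Set Metric Topology Filter

namespace H83T

/-- Area form with a constant `c`. -/
structure AreaF {E : Type*} [NormedAddCommGroup E] [NormedSpace ℝ E]
    (ω : E →ₗ[ℝ] E →ₗ[ℝ] ℝ) (c : ℝ) : Prop where
  alt : ∀ v : E, ω v v = 0
  c_pos : 0 < c
  low : ∀ v : E, ∃ w : E, ‖w‖ ≤ 1 ∧ c * ‖v‖ ≤ |ω v w|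
  pres : ∀ A : E ≃ₗ[ℝ] E, |LinearMap.det (A : E →ₗ[ℝ] E)| = 1 →
    ∀ v w : E, |ω (A v) (A w)| = |ω v w|
  par : ∀ v w z : E, ω v w • z = ω z w • v + ω v z • w

variable {E : Type*} [NormedAddCommGroup E] [NormedSpace ℝ E]

/-- PROOF: choose a basis `e : Basis (Fin 2) ℝ E` (`finBasisOfFinrankEq`) and
`ω v w = (e.repr v 0) * (e.repr w 1) - (e.repr v 1) * (e.repr w 0)`. `alt`, `par`: ring in coordinates
(`e.ext_elem` / `Basis.sum_repr`); `pres`: `ω (A v) (A w) = det A * ω v w` (`LinearMap.det_toMatrix e`,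
`Matrix.det_fin_two`). `low`: with `M = max ‖e 0‖ ‖e 1‖ > 0`, `‖v‖ ≤ |v0| ‖e 0‖ + |v1| ‖e 1‖ ≤ 2 M max |v0| |v1|`,
take `w = e 1 / M` or `e 0 / M`: `|ω v w| = |v0| / M` or `|v1| / M`. So `c = 1 / (2 M ^ 2)`. -/
theorem exists_areaF (h : Module.finrank ℝ E = 2) :
    ∃ (ω : E →ₗ[ℝ] E →ₗ[ℝ] ℝ) (c : ℝ), AreaF ω c := by
  have : FiniteDimensional ℝ E := Module.finite_of_finrank_pos (by rw [h]; norm_num)
  let e : Module.Basis (Fin 2) ℝ E := Module.finBasisOfFinrankEq ℝ E h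
  let ω : E →ₗ[ℝ] E →ₗ[ℝ] ℝ := LinearMap.mk₂ ℝ
    (fun v w => e.repr v 0 * e.repr w 1 - e.repr v 1 * e.repr w 0)
    (fun v v' w => by simp only [map_add, Finsupp.add_apply]; ring)
    (fun t v w => by simp only [map_smul, Finsupp.smul_apply, smul_eq_mul]; ring)
    (fun v w w' => by simp only [map_add, Finsupp.add_apply]; ring)
    (fun t v w => by simp only [map_smul, Finsupp.smul_apply, smul_eq_mul]; ring)
  have hω : ∀ v w : E, ω v w = e.repr v 0 * e.repr w 1 - e.repr v 1 * e.repr w 0 :=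
    fun v w => rfl
  have hsum : ∀ v : E, v = e.repr v 0 • e 0 + e.repr v 1 • e 1 := by
    intro v
    have := e.sum_repr v
    rw [Fin.sum_univ_two] at this
    exact this.symm
  obtain ⟨M, hM0, hM1, hM2⟩ : ∃ M : ℝ, 0 < M ∧ ‖e 0‖ ≤ M ∧ ‖e 1‖ ≤ M := by
    refine ⟨max ‖e 0‖ ‖e 1‖, ?_, le_max_left _ _, le_max_right _ _⟩
    exact lt_of_lt_of_le (norm_pos_iff.2 (e.ne_zero 0)) (le_max_left _ _)
  refine ⟨ω, 1 / (2 * M ^ 2), ?_, ?_, ?_, ?_, ?_⟩
  · intro v
    rw [hω]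
    ring
  · positivity
  · intro v
    have hv : ‖v‖ ≤ |e.repr v 0| * M + |e.repr v 1| * M := by
      conv_lhs => rw [hsum v]
      refine (norm_add_le _ _).trans (add_le_add ?_ ?_)
      · rw [norm_smul, Real.norm_eq_abs]
        exact mul_le_mul_of_nonneg_left hM1 (abs_nonneg _)
      · rw [norm_smul, Real.norm_eq_abs]
        exact mul_le_mul_of_nonneg_left hM2 (abs_nonneg _)
    have key : ∀ x y : ℝ, |y| ≤ |x| → ‖v‖ ≤ |x| * M + |y| * M →
        1 / (2 * M ^ 2) * ‖v‖ ≤ |x| / M := by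
      intro x y hxy h1
      have h2 : ‖v‖ ≤ 2 * M * |x| := by nlinarith
      calc 1 / (2 * M ^ 2) * ‖v‖ ≤ 1 / (2 * M ^ 2) * (2 * M * |x|) :=
            mul_le_mul_of_nonneg_left h2 (by positivity)
        _ = |x| / M := by field_simp
    rcases le_total |e.repr v 1| |e.repr v 0| with h1 | h1
    · refine ⟨(1 / M) • e 1, ?_, ?_⟩
      · rw [norm_smul, Real.norm_eq_abs, abs_of_pos (by positivity), one_div,
          inv_mul_le_iff₀ hM0, mul_one]
        exact hM2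
      · have h2 : ω v ((1 / M) • e 1) = e.repr v 0 / M := by
          rw [hω, map_smul, Module.Basis.repr_self]
          simp
          ring
        rw [h2, abs_div, abs_of_pos hM0]
        exact key _ _ h1 hv
    · refine ⟨(1 / M) • e 0, ?_, ?_⟩
      · rw [norm_smul, Real.norm_eq_abs, abs_of_pos (by positivity), one_div,
          inv_mul_le_iff₀ hM0, mul_one]
        exact hM1
      · have h2 : ω v ((1 / M) • e 0) = -(e.repr v 1 / M) := by
          rw [hω, map_smul, Module.Basis.repr_self]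
          simp
          ring
        rw [h2, abs_neg, abs_div, abs_of_pos hM0]
        exact key _ _ h1 (by linarith)
  · intro A hA v w
    have hm : ∀ u : E, ∀ i : Fin 2, e.repr (A u) i =
        LinearMap.toMatrix e e (A : E →ₗ[ℝ] E) i 0 * e.repr u 0 +
        LinearMap.toMatrix e e (A : E →ₗ[ℝ] E) i 1 * e.repr u 1 := by
      intro u i
      have h1 := congrFun (LinearMap.toMatrix_mulVec_repr e e (A : E →ₗ[ℝ] E) u) i
      rw [Matrix.mulVec, dotProduct, Fin.sum_univ_two] at h1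
      exact h1.symm
    have hd : LinearMap.det (A : E →ₗ[ℝ] E) =
        LinearMap.toMatrix e e (A : E →ₗ[ℝ] E) 0 0 * LinearMap.toMatrix e e (A : E →ₗ[ℝ] E) 1 1 -
        LinearMap.toMatrix e e (A : E →ₗ[ℝ] E) 0 1 *
          LinearMap.toMatrix e e (A : E →ₗ[ℝ] E) 1 0 := by
      rw [← LinearMap.det_toMatrix e, Matrix.det_fin_two]
    have h1 : ω (A v) (A w) = LinearMap.det (A : E →ₗ[ℝ] E) * ω v w := by
      rw [hω, hω, hm, hm, hm, hm, hd]
      ring
    rw [h1, abs_mul, hA, one_mul]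
  · intro v w z
    apply e.ext_elem
    intro i
    simp only [map_add, map_smul, Finsupp.add_apply, Finsupp.smul_apply, smul_eq_mul, hω]
    fin_cases i
    · show (e.repr v 0 * e.repr w 1 - e.repr v 1 * e.repr w 0) * e.repr z 0 =
        (e.repr z 0 * e.repr w 1 - e.repr z 1 * e.repr w 0) * e.repr v 0 +
          (e.repr v 0 * e.repr z 1 - e.repr v 1 * e.repr z 0) * e.repr w 0
      ring
    · show (e.repr v 0 * e.repr w 1 - e.repr v 1 * e.repr w 0) * e.repr z 1 =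
        (e.repr z 0 * e.repr w 1 - e.repr z 1 * e.repr w 0) * e.repr v 1 +
          (e.repr v 0 * e.repr z 1 - e.repr v 1 * e.repr z 0) * e.repr w 1
      ring

/-- All constants of a system in dimension two. -/
structure PlSys {E : Type*} [NormedAddCommGroup E] [NormedSpace ℝ E]
    {X : Type*} [TopologicalSpace X] {Γ : Type*} [Group Γ] [MulAction Γ X]
    (D : X → E) (L : Γ →* (E ≃ₗ[ℝ] E)) (b : Γ → E) (K : Set X) (ε : ℝ)
    (ω : E →ₗ[ℝ] E →ₗ[ℝ] ℝ) (c C : ℝ) : Prop where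
  af : AfSys D L b K ε
  area : AreaF ω c
  inv : ∀ (γ : Γ) (v w : E), |ω (L γ v) (L γ w)| = |ω v w|
  one_le : 1 ≤ C
  comp : ∀ (x : X) (γ : Γ) (w : E) (γ' : Γ), Val K x γ → Nm L γ w ≤ ε → Val K (ex D x w) γ' →
    ∀ z : E, Nm L γ' z ≤ C * Nm L γ z ∧ Nm L γ z ≤ C * Nm L γ' z

theorem exists_plSys {X : Type*} [TopologicalSpace X] [T2Space X] {Γ : Type*} [Group Γ]
    [MulAction Γ X] [ContinuousConstSMul Γ X] [ProperlyDiscontinuousSMul Γ X]
    {D : X → E} {L : Γ →* (E ≃ₗ[ℝ] E)} {b : Γ → E} (h : Module.finrank ℝ E = 2)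
    (hD : IsLocalHomeomorph D) (heq : ∀ (γ : Γ) (x : X), D (γ • x) = L γ (D x) + b γ)
    (hco : ∃ K : Set X, IsCompact K ∧ ∀ x : X, ∃ γ : Γ, γ • x ∈ K)
    (hdet : ∀ γ : Γ, |LinearMap.det (L γ : E →ₗ[ℝ] E)| = 1) :
    ∃ (K : Set X) (ε : ℝ) (ω : E →ₗ[ℝ] E →ₗ[ℝ] ℝ) (c C : ℝ), PlSys D L b K ε ω c C := by
  have : FiniteDimensional ℝ E := Module.finite_of_finrank_pos (by rw [h]; norm_num)
  obtain ⟨K, ε, S⟩ := exists_afSys hD heq hco
  obtain ⟨ω, c, W⟩ := exists_areaF h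
  obtain ⟨C, hC, hcomp⟩ := S.comp
  exact ⟨K, ε, ω, c, C, S, W, fun γ => W.pres (L γ) (hdet γ), hC, hcomp⟩

end H83T
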