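import Mathlib

/-!
MP_7a8a58_gt, helper83, second part.  Groups acting properly and cocompactly are finitely generated.
Paper proof: /team-store/h83_7a8a58_T3.md
-/

set_option autoImplicit false

open Set Metric Topology Filter

namespace H83T

/-- PROOF: near a point a local homeomorphism to a locally compact space has a compact neighbourhood:
`e : OpenPartialHomeomorph` with `D = e`, the image under `e.symm` of a compact neighbourhood of `D x` in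
`e.target`. -/
theorem exists_compact_nhds {X E : Type*} [TopologicalSpace X] [TopologicalSpace E]
    [LocallyCompactSpace E] {D : X → E} (hD : IsLocalHomeomorph D) (x : X) {U : Set X}
    (hU : U ∈ 𝓝 x) : ∃ N ∈ 𝓝 x, IsCompact N ∧ N ⊆ U := by
  obtain ⟨e, hx, -⟩ := hD x
  have h1 : e '' (e.source ∩ U) ∈ 𝓝 (e x) :=
    e.image_mem_nhds hx (inter_mem (e.open_source.mem_nhds hx) hU)
  obtain ⟨N', hN', hsub, hc⟩ := local_compact_nhds h1
  have htar : N' ⊆ e.target := by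
    intro y hy
    obtain ⟨u, hu, rfl⟩ := hsub hy
    exact e.map_source hu.1
  refine ⟨e.symm '' N', ?_, ?_, ?_⟩
  · have h2 := e.symm.image_mem_nhds (x := e x) (e.map_source hx) hN'
    rwa [e.left_inv hx] at h2
  · exact hc.image_of_continuousOn (e.symm.continuousOn.mono htar)
  · rintro _ ⟨y, hy, rfl⟩
    obtain ⟨u, hu, rfl⟩ := hsub hy
    rw [e.left_inv hu.1]
    exact hu.2

/-- PROOF: cover the compact `K` by finitely many compact neighbourhoods: an open `U ⊇ K` and a compact `N ⊇ U`.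
`F = {γ | γ • N ∩ N ≠ ∅}` is finite, `H = Subgroup.closure F`, `W = ⋃ h ∈ H, h • U` is open. If `γ • W` meets `γ' • W` then
`γ⁻¹ * γ' ∈ H`. So `W` and `⋃ γ ∉ H, γ • W` are disjoint open sets that cover `X`, `W` is not empty, so `W = X`
(`ConnectedSpace`). If `x ∈ K` and `γ` is arbitrary, `γ • x = h • u` with `u ∈ U`, so `h⁻¹ * γ ∈ F`, `γ ∈ H`. -/
theorem fg_of_cocompact {X : Type*} [TopologicalSpace X] [T2Space X] [ConnectedSpace X]
    {Γ : Type*} [Group Γ] [MulAction Γ X] [ContinuousConstSMul Γ X]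
    [ProperlyDiscontinuousSMul Γ X]
    (hloc : ∀ x : X, ∃ N ∈ 𝓝 x, IsCompact N)
    (hco : ∃ K : Set X, IsCompact K ∧ ∀ x : X, ∃ γ : Γ, γ • x ∈ K) : Group.FG Γ := by
  obtain ⟨K, hK, hcov⟩ := hco
  choose P hP hPc using hloc
  obtain ⟨T, -, hT⟩ := hK.elim_nhds_subcover (fun x => interior (P x))
    (fun x _ => interior_mem_nhds.2 (hP x))
  obtain ⟨U, hU⟩ : ∃ U, U = ⋃ x ∈ T, interior (P x) := ⟨_, rfl⟩
  obtain ⟨N, hN⟩ : ∃ N, N = ⋃ x ∈ T, P x := ⟨_, rfl⟩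
  have hUo : IsOpen U := by
    rw [hU]
    exact isOpen_biUnion fun x _ => isOpen_interior
  have hNc : IsCompact N := by
    rw [hN]
    exact T.isCompact_biUnion fun x _ => hPc x
  have hKU : K ⊆ U := by
    rw [hU]
    exact hT
  have hUN : U ⊆ N := by
    rw [hU, hN]
    exact iUnion₂_mono fun x _ => interior_subset
  have hfin : Set.Finite {γ : Γ | (((γ • ·) '' N) ∩ N).Nonempty} :=
    ProperlyDiscontinuousSMul.finite_disjoint_inter_image (Γ := Γ) hNc hNc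
  refine (Group.fg_iff).2 ⟨{γ : Γ | (((γ • ·) '' N) ∩ N).Nonempty}, ?_, hfin⟩
  obtain ⟨H, hH⟩ : ∃ H, H = Subgroup.closure {γ : Γ | (((γ • ·) '' N) ∩ N).Nonempty} := ⟨_, rfl⟩
  rw [← hH]
  have hF : ∀ γ : Γ, ∀ u ∈ U, γ • u ∈ U → γ ∈ H := by
    intro γ u hu hγ
    rw [hH]
    exact Subgroup.subset_closure ⟨γ • u, ⟨u, hUN hu, rfl⟩, hUN hγ⟩
  have hWo : ∀ Q : Γ → Prop, IsOpen {x : X | ∃ γ, Q γ ∧ γ⁻¹ • x ∈ U} := by
    intro Q
    have e : {x : X | ∃ γ, Q γ ∧ γ⁻¹ • x ∈ U} =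
        ⋃ γ ∈ {γ | Q γ}, (fun x : X => γ⁻¹ • x) ⁻¹' U := by
      ext x
      simp
    rw [e]
    exact isOpen_biUnion fun γ _ => hUo.preimage (continuous_const_smul _)
  have hdis : ∀ x : X, (∃ γ, γ ∈ H ∧ γ⁻¹ • x ∈ U) → ¬ ∃ γ, γ ∉ H ∧ γ⁻¹ • x ∈ U := by
    rintro x ⟨h, hh, hhx⟩ ⟨γ, hγ, hγx⟩
    have h1 : γ⁻¹ * h ∈ H := by
      refine hF _ _ hhx ?_
      rw [mul_smul, smul_inv_smul]
      exact hγx
    have h2 : γ⁻¹ ∈ H := by
      have h3 := H.mul_mem h1 (H.inv_mem hh)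
      rwa [mul_inv_cancel_right] at h3
    exact hγ (by simpa using H.inv_mem h2)
  have hall : ∀ x : X, (∃ γ, γ ∈ H ∧ γ⁻¹ • x ∈ U) ∨ ∃ γ, γ ∉ H ∧ γ⁻¹ • x ∈ U := by
    intro x
    obtain ⟨γ, hγ⟩ := hcov x
    by_cases h : γ⁻¹ ∈ H
    · exact Or.inl ⟨γ⁻¹, h, by rw [inv_inv]; exact hKU hγ⟩
    · exact Or.inr ⟨γ⁻¹, h, by rw [inv_inv]; exact hKU hγ⟩
  have hclo : IsClosed {x : X | ∃ γ, γ ∈ H ∧ γ⁻¹ • x ∈ U} := by
    rw [← isOpen_compl_iff]
    have e : {x : X | ∃ γ, γ ∈ H ∧ γ⁻¹ • x ∈ U}ᶜ = {x : X | ∃ γ, γ ∉ H ∧ γ⁻¹ • x ∈ U} := by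
      ext x
      constructor
      · intro hx
        exact (hall x).resolve_left hx
      · intro hx hx'
        exact hdis x hx' hx
    rw [e]
    exact hWo fun γ => γ ∉ H
  obtain ⟨x₀⟩ : Nonempty X := inferInstance
  obtain ⟨γ₀, hγ₀⟩ := hcov x₀
  have hne : {x : X | ∃ γ, γ ∈ H ∧ γ⁻¹ • x ∈ U}.Nonempty :=
    ⟨γ₀ • x₀, 1, H.one_mem, by rw [inv_one, one_smul]; exact hKU hγ₀⟩
  have huniv : {x : X | ∃ γ, γ ∈ H ∧ γ⁻¹ • x ∈ U} = univ :=
    IsClopen.eq_univ ⟨hclo, hWo fun γ => γ ∈ H⟩ hne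
  rw [eq_top_iff]
  intro γ _
  by_contra hγ
  have h1 : γ • (γ₀ • x₀) ∈ {x : X | ∃ γ, γ ∈ H ∧ γ⁻¹ • x ∈ U} := by
    rw [huniv]
    exact mem_univ _
  exact hdis _ h1 ⟨γ, hγ, by rw [inv_smul_smul]; exact hKU hγ₀⟩

end H83T
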