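import Mathlib

/-!
MP_7a8a58_gt, helper83, second part.  Small Lipschitz perturbation of a local homeomorphism.
Paper proof: /team-store/h83_7a8a58_T3.md
-/

set_option autoImplicit false

open Set Metric Topology Filter

namespace H83T

/-- PROOF: chart `e` of `D` at `x`, a ball `B` about `D x` in `e.target` with `e.symm '' B ⊆ U`; on `B` the map
`g = id + s ∘ e.symm` satisfies `ApproximatesLinearOn g (ContinuousLinearEquiv.refl ℝ E) B (1/2)`, so
`ApproximatesLinearOn.toOpenPartialHomeomorph` applies (if `E` is trivial use `Subsingleton`); compose with `e`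
(restricted to `e.source ∩ D ⁻¹' B`). -/
theorem exists_pert {E : Type*} [NormedAddCommGroup E] [NormedSpace ℝ E] [FiniteDimensional ℝ E]
    {X : Type*} [TopologicalSpace X] {D : X → E} (hD : IsLocalHomeomorph D) {s : X → E} {x : X}
    {U : Set X} (hU : U ∈ 𝓝 x)
    (hs : ∀ y ∈ U, ∀ z ∈ U, ‖s y - s z‖ ≤ (1 / 2) * ‖D y - D z‖) :
    ∃ e : OpenPartialHomeomorph X E, x ∈ e.source ∧ ∀ y ∈ e.source, e y = D y + s y := by
  have : CompleteSpace E := FiniteDimensional.complete ℝ E
  obtain ⟨e, hxe, hDe⟩ := hD x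
  obtain ⟨V, hV⟩ : ∃ V : Set E, V = e.target ∩ e.symm ⁻¹' interior U := ⟨_, rfl⟩
  have hVo : IsOpen V := by
    rw [hV]
    exact e.isOpen_inter_preimage_symm isOpen_interior
  have hA : ApproximatesLinearOn (fun w => w + s (e.symm w))
      ((ContinuousLinearEquiv.refl ℝ E : E ≃L[ℝ] E) : E →L[ℝ] E) V (1 / 2 : NNReal) := by
    intro w hw w' hw'
    rw [hV] at hw hw'
    have h1 := hs (e.symm w) (interior_subset hw.2) (e.symm w') (interior_subset hw'.2)
    rw [hDe, e.right_inv hw.1, e.right_inv hw'.1] at h1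
    have h2 : w + s (e.symm w) - (w' + s (e.symm w')) -
        ((ContinuousLinearEquiv.refl ℝ E : E ≃L[ℝ] E) : E →L[ℝ] E) (w - w') =
        s (e.symm w) - s (e.symm w') := by
      simp only [ContinuousLinearEquiv.coe_refl, ContinuousLinearMap.coe_id', id_eq]
      abel
    rw [h2]
    refine h1.trans (le_of_eq ?_)
    norm_num
  have hc : Subsingleton E ∨ (1 / 2 : NNReal) <
      ‖((ContinuousLinearEquiv.refl ℝ E : E ≃L[ℝ] E).symm : E →L[ℝ] E)‖₊⁻¹ := by
    rcases subsingleton_or_nontrivial E with h | h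
    · exact Or.inl h
    · right
      have h3 : ‖((ContinuousLinearEquiv.refl ℝ E : E ≃L[ℝ] E).symm : E →L[ℝ] E)‖₊ = 1 := by
        rw [← NNReal.coe_inj, coe_nnnorm, ContinuousLinearEquiv.refl_symm,
          ContinuousLinearEquiv.coe_refl, ContinuousLinearMap.norm_id, NNReal.coe_one]
      rw [h3, inv_one]
      rw [← NNReal.coe_lt_coe]
      norm_num
  refine ⟨e.trans (hA.toOpenPartialHomeomorph _ _ hc hVo), ?_, ?_⟩
  · rw [OpenPartialHomeomorph.trans_source]
    refine ⟨hxe, ?_⟩
    show e x ∈ V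
    rw [hV]
    refine ⟨e.map_source hxe, ?_⟩
    rw [mem_preimage, e.left_inv hxe]
    exact mem_interior_iff_mem_nhds.2 hU
  · intro y hy
    rw [OpenPartialHomeomorph.trans_source] at hy
    show e y + s (e.symm (e y)) = D y + s y
    rw [e.left_inv hy.1, hDe]

end H83T
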