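import Pool.Agent.H.MP_7a8a58_gt.h83c.PtPhi
import Pool.Agent.H.MP_7a8a58_gt.h83c.PtPert

/-!
MP_7a8a58_gt, helper83, second part.  Perturbation of a developing pair.
Paper proof: /team-store/h83_7a8a58_T3.md
-/

set_option autoImplicit false

open Set Metric Topology Filter

namespace H83T

variable {E : Type*} [NormedAddCommGroup E] [NormedSpace ℝ E] [FiniteDimensional ℝ E]
variable {X : Type*} [TopologicalSpace X] [T2Space X]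
variable {Γ : Type*} [Group Γ] [MulAction Γ X] [ContinuousConstSMul Γ X]
  [ProperlyDiscontinuousSMul Γ X]

/-- A locally finite sum is a finite sum. -/
private theorem PtLoc_sum {φ : X → ℝ} {δ : Γ → E} {F : Finset Γ} {y : X}
    (h : ∀ γ : Γ, γ ∉ F → φ (γ⁻¹ • y) = 0) :
    ∑ᶠ g : Γ, φ (g⁻¹ • y) • δ g = ∑ g ∈ F, φ (g⁻¹ • y) • δ g := by
  refine finsum_eq_sum_of_support_subset _ ?_
  intro g hg
  by_contra hgF
  rw [Function.mem_support] at hg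
  apply hg
  rw [h g (by simpa using hgF), zero_smul]

private theorem PtLoc_sum' {φ : X → ℝ} {F : Finset Γ} {y : X}
    (h : ∀ γ : Γ, γ ∉ F → φ (γ⁻¹ • y) = 0) :
    ∑ᶠ g : Γ, φ (g⁻¹ • y) = ∑ g ∈ F, φ (g⁻¹ • y) := by
  refine finsum_eq_sum_of_support_subset _ ?_
  intro g hg
  by_contra hgF
  rw [Function.mem_support] at hg
  exact hg (h g (by simpa using hgF))

/-- Equivariance. PROOF: `s (γ • x) = ∑ᶠ g, φ (g⁻¹ • γ • x) • δ g`, substitute `g = γ * h`. The sums are finite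
(`exists_finite_translates`; `finsum_eq_sum_of_support_subset`). -/
theorem pert_eqv {D : X → E} {L : Γ →* (E ≃ₗ[ℝ] E)} (hD : IsLocalHomeomorph D)
    {φ : X → ℝ} (hφ : ∃ N : Set X, IsCompact N ∧ ∀ x ∉ N, φ x = 0)
    (h1 : ∀ x : X, ∑ᶠ γ : Γ, φ (γ⁻¹ • x) = 1) {δ : Γ → E}
    (hδ : ∀ γ γ' : Γ, δ (γ * γ') = L γ (δ γ') + δ γ) (γ : Γ) (x : X) :
    ∑ᶠ g : Γ, φ (g⁻¹ • γ • x) • δ g = L γ (∑ᶠ g : Γ, φ (g⁻¹ • x) • δ g) + δ γ := by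
  obtain ⟨U, hU, F, hF⟩ := exists_finite_translates (Γ := Γ) hD hφ x
  have hFx := hF x (mem_of_mem_nhds hU)
  have e1 : ∑ᶠ g : Γ, φ (g⁻¹ • γ • x) • δ g = ∑ᶠ g : Γ, φ (g⁻¹ • x) • δ (γ * g) := by
    rw [← finsum_comp_equiv (Equiv.mulLeft γ)]
    refine finsum_congr fun g => ?_
    rw [Equiv.coe_mulLeft, mul_inv_rev, mul_smul, inv_smul_smul]
  have e2 : ∑ᶠ g : Γ, φ (g⁻¹ • x) • δ (γ * g) = ∑ g ∈ F, φ (g⁻¹ • x) • δ (γ * g) :=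
    PtLoc_sum (δ := fun g => δ (γ * g)) hFx
  have e3 := PtLoc_sum (δ := δ) hFx
  have e4 := h1 x
  rw [PtLoc_sum' hFx] at e4
  rw [e1, e2, e3, map_sum]
  have e5 : ∑ g ∈ F, φ (g⁻¹ • x) • δ (γ * g) =
      ∑ g ∈ F, (L γ (φ (g⁻¹ • x) • δ g) + φ (g⁻¹ • x) • δ γ) := by
    refine Finset.sum_congr rfl fun g _ => ?_
    rw [hδ, smul_add, map_smul]
  rw [e5, Finset.sum_add_distrib, ← Finset.sum_smul, e4, one_smul]

/-- The local estimate at one point. -/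
private theorem PtLoc_at {D : X → E} {L : Γ →* (E ≃ₗ[ℝ] E)} {b : Γ → E}
    (hD : IsLocalHomeomorph D) (heq : ∀ (γ : Γ) (x : X), D (γ • x) = L γ (D x) + b γ)
    {φ : X → ℝ} (hlip : LipD D φ) (hφ : ∃ N : Set X, IsCompact N ∧ ∀ x ∉ N, φ x = 0) (k : X) :
    ∃ V ∈ 𝓝 k, ∃ F : Finset Γ, ∃ M : ℝ, 0 ≤ M ∧ ∀ (δ : Γ → E) (B : ℝ), (∀ γ ∈ F, ‖δ γ‖ ≤ B) →
      ∀ y ∈ V, ∀ z ∈ V, ‖(∑ᶠ g : Γ, φ (g⁻¹ • y) • δ g) - ∑ᶠ g : Γ, φ (g⁻¹ • z) • δ g‖ ≤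
        M * B * ‖D y - D z‖ := by
  obtain ⟨U, hU, F, hF⟩ := exists_finite_translates (Γ := Γ) hD hφ k
  have hone : ∀ γ : Γ, ∃ V ∈ 𝓝 k, ∃ M : ℝ, 0 ≤ M ∧ ∀ y ∈ V, ∀ z ∈ V,
      ‖φ (γ⁻¹ • y) - φ (γ⁻¹ • z)‖ ≤ M * ‖D y - D z‖ := by
    intro γ
    obtain ⟨W, hW, M, hM, hWM⟩ := hlip (γ⁻¹ • k)
    have hcont : Continuous fun y : X => γ⁻¹ • y := continuous_const_smul γ⁻¹
    refine ⟨(fun y : X => γ⁻¹ • y) ⁻¹' W, hcont.continuousAt.preimage_mem_nhds hW,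
      M * ‖((L γ⁻¹ : E ≃ₗ[ℝ] E) : E →ₗ[ℝ] E).toContinuousLinearMap‖, by positivity, ?_⟩
    intro y hy z hz
    have h2 := hWM _ hy _ hz
    have h3 : D (γ⁻¹ • y) - D (γ⁻¹ • z) =
        ((L γ⁻¹ : E ≃ₗ[ℝ] E) : E →ₗ[ℝ] E).toContinuousLinearMap (D y - D z) := by
      rw [heq, heq, LinearMap.coe_toContinuousLinearMap', LinearEquiv.coe_coe, map_sub]
      abel
    rw [h3] at h2
    refine h2.trans ?_
    rw [mul_assoc]
    exact mul_le_mul_of_nonneg_left (ContinuousLinearMap.le_opNorm _ _) hM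
  choose V hV M hM hVM using hone
  refine ⟨U ∩ ⋂ γ ∈ F, V γ, Filter.inter_mem hU ((Filter.biInter_finset_mem F).2 fun γ _ => hV γ),
    F, ∑ γ ∈ F, M γ, Finset.sum_nonneg fun γ _ => hM γ, ?_⟩
  intro δ B hB y hy z hz
  rw [PtLoc_sum (hF y hy.1), PtLoc_sum (hF z hz.1), ← Finset.sum_sub_distrib, Finset.sum_mul,
    Finset.sum_mul]
  refine (norm_sum_le _ _).trans (Finset.sum_le_sum fun γ hγ => ?_)
  rw [← sub_smul, norm_smul]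
  have h2 := hVM γ y (mem_iInter₂.1 hy.2 γ hγ) z (mem_iInter₂.1 hz.2 γ hγ)
  have h3 := mul_le_mul h2 (hB γ hγ) (norm_nonneg _) (mul_nonneg (hM γ) (norm_nonneg _))
  refine h3.trans (le_of_eq ?_)
  ring

/-- Near a point of a compact set the perturbation has a small Lipschitz constant.
PROOF: for `k ∈ K`: `U_k`, `F_k` from `exists_finite_translates`; for `γ ∈ F_k` the function `φ (γ⁻¹ • ·)` satisfies the
Lipschitz estimate w.r.t. `D` on a neighbourhood of `k` (`hlip` at `γ⁻¹ • k`, `heq`); so on a neighbourhood `V_k` of `k`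
the function `y ↦ ∑ᶠ g, φ (g⁻¹ • y) • δ g = ∑ g ∈ F_k, φ (g⁻¹ • y) • δ g` has constant `≤ M_k * sup_{F_k} ‖δ‖`. Take a
finite cover of `K` by interiors of `V_k`, `F = ⋃ F_k`, `η = 1 / (2 * (1 + max M_k))`. -/
theorem pert_small {D : X → E} {L : Γ →* (E ≃ₗ[ℝ] E)} {b : Γ → E}
    (hD : IsLocalHomeomorph D) (heq : ∀ (γ : Γ) (x : X), D (γ • x) = L γ (D x) + b γ)
    {φ : X → ℝ} (hlip : LipD D φ) (hφ : ∃ N : Set X, IsCompact N ∧ ∀ x ∉ N, φ x = 0)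
    {K : Set X} (hK : IsCompact K) :
    ∃ F : Finset Γ, ∃ η > 0, ∀ δ : Γ → E, (∀ γ ∈ F, ‖δ γ‖ ≤ η) → ∀ x ∈ K, ∃ U ∈ 𝓝 x,
      ∀ y ∈ U, ∀ z ∈ U, ‖(∑ᶠ g : Γ, φ (g⁻¹ • y) • δ g) - ∑ᶠ g : Γ, φ (g⁻¹ • z) • δ g‖ ≤
        (1 / 2) * ‖D y - D z‖ := by
  classical
  choose V hV Fk M hM hVM using fun k : X => PtLoc_at (L := L) (b := b) hD heq hlip hφ k
  obtain ⟨t, -, ht⟩ := hK.elim_nhds_subcover (fun k => interior (V k))
    (fun k _ => interior_mem_nhds.2 (hV k))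
  have hMs : 0 ≤ ∑ k ∈ t, M k := Finset.sum_nonneg fun k _ => hM k
  refine ⟨t.biUnion Fk, 1 / (2 * (1 + ∑ k ∈ t, M k)), by positivity, ?_⟩
  intro δ hδ x hx
  obtain ⟨k, hk, hxk⟩ := mem_iUnion₂.1 (ht hx)
  refine ⟨V k, mem_interior_iff_mem_nhds.1 hxk, fun y hy z hz => ?_⟩
  refine (hVM k δ _ (fun γ hγ => hδ γ (Finset.mem_biUnion.2 ⟨k, hk, hγ⟩)) y hy z hz).trans ?_
  refine mul_le_mul_of_nonneg_right ?_ (norm_nonneg _)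
  have h2 : M k ≤ ∑ k ∈ t, M k := Finset.single_le_sum (fun k _ => hM k) hk
  rw [mul_one_div, div_le_div_iff₀ (by positivity) (by norm_num)]
  linarith

/-- PROOF: `φ` from `exists_phi`, `F`, `η` from `pert_small`, `D' x = D x + ∑ᶠ g, φ (g⁻¹ • x) • δ g`. The
equation is `pert_eqv`. `D'` is a local homeomorphism: for `x` choose `γ` with `γ • x ∈ K`; `exists_pert` at `γ • x`, and
`D' y = (L γ)⁻¹ (D' (γ • y) - b γ - δ γ)` near `x`. -/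
theorem exists_perturbed {D : X → E} {L : Γ →* (E ≃ₗ[ℝ] E)} {b : Γ → E}
    (hD : IsLocalHomeomorph D) (heq : ∀ (γ : Γ) (x : X), D (γ • x) = L γ (D x) + b γ)
    (hco : ∃ K : Set X, IsCompact K ∧ ∀ x : X, ∃ γ : Γ, γ • x ∈ K) :
    ∃ F : Finset Γ, ∃ η > 0, ∀ δ : Γ → E,
      (∀ γ γ' : Γ, δ (γ * γ') = L γ (δ γ') + δ γ) → (∀ γ ∈ F, ‖δ γ‖ ≤ η) →
      ∃ D' : X → E, IsLocalHomeomorph D' ∧
        ∀ (γ : Γ) (x : X), D' (γ • x) = L γ (D' x) + (b γ + δ γ) := by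
  obtain ⟨φ, hlip, hφ, h1⟩ := exists_phi hD heq hco
  obtain ⟨K, hK, hKc⟩ := hco
  obtain ⟨F, η, hη, hF⟩ := pert_small hD heq hlip hφ hK
  refine ⟨F, η, hη, fun δ hδ hδF => ?_⟩
  obtain ⟨D', hD'⟩ : ∃ D' : X → E, D' = fun x => D x + ∑ᶠ g : Γ, φ (g⁻¹ • x) • δ g := ⟨_, rfl⟩
  have heq' : ∀ (γ : Γ) (x : X), D' (γ • x) = L γ (D' x) + (b γ + δ γ) := by
    intro γ x
    rw [hD']
    show D (γ • x) + ∑ᶠ g : Γ, φ (g⁻¹ • γ • x) • δ g =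
      L γ (D x + ∑ᶠ g : Γ, φ (g⁻¹ • x) • δ g) + (b γ + δ γ)
    rw [heq, pert_eqv hD hφ h1 hδ, map_add]
    abel
  refine ⟨D', IsLocalHomeomorph.mk D' fun x => ?_, heq'⟩
  obtain ⟨γ, hγ⟩ := hKc x
  obtain ⟨U, hU, hUs⟩ := hF δ hδF (γ • x) hγ
  obtain ⟨e, he, hes⟩ := exists_pert hD hU hUs
  refine ⟨((Homeomorph.smul γ).transOpenPartialHomeomorph e).transHomeomorph
    ((Homeomorph.subRight (b γ + δ γ)).trans
      (L γ).symm.toContinuousLinearEquiv.toHomeomorph), he, ?_⟩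
  intro y hy
  have hy' : γ • y ∈ e.source := hy
  have h2 : e (γ • y) = D' (γ • y) := by
    rw [hes _ hy', hD']
  show D' y = (L γ).symm (e (γ • y) - (b γ + δ γ))
  rw [h2, heq', add_sub_cancel_right, LinearEquiv.symm_apply_apply]

end H83T
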