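import Pool.Agent.H.MP_7a8a58_gt.h83c.PlA
import Pool.Agent.H.MP_7a8a58_gt.h83c.PtFg

/-!
MP_7a8a58_gt, helper83, second part.  An equivariant partition function, locally Lipschitz with respect to
the developing map.
Paper proof: /team-store/h83_7a8a58_T3.md
-/

set_option autoImplicit false

open Set Metric Topology Filter

namespace H83T

/-- Locally Lipschitz with respect to `D`. -/
def LipD {X E G : Type*} [TopologicalSpace X] [NormedAddCommGroup E] [NormedAddCommGroup G]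
    (D : X → E) (f : X → G) : Prop :=
  ∀ x : X, ∃ U ∈ 𝓝 x, ∃ M : ℝ, 0 ≤ M ∧ ∀ y ∈ U, ∀ z ∈ U, ‖f y - f z‖ ≤ M * ‖D y - D z‖

variable {E : Type*} [NormedAddCommGroup E] [NormedSpace ℝ E] [FiniteDimensional ℝ E]
variable {X : Type*} [TopologicalSpace X] [T2Space X]

/-- A bump function.
PROOF: chart `e` of `D` at `k`, `closedBall (D k) (2 * r) ⊆ e.target`; `ψ y = max 0 (1 - ‖D y - D k‖ / r)` for
`y ∈ W = e.symm '' ball (D k) (2 * r)` (open), 0 otherwise. On `W` it is Lipschitz w.r.t. `D` with constant `1 / r`;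
`N = e.symm '' closedBall (D k) r` is compact, hence closed, `ψ = 0` on the open set `Nᶜ`, and `W ∪ Nᶜ = X`. -/
theorem exists_bump {D : X → E} (hD : IsLocalHomeomorph D) (k : X) :
    ∃ ψ : X → ℝ, LipD D ψ ∧ (∀ x, 0 ≤ ψ x) ∧ (∃ N : Set X, IsCompact N ∧ ∀ x ∉ N, ψ x = 0) ∧
      ∃ U ∈ 𝓝 k, ∀ x ∈ U, 0 < ψ x := by
  classical
  have : ProperSpace E := FiniteDimensional.proper ℝ E
  obtain ⟨e, hk, he⟩ := hD k
  obtain ⟨r', hr', hsub⟩ := Metric.isOpen_iff.1 e.open_target (e k) (e.map_source hk)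
  obtain ⟨r, hr⟩ : ∃ r, r = r' / 2 := ⟨_, rfl⟩
  have hr0 : 0 < r := by rw [hr]; linarith
  have h2r : ball (e k) (2 * r) ⊆ e.target := by
    rw [hr]
    convert hsub using 2
    ring
  obtain ⟨W, hW⟩ : ∃ W, W = e.symm '' ball (e k) (2 * r) := ⟨_, rfl⟩
  obtain ⟨N, hN⟩ : ∃ N, N = e.symm '' closedBall (e k) r := ⟨_, rfl⟩
  have hcb : closedBall (e k) r ⊆ ball (e k) (2 * r) := closedBall_subset_ball (by linarith)
  have hWo : IsOpen W := by
    rw [hW]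
    exact e.symm.isOpen_image_of_subset_source isOpen_ball h2r
  have hNc : IsCompact N := by
    rw [hN]
    exact (isCompact_closedBall _ _).image_of_continuousOn
      (e.symm.continuousOn.mono (hcb.trans h2r))
  have hNW : N ⊆ W := by
    rw [hN, hW]
    exact image_mono hcb
  have hDW : ∀ y ∈ W, y ∉ N → r < ‖D y - D k‖ := by
    intro y hy hyN
    rw [hW] at hy
    obtain ⟨v, hv, rfl⟩ := hy
    have h1 : D (e.symm v) = v := by
      rw [he]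
      exact e.right_inv (h2r hv)
    rw [h1]
    by_contra hle
    refine hyN ?_
    rw [hN]
    refine ⟨v, ?_, rfl⟩
    rw [mem_closedBall, dist_eq_norm, ← he]
    exact not_lt.1 hle
  have hkW : k ∈ W := by
    rw [hW]
    exact ⟨e k, mem_ball_self (by linarith), e.left_inv hk⟩
  obtain ⟨ψ, hψ⟩ : ∃ ψ : X → ℝ, ψ = W.indicator fun y => max 0 (1 - ‖D y - D k‖ / r) := ⟨_, rfl⟩
  have hψ1 : ∀ y ∈ W, ψ y = max 0 (1 - ‖D y - D k‖ / r) := by
    intro y hy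
    rw [hψ, indicator_of_mem hy]
  have hψ2 : ∀ y ∉ N, ψ y = 0 := by
    intro y hy
    by_cases h : y ∈ W
    · rw [hψ1 y h, max_eq_left]
      have h1 := hDW y h hy
      have h2 : 1 < ‖D y - D k‖ / r := (one_lt_div hr0).2 h1
      linarith
    · rw [hψ, indicator_of_notMem h]
  refine ⟨ψ, ?_, ?_, ⟨N, hNc, hψ2⟩, ?_⟩
  · intro x
    by_cases hx : x ∈ W
    · refine ⟨W, hWo.mem_nhds hx, 1 / r, by positivity, fun y hy z hz => ?_⟩
      rw [hψ1 y hy, hψ1 z hz, Real.norm_eq_abs, max_comm 0, max_comm 0]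
      refine (abs_max_sub_max_le_abs _ _ _).trans ?_
      have h1 : 1 - ‖D y - D k‖ / r - (1 - ‖D z - D k‖ / r) =
          (‖D z - D k‖ - ‖D y - D k‖) / r := by ring
      have h2 : |‖D z - D k‖ - ‖D y - D k‖| ≤ ‖D y - D z‖ := by
        refine (abs_norm_sub_norm_le _ _).trans ?_
        rw [sub_sub_sub_cancel_right, norm_sub_rev]
      rw [h1, abs_div, abs_of_pos hr0, one_div, div_eq_inv_mul]
      exact mul_le_mul_of_nonneg_left h2 (by positivity)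
    · refine ⟨Nᶜ, hNc.isClosed.isOpen_compl.mem_nhds fun h => hx (hNW h), 0, le_rfl,
        fun y hy z hz => ?_⟩
      rw [hψ2 y hy, hψ2 z hz, sub_zero, norm_zero, zero_mul]
  · intro x
    by_cases hx : x ∈ W
    · rw [hψ1 x hx]
      exact le_max_left _ _
    · rw [hψ, indicator_of_notMem hx]
  · have hDc : Continuous D := hD.continuous
    refine ⟨W ∩ D ⁻¹' ball (D k) r, inter_mem (hWo.mem_nhds hkW)
      (hDc.continuousAt.preimage_mem_nhds (ball_mem_nhds _ hr0)), fun y hy => ?_⟩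
    rw [hψ1 y hy.1]
    refine lt_max_of_lt_right ?_
    have h1 : ‖D y - D k‖ < r := by
      rw [← dist_eq_norm]
      exact hy.2
    have h2 : ‖D y - D k‖ / r < 1 := (div_lt_one hr0).2 h1
    linarith

private theorem PtPhi_add {D : X → E} {f g : X → ℝ} (hf : LipD D f) (hg : LipD D g) :
    LipD D fun x => f x + g x := by
  intro x
  obtain ⟨U, hU, M, hM, h1⟩ := hf x
  obtain ⟨U', hU', M', hM', h2⟩ := hg x
  refine ⟨U ∩ U', inter_mem hU hU', M + M', by positivity, fun y hy z hz => ?_⟩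
  have h3 := h1 y hy.1 z hz.1
  have h4 := h2 y hy.2 z hz.2
  have h5 : f y + g y - (f z + g z) = (f y - f z) + (g y - g z) := by ring
  rw [h5, add_mul]
  exact (norm_add_le _ _).trans (add_le_add h3 h4)

private theorem PtPhi_zero (D : X → E) : LipD D fun _ => (0 : ℝ) :=
  fun _ => ⟨univ, univ_mem, 0, le_rfl, fun y _ z _ => by rw [sub_zero, norm_zero, zero_mul]⟩

/-- PROOF: finite sum of bump functions over a finite cover of `K`. -/
theorem exists_bump_compact {D : X → E} (hD : IsLocalHomeomorph D) {K : Set X}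
    (hK : IsCompact K) :
    ∃ ψ : X → ℝ, LipD D ψ ∧ (∀ x, 0 ≤ ψ x) ∧ (∃ N : Set X, IsCompact N ∧ ∀ x ∉ N, ψ x = 0) ∧
      ∀ x ∈ K, 0 < ψ x := by
  refine hK.induction_on (p := fun K => ∃ ψ : X → ℝ, LipD D ψ ∧ (∀ x, 0 ≤ ψ x) ∧
    (∃ N : Set X, IsCompact N ∧ ∀ x ∉ N, ψ x = 0) ∧ ∀ x ∈ K, 0 < ψ x) ?_ ?_ ?_ ?_
  · exact ⟨fun _ => 0, PtPhi_zero D, fun _ => le_rfl, ⟨∅, isCompact_empty, fun _ _ => rfl⟩,
      fun x hx => absurd hx (notMem_empty x)⟩
  · rintro s t hst ⟨ψ, h1, h2, h3, h4⟩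
    exact ⟨ψ, h1, h2, h3, fun x hx => h4 x (hst hx)⟩
  · rintro s t ⟨ψ, h1, h2, ⟨N, h3, h3'⟩, h4⟩ ⟨ψ', k1, k2, ⟨N', k3, k3'⟩, k4⟩
    refine ⟨fun x => ψ x + ψ' x, PtPhi_add h1 k1, fun x => add_nonneg (h2 x) (k2 x),
      ⟨N ∪ N', h3.union k3, fun x hx => ?_⟩, fun x hx => ?_⟩
    · rw [mem_union, not_or] at hx
      show ψ x + ψ' x = 0
      rw [h3' x hx.1, k3' x hx.2, add_zero]
    · rcases hx with hx | hx
      · exact add_pos_of_pos_of_nonneg (h4 x hx) (k2 x)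
      · exact add_pos_of_nonneg_of_pos (h2 x) (k4 x hx)
  · intro x _
    obtain ⟨ψ, h1, h2, h3, U, hU, h4⟩ := exists_bump hD x
    exact ⟨U, mem_nhdsWithin_of_mem_nhds hU, ψ, h1, h2, h3, h4⟩

variable {Γ : Type*} [Group Γ] [MulAction Γ X] [ContinuousConstSMul Γ X]
  [ProperlyDiscontinuousSMul Γ X]

/-- Local finiteness of the translates of a function with compact support.
PROOF: a compact neighbourhood of `x` (`exists_compact_nhds`) and `ProperlyDiscontinuousSMul`. -/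
theorem exists_finite_translates {D : X → E} (hD : IsLocalHomeomorph D) {φ : X → ℝ}
    (hφ : ∃ N : Set X, IsCompact N ∧ ∀ x ∉ N, φ x = 0) (x : X) :
    ∃ U ∈ 𝓝 x, ∃ F : Finset Γ, ∀ y ∈ U, ∀ γ : Γ, γ ∉ F → φ (γ⁻¹ • y) = 0 := by
  have : ProperSpace E := FiniteDimensional.proper ℝ E
  obtain ⟨N, hN, h1⟩ := hφ
  obtain ⟨C, hC, hCc, -⟩ := exists_compact_nhds hD x univ_mem
  have hfin : Set.Finite {γ : Γ | ((γ • ·) '' N ∩ C).Nonempty} :=
    ProperlyDiscontinuousSMul.finite_disjoint_inter_image hN hCc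
  refine ⟨C, hC, hfin.toFinset, fun y hy γ hγ => ?_⟩
  rw [hfin.mem_toFinset] at hγ
  by_contra h2
  refine hγ ⟨y, ⟨γ⁻¹ • y, ?_, smul_inv_smul γ y⟩, hy⟩
  by_contra h3
  exact h2 (h1 _ h3)

private theorem PtPhi_cont {D : X → E} (hD : IsLocalHomeomorph D) {f : X → ℝ} (hf : LipD D f) :
    Continuous f := by
  rw [continuous_iff_continuousAt]
  intro x
  obtain ⟨U, hU, M, hM, h1⟩ := hf x
  have h2 : Tendsto (fun y => M * ‖D y - D x‖) (𝓝 x) (𝓝 0) := by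
    have h3 : Tendsto (fun y => M * ‖D y - D x‖) (𝓝 x) (𝓝 (M * ‖D x - D x‖)) :=
      ((hD.continuous.sub continuous_const).norm.const_mul M).continuousAt
    rwa [sub_self, norm_zero, mul_zero] at h3
  rw [ContinuousAt, tendsto_iff_norm_sub_tendsto_zero]
  refine squeeze_zero' (Eventually.of_forall fun y => norm_nonneg _) ?_ h2
  filter_upwards [hU] with y hy
  exact h1 y hy x (mem_of_mem_nhds hU)

private theorem PtPhi_smul {D : X → E} {L : Γ →* (E ≃ₗ[ℝ] E)} {b : Γ → E}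
    (heq : ∀ (γ : Γ) (x : X), D (γ • x) = L γ (D x) + b γ) {f : X → ℝ} (hf : LipD D f) (γ : Γ) :
    LipD D fun x => f (γ • x) := by
  intro x
  obtain ⟨U, hU, M, hM, h1⟩ := hf (γ • x)
  obtain ⟨A, hA⟩ : ∃ A : E →L[ℝ] E, ∀ v, A v = L γ v :=
    ⟨LinearMap.toContinuousLinearMap (L γ : E →ₗ[ℝ] E), fun _ => rfl⟩
  refine ⟨(γ • ·) ⁻¹' U, (continuous_const_smul γ).continuousAt.preimage_mem_nhds hU, M * ‖A‖,
    by positivity, fun y hy z hz => ?_⟩
  refine (h1 _ hy _ hz).trans ?_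
  have h2 : D (γ • y) - D (γ • z) = A (D y - D z) := by
    rw [heq, heq, hA, map_sub]
    abel
  rw [h2, mul_assoc]
  exact mul_le_mul_of_nonneg_left (A.le_opNorm _) hM

private theorem PtPhi_sum {D : X → E} {ι : Type*} (s : Finset ι) {f : ι → X → ℝ}
    (hf : ∀ i, LipD D (f i)) : LipD D fun x => ∑ i ∈ s, f i x := by
  classical
  induction s using Finset.induction_on with
  | empty => simpa using PtPhi_zero D
  | insert i s hi ih =>
    have h : (fun x => ∑ j ∈ insert i s, f j x) = fun x => f i x + ∑ j ∈ s, f j x := by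
      funext x
      rw [Finset.sum_insert hi]
    rw [h]
    exact PtPhi_add (hf i) ih

private theorem PtPhi_div {D : X → E} (hD : IsLocalHomeomorph D) {f g : X → ℝ} (hf : LipD D f)
    (hg : LipD D g) (hf0 : ∀ x, 0 ≤ f x) (hg0 : ∀ x, 0 < g x) : LipD D fun x => f x / g x := by
  intro x
  obtain ⟨U, hU, M, hM, h1⟩ := hf x
  obtain ⟨U', hU', M', hM', h2⟩ := hg x
  have hfc := (PtPhi_cont hD hf).continuousAt (x := x)
  have hgc := (PtPhi_cont hD hg).continuousAt (x := x)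
  have h3 : ∀ᶠ y in 𝓝 x, f y < f x + 1 := hfc.eventually_lt_const (by linarith)
  have h4 : ∀ᶠ y in 𝓝 x, g x / 2 < g y := hgc.eventually_const_lt (by linarith [hg0 x])
  have hc : 0 < g x / 2 := by linarith [hg0 x]
  obtain ⟨c, hcd⟩ : ∃ c, c = g x / 2 := ⟨_, rfl⟩
  obtain ⟨B, hB⟩ : ∃ B, B = f x + 1 := ⟨_, rfl⟩
  rw [← hcd] at h4 hc
  rw [← hB] at h3
  have hB0 : 0 < B := by rw [hB]; linarith [hf0 x]
  refine ⟨U ∩ U' ∩ {y | f y < B} ∩ {y | c < g y}, inter_mem (inter_mem (inter_mem hU hU') h3) h4,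
    M / c + B * M' / c ^ 2, by positivity, fun y hy z hz => ?_⟩
  obtain ⟨⟨⟨hy1, hy2⟩, hy3⟩, hy4⟩ := hy
  obtain ⟨⟨⟨hz1, hz2⟩, hz3⟩, hz4⟩ := hz
  change f y < B at hy3
  change c < g y at hy4
  change f z < B at hz3
  change c < g z at hz4
  have k1 := h1 y hy1 z hz1
  have k2 := h2 y hy2 z hz2
  have hgy : 0 < g y := hg0 y
  have hgz : 0 < g z := hg0 z
  have e1 : f y / g y - f z / g z = (f y - f z) / g y - f z * (g y - g z) / (g y * g z) := by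
    field_simp
    ring
  rw [e1]
  refine (norm_sub_le _ _).trans ?_
  rw [norm_div, norm_div, norm_mul, norm_mul, Real.norm_of_nonneg hgy.le,
    Real.norm_of_nonneg hgz.le, Real.norm_of_nonneg (hf0 z), add_mul]
  obtain ⟨δ, hδ⟩ : ∃ δ, δ = ‖D y - D z‖ := ⟨_, rfl⟩
  rw [← hδ] at k1 k2 ⊢
  have hδ0 : 0 ≤ δ := by rw [hδ]; exact norm_nonneg _
  refine add_le_add ?_ ?_
  · calc ‖f y - f z‖ / g y ≤ (M * δ) / c := by gcongr
      _ = M / c * δ := by ring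
  · calc f z * ‖g y - g z‖ / (g y * g z) ≤ B * (M' * δ) / (c * c) := by
          gcongr
      _ = B * M' / c ^ 2 * δ := by
          rw [sq]
          ring

/-- PROOF: `ψ` from `exists_bump_compact`, `Ψ x = ∑ᶠ γ, ψ (γ⁻¹ • x)`. Locally `Ψ` is a finite sum
(`exists_finite_translates`) of functions `ψ (γ⁻¹ • ·)`, which are in `LipD D` because
`D (γ⁻¹ • y) - D (γ⁻¹ • z) = L γ⁻¹ (D y - D z)`; `Ψ > 0` (`hco`), `Ψ (γ • x) = Ψ x` (reindex the sum). So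
`φ = ψ / Ψ` is in `LipD D` (`ψ`, `Ψ` are locally bounded, `Ψ` is locally bounded below: continuity) and
`∑ᶠ γ, φ (γ⁻¹ • x) = (∑ᶠ γ, ψ (γ⁻¹ • x)) / Ψ x = 1`. -/
theorem exists_phi {D : X → E} {L : Γ →* (E ≃ₗ[ℝ] E)} {b : Γ → E}
    (hD : IsLocalHomeomorph D) (heq : ∀ (γ : Γ) (x : X), D (γ • x) = L γ (D x) + b γ)
    (hco : ∃ K : Set X, IsCompact K ∧ ∀ x : X, ∃ γ : Γ, γ • x ∈ K) :
    ∃ φ : X → ℝ, LipD D φ ∧ (∃ N : Set X, IsCompact N ∧ ∀ x ∉ N, φ x = 0) ∧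
      ∀ x : X, ∑ᶠ γ : Γ, φ (γ⁻¹ • x) = 1 := by
  obtain ⟨K, hK, hcov⟩ := hco
  obtain ⟨ψ, p1, p2, p3, p4⟩ := exists_bump_compact hD hK
  obtain ⟨Ψ, hΨ⟩ : ∃ Ψ : X → ℝ, ∀ x, Ψ x = ∑ᶠ γ : Γ, ψ (γ⁻¹ • x) := ⟨_, fun _ => rfl⟩
  have hloc : ∀ x, ∃ U ∈ 𝓝 x, ∃ F : Finset Γ, ∀ y ∈ U, Ψ y = ∑ γ ∈ F, ψ (γ⁻¹ • y) := by
    intro x
    obtain ⟨U, hU, F, hF⟩ := exists_finite_translates (Γ := Γ) hD p3 x
    refine ⟨U, hU, F, fun y hy => ?_⟩
    rw [hΨ]
    refine finsum_eq_sum_of_support_subset _ fun γ hγ => ?_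
    by_contra h
    exact hγ (hF y hy γ (fun h' => h (Finset.mem_coe.2 h')))
  have hLip : LipD D Ψ := by
    intro x
    obtain ⟨U, hU, F, hF⟩ := hloc x
    obtain ⟨U', hU', M, hM, h1⟩ := PtPhi_sum F (fun γ : Γ => PtPhi_smul heq p1 γ⁻¹) x
    refine ⟨U ∩ U', inter_mem hU hU', M, hM, fun y hy z hz => ?_⟩
    rw [hF y hy.1, hF z hz.1]
    exact h1 y hy.2 z hz.2
  have hpos : ∀ x, 0 < Ψ x := by
    intro x
    obtain ⟨U, hU, F, hF⟩ := hloc x
    have hx := mem_of_mem_nhds hU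
    obtain ⟨γ, hγ⟩ := hcov x
    obtain ⟨U₁, hU₁, F₁, hF₁⟩ := exists_finite_translates (Γ := Γ) hD p3 x
    have h1 : Ψ x = ∑ γ ∈ F₁, ψ (γ⁻¹ • x) := by
      rw [hΨ]
      refine finsum_eq_sum_of_support_subset _ fun γ hγ => ?_
      by_contra h
      exact hγ (hF₁ x (mem_of_mem_nhds hU₁) γ (fun h' => h (Finset.mem_coe.2 h')))
    rw [h1]
    refine Finset.sum_pos' (fun _ _ => p2 _) ⟨γ⁻¹, ?_, ?_⟩
    · by_contra h
      have h2 := hF₁ x (mem_of_mem_nhds hU₁) γ⁻¹ h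
      rw [inv_inv] at h2
      exact (p4 _ hγ).ne' h2
    · rw [inv_inv]
      exact p4 _ hγ
  have hinv : ∀ (g : Γ) (x : X), Ψ (g • x) = Ψ x := by
    intro g x
    rw [hΨ, hΨ, ← finsum_comp_equiv (Equiv.mulLeft g)]
    refine finsum_congr fun γ => ?_
    rw [Equiv.coe_mulLeft, mul_inv_rev, mul_smul, inv_smul_smul]
  obtain ⟨N, hN, hN'⟩ := p3
  refine ⟨fun x => ψ x / Ψ x, PtPhi_div hD p1 hLip p2 hpos, ⟨N, hN, fun x hx => ?_⟩, fun x => ?_⟩
  · show ψ x / Ψ x = 0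
    rw [hN' x hx, zero_div]
  · obtain ⟨U, hU, F, hF⟩ := hloc x
    obtain ⟨U₁, hU₁, F₁, hF₁⟩ := exists_finite_translates (Γ := Γ) hD ⟨N, hN, hN'⟩ x
    have h1 : Ψ x = ∑ γ ∈ F₁, ψ (γ⁻¹ • x) := by
      rw [hΨ]
      refine finsum_eq_sum_of_support_subset _ fun γ hγ => ?_
      by_contra h
      exact hγ (hF₁ x (mem_of_mem_nhds hU₁) γ (fun h' => h (Finset.mem_coe.2 h')))
    have h2 : ∑ᶠ γ : Γ, ψ (γ⁻¹ • x) / Ψ (γ⁻¹ • x) = ∑ γ ∈ F₁, ψ (γ⁻¹ • x) / Ψ x := by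
      rw [finsum_eq_sum_of_support_subset (s := F₁)]
      · exact Finset.sum_congr rfl fun γ _ => by rw [hinv]
      · intro γ hγ
        by_contra h
        refine hγ ?_
        show ψ (γ⁻¹ • x) / Ψ (γ⁻¹ • x) = 0
        rw [hF₁ x (mem_of_mem_nhds hU₁) γ (fun h' => h (Finset.mem_coe.2 h')), zero_div]
    rw [h2, ← Finset.sum_div, ← h1]
    exact div_self (hpos x).ne'

end H83T
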